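import Pool.Agent.Helper96.PS.Defs

/-!
# PS: definitions for the local analysis (part C)
-/

namespace Pool.Agent.Helper96.PS

open Polynomial IsDedekindDomain

/-- `R` is a complete discrete valuation ring with uniformizer `ϖ` and fraction field `M` -/
structure CData {R : Type*} (ϖ : R) (M : Type*) [CommRing R] [IsDomain R] [Field M]
    [Algebra R M] : Prop where
  dvr : IsDiscreteValuationRing R
  frac : IsFractionRing R M
  compl : IsAdicComplete (Ideal.span {ϖ}) R
  unif : Irreducible ϖ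

/-- `R ⊂ M` is the completion of `F[t]`, `F(t)` at the irreducible polynomial `π` -/
structure LData {F : Type*} [Field F] (π : F[X]) (R M : Type*) [CommRing R] [IsDomain R]
    [Field M] [Algebra R M] [Algebra F[X] R] [Algebra (RatFunc F) M] : Prop extends
    CData (algebraMap F[X] R π) M where
  comp : ∀ a : F[X], algebraMap R M (algebraMap F[X] R a) =
    algebraMap (RatFunc F) M (algebraMap F[X] (RatFunc F) a)
  surj : ∀ (r : R) (k : ℕ), ∃ a : F[X], (algebraMap F[X] R π) ^ k ∣ r - algebraMap F[X] R a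
  inj : ∀ (a : F[X]) (k : ℕ), (algebraMap F[X] R π) ^ k ∣ algebraMap F[X] R a → π ^ k ∣ a

/-- `wv` is the valuation on the units of `M[x]/(fM)`, `fM = f` over `M`, belonging to the maximal
ideal `m` of `R[x]` -/
def IsValM {R M : Type*} [CommRing R] [Field M] [Algebra R M] (fM : M[X]) (f : R[X])
    (m : Ideal R[X]) (wv : (AdjoinRoot fM)ˣ →* Multiplicative ℤ) : Prop :=
  ∀ (P : R[X]) (a : (AdjoinRoot fM)ˣ),
    (a : AdjoinRoot fM) = AdjoinRoot.mk fM (P.map (algebraMap R M)) →
    ∀ j : ℕ, (wv a = Multiplicative.ofAdd (j : ℤ) ↔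
      P ∈ m ^ j ⊔ Ideal.span {f} ∧ P ∉ m ^ (j + 1) ⊔ Ideal.span {f})

/-- `A[x]/(f) → K[x]/(f)` -/
noncomputable def toK {F : Type*} [Field F] (f : F[X][X]) : AdjoinRoot f →+* AdjoinRoot (fK f) :=
  AdjoinRoot.map (algebraMap F[X] (RatFunc F)) f (fK f) dvd_rfl

/-- evaluation `M[x]/(f) → M` at a root -/
noncomputable def evR {M : Type*} [Field M] {f : M[X]} (x : M) (hx : f.eval₂ (RingHom.id M) x = 0) :
    AdjoinRoot f →+* M :=
  AdjoinRoot.lift (RingHom.id M) x hx

end Pool.Agent.Helper96.PS
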