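import Pool.Agent.Helper96.PS.DefsC

/-!
# PS-C0: complete discrete valuation rings, basics

`hC : CData ϖ M`. (1) `c ∈ M^*` is `ε ϖ^k`, `ε ∈ R^*`, `k ∈ ℤ` (DVR, fraction field). (2) if `2` is a unit of `R`: `f ∈ R[x]` monic, `a ∈ R[x]/(f)` with `a ≡ 1 mod ϖ`
is a square. Proof: `R[x]/(f)` is a free `R`-module of finite rank (basis `θ^j`), so `ϖ`-adically complete (coordinatewise); Newton/binomial: construct `s_0 = 1`,
`s_{k+1} = s_k - (s_k² - a)/2` with `s_k ≡ 1 mod ϖ`, `s_k² ≡ a mod ϖ^{k+1}`: if `s_k² - a = ϖ^{k+1} e`, `s_{k+1} = s_k - ϖ^{k+1} e/2`: `s_{k+1}² - a = ϖ^{k+1} e (1 - s_k) + ϖ^{2k+2} e²/4 ≡ 0 mod ϖ^{k+2}`.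
The sequence converges; the limit `s` has `s² = a` (Hausdorff). Special case: `a ∈ R`, `a ≡ 1 mod ϖ` (`f = X`, or directly; or `HenselianLocalRing`).
(3) `ε ϖ^k` is a square in `M` iff `k` is even and `ε` is a square mod `ϖ`: `x = ε' ϖ^j`, `x² = ε'² ϖ^{2j}`; conversely if `ε ≡ b² mod ϖ`, `b` is a unit, `ε/b² ≡ 1` is a square by (2).
-/

namespace Pool.Agent.Helper96.PS

open Polynomial

private theorem smod_iff {S : Type*} [CommRing S] (a x y : S) (n : ℕ) :
    x ≡ y [SMOD ((Ideal.span {a}) ^ n • ⊤ : Submodule S S)] ↔ a ^ n ∣ x - y := by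
  rw [SModEq.sub_mem, smul_eq_mul, Ideal.mul_top, Ideal.span_singleton_pow,
    Ideal.mem_span_singleton]

private theorem adic_free {S T ι : Type*} [CommRing S] [CommRing T] [Algebra S T] [Fintype ι]
    (b : Module.Basis ι S T) (p : S) (h : IsAdicComplete (Ideal.span {p}) S) :
    IsAdicComplete (Ideal.span {algebraMap S T p}) T := by
  have key : ∀ (n : ℕ) (x : T), (algebraMap S T p) ^ n ∣ x ↔ ∀ j, p ^ n ∣ b.repr x j := by
    intro n x
    constructor
    · rintro ⟨y, rfl⟩ j
      have : (algebraMap S T p) ^ n * y = (p ^ n) • y := by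
        rw [Algebra.smul_def, map_pow]
      rw [this, map_smul, Finsupp.smul_apply, smul_eq_mul]
      exact dvd_mul_right _ _
    · intro hx
      choose c hc using hx
      refine ⟨∑ j, c j • b j, ?_⟩
      conv_lhs => rw [← b.sum_repr x]
      rw [Finset.mul_sum]
      refine Finset.sum_congr rfl fun j _ => ?_
      rw [hc j, mul_smul, ← map_pow, ← Algebra.smul_def]
  have hH : IsHausdorff (Ideal.span {p}) S := h.toIsHausdorff
  have hP : IsPrecomplete (Ideal.span {p}) S := h.toIsPrecomplete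
  have hH' : IsHausdorff (Ideal.span {algebraMap S T p}) T := by
    refine ⟨fun x hx => ?_⟩
    have h1 : ∀ j, b.repr x j = 0 := by
      intro j
      refine hH.haus _ fun n => ?_
      rw [smod_iff, sub_zero]
      have := hx n
      rw [smod_iff, sub_zero, key] at this
      exact this j
    rw [← b.sum_repr x]
    simp [h1]
  have hP' : IsPrecomplete (Ideal.span {algebraMap S T p}) T := by
    refine ⟨fun f hf => ?_⟩
    have h1 : ∀ j, ∃ L : S, ∀ n, b.repr (f n) j ≡ L [SMOD ((Ideal.span {p}) ^ n • ⊤ : Submodule S S)] := by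
      intro j
      refine hP.prec fun {m n} hmn => ?_
      have := hf hmn
      rw [smod_iff, key] at this
      have := this j
      rw [map_sub, Finsupp.sub_apply] at this
      rw [smod_iff]
      exact this
    choose L hL using h1
    refine ⟨∑ j, L j • b j, fun n => ?_⟩
    rw [smod_iff, key]
    intro j
    have := hL j n
    rw [smod_iff] at this
    rw [map_sub, Finsupp.sub_apply]
    convert this using 2
    rw [b.repr_sum_self]
  exact { toIsHausdorff := hH', toIsPrecomplete := hP' }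

private theorem sq_near {S : Type*} [CommRing S] (p : S) (h : IsAdicComplete (Ideal.span {p}) S)
    (h2 : IsUnit (2 : S)) {a : S} (ha : p ∣ a - 1) : IsSquare a := by
  have hh : HenselianRing S (Ideal.span {p}) := IsAdicComplete.henselianRing S _
  obtain ⟨s, hs, -⟩ := hh.is_henselian (X ^ 2 - C a) (monic_X_pow_sub_C a two_ne_zero) 1
    (by
      rw [Ideal.mem_span_singleton]
      have : eval 1 (X ^ 2 - C a : S[X]) = -(a - 1) := by
        simp
      rw [this]
      exact (dvd_neg).2 ha)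
    (by
      have : eval 1 (derivative (X ^ 2 - C a : S[X])) = 2 := by
        simp [one_add_one_eq_two]
      rw [this]
      exact h2.map _)
  refine ⟨s, ?_⟩
  have : s ^ 2 - a = 0 := by simpa [IsRoot.def] using hs
  rw [← sq]
  exact (sub_eq_zero.1 this).symm

variable {R M : Type*} [CommRing R] [IsDomain R] [Field M] [Algebra R M] {ϖ : R}

private theorem maxId (hC : CData ϖ M) :
    have := hC.dvr
    IsLocalRing.maximalIdeal R = Ideal.span {ϖ} := by
  have := hC.dvr
  exact (IsDiscreteValuationRing.irreducible_iff_uniformizer ϖ).1 hC.unif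

private theorem nonunit_pi (hC : CData ϖ M) : ¬ IsUnit ϖ := hC.unif.not_isUnit

private theorem uniq_aux (hC : CData ϖ M) {ε ε' : R} (hε : IsUnit ε) {k l : ℤ} (hkl : k ≤ l)
    (h : algebraMap R M ε * algebraMap R M ϖ ^ k = algebraMap R M ε' * algebraMap R M ϖ ^ l) :
    k = l ∧ ε = ε' := by
  have := hC.frac
  have hinj : Function.Injective (algebraMap R M) := IsFractionRing.injective R M
  have hp0 : algebraMap R M ϖ ≠ 0 := by
    intro h0
    exact hC.unif.ne_zero (hinj (by rw [h0, map_zero]))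
  obtain ⟨m, hm⟩ := Int.eq_ofNat_of_zero_le (sub_nonneg.2 hkl)
  have hl : l = k + (m : ℤ) := by omega
  rw [hl, zpow_add₀ hp0, zpow_natCast] at h
  have h' : algebraMap R M ε = algebraMap R M (ε' * ϖ ^ m) := by
    rw [map_mul, map_pow]
    have hk : algebraMap R M ϖ ^ k ≠ 0 := zpow_ne_zero _ hp0
    apply mul_right_cancel₀ hk
    rw [h]
    ring
  have h'' : ε = ε' * ϖ ^ m := hinj h'
  rcases Nat.eq_zero_or_pos m with h0 | h0
  · subst h0
    refine ⟨by omega, ?_⟩
    simpa using h''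
  · exfalso
    apply nonunit_pi hC
    refine isUnit_of_dvd_unit ?_ hε
    rw [h'']
    exact dvd_mul_of_dvd_right (dvd_pow_self _ (by omega)) _

theorem CData.exists_val (hC : CData ϖ M) {c : M} (hc : c ≠ 0) :
    ∃ (k : ℤ) (ε : R), IsUnit ε ∧ c = algebraMap R M ε * algebraMap R M ϖ ^ k := by
  have := hC.dvr
  have := hC.frac
  have hinj : Function.Injective (algebraMap R M) := IsFractionRing.injective R M
  have hp0 : algebraMap R M ϖ ≠ 0 := by
    intro h0
    exact hC.unif.ne_zero (hinj (by rw [h0, map_zero]))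
  obtain ⟨a, b, hb, rfl⟩ := IsFractionRing.div_surjective (A := R) c
  have hb0 : b ≠ 0 := nonZeroDivisors.ne_zero hb
  have ha0 : a ≠ 0 := by
    rintro rfl
    exact hc (by simp)
  obtain ⟨n, u, hu⟩ := IsDiscreteValuationRing.eq_unit_mul_pow_irreducible ha0 hC.unif
  obtain ⟨m, v, hv⟩ := IsDiscreteValuationRing.eq_unit_mul_pow_irreducible hb0 hC.unif
  refine ⟨(n : ℤ) - m, u * ((v⁻¹ : Rˣ) : R), (u * v⁻¹).isUnit, ?_⟩
  have hv' : algebraMap R M (v : R) * algebraMap R M ((v⁻¹ : Rˣ) : R) = 1 := by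
    rw [← map_mul, Units.mul_inv, map_one]
  have hv0 : algebraMap R M (v : R) ≠ 0 := left_ne_zero_of_mul_eq_one hv'
  rw [hu, hv, zpow_sub₀ hp0, zpow_natCast, zpow_natCast, map_mul, map_mul, map_mul, map_pow,
    map_pow, div_eq_iff (mul_ne_zero hv0 (pow_ne_zero _ hp0))]
  have hq : algebraMap R M ϖ ^ n / algebraMap R M ϖ ^ m * algebraMap R M ϖ ^ m =
      algebraMap R M ϖ ^ n := div_mul_cancel₀ _ (pow_ne_zero _ hp0)
  linear_combination (-(algebraMap R M (u : R) * (algebraMap R M (v : R) *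
    algebraMap R M ((v⁻¹ : Rˣ) : R)))) * hq -
    algebraMap R M (u : R) * algebraMap R M ϖ ^ n * hv'

theorem CData.isSquare_adjoinRoot (hC : CData ϖ M) (h2 : IsUnit (2 : R)) {f : R[X]} (hf : f.Monic)
    {a : AdjoinRoot f} (ha : AdjoinRoot.of f ϖ ∣ a - 1) : IsSquare a := by
  have h := adic_free (AdjoinRoot.powerBasis' hf).basis ϖ hC.compl
  refine sq_near _ h ?_ ha
  have h := h2.map (AdjoinRoot.of f)
  rwa [map_ofNat] at h

theorem CData.isUnit_iff (hC : CData ϖ M) (a : R) : IsUnit a ↔ ¬ ϖ ∣ a := by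
  have := hC.dvr
  have h := maxId hC
  rw [← Ideal.mem_span_singleton, ← h, IsLocalRing.mem_maximalIdeal, mem_nonunits_iff, not_not]

theorem CData.isMaximal (hC : CData ϖ M) : (Ideal.span {ϖ} : Ideal R).IsMaximal := by
  have := hC.dvr
  rw [← maxId hC]
  infer_instance

theorem CData.isSquare_iff (hC : CData ϖ M) (h2 : IsUnit (2 : R)) {ε : R} (hε : IsUnit ε) (k : ℤ) :
    IsSquare (algebraMap R M ε * algebraMap R M ϖ ^ k) ↔
      Even k ∧ IsSquare (Ideal.Quotient.mk (Ideal.span {ϖ}) ε) := by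
  have := hC.dvr
  have := hC.frac
  have hinj : Function.Injective (algebraMap R M) := IsFractionRing.injective R M
  have hp0 : algebraMap R M ϖ ≠ 0 := by
    intro h0
    exact hC.unif.ne_zero (hinj (by rw [h0, map_zero]))
  constructor
  · rintro ⟨x, hx⟩
    have hx0 : x ≠ 0 := by
      rintro rfl
      rw [mul_zero] at hx
      have hε0 : algebraMap R M ε ≠ 0 := (hε.map (algebraMap R M)).ne_zero
      exact mul_ne_zero hε0 (zpow_ne_zero _ hp0) hx
    obtain ⟨j, ε', hε', rfl⟩ := hC.exists_val hx0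
    have h1 : algebraMap R M ε * algebraMap R M ϖ ^ k =
        algebraMap R M (ε' * ε') * algebraMap R M ϖ ^ (j + j) := by
      rw [hx, zpow_add₀ hp0, map_mul]
      ring
    have h3 : k = j + j ∧ ε = ε' * ε' := by
      rcases le_total k (j + j) with h | h
      · exact uniq_aux hC hε h h1
      · have := uniq_aux hC (hε'.mul hε') h h1.symm
        exact ⟨this.1.symm, this.2.symm⟩
    refine ⟨⟨j, h3.1⟩, ?_⟩
    rw [h3.2, map_mul]
    exact ⟨_, rfl⟩
  · rintro ⟨⟨m, rfl⟩, ⟨y, hy⟩⟩
    obtain ⟨b, rfl⟩ := Ideal.Quotient.mk_surjective y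
    have h1 : ϖ ∣ ε - b * b := by
      rw [← Ideal.mem_span_singleton, ← Ideal.Quotient.eq, hy, map_mul]
    have hb : IsUnit b := by
      rw [hC.isUnit_iff]
      intro hd
      apply (hC.isUnit_iff ε).1 hε
      have : ε = (ε - b * b) + b * b := by ring
      rw [this]
      exact dvd_add h1 (dvd_mul_of_dvd_left hd _)
    obtain ⟨v, rfl⟩ := hb
    have h4 : ϖ ∣ ε * ((v⁻¹ : Rˣ) : R) * ((v⁻¹ : Rˣ) : R) - 1 := by
      obtain ⟨c, hc⟩ := h1
      refine ⟨c * ((v⁻¹ : Rˣ) : R) * ((v⁻¹ : Rˣ) : R), ?_⟩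
      have hvv : (v : R) * ((v⁻¹ : Rˣ) : R) = 1 := Units.mul_inv v
      linear_combination ((v⁻¹ : Rˣ) : R) * ((v⁻¹ : Rˣ) : R) * hc +
        ((v : R) * ((v⁻¹ : Rˣ) : R) + 1) * hvv
    obtain ⟨s, hs⟩ := sq_near ϖ hC.compl h2 h4
    refine ⟨algebraMap R M (s * v) * algebraMap R M ϖ ^ m, ?_⟩
    have h5 : ε = (s * v) * (s * v) := by
      have hvv : (v : R) * ((v⁻¹ : Rˣ) : R) = 1 := Units.mul_inv v
      linear_combination (v : R) * (v : R) * hs -
        ε * ((v : R) * ((v⁻¹ : Rˣ) : R) + 1) * hvv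
    have h6 : algebraMap R M ε = algebraMap R M (s * v) * algebraMap R M (s * v) := by
      rw [← map_mul, ← h5]
    rw [h6, zpow_add₀ hp0]
    ring

theorem CData.isSquare_iff' (hC : CData ϖ M) (h2 : IsUnit (2 : R)) {ε : R} (hε : IsUnit ε) :
    IsSquare (algebraMap R M ε) ↔ IsSquare (Ideal.Quotient.mk (Ideal.span {ϖ}) ε) := by
  have := hC.isSquare_iff h2 hε 0
  rw [zpow_zero, mul_one] at this
  rw [this]
  simp

/-- every nonzero polynomial over `M` has a primitive multiple in `R[x]` -/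
theorem CData.exists_primitive (hC : CData ϖ M) {U : M[X]} (hU : U ≠ 0) :
    ∃ (k : ℤ) (U₀ : R[X]), U₀.map (algebraMap R M) = C (algebraMap R M ϖ ^ k) * U ∧
      U₀.map (Ideal.Quotient.mk (Ideal.span {ϖ})) ≠ 0 := by
  have := hC.dvr
  have := hC.frac
  have hinj : Function.Injective (algebraMap R M) := IsFractionRing.injective R M
  have hp0 : algebraMap R M ϖ ≠ 0 := by
    intro h0
    exact hC.unif.ne_zero (hinj (by rw [h0, map_zero]))
  obtain ⟨b, hb⟩ := IsLocalization.integerNormalization_map_to_map (nonZeroDivisors R) U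
  set W : R[X] := IsLocalization.integerNormalization (nonZeroDivisors R) U with hW
  have hb0 : (b : R) ≠ 0 := nonZeroDivisors.coe_ne_zero b
  have hb' : algebraMap R M (b : R) ≠ 0 := by
    intro h0
    exact hb0 (hinj (by rw [h0, map_zero]))
  obtain ⟨m, v, hv⟩ := IsDiscreteValuationRing.eq_unit_mul_pow_irreducible hb0 hC.unif
  have hbW : W.map (algebraMap R M) = C (algebraMap R M (b : R)) * U := by
    rw [hb]
    ext i
    rw [coeff_smul, coeff_C_mul, Algebra.smul_def]
  have hW0 : W ≠ 0 := by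
    intro h0
    rw [h0, Polynomial.map_zero] at hbW
    exact mul_ne_zero (C_ne_zero.2 hb') hU hbW.symm
  have hnu : ¬ IsUnit (C ϖ : R[X]) := by
    rw [Polynomial.isUnit_C]
    exact nonunit_pi hC
  have hfin : FiniteMultiplicity (C ϖ : R[X]) W :=
    FiniteMultiplicity.of_not_isUnit hnu hW0
  obtain ⟨c, hc, hnc⟩ := hfin.exists_eq_pow_mul_and_not_dvd
  refine ⟨(m : ℤ) - (multiplicity (C ϖ) W : ℤ), C ((v⁻¹ : Rˣ) : R) * c, ?_, ?_⟩
  · have hne : (C (algebraMap R M ϖ) ^ (multiplicity (C ϖ) W) : M[X]) ≠ 0 :=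
      pow_ne_zero _ (C_ne_zero.2 hp0)
    apply mul_left_cancel₀ hne
    have h1 : (C (algebraMap R M ϖ) ^ (multiplicity (C ϖ) W) : M[X]) * c.map (algebraMap R M) =
        C (algebraMap R M (b : R)) * U := by
      rw [← hbW]
      conv_rhs => rw [hc]
      rw [Polynomial.map_mul, Polynomial.map_pow, map_C]
    have hv' : algebraMap R M ((v⁻¹ : Rˣ) : R) * algebraMap R M (v : R) = 1 := by
      rw [← map_mul, Units.inv_mul, map_one]
    rw [Polynomial.map_mul, map_C]
    calc C (algebraMap R M ϖ) ^ (multiplicity (C ϖ) W) *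
          (C (algebraMap R M ((v⁻¹ : Rˣ) : R)) * c.map (algebraMap R M))
        = C (algebraMap R M ((v⁻¹ : Rˣ) : R)) * (C (algebraMap R M ϖ) ^ (multiplicity (C ϖ) W) *
            c.map (algebraMap R M)) := by ring
      _ = C (algebraMap R M ((v⁻¹ : Rˣ) : R)) * (C (algebraMap R M (b : R)) * U) := by rw [h1]
      _ = C (algebraMap R M ((v⁻¹ : Rˣ) : R) * algebraMap R M (v : R)) *
            C (algebraMap R M ϖ ^ m) * U := by
          rw [hv, map_mul (algebraMap R M), map_pow, C_mul, C_mul]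
          ring
      _ = C (algebraMap R M ϖ ^ m) * U := by rw [hv', C_1, one_mul]
      _ = C (algebraMap R M ϖ) ^ (multiplicity (C ϖ) W) *
            (C (algebraMap R M ϖ ^ ((m : ℤ) - (multiplicity (C ϖ) W : ℤ))) * U) := by
          rw [← mul_assoc, ← C_pow, ← C_mul]
          congr 2
          rw [← zpow_natCast, ← zpow_natCast, ← zpow_add₀ hp0]
          congr 1
          ring
  · intro h0
    apply hnc
    rw [Polynomial.map_mul, map_C] at h0
    rw [C_dvd_iff_dvd_coeff]
    intro i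
    have h1 := congrArg (fun q => q.coeff i) h0
    simp only [coeff_C_mul, coeff_map, coeff_zero] at h1
    rw [← map_mul, Ideal.Quotient.eq_zero_iff_mem, Ideal.mem_span_singleton] at h1
    have : c.coeff i = (v : R) * (((v⁻¹ : Rˣ) : R) * c.coeff i) := by
      rw [← mul_assoc, Units.mul_inv, one_mul]
    rw [this]
    exact dvd_mul_of_dvd_right h1 _

end Pool.Agent.Helper96.PS
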