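import Pool.Agent.Helper96.PS.CompVal

/-!
# PS-C7b: the completions of `F(t)` at the finite places

`v` a height one prime of `F[t]`, `v = (π)`. `v.adicCompletion (RatFunc F)` is a complete field with `Valued … ℤᵐ⁰`, `R = v.adicCompletionIntegers (RatFunc F)` is its ring of integers (`Algebra F[X] R` by Mathlib), `v(π) = exp(-1)` (`HeightOneSpectrum.intValuation_singleton` etc.).
`CData`: `cdata_of_valued` (PS-C7a) — `adicCompletionIntegers` is the valuation subring `(Valued.v).valuationSubring`; transfer if it is not syntactically the integer ring.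
`comp`: both sides are the coercion of `a`. `surj`: density: for `r ∈ R` there is `x ∈ RatFunc F` with `v(r - x) ≤ exp(-k)` (`HeightOneSpectrum.denseRange_algebraMap`), then `v(x) ≤ 1`, `x = a'/b'` with `π ∤ b'`; `b'` is invertible mod `π^k`: `b' b'' ≡ 1`, `a = a' b''`.
(See Pool/Agent/Helper72/TD/IBHensel.lean for density and the extension of the valuation: `valuedAdicCompletion_eq_valuation'`.) `inj`: `π^k ∣ a` in `R` means `v(a) ≤ exp(-k)`, i.e. `π^k ∣ a` in `F[t]` (`intValuation_le_pow_iff_dvd`).
-/

namespace Pool.Agent.Helper96.PS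

open Polynomial IsDedekindDomain

private theorem dense_approx_cd {L Γ K : Type*} [Field L] [LinearOrderedCommGroupWithZero Γ]
    [Valued L Γ] (f : K → L) (hf : DenseRange f) (x y₀ : L) (hy : y₀ ≠ 0) :
    ∃ a : K, Valued.v (x - f a) < (Valued.v y₀ : Γ) := by
  have h : {y : L | (Valued.v (x - y) : Γ) < Valued.v y₀} ∈ nhds x := by
    rw [Valued.mem_nhds]
    have h' : (Valued.v (R := L) (Γ₀ := Γ)).restrict y₀ ≠ 0 := by simp [hy]
    refine ⟨Units.mk0 _ h', ?_⟩
    rw [Units.val_mk0]
    intro y hy
    have h3 := ((Valued.v (R := L) (Γ₀ := Γ)).restrict_lt_iff).mp hy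
    show (Valued.v (x - y) : Γ) < Valued.v y₀
    rwa [Valuation.map_sub_swap] at h3
  obtain ⟨y, hy, ⟨a, rfl⟩⟩ := mem_closure_iff_nhds.1 (hf x) _ h
  exact ⟨a, hy⟩

private theorem cdata_comp {F : Type*} [Field F] (v : HeightOneSpectrum F[X]) (ϖ : v.adicCompletionIntegers (RatFunc F))
    (hϖ : Valued.v (ϖ : v.adicCompletion (RatFunc F)) = WithZero.exp (-1 : ℤ)) :
    CData ϖ (v.adicCompletion (RatFunc F)) :=
  cdata_of_valued (L := v.adicCompletion (RatFunc F)) ⟨ϖ.1, ϖ.2⟩ hϖ

open WithZero in
theorem lData_adicCompletion {F : Type*} [Field F] (v : HeightOneSpectrum F[X]) {π : F[X]}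
    (hπ : v.asIdeal = Ideal.span {π}) :
    LData π (v.adicCompletionIntegers (RatFunc F)) (v.adicCompletion (RatFunc F)) := by
  have hπ0 : π ≠ 0 := by
    rintro rfl
    exact v.ne_bot (by rw [hπ]; simp)
  have hval : ∀ a : F[X], (Valued.v ((algebraMap F[X] (v.adicCompletionIntegers (RatFunc F)) a :
      v.adicCompletionIntegers (RatFunc F)) : v.adicCompletion (RatFunc F)) : ℤᵐ⁰) =
      v.intValuation a := by
    intro a
    rw [← HeightOneSpectrum.valuation_of_algebraMap (K := RatFunc F)]
    exact HeightOneSpectrum.valuedAdicCompletion_eq_valuation' v _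
  have hϖ : (Valued.v ((algebraMap F[X] (v.adicCompletionIntegers (RatFunc F)) π :
      v.adicCompletionIntegers (RatFunc F)) : v.adicCompletion (RatFunc F)) : ℤᵐ⁰) =
      WithZero.exp (-1 : ℤ) := by
    rw [hval, HeightOneSpectrum.intValuation_singleton v hπ0 hπ]
  have hpow : ∀ k : ℕ, (Valued.v (((algebraMap F[X] (v.adicCompletionIntegers (RatFunc F)) π) ^ k :
      v.adicCompletionIntegers (RatFunc F)) : v.adicCompletion (RatFunc F)) : ℤᵐ⁰) =
      WithZero.exp (-(k : ℤ)) := by
    intro k
    rw [← map_pow, hval, map_pow, HeightOneSpectrum.intValuation_singleton v hπ0 hπ,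
      ← WithZero.exp_nsmul]
    congr 1
    simp
  refine { toCData := cdata_comp v _ hϖ, comp := fun a => rfl, surj := ?_, inj := ?_ }
  · intro r k
    have hne : ((((algebraMap F[X] (v.adicCompletionIntegers (RatFunc F)) π) ^ k :
      v.adicCompletionIntegers (RatFunc F)) : v.adicCompletion (RatFunc F))) ≠ 0 := by
      intro h0
      have := hpow k
      rw [h0, map_zero] at this
      exact WithZero.exp_ne_zero this.symm
    obtain ⟨x, hx⟩ := dense_approx_cd (Γ := ℤᵐ⁰) _
      (HeightOneSpectrum.denseRange_algebraMap (K := RatFunc F) v)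
      (r : v.adicCompletion (RatFunc F)) _ hne
    rw [hpow] at hx
    have hx1 : v.valuation (RatFunc F) x ≤ 1 := by
      have h1 : (Valued.v (algebraMap (RatFunc F) (v.adicCompletion (RatFunc F)) x) : ℤᵐ⁰) =
        v.valuation (RatFunc F) x := HeightOneSpectrum.valuedAdicCompletion_eq_valuation' v x
      rw [← h1]
      have e : algebraMap (RatFunc F) (v.adicCompletion (RatFunc F)) x =
        (r : v.adicCompletion (RatFunc F)) - ((r : v.adicCompletion (RatFunc F)) -
          algebraMap (RatFunc F) (v.adicCompletion (RatFunc F)) x) := by ring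
      rw [e]
      refine (Valuation.map_sub _ _ _).trans (max_le r.2 (hx.le.trans ?_))
      rw [← WithZero.exp_zero, WithZero.exp_le_exp]
      omega
    obtain ⟨a, ha⟩ := HeightOneSpectrum.exists_valuation_sub_lt_of_integer v hx1
      (Units.mk0 (WithZero.exp (-(k : ℤ))) WithZero.exp_ne_zero)
    rw [Units.val_mk0] at ha
    refine ⟨a, ?_⟩
    have h2 : (Valued.v ((r : v.adicCompletion (RatFunc F)) -
        ((algebraMap F[X] (v.adicCompletionIntegers (RatFunc F)) a :
        v.adicCompletionIntegers (RatFunc F)) : v.adicCompletion (RatFunc F))) : ℤᵐ⁰) ≤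
        WithZero.exp (-(k : ℤ)) := by
      have e : (r : v.adicCompletion (RatFunc F)) -
        ((algebraMap F[X] (v.adicCompletionIntegers (RatFunc F)) a :
        v.adicCompletionIntegers (RatFunc F)) : v.adicCompletion (RatFunc F)) =
        ((r : v.adicCompletion (RatFunc F)) -
          algebraMap (RatFunc F) (v.adicCompletion (RatFunc F)) x) -
        algebraMap (RatFunc F) (v.adicCompletion (RatFunc F))
          (algebraMap F[X] (RatFunc F) a - x) := by
        rw [map_sub]
        have e2 : ((algebraMap F[X] (v.adicCompletionIntegers (RatFunc F)) a :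
          v.adicCompletionIntegers (RatFunc F)) : v.adicCompletion (RatFunc F)) =
          algebraMap (RatFunc F) (v.adicCompletion (RatFunc F))
          (algebraMap F[X] (RatFunc F) a) := rfl
        rw [e2]
        ring
      rw [e]
      refine (Valuation.map_sub _ _ _).trans (max_le hx.le ?_)
      have h1 : (Valued.v (algebraMap (RatFunc F) (v.adicCompletion (RatFunc F))
          (algebraMap F[X] (RatFunc F) a - x)) : ℤᵐ⁰) =
        v.valuation (RatFunc F) (algebraMap F[X] (RatFunc F) a - x) :=
          HeightOneSpectrum.valuedAdicCompletion_eq_valuation' v _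
      rw [h1]
      exact ha.le
    have h3 : ((r : v.adicCompletion (RatFunc F)) -
        ((algebraMap F[X] (v.adicCompletionIntegers (RatFunc F)) a :
        v.adicCompletionIntegers (RatFunc F)) : v.adicCompletion (RatFunc F))) /
        ((((algebraMap F[X] (v.adicCompletionIntegers (RatFunc F)) π) ^ k :
      v.adicCompletionIntegers (RatFunc F)) : v.adicCompletion (RatFunc F))) ∈
        v.adicCompletionIntegers (RatFunc F) := by
      rw [HeightOneSpectrum.mem_adicCompletionIntegers, map_div₀, hpow]
      exact div_le_one_of_le₀ h2 zero_le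
    refine ⟨⟨_, h3⟩, ?_⟩
    apply Subtype.ext
    show (r : v.adicCompletion (RatFunc F)) -
        ((algebraMap F[X] (v.adicCompletionIntegers (RatFunc F)) a :
        v.adicCompletionIntegers (RatFunc F)) : v.adicCompletion (RatFunc F)) =
        ((((algebraMap F[X] (v.adicCompletionIntegers (RatFunc F)) π) ^ k :
      v.adicCompletionIntegers (RatFunc F)) : v.adicCompletion (RatFunc F))) * (_ / _)
    rw [mul_div_cancel₀ _ hne]
  · intro a k h
    obtain ⟨c, hc⟩ := h
    have h1 : v.intValuation a ≤ WithZero.exp (-(k : ℤ)) := by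
      rw [← hval, hc]
      show (Valued.v (((((algebraMap F[X] (v.adicCompletionIntegers (RatFunc F)) π) ^ k :
        v.adicCompletionIntegers (RatFunc F)) : v.adicCompletion (RatFunc F))) *
        (c : v.adicCompletion (RatFunc F))) : ℤᵐ⁰) ≤ _
      rw [map_mul, hpow]
      exact mul_le_of_le_one_right' c.2
    rw [HeightOneSpectrum.intValuation_le_pow_iff_mem, hπ, Ideal.span_singleton_pow,
      Ideal.mem_span_singleton] at h1
    exact h1

end Pool.Agent.Helper96.PS
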