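import Pool.Agent.Helper96.PS.DefsC

/-!
# PS-C7a: the integers of a complete discretely valued field are a complete DVR

`L` a field with `Valued L ℤᵐ⁰` (`WithZero (Multiplicative ℤ)`), complete, `ϖ` with valuation `exp(-1)`. `O = {v ≤ 1}` is a valuation subring; every nonzero element is `ε ϖ^k`: DVR with uniformizer `ϖ`
(`IsDiscreteValuationRing.ofHasUnitMulPowIrreducibleFactorization` …; see Mathlib.NumberTheory.NumberField.Completion.FinitePlace and Mathlib.Topology.Algebra.Valued.LocallyCompact, or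
Mathlib.NumberTheory.LocalField.Basic for the adic completeness). Fraction field: `L` (valuation ring). Adic completeness for `(ϖ)`: `ϖ^k O = {v ≤ exp(-k)}`: Hausdorff since `v x ≤ exp(-k)` for all `k` gives `x = 0`; precomplete: a sequence with
`x_{k+1} - x_k ∈ ϖ^k O` is Cauchy, converges in `L`, the limit is in `O` and congruent to `x_k` mod `ϖ^k` (closed balls are closed).
-/

namespace Pool.Agent.Helper96.PS

open Polynomial WithZero Filter Topology

section

variable {L : Type*} [Field L] [Valued L ℤᵐ⁰]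

private abbrev vv : Valuation L ℤᵐ⁰ := Valued.v (R := L) (Γ₀ := ℤᵐ⁰)

private theorem vpow {ϖ : (vv (L := L)).integer} (hϖ : vv (L := L) (ϖ : L) = exp (-1 : ℤ)) (k : ℕ) :
    vv (L := L) ((ϖ ^ k : (vv (L := L)).integer) : L) = exp (-(k : ℤ)) := by
  rw [SubmonoidClass.coe_pow, map_pow, hϖ, ← exp_nsmul]
  congr 1
  simp

private theorem vdvd (x y : (vv (L := L)).integer) : x ∣ y ↔ vv (L := L) (y : L) ≤ vv (L := L) (x : L) :=
  (Valuation.integer.integers (vv (L := L))).dvd_iff_le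

private theorem vunit {x : (vv (L := L)).integer} : IsUnit x ↔ vv (L := L) (x : L) = 1 :=
  (Valuation.integer.integers (vv (L := L))).isUnit_iff_valuation_eq_one

private theorem vexp {x : (vv (L := L)).integer} (hx : x ≠ 0) :
    ∃ k : ℕ, vv (L := L) (x : L) = exp (-(k : ℤ)) := by
  have h0 : vv (L := L) (x : L) ≠ 0 := by
    rw [Valuation.ne_zero_iff]
    exact fun h => hx (Subtype.ext h)
  have h1 : vv (L := L) (x : L) ≤ 1 := x.2
  rw [← exp_log h0, ← exp_zero, exp_le_exp] at h1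
  refine ⟨(-(log (vv (L := L) (x : L)))).toNat, ?_⟩
  rw [Int.toNat_of_nonneg (by omega), neg_neg, exp_log h0]

private theorem virr {ϖ : (vv (L := L)).integer} (hϖ : vv (L := L) (ϖ : L) = exp (-1 : ℤ)) :
    Irreducible ϖ := by
  have hne : ϖ ≠ 0 := by
    intro h
    rw [h, ZeroMemClass.coe_zero, map_zero] at hϖ
    exact exp_ne_zero hϖ.symm
  refine ⟨?_, ?_⟩
  · rw [vunit, hϖ, exp_eq_one]
    norm_num
  · intro a b hab
    have ha : a ≠ 0 := by
      rintro rfl
      rw [zero_mul] at hab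
      exact hne hab
    have hb : b ≠ 0 := by
      rintro rfl
      rw [mul_zero] at hab
      exact hne hab
    obtain ⟨i, hi⟩ := vexp ha
    obtain ⟨j, hj⟩ := vexp hb
    have h1 : exp (-1 : ℤ) = exp (-(i : ℤ)) * exp (-(j : ℤ)) := by
      rw [← hϖ, hab, ← hi, ← hj, ← map_mul]
      rfl
    rw [← exp_add, exp_inj] at h1
    rcases Nat.eq_zero_or_pos i with h | h
    · left
      rw [vunit, hi, h]
      simp
    · right
      have : j = 0 := by omega
      rw [vunit, hj, this]
      simp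

private theorem vdvr {ϖ : (vv (L := L)).integer} (hϖ : vv (L := L) (ϖ : L) = exp (-1 : ℤ)) :
    IsDiscreteValuationRing (vv (L := L)).integer := by
  apply IsDiscreteValuationRing.ofHasUnitMulPowIrreducibleFactorization
  refine ⟨ϖ, virr hϖ, fun {x} hx => ?_⟩
  obtain ⟨k, hk⟩ := vexp hx
  refine ⟨k, associated_of_dvd_dvd ?_ ?_⟩
  · rw [vdvd, vpow hϖ, hk]
  · rw [vdvd, vpow hϖ, hk]

private theorem vfrac : IsFractionRing (vv (L := L)).integer L := by
  refine IsFractionRing.of_field _ _ fun z => ?_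
  rcases le_total (vv (L := L) z) 1 with h | h
  · refine ⟨⟨z, h⟩, 1, ?_⟩
    rw [map_one, div_one]
    rfl
  · have h1 : vv (L := L) z⁻¹ ≤ 1 := by
      rw [map_inv₀]
      exact inv_le_one_of_one_le₀ h
    refine ⟨1, ⟨z⁻¹, h1⟩, ?_⟩
    have h2 : algebraMap (vv (L := L)).integer L ⟨z⁻¹, h1⟩ = z⁻¹ := rfl
    rw [map_one, h2, one_div, inv_inv]

private theorem vsmod {ϖ : (vv (L := L)).integer} (hϖ : vv (L := L) (ϖ : L) = exp (-1 : ℤ)) (n : ℕ)
    (x y : (vv (L := L)).integer) :
    x ≡ y [SMOD (Ideal.span {ϖ} ^ n • ⊤ : Submodule (vv (L := L)).integer (vv (L := L)).integer)] ↔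
      vv (L := L) ((x : L) - y) ≤ exp (-(n : ℤ)) := by
  rw [SModEq.sub_mem, smul_eq_mul, Ideal.mul_top, Ideal.span_singleton_pow,
    Ideal.mem_span_singleton, vdvd, vpow hϖ]
  rfl

private theorem vsmall {γ : ℤᵐ⁰} (hγ : γ ≠ 0) : ∃ N : ℕ, exp (-(N : ℤ)) < γ := by
  refine ⟨(1 - log γ).toNat, ?_⟩
  rw [← exp_log hγ, exp_lt_exp]
  have := Int.self_le_toNat (1 - log γ)
  rw [log_exp]
  omega

end

theorem cdata_of_valued {L : Type*} [Field L] [Valued L ℤᵐ⁰] [CompleteSpace L]
    (ϖ : (Valued.v (R := L) (Γ₀ := ℤᵐ⁰)).integer) (hϖ : Valued.v (ϖ : L) = exp (-1 : ℤ)) :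
    CData ϖ L := by
  have hdvr := vdvr hϖ
  refine ⟨hdvr, vfrac, ?_, virr hϖ⟩
  refine { haus' := ?_, prec' := ?_ }
  · intro x hx
    by_contra h0
    obtain ⟨k, hk⟩ := vexp h0
    have h1 := (vsmod hϖ (k + 1) x 0).1 (hx (k + 1))
    have h2 : ((x : L) - ((0 : (vv (L := L)).integer) : L)) = x := by simp
    rw [h2, hk, exp_le_exp] at h1
    push_cast at h1
    omega
  · intro f hf
    have hf' : ∀ {m n : ℕ}, m ≤ n → vv (L := L) ((f m : L) - f n) ≤ exp (-(m : ℤ)) := fun {m n} hmn =>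
      (vsmod hϖ m _ _).1 (hf hmn)
    have hcau : CauchySeq (fun n => (f n : L)) := by
      rw [(Valued.hasBasis_uniformity L ℤᵐ⁰).cauchySeq_iff]
      intro γ _
      have hγ : MonoidWithZeroHom.ValueGroup₀.embedding γ.1 ≠ (0 : ℤᵐ⁰) := by
        intro h
        exact γ.ne_zero ((map_eq_zero _).1 h)
      obtain ⟨N, hN⟩ := vsmall hγ
      refine ⟨N, fun m hm n hn => ?_⟩
      change (Valued.v (R := L) (Γ₀ := ℤᵐ⁰)).restrict ((f n : L) - f m) < γ.1
      rw [Valuation.restrict_lt_iff_lt_embedding]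
      refine lt_of_le_of_lt ?_ hN
      have h1 : (f n : L) - f m = ((f N : L) - f m) - ((f N : L) - f n) := by ring
      rw [h1]
      exact (Valuation.map_sub _ _ _).trans (max_le (hf' hm) (hf' hn))
    obtain ⟨l, hl⟩ := cauchySeq_tendsto_of_complete hcau
    have key : ∀ n, vv (L := L) ((f n : L) - l) ≤ exp (-(n : ℤ)) := by
      intro n
      have hne : (Valued.v (R := L) (Γ₀ := ℤᵐ⁰)).restrict ((ϖ ^ n : (vv (L := L)).integer) : L) ≠ 0 := by
        rw [Ne, map_eq_zero]
        intro h0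
        have h1 := vpow hϖ n
        rw [h0, map_zero] at h1
        exact exp_ne_zero h1.symm
      have hev : ∀ᶠ m in atTop, (f m : L) ∈ {y : L | (Valued.v (R := L) (Γ₀ := ℤᵐ⁰)).restrict (y - l) <
          (Units.mk0 _ hne).1} := by
        apply hl
        rw [Valued.mem_nhds]
        exact ⟨Units.mk0 _ hne, subset_rfl⟩
      obtain ⟨m, hm1, hm2⟩ := (hev.and (eventually_ge_atTop n)).exists
      have h3 : vv (L := L) ((f m : L) - l) < exp (-(n : ℤ)) := by
        have h4 : (Valued.v (R := L) (Γ₀ := ℤᵐ⁰)).restrict ((f m : L) - l) <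
          (Valued.v (R := L) (Γ₀ := ℤᵐ⁰)).restrict ((ϖ ^ n : (vv (L := L)).integer) : L) := hm1
        rw [Valuation.restrict_lt_iff] at h4
        rw [← vpow hϖ n]
        exact h4
      have h5 : (f n : L) - l = ((f n : L) - f m) + ((f m : L) - l) := by ring
      rw [h5]
      exact (Valuation.map_add _ _ _).trans (max_le (hf' hm2) h3.le)
    have hl1 : vv (L := L) l ≤ 1 := by
      have h0 := key 0
      rw [Nat.cast_zero, neg_zero, exp_zero] at h0
      have h1 : l = (f 0 : L) - ((f 0 : L) - l) := by ring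
      rw [h1]
      exact (Valuation.map_sub _ _ _).trans (max_le (f 0).2 h0)
    exact ⟨⟨l, hl1⟩, fun n => (vsmod hϖ n _ _).2 (key n)⟩

end Pool.Agent.Helper96.PS
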