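import Pool.Agent.Helper96.PS.CBasic

/-!
# PS-C4a: norms from `R[x]/(a)`, `a` pure modulo `ϖ`

`hC : CData ϖ M`, `a ∈ R[x]` monic, `ā = v̄^r` with `v̄` irreducible of degree `d` over `κ = R/ϖ`. `W = R[x]/(a)` is a free `R`-module of rank `d r`, a local ring with maximal ideal `(ϖ, v)` and residue field
`κ[x]/(v̄)` of degree `d` over `κ`. For `z ∈ W` with nonzero norm: `N(z) = ε ϖ^{d s}`, `ε` a unit.

Proof. `N(z) = det(z | W) = ε ϖ^l` with `l = length_R W/zW` (Smith normal form over the DVR `R`: `W/zW ≅ ⊕ R/ϖ^{l_i}`, `∑ l_i = l`), and `W/zW` is a `W`-module of finite length whose composition factors are all `≅ W/(ϖ, v)`, of `R`-length `d`, so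
`d ∣ l`. (Mathlib: `Module.length`, `Ring.ord`, `Submodule.length_…`; or a direct argument: the chain of submodules `(ϖ, v)^i W/zW`, each quotient a `κ[x]/(v̄)`-vector space.)
Special case: `z` a unit mod `(ϖ, v)`: `z` is a unit of `W`, the norm is a unit.
-/

namespace Pool.Agent.Helper96.PS

open Polynomial

section general

variable {R : Type*} [CommRing R]

/-- a polynomial which vanishes modulo `ϖ` is a multiple of `ϖ` -/
private theorem dvd_of_map_eq_zero {κ : Type*} [CommRing κ] {q : R →+* κ} {ϖ : R} (hk : ∀ r, q r = 0 → ϖ ∣ r) {p : R[X]}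
    (hp : p.map q = 0) : C ϖ ∣ p := by
  rw [C_dvd_iff_dvd_coeff]
  intro i
  apply hk
  rw [← coeff_map, hp, coeff_zero]

/-- Nakayama -/
private theorem unit_of_coprime [IsDomain R] [IsDiscreteValuationRing R] {κ : Type*} [CommRing κ]
    {q : R →+* κ} (hq : Function.Surjective q) {ϖ : R}
    (hϖ : Irreducible ϖ) (hk : ∀ r, q r = 0 → ϖ ∣ r) {f a : R[X]} (hf : f.Monic)
    (hcop : IsCoprime (f.map q) (a.map q)) : IsUnit (AdjoinRoot.mk f a) := by
  have := hf.finite_adjoinRoot
  obtain ⟨u, w, huw⟩ := hcop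
  obtain ⟨u', rfl⟩ := map_surjective q hq u
  obtain ⟨w', rfl⟩ := map_surjective q hq w
  have h0 : (u' * f + w' * a - 1).map q = 0 := by
    rw [Polynomial.map_sub, Polynomial.map_add, Polynomial.map_mul, Polynomial.map_mul,
      Polynomial.map_one, huw, sub_self]
  obtain ⟨g, hg⟩ := dvd_of_map_eq_zero hk h0
  have h1 : AdjoinRoot.mk f w' * AdjoinRoot.mk f a = 1 + AdjoinRoot.of f ϖ * AdjoinRoot.mk f g := by
    have h2 := congrArg (AdjoinRoot.mk f) hg
    rw [map_sub, map_add, map_mul, map_mul, AdjoinRoot.mk_self, mul_zero, zero_add, map_one,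
      map_mul, AdjoinRoot.mk_C] at h2
    rw [← h2]
    ring
  set N : Submodule R (AdjoinRoot f) :=
    (Ideal.span {AdjoinRoot.mk f a}).restrictScalars R with hN
  have h3 : (⊤ : Submodule R (AdjoinRoot f)) ≤ N := by
    refine Submodule.le_of_le_smul_of_le_jacobson_bot (I := Ideal.span {ϖ}) Module.Finite.fg_top
      ?_ ?_
    · rw [IsLocalRing.jacobson_eq_maximalIdeal _ bot_ne_top, Ideal.span_singleton_le_iff_mem]
      exact (IsLocalRing.mem_maximalIdeal ϖ).2 hϖ.not_isUnit
    · intro x _
      have h4 : x = x * AdjoinRoot.mk f w' * AdjoinRoot.mk f a +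
          ϖ • (-(x * AdjoinRoot.mk f g)) := by
        have h5 : ϖ • (-(x * AdjoinRoot.mk f g)) =
            -(x * (AdjoinRoot.of f ϖ * AdjoinRoot.mk f g)) := by
          rw [Algebra.smul_def, AdjoinRoot.algebraMap_eq]
          ring
        rw [h5, mul_assoc, h1]
        ring
      rw [h4]
      refine Submodule.add_mem_sup ?_ ?_
      · rw [hN, Submodule.restrictScalars_mem]
        exact Ideal.mul_mem_left _ _ (Ideal.mem_span_singleton_self _)
      · exact Submodule.smul_mem_smul (Ideal.mem_span_singleton_self ϖ) Submodule.mem_top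
  have h6 : (1 : AdjoinRoot f) ∈ Ideal.span {AdjoinRoot.mk f a} := by
    have h7 : (1 : AdjoinRoot f) ∈ N := h3 Submodule.mem_top
    rwa [hN, Submodule.restrictScalars_mem] at h7
  rwa [← Ideal.eq_top_iff_one, Ideal.span_singleton_eq_top] at h6

/-- the length of the cokernel of an injective endomorphism -/
private theorem length_coker [IsDomain R] [IsDiscreteValuationRing R] {ϖ : R} (hϖ : Irreducible ϖ) {W : Type*} [AddCommGroup W] [Module R W]
    [Module.Free R W] [Module.Finite R W] (f : W →ₗ[R] W) (hf : LinearMap.det f ≠ 0) :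
    ∃ l : ℕ, Associated (LinearMap.det f) (ϖ ^ l) ∧
      Module.length R (W ⧸ LinearMap.range f) = l := by
  classical
  have hinj : Function.Injective f := by
    rw [← LinearMap.ker_eq_bot]
    by_contra h
    exact hf (LinearMap.det_eq_zero_iff_ker_ne_bot.2 h)
  let b := Module.Free.chooseBasis R W
  let N := LinearMap.range f
  let e : W ≃ₗ[R] N := LinearEquiv.ofInjective f hinj
  have h : Module.finrank R N = Module.finrank R W := e.symm.finrank_eq
  let a := Submodule.smithNormalFormCoeffs b h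
  let b' := Submodule.smithNormalFormTopBasis b h
  let ab := Submodule.smithNormalFormBotBasis b h
  have ab_eq := Submodule.smithNormalFormBotBasis_def b h
  let e' : W ≃ₗ[R] N := b'.equiv ab (Equiv.refl _)
  have hass : Associated (LinearMap.det f) (∏ i, a i) := by
    have h1 : N.subtype ∘ₗ (e : W →ₗ[R] N) = f := by
      ext x
      rfl
    have h2 : LinearMap.det (N.subtype ∘ₗ (e' : W →ₗ[R] N)) = ∏ i, a i := by
      rw [← LinearMap.det_toMatrix b', ← Matrix.det_diagonal]
      congr 1
      ext i j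
      have h3 : (N.subtype ∘ₗ (e' : W →ₗ[R] N)) (b' j) = a j • b' j := by
        rw [LinearMap.comp_apply, LinearEquiv.coe_coe, b'.equiv_apply, Equiv.refl_apply]
        exact ab_eq j
      rw [LinearMap.toMatrix_apply, h3, map_smul, Module.Basis.repr_self, Finsupp.smul_single,
        smul_eq_mul, mul_one]
      by_cases hij : i = j
      · rw [hij, Matrix.diagonal_apply_eq, Finsupp.single_eq_same]
      · rw [Matrix.diagonal_apply_ne _ hij, Finsupp.single_eq_of_ne hij]
    rw [← h2]
    nth_rewrite 1 [← h1]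
    exact LinearMap.associated_det_comp_equiv _ _ _
  have hl : ∀ i, ∃ l : ℕ, Associated (a i) (ϖ ^ l) := fun i =>
    IsDiscreteValuationRing.associated_pow_irreducible
      (Submodule.smithNormalFormCoeffs_ne_zero b h i) hϖ
  choose l hl using hl
  refine ⟨∑ i, l i, ?_, ?_⟩
  · rw [← Finset.prod_pow_eq_pow_sum]
    exact hass.trans (Associated.prod _ _ _ fun i _ => hl i)
  · have h4 : Module.length R (W ⧸ N) =
        Module.length R (Π i, R ⧸ Ideal.span ({a i} : Set R)) :=
      (Submodule.quotientEquivPiSpan N b h).length_eq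
    rw [h4, Module.length_pi_of_fintype]
    push_cast
    refine Finset.sum_congr rfl fun i _ => ?_
    have h5 : Ideal.span ({a i} : Set R) = IsLocalRing.maximalIdeal R ^ l i := by
      rw [hϖ.maximalIdeal_eq, Ideal.span_singleton_pow, Ideal.span_singleton_eq_span_singleton]
      exact hl i
    rw [h5]
    exact IsDiscreteValuationRing.length_quotient_pow_maximalIdeal R (l i)

private theorem norm_aux [IsDomain R] [IsDiscreteValuationRing R] {κ : Type*} [Field κ]
    {q : R →+* κ} (hq : Function.Surjective q) {ϖ : R}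
    (hϖ : Irreducible ϖ) (hk : ∀ r, q r = 0 ↔ ϖ ∣ r) {a v : R[X]} {r : ℕ} (ha : a.Monic)
    (hv : v.Monic) (hirr : Irreducible (v.map q)) (hav : a.map q = v.map q ^ r)
    (z : AdjoinRoot a) (hz : Algebra.norm R z ≠ 0) :
    ∃ (s : ℕ) (ε : R), IsUnit ε ∧ Algebra.norm R z = ε * ϖ ^ (v.natDegree * s) := by
  classical
  rcases Nat.eq_zero_or_pos r with hr | hr
  · -- the algebra is zero
    subst hr
    rw [pow_zero] at hav
    have h1 : a = 1 := by
      apply ha.natDegree_eq_zero.1
      rw [← ha.natDegree_map q, hav, natDegree_one]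
    subst h1
    have h2 : (0 : AdjoinRoot (1 : R[X])) = 1 := by
      rw [← map_one (AdjoinRoot.mk (1 : R[X])), AdjoinRoot.mk_self]
    have : Subsingleton (AdjoinRoot (1 : R[X])) := subsingleton_of_zero_eq_one h2
    refine ⟨0, 1, isUnit_one, ?_⟩
    rw [Subsingleton.elim z 1, map_one, mul_zero, pow_zero, mul_one]
  have : Fact (Irreducible (v.map q)) := ⟨hirr⟩
  have := ha.finite_adjoinRoot
  have := ha.free_adjoinRoot
  have hvm : (v.map q).Monic := hv.map q
  let _ : Algebra R κ := q.toAlgebra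
  have hak : algebraMap R κ = q := rfl
  -- the residue map
  have hroot : a.eval₂ (algebraMap R (AdjoinRoot (v.map q))) (AdjoinRoot.root (v.map q)) = 0 := by
    have h1 : algebraMap R (AdjoinRoot (v.map q)) = (AdjoinRoot.of (v.map q)).comp q := rfl
    rw [h1, ← eval₂_map, hav, eval₂_pow, AdjoinRoot.eval₂_root, zero_pow hr.ne']
  let φ : AdjoinRoot a →+* AdjoinRoot (v.map q) :=
    AdjoinRoot.lift (algebraMap R (AdjoinRoot (v.map q))) (AdjoinRoot.root (v.map q)) hroot
  have hφ : ∀ p : R[X], φ (AdjoinRoot.mk a p) = AdjoinRoot.mk (v.map q) (p.map q) := by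
    intro p
    have h1 : algebraMap R (AdjoinRoot (v.map q)) = (AdjoinRoot.of (v.map q)).comp q := rfl
    show AdjoinRoot.lift _ _ hroot (AdjoinRoot.mk a p) = _
    rw [AdjoinRoot.lift_mk, h1, ← eval₂_map, ← AdjoinRoot.aeval_eq, aeval_def]
    rfl
  have hφs : Function.Surjective φ := by
    intro y
    obtain ⟨Q, rfl⟩ := AdjoinRoot.mk_surjective y
    obtain ⟨p, rfl⟩ := map_surjective q hq Q
    exact ⟨_, hφ p⟩
  have hunit : ∀ x : AdjoinRoot a, IsUnit x ↔ φ x ≠ 0 := by
    intro x
    constructor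
    · intro h
      exact (h.map φ).ne_zero
    · obtain ⟨p, rfl⟩ := AdjoinRoot.mk_surjective x
      intro h
      rw [hφ, Ne, AdjoinRoot.mk_eq_zero] at h
      refine unit_of_coprime hq hϖ (fun r => (hk r).1) ha ?_
      rw [hav]
      exact (hirr.coprime_iff_not_dvd.2 h).pow_left
  have : Nontrivial (AdjoinRoot a) := ⟨⟨0, 1, fun h => by
    have h1 : (0 : AdjoinRoot (v.map q)) = 1 := by rw [← map_zero φ, h, map_one]
    exact zero_ne_one h1⟩⟩
  have : IsLocalRing (AdjoinRoot a) := by
    refine IsLocalRing.of_nonunits_add fun x y hx hy => ?_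
    rw [mem_nonunits_iff, hunit, not_not] at hx hy ⊢
    rw [map_add, hx, hy, add_zero]
  have : IsLocalHom (algebraMap R (AdjoinRoot a)) := by
    refine ⟨fun x hx => ?_⟩
    rw [hunit] at hx
    by_contra h
    apply hx
    have h1 : ϖ ∣ x := by
      have h2 : x ∈ IsLocalRing.maximalIdeal R := (IsLocalRing.mem_maximalIdeal x).2 h
      rw [hϖ.maximalIdeal_eq, Ideal.mem_span_singleton] at h2
      exact h2
    have h3 : algebraMap R (AdjoinRoot a) x = AdjoinRoot.mk a (C x) := by
      rw [AdjoinRoot.algebraMap_eq, AdjoinRoot.mk_C]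
    rw [h3, hφ, map_C, (hk x).2 h1, C_0, map_zero]
  -- the residue field
  let _ : Algebra (AdjoinRoot a) (AdjoinRoot (v.map q)) := φ.toAlgebra
  have : IsScalarTower R (AdjoinRoot a) (AdjoinRoot (v.map q)) := by
    refine IsScalarTower.of_algebraMap_eq fun x => ?_
    show _ = φ (algebraMap R (AdjoinRoot a) x)
    show _ = AdjoinRoot.lift _ _ hroot (AdjoinRoot.of a x)
    rw [AdjoinRoot.lift_of]
  have hD1 : Module.length (AdjoinRoot a) (AdjoinRoot (v.map q)) = 1 := by
    rw [Module.length_eq_of_surjective (R := AdjoinRoot (v.map q)) (M := AdjoinRoot (v.map q))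
      hφs]
    exact Module.length_eq_one _ _
  have hD2 : Module.length R (AdjoinRoot (v.map q)) = (v.natDegree : ℕ∞) := by
    have := hvm.finite_adjoinRoot
    rw [Module.length_eq_of_surjective (R := κ) (M := AdjoinRoot (v.map q)) hq,
      Module.length_eq_finrank, (AdjoinRoot.powerBasis' hvm).finrank, AdjoinRoot.powerBasis'_dim,
      hv.natDegree_map]
  have hD : Module.length (IsLocalRing.ResidueField R)
      (IsLocalRing.ResidueField (AdjoinRoot a)) = (v.natDegree : ℕ∞) := by
    have h1 := IsLocalRing.length_restrictScalars R (AdjoinRoot a) (AdjoinRoot (v.map q))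
    rw [hD1, one_mul, hD2] at h1
    exact h1.symm
  -- the norm
  obtain ⟨l, hl1, hl2⟩ := length_coker hϖ (LinearMap.mulLeft R z) (by
    rw [Algebra.norm_apply] at hz
    exact hz)
  have hran : LinearMap.range (LinearMap.mulLeft R z) =
      (Ideal.span {z}).restrictScalars R := by
    ext x
    rw [LinearMap.mem_range, Submodule.restrictScalars_mem, Ideal.mem_span_singleton']
    constructor
    · rintro ⟨y, hy⟩
      exact ⟨y, by rw [← hy, LinearMap.mulLeft_apply, mul_comm]⟩
    · rintro ⟨y, hy⟩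
      exact ⟨y, by rw [← hy, LinearMap.mulLeft_apply, mul_comm]⟩
  rw [hran, (Submodule.Quotient.restrictScalarsEquiv R (Ideal.span {z})).length_eq,
    IsLocalRing.length_restrictScalars R (AdjoinRoot a), hD] at hl2
  have hd : v.natDegree ≠ 0 := by
    intro h
    have h1 : (v.map q).natDegree = 0 := by rw [hv.natDegree_map, h]
    have h2 := hvm.natDegree_eq_zero.1 h1
    rw [h2] at hirr
    exact hirr.not_isUnit isUnit_one
  have hfin : Module.length (AdjoinRoot a) (AdjoinRoot a ⧸ Ideal.span {z}) ≠ ⊤ := by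
    intro h
    rw [h, ENat.top_mul (by exact_mod_cast hd)] at hl2
    exact ENat.top_ne_natCast _ hl2
  obtain ⟨s, hs⟩ := ENat.ne_top_iff_exists.1 hfin
  rw [← hs] at hl2
  have hl3 : l = v.natDegree * s := by
    rw [mul_comm]
    exact_mod_cast hl2.symm
  obtain ⟨ε, hε⟩ := hl1.symm
  refine ⟨s, ε, ε.isUnit, ?_⟩
  rw [Algebra.norm_apply, ← hl3, mul_comm]
  exact hε.symm

end general

variable {R M : Type*} [CommRing R] [IsDomain R] [Field M] [Algebra R M] {ϖ : R}

theorem exists_norm_eq (hC : CData ϖ M) {a v : R[X]} {r : ℕ} (ha : a.Monic) (hv : v.Monic)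
    (hirr : Irreducible (v.map (Ideal.Quotient.mk (Ideal.span {ϖ}))))
    (hav : a.map (Ideal.Quotient.mk (Ideal.span {ϖ})) =
      v.map (Ideal.Quotient.mk (Ideal.span {ϖ})) ^ r)
    (z : AdjoinRoot a) (hz : Algebra.norm R z ≠ 0) :
    ∃ (s : ℕ) (ε : R), IsUnit ε ∧ Algebra.norm R z = ε * ϖ ^ (v.natDegree * s) := by
  have := hC.dvr
  have := hC.isMaximal
  let _ : Field (R ⧸ Ideal.span {ϖ}) := Ideal.Quotient.field _
  exact norm_aux Ideal.Quotient.mk_surjective hC.unif
    (fun r => by rw [Ideal.Quotient.eq_zero_iff_mem, Ideal.mem_span_singleton]) ha hv hirr hav z hz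

theorem isUnit_of_not_dvd (hC : CData ϖ M) {a v : R[X]} {r : ℕ} (ha : a.Monic) (hv : v.Monic)
    (hirr : Irreducible (v.map (Ideal.Quotient.mk (Ideal.span {ϖ}))))
    (hav : a.map (Ideal.Quotient.mk (Ideal.span {ϖ})) =
      v.map (Ideal.Quotient.mk (Ideal.span {ϖ})) ^ r) {z : R[X]}
    (hz : ¬ v.map (Ideal.Quotient.mk (Ideal.span {ϖ})) ∣
      z.map (Ideal.Quotient.mk (Ideal.span {ϖ}))) :
    IsUnit (AdjoinRoot.mk a z) := by
  have := hC.dvr
  have := hC.isMaximal
  let _ : Field (R ⧸ Ideal.span {ϖ}) := Ideal.Quotient.field _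
  refine unit_of_coprime (q := Ideal.Quotient.mk (Ideal.span {ϖ})) Ideal.Quotient.mk_surjective
    hC.unif (fun r hr => by rwa [Ideal.Quotient.eq_zero_iff_mem, Ideal.mem_span_singleton] at hr) ha ?_
  rw [hav]
  exact (hirr.coprime_iff_not_dvd.2 hz).pow_left

/-- a monic polynomial which is prime to `v̄` modulo `ϖ` is a unit in the other algebra as well -/
theorem isUnit_mk_of_coprime (hC : CData ϖ M) {f a : R[X]} (hf : f.Monic)
    (hcop : IsCoprime (f.map (Ideal.Quotient.mk (Ideal.span {ϖ})))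
      (a.map (Ideal.Quotient.mk (Ideal.span {ϖ})))) : IsUnit (AdjoinRoot.mk f a) := by
  have := hC.dvr
  exact unit_of_coprime Ideal.Quotient.mk_surjective hC.unif
    (fun r hr => by rwa [Ideal.Quotient.eq_zero_iff_mem, Ideal.mem_span_singleton] at hr) hf hcop

end Pool.Agent.Helper96.PS
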