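import Pool.Agent.Helper96.PS.DefsC

/-!
# PS-C2: norms, resultants, and the norm of the local image

`f ∈ R[x]` monic of degree `N`. `norm_mk`: `N_{R[x]/(f) / R}(P(θ)) = Res(f, P)` (`Polynomial.resultant f P`, Mathlib.RingTheory.Polynomial.Resultant.Basic:
`resultant_eq_prod_eval`, `resultant_map_map`, …). Proof: for `R` a field in which `f` splits both are `∏_{f(x_j)=0} P(x_j)` (norm = determinant of multiplication = triangularise,
or `Algebra.norm` multiplicativity along `f = (X - x_1) f_1`); general: both are polynomials in the coefficients (reduction to the universal case, or to the algebraic closure of the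
fraction field of a polynomial ring over `ℤ`). Other proof: `Res(f, P)` is the determinant of `(a, b) ↦ a f + b P` (`sylvesterMap`); modulo `f`, as `f` is monic, this is the
determinant of multiplication by `P` on `R[x]/(f)`.

`isSquare_norm_of_mem_locIm`: `N` odd, `c ≠ 0`. Squares: clear. `a = mk (C ((-c)^m) U)`, `U` monic of degree `m`, `U ∣ V² - c f`, prime to `f`: `N(a) = (-c)^{mN} Res(f, U) = (-c)^{mN} (-1)^{mN} Res(U, f) = c^{mN} Res(U, f)`
(`resultant_comm`), and `c^m Res(U, f) = Res(U, c f)` `= N_{M[x]/(U)}(c f) = N(V²) = N(V)²` (norm in `M[x]/(U)`, `U` monic, `c f ≡ V²`). So `N(a) = c^{m(N-1)} N(V)²` is a square. Inverses and products: the norm is multiplicative.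
-/

namespace Pool.Agent.Helper96.PS

open Polynomial

private theorem nm_syl_left {R : Type*} [CommRing R] (f g : R[X]) {m n : ℕ}
    (hg : g.natDegree ≤ n) (i : Fin (m + n)) (j : Fin m) :
    sylvester f g m n i (Fin.castAdd n j) = (g * X ^ (j : ℕ)).coeff i := by
  rw [sylvester, Matrix.of_apply, Fin.addCases_left, coeff_mul_X_pow']
  by_cases h1 : (j : ℕ) ≤ i
  · rw [if_pos h1]
    by_cases h2 : (i : ℕ) ≤ j + n
    · rw [if_pos ⟨h1, h2⟩]
    · rw [if_neg fun h => h2 h.2]
      exact (coeff_eq_zero_of_natDegree_lt (by omega)).symm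
  · rw [if_neg h1, if_neg fun h => h1 h.1]

private theorem nm_syl_right {R : Type*} [CommRing R] (f g : R[X]) {m n : ℕ}
    (hf : f.natDegree ≤ m) (i : Fin (m + n)) (j : Fin n) :
    sylvester f g m n i (Fin.natAdd m j) = (f * X ^ (j : ℕ)).coeff i := by
  rw [sylvester, Matrix.of_apply, Fin.addCases_right, coeff_mul_X_pow']
  by_cases h1 : (j : ℕ) ≤ i
  · rw [if_pos h1]
    by_cases h2 : (i : ℕ) ≤ j + m
    · rw [if_pos ⟨h1, h2⟩]
    · rw [if_neg fun h => h2 h.2]
      exact (coeff_eq_zero_of_natDegree_lt (by omega)).symm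
  · rw [if_neg h1, if_neg fun h => h1 h.1]

private theorem nm_sum {R : Type*} [CommRing R] (p : R[X]) {m : ℕ} (hp : p.degree < m) :
    ∑ k : Fin m, C (p.coeff k) * X ^ (k : ℕ) = p := by
  rw [sum_fin (fun i c => C c * X ^ i) (by simp) hp]
  exact sum_C_mul_X_pow_eq p

private theorem nm_mul {R : Type*} [CommRing R] [Nontrivial R] {f : R[X]} (hf : f.Monic)
    (P : R[X]) (A : Matrix (Fin f.natDegree) (Fin f.natDegree) R)
    (B : Matrix (Fin P.natDegree) (Fin f.natDegree) R)
    (hA : ∀ i j, A i j = ((P * X ^ (j : ℕ)) %ₘ f).coeff i)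
    (hB : ∀ i j, B i j = ((P * X ^ (j : ℕ)) /ₘ f).coeff i) :
    sylvester f P f.natDegree P.natDegree = sylvester f 1 f.natDegree P.natDegree *
      (Matrix.fromBlocks A 0 B 1).reindex finSumFinEquiv finSumFinEquiv := by
  ext i j
  have h1 : (1 : R[X]).natDegree ≤ P.natDegree := by rw [natDegree_one]; exact Nat.zero_le _
  refine Fin.addCases (fun j => ?_) (fun j => ?_) j
  · rw [nm_syl_left f P le_rfl, Matrix.mul_apply, Fin.sum_univ_add]
    have e1 : ∀ k : Fin f.natDegree, sylvester f 1 f.natDegree P.natDegree i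
        (Fin.castAdd P.natDegree k) * (Matrix.fromBlocks A 0 B 1).reindex finSumFinEquiv
        finSumFinEquiv (Fin.castAdd P.natDegree k) (Fin.castAdd P.natDegree j) =
        (C (((P * X ^ (j : ℕ)) %ₘ f).coeff k) * X ^ (k : ℕ)).coeff i := by
      intro k
      rw [nm_syl_left f 1 h1, Matrix.reindex_apply, Matrix.submatrix_apply,
        finSumFinEquiv_symm_apply_castAdd, finSumFinEquiv_symm_apply_castAdd,
        Matrix.fromBlocks_apply₁₁, hA, coeff_C_mul, one_mul, mul_comm]
    have e2 : ∀ k : Fin P.natDegree, sylvester f 1 f.natDegree P.natDegree i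
        (Fin.natAdd f.natDegree k) * (Matrix.fromBlocks A 0 B 1).reindex finSumFinEquiv
        finSumFinEquiv (Fin.natAdd f.natDegree k) (Fin.castAdd P.natDegree j) =
        (f * (C (((P * X ^ (j : ℕ)) /ₘ f).coeff k) * X ^ (k : ℕ))).coeff i := by
      intro k
      rw [nm_syl_right f 1 le_rfl, Matrix.reindex_apply, Matrix.submatrix_apply,
        finSumFinEquiv_symm_apply_castAdd, finSumFinEquiv_symm_apply_natAdd,
        Matrix.fromBlocks_apply₂₁, hB, mul_left_comm, coeff_C_mul, mul_comm]
    rw [Finset.sum_congr rfl fun k _ => e1 k, Finset.sum_congr rfl fun k _ => e2 k,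
      ← finsetSum_coeff, ← finsetSum_coeff, ← Finset.mul_sum, nm_sum, nm_sum, ← coeff_add,
      modByMonic_add_div _ f]
    · by_cases h0 : (P * X ^ (j : ℕ)) /ₘ f = 0
      · rw [h0, degree_zero]
        exact WithBot.bot_lt_coe _
      · rw [← natDegree_lt_iff_degree_lt h0, natDegree_divByMonic _ hf]
        have h2 : ¬ (P * X ^ (j : ℕ)).degree < f.degree := fun h =>
          h0 ((divByMonic_eq_zero_iff hf).2 h)
        have h3 : f.natDegree ≤ (P * X ^ (j : ℕ)).natDegree := by
          by_contra h4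
          push Not at h4
          exact h2 (degree_lt_degree h4)
        have h4 : (P * X ^ (j : ℕ)).natDegree ≤ P.natDegree + j := by
          refine natDegree_mul_le.trans ?_
          rw [natDegree_X_pow]
        have h5 := j.2
        omega
    · refine (degree_modByMonic_lt _ hf).trans_eq ?_
      exact degree_eq_natDegree hf.ne_zero
  · rw [nm_syl_right f P le_rfl, Matrix.mul_apply, Fin.sum_univ_add]
    rw [Finset.sum_eq_zero, zero_add, Finset.sum_eq_single j]
    · rw [nm_syl_right f 1 le_rfl, Matrix.reindex_apply, Matrix.submatrix_apply,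
        finSumFinEquiv_symm_apply_natAdd, Matrix.fromBlocks_apply₂₂, Matrix.one_apply_eq, mul_one]
    · intro k _ hk
      rw [Matrix.reindex_apply, Matrix.submatrix_apply,
        finSumFinEquiv_symm_apply_natAdd, finSumFinEquiv_symm_apply_natAdd,
        Matrix.fromBlocks_apply₂₂, Matrix.one_apply_ne hk, mul_zero]
    · intro h
      exact absurd (Finset.mem_univ _) h
    · intro k _
      rw [Matrix.reindex_apply, Matrix.submatrix_apply,
        finSumFinEquiv_symm_apply_castAdd, finSumFinEquiv_symm_apply_natAdd,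
        Matrix.fromBlocks_apply₁₂, Matrix.zero_apply, mul_zero]

private theorem nm_right {R : Type*} [CommRing R] {f g : R[X]} (hf : f.Monic) {n : ℕ}
    (hg : g.natDegree ≤ n) : resultant f g f.natDegree n = resultant f g := by
  obtain ⟨k, rfl⟩ := Nat.exists_eq_add_of_le hg
  rw [resultant_add_right_deg _ _ _ _ _ le_rfl, hf.coeff_natDegree, one_pow, one_mul]

theorem norm_mk {R : Type*} [CommRing R] [Nontrivial R] {f : R[X]} (hf : f.Monic) (P : R[X]) :
    Algebra.norm R (AdjoinRoot.mk f P) = Polynomial.resultant f P := by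
  classical
  set A : Matrix (Fin f.natDegree) (Fin f.natDegree) R :=
    Algebra.leftMulMatrix (AdjoinRoot.powerBasisAux' hf) (AdjoinRoot.mk f P) with hA
  have hAij : ∀ i j, A i j = ((P * X ^ (j : ℕ)) %ₘ f).coeff i := by
    intro i j
    have hb : AdjoinRoot.powerBasisAux' hf j = AdjoinRoot.mk f (X ^ (j : ℕ)) := by
      rw [map_pow]
      exact (AdjoinRoot.powerBasis' hf).basis_eq_pow j
    rw [hA, Algebra.leftMulMatrix_eq_repr_mul, AdjoinRoot.powerBasisAux'_repr_apply_to_fun, hb,
      ← map_mul, AdjoinRoot.modByMonicHom_mk]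
  have h := nm_mul hf P A (Matrix.of fun i j => ((P * X ^ (j : ℕ)) /ₘ f).coeff i) hAij
    fun i j => rfl
  have h2 := congrArg Matrix.det h
  rw [Matrix.det_mul, Matrix.det_reindex_self, Matrix.det_fromBlocks_zero₁₂, Matrix.det_one,
    mul_one] at h2
  have h3 : (sylvester f 1 f.natDegree P.natDegree).det = 1 := by
    have h4 := resultant_one_right f f.natDegree P.natDegree
    rw [hf.coeff_natDegree, one_pow] at h4
    exact h4
  rw [h3, one_mul] at h2
  rw [Algebra.norm_eq_matrix_det (AdjoinRoot.powerBasisAux' hf)]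
  exact h2.symm

/-- symmetry: `N_{R[x]/(f)}(a) = ± N_{R[x]/(a)}(f)` -/
theorem norm_mk_comm {R : Type*} [CommRing R] [Nontrivial R] {f a : R[X]} (hf : f.Monic) (ha : a.Monic) :
    Algebra.norm R (AdjoinRoot.mk f a) =
      (-1) ^ (f.natDegree * a.natDegree) * Algebra.norm R (AdjoinRoot.mk a f) := by
  rw [norm_mk hf, norm_mk ha, resultant_comm]

/-- base change of the norm -/
theorem norm_map {R S : Type*} [CommRing R] [Nontrivial R] [CommRing S] [Nontrivial S] (φ : R →+* S)
    {f : R[X]} (hf : f.Monic) (a : AdjoinRoot f) :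
    Algebra.norm S (AdjoinRoot.map φ f (f.map φ) dvd_rfl a) = φ (Algebra.norm R a) := by
  obtain ⟨P, rfl⟩ := AdjoinRoot.mk_surjective a
  have h1 : AdjoinRoot.map φ f (f.map φ) dvd_rfl (AdjoinRoot.mk f P) =
      AdjoinRoot.mk (f.map φ) (P.map φ) := by
    unfold AdjoinRoot.map
    rw [AdjoinRoot.lift_mk, ← AdjoinRoot.aeval_eq, aeval_def, eval₂_map]
    rfl
  rw [h1, norm_mk (hf.map φ), norm_mk hf, ← nm_right (hf.map φ) natDegree_map_le,
    hf.natDegree_map, resultant_map_map]

theorem isSquare_norm_of_mem_locIm {M : Type*} [Field M] {f : M[X]} (hf : f.Monic)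
    (hodd : Odd f.natDegree) {c : M} (hc : c ≠ 0) {a : (AdjoinRoot f)ˣ} (ha : a ∈ LocIm f c) :
    IsSquare (Algebra.norm M (a : AdjoinRoot f)) := by
  have hunit : ∀ x : (AdjoinRoot f)ˣ, Algebra.norm M (x : AdjoinRoot f) *
      Algebra.norm M ((x⁻¹ : (AdjoinRoot f)ˣ) : AdjoinRoot f) = 1 := by
    intro x
    rw [← map_mul, Units.mul_inv, map_one]
  unfold LocIm at ha
  induction ha using Subgroup.closure_induction with
  | mem x hx =>
    rcases hx with ⟨b, rfl⟩ | ⟨U, V, hU, -, hdvd, hx⟩
    · rw [Units.val_pow_eq_pow_val, map_pow]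
      exact ⟨_, pow_two _⟩
    · rw [hx, map_mul, map_mul, norm_mk_comm hf hU]
      have e1 : Algebra.norm M (AdjoinRoot.mk f (C ((-c) ^ U.natDegree))) =
          ((-c) ^ U.natDegree) ^ f.natDegree := by
        have := Algebra.norm_algebraMap_of_basis (AdjoinRoot.powerBasisAux' hf)
          ((-c) ^ U.natDegree)
        rw [Fintype.card_fin] at this
        exact this
      have e2 : c ^ U.natDegree * Algebra.norm M (AdjoinRoot.mk U f) =
          Algebra.norm M (AdjoinRoot.mk U V) ^ 2 := by
        have e3 : Algebra.norm M (AdjoinRoot.mk U (C c)) = c ^ U.natDegree := by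
          have := Algebra.norm_algebraMap_of_basis (AdjoinRoot.powerBasisAux' hU) c
          rw [Fintype.card_fin] at this
          exact this
        rw [← e3, ← map_mul, ← map_mul, ← map_pow, ← map_pow]
        congr 1
        exact (AdjoinRoot.mk_eq_mk.2 hdvd).symm
      obtain ⟨t, ht⟩ := hodd
      rw [e1, ht]
      have e4 : ((-c) ^ U.natDegree) ^ (2 * t + 1) * ((-1) ^ ((2 * t + 1) * U.natDegree) *
          Algebra.norm M (AdjoinRoot.mk U f)) =
          (c ^ (U.natDegree * t)) ^ 2 * (c ^ U.natDegree * Algebra.norm M (AdjoinRoot.mk U f)) := by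
        have e5 : ((-c) ^ U.natDegree) ^ (2 * t + 1) * (-1) ^ ((2 * t + 1) * U.natDegree) =
            (c ^ (U.natDegree * t)) ^ 2 * c ^ U.natDegree := by
          rw [← pow_mul, mul_comm (2 * t + 1) U.natDegree, ← mul_pow, ← pow_mul, ← pow_add]
          congr 1
          · ring
          · ring
        rw [← mul_assoc, e5, mul_assoc]
      rw [e4, e2, ← mul_pow]
      exact ⟨_, pow_two _⟩
  | one =>
    rw [Units.val_one, map_one]
    exact ⟨1, (mul_one 1).symm⟩
  | mul x y _ _ hx hy =>
    rw [Units.val_mul, map_mul]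
    exact hx.mul hy
  | inv x _ hx =>
    have h1 := hunit x
    obtain ⟨r, hr⟩ := hx
    rw [hr] at h1
    have hr0 : r ≠ 0 := by
      rintro rfl
      rw [zero_mul, zero_mul] at h1
      exact zero_ne_one h1
    refine ⟨r⁻¹, ?_⟩
    field_simp
    linear_combination h1

end Pool.Agent.Helper96.PS
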