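import Mathlib

/-!
# PS-C5: Hensel's lemma for factorisations, principal ideal, factor of arbitrary degree

`R` complete for the `ϖ`-adic topology, `P ≡ a₀ b₀ mod ϖ`, `a₀` monic, `a₀, b₀` coprime mod `ϖ`. Then `P = a b` with `a` monic of the degree of `a₀`, `a ≡ a₀`, `b ≡ b₀ mod ϖ`
(`b` of arbitrary degree, `P` need not be monic or primitive).
-/

namespace Pool.Agent.Helper96.PS

open Polynomial

private theorem hf_smod {R : Type*} [CommRing R] (ϖ : R) (n : ℕ) (x y : R) :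
    x ≡ y [SMOD (Ideal.span {ϖ} ^ n • ⊤ : Submodule R R)] ↔ ϖ ^ n ∣ x - y := by
  rw [SModEq.sub_mem, Ideal.span_singleton_pow, smul_eq_mul, Ideal.mul_top,
    Ideal.mem_span_singleton]

private theorem hf_map_eq_zero {R : Type*} [CommRing R] (ϖ : R) (p : R[X]) :
    p.map (Ideal.Quotient.mk (Ideal.span {ϖ})) = 0 ↔ C ϖ ∣ p := by
  rw [Polynomial.C_dvd_iff_dvd_coeff, Polynomial.ext_iff]
  refine forall_congr' fun i => ?_
  rw [Polynomial.coeff_map, Polynomial.coeff_zero, Ideal.Quotient.eq_zero_iff_mem,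
    Ideal.mem_span_singleton]

private theorem hf_map_eq {R : Type*} [CommRing R] (ϖ : R) (p q : R[X]) :
    p.map (Ideal.Quotient.mk (Ideal.span {ϖ})) = q.map (Ideal.Quotient.mk (Ideal.span {ϖ})) ↔
      C ϖ ∣ p - q := by
  rw [← hf_map_eq_zero, Polynomial.map_sub, sub_eq_zero]

/-- lift of a polynomial with a bound for the degree -/
private theorem hf_lift {R : Type*} [CommRing R] (ϖ : R) (N : ℕ)
    (α : (R ⧸ (Ideal.span {ϖ} : Ideal R))[X]) (h : ∀ i, N ≤ i → α.coeff i = 0) :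
    ∃ A : R[X], A.map (Ideal.Quotient.mk (Ideal.span {ϖ})) = α ∧ ∀ i, N ≤ i → A.coeff i = 0 := by
  obtain ⟨σ, hσ⟩ := (Ideal.Quotient.mk_surjective (I := (Ideal.span {ϖ} : Ideal R))).hasRightInverse
  refine ⟨∑ i ∈ Finset.range N, monomial i (σ (α.coeff i)), ?_, ?_⟩
  · ext i
    rw [Polynomial.coeff_map, Polynomial.finsetSum_coeff]
    simp only [Polynomial.coeff_monomial]
    rw [Finset.sum_ite_eq']
    split_ifs with hi
    · exact hσ _
    · rw [map_zero, h i (by simpa using hi)]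
  · intro i hi
    rw [Polynomial.finsetSum_coeff]
    simp only [Polynomial.coeff_monomial]
    rw [Finset.sum_ite_eq', if_neg (by simpa using hi)]

/-- division of a polynomial by a constant with a bound for the degree -/
private theorem hf_div {R : Type*} [CommRing R] (c : R) (N : ℕ) (p : R[X]) (hc : C c ∣ p)
    (h : ∀ i, N ≤ i → p.coeff i = 0) :
    ∃ e : R[X], p = C c * e ∧ ∀ i, N ≤ i → e.coeff i = 0 := by
  rw [Polynomial.C_dvd_iff_dvd_coeff] at hc
  choose g hg using hc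
  refine ⟨∑ i ∈ Finset.range N, monomial i (g i), ?_, ?_⟩
  · ext i
    rw [Polynomial.coeff_C_mul, Polynomial.finsetSum_coeff]
    simp only [Polynomial.coeff_monomial]
    rw [Finset.sum_ite_eq']
    split_ifs with hi
    · exact hg i
    · rw [mul_zero, h i (by simpa using hi)]
  · intro i hi
    rw [Polynomial.finsetSum_coeff]
    simp only [Polynomial.coeff_monomial]
    rw [Finset.sum_ite_eq', if_neg (by simpa using hi)]

private theorem hf_coeff_mul {S : Type*} [CommRing S] (p q : S[X]) (M N K : ℕ)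
    (hp : ∀ i, M ≤ i → p.coeff i = 0) (hq : ∀ i, N ≤ i → q.coeff i = 0) (hK : M + N ≤ K + 1)
    (i : ℕ) (hi : K ≤ i) : (p * q).coeff i = 0 := by
  rw [Polynomial.coeff_mul]
  apply Finset.sum_eq_zero
  rintro ⟨x, y⟩ hxy
  rw [Finset.HasAntidiagonal.mem_antidiagonal] at hxy
  dsimp only at hxy ⊢
  by_cases hx : M ≤ x
  · rw [hp x hx, zero_mul]
  · rw [hq y (by omega), mul_zero]

/-- the equation `α b + β a = e` with bounds for the degrees -/
private theorem hf_bezout {S : Type*} [CommRing S] [Nontrivial S] (a b e : S[X]) (d m : ℕ)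
    (ha : a.Monic) (had : a.natDegree = d) (hb : ∀ i, m + 1 ≤ i → b.coeff i = 0)
    (he : ∀ i, d + m + 1 ≤ i → e.coeff i = 0) (hcop : IsCoprime a b) :
    ∃ α β : S[X], α * b + β * a = e ∧ (∀ i, d ≤ i → α.coeff i = 0) ∧
      ∀ i, m + 1 ≤ i → β.coeff i = 0 := by
  obtain ⟨s, t, hst⟩ := hcop
  have hdiv := Polynomial.modByMonic_add_div (e * t) a
  set α := (e * t) %ₘ a with hα
  set q := (e * t) /ₘ a with hq
  have hαd : ∀ i, d ≤ i → α.coeff i = 0 := by
    intro i hi
    apply Polynomial.coeff_eq_zero_of_degree_lt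
    have h1 := Polynomial.degree_modByMonic_lt (e * t) ha
    rw [← hα, Polynomial.degree_eq_natDegree ha.ne_zero, had] at h1
    exact h1.trans_le (by exact_mod_cast hi)
  have heq : α * b + (e * s + q * b) * a = e := by
    have h2 : α = e * t - a * q := by rw [← hdiv]; ring
    rw [h2]
    calc (e * t - a * q) * b + (e * s + q * b) * a = e * (s * a + t * b) := by ring
      _ = e := by rw [hst, mul_one]
  refine ⟨α, e * s + q * b, heq, hαd, ?_⟩
  set β := e * s + q * b with hβ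
  intro i hi
  by_cases hβ0 : β = 0
  · rw [hβ0, Polynomial.coeff_zero]
  have h3 : (a * β).natDegree = d + β.natDegree := by
    rw [ha.natDegree_mul' hβ0, had]
  have h4 : ∀ j, d + m + 1 ≤ j → (a * β).coeff j = 0 := by
    intro j hj
    have h5 : a * β = e - α * b := by
      rw [← heq]
      ring
    rw [h5, Polynomial.coeff_sub, he j hj, hf_coeff_mul α b d (m + 1) (d + m) hαd hb (by omega) j
      (by omega), sub_zero]
  have h6 : (a * β).natDegree ≤ d + m := by
    rw [Polynomial.natDegree_le_iff_coeff_eq_zero]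
    intro j hj
    exact h4 j hj
  apply Polynomial.coeff_eq_zero_of_natDegree_lt
  omega

/-- invariant of the construction -/
private structure HfInv {R : Type*} [CommRing R] (ϖ : R) (P a₀ b₀ : R[X]) (d m k : ℕ)
    (x : R[X] × R[X]) : Prop where
  lead : x.1.coeff d = 1
  da : ∀ i, d + 1 ≤ i → x.1.coeff i = 0
  db : ∀ i, m + 1 ≤ i → x.2.coeff i = 0
  ma : C ϖ ∣ x.1 - a₀
  mb : C ϖ ∣ x.2 - b₀
  eq : C (ϖ ^ (k + 1)) ∣ P - x.1 * x.2

private theorem hf_step {R : Type*} [CommRing R] (ϖ : R)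
    [Nontrivial (R ⧸ (Ideal.span {ϖ} : Ideal R))] {P a₀ b₀ : R[X]} (ha : a₀.Monic) (m : ℕ)
    (hPd : ∀ i, a₀.natDegree + m + 1 ≤ i → P.coeff i = 0)
    (hb₀ : ∀ i, m + 1 ≤ i → b₀.coeff i = 0)
    (hcop : IsCoprime (a₀.map (Ideal.Quotient.mk (Ideal.span {ϖ})))
      (b₀.map (Ideal.Quotient.mk (Ideal.span {ϖ})))) (k : ℕ) (x : R[X] × R[X])
    (hx : HfInv ϖ P a₀ b₀ a₀.natDegree m k x) :
    ∃ y : R[X] × R[X], HfInv ϖ P a₀ b₀ a₀.natDegree m (k + 1) y ∧
      C (ϖ ^ (k + 1)) ∣ y.1 - x.1 ∧ C (ϖ ^ (k + 1)) ∣ y.2 - x.2 := by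
  obtain ⟨a, b⟩ := x
  obtain ⟨hlead, hda, hdb, hma, hmb, heq⟩ := hx
  dsimp only at hlead hda hdb hma hmb heq
  set φ := Ideal.Quotient.mk (Ideal.span {ϖ} : Ideal R) with hφ
  set d := a₀.natDegree with hd
  have hzero : ∀ i, d + m + 1 ≤ i → (P - a * b).coeff i = 0 := by
    intro i hi
    rw [Polynomial.coeff_sub, hPd i hi, hf_coeff_mul a b (d + 1) (m + 1) (d + m + 1) hda hdb
      (by omega) i hi, sub_zero]
  obtain ⟨e, he, hed⟩ := hf_div (ϖ ^ (k + 1)) (d + m + 1) (P - a * b) heq hzero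
  have ham : (a₀.map φ).Monic := ha.map φ
  have hamd : (a₀.map φ).natDegree = d := ha.natDegree_map φ
  obtain ⟨α, β, hαβ, hαd, hβd⟩ := hf_bezout (a₀.map φ) (b₀.map φ) (e.map φ) d m ham hamd
    (fun i hi => by rw [Polynomial.coeff_map, hb₀ i hi, map_zero])
    (fun i hi => by rw [Polynomial.coeff_map, hed i hi, map_zero]) hcop
  obtain ⟨A, hA, hAd⟩ := hf_lift ϖ d α hαd
  obtain ⟨B, hB, hBd⟩ := hf_lift ϖ (m + 1) β hβd
  have hk1 : C ϖ ∣ (C (ϖ ^ (k + 1)) : R[X]) := by
    rw [pow_succ, C_mul]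
    exact dvd_mul_left _ _
  refine ⟨(a + C (ϖ ^ (k + 1)) * A, b + C (ϖ ^ (k + 1)) * B), ⟨?_, ?_, ?_, ?_, ?_, ?_⟩, ?_, ?_⟩
  · dsimp only
    rw [Polynomial.coeff_add, Polynomial.coeff_C_mul, hAd d le_rfl, mul_zero, add_zero]
    exact hlead
  · intro i hi
    dsimp only
    rw [Polynomial.coeff_add, Polynomial.coeff_C_mul, hAd i (by omega), mul_zero, add_zero]
    exact hda i hi
  · intro i hi
    dsimp only
    rw [Polynomial.coeff_add, Polynomial.coeff_C_mul, hBd i hi, mul_zero, add_zero]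
    exact hdb i hi
  · dsimp only
    have : a + C (ϖ ^ (k + 1)) * A - a₀ = (a - a₀) + C (ϖ ^ (k + 1)) * A := by ring
    rw [this]
    exact dvd_add hma (hk1.trans (dvd_mul_right _ _))
  · dsimp only
    have : b + C (ϖ ^ (k + 1)) * B - b₀ = (b - b₀) + C (ϖ ^ (k + 1)) * B := by ring
    rw [this]
    exact dvd_add hmb (hk1.trans (dvd_mul_right _ _))
  · dsimp only
    have h1 : P - (a + C (ϖ ^ (k + 1)) * A) * (b + C (ϖ ^ (k + 1)) * B) =
        C (ϖ ^ (k + 1)) * (e - A * b - B * a) -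
          C (ϖ ^ (k + 1)) * (C (ϖ ^ (k + 1)) * (A * B)) := by
      calc P - (a + C (ϖ ^ (k + 1)) * A) * (b + C (ϖ ^ (k + 1)) * B) =
          (P - a * b) - C (ϖ ^ (k + 1)) * (A * b + B * a) -
          C (ϖ ^ (k + 1)) * (C (ϖ ^ (k + 1)) * (A * B)) := by ring
        _ = _ := by rw [he]; ring
    have h2 : C ϖ ∣ e - A * b - B * a := by
      rw [← hf_map_eq_zero, ← hφ, Polynomial.map_sub, Polynomial.map_sub, Polynomial.map_mul,
        Polynomial.map_mul, hA, hB, (hf_map_eq ϖ a a₀).mpr hma, (hf_map_eq ϖ b b₀).mpr hmb,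
        ← hφ, ← hαβ]
      ring
    rw [h1, show ϖ ^ (k + 1 + 1) = ϖ ^ (k + 1) * ϖ from pow_succ _ _, C_mul]
    exact dvd_sub (mul_dvd_mul_left _ h2)
      (mul_dvd_mul_left _ (hk1.trans (dvd_mul_right _ _)))
  · dsimp only
    rw [add_sub_cancel_left]
    exact dvd_mul_right _ _
  · dsimp only
    rw [add_sub_cancel_left]
    exact dvd_mul_right _ _

/-- limits of polynomials of bounded degree -/
private theorem hf_limit {R : Type*} [CommRing R] (ϖ : R) [IsAdicComplete (Ideal.span {ϖ}) R]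
    (N : ℕ) (f : ℕ → R[X]) (hf : ∀ k i, N ≤ i → (f k).coeff i = 0)
    (hs : ∀ k, C (ϖ ^ (k + 1)) ∣ f (k + 1) - f k) :
    ∃ L : R[X], (∀ i, N ≤ i → L.coeff i = 0) ∧ ∀ k, C (ϖ ^ k) ∣ f k - L := by
  have hs' : ∀ k j, C (ϖ ^ k) ∣ f (k + j) - f k := by
    intro k j
    induction j with
    | zero => simp
    | succ j ih =>
      have h1 : f (k + (j + 1)) - f k = (f (k + j + 1) - f (k + j)) + (f (k + j) - f k) := by
        rw [← add_assoc]
        ring
      rw [h1]
      refine dvd_add ?_ ih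
      refine dvd_trans ?_ (hs (k + j))
      exact (map_dvd C (pow_dvd_pow ϖ (by omega)))
  have hlim : ∀ i, ∃ l : R, ∀ k, ϖ ^ k ∣ (f k).coeff i - l := by
    intro i
    obtain ⟨l, hl⟩ := IsPrecomplete.prec' (I := Ideal.span {ϖ}) (M := R)
      (fun k => (f k).coeff i) (by
        intro p q hpq
        rw [hf_smod]
        obtain ⟨j, rfl⟩ := Nat.exists_eq_add_of_le hpq
        have h2 := (Polynomial.C_dvd_iff_dvd_coeff _ _).mp (hs' p j) i
        rw [Polynomial.coeff_sub] at h2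
        rw [← dvd_neg, neg_sub]
        exact h2)
    refine ⟨l, fun k => ?_⟩
    have h3 := hl k
    rw [hf_smod] at h3
    exact h3
  choose l hl using hlim
  refine ⟨∑ i ∈ Finset.range N, monomial i (l i), ?_, ?_⟩
  · intro i hi
    rw [Polynomial.finsetSum_coeff]
    simp only [Polynomial.coeff_monomial]
    rw [Finset.sum_ite_eq', if_neg (by simpa using hi)]
  · intro k
    rw [Polynomial.C_dvd_iff_dvd_coeff]
    intro i
    rw [Polynomial.coeff_sub, Polynomial.finsetSum_coeff]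
    simp only [Polynomial.coeff_monomial]
    rw [Finset.sum_ite_eq']
    split_ifs with hi
    · exact hl i k
    · rw [hf k i (by simpa using hi), sub_zero]
      exact dvd_zero _

private theorem hf_haus {R : Type*} [CommRing R] (ϖ : R) [IsAdicComplete (Ideal.span {ϖ}) R]
    (x : R) (h : ∀ k, ϖ ^ k ∣ x) : x = 0 := by
  apply IsHausdorff.haus' (I := Ideal.span {ϖ}) (M := R) x
  intro n
  rw [hf_smod, sub_zero]
  exact h n

theorem hensel_factor {R : Type*} [CommRing R] (ϖ : R) [IsAdicComplete (Ideal.span {ϖ}) R]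
    {P a₀ b₀ : R[X]} (ha : a₀.Monic)
    (hcop : IsCoprime (a₀.map (Ideal.Quotient.mk (Ideal.span {ϖ})))
      (b₀.map (Ideal.Quotient.mk (Ideal.span {ϖ}))))
    (hP : P.map (Ideal.Quotient.mk (Ideal.span {ϖ})) =
      (a₀ * b₀).map (Ideal.Quotient.mk (Ideal.span {ϖ}))) :
    ∃ a b : R[X], a.Monic ∧ a.natDegree = a₀.natDegree ∧
      a.map (Ideal.Quotient.mk (Ideal.span {ϖ})) = a₀.map (Ideal.Quotient.mk (Ideal.span {ϖ})) ∧
      b.map (Ideal.Quotient.mk (Ideal.span {ϖ})) = b₀.map (Ideal.Quotient.mk (Ideal.span {ϖ})) ∧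
      P = a * b := by
  classical
  by_cases hS : Subsingleton R
  · have hS' : Subsingleton R[X] := inferInstance
    exact ⟨a₀, b₀, ha, rfl, rfl, rfl, Subsingleton.elim _ _⟩
  have hnt : Nontrivial R := not_subsingleton_iff_nontrivial.mp hS
  have hq : Nontrivial (R ⧸ (Ideal.span {ϖ} : Ideal R)) := by
    rw [Ideal.Quotient.nontrivial_iff]
    intro h
    rw [Ideal.span_singleton_eq_top] at h
    apply one_ne_zero (α := R)
    exact hf_haus ϖ 1 fun k => (h.pow k).dvd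
  set d := a₀.natDegree with hd
  obtain ⟨m, hm1, hm2⟩ : ∃ m, P.natDegree ≤ d + m ∧ b₀.natDegree ≤ m :=
    ⟨max P.natDegree b₀.natDegree, by omega, by omega⟩
  have hPd : ∀ i, d + m + 1 ≤ i → P.coeff i = 0 := fun i hi =>
    Polynomial.coeff_eq_zero_of_natDegree_lt (by omega)
  have hb₀ : ∀ i, m + 1 ≤ i → b₀.coeff i = 0 := fun i hi =>
    Polynomial.coeff_eq_zero_of_natDegree_lt (by omega)
  have hinit : HfInv ϖ P a₀ b₀ d m 0 (a₀, b₀) := by
    refine ⟨?_, ?_, ?_, ?_, ?_, ?_⟩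
    · exact ha.coeff_natDegree
    · intro i hi
      exact Polynomial.coeff_eq_zero_of_natDegree_lt (by dsimp only; omega)
    · exact hb₀
    · simp
    · simp
    · rw [zero_add, pow_one]
      exact (hf_map_eq ϖ _ _).mp hP
  have hstep : ∀ (k : ℕ) (x : {x : R[X] × R[X] // HfInv ϖ P a₀ b₀ d m k x}),
      ∃ y : {y : R[X] × R[X] // HfInv ϖ P a₀ b₀ d m (k + 1) y},
      C (ϖ ^ (k + 1)) ∣ y.1.1 - x.1.1 ∧ C (ϖ ^ (k + 1)) ∣ y.1.2 - x.1.2 := by
    intro k x
    obtain ⟨y, hy, h1, h2⟩ := hf_step ϖ ha m hPd hb₀ hcop k x.1 x.2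
    exact ⟨⟨y, hy⟩, h1, h2⟩
  choose nx hnx1 hnx2 using hstep
  let seq : (k : ℕ) → {x : R[X] × R[X] // HfInv ϖ P a₀ b₀ d m k x} := fun k =>
    Nat.rec (motive := fun k => {x : R[X] × R[X] // HfInv ϖ P a₀ b₀ d m k x}) ⟨(a₀, b₀), hinit⟩
      (fun k x => nx k x) k
  have hseq : ∀ k, seq (k + 1) = nx k (seq k) := fun k => rfl
  obtain ⟨a, had, hak⟩ := hf_limit ϖ (d + 1) (fun k => (seq k).1.1)
    (fun k i hi => (seq k).2.da i hi) (fun k => by
      rw [hseq]
      exact hnx1 k (seq k))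
  obtain ⟨b, hbd, hbk⟩ := hf_limit ϖ (m + 1) (fun k => (seq k).1.2)
    (fun k i hi => (seq k).2.db i hi) (fun k => by
      rw [hseq]
      exact hnx2 k (seq k))
  have hlead : a.coeff d = 1 := by
    have h1 : a.coeff d - 1 = 0 := by
      apply hf_haus ϖ
      intro k
      have h2 := (Polynomial.C_dvd_iff_dvd_coeff _ _).mp (hak k) d
      rw [Polynomial.coeff_sub, (seq k).2.lead] at h2
      rw [← dvd_neg, neg_sub]
      exact h2
    exact sub_eq_zero.mp h1
  have hadeg : a.natDegree ≤ d := by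
    rw [Polynomial.natDegree_le_iff_coeff_eq_zero]
    intro j hj
    exact had j hj
  have hadeg' : a.natDegree = d := by
    apply le_antisymm hadeg
    apply Polynomial.le_natDegree_of_ne_zero
    rw [hlead]
    exact one_ne_zero
  have hmonic : a.Monic := by
    unfold Polynomial.Monic Polynomial.leadingCoeff
    rw [hadeg', hlead]
  refine ⟨a, b, hmonic, hadeg', ?_, ?_, ?_⟩
  · rw [hf_map_eq]
    have h1 := hak 1
    rw [pow_one] at h1
    have h2 := (seq 1).2.ma
    have h3 : a - a₀ = ((seq 1).1.1 - a₀) - ((seq 1).1.1 - a) := by ring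
    rw [h3]
    exact dvd_sub h2 h1
  · rw [hf_map_eq]
    have h1 := hbk 1
    rw [pow_one] at h1
    have h2 := (seq 1).2.mb
    have h3 : b - b₀ = ((seq 1).1.2 - b₀) - ((seq 1).1.2 - b) := by ring
    rw [h3]
    exact dvd_sub h2 h1
  · rw [← sub_eq_zero]
    ext i
    rw [Polynomial.coeff_zero]
    apply hf_haus ϖ
    intro k
    apply (Polynomial.C_dvd_iff_dvd_coeff _ _).mp
    have h1 : P - a * b = (P - (seq k).1.1 * (seq k).1.2) +
        (((seq k).1.1 - a) * (seq k).1.2 + a * ((seq k).1.2 - b)) := by ring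
    rw [h1]
    refine dvd_add ?_ (dvd_add ((hak k).mul_right _) ((hbk k).mul_left _))
    exact dvd_trans (map_dvd C (pow_dvd_pow ϖ (Nat.le_succ k))) (seq k).2.eq

end Pool.Agent.Helper96.PS
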