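import Pool.Agent.Helper96.PS.Cards

/-!
# PS-B7: equidistribution of `B` modulo the places

`ϖ_i` (`i ∈ ι` finite) distinct monic irreducible, `E = ∑ deg ϖ_i ≤ n + 1 - 2 d_0`. Fix `G` of type `d` with `det G` a unit (`≤ q^{eG}` choices, `card_symm` with `b_ij = -d_i-d_j`). The matrices `B` (symmetric, `deg B_ij ≤ n - d_i - d_j`; `n + 1 - d_i - d_j ≥ n + 1 - 2d_0 ≥ E`) are equidistributed modulo `m = ∏ ϖ_i`: for each
`i ≤ j` the polynomials of degree `< D_ij := n+1-d_i-d_j` fall with equal multiplicities `q^{D_ij - E}` into the `q^E` classes mod `m` (division with remainder). CRT: `Sym(A/m) ≅ ∏ Sym(A/ϖ_i)`, `#Sym(A/ϖ_i) = Q_i^{(g+1)(2g+1)}`. So the number of `B` with `P_i(G mod ϖ_i, B mod ϖ_i)` for all `i` is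
`q^{eB} ∏_i (#{B₀ symmetric : P_i(G mod ϖ_i, B₀)} / Q_i^{(g+1)(2g+1)}) ≤ q^{eB} ∏ b_i`; `G mod ϖ_i` is symmetric with unit determinant. Sum over `G`.
-/

namespace Pool.Agent.Helper96.PS

open Polynomial

variable {F : Type*} [Field F]

private theorem ncard_fib {α β : Type*} (s : Set α) (hs : s.Finite) (t : Set β) (ht : t.Finite)
    (f : α → β) (hf : ∀ a ∈ s, f a ∈ t) (c : ℝ)
    (hc : ∀ b ∈ t, ({a | a ∈ s ∧ f a = b}.ncard : ℝ) ≤ c) : (s.ncard : ℝ) ≤ c * t.ncard := by
  classical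
  rw [Set.ncard_eq_toFinset_card s hs, Set.ncard_eq_toFinset_card t ht]
  have h1 : ∀ a ∈ hs.toFinset, f a ∈ ht.toFinset := by
    intro a ha
    rw [Set.Finite.mem_toFinset] at ha ⊢
    exact hf a ha
  rw [Finset.card_eq_sum_card_fiberwise h1]
  push_cast
  have h2 : ∀ b ∈ ht.toFinset,
      (((hs.toFinset.filter fun a => f a = b).card : ℕ) : ℝ) ≤ c := by
    intro b hb
    rw [Set.Finite.mem_toFinset] at hb
    refine le_trans (le_of_eq ?_) (hc b hb)
    congr 1
    have h3 : {a | a ∈ s ∧ f a = b} = ((hs.toFinset.filter fun a => f a = b : Finset α) : Set α) := by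
      ext a
      simp
    rw [h3, Set.ncard_coe_finset]
  refine (Finset.sum_le_sum h2).trans ?_
  rw [Finset.sum_const, nsmul_eq_mul, mul_comm]

private theorem sum_ici (N : ℕ) : 2 * ∑ i : Fin N, (Finset.Ici i).card = N * (N + 1) := by
  have h1 : ∑ i : Fin N, (Finset.Ici i).card = ∑ i ∈ Finset.range N, (N - i) := by
    rw [Finset.sum_range]
    exact Finset.sum_congr rfl fun i _ => Fin.card_Ici i
  rw [h1]
  clear h1
  induction N with
  | zero => simp
  | succ N ih =>
    rw [Finset.sum_range_succ', mul_add]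
    have h2 : ∑ k ∈ Finset.range N, (N + 1 - (k + 1)) = ∑ k ∈ Finset.range N, (N - k) :=
      Finset.sum_congr rfl fun k _ => by omega
    rw [h2, ih]
    simp only [Nat.sub_zero]
    ring

private theorem card_root [Finite F] (p : F[X]) (hp : p.Monic) :
    Finite (AdjoinRoot p) ∧ Nat.card (AdjoinRoot p) = Nat.card F ^ p.natDegree := by
  have pb := AdjoinRoot.powerBasis' hp
  have : Module.Finite F (AdjoinRoot p) := (AdjoinRoot.powerBasis' hp).finite
  have h1 : Module.finrank F (AdjoinRoot p) = p.natDegree := by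
    rw [(AdjoinRoot.powerBasis' hp).finrank, AdjoinRoot.powerBasis'_dim]
  refine ⟨Module.finite_of_finite F, ?_⟩
  rw [Module.natCard_eq_pow_finrank (K := F), h1]

/-- Symmetric matrices with bounded degrees. -/
private def SymB (F : Type*) [Field F] {N : ℕ} (b : Fin N → Fin N → ℤ) :
    Set (Matrix (Fin N) (Fin N) F[X]) :=
  {M | M.IsSymm ∧ ∀ i j, M i j ≠ 0 → ((M i j).natDegree : ℤ) ≤ b i j}

private theorem symB_finite [Finite F] {N : ℕ} (b : Fin N → Fin N → ℤ) (hb : ∀ i j, b i j = b j i) :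
    (SymB F b).Finite := by
  apply Set.finite_of_ncard_pos
  have h := card_symm (F := F) b hb
  unfold SymB
  rw [h]
  exact pow_pos Nat.card_pos _

private theorem fiber_le [Finite F] {N n : ℕ} {ι : Type*} [Fintype ι] (ϖ : ι → F[X])
    (hirr : ∀ i, Irreducible (ϖ i)) (hm : ∀ i, (ϖ i).Monic) (hinj : Function.Injective ϖ)
    (d : Fin N → ℤ) (B₀ : ∀ i, Matrix (Fin N) (Fin N) (AdjoinRoot (ϖ i))) :
    {B | B ∈ SymB F (fun i j => n - d i - d j) ∧
      (fun i => B.map (AdjoinRoot.mk (ϖ i))) = B₀}.ncard ≤ Nat.card F ^ (∑ i, ∑ j ∈ Finset.Ici i,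
        ((n : ℤ) - (∑ k, (ϖ k).natDegree : ℕ) - d i - d j + 1).toNat) := by
  classical
  set E : ℕ := ∑ k, (ϖ k).natDegree with hE
  set m : F[X] := ∏ k, ϖ k with hmdef
  have hmm : m.Monic := Polynomial.monic_prod_of_monic _ _ fun k _ => hm k
  have hm0 : m ≠ 0 := hmm.ne_zero
  have hmdeg : m.natDegree = E := Polynomial.natDegree_prod_of_monic _ _ fun k _ => hm k
  rcases Set.eq_empty_or_nonempty {B | B ∈ SymB F (fun i j => n - d i - d j) ∧
      (fun i => B.map (AdjoinRoot.mk (ϖ i))) = B₀} with hemp | ⟨Bs, hBs⟩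
  · rw [hemp, Set.ncard_empty]
    exact Nat.zero_le _
  · have hcard := card_symm (F := F) (fun i j : Fin N => (n : ℤ) - E - d i - d j)
      (fun i j => by ring)
    rw [← hcard]
    have hfin : {M : Matrix (Fin N) (Fin N) F[X] | M.IsSymm ∧
      ∀ i j, M i j ≠ 0 → ((M i j).natDegree : ℤ) ≤ (n : ℤ) - E - d i - d j}.Finite := by
      apply Set.finite_of_ncard_pos
      rw [hcard]
      exact pow_pos Nat.card_pos _
    refine le_trans (Set.ncard_le_ncard ?_ (hfin.image fun C => Bs + m • C))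
      (Set.ncard_image_le hfin)
    rintro B ⟨⟨hB1, hB2⟩, hB3⟩
    obtain ⟨⟨hs1, hs2⟩, hs3⟩ := hBs
    have hdvd : ∀ i j, m ∣ B i j - Bs i j := by
      intro i j
      apply Fintype.prod_dvd_of_coprime
      · intro k l hkl
        show IsCoprime (ϖ k) (ϖ l)
        rw [(hirr k).coprime_iff_not_dvd]
        intro hd
        exact hkl (hinj (Polynomial.eq_of_monic_of_associated (hm k) (hm l)
          ((hirr k).associated_of_dvd (hirr l) hd)))
      · intro k
        have h1 := congrFun (hB3.trans hs3.symm) k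
        have h2 : (B.map (AdjoinRoot.mk (ϖ k))) i j = (Bs.map (AdjoinRoot.mk (ϖ k))) i j := by
          rw [show B.map (AdjoinRoot.mk (ϖ k)) = Bs.map (AdjoinRoot.mk (ϖ k)) from h1]
        rw [Matrix.map_apply, Matrix.map_apply] at h2
        exact AdjoinRoot.mk_eq_mk.mp h2
    choose C hC using hdvd
    refine ⟨Matrix.of C, ⟨?_, ?_⟩, ?_⟩
    · unfold Matrix.IsSymm
      refine Matrix.ext fun i j => ?_
      rw [Matrix.transpose_apply, Matrix.of_apply, Matrix.of_apply]
      apply mul_left_cancel₀ hm0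
      rw [← hC, ← hC, hB1.apply i j, hs1.apply i j]
    · intro i j hne
      rw [Matrix.of_apply] at hne ⊢
      have h1 : (B i j - Bs i j).natDegree = E + (C i j).natDegree := by
        rw [hC, Polynomial.natDegree_mul hm0 hne, hmdeg]
      have h2 : ((B i j - Bs i j).natDegree : ℤ) ≤ n - d i - d j := by
        by_cases hb : B i j = 0
        · by_cases hb' : Bs i j = 0
          · exfalso
            have h3 := hC i j
            rw [hb, hb', sub_zero] at h3
            exact (mul_ne_zero hm0 hne) h3.symm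
          · rw [hb, zero_sub, Polynomial.natDegree_neg]
            exact hs2 i j hb'
        · by_cases hb' : Bs i j = 0
          · rw [hb', sub_zero]
            exact hB2 i j hb
          · have h3 := hB2 i j hb
            have h4 := hs2 i j hb'
            have h5 := Polynomial.natDegree_sub_le (B i j) (Bs i j)
            have h6 : ((B i j - Bs i j).natDegree : ℤ) ≤
                max ((B i j).natDegree : ℤ) ((Bs i j).natDegree : ℤ) := by exact_mod_cast h5
            exact h6.trans (max_le h3 h4)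
      rw [h1] at h2
      push_cast at h2
      linarith
    · ext1 i j
      simp only [Matrix.add_apply, Matrix.smul_apply, Matrix.of_apply, smul_eq_mul]
      rw [← hC]
      ring

private theorem ncard_fam {ι : Type*} [Fintype ι] {κ : ι → Type*} [∀ i, Finite (κ i)]
    (s : ∀ i, Set (κ i)) : {x : ∀ i, κ i | ∀ i, x i ∈ s i}.ncard = ∏ i, (s i).ncard := by
  have h1 : {x : ∀ i, κ i | ∀ i, x i ∈ s i} = Set.univ.pi s := by
    ext x
    simp
  rw [h1, ← Nat.card_coe_set_eq, Nat.card_congr (Equiv.Set.univPi s), Nat.card_pi]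
  exact Finset.prod_congr rfl fun i _ => Nat.card_coe_set_eq _

theorem equi [Finite F] {g n : ℕ} {ι : Type*} [Fintype ι] [DecidableEq ι] (ϖ : ι → F[X])
    (hirr : ∀ i, Irreducible (ϖ i)) (hm : ∀ i, (ϖ i).Monic) (hinj : Function.Injective ϖ)
    {d : Fin (2 * g + 1) → ℤ} (hd : Antitone d)
    (hD : ((∑ i, (ϖ i).natDegree : ℕ) : ℤ) ≤ n + 1 - 2 * d 0)
    (P : ∀ i, Matrix (Fin (2 * g + 1)) (Fin (2 * g + 1)) (AdjoinRoot (ϖ i)) →
      Matrix (Fin (2 * g + 1)) (Fin (2 * g + 1)) (AdjoinRoot (ϖ i)) → Prop)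
    (b : ι → ℝ) (hb0 : ∀ i, 0 ≤ b i)
    (hb : ∀ i G₀, G₀.IsSymm → IsUnit G₀.det → ({B₀ | B₀.IsSymm ∧ P i G₀ B₀}.ncard : ℝ) ≤
      b i * (Nat.card (AdjoinRoot (ϖ i)) : ℝ) ^ ((g + 1) * (2 * g + 1))) :
    ({p | p ∈ PSet F g n d ∧ ∀ i, P i (p.1.map (AdjoinRoot.mk (ϖ i)))
      (p.2.map (AdjoinRoot.mk (ϖ i)))}.ncard : ℝ) ≤
      (Nat.card F : ℝ) ^ (eG d + eB n d) * ∏ i, b i := by
  classical
  set E : ℕ := ∑ i, (ϖ i).natDegree with hE
  set M : ℕ := (g + 1) * (2 * g + 1) with hM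
  set q : ℕ := Nat.card F with hq
  have hq0 : 0 < q := Nat.card_pos
  have hqR : (0 : ℝ) < q := by exact_mod_cast hq0
  have hfinK : ∀ i, Finite (AdjoinRoot (ϖ i)) := fun i => (card_root (ϖ i) (hm i)).1
  have hcardK : ∀ i, Nat.card (AdjoinRoot (ϖ i)) = q ^ (ϖ i).natDegree := fun i =>
    (card_root (ϖ i) (hm i)).2
  have hfinM : ∀ i, Finite (Matrix (Fin (2 * g + 1)) (Fin (2 * g + 1)) (AdjoinRoot (ϖ i))) := by
    intro i
    have := hfinK i
    unfold Matrix
    infer_instance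
  -- exponents
  set e' : ℕ := ∑ i : Fin (2 * g + 1), ∑ j ∈ Finset.Ici i,
    ((n : ℤ) - E - d i - d j + 1).toNat with he'
  have hexp : eB n d = e' + E * M := by
    unfold eB
    have h1 : ∀ i j : Fin (2 * g + 1), ((n : ℤ) + 1 - d i - d j).toNat =
        ((n : ℤ) - E - d i - d j + 1).toNat + E := by
      intro i j
      have h2 : d i ≤ d 0 := hd (Fin.zero_le i)
      have h3 : d j ≤ d 0 := hd (Fin.zero_le j)
      omega
    have h4 : ∑ i : Fin (2 * g + 1), ∑ j ∈ Finset.Ici i, ((n : ℤ) + 1 - d i - d j).toNat =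
        e' + ∑ i : Fin (2 * g + 1), (Finset.Ici i).card * E := by
      rw [he', ← Finset.sum_add_distrib]
      apply Finset.sum_congr rfl
      intro i _
      rw [Finset.sum_congr rfl fun j _ => h1 i j, Finset.sum_add_distrib, Finset.sum_const,
        smul_eq_mul]
    rw [h4, ← Finset.sum_mul]
    have h5 := sum_ici (2 * g + 1)
    have h6 : ∑ i : Fin (2 * g + 1), (Finset.Ici i).card = M := by
      have h7 : 2 * ∑ i : Fin (2 * g + 1), (Finset.Ici i).card = 2 * M := by
        rw [h5, hM]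
        ring
      omega
    rw [h6, mul_comm M E]
  set C : ℝ := (q : ℝ) ^ (eB n d) * ∏ i, b i with hCdef
  -- one matrix `G`
  have hG : ∀ G : Matrix (Fin (2 * g + 1)) (Fin (2 * g + 1)) F[X], G.IsSymm → IsUnit G.det →
      ({B | B ∈ SymB F (fun i j => n - d i - d j) ∧ ∀ i, P i (G.map (AdjoinRoot.mk (ϖ i)))
        (B.map (AdjoinRoot.mk (ϖ i)))}.ncard : ℝ) ≤ C := by
    intro G hG1 hG2
    have hsymfin : (SymB F (fun i j : Fin (2 * g + 1) => (n : ℤ) - d i - d j)).Finite :=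
      symB_finite _ fun i j => by ring
    set T : ∀ i, Set (Matrix (Fin (2 * g + 1)) (Fin (2 * g + 1)) (AdjoinRoot (ϖ i))) := fun i =>
      {B₀ | B₀.IsSymm ∧ P i (G.map (AdjoinRoot.mk (ϖ i))) B₀} with hT
    have h1 := ncard_fib {B | B ∈ SymB F (fun i j => n - d i - d j) ∧
        ∀ i, P i (G.map (AdjoinRoot.mk (ϖ i))) (B.map (AdjoinRoot.mk (ϖ i)))}
      (hsymfin.subset fun B hB => hB.1)
      {x : ∀ i, Matrix (Fin (2 * g + 1)) (Fin (2 * g + 1)) (AdjoinRoot (ϖ i)) | ∀ i, x i ∈ T i}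
      (Set.toFinite _) (fun B i => B.map (AdjoinRoot.mk (ϖ i))) (by
        rintro B ⟨⟨hB1, hB2⟩, hB3⟩ i
        refine ⟨?_, hB3 i⟩
        show (B.map (AdjoinRoot.mk (ϖ i))).transpose = B.map (AdjoinRoot.mk (ϖ i))
        rw [← Matrix.transpose_map, hB1.eq]) ((q : ℝ) ^ e') (by
        intro B₀ _
        have h2 := fiber_le (n := n) ϖ hirr hm hinj d B₀
        have h3 : {a | a ∈ {B | B ∈ SymB F (fun i j => n - d i - d j) ∧
            ∀ i, P i (G.map (AdjoinRoot.mk (ϖ i))) (B.map (AdjoinRoot.mk (ϖ i)))} ∧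
            (fun i => a.map (AdjoinRoot.mk (ϖ i))) = B₀}.ncard ≤
            {B | B ∈ SymB F (fun i j => n - d i - d j) ∧
              (fun i => B.map (AdjoinRoot.mk (ϖ i))) = B₀}.ncard :=
          Set.ncard_le_ncard (fun B hB => ⟨hB.1.1, hB.2⟩) (hsymfin.subset fun B hB => hB.1)
        have h4 := h3.trans h2
        have h5 : (({a | a ∈ {B | B ∈ SymB F (fun i j => n - d i - d j) ∧
            ∀ i, P i (G.map (AdjoinRoot.mk (ϖ i))) (B.map (AdjoinRoot.mk (ϖ i)))} ∧
            (fun i => a.map (AdjoinRoot.mk (ϖ i))) = B₀}.ncard : ℕ) : ℝ) ≤ ((q ^ e' : ℕ) : ℝ) :=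
          Nat.cast_le.mpr h4
        rw [Nat.cast_pow] at h5
        exact h5)
    refine h1.trans ?_
    rw [ncard_fam]
    push_cast
    have h5 : ∏ i, ((T i).ncard : ℝ) ≤ ∏ i, (b i * (Nat.card (AdjoinRoot (ϖ i)) : ℝ) ^ M) := by
      apply Finset.prod_le_prod
      · intro i _
        exact Nat.cast_nonneg _
      · intro i _
        apply hb i
        · show (G.map (AdjoinRoot.mk (ϖ i))).transpose = G.map (AdjoinRoot.mk (ϖ i))
          rw [← Matrix.transpose_map, hG1.eq]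
        · have h6 : (G.map (AdjoinRoot.mk (ϖ i))).det = AdjoinRoot.mk (ϖ i) G.det := by
            rw [← RingHom.mapMatrix_apply, ← RingHom.map_det]
          rw [h6]
          exact hG2.map _
    have h7 : ∏ i, (b i * (Nat.card (AdjoinRoot (ϖ i)) : ℝ) ^ M) =
        (∏ i, b i) * (q : ℝ) ^ (E * M) := by
      rw [Finset.prod_mul_distrib, Finset.prod_pow]
      have h8 : ∏ i, (Nat.card (AdjoinRoot (ϖ i)) : ℝ) = (q : ℝ) ^ E := by
        rw [hE, ← Finset.prod_pow_eq_pow_sum]
        apply Finset.prod_congr rfl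
        intro i _
        rw [hcardK i]
        push_cast
        rfl
      rw [h8, ← pow_mul]
    calc (q : ℝ) ^ e' * ∏ i, ((T i).ncard : ℝ)
        ≤ (q : ℝ) ^ e' * ((∏ i, b i) * (q : ℝ) ^ (E * M)) := by
          rw [← h7]
          exact mul_le_mul_of_nonneg_left h5 (by positivity)
      _ = C := by
          rw [hCdef, hexp, pow_add]
          ring
  -- all `G`
  have hsG : ∀ i j : Fin (2 * g + 1), -d i - d j = -d j - d i := fun i j => by ring
  have hfinG : (SymB F (fun i j : Fin (2 * g + 1) => -d i - d j)).Finite := symB_finite _ hsG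
  have hcardG : (SymB F (fun i j : Fin (2 * g + 1) => -d i - d j)).ncard = q ^ eG d := by
    have h := card_symm (F := F) (fun i j : Fin (2 * g + 1) => -d i - d j) hsG
    unfold SymB
    rw [h]
    congr 1
    unfold eG
    apply Finset.sum_congr rfl
    intro i _
    apply Finset.sum_congr rfl
    intro j _
    congr 1
    ring
  have hC0 : 0 ≤ C := mul_nonneg (by positivity) (Finset.prod_nonneg fun i _ => hb0 i)
  have htot := ncard_fib {p | p ∈ PSet F g n d ∧ ∀ i, P i (p.1.map (AdjoinRoot.mk (ϖ i)))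
      (p.2.map (AdjoinRoot.mk (ϖ i)))} ((finite_PSet g n d).subset fun p hp => hp.1)
    {G | G ∈ SymB F (fun i j : Fin (2 * g + 1) => -d i - d j) ∧ IsUnit G.det}
    (hfinG.subset fun G hG => hG.1) Prod.fst (by
      rintro p ⟨hp, _⟩
      exact ⟨⟨hp.1, hp.2.2.2.1⟩, hp.2.2.1⟩) C (by
      rintro G ⟨⟨hG1, hG3⟩, hG2⟩
      refine le_trans ?_ (hG G hG1 hG2)
      have hsymfin : (SymB F (fun i j : Fin (2 * g + 1) => (n : ℤ) - d i - d j)).Finite :=
        symB_finite _ fun i j => by ring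
      have hfinB : {B | B ∈ SymB F (fun i j => n - d i - d j) ∧
          ∀ i, P i (G.map (AdjoinRoot.mk (ϖ i))) (B.map (AdjoinRoot.mk (ϖ i)))}.Finite :=
        hsymfin.subset fun B hB => hB.1
      exact_mod_cast Set.ncard_le_ncard_of_injOn Prod.snd (by
        rintro ⟨G', B⟩ ⟨⟨hp, hP⟩, rfl⟩
        exact ⟨⟨hp.2.1, hp.2.2.2.2⟩, hP⟩) (by
        rintro ⟨G1, B1⟩ ⟨_, h1⟩ ⟨G2, B2⟩ ⟨_, h2⟩ h3
        simp only at h1 h2 h3
        rw [h1, h2, h3]) hfinB)
  refine htot.trans ?_
  have hle : ({G | G ∈ SymB F (fun i j : Fin (2 * g + 1) => -d i - d j) ∧ IsUnit G.det}.ncard : ℝ) ≤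
      (q : ℝ) ^ eG d := by
    have h := Set.ncard_le_ncard (s := {G | G ∈ SymB F (fun i j : Fin (2 * g + 1) => -d i - d j) ∧
      IsUnit G.det}) (fun G hG => hG.1) hfinG
    rw [hcardG] at h
    exact_mod_cast h
  calc C * _ ≤ C * (q : ℝ) ^ eG d := mul_le_mul_of_nonneg_left hle hC0
    _ = _ := by rw [hCdef, pow_add]; ring

end Pool.Agent.Helper96.PS
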