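import Pool.Agent.Helper96.PS.QuadCount

/-!
# PS-B6b: the number of isometries

`G` symmetric invertible of size `N ≥ 1` over the finite field `κ`, `2 ≠ 0`, `Q = #κ`: `#{u : uᵀ G u = G} ≤ 2 ∏_{m=2}^N (Q^{m-1} + 3 Q^{m-2})`.
Proof. (1) `G` is congruent to a diagonal matrix `D` with nonzero entries (`G = sᵀ D s`, `s` invertible; Mathlib: `LinearMap.BilinForm.exists_orthogonal_basis`, `Matrix` versions, or `QuadraticForm.equivalent_weightedSumSquares`), `u ↦ s u s⁻¹` is a bijection to the isometries of `D`.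
(2) Induction: for a nondegenerate symmetric bilinear space `(V, β)` of dimension `m` over `κ` and `c_1..c_m ∈ κ^*` the number of orthogonal sequences `(v_1..v_m)` with `β(v_i, v_i) = c_i` is `≤ 2 ∏_{j=2}^m (Q^{j-1}+3Q^{j-2})`: `v_1` has at most `Q^{m-1}+3Q^{m-2}` choices (`card_quad`, `≤ 2` if `m = 1`), and
`v_2..v_m` lie in `v_1^⊥`, nondegenerate of dimension `m - 1`. The columns of `u` form such a sequence.
-/

namespace Pool.Agent.Helper96.PS

open Module in
private theorem iso_basis {κ : Type*} [Field κ] (h2 : (2 : κ) ≠ 0) {V : Type*} [AddCommGroup V]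
    [Module κ V] [FiniteDimensional κ V] (B : LinearMap.BilinForm κ V) (hB : B.Nondegenerate)
    (hs : B.IsSymm) {m : ℕ} (hm : finrank κ V = m) :
    ∃ b : Basis (Fin m) κ V, (∀ i j, i ≠ j → B (b i) (b j) = 0) ∧ ∀ i, B (b i) (b i) ≠ 0 := by
  subst hm
  let _ : Invertible (2 : κ) := invertibleOfNonzero h2
  obtain ⟨b, hb⟩ := LinearMap.BilinForm.exists_orthogonal_basis
    (LinearMap.BilinForm.isSymm_iff.1 hs)
  exact ⟨b, fun i j hij => hb hij, fun i => hb.not_isOrtho_basis_self_of_separatingLeft hB.1 i⟩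

open Module in
private theorem iso_diag {κ : Type*} [Field κ] {V : Type*} [AddCommGroup V]
    [Module κ V] (B : LinearMap.BilinForm κ V) {m : ℕ} (b : Basis (Fin m) κ V)
    (hb : ∀ i j, i ≠ j → B (b i) (b j) = 0) (x : V) :
    B x x = ∑ i, B (b i) (b i) * b.equivFun x i ^ 2 := by
  have h : ∀ i, B x (b i) = b.equivFun x i * B (b i) (b i) := by
    intro i
    conv_lhs => rw [← b.sum_equivFun x]
    rw [map_sum, LinearMap.sum_apply, Finset.sum_eq_single i]
    · rw [map_smul, LinearMap.smul_apply, smul_eq_mul]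
    · intro j _ hji
      rw [map_smul, LinearMap.smul_apply, hb j i hji]
      simp
    · intro h
      exact absurd (Finset.mem_univ i) h
  calc B x x = B x (∑ i, b.equivFun x i • b i) := by rw [b.sum_equivFun]
    _ = ∑ i, B (b i) (b i) * b.equivFun x i ^ 2 := by
      rw [map_sum]
      refine Finset.sum_congr rfl fun i _ => ?_
      rw [map_smul, h i, smul_eq_mul]
      ring

open Module in
private theorem iso_quad {κ : Type*} [Field κ] [Finite κ] (h2 : (2 : κ) ≠ 0) {V : Type*}
    [AddCommGroup V] [Module κ V] [FiniteDimensional κ V] (B : LinearMap.BilinForm κ V)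
    (hB : B.Nondegenerate) (hs : B.IsSymm) {m : ℕ} (hm : finrank κ V = m) {a : κ} (ha : a ≠ 0) :
    (2 ≤ m → {x : V | B x x = a}.ncard ≤ Nat.card κ ^ (m - 1) + 3 * Nat.card κ ^ (m - 2)) ∧
      (m = 1 → {x : V | B x x = a}.ncard ≤ 2) := by
  obtain ⟨b, hb, hb'⟩ := iso_basis h2 B hB hs hm
  have key : {x : V | B x x = a}.ncard ≤
      {v : Fin m → κ | ∑ i, B (b i) (b i) * v i ^ 2 = a}.ncard := by
    apply Set.ncard_le_ncard_of_injOn (fun x => b.equivFun x)
    · intro x hx
      have hx' : B x x = a := hx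
      rw [iso_diag B b hb x] at hx'
      exact hx'
    · intro x _ y _ hxy
      exact b.equivFun.injective hxy
  refine ⟨fun h => key.trans (card_quad h2 h _ hb' ha), fun h => ?_⟩
  subst h
  exact key.trans (card_quad_one _ hb' a)

/-- orthogonal sequences with prescribed values -/
private def isoSeq {κ : Type*} [Field κ] {V : Type*} [AddCommGroup V] [Module κ V]
    (B : LinearMap.BilinForm κ V) {m : ℕ} (c : Fin m → κ) : Set (Fin m → V) :=
  {v | (∀ i, B (v i) (v i) = c i) ∧ ∀ i j, i ≠ j → B (v i) (v j) = 0}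

universe uV

open Module in
private theorem iso_fibre {κ : Type*} [Field κ] [Finite κ] {V : Type uV}
    [AddCommGroup V] [Module κ V] [FiniteDimensional κ V] (B : LinearMap.BilinForm κ V)
    {m : ℕ} (c : Fin (m + 1) → κ) (x : V) :
    {v : Fin (m + 1) → V | v ∈ isoSeq B c ∧ v 0 = x}.ncard ≤
      (isoSeq (B.restrict (B.orthogonal (Submodule.span κ {x}))) (fun i : Fin m => c i.succ)).ncard := by
  classical
  have : Finite V := Module.finite_of_finite κ
  set W := B.orthogonal (Submodule.span κ {x}) with hW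
  have hsub : {v : Fin (m + 1) → V | v ∈ isoSeq B c ∧ v 0 = x} ⊆
      (fun (u : Fin m → W) => (Fin.cons x (fun i => (u i : V)) : Fin (m + 1) → V)) ''
        (isoSeq (B.restrict W) (fun i : Fin m => c i.succ)) := by
    rintro v ⟨⟨h1, h2⟩, h3⟩
    have hmem : ∀ i : Fin m, v i.succ ∈ W := by
      intro i
      rw [hW, LinearMap.BilinForm.mem_orthogonal_iff]
      intro n hn
      obtain ⟨t, rfl⟩ := Submodule.mem_span_singleton.1 hn
      change B (t • x) (v i.succ) = 0
      rw [map_smul, LinearMap.smul_apply, ← h3, h2 0 i.succ (Fin.succ_ne_zero i).symm, smul_zero]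
    refine ⟨fun i => ⟨v i.succ, hmem i⟩, ⟨fun i => h1 i.succ, fun i j hij => ?_⟩, ?_⟩
    · exact h2 i.succ j.succ fun h => hij (Fin.succ_injective _ h)
    · funext i
      refine Fin.cases ?_ (fun i => ?_) i
      · simp [h3]
      · simp
  refine (Set.ncard_le_ncard hsub (Set.toFinite _)).trans ?_
  exact Set.ncard_image_le (Set.toFinite _)

open Module in
private theorem iso_seq {κ : Type*} [Field κ] [Finite κ] (h2 : (2 : κ) ≠ 0) (m : ℕ) :
    ∀ (V : Type uV) [AddCommGroup V] [Module κ V] [FiniteDimensional κ V]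
      (B : LinearMap.BilinForm κ V), B.Nondegenerate → B.IsSymm → finrank κ V = m + 1 →
      ∀ c : Fin (m + 1) → κ, (∀ i, c i ≠ 0) →
      (isoSeq B c).ncard ≤
        2 * ∏ j ∈ Finset.Icc 2 (m + 1), (Nat.card κ ^ (j - 1) + 3 * Nat.card κ ^ (j - 2)) := by
  induction m with
  | zero =>
    intro V _ _ _ B hB hs hV c hc
    have : Finite V := Module.finite_of_finite κ
    have h1 : (isoSeq B c).ncard ≤ {x : V | B x x = c 0}.ncard := by
      apply Set.ncard_le_ncard_of_injOn (fun v => v 0)
      · intro v hv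
        exact hv.1 0
      · intro v _ w _ hvw
        funext i
        have hi : i = 0 := Subsingleton.elim (α := Fin 1) i 0
        rw [hi]
        exact hvw
    have h3 := (iso_quad h2 B hB hs hV (hc 0)).2 rfl
    simpa using h1.trans h3
  | succ m ih =>
    intro V _ _ _ B hB hs hV c hc
    classical
    have : Finite V := Module.finite_of_finite κ
    have := Fintype.ofFinite V
    have hT := (iso_quad h2 B hB hs hV (hc 0)).1 (by omega)
    have hfib : ∀ x ∈ {x : V | B x x = c 0}, {v : Fin (m + 2) → V | v ∈ isoSeq B c ∧ v 0 = x}.ncard ≤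
        2 * ∏ j ∈ Finset.Icc 2 (m + 1), (Nat.card κ ^ (j - 1) + 3 * Nat.card κ ^ (j - 2)) := by
      intro x hx
      have hx' : B x x = c 0 := hx
      have hx0 : B x x ≠ 0 := by
        rw [hx']
        exact hc 0
      have hxne : x ≠ 0 := by
        rintro rfl
        exact hx0 (by simp)
      refine (iso_fibre B c x).trans ?_
      apply ih
      · exact LinearMap.BilinForm.restrict_nondegenerate_orthogonal_spanSingleton B hB hs.isRefl hx0
      · exact hs.restrict _
      · rw [LinearMap.BilinForm.finrank_orthogonal hB, hV, finrank_span_singleton hxne]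
        omega
      · intro i
        exact hc i.succ
    have hmain := Finset.card_le_mul_card_image_of_maps_to (s := (isoSeq B c).toFinite.toFinset)
      (t := {x : V | B x x = c 0}.toFinite.toFinset) (f := fun v => v 0) (fun v hv => by
        rw [Set.Finite.mem_toFinset] at hv ⊢
        exact hv.1 0)
      (2 * ∏ j ∈ Finset.Icc 2 (m + 1), (Nat.card κ ^ (j - 1) + 3 * Nat.card κ ^ (j - 2)))
      (fun x hx => by
        rw [Set.Finite.mem_toFinset] at hx
        refine le_trans (le_of_eq ?_) (hfib x hx)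
        rw [Set.ncard_eq_toFinset_card _ (Set.toFinite _)]
        congr 1
        ext v
        rw [Finset.mem_filter, Set.Finite.mem_toFinset, Set.Finite.mem_toFinset]
        rfl)
    rw [← Set.ncard_eq_toFinset_card _ (Set.toFinite _),
      ← Set.ncard_eq_toFinset_card _ (Set.toFinite _)] at hmain
    refine hmain.trans ?_
    rw [Finset.prod_Icc_succ_top (by omega : 2 ≤ m + 1 + 1), ← mul_assoc]
    exact Nat.mul_le_mul_left _ hT

theorem card_isometries {κ : Type*} [Field κ] [Finite κ] (h2 : (2 : κ) ≠ 0) {N : ℕ} (hN : 1 ≤ N)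
    {G : Matrix (Fin N) (Fin N) κ} (hs : G.IsSymm) (hG : IsUnit G.det) :
    {u : Matrix (Fin N) (Fin N) κ | u.transpose * G * u = G}.ncard ≤
      2 * ∏ m ∈ Finset.Icc 2 N, (Nat.card κ ^ (m - 1) + 3 * Nat.card κ ^ (m - 2)) := by
  classical
  have : NeZero N := ⟨by omega⟩
  obtain ⟨n, rfl⟩ : ∃ n, N = n + 1 := ⟨N - 1, by omega⟩
  set B : LinearMap.BilinForm κ (Fin (n + 1) → κ) := Matrix.toBilin' G with hBdef
  have hB : B.Nondegenerate := (Matrix.nondegenerate_of_det_ne_zero hG.ne_zero).toBilin'
  have hsB : B.IsSymm := Matrix.isSymm_toBilin'_iff_isSymm.2 hs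
  have hfr : Module.finrank κ (Fin (n + 1) → κ) = n + 1 := Module.finrank_fin_fun κ
  obtain ⟨b, hb, hb'⟩ := iso_basis h2 B hB hsB hfr
  have happ : ∀ x y, B x y = x ⬝ᵥ G.mulVec y := fun x y => Matrix.toBilin'_apply' G x y
  refine le_trans ?_ (iso_seq h2 n (Fin (n + 1) → κ) B hB hsB hfr (fun i => B (b i) (b i)) hb')
  apply Set.ncard_le_ncard_of_injOn (fun u => fun i => u.mulVec (b i))
  · intro u hu
    have hu' : u.transpose * G * u = G := hu
    have hiso : ∀ x y, B (u.mulVec x) (u.mulVec y) = B x y := by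
      intro x y
      rw [happ, happ]
      conv_rhs => rw [← hu']
      rw [Matrix.mulVec_mulVec, ← Matrix.vecMul_transpose, Matrix.dotProduct_mulVec,
        Matrix.vecMul_vecMul, Matrix.dotProduct_mulVec, Matrix.mul_assoc]
    refine ⟨fun i => hiso _ _, fun i j hij => ?_⟩
    change B (u.mulVec (b i)) (u.mulVec (b j)) = 0
    rw [hiso, hb i j hij]
  · intro u _ v _ huv
    apply Matrix.toLin'.injective
    apply b.ext
    intro i
    exact congrFun huv i

end Pool.Agent.Helper96.PS
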