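import Pool.Agent.Helper96.PS.LocalOrbit
import Pool.Agent.Helper96.PS.IsoCount

/-!
# PS-B6d: the local counts

`N = 2g+1`, `κ` finite with `Q` elements, `2 ≠ 0`. `∏_{m=2}^N (Q^{m-1} + 3Q^{m-2}) = Q^{g(2g+1)} (1 + 3/Q)^{2g}` (`∑_{m=2}^N (m-1) = N(N-1)/2 = g(2g+1)`). For `f₀ ∈ TS κ g` (`f₀ = (X - r) h`, `h` irreducible of degree `2g ≥ 2`, so coprime to `X - r`): `κ[x]/(f₀) ≅ κ × κ[x]/(h)` has at least `4` solutions of `p² = 1`
(`(±1, ±1)`, `1 ≠ -1`); for `f₀ ∈ TI κ g` at least `2`. So by `orbit_card`, `card_isometries`: the number of `B` for `f₀` is `≤ ½ Q^{g(2g+1)}(1+3/Q)^{2g}` resp. `≤ Q^{g(2g+1)}(1+3/Q)^{2g}`; sum over `f₀` (the union over `f₀ ∈ T`; `f₀` is determined by `B`; `T` finite). `f₀` is monic of degree `N`.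
-/

namespace Pool.Agent.Helper96.PS

open Polynomial

private theorem lc_union {α β : Type*} [Finite α] {T : Set β} (hT : T.Finite) (S : β → Set α)
    (k P : ℕ) (h : ∀ b ∈ T, k * (S b).ncard ≤ P) :
    k * (⋃ b ∈ T, S b).ncard ≤ T.ncard * P := by
  induction T, hT using Set.Finite.induction_on with
  | empty => simp
  | @insert b T hb hT ih =>
    rw [Set.biUnion_insert, Set.ncard_insert_of_notMem hb hT]
    have h1 := Set.ncard_union_le (S b) (⋃ c ∈ T, S c)
    have h2 := h b (Set.mem_insert _ _)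
    have h3 := ih fun c hc => h c (Set.mem_insert_of_mem _ hc)
    calc k * (S b ∪ ⋃ x ∈ T, S x).ncard ≤ k * ((S b).ncard + (⋃ x ∈ T, S x).ncard) :=
          Nat.mul_le_mul_left _ h1
      _ = k * (S b).ncard + k * (⋃ x ∈ T, S x).ncard := by ring
      _ ≤ P + T.ncard * P := add_le_add h2 h3
      _ = (T.ncard + 1) * P := by ring

private theorem lc_finite {κ : Type*} [Field κ] [Finite κ] (N : ℕ) {T : Set κ[X]}
    (h : ∀ p ∈ T, p.natDegree = N) : T.Finite := by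
  have : Finite (Polynomial.degreeLT κ (N + 1)) :=
    Finite.of_equiv _ (Polynomial.degreeLTEquiv κ (N + 1)).symm.toEquiv
  refine (Set.toFinite (Polynomial.degreeLT κ (N + 1) : Set κ[X])).subset fun p hp => ?_
  rw [SetLike.mem_coe, Polynomial.mem_degreeLT]
  refine lt_of_le_of_lt Polynomial.degree_le_natDegree ?_
  rw [h p hp]
  exact_mod_cast Nat.lt_succ_self N

private theorem lc_prod {Q : ℝ} (hQ : Q ≠ 0) (n : ℕ) :
    ∏ m ∈ Finset.Icc 2 (n + 1), (Q ^ (m - 1) + 3 * Q ^ (m - 2)) =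
      Q ^ (n * (n + 1) / 2) * (1 + 3 / Q) ^ n := by
  induction n with
  | zero => simp
  | succ n ih =>
    rw [Finset.prod_Icc_succ_top (by omega), ih]
    have e1 : n + 1 + 1 - 1 = n + 1 := rfl
    have e2 : n + 1 + 1 - 2 = n := rfl
    have e3 : (n + 1) * (n + 1 + 1) / 2 = n * (n + 1) / 2 + (n + 1) := by
      have : (n + 1) * (n + 1 + 1) = n * (n + 1) + 2 * (n + 1) := by ring
      rw [this, Nat.add_mul_div_left _ _ (by norm_num)]
    have e4 : Q ^ (n + 1) + 3 * Q ^ n = Q ^ (n + 1) * (1 + 3 / Q) := by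
      field_simp
      ring
    rw [e1, e2, e3, e4, pow_succ (1 + 3 / Q) n, pow_add Q (n * (n + 1) / 2) (n + 1)]
    ring

private theorem lc_prod' {Q : ℕ} (hQ : Q ≠ 0) (g : ℕ) :
    ((∏ m ∈ Finset.Icc 2 (2 * g + 1), (Q ^ (m - 1) + 3 * Q ^ (m - 2)) : ℕ) : ℝ) =
      (Q : ℝ) ^ (g * (2 * g + 1)) * (1 + 3 / (Q : ℝ)) ^ (2 * g) := by
  have h := lc_prod (Q := (Q : ℝ)) (by exact_mod_cast hQ) (2 * g)
  push_cast
  rw [h]
  congr 2
  rw [mul_assoc, Nat.mul_div_cancel_left _ (by norm_num)]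

private theorem lc_sub {κ : Type*} [Field κ] [Finite κ] (h2 : (2 : κ) ≠ 0) {g : ℕ}
    {G : Matrix (Fin (2 * g + 1)) (Fin (2 * g + 1)) κ} (hs : G.IsSymm) (hG : IsUnit G.det)
    {T : Set κ[X]} (hT : ∀ p ∈ T, p.Monic ∧ p.natDegree = 2 * g + 1) {k : ℕ}
    (hk : ∀ p ∈ T, 2 * k ≤ {q : AdjoinRoot p | q ^ 2 = 1}.ncard) :
    (k : ℝ) * ({B | B.IsSymm ∧ LocP T G B}.ncard : ℝ) ≤
      T.ncard * (Nat.card κ : ℝ) ^ (g * (2 * g + 1)) *
        (1 + 3 / (Nat.card κ : ℝ)) ^ (2 * g) := by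
  have hTf : T.Finite := lc_finite (2 * g + 1) fun p hp => (hT p hp).2
  have hu : {B : Matrix (Fin (2 * g + 1)) (Fin (2 * g + 1)) κ | B.IsSymm ∧ LocP T G B} =
      ⋃ f₀ ∈ T, {B : Matrix (Fin (2 * g + 1)) (Fin (2 * g + 1)) κ | B.IsSymm ∧
        cdet G B = C G.det * f₀ ∧ Dist G B} := by
    ext B
    simp only [Set.mem_iUnion, Set.mem_ofPred_eq]
    constructor
    · rintro ⟨h1, h3, f₀, hf, h4⟩
      exact ⟨f₀, hf, h1, h4, h3⟩
    · rintro ⟨f₀, hf, h1, h4, h3⟩
      exact ⟨h1, h3, f₀, hf, h4⟩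
  have hQ : Nat.card κ ≠ 0 := Nat.card_pos.ne'
  have hiso := card_isometries h2 (by omega : 1 ≤ 2 * g + 1) hs hG
  have key : k * (⋃ f₀ ∈ T, {B : Matrix (Fin (2 * g + 1)) (Fin (2 * g + 1)) κ | B.IsSymm ∧
        cdet G B = C G.det * f₀ ∧ Dist G B}).ncard ≤ T.ncard *
      ∏ m ∈ Finset.Icc 2 (2 * g + 1), (Nat.card κ ^ (m - 1) + 3 * Nat.card κ ^ (m - 2)) := by
    refine lc_union hTf _ k _ fun f₀ hf => ?_
    have h1 := orbit_card (by omega : 1 ≤ 2 * g + 1) hs hG (hT f₀ hf).1 (hT f₀ hf).2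
    have h3 := h1.trans hiso
    have h4 := Nat.mul_le_mul_left
      ({B : Matrix (Fin (2 * g + 1)) (Fin (2 * g + 1)) κ | B.IsSymm ∧
        cdet G B = C G.det * f₀ ∧ Dist G B}.ncard) (hk f₀ hf)
    have h5 := h4.trans h3
    have h6 : 2 * (k * {B : Matrix (Fin (2 * g + 1)) (Fin (2 * g + 1)) κ | B.IsSymm ∧
        cdet G B = C G.det * f₀ ∧ Dist G B}.ncard) ≤ 2 * ∏ m ∈ Finset.Icc 2 (2 * g + 1),
        (Nat.card κ ^ (m - 1) + 3 * Nat.card κ ^ (m - 2)) := by
      refine le_trans (le_of_eq ?_) h5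
      ring
    exact Nat.le_of_mul_le_mul_left h6 (by norm_num)
  rw [hu]
  have key' : ((k * (⋃ f₀ ∈ T, {B : Matrix (Fin (2 * g + 1)) (Fin (2 * g + 1)) κ | B.IsSymm ∧
        cdet G B = C G.det * f₀ ∧ Dist G B}).ncard : ℕ) : ℝ) ≤ ((T.ncard *
      ∏ m ∈ Finset.Icc 2 (2 * g + 1), (Nat.card κ ^ (m - 1) + 3 * Nat.card κ ^ (m - 2)) : ℕ) : ℝ) :=
    by exact_mod_cast key
  rw [Nat.cast_mul, Nat.cast_mul, lc_prod' hQ g] at key'
  rw [mul_assoc (T.ncard : ℝ)]
  exact key'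

private theorem lc_two_ndvd {κ : Type*} [Field κ] (h2 : (2 : κ) ≠ 0) {p : κ[X]}
    (hp : ¬ IsUnit p) : ¬ p ∣ (2 : κ[X]) := by
  intro h
  refine hp (isUnit_of_dvd_unit h ?_)
  have e : (2 : κ[X]) = C (2 : κ) := (map_ofNat C 2).symm
  rw [e]
  exact (Polynomial.isUnit_C).2 (Ne.isUnit h2)

private theorem lc_card2 {κ : Type*} [Field κ] [Finite κ] (h2 : (2 : κ) ≠ 0) {p : κ[X]}
    (hm : p.Monic) (hp : ¬ IsUnit p) : 2 * 1 ≤ {q : AdjoinRoot p | q ^ 2 = 1}.ncard := by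
  classical
  haveI : Module.Finite κ (AdjoinRoot p) := hm.finite_adjoinRoot
  haveI : Finite (AdjoinRoot p) := Module.finite_of_finite κ
  have hne : (1 : AdjoinRoot p) ≠ -1 := by
    intro h
    have h3 : (AdjoinRoot.mk p (2 : κ[X])) = 0 := by
      rw [map_ofNat]
      linear_combination h
    rw [AdjoinRoot.mk_eq_zero] at h3
    exact lc_two_ndvd h2 hp h3
  have hsub : ((({1, -1} : Finset (AdjoinRoot p)) : Set (AdjoinRoot p))) ⊆
      {q : AdjoinRoot p | q ^ 2 = 1} := by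
    intro q hq
    simp only [Finset.coe_insert, Finset.coe_singleton, Set.mem_insert_iff,
      Set.mem_singleton_iff] at hq
    rcases hq with rfl | rfl
    · exact one_pow 2
    · exact neg_one_sq
  have := Set.ncard_le_ncard hsub (Set.toFinite _)
  rw [Set.ncard_coe_finset, Finset.card_insert_of_notMem (by simpa using hne),
    Finset.card_singleton] at this
  exact this

private theorem lc_card4 {κ : Type*} [Field κ] [Finite κ] (h2 : (2 : κ) ≠ 0) {p q : κ[X]}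
    (hpm : p.Monic) (hqm : q.Monic) (hp : ¬ IsUnit p) (hq : ¬ IsUnit q) (hc : IsCoprime p q) :
    2 * 2 ≤ {a : AdjoinRoot (p * q) | a ^ 2 = 1}.ncard := by
  classical
  haveI : Module.Finite κ (AdjoinRoot (p * q)) := (hpm.mul hqm).finite_adjoinRoot
  haveI : Finite (AdjoinRoot (p * q)) := Module.finite_of_finite κ
  have hpq : ¬ IsUnit (p * q) := fun h => hp (isUnit_of_mul_isUnit_left h)
  obtain ⟨a, b, hab⟩ := hc
  set E : κ[X] := b * q - a * p with hE
  have hE1 : E - 1 = -(2 * a * p) := by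
    rw [hE]
    linear_combination hab
  have hE2 : E + 1 = 2 * b * q := by
    rw [hE]
    linear_combination -hab
  set e : AdjoinRoot (p * q) := AdjoinRoot.mk (p * q) E with he
  have h21 : (1 : AdjoinRoot (p * q)) ≠ -1 := by
    intro h
    have h3 : (AdjoinRoot.mk (p * q) (2 : κ[X])) = 0 := by
      rw [map_ofNat]
      linear_combination h
    rw [AdjoinRoot.mk_eq_zero] at h3
    exact lc_two_ndvd h2 hpq h3
  have he2 : e ^ 2 = 1 := by
    have h3 : AdjoinRoot.mk (p * q) (E ^ 2 - 1) = 0 := by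
      rw [AdjoinRoot.mk_eq_zero]
      refine ⟨-(4 * a * b), ?_⟩
      have : E ^ 2 - 1 = (E - 1) * (E + 1) := by ring
      rw [this, hE1, hE2]
      ring
    rw [map_sub, map_pow, map_one] at h3
    exact sub_eq_zero.1 h3
  have he1 : e ≠ 1 := by
    intro h
    have h3 : AdjoinRoot.mk (p * q) (E - 1) = 0 := by
      rw [map_sub, map_one]
      exact sub_eq_zero.2 h
    rw [AdjoinRoot.mk_eq_zero] at h3
    have h4 : q ∣ E - 1 := (dvd_mul_left q p).trans h3
    have h5 : q ∣ E + 1 := by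
      rw [hE2]
      exact dvd_mul_left q _
    have h6 : q ∣ 2 := by
      have := dvd_sub h5 h4
      have e : E + 1 - (E - 1) = 2 := by ring
      rwa [e] at this
    exact lc_two_ndvd h2 hq h6
  have hem1 : e ≠ -1 := by
    intro h
    have h3 : AdjoinRoot.mk (p * q) (E + 1) = 0 := by
      rw [map_add, map_one]
      rw [← he, h]
      ring
    rw [AdjoinRoot.mk_eq_zero] at h3
    have h4 : p ∣ E + 1 := (dvd_mul_right p q).trans h3
    have h5 : p ∣ E - 1 := by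
      rw [hE1]
      exact (dvd_mul_left p _).neg_right
    have h6 : p ∣ 2 := by
      have := dvd_sub h4 h5
      have e : E + 1 - (E - 1) = 2 := by ring
      rwa [e] at this
    exact lc_two_ndvd h2 hp h6
  have hee : e ≠ -e := by
    intro h
    refine h21 ?_
    have h3 : e * e = -e * e := by rw [← h]
    have h4 : e * e = 1 := by rw [← sq]; exact he2
    linear_combination h3 + (-2) * h4
  have hsub : ((({1, -1, e, -e} : Finset (AdjoinRoot (p * q))) : Set (AdjoinRoot (p * q)))) ⊆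
      {q : AdjoinRoot (p * q) | q ^ 2 = 1} := by
    intro c hc
    simp only [Finset.coe_insert, Finset.coe_singleton, Set.mem_insert_iff,
      Set.mem_singleton_iff] at hc
    rcases hc with rfl | rfl | rfl | rfl
    · exact one_pow 2
    · exact neg_one_sq
    · exact he2
    · show (-e) ^ 2 = 1
      rw [neg_sq]
      exact he2
  have hcard : ({1, -1, e, -e} : Finset (AdjoinRoot (p * q))).card = 4 := by
    rw [Finset.card_insert_of_notMem, Finset.card_insert_of_notMem,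
      Finset.card_insert_of_notMem, Finset.card_singleton]
    · simpa using hee
    · simp only [Finset.mem_insert, Finset.mem_singleton, not_or]
      exact ⟨fun h => hem1 h.symm, fun h => he1 (neg_injective h).symm⟩
    · simp only [Finset.mem_insert, Finset.mem_singleton, not_or]
      exact ⟨h21, fun h => he1 h.symm, fun h => hem1 (by rw [h, neg_neg])⟩
  have := Set.ncard_le_ncard hsub (Set.toFinite _)
  rw [Set.ncard_coe_finset, hcard] at this
  exact this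

theorem local_TS {κ : Type*} [Field κ] [Finite κ] (h2 : (2 : κ) ≠ 0) {g : ℕ} (hg : 1 ≤ g)
    {G : Matrix (Fin (2 * g + 1)) (Fin (2 * g + 1)) κ} (hs : G.IsSymm) (hG : IsUnit G.det) :
    2 * ({B | B.IsSymm ∧ LocP (TS κ g) G B}.ncard : ℝ) ≤
      (TS κ g).ncard * (Nat.card κ : ℝ) ^ (g * (2 * g + 1)) *
        (1 + 3 / (Nat.card κ : ℝ)) ^ (2 * g) := by
  have h := lc_sub (k := 2) h2 hs hG (T := TS κ g) ?_ ?_
  · exact_mod_cast h
  · rintro p ⟨r, h, hm, hd, hi, rfl⟩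
    refine ⟨(monic_X_sub_C r).mul hm, ?_⟩
    rw [(monic_X_sub_C r).natDegree_mul hm, natDegree_X_sub_C, hd, add_comm]
  · rintro p ⟨r, h, hm, hd, hi, rfl⟩
    refine lc_card4 h2 (monic_X_sub_C r) hm (irreducible_X_sub_C r).not_isUnit hi.not_isUnit ?_
    rw [(irreducible_X_sub_C r).coprime_iff_not_dvd]
    intro hdvd
    have h3 := (Irreducible.dvd_irreducible_iff_associated (irreducible_X_sub_C r) hi).1 hdvd
    have h4 := Polynomial.degree_eq_degree_of_associated h3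
    rw [degree_X_sub_C, Polynomial.degree_eq_natDegree hm.ne_zero, hd] at h4
    have h5 : 1 = 2 * g := by exact_mod_cast h4
    omega

theorem local_TI {κ : Type*} [Field κ] [Finite κ] (h2 : (2 : κ) ≠ 0) {g : ℕ} (hg : 1 ≤ g)
    {G : Matrix (Fin (2 * g + 1)) (Fin (2 * g + 1)) κ} (hs : G.IsSymm) (hG : IsUnit G.det) :
    ({B | B.IsSymm ∧ LocP (TI κ g) G B}.ncard : ℝ) ≤
      (TI κ g).ncard * (Nat.card κ : ℝ) ^ (g * (2 * g + 1)) *
        (1 + 3 / (Nat.card κ : ℝ)) ^ (2 * g) := by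
  have h := lc_sub (k := 1) h2 hs hG (T := TI κ g) ?_ ?_
  · rw [Nat.cast_one, one_mul] at h
    exact h
  · rintro p ⟨hm, hd, hi⟩
    exact ⟨hm, hd⟩
  · rintro p ⟨hm, hd, hi⟩
    exact lc_card2 h2 hm hi.not_isUnit

end Pool.Agent.Helper96.PS
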