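import Pool.Agent.Helper96.PS.DgMul

/-!
# PS-B1: the unipotent group acts freely

`#SSet · #U_d ≤ #QSet`. For `f ∈ SSet` choose a pair `p_f = (G, B) ∈ PSet d` with `cdet G B = C (det G) f`, distinguished at all places. Map `SSet × U_d → QSet`, `(f, u) ↦ (uᵀ G u, uᵀ B u)`.
* Image in `QSet`: symmetric; `det u = 1` (upper unitriangular), `det` unchanged; degrees: `(uᵀGu)_{ij} = ∑_{k ≤ i, l ≤ j} u_{ki} G_{kl} u_{lj}`, degree `≤ (d_k - d_i) + (-d_k - d_l) + (d_l - d_j)` (`d` antitone; diagonal entries `1`), same for `B`. `cdet (uᵀGu) (uᵀBu) = cdet G B`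
  (`= det(uᵀ (XG - B) u)`). Modulo `π`: `cdet` and `det` commute with the reduction (`RingHom.map_det`), `f mod π ∈ TS` resp. `TI` by `LocOK`. `Dist`: if `v` works for `(G, B)` then `u⁻¹ v` works for `(uᵀGu, uᵀBu)` (`(uᵀGu)⁻¹ (uᵀBu) = u⁻¹ (G⁻¹B) u`, `det G` a unit).
* Injective: from the pair `(G', B')` we get `C (det G') f = cdet G' B'`, so `f` (`det G'` is a unit). Then `uᵀGu = u'ᵀGu'`, `uᵀBu = u'ᵀBu'`; `v = u' u⁻¹` is upper unitriangular with `vᵀGv = G`, `vᵀBv = B`, so `v⁻¹ T v = T`, `T = G⁻¹B` with characteristic polynomial `f` (`XG - B = G(X - T)`), irreducible over `K = RatFunc F`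
  (`irreducible_fK`; `f ∈ BoxW`, `w` irreducible). Over `K`: `ker (v - 1) ≠ 0` (`v - 1` is strictly upper triangular, nilpotent) is `T`-stable; a nonzero `T`-stable subspace of `K^N` is everything as the characteristic polynomial of `T` is irreducible of degree `N` (for `0 ≠ y`: `y, Ty, …, T^{N-1}y` are independent: the annihilator of `y` in `K[X]` is generated by a divisor of `f`, not `1`). So `v = 1`.
`QSet` is finite (bounded degrees over a finite field), `SSet` is finite (`BoxW` is).
-/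

namespace Pool.Agent.Helper96.PS

open Polynomial

variable {F : Type*} [Field F] {g n : ℕ} {w : F[X]}

/-! ### Congruence of pencils -/

private theorem ob_cdet {A : Type*} [CommRing A] {N : ℕ} (G B u : Matrix (Fin N) (Fin N) A)
    (hu : u.det = 1) : cdet (u.transpose * G * u) (u.transpose * B * u) = cdet G B := by
  unfold cdet
  have h1 : (X : A[X]) • (u.transpose * G * u).map C - (u.transpose * B * u).map C =
      (u.map C).transpose * ((X : A[X]) • G.map C - B.map C) * u.map C := by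
    rw [Matrix.map_mul, Matrix.map_mul, Matrix.map_mul, Matrix.map_mul, Matrix.transpose_map,
      Matrix.mul_sub, Matrix.sub_mul, Matrix.mul_smul, Matrix.smul_mul]
  have h2 : (u.map C).det = 1 := by
    have h3 := (C : A →+* A[X]).map_det u
    rw [hu, map_one] at h3
    exact h3.symm
  rw [h1, Matrix.det_mul, Matrix.det_mul, Matrix.det_transpose, h2, one_mul, mul_one]

private theorem ob_cdet_map {A κ : Type*} [CommRing A] [CommRing κ] (ρ : A →+* κ) {N : ℕ}
    (G B : Matrix (Fin N) (Fin N) A) : cdet (G.map ρ) (B.map ρ) = (cdet G B).map ρ := by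
  unfold cdet
  have h1 := (Polynomial.mapRingHom ρ).map_det ((X : A[X]) • G.map C - B.map C)
  rw [Polynomial.coe_mapRingHom] at h1
  rw [h1]
  congr 1
  ext i j
  simp

private theorem ob_dist {κ : Type*} [CommRing κ] {N : ℕ} {G B u : Matrix (Fin N) (Fin N) κ}
    (hu : u.det = 1) (h : Dist G B) :
    Dist (u.transpose * G * u) (u.transpose * B * u) := by
  have hud : IsUnit u.det := by rw [hu]; exact isUnit_one
  have hutd : IsUnit u.transpose.det := by rw [Matrix.det_transpose]; exact hud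
  obtain ⟨w, hw⟩ := h
  refine ⟨u⁻¹.mulVec w, fun i hi => ?_⟩
  have h1 : (u.transpose * G * u)⁻¹ * (u.transpose * B * u) = u⁻¹ * (G⁻¹ * B) * u := by
    rw [Matrix.mul_inv_rev, Matrix.mul_inv_rev]
    have : u⁻¹ * (G⁻¹ * u.transpose⁻¹) * (u.transpose * B * u) =
        u⁻¹ * G⁻¹ * (u.transpose⁻¹ * u.transpose) * B * u := by
      simp only [Matrix.mul_assoc]
    rw [this, Matrix.nonsing_inv_mul _ hutd, Matrix.mul_one]
    simp only [Matrix.mul_assoc]
  have h2 : ∀ i : ℕ, (u⁻¹ * (G⁻¹ * B) * u) ^ i = u⁻¹ * (G⁻¹ * B) ^ i * u := by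
    intro i
    induction i with
    | zero => rw [pow_zero, pow_zero, Matrix.mul_one, Matrix.nonsing_inv_mul _ hud]
    | succ i ih =>
      rw [pow_succ, ih, pow_succ]
      have : u⁻¹ * (G⁻¹ * B) ^ i * u * (u⁻¹ * (G⁻¹ * B) * u) =
          u⁻¹ * (G⁻¹ * B) ^ i * (u * u⁻¹) * (G⁻¹ * B) * u := by
        simp only [Matrix.mul_assoc]
      rw [this, Matrix.mul_nonsing_inv _ hud, Matrix.mul_one]
      simp only [Matrix.mul_assoc]
  have h3 : u.transpose * G * u * (u⁻¹ * (G⁻¹ * B) ^ i * u) =
      u.transpose * (G * (G⁻¹ * B) ^ i) * u := by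
    have : u.transpose * G * u * (u⁻¹ * (G⁻¹ * B) ^ i * u) =
        u.transpose * G * (u * u⁻¹) * (G⁻¹ * B) ^ i * u := by
      simp only [Matrix.mul_assoc]
    rw [this, Matrix.mul_nonsing_inv _ hud, Matrix.mul_one]
    simp only [Matrix.mul_assoc]
  have h4 : u.mulVec (u⁻¹.mulVec w) = w := by
    rw [Matrix.mulVec_mulVec, Matrix.mul_nonsing_inv _ hud, Matrix.one_mulVec]
  rw [h1, h2, h3, ← Matrix.mulVec_mulVec, h4, ← Matrix.mulVec_mulVec,
    Matrix.dotProduct_mulVec, Matrix.vecMul_transpose, h4]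
  exact hw i hi

/-! ### Degrees -/

private theorem ob_add {a b : F[X]} {x : ℤ} (ha : a ≠ 0 → (a.natDegree : ℤ) ≤ x)
    (hb : b ≠ 0 → (b.natDegree : ℤ) ≤ x) : a + b ≠ 0 → ((a + b).natDegree : ℤ) ≤ x := by
  intro h
  by_cases ha0 : a = 0
  · subst ha0
    rw [zero_add] at h ⊢
    exact hb h
  by_cases hb0 : b = 0
  · subst hb0
    rw [add_zero] at h ⊢
    exact ha h
  have h1 := natDegree_add_le a b
  have h2 := ha ha0
  have h3 := hb hb0
  omega

private theorem ob_sum {ι : Type*} (s : Finset ι) {a : ι → F[X]} {x : ℤ}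
    (ha : ∀ i ∈ s, a i ≠ 0 → ((a i).natDegree : ℤ) ≤ x) :
    ∑ i ∈ s, a i ≠ 0 → ((∑ i ∈ s, a i).natDegree : ℤ) ≤ x := by
  classical
  induction s using Finset.induction_on with
  | empty =>
    intro h
    exact absurd Finset.sum_empty h
  | insert i s hi ih =>
    rw [Finset.sum_insert hi]
    exact ob_add (ha i (Finset.mem_insert_self i s))
      (ih fun j hj => ha j (Finset.mem_insert_of_mem hj))

private theorem ob_mul {a b : F[X]} {x y : ℤ} (ha : a ≠ 0 → (a.natDegree : ℤ) ≤ x)
    (hb : b ≠ 0 → (b.natDegree : ℤ) ≤ y) : a * b ≠ 0 → ((a * b).natDegree : ℤ) ≤ x + y := by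
  intro h
  have h1 := ha (left_ne_zero_of_mul h)
  have h2 := hb (right_ne_zero_of_mul h)
  have h3 := natDegree_mul_le (p := a) (q := b)
  omega

private theorem ob_udeg {N : ℕ} {d : Fin N → ℤ} {u : Matrix (Fin N) (Fin N) F[X]}
    (hu : u ∈ Ud F d) (k i : Fin N) : u k i ≠ 0 → ((u k i).natDegree : ℤ) ≤ d k - d i := by
  intro h
  rcases lt_trichotomy k i with hk | rfl | hk
  · exact hu.2.2 k i hk h
  · rw [hu.1 k, natDegree_one]
    simp
  · exact absurd (hu.2.1 k i hk) h

private theorem ob_deg {N : ℕ} {d : Fin N → ℤ} {u G : Matrix (Fin N) (Fin N) F[X]}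
    (hu : u ∈ Ud F d) {t : ℤ} (hG : ∀ i j, G i j ≠ 0 → ((G i j).natDegree : ℤ) ≤ t - d i - d j)
    (i j : Fin N) : (u.transpose * G * u) i j ≠ 0 →
      (((u.transpose * G * u) i j).natDegree : ℤ) ≤ t - d i - d j := by
  rw [Matrix.mul_apply]
  refine ob_sum _ fun l _ => ?_
  rw [Matrix.mul_apply, Finset.sum_mul]
  refine ob_sum _ fun k _ => ?_
  have h1 := ob_mul (ob_mul (ob_udeg hu k i) (hG k l)) (ob_udeg hu l j)
  have e : d k - d i + (t - d k - d l) + (d l - d j) = t - d i - d j := by ring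
  rw [e] at h1
  exact h1

private theorem ob_udet {N : ℕ} {d : Fin N → ℤ} {u : Matrix (Fin N) (Fin N) F[X]}
    (hu : u ∈ Ud F d) : u.det = 1 := by
  rw [Matrix.det_of_isUpperTriangular]
  · exact Finset.prod_eq_one fun i _ => hu.1 i
  · intro i j hij
    exact hu.2.1 i j hij

/-! ### The commutant -/

private theorem ob_comm {K : Type*} [Field K] {N : ℕ} (T v : Matrix (Fin N) (Fin N) K)
    (hT : Irreducible T.charpoly) (hc : v * T = T * v) {y : Fin N → K} (hy : y ≠ 0)
    (hvy : v.mulVec y = y) : v = 1 := by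
  classical
  have hpow : ∀ P : K[X], v * aeval T P = aeval T P * v := by
    intro P
    induction P using Polynomial.induction_on' with
    | add p q hp hq => rw [map_add, mul_add, add_mul, hp, hq]
    | monomial n a =>
      have hcomm : Commute v (T ^ n) := (show Commute v T from hc).pow_right n
      rw [aeval_monomial, ← Algebra.smul_def, mul_smul_comm, smul_mul_assoc, hcomm.eq]
  -- the cyclic vector
  let φ : Polynomial.degreeLT K N →ₗ[K] (Fin N → K) :=
    { toFun := fun P => (aeval T (P : K[X])).mulVec y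
      map_add' := by
        intro P Q
        rw [Submodule.coe_add, map_add, Matrix.add_mulVec]
      map_smul' := by
        intro c P
        rw [Submodule.coe_smul, map_smul, Matrix.smul_mulVec, RingHom.id_apply] }
  have hinj : Function.Injective φ := by
    rw [← LinearMap.ker_eq_bot, LinearMap.ker_eq_bot']
    intro P hP
    by_contra hP0
    have hP1 : (P : K[X]) ≠ 0 := fun h => hP0 (Subtype.ext h)
    have hdeg : (P : K[X]).degree < T.charpoly.degree := by
      have h1 := Polynomial.mem_degreeLT.1 P.2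
      rw [Matrix.charpoly_degree_eq_dim, Fintype.card_fin]
      exact h1
    have hnd : ¬ T.charpoly ∣ (P : K[X]) := fun h =>
      absurd (Polynomial.degree_le_of_dvd h hP1) (not_le.2 hdeg)
    obtain ⟨a, b, hab⟩ := (hT.coprime_iff_not_dvd).2 hnd
    have h2 : (aeval T (a * T.charpoly + b * (P : K[X]))).mulVec y = y := by
      rw [hab, map_one, Matrix.one_mulVec]
    apply hy
    rw [← h2, map_add, map_mul, map_mul, Matrix.aeval_self_charpoly, mul_zero, zero_add,
      ← Matrix.mulVec_mulVec]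
    have h3 : (aeval T (P : K[X])).mulVec y = 0 := hP
    rw [h3, Matrix.mulVec_zero]
  have hfr : Module.finrank K (Polynomial.degreeLT K N) = Module.finrank K (Fin N → K) := by
    rw [(Polynomial.degreeLTEquiv K N).finrank_eq]
  have : FiniteDimensional K (Polynomial.degreeLT K N) :=
    (Polynomial.degreeLTEquiv K N).symm.finiteDimensional
  have hsurj : Function.Surjective φ :=
    (LinearMap.injective_iff_surjective_of_finrank_eq_finrank hfr).1 hinj
  apply Matrix.ext_of_mulVec_single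
  intro j
  obtain ⟨P, hP⟩ := hsurj (Pi.single j 1)
  have h4 : (aeval T (P : K[X])).mulVec y = Pi.single j 1 := hP
  rw [← h4, Matrix.mulVec_mulVec, hpow, ← Matrix.mulVec_mulVec, hvy, Matrix.one_mulVec]

private theorem ob_charpoly {A : Type*} [CommRing A] {N : ℕ} {G B : Matrix (Fin N) (Fin N) A}
    (hG : IsUnit G.det) {f : A[X]} (h : cdet G B = C G.det * f) : (G⁻¹ * B).charpoly = f := by
  have h1 : (X : A[X]) • G.map C - B.map C = G.map C * (G⁻¹ * B).charmatrix := by
    unfold Matrix.charmatrix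
    have e : B = G * (G⁻¹ * B) := by
      rw [← Matrix.mul_assoc, Matrix.mul_nonsing_inv _ hG, Matrix.one_mul]
    conv_lhs => rw [e, Matrix.map_mul]
    rw [Matrix.mul_sub]
    congr 1
    rw [Matrix.scalar_apply, ← Matrix.smul_one_eq_diagonal, Matrix.mul_smul, Matrix.mul_one]
  have h2 : (G.map C).det = C G.det := ((C : A →+* A[X]).map_det G).symm
  unfold cdet at h
  rw [h1, Matrix.det_mul, h2] at h
  have hu : IsUnit (C G.det : A[X]) := hG.map C
  exact hu.mul_left_cancel h

/-! ### Finiteness -/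

private theorem ob_fin [Finite F] (N K : ℕ) :
    {G : Matrix (Fin N) (Fin N) F[X] | ∀ i j, (G i j).natDegree ≤ K}.Finite := by
  have h1 : {A : F[X] | A.natDegree ≤ K}.Finite := by
    refine Set.Finite.of_finite_image (f := fun A : F[X] => fun i : Fin (K + 1) => A.coeff i)
      (Set.toFinite _) ?_
    intro A hA B hB h
    have hA' : A.natDegree ≤ K := hA
    have hB' : B.natDegree ≤ K := hB
    ext i
    by_cases hi : i ≤ K
    · exact congrFun h ⟨i, by omega⟩
    · rw [coeff_eq_zero_of_natDegree_lt (lt_of_le_of_lt hA' (by omega)),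
        coeff_eq_zero_of_natDegree_lt (lt_of_le_of_lt hB' (by omega))]
  have h2 : (Set.pi Set.univ fun _ : Fin N => Set.pi Set.univ fun _ : Fin N =>
      {A : F[X] | A.natDegree ≤ K}).Finite :=
    Set.Finite.pi fun _ => Set.Finite.pi fun _ => h1
  refine h2.subset ?_
  intro G hG
  simp only [Set.mem_pi, Set.mem_univ, true_imp_iff]
  exact hG

private theorem ob_finQ [Finite F] {g n : ℕ} {k : ℕ} (π π' : Fin k → F[X])
    (d : Fin (2 * g + 1) → ℤ) : (QSet g n π π' d).Finite := by
  obtain ⟨K, hK⟩ : ∃ K : ℕ, ∀ i j, (n : ℤ) - d i - d j ≤ K := by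
    refine ⟨∑ i, ∑ j, ((n : ℤ) - d i - d j).toNat, fun i j => ?_⟩
    have h1 : ((n : ℤ) - d i - d j).toNat ≤ ∑ j, ((n : ℤ) - d i - d j).toNat :=
      Finset.single_le_sum (f := fun j => ((n : ℤ) - d i - d j).toNat)
        (fun _ _ => Nat.zero_le _) (Finset.mem_univ j)
    have h2 : ∑ j, ((n : ℤ) - d i - d j).toNat ≤ ∑ i, ∑ j, ((n : ℤ) - d i - d j).toNat :=
      Finset.single_le_sum (f := fun i => ∑ j, ((n : ℤ) - d i - d j).toNat)
        (fun _ _ => Nat.zero_le _) (Finset.mem_univ i)
    omega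
  refine ((ob_fin (F := F) (2 * g + 1) K).prod (ob_fin (F := F) (2 * g + 1) K)).subset ?_
  intro p hp
  obtain ⟨⟨-, -, -, h1, h2⟩, -, -⟩ := hp
  refine ⟨fun i j => ?_, fun i j => ?_⟩
  · by_cases h0 : p.1 i j = 0
    · rw [h0, natDegree_zero]
      exact Nat.zero_le _
    · have h3 := h1 i j h0
      have h4 := hK i j
      omega
  · by_cases h0 : p.2 i j = 0
    · rw [h0, natDegree_zero]
      exact Nat.zero_le _
    · have h3 := h2 i j h0
      have h4 := hK i j
      omega

/-! ### The image -/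

private theorem ob_loc {κ : Type*} [CommRing κ] {N : ℕ} (ρ : F[X] →+* κ)
    {G B u : Matrix (Fin N) (Fin N) F[X]} (hu : u.det = 1) {f : F[X][X]}
    (h : cdet G B = C G.det * f) (hD : Dist (G.map ρ) (B.map ρ)) {T : Set κ[X]}
    (hT : f.map ρ ∈ T) :
    LocP T ((u.transpose * G * u).map ρ) ((u.transpose * B * u).map ρ) := by
  have hur : (u.map ρ).det = 1 := by
    have h3 := ρ.map_det u
    rw [hu, map_one] at h3
    exact h3.symm
  have e1 : ∀ H : Matrix (Fin N) (Fin N) F[X], (u.transpose * H * u).map ρ =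
      (u.map ρ).transpose * H.map ρ * u.map ρ := by
    intro H
    rw [Matrix.map_mul, Matrix.map_mul, Matrix.transpose_map]
  refine ⟨?_, f.map ρ, hT, ?_⟩
  · rw [e1, e1]
    exact ob_dist hur hD
  · rw [ob_cdet_map, ob_cdet _ _ _ hu, h, Polynomial.map_mul, Polynomial.map_C]
    congr 2
    have h4 := ρ.map_det (u.transpose * G * u)
    rw [Matrix.det_mul, Matrix.det_mul, Matrix.det_transpose, hu, one_mul, mul_one] at h4
    exact h4

theorem orbit_bound [Finite F] (hg : 1 ≤ g) (hw : w.Monic) (hwd : w.natDegree = 2 * g + 1)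
    (hwi : Irreducible w) {k : ℕ} (π π' : Fin k → F[X]) {d : Fin (2 * g + 1) → ℤ}
    (hd : Antitone d) :
    (SSet w g n π π' d).ncard * (Ud F d).ncard ≤ (QSet g n π π' d).ncard := by
  classical
  have hch : ∀ f : F[X][X], ∃ p : Matrix (Fin (2 * g + 1)) (Fin (2 * g + 1)) F[X] ×
      Matrix (Fin (2 * g + 1)) (Fin (2 * g + 1)) F[X], f ∈ SSet w g n π π' d →
      (p ∈ PSet F g n d ∧ cdet p.1 p.2 = C p.1.det * f ∧
        (∀ i, Dist (p.1.map (AdjoinRoot.mk (π i))) (p.2.map (AdjoinRoot.mk (π i)))) ∧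
        ∀ i, Dist (p.1.map (AdjoinRoot.mk (π' i))) (p.2.map (AdjoinRoot.mk (π' i)))) := by
    intro f
    by_cases hf : f ∈ SSet w g n π π' d
    · obtain ⟨p, hp⟩ := hf.2.2
      exact ⟨p, fun _ => hp⟩
    · exact ⟨0, fun h => absurd h hf⟩
  choose p hp using hch
  set Φ : F[X][X] × Matrix (Fin (2 * g + 1)) (Fin (2 * g + 1)) F[X] →
      Matrix (Fin (2 * g + 1)) (Fin (2 * g + 1)) F[X] ×
      Matrix (Fin (2 * g + 1)) (Fin (2 * g + 1)) F[X] := fun x =>
    (x.2.transpose * (p x.1).1 * x.2, x.2.transpose * (p x.1).2 * x.2) with hΦ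
  rw [← Set.ncard_prod]
  refine Set.ncard_le_ncard_of_injOn Φ ?_ ?_ (ob_finQ π π' d)
  · rintro ⟨f, u⟩ ⟨hf, hu⟩
    simp only at hf hu
    obtain ⟨hPS, hcd, hD1, hD2⟩ := hp f hf
    have hud := ob_udet hu
    obtain ⟨s1, s2, s3, s4, s5⟩ := hPS
    refine ⟨⟨?_, ?_, ?_, ?_, ?_⟩, fun i => ?_, fun i => ?_⟩
    · change (u.transpose * (p f).1 * u).transpose = u.transpose * (p f).1 * u
      rw [Matrix.transpose_mul, Matrix.transpose_mul, Matrix.transpose_transpose, s1.eq,
        Matrix.mul_assoc]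
    · change (u.transpose * (p f).2 * u).transpose = u.transpose * (p f).2 * u
      rw [Matrix.transpose_mul, Matrix.transpose_mul, Matrix.transpose_transpose, s2.eq,
        Matrix.mul_assoc]
    · change IsUnit (u.transpose * (p f).1 * u).det
      rw [Matrix.det_mul, Matrix.det_mul, Matrix.det_transpose, hud, one_mul, mul_one]
      exact s3
    · intro i j
      have h1 := ob_deg hu (t := 0) (G := (p f).1) (fun i j h => by
        have := s4 i j h
        omega) i j
      intro h2
      have h3 := h1 h2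
      change (((u.transpose * (p f).1 * u) i j).natDegree : ℤ) ≤ -d i - d j
      omega
    · intro i j
      exact ob_deg hu (t := (n : ℤ)) (G := (p f).2) s5 i j
    · exact ob_loc (AdjoinRoot.mk (π i)) hud hcd (hD1 i) (hf.2.1.1 i)
    · exact ob_loc (AdjoinRoot.mk (π' i)) hud hcd (hD2 i) (hf.2.1.2 i)
  · rintro ⟨f, u⟩ ⟨hf, hu⟩ ⟨f', u'⟩ ⟨hf', hu'⟩ h
    simp only at hf hu hf' hu'
    have h1 : u.transpose * (p f).1 * u = u'.transpose * (p f').1 * u' := congrArg Prod.fst h
    have h2 : u.transpose * (p f).2 * u = u'.transpose * (p f').2 * u' := congrArg Prod.snd h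
    have hud := ob_udet hu
    have hud' := ob_udet hu'
    obtain ⟨hPS, hcd, -, -⟩ := hp f hf
    obtain ⟨hPS', hcd', -, -⟩ := hp f' hf'
    have hff : f = f' := by
      have c1 := ob_cdet (p f).1 (p f).2 u hud
      have c2 := ob_cdet (p f').1 (p f').2 u' hud'
      rw [h1, h2, c2, hcd, hcd'] at c1
      have e : (p f).1.det = (p f').1.det := by
        have e1 := congrArg Matrix.det h1
        rw [Matrix.det_mul, Matrix.det_mul, Matrix.det_transpose, Matrix.det_mul, Matrix.det_mul,
          Matrix.det_transpose, hud, hud', one_mul, mul_one, one_mul, mul_one] at e1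
        exact e1
      rw [e] at c1
      have hunit : IsUnit (C (p f').1.det : F[X][X]) := hPS'.2.2.1.map C
      exact (hunit.mul_left_cancel c1).symm
    subst hff
    have hG := hPS.2.2.1
    have hUu : IsUnit u.det := by rw [hud]; exact isUnit_one
    have hUu' : IsUnit u'.det := by rw [hud']; exact isUnit_one
    have hUt : IsUnit u.transpose.det := by rw [Matrix.det_transpose]; exact hUu
    have hUt' : IsUnit u'.transpose.det := by rw [Matrix.det_transpose]; exact hUu'
    set G := (p f).1 with hGdef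
    set B := (p f).2 with hBdef
    -- the commutation
    have k1 : (u.transpose * G * u)⁻¹ * (u.transpose * B * u) = u⁻¹ * (G⁻¹ * B) * u := by
      rw [Matrix.mul_inv_rev, Matrix.mul_inv_rev]
      have : u⁻¹ * (G⁻¹ * u.transpose⁻¹) * (u.transpose * B * u) =
          u⁻¹ * G⁻¹ * (u.transpose⁻¹ * u.transpose) * B * u := by
        simp only [Matrix.mul_assoc]
      rw [this, Matrix.nonsing_inv_mul _ hUt, Matrix.mul_one]
      simp only [Matrix.mul_assoc]
    have k2 : (u'.transpose * G * u')⁻¹ * (u'.transpose * B * u') = u'⁻¹ * (G⁻¹ * B) * u' := by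
      rw [Matrix.mul_inv_rev, Matrix.mul_inv_rev]
      have : u'⁻¹ * (G⁻¹ * u'.transpose⁻¹) * (u'.transpose * B * u') =
          u'⁻¹ * G⁻¹ * (u'.transpose⁻¹ * u'.transpose) * B * u' := by
        simp only [Matrix.mul_assoc]
      rw [this, Matrix.nonsing_inv_mul _ hUt', Matrix.mul_one]
      simp only [Matrix.mul_assoc]
    have k3 : u⁻¹ * (G⁻¹ * B) * u = u'⁻¹ * (G⁻¹ * B) * u' := by
      rw [← k1, ← k2, h1, h2]
    have k4 : u' * u⁻¹ * (G⁻¹ * B) = (G⁻¹ * B) * (u' * u⁻¹) := by
      calc u' * u⁻¹ * (G⁻¹ * B) = u' * (u⁻¹ * (G⁻¹ * B) * u) * u⁻¹ := by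
            have : u' * (u⁻¹ * (G⁻¹ * B) * u) * u⁻¹ = u' * u⁻¹ * (G⁻¹ * B) * (u * u⁻¹) := by
              simp only [Matrix.mul_assoc]
            rw [this, Matrix.mul_nonsing_inv _ hUu, Matrix.mul_one]
        _ = u' * (u'⁻¹ * (G⁻¹ * B) * u') * u⁻¹ := by rw [k3]
        _ = (G⁻¹ * B) * (u' * u⁻¹) := by
            have : u' * (u'⁻¹ * (G⁻¹ * B) * u') * u⁻¹ =
                (u' * u'⁻¹) * ((G⁻¹ * B) * (u' * u⁻¹)) := by
              simp only [Matrix.mul_assoc]
            rw [this, Matrix.mul_nonsing_inv _ hUu', Matrix.one_mul]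
    have hchar : (G⁻¹ * B).charpoly = f := ob_charpoly hG hcd
    have hpre : Pre g n w f := ⟨hg, hf.1, hw, hwd, hwi⟩
    have hirr := irreducible_fK hpre
    have hcharK : ((G⁻¹ * B).map (algebraMap F[X] (RatFunc F))).charpoly = fK f := by
      rw [Matrix.charpoly_map, hchar]
    have hcol : ∀ {v : Matrix (Fin (2 * g + 1)) (Fin (2 * g + 1)) F[X]}, v ∈ Ud F d →
        v.mulVec (Pi.single 0 1) = Pi.single 0 1 := by
      intro v hv
      rw [Matrix.mulVec_single_one]
      ext1 i
      change v i 0 = _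
      rcases eq_or_ne i 0 with rfl | hi
      · rw [hv.1, Pi.single_eq_same]
      · rw [hv.2.1 i 0 (Fin.pos_of_ne_zero hi), Pi.single_eq_of_ne hi]
    have hv0 : (u' * u⁻¹).mulVec (Pi.single 0 1) = Pi.single 0 1 := by
      have e1 : u⁻¹.mulVec (Pi.single 0 1) = Pi.single 0 1 := by
        conv_lhs => rw [← hcol hu]
        rw [Matrix.mulVec_mulVec, Matrix.nonsing_inv_mul _ hUu, Matrix.one_mulVec]
      rw [← Matrix.mulVec_mulVec, e1, hcol hu']
    have hinjK : Function.Injective (algebraMap F[X] (RatFunc F)) :=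
      IsFractionRing.injective F[X] (RatFunc F)
    have hvK : (u' * u⁻¹).map (algebraMap F[X] (RatFunc F)) = 1 := by
      refine ob_comm ((G⁻¹ * B).map (algebraMap F[X] (RatFunc F))) _ ?_ ?_
        (y := Pi.single 0 1) ?_ ?_
      · rw [hcharK]
        exact hirr
      · rw [← Matrix.map_mul, ← Matrix.map_mul, k4]
      · intro h0
        have := congrFun h0 0
        rw [Pi.single_eq_same] at this
        exact one_ne_zero this
      · have e2 := congrArg (fun x : Fin (2 * g + 1) → F[X] =>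
          (algebraMap F[X] (RatFunc F)) ∘ x) hv0
        have e3 : (algebraMap F[X] (RatFunc F)) ∘ (Pi.single 0 1 : Fin (2 * g + 1) → F[X]) =
            Pi.single 0 1 := by
          ext1 i
          rcases eq_or_ne i 0 with rfl | hi
          · simp
          · simp [hi]
        have e4 : (algebraMap F[X] (RatFunc F)) ∘ ((u' * u⁻¹).mulVec (Pi.single 0 1)) =
            ((u' * u⁻¹).map (algebraMap F[X] (RatFunc F))).mulVec
              ((algebraMap F[X] (RatFunc F)) ∘ (Pi.single 0 1 : Fin (2 * g + 1) → F[X])) := by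
          ext1 i
          exact RingHom.map_mulVec _ _ _ i
        simp only at e2
        rw [e4, e3] at e2
        exact e2
    have hv : u' * u⁻¹ = 1 := by
      have e5 : (1 : Matrix (Fin (2 * g + 1)) (Fin (2 * g + 1)) F[X]).map
          (algebraMap F[X] (RatFunc F)) = 1 := Matrix.map_one _ (map_zero _) (map_one _)
      rw [← e5] at hvK
      exact Matrix.map_injective hinjK hvK
    have huu : u' = u := by
      calc u' = u' * (u⁻¹ * u) := by rw [Matrix.nonsing_inv_mul _ hUu, Matrix.mul_one]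
        _ = u' * u⁻¹ * u := by rw [Matrix.mul_assoc]
        _ = u := by rw [hv, Matrix.one_mul]
    rw [huu]

end Pool.Agent.Helper96.PS
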