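import Pool.Agent.Helper96.PS.Defs

/-!
# PS-B5a: the exponent of the number of pencils of type `d`

`N = 2g+1`, `d` of type `TypeOK g n`. CLAIM `g (eG + eB - eU - n (g+1)(2g+1)) ≤ g (2g+1)(g+2) - d_0`. (Checked by computer for `g ≤ 4`, small `n`.)

Proof. `a_i = d_i` for `0 ≤ i < g` (all `≥ 0`), `d_g = 0`, `d_{rev i} = - d_i`. `(1 - s)⁺ ≤ 1 + (-s)⁺`, `(n+1-s)⁺ = n + 1 - s + (s - n - 1)⁺ ≤ n + 1 - s + (s - n)⁺`. `∑_{i ≤ j} 1 = N(N+1)/2 = (g+1)(2g+1)`, `∑_{i ≤ j}(d_i + d_j) = (N+1)∑ d_i = 0`. By the symmetry `d ↦ -d`: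
`∑_{i≤j} (-(d_i+d_j))⁺ = ∑_{i ≤ j} (d_i + d_j)⁺`. So `eG + eB - eU - n(g+1)(2g+1) ≤ 2(g+1)(2g+1) - N(N-1)/2 + ∑_{i≤j}[(d_i+d_j)⁺ + (d_i+d_j-n)⁺] - ∑_{i<j}(d_i - d_j)`, and `2 (g+1)(2g+1) - g(2g+1) = (g+2)(2g+1)`.
With sums over `0 ≤ i, j < g`: `∑_{i≤j}(d_i+d_j)⁺ = (g+1) ∑ a_i + ∑ a_i + ∑_{i<j}(a_i - a_j)` (pairs `(a,a)`, `(a,0)`, `(a_i, -a_j)`), `∑_{i<j}(d_i - d_j) = 2∑_{i<j}(a_i - a_j) + 2∑ a_i + 2g ∑ a_i`; the difference is `-∑ a_i - ∑_{i<j}[(a_i+a_j) + (a_i-a_j)]`.
`∑_{i ≤ j}(d_i+d_j-n)⁺ = ∑_i (2a_i - n)⁺ + ∑_{i<j} (a_i+a_j-n)⁺ + ∑_i (a_i - n)⁺ + ∑_{i<j}(a_i-a_j-n)⁺`. With `x - (x-n)⁺ = min(x, n)`: total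
`≤ ∑_i [(2a_i-n)⁺ - min(a_i,n)] - ∑_{i<j} φ_ij`, `φ_ij = min(a_i+a_j,n) + min(a_i-a_j,n)`.
(1) For fixed `i`: `(2a_i - n)⁺ ≤ ∑_{j>i} φ_ij` (`j < g`). All `φ ≥ 0`. Let `2a_i > n`. For `j` from `g` down to `i+1` let `T_j = ∑_{j ≤ l < g} φ_il`. Claim: `T_j ≥ 2a_i - n`, or `T_j = 2(g-j) n`. `j = g`: `T = 0`. Step `j+1 → j`: if `T_{j+1} ≥ 2a_i - n` done. If `T_{j+1} = 2(g-1-j)n`: if `a_i - a_j ≥ n` then `φ_ij = 2n` (`a_i + a_j ≥ a_i - a_j ≥ n`).
 Otherwise `γ = a_i - a_j < n`; `2a_j - n ≤ 2(g-1-j)n` (`2 a_{g-1} ≤ n` and the steps are `≤ n`), `φ_ij ≥ 2γ`: `= min(a_i+a_j, n) + γ`; if `a_i+a_j ≥ n`, it is `n + γ ≥ 2γ`; else `a_i + a_j + a_i - a_j = 2a_i ≥ 2γ`. So `T_j ≥ 2γ + 2(g-1-j)n ≥ 2γ + 2a_j - n = 2a_i - n`.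
 At the end `j = i+1`: either `T ≥ 2a_i - n`, or `T = 2(g-1-i)n ≥ 2a_i - n` by the step bound. (`i = g-1`: `2a_{g-1} ≤ n`.)
(2) `g ∑ min(a_i, n) ≥ a_0`: `a_0 ≤ n/2 + (g-1) n ≤ g n`; if `a_0 ≤ n` clear, otherwise `g ∑ min ≥ g n ≥ a_0`.
-/

namespace Pool.Agent.Helper96.PS

open Polynomial

private theorem sum_split3 {N : ℕ} (f : Fin N → Fin N → ℤ) (hf : ∀ i j, f i j = f j i) :
    ∑ i, ∑ j, f i j = 2 * ∑ i, ∑ j ∈ Finset.Ioi i, f i j + ∑ i, f i i := by
  have h1 : ∀ i : Fin N, ∑ j, f i j = ∑ j ∈ Finset.Ioi i, f i j + f i i +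
      ∑ j ∈ Finset.Iio i, f i j := by
    intro i
    have e : ∀ j, f i j = (if i < j then f i j else 0) + (if j = i then f i j else 0) +
        (if j < i then f i j else 0) := by
      intro j
      rcases lt_trichotomy i j with h | h | h
      · rw [if_pos h, if_neg h.ne', if_neg (not_lt.mpr h.le)]; ring
      · rw [if_neg (by rw [h]; exact lt_irrefl _), if_pos h.symm,
          if_neg (by rw [h]; exact lt_irrefl _)]; ring
      · rw [if_neg (not_lt.mpr h.le), if_neg h.ne, if_pos h]; ring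
    rw [Finset.sum_congr rfl (fun j _ => e j), Finset.sum_add_distrib, Finset.sum_add_distrib,
      Finset.sum_ite_eq' Finset.univ i, if_pos (Finset.mem_univ i), ← Finset.sum_filter,
      ← Finset.sum_filter]
    congr 2
    · congr 1
      ext j
      simp
    · ext j
      simp
  have h2 : ∑ i, ∑ j ∈ Finset.Iio i, f i j = ∑ i, ∑ j ∈ Finset.Ioi i, f i j := by
    rw [Finset.sum_comm' (t' := Finset.univ) (s' := fun j => Finset.Ioi j) (by intro x y; simp)]
    apply Finset.sum_congr rfl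
    intro i _
    apply Finset.sum_congr rfl
    intro j _
    exact hf _ _
  rw [Finset.sum_congr rfl (fun i _ => h1 i), Finset.sum_add_distrib, Finset.sum_add_distrib, h2]
  ring

private theorem sum_Ici_eq {N : ℕ} (f : Fin N → Fin N → ℤ) :
    ∑ i, ∑ j ∈ Finset.Ici i, f i j = ∑ i, ∑ j ∈ Finset.Ioi i, f i j + ∑ i, f i i := by
  rw [← Finset.sum_add_distrib]
  apply Finset.sum_congr rfl
  intro i _
  have h : Finset.Ici i = insert i (Finset.Ioi i) := by
    ext j
    rw [Finset.mem_insert, Finset.mem_Ici, Finset.mem_Ioi, le_iff_eq_or_lt, eq_comm]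
  rw [h, Finset.sum_insert (by simp)]
  ring

private theorem two_sum_Ici {N : ℕ} (f : Fin N → Fin N → ℤ) (hf : ∀ i j, f i j = f j i) :
    2 * ∑ i, ∑ j ∈ Finset.Ici i, f i j = ∑ i, ∑ j, f i j + ∑ i, f i i := by
  rw [sum_Ici_eq, sum_split3 f hf]
  ring

private theorem sum_range_split (f : ℕ → ℕ → ℤ) (hf : ∀ i j, f i j = f j i) (g : ℕ) :
    ∑ i ∈ Finset.range g, ∑ j ∈ Finset.range g, f i j =
      2 * ∑ i ∈ Finset.range g, ∑ j ∈ Finset.Ioo i g, f i j + ∑ i ∈ Finset.range g, f i i := by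
  induction g with
  | zero => simp
  | succ g ih =>
    have h1 : ∑ i ∈ Finset.range (g + 1), ∑ j ∈ Finset.range (g + 1), f i j =
        ∑ i ∈ Finset.range g, ∑ j ∈ Finset.range g, f i j +
          2 * ∑ i ∈ Finset.range g, f i g + f g g := by
      rw [Finset.sum_range_succ]
      have h2 : ∑ i ∈ Finset.range g, ∑ j ∈ Finset.range (g + 1), f i j =
          ∑ i ∈ Finset.range g, ∑ j ∈ Finset.range g, f i j + ∑ i ∈ Finset.range g, f i g := by
        rw [← Finset.sum_add_distrib]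
        apply Finset.sum_congr rfl
        intro i _
        rw [Finset.sum_range_succ]
      rw [h2, Finset.sum_range_succ, Finset.sum_congr rfl (fun j _ => hf g j)]
      ring
    have h3 : ∑ i ∈ Finset.range (g + 1), ∑ j ∈ Finset.Ioo i (g + 1), f i j =
        ∑ i ∈ Finset.range g, ∑ j ∈ Finset.Ioo i g, f i j + ∑ i ∈ Finset.range g, f i g := by
      rw [Finset.sum_range_succ]
      have h4 : Finset.Ioo g (g + 1) = ∅ := by
        ext j
        simp only [Finset.mem_Ioo, Finset.notMem_empty, iff_false]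
        omega
      rw [h4, Finset.sum_empty, add_zero, ← Finset.sum_add_distrib]
      apply Finset.sum_congr rfl
      intro i hi
      have hi' := Finset.mem_range.mp hi
      have h5 : Finset.Ioo i (g + 1) = insert g (Finset.Ioo i g) := by
        ext j
        simp only [Finset.mem_Ioo, Finset.mem_insert]
        omega
      rw [h5, Finset.sum_insert (by simp)]
      ring
    rw [h1, h3, Finset.sum_range_succ, ih]
    ring

/-- bound (B): the values grow at most by `n` -/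
private theorem val_bound {g n : ℕ} {a : ℕ → ℤ} (htop : 2 * a (g - 1) ≤ n)
    (hgap : ∀ j, j + 1 < g → a j - a (j + 1) ≤ n) (k : ℕ) :
    k < g → 2 * a (g - 1 - k) ≤ n + 2 * k * n := by
  induction k with
  | zero => intro _; simpa using htop
  | succ k ih =>
    intro hk
    have h1 := ih (by omega)
    have h2 := hgap (g - 1 - (k + 1)) (by omega)
    have h3 : g - 1 - (k + 1) + 1 = g - 1 - k := by omega
    rw [h3] at h2
    push_cast
    nlinarith

/-- claim (1) -/
private theorem claim_one {g n : ℕ} {a : ℕ → ℤ} (hanti : ∀ i j, i ≤ j → j < g → a j ≤ a i)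
    (hpos : ∀ i, i < g → 0 ≤ a i) (htop : 2 * a (g - 1) ≤ n)
    (hgap : ∀ j, j + 1 < g → a j - a (j + 1) ≤ n) (i : ℕ) (hi : i < g) :
    max (2 * a i - n) 0 ≤ ∑ j ∈ Finset.Ioo i g, (min |a i - a j| n + min (a i + a j) n) := by
  have hn : (0 : ℤ) ≤ n := Int.natCast_nonneg n
  have hφ : ∀ j ∈ Finset.Ioo i g, 0 ≤ min |a i - a j| (n : ℤ) + min (a i + a j) n := by
    intro j hj
    have h := Finset.mem_Ioo.mp hj
    have h1 := hpos i hi
    have h2 := hpos j h.2
    have h3 := abs_nonneg (a i - a j)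
    have h4 : 0 ≤ min |a i - a j| (n : ℤ) := le_min h3 hn
    have h5 : 0 ≤ min (a i + a j) (n : ℤ) := le_min (by omega) hn
    omega
  -- downward induction
  have key : ∀ k, k + i < g →
      2 * a i - n ≤ ∑ j ∈ Finset.Ioo (g - 1 - k) g, (min |a i - a j| (n : ℤ) + min (a i + a j) n) ∨
      2 * (k : ℤ) * n ≤
        ∑ j ∈ Finset.Ioo (g - 1 - k) g, (min |a i - a j| (n : ℤ) + min (a i + a j) n) := by
    intro k
    induction k with
    | zero =>
      intro _
      right
      have h4 : Finset.Ioo (g - 1 - 0) g = ∅ := by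
        ext j
        simp
        omega
      rw [h4]
      simp
    | succ k ih =>
      intro hk
      have h5 : Finset.Ioo (g - 1 - (k + 1)) g = insert (g - 1 - k) (Finset.Ioo (g - 1 - k) g) := by
        ext j
        simp
        omega
      have hj1 : g - 1 - k < g := by omega
      rw [h5, Finset.sum_insert (by simp)]
      have h1 := hpos i hi
      have h2 := hpos (g - 1 - k) hj1
      have h3 := hanti i (g - 1 - k) (by omega) hj1
      have habs : |a i - a (g - 1 - k)| = a i - a (g - 1 - k) := abs_of_nonneg (by omega)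
      have hB := val_bound htop hgap k (by omega)
      rw [habs]
      rcases ih (by omega) with h | h
      · left
        have h4 : 0 ≤ min (a i - a (g - 1 - k)) (n : ℤ) := le_min (by omega) hn
        have h5 : 0 ≤ min (a i + a (g - 1 - k)) (n : ℤ) := le_min (by omega) hn
        omega
      · rcases le_or_gt (n : ℤ) (a i - a (g - 1 - k)) with hc | hc
        · right
          rw [min_eq_right hc, min_eq_right (by omega)]
          push_cast
          nlinarith
        · left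
          rw [min_eq_left hc.le]
          rcases le_or_gt (n : ℤ) (a i + a (g - 1 - k)) with hd | hd
          · rw [min_eq_right hd]
            omega
          · rw [min_eq_left hd.le]
            omega
  have hsum0 := Finset.sum_nonneg hφ
  apply max_le _ hsum0
  have h1 := key (g - 1 - i) (by omega)
  have h2 : g - 1 - (g - 1 - i) = i := by omega
  have hB := val_bound htop hgap (g - 1 - i) (by omega)
  rw [h2] at h1 hB
  rcases h1 with h | h
  · exact h
  · omega

private theorem sum_decomp {g : ℕ} {d : Fin (2 * g + 1) → ℤ} {a : ℕ → ℤ}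
    (hda : ∀ i : Fin (2 * g + 1), d i = a i) (hsymm : ∀ i, i < g → a (2 * g - i) = - a i)
    (h0 : a g = 0) (F : ℤ → ℤ) :
    ∑ i, F (d i) = ∑ i ∈ Finset.range g, (F (a i) + F (- a i)) + F 0 := by
  rw [Finset.sum_congr rfl (fun i _ => by rw [hda i]),
    Fin.sum_univ_eq_sum_range (fun i => F (a i)) (2 * g + 1)]
  have e : 2 * g + 1 = g + (g + 1) := by ring
  rw [e, Finset.sum_range_add, Finset.sum_range_succ', add_zero, h0, Finset.sum_add_distrib]
  have h1 : ∑ k ∈ Finset.range g, F (a (g + (k + 1))) = ∑ i ∈ Finset.range g, F (- a i) := by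
    rw [← Finset.sum_range_reflect]
    apply Finset.sum_congr rfl
    intro i hi
    have hi' := Finset.mem_range.mp hi
    rw [← hsymm i hi']
    congr 2
    omega
  rw [h1]
  ring

theorem exp_ineq {g n : ℕ} (hg : 1 ≤ g) {d : Fin (2 * g + 1) → ℤ} (hd : TypeOK g n d) :
    (g : ℤ) * ((eG d : ℤ) + eB n d - eU d - n * ((g + 1) * (2 * g + 1))) ≤
      g * ((2 * g + 1) * (g + 2)) - d 0 := by
  have hn : (0 : ℤ) ≤ n := Int.natCast_nonneg n
  obtain ⟨a, hadef⟩ : ∃ a : ℕ → ℤ, a = fun i => if h : i < 2 * g + 1 then d ⟨i, h⟩ else 0 :=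
    ⟨_, rfl⟩
  have hda : ∀ i : Fin (2 * g + 1), d i = a i := by
    intro i
    rw [hadef]
    simp only
    rw [dif_pos i.2]
  have hsymm' : ∀ i, i < 2 * g + 1 → a (2 * g - i) = - a i := by
    intro i hi
    have h1 := hd.symm ⟨i, hi⟩
    rw [hda, hda] at h1
    have h2 : ((Fin.rev (⟨i, hi⟩ : Fin (2 * g + 1)) : Fin (2 * g + 1)) : ℕ) = 2 * g - i := by
      rw [Fin.val_rev]
      simp only
      omega
    rw [h2] at h1
    simp only at h1
    omega
  have h0 : a g = 0 := by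
    have h1 := hsymm' g (by omega)
    have h2 : 2 * g - g = g := by omega
    rw [h2] at h1
    omega
  have hanti' : ∀ i j, i ≤ j → j < 2 * g + 1 → a j ≤ a i := by
    intro i j hij hj
    have h1 := hd.anti (a := ⟨i, by omega⟩) (b := ⟨j, hj⟩) hij
    rw [hda, hda] at h1
    exact h1
  have hpos : ∀ i, i < g → 0 ≤ a i := by
    intro i hi
    rw [← h0]
    exact hanti' i g hi.le (by omega)
  have htop : 2 * a (g - 1) ≤ n := by
    have h1 := hd.top ⟨g - 1, by omega⟩ (by simp only; omega)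
    rw [hda] at h1
    exact h1
  have hgap : ∀ j, j + 1 < g → a j - a (j + 1) ≤ n := by
    intro j hj
    have h1 := hd.gap ⟨j, by omega⟩ ⟨j + 1, by omega⟩ rfl
    rw [hda, hda] at h1
    exact h1
  have L1 := fun F => sum_decomp hda (fun i hi => hsymm' i (by omega)) h0 F
  -- the three exponents
  have heG : 2 * (eG d : ℤ) ≤ ∑ i, ∑ j, (1 + max (- d i - d j) 0) +
      ∑ i, (1 + max (- d i - d i) 0) := by
    rw [← two_sum_Ici (fun i j => 1 + max (- d i - d j) 0) (fun i j => by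
      rw [show - d i - d j = - d j - d i by ring])]
    unfold eG
    push_cast
    apply mul_le_mul_of_nonneg_left _ (by norm_num)
    apply Finset.sum_le_sum
    intro i _
    apply Finset.sum_le_sum
    intro j _
    omega
  have heB : 2 * (eB n d : ℤ) ≤ ∑ i, ∑ j, ((n : ℤ) + 1 - d i - d j + max (d i + d j - n) 0) +
      ∑ i, ((n : ℤ) + 1 - d i - d i + max (d i + d i - n) 0) := by
    rw [← two_sum_Ici (fun i j => (n : ℤ) + 1 - d i - d j + max (d i + d j - n) 0)
      (fun i j => by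
      rw [show (n : ℤ) + 1 - d i - d j = n + 1 - d j - d i by ring, add_comm (d i) (d j)])]
    unfold eB
    push_cast
    apply mul_le_mul_of_nonneg_left _ (by norm_num)
    apply Finset.sum_le_sum
    intro i _
    apply Finset.sum_le_sum
    intro j _
    omega
  have heU : 2 * (eU d : ℤ) + (2 * g + 1) = ∑ i, ∑ j, (|d i - d j| + 1) := by
    rw [sum_split3 (fun i j => |d i - d j| + 1) (fun i j => by rw [abs_sub_comm])]
    unfold eU
    push_cast
    congr 1
    · congr 1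
      apply Finset.sum_congr rfl
      intro i _
      apply Finset.sum_congr rfl
      intro j hj
      have h1 : d j ≤ d i := hd.anti (Finset.mem_Ioi.mp hj).le
      rw [abs_of_nonneg (by omega)]
      omega
    · simp
  obtain ⟨G, hG⟩ : ∃ G : ℤ → ℤ → ℤ, G = fun (x y : ℤ) => (1 + max (- x - y) 0) +
      ((n : ℤ) + 1 - x - y + max (x + y - n) 0) - (|x - y| + 1) := ⟨_, rfl⟩
  obtain ⟨H, hH⟩ : ∃ H : ℤ → ℤ, H = fun (x : ℤ) => (1 + max (- x - x) 0) +
      ((n : ℤ) + 1 - x - x + max (x + x - n) 0) := ⟨_, rfl⟩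
  have hE : 2 * ((eG d : ℤ) + eB n d - eU d) ≤ ∑ i, ∑ j, G (d i) (d j) + ∑ i, H (d i) +
      (2 * g + 1) := by
    have e1 : ∑ i, ∑ j, G (d i) (d j) = ∑ i, ∑ j, (1 + max (- d i - d j) 0) +
        ∑ i, ∑ j, ((n : ℤ) + 1 - d i - d j + max (d i + d j - n) 0) -
        ∑ i, ∑ j, (|d i - d j| + 1) := by
      rw [hG]
      simp only
      rw [← Finset.sum_add_distrib, ← Finset.sum_sub_distrib]
      apply Finset.sum_congr rfl
      intro i _
      rw [← Finset.sum_add_distrib, ← Finset.sum_sub_distrib]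
    have e2 : ∑ i, H (d i) = ∑ i, (1 + max (- d i - d i) 0) +
        ∑ i, ((n : ℤ) + 1 - d i - d i + max (d i + d i - n) 0) := by
      rw [hH]
      simp only
      rw [← Finset.sum_add_distrib]
    rw [e1, e2]
    linarith
  have hGG : ∑ i, ∑ j, G (d i) (d j) =
      ∑ i ∈ Finset.range g, ∑ j ∈ Finset.range g, (G (a i) (a j) + G (a i) (- a j) +
        (G (- a i) (a j) + G (- a i) (- a j))) +
      ∑ i ∈ Finset.range g, (G (a i) 0 + G (- a i) 0 + (G 0 (a i) + G 0 (- a i))) + G 0 0 := by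
    have e1 : ∀ x : ℤ, ∑ j, G x (d j) =
        ∑ j ∈ Finset.range g, (G x (a j) + G x (- a j)) + G x 0 := fun x => L1 (G x)
    rw [Finset.sum_congr rfl (fun i _ => e1 (d i)),
      L1 (fun x => ∑ j ∈ Finset.range g, (G x (a j) + G x (- a j)) + G x 0)]
    simp only [Finset.sum_add_distrib]
    ring
  have hval1 : ∀ i ∈ Finset.range g, ∀ j ∈ Finset.range g, (G (a i) (a j) + G (a i) (- a j) +
        (G (- a i) (a j) + G (- a i) (- a j))) =
      4 * ((n : ℤ) + 1) - (min |a i - a j| n + min (a i + a j) n) := by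
    intro i hi j hj
    have h1 := hpos i (Finset.mem_range.mp hi)
    have h2 := hpos j (Finset.mem_range.mp hj)
    rw [hG]
    simp only
    rw [show a i - - a j = a i + a j by ring, show - a i - a j = -(a i + a j) by ring,
      show - a i - - a j = -(a i - a j) by ring, abs_neg, abs_neg]
    rw [abs_of_nonneg (show 0 ≤ a i + a j by omega)]
    rcases le_total (a j) (a i) with h | h
    · rw [abs_of_nonneg (show 0 ≤ a i - a j by omega)]
      omega
    · rw [abs_of_nonpos (show a i - a j ≤ 0 by omega)]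
      omega
  have hval2 : ∀ i ∈ Finset.range g, (G (a i) 0 + G (- a i) 0 + (G 0 (a i) + G 0 (- a i))) +
      (H (a i) + H (- a i)) =
      4 * ((n : ℤ) + 1) + 2 * (n + 2) + 2 * max (a i - n) 0 + max (2 * a i - n) 0 := by
    intro i hi
    have h1 := hpos i (Finset.mem_range.mp hi)
    rw [hG, hH]
    simp only
    rw [show a i - 0 = a i by ring, show - a i - 0 = - a i by ring,
      show 0 - a i = - a i by ring, show 0 - - a i = a i by ring, abs_neg, abs_of_nonneg h1]
    omega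
  have hval3 : G 0 0 + H 0 = (n + 1) + (n + 2) := by
    rw [hG, hH]
    simp
    omega
  have hHH := L1 H
  obtain ⟨ψ, hψ⟩ : ∃ ψ : ℕ → ℕ → ℤ, ψ = fun i j => min |a i - a j| (n : ℤ) + min (a i + a j) n :=
    ⟨_, rfl⟩
  have hsplit := sum_range_split ψ (fun i j => by
    rw [hψ]
    simp only
    rw [abs_sub_comm, add_comm (a i) (a j)]) g
  have hclaim : ∀ i ∈ Finset.range g, 2 * max (a i - (n : ℤ)) 0 + max (2 * a i - n) 0 -
      2 * ∑ j ∈ Finset.Ioo i g, ψ i j - ψ i i ≤ - 2 * min (a i) n := by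
    intro i hi
    have hi' := Finset.mem_range.mp hi
    have h1 := claim_one (fun i j hij hj => hanti' i j hij (by omega)) hpos htop hgap i hi'
    have h2 := hpos i hi'
    have h3 : ψ i i = min (2 * a i) n := by
      rw [hψ]
      simp only
      rw [sub_self, abs_zero, min_eq_left hn]
      ring_nf
    have h4 : ∑ j ∈ Finset.Ioo i g, ψ i j =
        ∑ j ∈ Finset.Ioo i g, (min |a i - a j| (n : ℤ) + min (a i + a j) n) := by
      rw [hψ]
    rw [← h4] at h1
    rw [h3]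
    omega
  -- assembly
  have hdouble : ∑ i ∈ Finset.range g, ∑ j ∈ Finset.range g, (G (a i) (a j) + G (a i) (- a j) +
        (G (- a i) (a j) + G (- a i) (- a j))) =
      (g : ℤ) * (g * (4 * ((n : ℤ) + 1))) -
        ∑ i ∈ Finset.range g, ∑ j ∈ Finset.range g, ψ i j := by
    have e1 : ∀ i ∈ Finset.range g, ∑ j ∈ Finset.range g, (G (a i) (a j) + G (a i) (- a j) +
        (G (- a i) (a j) + G (- a i) (- a j))) =
        (g : ℤ) * (4 * ((n : ℤ) + 1)) - ∑ j ∈ Finset.range g, ψ i j := by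
      intro i hi
      rw [Finset.sum_congr rfl (fun j hj => hval1 i hi j hj), Finset.sum_sub_distrib, hψ]
      simp
    rw [Finset.sum_congr rfl e1, Finset.sum_sub_distrib]
    simp
  have hsingle : ∑ i ∈ Finset.range g, (G (a i) 0 + G (- a i) 0 + (G 0 (a i) + G 0 (- a i))) +
      ∑ i ∈ Finset.range g, (H (a i) + H (- a i)) =
      (g : ℤ) * (4 * ((n : ℤ) + 1) + 2 * (n + 2)) +
        ∑ i ∈ Finset.range g, (2 * max (a i - (n : ℤ)) 0 + max (2 * a i - n) 0) := by
    rw [← Finset.sum_add_distrib, Finset.sum_congr rfl hval2]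
    rw [Finset.sum_congr rfl (fun i _ => add_assoc _ _ _), Finset.sum_add_distrib]
    simp
  have hfin : ∑ i ∈ Finset.range g, (2 * max (a i - (n : ℤ)) 0 + max (2 * a i - n) 0) -
      ∑ i ∈ Finset.range g, ∑ j ∈ Finset.range g, ψ i j ≤
      - 2 * ∑ i ∈ Finset.range g, min (a i) (n : ℤ) := by
    rw [hsplit, Finset.mul_sum, Finset.mul_sum, ← Finset.sum_add_distrib,
      ← Finset.sum_sub_distrib]
    apply Finset.sum_le_sum
    intro i hi
    have := hclaim i hi
    linarith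
  have htotal : 2 * ((eG d : ℤ) + eB n d - eU d) ≤
      2 * (n * ((g + 1) * (2 * g + 1))) + 2 * ((2 * g + 1) * (g + 2)) -
        2 * ∑ i ∈ Finset.range g, min (a i) (n : ℤ) := by
    rw [hGG, hHH, hdouble] at hE
    nlinarith [hE, hsingle, hfin, hval3]
  -- claim (2)
  have hmin : ∀ i ∈ Finset.range g, 0 ≤ min (a i) (n : ℤ) := by
    intro i hi
    exact le_min (hpos i (Finset.mem_range.mp hi)) hn
  have hm0 : min (a 0) (n : ℤ) ≤ ∑ i ∈ Finset.range g, min (a i) (n : ℤ) :=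
    Finset.single_le_sum hmin (Finset.mem_range.mpr (by omega))
  have hg' : (1 : ℤ) ≤ g := by exact_mod_cast hg
  have hB0 : a 0 ≤ g * min (a 0) (n : ℤ) := by
    have h1 := val_bound htop hgap (g - 1) (by omega)
    rw [Nat.sub_self, Nat.cast_sub hg] at h1
    have h2 := hpos 0 (by omega)
    rcases le_or_gt (a 0) (n : ℤ) with h | h
    · rw [min_eq_left h]
      nlinarith
    · rw [min_eq_right h.le]
      push_cast at h1
      nlinarith
  have hd0 : d 0 = a 0 := by
    rw [hda 0]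
    rfl
  rw [hd0]
  have h5 : (g : ℤ) * min (a 0) (n : ℤ) ≤ g * ∑ i ∈ Finset.range g, min (a i) (n : ℤ) :=
    mul_le_mul_of_nonneg_left hm0 (by omega)
  have h6 : (g : ℤ) * ((eG d : ℤ) + eB n d - eU d - n * ((g + 1) * (2 * g + 1))) ≤
      g * ((2 * g + 1) * (g + 2) - ∑ i ∈ Finset.range g, min (a i) (n : ℤ)) :=
    mul_le_mul_of_nonneg_left (by linarith) (by omega)
  linarith [mul_sub (g : ℤ) ((2 * g + 1) * (g + 2)) (∑ i ∈ Finset.range g, min (a i) (n : ℤ))]

end Pool.Agent.Helper96.PS
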