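import Pool.Agent.Helper96.PS.Defs

/-!
# PS-B5b: sums over types

`d` antitone with `d_i + d_{rev i} = 0` is determined by `d_0 ≥ … ≥ d_{g-1} ≥ 0` (`d_g = 0`), all `≤ d_0`: at most `(m+1)^g` of them have `d_0 = m ≥ 0`. So `∑_d r^{d_0} ≤ ∑_m (m+1)^g r^m < ∞` for `0 ≤ r < 1`.
`TypeOK`: `d_0 ≤ n/2 + (g-1)n ≤ g n`: finitely many (for `g = 0` only `d = 0`).
-/

namespace Pool.Agent.Helper96.PS

private theorem ts_bound {g : ℕ} {d : Fin (2 * g + 1) → ℤ} (ha : Antitone d)
    (hs : ∀ i, d i + d i.rev = 0) (i : Fin (2 * g + 1)) : -(d 0) ≤ d i ∧ d i ≤ d 0 := by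
  have h1 : d i ≤ d 0 := ha (Fin.zero_le i)
  have h2 : d i.rev ≤ d 0 := ha (Fin.zero_le _)
  have h3 := hs i
  exact ⟨by linarith, h1⟩

private theorem ts_nonneg {g : ℕ} {d : Fin (2 * g + 1) → ℤ} (ha : Antitone d)
    (hs : ∀ i, d i + d i.rev = 0) : 0 ≤ d 0 := by
  have h := (ts_bound ha hs 0).1
  linarith

private theorem ts_summable (N : ℕ) {r : ℝ} (h0 : 0 ≤ r) (h1 : r < 1) :
    Summable fun m : ℕ => (2 * (m : ℝ) + 1) ^ N * r ^ m := by
  have hr : ‖r‖ < 1 := by rwa [Real.norm_of_nonneg h0]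
  have hA : Summable fun m : ℕ => (4 : ℝ) ^ N * ((m : ℝ) ^ N * r ^ m + r ^ m) :=
    ((summable_pow_mul_geometric_of_norm_lt_one N hr).add
      (summable_geometric_of_lt_one h0 h1)).mul_left _
  refine Summable.of_nonneg_of_le (fun m => by positivity) (fun m => ?_) hA
  have h2 : (2 * (m : ℝ) + 1) ^ N ≤ 4 ^ N * ((m : ℝ) ^ N + 1) := by
    rcases Nat.eq_zero_or_pos m with rfl | hm
    · simp only [Nat.cast_zero, mul_zero, zero_add, one_pow]
      have h3 : (1 : ℝ) ≤ 4 ^ N := one_le_pow₀ (by norm_num)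
      have h4 : (0 : ℝ) ≤ (0 : ℝ) ^ N := by positivity
      nlinarith
    · have hm' : (1 : ℝ) ≤ m := by exact_mod_cast hm
      calc (2 * (m : ℝ) + 1) ^ N ≤ (4 * m) ^ N := by
            apply pow_le_pow_left₀ (by positivity)
            linarith
        _ = 4 ^ N * (m : ℝ) ^ N := by rw [mul_pow]
        _ ≤ 4 ^ N * ((m : ℝ) ^ N + 1) := by
            apply mul_le_mul_of_nonneg_left _ (by positivity)
            linarith
  calc (2 * (m : ℝ) + 1) ^ N * r ^ m ≤ 4 ^ N * ((m : ℝ) ^ N + 1) * r ^ m :=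
        mul_le_mul_of_nonneg_right h2 (by positivity)
    _ = 4 ^ N * ((m : ℝ) ^ N * r ^ m + r ^ m) := by ring

theorem summable_types (g : ℕ) {r : ℝ} (h0 : 0 ≤ r) (h1 : r < 1) :
    Summable fun d : {d : Fin (2 * g + 1) → ℤ // Antitone d ∧ ∀ i, d i + d i.rev = 0} =>
      r ^ (d.1 0).toNat := by
  classical
  have hS := ts_summable (2 * g + 1) h0 h1
  refine summable_of_sum_le (fun d => by positivity)
    (c := ∑' m : ℕ, (2 * (m : ℝ) + 1) ^ (2 * g + 1) * r ^ m) (fun s => ?_)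
  have h2 : ∀ d ∈ s, (d.1 0).toNat ∈ s.image (fun d => (d.1 0).toNat) := fun d hd =>
    Finset.mem_image_of_mem _ hd
  rw [← Finset.sum_fiberwise_of_maps_to h2]
  refine le_trans (Finset.sum_le_sum (fun m _ => ?_)) (hS.sum_le_tsum
    (s.image (fun d => (d.1 0).toNat)) (fun m _ => by positivity))
  have h3 : ∑ d ∈ s.filter (fun d => (d.1 0).toNat = m), r ^ (d.1 0).toNat =
      ((s.filter (fun d => (d.1 0).toNat = m)).card : ℝ) * r ^ m := by
    rw [← nsmul_eq_mul, ← Finset.sum_const]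
    refine Finset.sum_congr rfl (fun d hd => ?_)
    rw [(Finset.mem_filter.1 hd).2]
  rw [h3]
  refine mul_le_mul_of_nonneg_right ?_ (by positivity)
  have h4 : (s.filter (fun d => (d.1 0).toNat = m)).card ≤
      (Fintype.piFinset fun _ : Fin (2 * g + 1) => Finset.Icc (-(m : ℤ)) m).card := by
    refine Finset.card_le_card_of_injOn (fun d => d.1) ?_ (fun a _ b _ h => Subtype.ext h)
    intro d hd
    have hd' := (Finset.mem_filter.1 hd).2
    rw [Finset.mem_coe, Fintype.mem_piFinset]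
    intro i
    have hb := ts_bound d.2.1 d.2.2 i
    have hn := ts_nonneg d.2.1 d.2.2
    have he : d.1 0 = m := by
      rw [← hd', Int.toNat_of_nonneg hn]
    rw [Finset.mem_Icc]
    exact ⟨by linarith [hb.1], by linarith [hb.2]⟩
  rw [Fintype.card_piFinset] at h4
  simp only [Finset.prod_const, Finset.card_univ, Fintype.card_fin, Int.card_Icc] at h4
  have h5 : ((m : ℤ) + 1 - -(m : ℤ)).toNat = 2 * m + 1 := by omega
  rw [h5] at h4
  exact_mod_cast h4

theorem finite_types (g n : ℕ) : {d : Fin (2 * g + 1) → ℤ | TypeOK g n d}.Finite := by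
  refine (Set.finite_Icc (fun _ => -((g : ℤ) * n) : Fin (2 * g + 1) → ℤ)
    (fun _ => (g : ℤ) * n)).subset ?_
  intro d hd
  have hd : TypeOK g n d := hd
  have h1 : ∀ k : ℕ, ∀ hk : k < 2 * g + 1, d 0 ≤ d ⟨k, hk⟩ + k * n := by
    intro k
    induction k with
    | zero =>
      intro hk
      simp only [Nat.cast_zero, zero_mul, add_zero]
      exact le_of_eq rfl
    | succ k ih =>
      intro hk
      have h2 := ih (by omega)
      have h3 := hd.gap ⟨k, by omega⟩ ⟨k + 1, hk⟩ rfl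
      push_cast
      linarith
  have h0 : d 0 ≤ (g : ℤ) * n := by
    rcases Nat.eq_zero_or_pos g with rfl | hg
    · have h2 := hd.symm 0
      have h3 : (Fin.rev (0 : Fin (2 * 0 + 1))) = 0 := rfl
      rw [h3] at h2
      simp only [Nat.cast_zero, zero_mul]
      linarith
    · have h2 := h1 (g - 1) (by omega)
      have h3 := hd.top ⟨g - 1, by omega⟩ (by simp only; omega)
      have h4 : ((g - 1 : ℕ) : ℤ) = (g : ℤ) - 1 := by
        rw [Nat.cast_sub hg, Nat.cast_one]
      rw [h4] at h2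
      have h5 : (0 : ℤ) ≤ n := Int.natCast_nonneg n
      nlinarith
  constructor
  · intro i
    have := (ts_bound hd.anti hd.symm i).1
    simp only
    linarith
  · intro i
    have := (ts_bound hd.anti hd.symm i).2
    simp only
    linarith

theorem TypeOK.nonneg {g n : ℕ} {d : Fin (2 * g + 1) → ℤ} (hd : TypeOK g n d) : 0 ≤ d 0 :=
  ts_nonneg hd.anti hd.symm

end Pool.Agent.Helper96.PS
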