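import Pool.Agent.Helper96.PS.Pencil
import Pool.Agent.Helper96.PS.OrbitBound
import Pool.Agent.Helper96.PS.TypeIneq
import Pool.Agent.Helper96.PS.TypeSum
import Pool.Agent.Helper96.PS.LocalCount
import Pool.Agent.Helper96.PS.Equi

/-!
# PS-B8: the number of `f` with a nontrivial class which is trivial at `k` places (assembly of part B)

`q = #F`, `N = 2g+1`, `r = q^{-1/g} ∈ (0,1)`, `S = ∑_d r^{d_0}` (`summable_types`), `K₀ = q^{(2g+1)(g+2)}`, `M = 2 K₀ (S + 1)`. `Q₀` such that `½ (1 + 3/Q)^{4g} ≤ 3/4` for `Q ≥ Q₀` (real number `Q ≥ Q₀`; tends to `½`).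
(1) A bad `f ∈ BoxW` (`Reg`, `LocOK`, `BadStrict`, `n ≥ 1`: so `Good g n w f`) is in `SSet w g n π π' d` for some `d` with `TypeOK`: `BadStrict`: `x ∈ Sg f` nonsquare with `SqLoc (P2 f (π_i) r) x` for all `i` and all `r, h` with `TypeS g f (π_i) r h`; `exists_pencil`; by `LocOK` `f mod π_i ∈ TS`: `TypeS g f (π_i) r h` for some lifts `r, h` (`h` monic of degree `2g`), so `Dist` at `π_i`;
 `f mod π'_i ∈ TI`: `TypeI f (π'_i)`, so `Dist` at `π'_i`.
(2) So `#bad ≤ ∑_{d ∈ TypeOK} #SSet d ≤ ∑_d #QSet d / q^{eU d}` (`finite_types`, `orbit_bound`, `card_Ud`).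
(3) Main types: `2kD ≤ n + 1 - 2d_0`. `equi` with `ι = Fin k ⊕ Fin k`, `ϖ = Sum.elim π π'`, `P = LocP (TS …)` / `LocP (TI …)`, `b = ½(1+3/Q)^{2g} #TS/Q^N` resp. `(1+3/Q)^{2g} #TI/Q^N`, `Q = #AdjoinRoot (π_i) = q^D` (`local_TS`, `local_TI`: `Q^{g(2g+1)} = Q^{(g+1)(2g+1)}/Q^{2g+1}`; `Field` instance of `AdjoinRoot (π i)` from `Fact (Irreducible _)`; `2 ≠ 0` there):
 `#QSet ≤ q^{eG+eB} · rho · (½ (1+3/Q)^{4g})^k ≤ q^{eG+eB} rho (3/4)^k`.
 Other types: `#QSet ≤ #PSet ≤ q^{eG+eB}` (`card_PSet_le`).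
(4) `exp_ineq`: `q^{eG+eB-eU} ≤ #BoxW · K₀ r^{d_0}` (`card_BoxW`; real exponent `-d_0/g`; `d_0 ≥ 0`). The sum over the main types is `≤ #BoxW K₀ S rho (3/4)^k`; the other types have `2 d_0 > n + 1 - 2kD`: their sum `≤ #BoxW K₀ ∑_{d : 2d_0 > n+1-2kD} r^{d_0}`, and the tail of the summable family tends to `0` as `n → ∞`,
 so it is `≤ rho (3/4)^k` for `n ≥ n₀` (`rho > 0`).
-/

namespace Pool.Agent.Helper96.PS

open Polynomial

variable {F : Type*} [Field F]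

private theorem bc_card_adj [Finite F] {π : F[X]} (hm : π.Monic) :
    Nat.card (AdjoinRoot π) = Nat.card F ^ π.natDegree := by
  have : Module.Finite F (AdjoinRoot π) := (AdjoinRoot.powerBasis' hm).finite
  rw [Module.natCard_eq_pow_finrank (K := F), (AdjoinRoot.powerBasis' hm).finrank,
    AdjoinRoot.powerBasis'_dim]

private theorem bc_finite_adj [Finite F] {π : F[X]} (hm : π.Monic) : Finite (AdjoinRoot π) := by
  have : Module.Finite F (AdjoinRoot π) := (AdjoinRoot.powerBasis' hm).finite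
  exact Module.finite_of_finite F

private theorem bc_two {π : F[X]} (h2 : (2 : F) ≠ 0) (hirr : Irreducible π) :
    (2 : AdjoinRoot π) ≠ 0 := by
  have : Fact (Irreducible π) := ⟨hirr⟩
  have h1 : (2 : AdjoinRoot π) = algebraMap F (AdjoinRoot π) 2 := (map_ofNat _ 2).symm
  rw [h1]
  intro h
  exact h2 ((map_eq_zero _).1 h)

/-- types at the places -/
private theorem bc_typeS {g : ℕ} {f : F[X][X]} {π : F[X]} (hirr : Irreducible π) (hm : π.Monic)
    (h : f.map (AdjoinRoot.mk π) ∈ TS (AdjoinRoot π) g) : ∃ r q, TypeS g f π r q := by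
  have : Fact (Irreducible π) := ⟨hirr⟩
  obtain ⟨r₀, h₀, hh, hd, hi, he⟩ := h
  obtain ⟨r, rfl⟩ := AdjoinRoot.mk_surjective r₀
  have hl : h₀ ∈ lifts (AdjoinRoot.mk π) := by
    obtain ⟨h₁, rfl⟩ := map_surjective (AdjoinRoot.mk π) AdjoinRoot.mk_surjective h₀
    exact ⟨h₁, rfl⟩
  obtain ⟨q, hq, hqd, hqm⟩ := lifts_and_natDegree_eq_and_monic hl hh
  refine ⟨r, q, hirr, hm, hqm, by rw [hqd, hd], by rw [hq]; exact hi, ?_⟩
  rw [C_dvd_iff_dvd_coeff]
  intro i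
  rw [← AdjoinRoot.mk_eq_zero, ← coeff_map, Polynomial.map_sub, Polynomial.map_mul,
    Polynomial.map_sub, map_X, map_C, hq, he, sub_self, coeff_zero]

/-- a bad polynomial has a pencil -/
private theorem bc_sset [Finite F] (h2 : (2 : F) ≠ 0) {g n : ℕ} (hg : 1 ≤ g) (hn : 1 ≤ n) {w : F[X]}
    (hwm : w.Monic) (hwd : w.natDegree = 2 * g + 1) (hwi : Irreducible w) {k D : ℕ}
    {π π' : Fin k → F[X]} (hpl : Places k D π π') {f : F[X][X]} (hf : f ∈ BoxW w g n)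
    (hR : Reg f) (hL : LocOK g π π' f) (hB : BadStrict g π f) :
    ∃ d, TypeOK g n d ∧ f ∈ SSet w g n π π' d := by
  have hgood : Good g n w f := ⟨⟨hg, hf, hwm, hwd, hwi⟩, hn, hR⟩
  obtain ⟨x, hx, hns, hloc⟩ := hB
  obtain ⟨d, hd, p, hp, hc, hS, hI⟩ := exists_pencil h2 hgood hx hns
  refine ⟨d, hd, hf, hL, p, hp, hc, ?_, ?_⟩
  · intro i
    obtain ⟨r, q, hT⟩ := bc_typeS (hpl.irr i) (hpl.monic i) (hL.1 i)
    exact hS _ r q hT (hloc i r q hT)
  · intro i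
    exact hI _ ⟨hpl.irr' i, hpl.monic' i, (hL.2 i).2.2⟩

private theorem bc_finite_QSet [Finite F] (g n : ℕ) {k : ℕ} (π π' : Fin k → F[X])
    (d : Fin (2 * g + 1) → ℤ) : (QSet g n π π' d).Finite :=
  (finite_PSet g n d).subset fun _ h => h.1

private theorem bc_QSet_le [Finite F] (g n : ℕ) {k : ℕ} (π π' : Fin k → F[X])
    (d : Fin (2 * g + 1) → ℤ) :
    ((QSet g n π π' d).ncard : ℝ) ≤ (Nat.card F : ℝ) ^ (eG d + eB n d) := by
  have h1 : (QSet g n π π' d).ncard ≤ (PSet F g n d).ncard :=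
    Set.ncard_le_ncard (fun _ h => h.1) (finite_PSet g n d)
  exact_mod_cast h1.trans (card_PSet_le g n d)

/-- the local densities of the pencils -/
private noncomputable def bcb (g : ℕ) {k : ℕ} (Q : ℝ) (π π' : Fin k → F[X]) : Fin k ⊕ Fin k → ℝ :=
  Sum.elim (fun i => 1 / 2 * (1 + 3 / Q) ^ (2 * g) *
      (((TS (AdjoinRoot (π i)) g).ncard : ℝ) / (Nat.card (AdjoinRoot (π i)) : ℝ) ^ (2 * g + 1)))
    (fun i => (1 + 3 / Q) ^ (2 * g) *
      (((TI (AdjoinRoot (π' i)) g).ncard : ℝ) / (Nat.card (AdjoinRoot (π' i)) : ℝ) ^ (2 * g + 1)))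

private theorem bc_main [Finite F] (h2 : (2 : F) ≠ 0) {g n : ℕ} (hg : 1 ≤ g) {k D : ℕ}
    {π π' : Fin k → F[X]} (hpl : Places k D π π') {d : Fin (2 * g + 1) → ℤ} (hd : Antitone d)
    (hD : ((2 * k * D : ℕ) : ℤ) ≤ n + 1 - 2 * d 0) :
    ((QSet g n π π' d).ncard : ℝ) ≤ (Nat.card F : ℝ) ^ (eG d + eB n d) *
      ((1 / 2 * (1 + 3 / ((Nat.card F ^ D : ℕ) : ℝ)) ^ (4 * g)) ^ k * rho g π π') := by
  classical
  set Q : ℝ := ((Nat.card F ^ D : ℕ) : ℝ) with hQ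
  have hqpos : 0 < Nat.card F := Nat.card_pos
  have hQ0 : 0 < Q := by
    rw [hQ]
    exact_mod_cast pow_pos hqpos D
  have hcS : ∀ i, (Nat.card (AdjoinRoot (π i)) : ℝ) = Q := by
    intro i
    rw [bc_card_adj (hpl.monic i), hpl.deg i]
  have hcI : ∀ i, (Nat.card (AdjoinRoot (π' i)) : ℝ) = Q := by
    intro i
    rw [bc_card_adj (hpl.monic' i), hpl.deg' i]
  have hpow : Q ^ ((g + 1) * (2 * g + 1)) = Q ^ (g * (2 * g + 1)) * Q ^ (2 * g + 1) := by
    rw [← pow_add]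
    congr 1
    ring
  have h1 := equi (n := n) (Sum.elim π π') (by
      rintro (i | i)
      · exact hpl.irr i
      · exact hpl.irr' i) (by
      rintro (i | i)
      · exact hpl.monic i
      · exact hpl.monic' i) hpl.inj hd (by
      rw [Fintype.sum_sum_type]
      simp only [Sum.elim_inl, Sum.elim_inr, hpl.deg, hpl.deg', Finset.sum_const,
        Finset.card_univ, Fintype.card_fin, smul_eq_mul]
      have : k * D + k * D = 2 * k * D := by ring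
      rw [this]
      exact hD)
    (fun i => match i with
      | Sum.inl i => LocP (TS (AdjoinRoot (π i)) g)
      | Sum.inr i => LocP (TI (AdjoinRoot (π' i)) g))
    (bcb g Q π π') (by
      rintro (i | i) <;> simp only [bcb, Sum.elim_inl, Sum.elim_inr] <;> positivity) (by
      rintro (i | i) G₀ hs hu
      · have : Fact (Irreducible (π i)) := ⟨hpl.irr i⟩
        have : Finite (AdjoinRoot (π i)) := bc_finite_adj (hpl.monic i)
        have h3 := local_TS (κ := AdjoinRoot (π i)) (bc_two h2 (hpl.irr i)) hg hs hu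
        have h4 : ((Nat.card (AdjoinRoot (Sum.elim π π' (Sum.inl i)))) : ℝ) = Q := hcS i
        rw [h4]
        simp only [bcb, Sum.elim_inl]
        rw [hcS i] at h3 ⊢
        rw [hpow]
        have h5 : 1 / 2 * (1 + 3 / Q) ^ (2 * g) * (((TS (AdjoinRoot (π i)) g).ncard : ℝ) /
            Q ^ (2 * g + 1)) * (Q ^ (g * (2 * g + 1)) * Q ^ (2 * g + 1)) =
            1 / 2 * (((TS (AdjoinRoot (π i)) g).ncard : ℝ) * Q ^ (g * (2 * g + 1)) *
              (1 + 3 / Q) ^ (2 * g)) := by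
          field_simp
        rw [h5]
        linarith
      · have : Fact (Irreducible (π' i)) := ⟨hpl.irr' i⟩
        have : Finite (AdjoinRoot (π' i)) := bc_finite_adj (hpl.monic' i)
        have h3 := local_TI (κ := AdjoinRoot (π' i)) (bc_two h2 (hpl.irr' i)) hg hs hu
        have h4 : ((Nat.card (AdjoinRoot (Sum.elim π π' (Sum.inr i)))) : ℝ) = Q := hcI i
        rw [h4]
        simp only [bcb, Sum.elim_inr]
        rw [hcI i] at h3 ⊢
        rw [hpow]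
        have h5 : (1 + 3 / Q) ^ (2 * g) * (((TI (AdjoinRoot (π' i)) g).ncard : ℝ) /
            Q ^ (2 * g + 1)) * (Q ^ (g * (2 * g + 1)) * Q ^ (2 * g + 1)) =
            ((TI (AdjoinRoot (π' i)) g).ncard : ℝ) * Q ^ (g * (2 * g + 1)) *
              (1 + 3 / Q) ^ (2 * g) := by
          field_simp
        rw [h5]
        exact h3)
  have h6 : ∏ i, bcb g Q π π' i = (1 / 2 * (1 + 3 / Q) ^ (4 * g)) ^ k * rho g π π' := by
    rw [Fintype.prod_sum_type]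
    simp only [bcb, Sum.elim_inl, Sum.elim_inr, Finset.prod_mul_distrib, Finset.prod_const,
      Finset.card_univ, Fintype.card_fin, rho, Finset.prod_div_distrib]
    have h7 : (1 + 3 / Q) ^ (4 * g) = (1 + 3 / Q) ^ (2 * g) * (1 + 3 / Q) ^ (2 * g) := by
      rw [← pow_add]
      congr 1
      ring
    rw [h7]
    ring
  rw [h6] at h1
  have h8 : QSet g n π π' d = {p | p ∈ PSet F g n d ∧ ∀ i : Fin k ⊕ Fin k,
      (match i with
      | Sum.inl i => LocP (TS (AdjoinRoot (π i)) g)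
      | Sum.inr i => LocP (TI (AdjoinRoot (π' i)) g) :
        Matrix (Fin (2 * g + 1)) (Fin (2 * g + 1)) (AdjoinRoot (Sum.elim π π' i)) →
        Matrix (Fin (2 * g + 1)) (Fin (2 * g + 1)) (AdjoinRoot (Sum.elim π π' i)) → Prop)
      (p.1.map (AdjoinRoot.mk (Sum.elim π π' i))) (p.2.map (AdjoinRoot.mk (Sum.elim π π' i)))} := by
    ext p
    constructor
    · rintro ⟨ha, hb, hc⟩
      refine ⟨ha, ?_⟩
      rintro (i | i)
      · exact hb i
      · exact hc i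
    · rintro ⟨ha, hb⟩
      exact ⟨ha, fun i => hb (Sum.inl i), fun i => hb (Sum.inr i)⟩
  rw [h8]
  exact h1

private theorem bc_Q0 (g : ℕ) : ∃ Q₀ : ℕ, ∀ Q : ℕ, Q₀ ≤ Q →
    (1 / 2 : ℝ) * (1 + 3 / (Q : ℝ)) ^ (4 * g) ≤ 3 / 4 := by
  have h1 : Filter.Tendsto (fun Q : ℕ => (1 / 2 : ℝ) * (1 + 3 / (Q : ℝ)) ^ (4 * g)) Filter.atTop
      (nhds (1 / 2 * (1 + 0) ^ (4 * g))) :=
    ((tendsto_const_div_atTop_nhds_zero_nat (3 : ℝ)).const_add 1 |>.pow (4 * g)).const_mul (1 / 2)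
  have h2 : (1 / 2 * (1 + 0) ^ (4 * g) : ℝ) < 3 / 4 := by
    rw [add_zero, one_pow]
    norm_num
  obtain ⟨Q₀, hQ⟩ := Filter.eventually_atTop.1 (h1.eventually (gt_mem_nhds h2))
  exact ⟨Q₀, fun Q h => (hQ Q h).le⟩

/-- the number of pencils of one type -/
private theorem bc_exp {q : ℝ} (hq : 1 < q) {g n : ℕ} (hg : 1 ≤ g) {d : Fin (2 * g + 1) → ℤ}
    (hd : TypeOK g n d) :
    q ^ (eG d + eB n d) ≤ q ^ eU d * (q ^ (n * ((g + 1) * (2 * g + 1))) *
      q ^ ((2 * g + 1) * (g + 2)) * (q ^ (-(1 / (g : ℝ)))) ^ (d 0).toNat) := by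
  have hq0 : 0 < q := by linarith
  have hg0 : (0 : ℝ) < g := by exact_mod_cast hg
  have h1 := exp_ineq (n := n) hg hd
  have h2 : (((d 0).toNat : ℕ) : ℤ) = d 0 := Int.toNat_of_nonneg hd.nonneg
  rw [← h2] at h1
  have h3 : (g : ℝ) * ((eG d : ℝ) + eB n d - eU d - n * ((g + 1) * (2 * g + 1))) ≤
      g * ((2 * g + 1) * (g + 2)) - ((d 0).toNat : ℝ) := by exact_mod_cast h1
  have h4 : (eG d : ℝ) + eB n d ≤ eU d + (n * ((g + 1) * (2 * g + 1)) + (2 * g + 1) * (g + 2) +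
      -(1 / (g : ℝ)) * ((d 0).toNat : ℝ)) := by
    have h5 : (g : ℝ) * (-(1 / (g : ℝ)) * ((d 0).toNat : ℝ)) = - ((d 0).toNat : ℝ) := by
      field_simp
    have h6 : (g : ℝ) * ((eG d : ℝ) + eB n d) ≤ g * (eU d + (n * ((g + 1) * (2 * g + 1)) +
        (2 * g + 1) * (g + 2) + -(1 / (g : ℝ)) * ((d 0).toNat : ℝ))) := by
      nlinarith
    exact le_of_mul_le_mul_left h6 hg0
  have h7 := Real.rpow_le_rpow_of_exponent_le hq.le h4
  have e1 : q ^ ((eG d : ℝ) + eB n d) = q ^ (eG d + eB n d) := by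
    rw [← Real.rpow_natCast]
    push_cast
    rfl
  have e2 : q ^ ((eU d : ℝ) + (n * ((g + 1) * (2 * g + 1)) + (2 * g + 1) * (g + 2) +
      -(1 / (g : ℝ)) * ((d 0).toNat : ℝ))) = q ^ eU d * (q ^ (n * ((g + 1) * (2 * g + 1))) *
      q ^ ((2 * g + 1) * (g + 2)) * (q ^ (-(1 / (g : ℝ)))) ^ (d 0).toNat) := by
    rw [Real.rpow_add hq0, Real.rpow_add hq0, Real.rpow_add hq0, Real.rpow_natCast,
      Real.rpow_mul_natCast hq0.le]
    have e3 : q ^ ((n : ℝ) * ((g + 1) * (2 * g + 1))) = q ^ (n * ((g + 1) * (2 * g + 1))) := by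
      rw [← Real.rpow_natCast]
      push_cast
      rfl
    have e4 : q ^ ((2 * (g : ℝ) + 1) * (g + 2)) = q ^ ((2 * g + 1) * (g + 2)) := by
      rw [← Real.rpow_natCast]
      push_cast
      rfl
    rw [e3, e4]
  rw [e1, e2] at h7
  exact h7

private theorem bc_one [Finite F] {g n : ℕ} (hg : 1 ≤ g) {w : F[X]}
    (hwm : w.Monic) (hwd : w.natDegree = 2 * g + 1) (hwi : Irreducible w) {k : ℕ}
    {π π' : Fin k → F[X]} {d : Fin (2 * g + 1) → ℤ} (hd : TypeOK g n d) (c : ℝ) (hc : 0 ≤ c)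
    (hQ : ((QSet g n π π' d).ncard : ℝ) ≤ (Nat.card F : ℝ) ^ (eG d + eB n d) * c) :
    ((SSet w g n π π' d).ncard : ℝ) ≤ ((BoxW w g n).ncard : ℝ) *
      (Nat.card F : ℝ) ^ ((2 * g + 1) * (g + 2)) * c *
      ((Nat.card F : ℝ) ^ (-(1 / (g : ℝ)))) ^ (d 0).toNat := by
  set q : ℝ := (Nat.card F : ℝ) with hq
  have hq1 : 1 < q := by
    rw [hq]
    exact_mod_cast Finite.one_lt_card
  have hq0 : 0 < q := by linarith
  have h1 := orbit_bound (n := n) hg hwm hwd hwi π π' hd.anti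
  rw [card_Ud hd.anti] at h1
  have h2 : ((SSet w g n π π' d).ncard : ℝ) * q ^ eU d ≤ (QSet g n π π' d).ncard := by
    rw [hq]
    exact_mod_cast h1
  have h3 := bc_exp hq1 hg hd
  have h4 : ((BoxW w g n).ncard : ℝ) = q ^ (n * ((g + 1) * (2 * g + 1))) := by
    rw [card_BoxW, hq]
    push_cast
    rfl
  rw [h4]
  have h5 : 0 < q ^ eU d := pow_pos hq0 _
  have h6 := mul_le_mul_of_nonneg_right h3 hc
  have h7 : ((SSet w g n π π' d).ncard : ℝ) * q ^ eU d ≤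
      (q ^ (n * ((g + 1) * (2 * g + 1))) * q ^ ((2 * g + 1) * (g + 2)) * c *
      (q ^ (-(1 / (g : ℝ)))) ^ (d 0).toNat) * q ^ eU d := by
    refine (h2.trans (hQ.trans h6)).trans (le_of_eq ?_)
    ring
  exact le_of_mul_le_mul_right h7 h5

theorem bad_count (F : Type*) [Field F] [Finite F] (h2 : (2 : F) ≠ 0) {g : ℕ} (hg : 1 ≤ g) :
    ∃ M : ℝ, 0 < M ∧ ∃ Q₀ : ℕ, ∀ (k D : ℕ) (π π' : Fin k → F[X]), Places k D π π' →
      Q₀ ≤ Nat.card F ^ D → 0 < rho g π π' → ∀ w : F[X], w.Monic → w.natDegree = 2 * g + 1 →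
      Irreducible w → ∃ n₀ : ℕ, ∀ n, n₀ ≤ n →
        ({f | f ∈ BoxW w g n ∧ Reg f ∧ LocOK g π π' f ∧ BadStrict g π f}.ncard : ℝ) ≤
          M * (3 / 4) ^ k * rho g π π' * (BoxW w g n).ncard := by
  classical
  have hq1 : (1 : ℝ) < (Nat.card F : ℝ) := by exact_mod_cast Finite.one_lt_card
  have hq0 : (0 : ℝ) < (Nat.card F : ℝ) := by linarith
  have hg0 : (0 : ℝ) < g := by exact_mod_cast hg
  obtain ⟨Q₀, hQ₀⟩ := bc_Q0 g
  have hr0 : 0 < (Nat.card F : ℝ) ^ (-(1 / (g : ℝ))) := Real.rpow_pos_of_pos hq0 _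
  have hr1 : (Nat.card F : ℝ) ^ (-(1 / (g : ℝ))) < 1 := by
    apply Real.rpow_lt_one_of_one_lt_of_neg hq1
    have : 0 < 1 / (g : ℝ) := by positivity
    linarith
  have hsum := summable_types g hr0.le hr1
  set fn : {d : Fin (2 * g + 1) → ℤ // Antitone d ∧ ∀ i, d i + d i.rev = 0} → ℝ :=
    fun d => ((Nat.card F : ℝ) ^ (-(1 / (g : ℝ)))) ^ (d.1 0).toNat with hfn
  have hfn0 : ∀ d, 0 ≤ fn d := fun d => pow_nonneg hr0.le _
  set S : ℝ := ∑' d, fn d with hS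
  have hS0 : 0 ≤ S := tsum_nonneg hfn0
  set K₀ : ℝ := (Nat.card F : ℝ) ^ ((2 * g + 1) * (g + 2)) with hK
  have hK0 : 0 < K₀ := pow_pos hq0 _
  refine ⟨K₀ * (S + 1), by positivity, Q₀, ?_⟩
  intro k D π π' hpl hQD hrho w hwm hwd hwi
  have hε : 0 < rho g π π' * (3 / 4) ^ k := by positivity
  set ε : ℝ := rho g π π' * (3 / 4) ^ k with hεdef
  obtain ⟨s, hs⟩ := hsum.vanishing (Iio_mem_nhds hε)
  refine ⟨1 + 2 * k * D + ∑ d ∈ s, 2 * (d.1 0).toNat, fun n hn => ?_⟩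
  have hn1 : 1 ≤ n := by omega
  have hT : {d : {d : Fin (2 * g + 1) → ℤ // Antitone d ∧ ∀ i, d i + d i.rev = 0} |
      TypeOK g n d.1}.Finite := (finite_types g n).preimage Subtype.val_injective.injOn
  set T := hT.toFinset with hTdef
  have hTm : ∀ d, d ∈ T ↔ TypeOK g n d.1 := by
    intro d
    rw [hTdef, Set.Finite.mem_toFinset]
    rfl
  have hsub : {f | f ∈ BoxW w g n ∧ Reg f ∧ LocOK g π π' f ∧ BadStrict g π f} ⊆
      ⋃ d ∈ T, SSet w g n π π' d.1 := by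
    rintro f ⟨hf, hR, hL, hB⟩
    obtain ⟨d, hd, hfd⟩ := bc_sset h2 hg hn1 hwm hwd hwi hpl hf hR hL hB
    rw [Set.mem_iUnion₂]
    exact ⟨⟨d, hd.anti, hd.symm⟩, (hTm _).2 hd, hfd⟩
  have hfin : (⋃ d ∈ T, SSet w g n π π' d.1).Finite := by
    apply (finite_Box (F := F) g n).subset
    intro f hf
    rw [Set.mem_iUnion₂] at hf
    obtain ⟨d, -, hfd⟩ := hf
    exact hfd.1.1
  have hcard : ({f | f ∈ BoxW w g n ∧ Reg f ∧ LocOK g π π' f ∧ BadStrict g π f}.ncard : ℝ) ≤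
      ∑ d ∈ T, ((SSet w g n π π' d.1).ncard : ℝ) := by
    have h1 := (Set.ncard_le_ncard hsub hfin).trans (Finset.set_ncard_biUnion_le T _)
    exact_mod_cast h1
  set Bx : ℝ := ((BoxW w g n).ncard : ℝ) with hBx
  have hBx0 : 0 ≤ Bx := Nat.cast_nonneg _
  have hmain : ∀ d ∈ T, ((2 * k * D : ℕ) : ℤ) ≤ n + 1 - 2 * d.1 0 →
      ((SSet w g n π π' d.1).ncard : ℝ) ≤ Bx * K₀ * ε * fn d := by
    intro d hd hD
    have hd' := (hTm d).1 hd
    have h1 := bc_main h2 hg hpl hd'.anti hD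
    have h3 : (1 / 2 * (1 + 3 / ((Nat.card F ^ D : ℕ) : ℝ)) ^ (4 * g)) ^ k * rho g π π' ≤ ε := by
      rw [hεdef, mul_comm (rho g π π')]
      apply mul_le_mul_of_nonneg_right _ hrho.le
      apply pow_le_pow_left₀ (by positivity)
      exact hQ₀ _ hQD
    exact bc_one hg hwm hwd hwi hd' ε hε.le
      (h1.trans (mul_le_mul_of_nonneg_left h3 (by positivity)))
  have hother : ∀ d ∈ T, ((SSet w g n π π' d.1).ncard : ℝ) ≤ Bx * K₀ * 1 * fn d := by
    intro d hd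
    have h1 := bc_QSet_le g n π π' d.1
    exact bc_one hg hwm hwd hwi ((hTm d).1 hd) 1 zero_le_one (by rw [mul_one]; exact h1)
  refine hcard.trans ?_
  rw [← Finset.sum_filter_add_sum_filter_not T
    (fun d => ((2 * k * D : ℕ) : ℤ) ≤ n + 1 - 2 * d.1 0)]
  have hA : ∑ d ∈ T.filter (fun d => ((2 * k * D : ℕ) : ℤ) ≤ n + 1 - 2 * d.1 0),
      ((SSet w g n π π' d.1).ncard : ℝ) ≤ Bx * K₀ * ε * S := by
    calc ∑ d ∈ T.filter (fun d => ((2 * k * D : ℕ) : ℤ) ≤ n + 1 - 2 * d.1 0),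
          ((SSet w g n π π' d.1).ncard : ℝ)
        ≤ ∑ d ∈ T.filter (fun d => ((2 * k * D : ℕ) : ℤ) ≤ n + 1 - 2 * d.1 0),
          Bx * K₀ * ε * fn d := by
          apply Finset.sum_le_sum
          intro d hd
          rw [Finset.mem_filter] at hd
          exact hmain d hd.1 hd.2
      _ = Bx * K₀ * ε * ∑ d ∈ T.filter (fun d => ((2 * k * D : ℕ) : ℤ) ≤ n + 1 - 2 * d.1 0),
          fn d := by rw [Finset.mul_sum]
      _ ≤ Bx * K₀ * ε * S := by
          apply mul_le_mul_of_nonneg_left _ (by positivity)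
          exact hsum.sum_le_tsum _ (fun d _ => hfn0 d)
  have hC : ∑ d ∈ T.filter (fun d => ¬ ((2 * k * D : ℕ) : ℤ) ≤ n + 1 - 2 * d.1 0),
      ((SSet w g n π π' d.1).ncard : ℝ) ≤ Bx * K₀ * ε := by
    have hdis : Disjoint (T.filter (fun d => ¬ ((2 * k * D : ℕ) : ℤ) ≤ n + 1 - 2 * d.1 0)) s := by
      rw [Finset.disjoint_left]
      intro d hd hds
      rw [Finset.mem_filter] at hd
      apply hd.2
      have h1 : 2 * (d.1 0).toNat ≤ ∑ d ∈ s, 2 * (d.1 0).toNat :=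
        Finset.single_le_sum (f := fun d : {d : Fin (2 * g + 1) → ℤ // Antitone d ∧
          ∀ i, d i + d i.rev = 0} => 2 * (d.1 0).toNat) (fun _ _ => Nat.zero_le _) hds
      have h3 : (((d.1 0).toNat : ℕ) : ℤ) = d.1 0 :=
        Int.toNat_of_nonneg ((hTm d).1 hd.1).nonneg
      rw [← h3]
      have h4 : 1 + 2 * k * D + 2 * (d.1 0).toNat ≤ n := by omega
      have h5 : ((1 + 2 * k * D + 2 * (d.1 0).toNat : ℕ) : ℤ) ≤ (n : ℤ) := by exact_mod_cast h4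
      push_cast at h5 ⊢
      linarith
    have h6 := hs _ hdis
    rw [Set.mem_Iio] at h6
    calc ∑ d ∈ T.filter (fun d => ¬ ((2 * k * D : ℕ) : ℤ) ≤ n + 1 - 2 * d.1 0),
          ((SSet w g n π π' d.1).ncard : ℝ)
        ≤ ∑ d ∈ T.filter (fun d => ¬ ((2 * k * D : ℕ) : ℤ) ≤ n + 1 - 2 * d.1 0),
          Bx * K₀ * 1 * fn d := by
          apply Finset.sum_le_sum
          intro d hd
          rw [Finset.mem_filter] at hd
          exact hother d hd.1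
      _ = Bx * K₀ * 1 * ∑ d ∈ T.filter (fun d => ¬ ((2 * k * D : ℕ) : ℤ) ≤ n + 1 - 2 * d.1 0),
          fn d := by rw [Finset.mul_sum]
      _ ≤ Bx * K₀ * 1 * ε := by
          apply mul_le_mul_of_nonneg_left h6.le (by positivity)
      _ = Bx * K₀ * ε := by ring
  refine (add_le_add hA hC).trans (le_of_eq ?_)
  rw [hεdef]
  ring

end Pool.Agent.Helper96.PS
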