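import Mathlib

/-!
# PS-T2: a coordinate basis of a subspace of `F_2^k`

`V ⊆ F_2^k` a subgroup (`Fin k → ZMod 2`). There is `I ⊆ Fin k` such that the restriction `V → F_2^I` is bijective.
Proof. The coordinate functionals `x_i` restricted to `V` span the dual `V^*`; choose `I` with `(x_i|V)_{i ∈ I}` a basis of `V^*`. Or: induction on `k`, or take a
maximal `I` with `V → F_2^I` onto and show injectivity: if `v ∈ V` is nonzero with `v|_I = 0`, `v_j = 1`, then `V → F_2^{I ∪ {j}}` is onto.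
-/

namespace Pool.Agent.Helper96.PS

theorem exists_coord_basis {k : ℕ} (V : AddSubgroup (Fin k → ZMod 2)) :
    ∃ I : Finset (Fin k), (∀ v ∈ V, (∀ i ∈ I, v i = 0) → v = 0) ∧
      ∀ c : Fin k → ZMod 2, ∃ v ∈ V, ∀ i ∈ I, v i = c i := by
  classical
  obtain ⟨I, hI, hmax⟩ := Finset.exists_max_image
    (Finset.univ.filter (fun I : Finset (Fin k) =>
      ∀ c : Fin k → ZMod 2, ∃ v ∈ V, ∀ i ∈ I, v i = c i)) Finset.card
    ⟨∅, by
      rw [Finset.mem_filter]
      exact ⟨Finset.mem_univ _, fun c => ⟨0, V.zero_mem, by simp⟩⟩⟩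
  rw [Finset.mem_filter] at hI
  refine ⟨I, ?_, hI.2⟩
  intro v hv hvI
  by_contra hne
  obtain ⟨j, hj⟩ : ∃ j, v j ≠ 0 := by
    by_contra h
    push Not at h
    exact hne (funext h)
  have h2 : ∀ x : ZMod 2, x ≠ 0 → x = 1 := by decide
  have hj1 : v j = 1 := h2 _ hj
  have hjI : j ∉ I := fun h => hj (hvI j h)
  have h3 := hmax (insert j I) (by
    rw [Finset.mem_filter]
    refine ⟨Finset.mem_univ _, fun c => ?_⟩
    obtain ⟨w, hw, hwI⟩ := hI.2 c
    by_cases hwj : w j = c j
    · refine ⟨w, hw, fun i hi => ?_⟩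
      rcases Finset.mem_insert.1 hi with rfl | hi
      · exact hwj
      · exact hwI i hi
    · refine ⟨w + v, V.add_mem hw hv, fun i hi => ?_⟩
      rcases Finset.mem_insert.1 hi with rfl | hi
      · have h4 : ∀ a b : ZMod 2, a ≠ b → a + 1 = b := by decide
        rw [Pi.add_apply, hj1]
        exact h4 _ _ hwj
      · rw [Pi.add_apply, hwI i hi, hvI i hi, add_zero])
  rw [Finset.card_insert_of_notMem hjI] at h3
  omega

end Pool.Agent.Helper96.PS
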