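import Pool.Agent.Helper96.PS.Defs

/-!
# PS-A8b: a gap `d_i - d_{i+1} > n` makes `f` reducible

`d` antitone with `d_i + d_{rev i} = 0`, `G, B` with `G_ij = 0` if `d_i + d_j > 0`, `B_ij = 0` if `d_i + d_j > n`. Let `d_i - d_{i+1} > n` (`i, i+1 < N`, `N = 2g+1`),
`k = i + 1` (number of rows `≤ i`). `d_{i+1} = - d_{rev (i+1)}`, `rev(i+1) = N - 2 - i = N - k - 1`, so `d_i + d_{N-k-1} > n ≥ 0` and for all rows `r ≤ i` and columns
`c ≤ N - k - 1` (that is `N - k` columns): `d_r + d_c ≥ d_i + d_{N-k-1} > n`, so `G_rc = B_rc = 0`. So `M = X G - B` has a zero block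
`k × (N - k)` in the upper left corner: with `M = [[0, P], [Q, *]]`, `P` of size `k × k`, `Q` of size `(N-k) × (N-k)`: `det M = ± det P det Q` (reorder the columns:
`Matrix.det_fromBlocks_zero₂₁` etc.). `det P` has degree `≤ k` in `X`, `det Q` degree `≤ N - k`. The product is `± det G · f`, with `det G` a unit,
`f` monic irreducible of degree `N`: `f` divides (up to a unit) `det P` or `det Q`, which are `≠ 0` and have degree `< N`: contradiction. (`natDegree` of a determinant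
of a matrix of linear polynomials: `Polynomial.natDegree_det_X_add_C_le` in Mathlib.)
-/

namespace Pool.Agent.Helper96.PS

open Polynomial

variable {F : Type*} [Field F] {g n : ℕ} {f : F[X][X]}

/-- A matrix with a zero block: the determinant is a product. -/
private theorem det_zero_block {R n m₁ m₂ : Type*} [CommRing R] [Fintype n] [DecidableEq n]
    [Fintype m₁] [DecidableEq m₁] [Fintype m₂] [DecidableEq m₂] (e₁ e₂ : m₁ ⊕ m₂ ≃ n)
    (M : Matrix n n R) (h : ∀ a b, M (e₁ (Sum.inl a)) (e₂ (Sum.inr b)) = 0) :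
    M.det ∣ (M.submatrix (e₁ ∘ Sum.inl) (e₂ ∘ Sum.inl)).det *
      (M.submatrix (e₁ ∘ Sum.inr) (e₂ ∘ Sum.inr)).det ∧
    (M.submatrix (e₁ ∘ Sum.inl) (e₂ ∘ Sum.inl)).det *
      (M.submatrix (e₁ ∘ Sum.inr) (e₂ ∘ Sum.inr)).det ∣ M.det := by
  have h1 : M.submatrix e₁ e₂ = Matrix.fromBlocks (M.submatrix (e₁ ∘ Sum.inl) (e₂ ∘ Sum.inl)) 0
      (M.submatrix (e₁ ∘ Sum.inr) (e₂ ∘ Sum.inl)) (M.submatrix (e₁ ∘ Sum.inr) (e₂ ∘ Sum.inr)) := by
    ext a b
    rcases a with a | a <;> rcases b with b | b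
    · rfl
    · exact h a b
    · rfl
    · rfl
  have h2 : M.submatrix e₁ e₂ = (M.submatrix e₁ e₁).submatrix id (e₂.trans e₁.symm) := by
    ext a b
    simp
  have h3 : (M.submatrix e₁ e₂).det = Equiv.Perm.sign (e₂.trans e₁.symm) * M.det := by
    rw [h2, Matrix.det_permute', Matrix.det_submatrix_equiv_self]
  have h4 := h3
  rw [h1, Matrix.det_fromBlocks_zero₁₂] at h4
  rw [h4]
  have hu : IsUnit (((Equiv.Perm.sign (e₂.trans e₁.symm) : ℤˣ) : ℤ) : R) :=
    ((Equiv.Perm.sign (e₂.trans e₁.symm)).isUnit).map (Int.castRingHom R)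
  exact ⟨Dvd.intro_left _ rfl, (hu.mul_left_dvd).2 dvd_rfl⟩

theorem false_of_gap {d : Fin (2 * g + 1) → ℤ} (anti : Antitone d) (symm : ∀ i, d i + d i.rev = 0)
    {G B : Matrix (Fin (2 * g + 1)) (Fin (2 * g + 1)) F[X]}
    (hG : ∀ i j, G i j ≠ 0 → ((G i j).natDegree : ℤ) ≤ - d i - d j)
    (hB : ∀ i j, B i j ≠ 0 → ((B i j).natDegree : ℤ) ≤ n - d i - d j)
    (hdet : IsUnit G.det) (hf : f.Monic) (hfd : f.natDegree = 2 * g + 1) (hirr : Irreducible f)
    (hcd : cdet G B = C G.det * f) {i j : Fin (2 * g + 1)} (hij : (j : ℕ) = i + 1)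
    (hgap : (n : ℤ) < d i - d j) : False := by
  obtain ⟨k, hk⟩ : ∃ k, k = (j : ℕ) := ⟨_, rfl⟩
  have hjN := j.isLt
  obtain ⟨l, hl⟩ : ∃ l, k + l = 2 * g + 1 := ⟨2 * g + 1 - k, by omega⟩
  have hl' : l + k = 2 * g + 1 := by omega
  have hl0 : 0 < l := by omega
  have hk0 : 0 < k := by omega
  -- the zero block
  have hz : ∀ r c : Fin (2 * g + 1), (r : ℕ) < k → (c : ℕ) < l → G r c = 0 ∧ B r c = 0 := by
    intro r c hr hc
    have h1 : d i ≤ d r := anti (by rw [Fin.le_def]; omega)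
    have h2 : d j.rev ≤ d c := anti (by rw [Fin.le_def, Fin.val_rev]; omega)
    have h3 := symm j
    have h4 : (n : ℤ) < d r + d c := by omega
    constructor
    · by_contra h0
      have h5 := hG r c h0
      omega
    · by_contra h0
      have h5 := hB r c h0
      omega
  let e₁ : Fin k ⊕ Fin l ≃ Fin (2 * g + 1) := finSumFinEquiv.trans (finCongr hl)
  let e₂ : Fin k ⊕ Fin l ≃ Fin (2 * g + 1) :=
    (Equiv.sumComm _ _).trans (finSumFinEquiv.trans (finCongr hl'))
  have hM : ∀ a b, ((X : F[X][X]) • G.map C - B.map C) (e₁ (Sum.inl a)) (e₂ (Sum.inr b)) = 0 := by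
    intro a b
    have h1 : ((e₁ (Sum.inl a) : Fin (2 * g + 1)) : ℕ) < k := by
      simp [e₁]
    have h2 : ((e₂ (Sum.inr b) : Fin (2 * g + 1)) : ℕ) < l := by
      simp [e₂]
    obtain ⟨h3, h4⟩ := hz _ _ h1 h2
    rw [Matrix.sub_apply, Matrix.smul_apply, Matrix.map_apply, Matrix.map_apply, h3, h4]
    simp
  have hdvd := det_zero_block e₁ e₂ _ hM
  have hcd' : ((X : F[X][X]) • G.map C - B.map C).det = C G.det * f := hcd
  rw [hcd'] at hdvd
  have hne : C G.det * f ≠ 0 := by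
    refine mul_ne_zero ?_ hf.ne_zero
    rw [Ne, C_eq_zero]
    exact hdet.ne_zero
  have hprod : (((X : F[X][X]) • G.map C - B.map C).submatrix (e₁ ∘ Sum.inl)
      (e₂ ∘ Sum.inl)).det * (((X : F[X][X]) • G.map C - B.map C).submatrix (e₁ ∘ Sum.inr)
      (e₂ ∘ Sum.inr)).det ≠ 0 := by
    intro h0
    rw [h0] at hdvd
    exact hne (zero_dvd_iff.1 hdvd.2)
  -- degrees
  have hdeg : ∀ {m : Type} [Fintype m] [DecidableEq m] (u v : m → Fin (2 * g + 1)),
      (((X : F[X][X]) • G.map C - B.map C).submatrix u v).det.natDegree ≤ Fintype.card m := by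
    intro m _ _ u v
    have h1 : ((X : F[X][X]) • G.map C - B.map C).submatrix u v =
        (X : F[X][X]) • (G.submatrix u v).map C + (-(B.submatrix u v)).map C := by
      ext a b : 2
      simp [Matrix.add_apply, sub_eq_add_neg]
    rw [h1]
    exact natDegree_det_X_add_C_le _ _
  have hfd1 : f ∣ (((X : F[X][X]) • G.map C - B.map C).submatrix (e₁ ∘ Sum.inl)
      (e₂ ∘ Sum.inl)).det * (((X : F[X][X]) • G.map C - B.map C).submatrix (e₁ ∘ Sum.inr)
      (e₂ ∘ Sum.inr)).det := (Dvd.intro_left _ rfl).trans hdvd.1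
  rcases hirr.prime.dvd_or_dvd hfd1 with h | h
  · have h1 := natDegree_le_of_dvd h (left_ne_zero_of_mul hprod)
    have h2 := h1.trans (hdeg _ _)
    rw [hfd, Fintype.card_fin] at h2
    omega
  · have h1 := natDegree_le_of_dvd h (right_ne_zero_of_mul hprod)
    have h2 := h1.trans (hdeg _ _)
    rw [hfd, Fintype.card_fin] at h2
    omega

end Pool.Agent.Helper96.PS
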