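import Pool.Agent.Helper96.PS.Defs

/-!
# PS-B2-B4: cardinalities

`q = #F`. Polynomials of degree `≤ b` (`b : ℤ`; only `0` if `b < 0`): `q^{(b+1)⁺}`.
* `Ud`: the entries `i < j` are free with `deg ≤ d_i - d_j ≥ 0`.
* symmetric matrices with `deg M_ij ≤ b_ij = b_ji`: the entries `i ≤ j` are free.
* `PSet ⊆` pairs of symmetric matrices with bounds `-d_i - d_j` and `n - d_i - d_j`.
* `BoxW`: the coefficient of `x^j` (`j ≤ 2g`) has degree `≤ (N-j) n` with prescribed coefficient of `t^{(N-j)n}`: `q^{(N-j)n}` choices; `∑_{j<N} (N-j) n = n N(N+1)/2 = n (g+1)(2g+1)`. `Box`: `q^{(N-j)n + 1}`.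
  (`w` monic of degree `N`; a polynomial `f` is determined by its coefficients.)
All sets are finite.
-/

namespace Pool.Agent.Helper96.PS

open Polynomial

variable {F : Type*} [Field F] {g n : ℕ} {w : F[X]}

private theorem ncard_degLT [Finite F] (m : ℕ) :
    {p : F[X] | p.degree < (m : WithBot ℕ)}.ncard = Nat.card F ^ m := by
  have h : {p : F[X] | p.degree < (m : WithBot ℕ)} = (degreeLT F m : Set F[X]) := by
    ext p
    rw [Set.mem_ofPred_eq, SetLike.mem_coe, mem_degreeLT]
  rw [h, ← Nat.card_coe_set_eq]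
  have h1 := Nat.card_congr (degreeLTEquiv F m).toEquiv
  rw [Nat.card_fun, Nat.card_fin] at h1
  exact h1

private theorem finite_degLT [Finite F] (m : ℕ) :
    {p : F[X] | p.degree < (m : WithBot ℕ)}.Finite := by
  apply Set.finite_of_ncard_ne_zero
  rw [ncard_degLT]
  exact pow_ne_zero _ Nat.card_pos.ne'

/-- polynomials of degree at most the integer `b` -/
private def DI (F : Type*) [Field F] (b : ℤ) : Set F[X] := {p | p ≠ 0 → (p.natDegree : ℤ) ≤ b}

omit [Field F] in
private theorem DI_eq [Field F] (b : ℤ) :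
    DI F b = {p : F[X] | p.degree < ((b + 1).toNat : WithBot ℕ)} := by
  ext p
  rw [DI, Set.mem_ofPred_eq, Set.mem_ofPred_eq]
  rcases eq_or_ne p 0 with rfl | hp
  · rw [degree_zero]
    exact ⟨fun _ => WithBot.bot_lt_coe _, fun _ h => absurd rfl h⟩
  · rw [degree_eq_natDegree hp, Nat.cast_lt, Int.lt_toNat, Int.lt_add_one_iff]
    exact ⟨fun h => h hp, fun h _ => h⟩

private theorem ncard_DI [Finite F] (b : ℤ) : (DI F b).ncard = Nat.card F ^ (b + 1).toNat := by
  rw [DI_eq, ncard_degLT]

private theorem finite_DI [Finite F] (b : ℤ) : (DI F b).Finite := by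
  rw [DI_eq]
  exact finite_degLT _

private theorem zero_mem_DI (b : ℤ) : (0 : F[X]) ∈ DI F b := fun h => absurd rfl h

private theorem card_pi_aux [Finite F] {N : ℕ} (s : Fin N → Finset (Fin N))
    (b : Fin N → Fin N → ℤ) :
    Nat.card (∀ i : Fin N, ∀ j : s i, DI F (b i j)) =
      Nat.card F ^ (∑ i, ∑ j ∈ s i, (b i j + 1).toNat) := by
  rw [Nat.card_pi, ← Finset.prod_pow_eq_pow_sum]
  refine Finset.prod_congr rfl fun i _ => ?_
  rw [Nat.card_pi, ← Finset.prod_pow_eq_pow_sum, ← Finset.prod_coe_sort (s i)]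
  refine Finset.prod_congr rfl fun j _ => ?_
  rw [Nat.card_coe_set_eq, ncard_DI]

theorem card_Ud [Finite F] {N : ℕ} {d : Fin N → ℤ} (hd : Antitone d) :
    (Ud F d).ncard = Nat.card F ^ eU d := by
  classical
  have e : Ud F d ≃ ∀ i : Fin N, ∀ j : Finset.Ioi i, DI F (d i - d j) :=
    { toFun := fun u i j => ⟨u.1 i j, fun h => u.2.2.2 i j (Finset.mem_Ioi.1 j.2) h⟩
      invFun := fun c => ⟨Matrix.of fun i j =>
        if h : i < j then (c i ⟨j, Finset.mem_Ioi.2 h⟩).1 else if i = j then 1 else 0, by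
          refine ⟨fun i => ?_, fun i j hij => ?_, fun i j hij => ?_⟩
          · rw [Matrix.of_apply, dif_neg (lt_irrefl i), if_pos rfl]
          · rw [Matrix.of_apply, dif_neg hij.not_gt, if_neg hij.ne']
          · rw [Matrix.of_apply, dif_pos hij]
            exact (c i ⟨j, Finset.mem_Ioi.2 hij⟩).2⟩
      left_inv := by
        rintro ⟨u, hu⟩
        apply Subtype.ext
        ext1 i j
        show (if h : i < j then u i j else if i = j then 1 else 0) = u i j
        by_cases h : i < j
        · rw [dif_pos h]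
        · rw [dif_neg h]
          by_cases h' : i = j
          · subst h'
            rw [if_pos rfl]
            exact (hu.1 i).symm
          · rw [if_neg h']
            exact (hu.2.1 i j (lt_of_le_of_ne (not_lt.1 h) (Ne.symm h'))).symm
      right_inv := by
        intro c
        funext i j
        apply Subtype.ext
        show dite (i < j) _ _ = _
        rw [dif_pos (Finset.mem_Ioi.1 j.2)] }
  rw [← Nat.card_coe_set_eq, Nat.card_congr e, card_pi_aux (fun i => Finset.Ioi i)
    (fun i j => d i - d j), eU]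

theorem card_symm [Finite F] {N : ℕ} (b : Fin N → Fin N → ℤ) (hb : ∀ i j, b i j = b j i) :
    {M : Matrix (Fin N) (Fin N) F[X] | M.IsSymm ∧
      ∀ i j, M i j ≠ 0 → ((M i j).natDegree : ℤ) ≤ b i j}.ncard =
      Nat.card F ^ (∑ i, ∑ j ∈ Finset.Ici i, (b i j + 1).toNat) := by
  classical
  have e : {M : Matrix (Fin N) (Fin N) F[X] | M.IsSymm ∧
      ∀ i j, M i j ≠ 0 → ((M i j).natDegree : ℤ) ≤ b i j} ≃
      ∀ i : Fin N, ∀ j : Finset.Ici i, DI F (b i j) :=
    { toFun := fun u i j => ⟨u.1 i j, u.2.2 i j⟩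
      invFun := fun c => ⟨Matrix.of fun i j =>
        if h : i ≤ j then (c i ⟨j, Finset.mem_Ici.2 h⟩).1 else
          (c j ⟨i, Finset.mem_Ici.2 (le_of_not_ge h)⟩).1, by
          refine ⟨?_, fun i j => ?_⟩
          · apply Matrix.IsSymm.ext
            intro i j
            rw [Matrix.of_apply, Matrix.of_apply]
            rcases lt_trichotomy i j with h | h | h
            · rw [dif_neg h.not_ge, dif_pos h.le]
            · subst h
              rfl
            · rw [dif_pos h.le, dif_neg h.not_ge]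
          · rw [Matrix.of_apply]
            by_cases h : i ≤ j
            · rw [dif_pos h]
              exact (c i ⟨j, Finset.mem_Ici.2 h⟩).2
            · rw [dif_neg h]
              intro h2
              rw [hb i j]
              exact (c j ⟨i, Finset.mem_Ici.2 (le_of_not_ge h)⟩).2 h2⟩
      left_inv := by
        rintro ⟨u, hu⟩
        apply Subtype.ext
        ext1 i j
        show (if h : i ≤ j then u i j else u j i) = u i j
        by_cases h : i ≤ j
        · rw [dif_pos h]
        · rw [dif_neg h]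
          exact hu.1.apply i j
      right_inv := by
        intro c
        funext i j
        apply Subtype.ext
        show dite (i ≤ j) _ _ = _
        rw [dif_pos (Finset.mem_Ici.1 j.2)] }
  rw [← Nat.card_coe_set_eq, Nat.card_congr e, card_pi_aux (fun i => Finset.Ici i) b]

private theorem finite_symm [Finite F] {N : ℕ} (b : Fin N → Fin N → ℤ)
    (hb : ∀ i j, b i j = b j i) :
    {M : Matrix (Fin N) (Fin N) F[X] | M.IsSymm ∧
      ∀ i j, M i j ≠ 0 → ((M i j).natDegree : ℤ) ≤ b i j}.Finite := by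
  apply Set.finite_of_ncard_ne_zero
  rw [card_symm b hb]
  exact pow_ne_zero _ Nat.card_pos.ne'

private theorem PSet_subset (g n : ℕ) (d : Fin (2 * g + 1) → ℤ) : PSet F g n d ⊆
    {M : Matrix (Fin (2 * g + 1)) (Fin (2 * g + 1)) F[X] | M.IsSymm ∧
      ∀ i j, M i j ≠ 0 → ((M i j).natDegree : ℤ) ≤ (fun i j => - d i - d j) i j} ×ˢ
    {M : Matrix (Fin (2 * g + 1)) (Fin (2 * g + 1)) F[X] | M.IsSymm ∧
      ∀ i j, M i j ≠ 0 → ((M i j).natDegree : ℤ) ≤ (fun i j => n - d i - d j) i j} :=
  fun _ hp => ⟨⟨hp.1, hp.2.2.2.1⟩, ⟨hp.2.1, hp.2.2.2.2⟩⟩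

theorem finite_PSet [Finite F] (g n : ℕ) (d : Fin (2 * g + 1) → ℤ) : (PSet F g n d).Finite := by
  refine Set.Finite.subset (Set.Finite.prod (finite_symm _ ?_) (finite_symm _ ?_))
    (PSet_subset g n d)
  · intro i j
    ring
  · intro i j
    ring

theorem card_PSet_le [Finite F] (g n : ℕ) (d : Fin (2 * g + 1) → ℤ) :
    (PSet F g n d).ncard ≤ Nat.card F ^ (eG d + eB n d) := by
  have h1 : ∀ i j, (fun i j : Fin (2 * g + 1) => - d i - d j) i j =
      (fun i j : Fin (2 * g + 1) => - d i - d j) j i := fun i j => by ring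
  have h2 : ∀ i j, (fun i j : Fin (2 * g + 1) => (n : ℤ) - d i - d j) i j =
      (fun i j : Fin (2 * g + 1) => (n : ℤ) - d i - d j) j i := fun i j => by ring
  refine (Set.ncard_le_ncard (PSet_subset g n d)
    (Set.Finite.prod (finite_symm _ h1) (finite_symm _ h2))).trans ?_
  rw [Set.ncard_prod, card_symm _ h1, card_symm _ h2, ← pow_add]
  apply le_of_eq
  congr 1
  rw [eG, eB]
  congr 1
  · refine Finset.sum_congr rfl fun i _ => Finset.sum_congr rfl fun j _ => ?_
    congr 1
    ring
  · refine Finset.sum_congr rfl fun i _ => Finset.sum_congr rfl fun j _ => ?_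
    congr 1
    ring

/-- monic polynomials of degree `N` with coefficients in given sets -/
private theorem card_monic (N : ℕ) (T : ℕ → Set F[X]) :
    {f : F[X][X] | f.Monic ∧ f.natDegree = N ∧ ∀ j, j < N → f.coeff j ∈ T j}.ncard =
      ∏ j : Fin N, (T j).ncard := by
  classical
  have hr : ∀ (c : Fin N → F[X]) (j : Fin N),
      ((degreeLTEquiv F[X] N).symm c : F[X][X]).coeff j = c j := by
    intro c j
    exact congrFun ((degreeLTEquiv F[X] N).apply_symm_apply c) j
  have hd : ∀ c : Fin N → F[X], ((degreeLTEquiv F[X] N).symm c : F[X][X]).degree < (N : ℕ) :=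
    fun c => mem_degreeLT.1 ((degreeLTEquiv F[X] N).symm c).2
  have hlt : ∀ (c : Fin N → F[X]) (j : ℕ) (hj : j < N),
      (X ^ N + ((degreeLTEquiv F[X] N).symm c : F[X][X])).coeff j = c ⟨j, hj⟩ := by
    intro c j hj
    rw [coeff_add, coeff_X_pow, if_neg hj.ne, zero_add]
    exact hr c ⟨j, hj⟩
  have hm : ∀ c : Fin N → F[X], (X ^ N + ((degreeLTEquiv F[X] N).symm c : F[X][X])).Monic :=
    fun c => monic_X_pow_add (hd c)
  have hn : ∀ c : Fin N → F[X],
      (X ^ N + ((degreeLTEquiv F[X] N).symm c : F[X][X])).natDegree = N := by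
    intro c
    apply natDegree_eq_of_degree_eq_some
    rw [degree_add_eq_left_of_degree_lt, degree_X_pow]
    rw [degree_X_pow]
    exact hd c
  have e : {f : F[X][X] | f.Monic ∧ f.natDegree = N ∧ ∀ j, j < N → f.coeff j ∈ T j} ≃
      ∀ j : Fin N, T j :=
    { toFun := fun f j => ⟨f.1.coeff j, f.2.2.2 j j.2⟩
      invFun := fun c => ⟨X ^ N + ((degreeLTEquiv F[X] N).symm fun j => (c j).1 : F[X][X]),
        hm _, hn _, fun j hj => by
          rw [hlt _ j hj]
          exact (c ⟨j, hj⟩).2⟩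
      left_inv := by
        rintro ⟨f, hf⟩
        apply Subtype.ext
        show X ^ N + ((degreeLTEquiv F[X] N).symm fun j => f.coeff j : F[X][X]) = f
        ext1 j
        rcases lt_trichotomy j N with h | h | h
        · rw [hlt _ j h]
        · subst h
          have h1 := (hm fun j => f.coeff j).coeff_natDegree
          rw [hn] at h1
          have h2 := hf.1.coeff_natDegree
          rw [hf.2.1] at h2
          rw [h1, h2]
        · rw [coeff_eq_zero_of_natDegree_lt (by rw [hn]; exact h),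
            coeff_eq_zero_of_natDegree_lt (by rw [hf.2.1]; exact h)]
      right_inv := by
        intro c
        funext j
        apply Subtype.ext
        show (X ^ N + ((degreeLTEquiv F[X] N).symm fun j => (c j).1 : F[X][X])).coeff j = _
        rw [hlt _ j j.2] }
  rw [← Nat.card_coe_set_eq, Nat.card_congr e, Nat.card_pi]
  refine Finset.prod_congr rfl fun j _ => ?_
  rw [Nat.card_coe_set_eq]

private theorem natDegree_le_eq (m : ℕ) : {p : F[X] | p.natDegree ≤ m} = DI F (m : ℤ) := by
  ext p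
  rw [DI, Set.mem_ofPred_eq, Set.mem_ofPred_eq, Nat.cast_le]
  refine ⟨fun h _ => h, fun h => ?_⟩
  rcases eq_or_ne p 0 with rfl | hp
  · rw [natDegree_zero]
    exact Nat.zero_le _
  · exact h hp

private theorem card_top [Finite F] (m : ℕ) (c : F) :
    {p : F[X] | p.natDegree ≤ m ∧ p.coeff m = c}.ncard = Nat.card F ^ m := by
  have h : {p : F[X] | p.natDegree ≤ m ∧ p.coeff m = c} =
      (fun r => r + C c * X ^ m) '' {r : F[X] | r.degree < (m : WithBot ℕ)} := by
    ext p
    constructor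
    · rintro ⟨h1, h2⟩
      refine ⟨p - C c * X ^ m, ?_, sub_add_cancel _ _⟩
      rw [Set.mem_ofPred_eq, degree_lt_iff_coeff_zero]
      intro k hk
      rw [coeff_sub, coeff_C_mul_X_pow]
      rcases hk.eq_or_lt with h3 | h3
      · rw [if_pos h3.symm, ← h3, h2, sub_self]
      · rw [if_neg h3.ne', coeff_eq_zero_of_natDegree_lt (h1.trans_lt h3), sub_zero]
    · rintro ⟨r, hr, rfl⟩
      rw [Set.mem_ofPred_eq] at hr
      refine ⟨?_, ?_⟩
      · exact natDegree_le_of_degree_le ((degree_add_le _ _).trans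
          (max_le hr.le (degree_C_mul_X_pow_le _ _)))
      · show (r + C c * X ^ m).coeff m = c
        rw [coeff_add, coeff_C_mul_X_pow, if_pos rfl, coeff_eq_zero_of_degree_lt hr, zero_add]
  rw [h, Set.ncard_image_of_injective _ (add_left_injective _), ncard_degLT]

private theorem sum_aux (n g : ℕ) : ∑ j : Fin (2 * g + 1), (2 * g + 1 - (j : ℕ)) * n =
    n * ((g + 1) * (2 * g + 1)) := by
  have h1 : ∀ N : ℕ, 2 * ∑ j ∈ Finset.range N, (j + 1) = N * (N + 1) := by
    intro N
    induction N with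
    | zero => rfl
    | succ N ih =>
      rw [Finset.sum_range_succ, mul_add, ih]
      ring
  rw [← Finset.sum_mul, Fin.sum_univ_eq_sum_range (fun j => 2 * g + 1 - j) (2 * g + 1)]
  have h2 : ∑ j ∈ Finset.range (2 * g + 1), (2 * g + 1 - j) =
      ∑ j ∈ Finset.range (2 * g + 1), (j + 1) := by
    rw [← Finset.sum_range_reflect (fun j => j + 1) (2 * g + 1)]
    refine Finset.sum_congr rfl fun j hj => ?_
    have := Finset.mem_range.1 hj
    omega
  have h3 : ∑ j ∈ Finset.range (2 * g + 1), (2 * g + 1 - j) = (g + 1) * (2 * g + 1) := by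
    have h4 := h1 (2 * g + 1)
    rw [← h2] at h4
    have h5 : (2 * g + 1) * (2 * g + 1 + 1) = 2 * ((g + 1) * (2 * g + 1)) := by ring
    omega
  rw [h3, mul_comm]

private theorem card_Box_aux [Finite F] (g n : ℕ) :
    (Box F g n).ncard = Nat.card F ^ (n * ((g + 1) * (2 * g + 1)) + (2 * g + 1)) := by
  have h : Box F g n = {f : F[X][X] | f.Monic ∧ f.natDegree = 2 * g + 1 ∧
      ∀ j, j < 2 * g + 1 → f.coeff j ∈ (fun j => {p : F[X] | p.natDegree ≤ (2 * g + 1 - j) * n}) j} := by
    ext f
    refine and_congr_right fun _ => and_congr_right fun _ => forall_congr' fun j => ?_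
    rw [Nat.lt_succ_iff]
    exact Iff.rfl
  rw [h, card_monic, ← sum_aux]
  have h1 : ∀ j : Fin (2 * g + 1), ((fun j : ℕ => {p : F[X] | p.natDegree ≤ (2 * g + 1 - j) * n}) j).ncard =
      Nat.card F ^ ((2 * g + 1 - (j : ℕ)) * n + 1) := by
    intro j
    show ({p : F[X] | p.natDegree ≤ (2 * g + 1 - (j : ℕ)) * n}).ncard = _
    rw [natDegree_le_eq, ncard_DI]
    congr 1
  rw [Finset.prod_congr rfl fun j _ => h1 j, Finset.prod_pow_eq_pow_sum, Finset.sum_add_distrib,
    Finset.sum_const, Finset.card_univ, Fintype.card_fin, smul_eq_mul, mul_one]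

theorem finite_Box [Finite F] (g n : ℕ) : (Box F g n).Finite := by
  apply Set.finite_of_ncard_ne_zero
  rw [card_Box_aux]
  exact pow_ne_zero _ Nat.card_pos.ne'

theorem card_Box [Finite F] (g n : ℕ) :
    (Box F g n).ncard = Nat.card F ^ (n * ((g + 1) * (2 * g + 1)) + (2 * g + 1)) :=
  card_Box_aux g n

theorem card_BoxW [Finite F] (w : F[X]) (g n : ℕ) :
    (BoxW w g n).ncard = Nat.card F ^ (n * ((g + 1) * (2 * g + 1))) := by
  have h : BoxW w g n = {f : F[X][X] | f.Monic ∧ f.natDegree = 2 * g + 1 ∧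
      ∀ j, j < 2 * g + 1 → f.coeff j ∈ (fun j => {p : F[X] | p.natDegree ≤ (2 * g + 1 - j) * n ∧
        p.coeff ((2 * g + 1 - j) * n) = w.coeff j}) j} := by
    ext f
    constructor
    · rintro ⟨⟨h1, h2, h3⟩, h4⟩
      exact ⟨h1, h2, fun j hj => ⟨h3 j (Nat.lt_succ_iff.1 hj), h4 j (Nat.lt_succ_iff.1 hj)⟩⟩
    · rintro ⟨h1, h2, h3⟩
      exact ⟨⟨h1, h2, fun j hj => (h3 j (Nat.lt_succ_iff.2 hj)).1⟩,
        fun j hj => (h3 j (Nat.lt_succ_iff.2 hj)).2⟩
  rw [h, card_monic, ← sum_aux]
  have h1 : ∀ j : Fin (2 * g + 1), ((fun j : ℕ => {p : F[X] | p.natDegree ≤ (2 * g + 1 - j) * n ∧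
      p.coeff ((2 * g + 1 - j) * n) = w.coeff j}) j).ncard =
      Nat.card F ^ ((2 * g + 1 - (j : ℕ)) * n) := fun j => card_top _ _
  rw [Finset.prod_congr rfl fun j _ => h1 j, Finset.prod_pow_eq_pow_sum]

end Pool.Agent.Helper96.PS
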