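import Pool.Agent.Helper96.PS.GramDeg

/-!
# PS-A9a: `det (X G - B) = det G · f`

`I² = (x)`, `e` a (reduced) basis of `I`, `G = gram x e e`, `B = gramT x e e`. Let `Θ` be the matrix of multiplication by `θ` on `I` in the
basis `e`: `θ e_j = ∑_k Θ_kj e_k`. Then `B_ij = τ(θ e_i e_j / x) = ∑_k τ(e_i e_k/x) Θ_kj = (G Θ)_ij`. So `X G - B = G (X - Θ)` and
`det (X G - B) = det G · charpoly Θ`. `charpoly Θ = f`: it is monic of degree `N = deg f`; by Cayley-Hamilton `charpoly(Θ)(θ)` kills `I`, so
`charpoly(Θ)(θ) = 0` in the domain `O` (`I ≠ 0`), i.e. `f ∣ charpoly Θ` in `A[X]`, and both are monic of the same degree. So equal.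
(`Algebra.linearMap_eq`/`LinearMap.aeval_self_charpoly`, `AdjoinRoot.mk_eq_zero`.)

Also for `b = ∑ c_j e_j`, the coordinates of `θ b` are `Θ c`, and mod `π` (or over any ring) `G⁻¹ B = Θ` as `G` is invertible.
-/

namespace Pool.Agent.Helper96.PS

open Polynomial

variable {F : Type*} [Field F] {g n : ℕ} {w : F[X]} {f : F[X][X]}

/-- The action of a matrix on the family `e`. -/
private noncomputable def act (e : Fin (2 * g + 1) → AdjoinRoot f)
    (M : Matrix (Fin (2 * g + 1)) (Fin (2 * g + 1)) F[X]) (j : Fin (2 * g + 1)) : AdjoinRoot f :=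
  ∑ k, AdjoinRoot.of f (M k j) * e k

private theorem act_add (e : Fin (2 * g + 1) → AdjoinRoot f)
    (M M' : Matrix (Fin (2 * g + 1)) (Fin (2 * g + 1)) F[X]) (j : Fin (2 * g + 1)) :
    act e (M + M') j = act e M j + act e M' j := by
  unfold act
  rw [← Finset.sum_add_distrib]
  refine Finset.sum_congr rfl fun k _ => ?_
  rw [Matrix.add_apply, map_add, add_mul]

private theorem act_root {e : Fin (2 * g + 1) → AdjoinRoot f}
    {T : Matrix (Fin (2 * g + 1)) (Fin (2 * g + 1)) F[X]}
    (hT : ∀ j, AdjoinRoot.root f * e j = ∑ k, AdjoinRoot.of f (T k j) * e k)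
    (M : Matrix (Fin (2 * g + 1)) (Fin (2 * g + 1)) F[X]) (j : Fin (2 * g + 1)) :
    AdjoinRoot.root f * act e M j = act e (T * M) j := by
  unfold act
  rw [Finset.mul_sum]
  have h1 : ∀ k, AdjoinRoot.root f * (AdjoinRoot.of f (M k j) * e k) =
      ∑ l, AdjoinRoot.of f (T l k) * AdjoinRoot.of f (M k j) * e l := by
    intro k
    rw [← mul_assoc, mul_comm (AdjoinRoot.root f), mul_assoc, hT, Finset.mul_sum]
    refine Finset.sum_congr rfl fun l _ => ?_
    ring
  rw [Finset.sum_congr rfl fun k _ => h1 k, Finset.sum_comm]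
  refine Finset.sum_congr rfl fun l _ => ?_
  rw [Matrix.mul_apply, map_sum, Finset.sum_mul]
  refine Finset.sum_congr rfl fun k _ => ?_
  rw [map_mul]

private theorem act_aeval {e : Fin (2 * g + 1) → AdjoinRoot f}
    {T : Matrix (Fin (2 * g + 1)) (Fin (2 * g + 1)) F[X]}
    (hT : ∀ j, AdjoinRoot.root f * e j = ∑ k, AdjoinRoot.of f (T k j) * e k)
    (p : F[X][X]) (j : Fin (2 * g + 1)) :
    AdjoinRoot.mk f p * e j = act e (aeval T p) j := by
  induction p using Polynomial.induction_on with
  | C a =>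
    rw [aeval_C, AdjoinRoot.mk_C]
    unfold act
    rw [Finset.sum_eq_single j]
    · rw [Matrix.algebraMap_matrix_apply, if_pos rfl]
      rfl
    · intro k _ hk
      rw [Matrix.algebraMap_matrix_apply, if_neg hk, map_zero, zero_mul]
    · intro hj
      exact absurd (Finset.mem_univ j) hj
  | add p q hp hq => rw [map_add, add_mul, hp, hq, map_add, act_add]
  | monomial m a ih =>
    have h1 : (C a * X ^ (m + 1) : F[X][X]) = X * (C a * X ^ m) := by
      rw [pow_succ]
      ring
    have h2 : aeval T (X * (C a * X ^ m) : F[X][X]) = T * aeval T (C a * X ^ m : F[X][X]) := by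
      rw [map_mul (aeval T) X, aeval_X]
    rw [h1, h2, map_mul (AdjoinRoot.mk f) X, AdjoinRoot.mk_X, mul_assoc, ih, act_root hT]

theorem exists_theta (h : Pre g n w f) {x : AdjoinRoot f} (hx : x ≠ 0) {I : Ideal (AdjoinRoot f)}
    (hI : I ^ 2 = Ideal.span {x}) {e : Fin (2 * g + 1) → AdjoinRoot f}
    {δ : Fin (2 * g + 1) → ℕ} (he : RBasis h.monic n I e δ) :
    ∃ T : Matrix (Fin (2 * g + 1)) (Fin (2 * g + 1)) F[X],
      (∀ j, AdjoinRoot.root f * e j = ∑ k, AdjoinRoot.of f (T k j) * e k) ∧
      gramT h.monic x e e = gram h.monic x e e * T ∧ T.charpoly = f := by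
  have hdom : IsDomain (AdjoinRoot f) := isDomain h
  have h1 : ∀ j, ∃ c : Fin (2 * g + 1) → F[X],
      AdjoinRoot.root f * e j = ∑ k, AdjoinRoot.of f (c k) * e k := fun j =>
    he.span _ (I.mul_mem_left _ (he.mem j))
  choose c hc using h1
  obtain ⟨T, hTc⟩ : ∃ T : Matrix (Fin (2 * g + 1)) (Fin (2 * g + 1)) F[X], ∀ k j, T k j = c j k :=
    ⟨Matrix.of fun k j => c j k, fun _ _ => rfl⟩
  have hT : ∀ j, AdjoinRoot.root f * e j = ∑ k, AdjoinRoot.of f (T k j) * e k := by
    intro j
    rw [hc j]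
    refine Finset.sum_congr rfl fun k _ => ?_
    rw [hTc]
  refine ⟨T, hT, ?_, ?_⟩
  · have hdvd : ∀ i j, x ∣ e i * e j := by
      intro i j
      rw [← Ideal.mem_span_singleton, ← hI, pow_two]
      exact Ideal.mul_mem_mul (he.mem i) (he.mem j)
    ext1 i j
    have h2 : AdjoinRoot.root f * dv x (e i * e j) =
        ∑ k, AdjoinRoot.of f (T k j) * dv x (e i * e k) := by
      apply mul_left_cancel₀ hx
      have h3 : x * (AdjoinRoot.root f * dv x (e i * e j)) = e i * (AdjoinRoot.root f * e j) := by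
        have h4 := mul_dv (hdvd i j)
        calc x * (AdjoinRoot.root f * dv x (e i * e j))
            = AdjoinRoot.root f * (x * dv x (e i * e j)) := by ring
          _ = AdjoinRoot.root f * (e i * e j) := by rw [h4]
          _ = e i * (AdjoinRoot.root f * e j) := by ring
      rw [h3, hT, Finset.mul_sum, Finset.mul_sum]
      refine Finset.sum_congr rfl fun k _ => ?_
      have h4 := mul_dv (hdvd i k)
      calc e i * (AdjoinRoot.of f (T k j) * e k) = AdjoinRoot.of f (T k j) * (e i * e k) := by ring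
        _ = AdjoinRoot.of f (T k j) * (x * dv x (e i * e k)) := by rw [h4]
        _ = x * (AdjoinRoot.of f (T k j) * dv x (e i * e k)) := by ring
    rw [gramT, Matrix.of_apply, h2, map_sum, Matrix.mul_apply]
    refine Finset.sum_congr rfl fun k _ => ?_
    rw [co_of_mul, gram, Matrix.of_apply, mul_comm]
  · have h2 : f ∣ T.charpoly := by
      rw [← AdjoinRoot.mk_eq_zero]
      have h3 := act_aeval hT T.charpoly 0
      rw [Matrix.aeval_self_charpoly] at h3
      have h4 : act e (0 : Matrix (Fin (2 * g + 1)) (Fin (2 * g + 1)) F[X]) 0 = 0 := by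
        unfold act
        refine Finset.sum_eq_zero fun k _ => ?_
        rw [Matrix.zero_apply, map_zero, zero_mul]
      rw [h4] at h3
      rcases mul_eq_zero.1 h3 with h5 | h5
      · exact h5
      · exfalso
        have h6 := he.dg_eq 0
        rw [h5, dg_zero] at h6
        exact WithBot.coe_ne_bot h6.symm
    refine eq_of_monic_of_dvd_of_natDegree_le h.monic T.charpoly_monic h2 ?_
    rw [Matrix.charpoly_natDegree_eq_dim, Fintype.card_fin, h.natDegree]

theorem cdet_gram (h : Pre g n w f) {x : AdjoinRoot f} (hx : x ≠ 0) {I : Ideal (AdjoinRoot f)}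
    (hI : I ^ 2 = Ideal.span {x}) {e : Fin (2 * g + 1) → AdjoinRoot f}
    {δ : Fin (2 * g + 1) → ℕ} (he : RBasis h.monic n I e δ) :
    cdet (gram h.monic x e e) (gramT h.monic x e e) = C (gram h.monic x e e).det * f := by
  obtain ⟨T, -, hT, hf⟩ := exists_theta h hx hI he
  rw [hT]
  have h0 : C (gram h.monic x e e).det * f = C (gram h.monic x e e).det * T.charpoly :=
    congrArg (fun u => C (gram h.monic x e e).det * u) hf.symm
  rw [h0]
  unfold cdet Matrix.charpoly Matrix.charmatrix
  have h1 : ((X : F[X][X]) • (gram h.monic x e e).map C -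
      (gram h.monic x e e * T).map C) = (gram h.monic x e e).map C *
        (Matrix.scalar (Fin (2 * g + 1)) (X : F[X][X]) - C.mapMatrix T) := by
    rw [Matrix.mul_sub, Matrix.scalar_apply, ← Matrix.smul_one_eq_diagonal, Matrix.mul_smul,
      Matrix.mul_one, Matrix.map_mul]
    rfl
  rw [h1, Matrix.det_mul]
  congr 1
  exact (RingHom.map_det C (gram h.monic x e e)).symm

end Pool.Agent.Helper96.PS
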