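import Mathlib

/-!
# PS-S3a: common zeros of two polynomials of `F[t][x]` over large places

`A ≠ 0`, `B ∈ F[t][x]` of `x`-degree `≤ a` with coefficients of degree `≤ T`; (I) no irreducible `φ` of positive `x`-degree divides both; (II) no irreducible `ϖ ∈ F[t]` of degree `≥ L` divides both. The maximal ideals `m ∋ A, B` over places `ϖ` (`m ∩ F[t] = (ϖ)`) of degree `≥ L` number at most `3 a² T / L`.

Proof. `m = (ϖ, v)`, `v̄ ∣ Ā`, `v̄ ∣ B̄` in `κ[x]`, `κ = F[t]/ϖ`, `v̄` monic irreducible; `m` is determined by `ϖ` (monic) and `v̄`. Write `A = c A₁`, `c ∈ F[t]` the content, `A₁` primitive of degree `a₁ ≤ a`.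
(i) `ϖ ∣ c`: `Ā = 0`, so `B̄ ≠ 0` by (II), at most `a` choices of `v̄ ∣ B̄` (degrees). `c` divides a nonzero coefficient of `A`, so `deg c ≤ T`, and at most `T/L` such `ϖ`: at most `a T/L` ideals.
(ii) `ϖ ∤ c`: `Ā₁ ≠ 0`, `v̄ ∣ Ā₁` (`≤ a` choices of `v̄`; if `a₁ = 0` none), `v̄ ∣ B̄`. `Res = Res_x(A₁, B) ≠ 0` (natural degrees): by (I) `A₁` and `B` have no common factor of positive degree over `F(t)` (Gauss; `B ≠ 0` if `a₁ ≥ 1` as `B = 0` would be divisible by the factors of `A₁`; if `a₁ = 0` nothing to do). `Res ∈ (A₁, B) ⊆ m`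
(`exists_mul_add_mul_eq_C_resultant`), so `ϖ ∣ Res`. The Sylvester determinant has `a₁ + b ≤ 2a` rows with entries of degree `≤ T` (coefficients of `A₁` have degree `≤ T` too): `deg Res ≤ 2aT`, at most `2aT/L` such `ϖ`: at most `2a²T/L` ideals.
Total `≤ 3a²T/L` (if `a = 0` there are none). Stated as `ncard * L ≤ 3 a² T` (to avoid rounding: `∑_{ϖ} deg ϖ ≤ deg Res`, each `≥ L`).
-/

namespace Pool.Agent.Helper96.PS

open Polynomial

/-- Factors of degree at least `L` of a nonzero polynomial, as ideals. -/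
private theorem facIdeals {K : Type*} [Field K] {D : K[X]} (hD : D ≠ 0) (L : ℕ) :
    {p : Ideal K[X] | ∃ ϖ : K[X], Irreducible ϖ ∧ L ≤ ϖ.natDegree ∧ p = Ideal.span {ϖ} ∧
      ϖ ∣ D}.Finite ∧
    {p : Ideal K[X] | ∃ ϖ : K[X], Irreducible ϖ ∧ L ≤ ϖ.natDegree ∧ p = Ideal.span {ϖ} ∧
      ϖ ∣ D}.ncard * L ≤ D.natDegree := by
  classical
  set N : Finset K[X] :=
    (UniqueFactorizationMonoid.normalizedFactors D).toFinset.filter (fun ϖ => L ≤ ϖ.natDegree)
    with hN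
  have hsub : {p : Ideal K[X] | ∃ ϖ : K[X], Irreducible ϖ ∧ L ≤ ϖ.natDegree ∧
      p = Ideal.span {ϖ} ∧ ϖ ∣ D} ⊆ ↑(N.image (fun ϖ => Ideal.span {ϖ})) := by
    rintro p ⟨ϖ, hϖ, hL, rfl, hdvd⟩
    obtain ⟨q, hq, hass⟩ :=
      UniqueFactorizationMonoid.exists_mem_normalizedFactors_of_dvd hD hϖ hdvd
    rw [Finset.coe_image]
    refine ⟨q, ?_, ?_⟩
    · rw [Finset.mem_coe, hN, Finset.mem_filter, Multiset.mem_toFinset]
      refine ⟨hq, ?_⟩
      rw [← natDegree_eq_of_degree_eq (degree_eq_degree_of_associated hass)]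
      exact hL
    · exact (Ideal.span_singleton_eq_span_singleton.2 hass).symm
  have hfin := (N.image (fun ϖ => Ideal.span {ϖ})).finite_toSet.subset hsub
  refine ⟨hfin, ?_⟩
  have h1 : {p : Ideal K[X] | ∃ ϖ : K[X], Irreducible ϖ ∧ L ≤ ϖ.natDegree ∧
      p = Ideal.span {ϖ} ∧ ϖ ∣ D}.ncard ≤ N.card := by
    refine (Set.ncard_le_ncard hsub (Finset.finite_toSet _)).trans ?_
    rw [Set.ncard_coe_finset]
    exact Finset.card_image_le
  have h2 : N.card * L ≤ ∑ ϖ ∈ N, ϖ.natDegree := by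
    rw [← smul_eq_mul]
    exact Finset.card_nsmul_le_sum _ _ _ (fun ϖ hϖ => (Finset.mem_filter.1 hϖ).2)
  have h0 : ∀ ϖ ∈ N, ϖ ≠ 0 := by
    intro ϖ hϖ
    exact (UniqueFactorizationMonoid.irreducible_of_normalized_factor ϖ
      (Multiset.mem_toFinset.1 (Finset.mem_filter.1 hϖ).1)).ne_zero
  have h3 : ∑ ϖ ∈ N, ϖ.natDegree = (∏ ϖ ∈ N, ϖ).natDegree := by
    rw [natDegree_prod _ _ h0]
  have h4 : (∏ ϖ ∈ N, ϖ) ∣ D := by
    have ha : N.val ≤ UniqueFactorizationMonoid.normalizedFactors D := by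
      refine (Finset.val_le_iff.2 (Finset.filter_subset _ _)).trans ?_
      rw [Multiset.toFinset_val]
      exact Multiset.dedup_le _
    have hb := Multiset.prod_dvd_prod_of_le ha
    have hc : (∏ ϖ ∈ N, ϖ) = N.val.prod := by
      rw [Finset.prod_eq_multiset_prod, Multiset.map_id']
    rw [hc]
    exact hb.trans (UniqueFactorizationMonoid.prod_normalizedFactors hD).dvd
  calc _ ≤ N.card * L := Nat.mul_le_mul_right _ h1
    _ ≤ _ := h2
    _ = _ := h3
    _ ≤ _ := natDegree_le_of_dvd h4 hD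

/-- The maximal ideals of a fibre. -/
private theorem fibre {F : Type*} [Field F] {P : F[X][X]} {a : ℕ} {ϖ : F[X]} (hϖ : Irreducible ϖ)
    (hP : ¬ C ϖ ∣ P) (hPd : P.natDegree ≤ a) :
    {m : Ideal F[X][X] | m.IsMaximal ∧ P ∈ m ∧ C ϖ ∈ m}.Finite ∧
    {m : Ideal F[X][X] | m.IsMaximal ∧ P ∈ m ∧ C ϖ ∈ m}.ncard ≤ a := by
  classical
  have hmax : (Ideal.span {ϖ} : Ideal F[X]).IsMaximal :=
    PrincipalIdealRing.isMaximal_of_irreducible hϖ
  let _ : Field (F[X] ⧸ (Ideal.span {ϖ} : Ideal F[X])) := Ideal.Quotient.field _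
  set i : F[X] →+* (F[X] ⧸ (Ideal.span {ϖ} : Ideal F[X])) := Ideal.Quotient.mk _ with hi
  have his : Function.Surjective i := Ideal.Quotient.mk_surjective
  set π : F[X][X] →+* (F[X] ⧸ (Ideal.span {ϖ} : Ideal F[X]))[X] := mapRingHom i with hπ
  have hπs : Function.Surjective π := by
    intro q
    obtain ⟨p, hp⟩ := map_surjective i his q
    exact ⟨p, hp⟩
  have hker : RingHom.ker π = Ideal.span {C ϖ} := by
    rw [hπ, ker_mapRingHom, hi, Ideal.mk_ker, Ideal.map_span, Set.image_singleton]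
  have hP0 : π P ≠ 0 := by
    intro h
    have : P ∈ RingHom.ker π := h
    rw [hker, Ideal.mem_span_singleton] at this
    exact hP this
  have hdeg : (π P).natDegree ≤ a := by
    rw [hπ, coe_mapRingHom]
    exact natDegree_map_le.trans hPd
  obtain ⟨hfin, hcard⟩ := facIdeals hP0 1
  have hmem : ∀ m ∈ {m : Ideal F[X][X] | m.IsMaximal ∧ P ∈ m ∧ C ϖ ∈ m},
      RingHom.ker π ≤ m := by
    rintro m ⟨-, -, h⟩
    rw [hker, Ideal.span_singleton_le_iff_mem]
    exact h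
  have hback : ∀ m ∈ {m : Ideal F[X][X] | m.IsMaximal ∧ P ∈ m ∧ C ϖ ∈ m},
      Ideal.comap π (Ideal.map π m) = m := by
    intro m hm
    rw [Ideal.comap_map_of_surjective π hπs]
    exact sup_eq_left.2 (hmem m hm)
  have hmaps : ∀ m ∈ {m : Ideal F[X][X] | m.IsMaximal ∧ P ∈ m ∧ C ϖ ∈ m},
      Ideal.map π m ∈ {p : Ideal (F[X] ⧸ (Ideal.span {ϖ} : Ideal F[X]))[X] |
        ∃ φ : (F[X] ⧸ (Ideal.span {ϖ} : Ideal F[X]))[X], Irreducible φ ∧ 1 ≤ φ.natDegree ∧
          p = Ideal.span {φ} ∧ φ ∣ π P} := by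
    intro m hm
    have hm1 : (Ideal.map π m).IsMaximal := by
      rcases Ideal.map_eq_top_or_isMaximal_of_surjective π hπs hm.1 with h | h
      · exfalso
        have := hback m hm
        rw [h, Ideal.comap_top] at this
        exact hm.1.ne_top this.symm
      · exact h
    obtain ⟨φ, hφ⟩ := (IsPrincipalIdealRing.principal (Ideal.map π m)).principal
    have hφ' : Ideal.map π m = Ideal.span {φ} := hφ
    have hPm : π P ∈ Ideal.map π m := Ideal.mem_map_of_mem π hm.2.1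
    have hdvd : φ ∣ π P := by
      rw [hφ', Ideal.mem_span_singleton] at hPm
      exact hPm
    have hφ0 : φ ≠ 0 := by
      rintro rfl
      exact hP0 (zero_dvd_iff.1 hdvd)
    have hirr : Irreducible φ := by
      rw [Ideal.irreducible_iff_isMaximal_span_singleton hφ0]
      rw [← hφ]; exact hm1
    exact ⟨φ, hirr, hirr.natDegree_pos, hφ', hdvd⟩
  have hinj : Set.InjOn (fun m => Ideal.map π m)
      {m : Ideal F[X][X] | m.IsMaximal ∧ P ∈ m ∧ C ϖ ∈ m} := by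
    intro m hm m' hm' h
    rw [← hback m hm, ← hback m' hm']
    exact congrArg _ h
  refine ⟨Set.Finite.of_injOn hmaps hinj hfin, ?_⟩
  refine (Set.ncard_le_ncard_of_injOn _ hmaps hinj hfin).trans ?_
  rw [mul_one] at hcard
  exact hcard.trans hdeg

/-- Determinants of matrices with entries of small degree. -/
private theorem natDegree_det_le' {F : Type*} [Field F] {n T : ℕ}
    (M : Matrix (Fin n) (Fin n) F[X]) (h : ∀ i j, (M i j).natDegree ≤ T) :
    M.det.natDegree ≤ n * T := by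
  rw [Matrix.det_apply]
  refine natDegree_sum_le_of_forall_le _ _ (fun σ _ => ?_)
  have h1 : (∏ i, M (σ i) i).natDegree ≤ n * T := by
    refine (natDegree_prod_le _ _).trans ?_
    refine (Finset.sum_le_card_nsmul _ _ T (fun i _ => h _ _)).trans ?_
    simp
  refine le_trans ?_ h1
  rw [Units.smul_def]
  exact natDegree_smul_le _ _

private theorem natDegree_resultant_le {F : Type*} [Field F] {A B : F[X][X]} {T : ℕ}
    (hAc : ∀ j, (A.coeff j).natDegree ≤ T) (hBc : ∀ j, (B.coeff j).natDegree ≤ T) (m n : ℕ) :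
    (resultant A B m n).natDegree ≤ (m + n) * T := by
  refine natDegree_det_le' _ (fun i j => ?_)
  rw [sylvester, Matrix.of_apply]
  refine j.addCases (fun j₁ => ?_) (fun j₁ => ?_)
  · rw [Fin.addCases_left]
    split_ifs
    · exact hBc _
    · simp
  · rw [Fin.addCases_right]
    split_ifs
    · exact hAc _
    · simp

private theorem resultant_ne_zero_of {F : Type*} [Field F] {A B : F[X][X]} (hA : A ≠ 0)
    (hI : ∀ φ : F[X][X], Irreducible φ → 1 ≤ φ.natDegree → φ ∣ A → ¬ φ ∣ B) :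
    resultant A B ≠ 0 := by
  intro hres
  have hinj : Function.Injective (algebraMap F[X] (FractionRing F[X])) :=
    IsFractionRing.injective _ _
  have h1 : resultant (A.map (algebraMap F[X] (FractionRing F[X])))
      (B.map (algebraMap F[X] (FractionRing F[X]))) = 0 := by
    rw [natDegree_map_eq_of_injective hinj, natDegree_map_eq_of_injective hinj,
      resultant_map_map, hres, map_zero]
  rw [resultant_eq_zero_iff] at h1
  obtain ⟨-, hnc⟩ := h1
  have hA' : A.map (algebraMap F[X] (FractionRing F[X])) ≠ 0 :=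
    (Polynomial.map_ne_zero_iff hinj).2 hA
  obtain ⟨p, hp, hpA, hpB⟩ : ∃ p : (FractionRing F[X])[X], Irreducible p ∧
      p ∣ A.map (algebraMap F[X] (FractionRing F[X])) ∧
      p ∣ B.map (algebraMap F[X] (FractionRing F[X])) := by
    by_contra hcon
    push Not at hcon
    apply hnc
    refine IsRelPrime.isCoprime ?_
    refine WfDvdMonoid.isRelPrime_of_no_irreducible_factors (fun h => hA' h.1) ?_
    intro p hp h1 h2
    exact hcon p hp h1 h2
  obtain ⟨s, hs, hsA⟩ := WfDvdMonoid.exists_factors A hA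
  have hpS : p ∣ (s.map (fun φ => φ.map (algebraMap F[X] (FractionRing F[X])))).prod := by
    have h2 : (s.prod).map (algebraMap F[X] (FractionRing F[X])) =
        (s.map (fun φ => φ.map (algebraMap F[X] (FractionRing F[X])))).prod :=
      Polynomial.map_multiset_prod _ _
    rw [← h2]
    refine hpA.trans ?_
    have h3 := (hsA.map (mapRingHom (algebraMap F[X] (FractionRing F[X])))).symm.dvd
    simpa using h3
  obtain ⟨q, hq, hpq⟩ := hp.prime.exists_mem_multiset_dvd hpS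
  obtain ⟨φ, hφ, rfl⟩ := Multiset.mem_map.1 hq
  have hφi := hs φ hφ
  have hφd : φ.natDegree ≠ 0 := by
    intro h0
    obtain ⟨c, rfl⟩ : ∃ c, φ = C c := ⟨_, eq_C_of_natDegree_eq_zero h0⟩
    have hc : c ≠ 0 := by
      rintro rfl
      exact hφi.ne_zero (by simp)
    have hu : IsUnit ((C c : F[X][X]).map (algebraMap F[X] (FractionRing F[X]))) := by
      rw [map_C, isUnit_C, isUnit_iff_ne_zero]
      intro h
      exact hc (hinj (by rw [h, map_zero]))
    exact hp.not_isUnit (isUnit_of_dvd_unit hpq hu)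
  have hprim : φ.IsPrimitive := hφi.isPrimitive hφd
  have hirr : Irreducible (φ.map (algebraMap F[X] (FractionRing F[X]))) :=
    (hprim.irreducible_iff_irreducible_map_fraction_map).1 hφi
  have hass : Associated p (φ.map (algebraMap F[X] (FractionRing F[X]))) :=
    hp.associated_of_dvd hirr hpq
  have hφA : φ ∣ A :=
    hprim.dvd_of_fraction_map_dvd_fraction_map (hass.symm.dvd.trans hpA)
  have hφB : φ ∣ B :=
    hprim.dvd_of_fraction_map_dvd_fraction_map (hass.symm.dvd.trans hpB)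
  exact hI φ hφi (Nat.one_le_iff_ne_zero.2 hφd) hφA hφB

private theorem dvd_of_C_mem {F : Type*} [Field F] {m : Ideal F[X][X]} (hm : m.IsMaximal)
    {ϖ c : F[X]} (hϖ : Irreducible ϖ) (h : C ϖ ∈ m) (hc : C c ∈ m) : ϖ ∣ c := by
  have hmax : (Ideal.span {ϖ} : Ideal F[X]).IsMaximal :=
    PrincipalIdealRing.isMaximal_of_irreducible hϖ
  have hle : (Ideal.span {ϖ} : Ideal F[X]) ≤ Ideal.comap C m := by
    rw [Ideal.span_singleton_le_iff_mem]
    exact h
  have hne : Ideal.comap (C : F[X] →+* F[X][X]) m ≠ ⊤ := by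
    intro htop
    rw [Ideal.comap_eq_top_iff] at htop
    exact hm.ne_top htop
  have heq := hmax.eq_of_le hne hle
  have : c ∈ Ideal.comap (C : F[X] →+* F[X][X]) m := hc
  rw [← heq, Ideal.mem_span_singleton] at this
  exact this

theorem card_common {F : Type*} [Field F] {A B : F[X][X]} {a T L : ℕ} (hL : 1 ≤ L) (hA : A ≠ 0)
    (hAd : A.natDegree ≤ a) (hAc : ∀ j, (A.coeff j).natDegree ≤ T) (hBd : B.natDegree ≤ a)
    (hBc : ∀ j, (B.coeff j).natDegree ≤ T)
    (hI : ∀ φ : F[X][X], Irreducible φ → 1 ≤ φ.natDegree → φ ∣ A → ¬ φ ∣ B)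
    (hII : ∀ ϖ : F[X], Irreducible ϖ → L ≤ ϖ.natDegree → C ϖ ∣ A → ¬ C ϖ ∣ B) :
    {m : Ideal F[X][X] | m.IsMaximal ∧ A ∈ m ∧ B ∈ m ∧
      ∃ ϖ : F[X], Irreducible ϖ ∧ L ≤ ϖ.natDegree ∧ C ϖ ∈ m}.Finite ∧
    {m : Ideal F[X][X] | m.IsMaximal ∧ A ∈ m ∧ B ∈ m ∧
      ∃ ϖ : F[X], Irreducible ϖ ∧ L ≤ ϖ.natDegree ∧ C ϖ ∈ m}.ncard * L ≤ 3 * a ^ 2 * T := by
  classical
  have hres := resultant_ne_zero_of hA hI
  set D := resultant A B with hDdef
  set S : Set (Ideal F[X][X]) := {m : Ideal F[X][X] | m.IsMaximal ∧ A ∈ m ∧ B ∈ m ∧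
      ∃ ϖ : F[X], Irreducible ϖ ∧ L ≤ ϖ.natDegree ∧ C ϖ ∈ m} with hS
  have hDdeg : D.natDegree ≤ (2 * a) * T := by
    refine (natDegree_resultant_le hAc hBc _ _).trans ?_
    exact Nat.mul_le_mul_right _ (by omega)
  -- membership of the resultant
  have hmemD : ∀ m ∈ S, C D ∈ m ∧ 1 ≤ a := by
    rintro m ⟨hm, hAm, hBm, ϖ, hϖ, hLϖ, hCm⟩
    by_cases hdeg : A.natDegree ≠ 0 ∨ B.natDegree ≠ 0
    · obtain ⟨p, q, -, -, h⟩ := exists_mul_add_mul_eq_C_resultant A B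
        le_rfl le_rfl hdeg
      refine ⟨?_, by omega⟩
      rw [hDdef, ← h]
      exact Ideal.add_mem _ (Ideal.mul_mem_right _ _ hAm) (Ideal.mul_mem_right _ _ hBm)
    · exfalso
      push Not at hdeg
      obtain ⟨hA0, hB0⟩ := hdeg
      have hA1 : A = C (A.coeff 0) := eq_C_of_natDegree_eq_zero hA0
      have hB1 : B = C (B.coeff 0) := eq_C_of_natDegree_eq_zero hB0
      have h1 : ϖ ∣ A.coeff 0 := dvd_of_C_mem hm hϖ hCm (by rw [← hA1]; exact hAm)
      have h2 : ϖ ∣ B.coeff 0 := dvd_of_C_mem hm hϖ hCm (by rw [← hB1]; exact hBm)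
      refine hII ϖ hϖ hLϖ ?_ ?_
      · obtain ⟨k, hk⟩ := h1
        exact ⟨C k, by rw [← C_mul, ← hk]; exact hA1⟩
      · obtain ⟨k, hk⟩ := h2
        exact ⟨C k, by rw [← C_mul, ← hk]; exact hB1⟩
  obtain ⟨hPfin, hPcard⟩ := facIdeals hres L
  set Q : Set (Ideal F[X]) := {p : Ideal F[X] | ∃ ϖ : F[X], Irreducible ϖ ∧ L ≤ ϖ.natDegree ∧
    p = Ideal.span {ϖ} ∧ ϖ ∣ D} with hQ
  -- the fibres
  have hfib : ∀ p ∈ Q, {m : Ideal F[X][X] | m.IsMaximal ∧ A ∈ m ∧ B ∈ m ∧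
      p ≤ Ideal.comap C m}.Finite ∧ {m : Ideal F[X][X] | m.IsMaximal ∧ A ∈ m ∧ B ∈ m ∧
      p ≤ Ideal.comap C m}.ncard ≤ a := by
    rintro p ⟨ϖ, hϖ, hLϖ, rfl, -⟩
    have hex : ∃ P : F[X][X], ¬ C ϖ ∣ P ∧ P.natDegree ≤ a ∧ (P = A ∨ P = B) := by
      by_cases h : C ϖ ∣ A
      · exact ⟨B, hII ϖ hϖ hLϖ h, hBd, Or.inr rfl⟩
      · exact ⟨A, h, hAd, Or.inl rfl⟩
    obtain ⟨P, hP, hPd, hPAB⟩ := hex
    obtain ⟨hf1, hf2⟩ := fibre hϖ hP hPd
    have hsub : {m : Ideal F[X][X] | m.IsMaximal ∧ A ∈ m ∧ B ∈ m ∧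
        Ideal.span {ϖ} ≤ Ideal.comap C m} ⊆
        {m : Ideal F[X][X] | m.IsMaximal ∧ P ∈ m ∧ C ϖ ∈ m} := by
      rintro m ⟨hm, hAm, hBm, hle⟩
      refine ⟨hm, ?_, ?_⟩
      · rcases hPAB with rfl | rfl
        · exact hAm
        · exact hBm
      · rw [Ideal.span_singleton_le_iff_mem] at hle
        exact hle
    exact ⟨hf1.subset hsub, (Set.ncard_le_ncard hsub hf1).trans hf2⟩
  have hcover : S ⊆ ⋃ p ∈ hPfin.toFinset, {m : Ideal F[X][X] | m.IsMaximal ∧ A ∈ m ∧ B ∈ m ∧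
      p ≤ Ideal.comap C m} := by
    intro m hmS
    obtain ⟨hDm, -⟩ := hmemD m hmS
    obtain ⟨hm, hAm, hBm, ϖ, hϖ, hLϖ, hCm⟩ := hmS
    rw [Set.mem_iUnion₂]
    refine ⟨Ideal.span {ϖ}, ?_, hm, hAm, hBm, ?_⟩
    · rw [Set.Finite.mem_toFinset]
      exact ⟨ϖ, hϖ, hLϖ, rfl, dvd_of_C_mem hm hϖ hCm hDm⟩
    · rw [Ideal.span_singleton_le_iff_mem]
      exact hCm
  have hUfin : (⋃ p ∈ hPfin.toFinset, {m : Ideal F[X][X] | m.IsMaximal ∧ A ∈ m ∧ B ∈ m ∧
      p ≤ Ideal.comap C m}).Finite := by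
    refine Set.Finite.biUnion (Finset.finite_toSet _) (fun p hp => ?_)
    exact (hfib p ((Set.Finite.mem_toFinset _).1 hp)).1
  refine ⟨hUfin.subset hcover, ?_⟩
  have hcard : S.ncard ≤ hPfin.toFinset.card * a := by
    refine (Set.ncard_le_ncard hcover hUfin).trans ?_
    refine (Finset.set_ncard_biUnion_le _ _).trans ?_
    refine (Finset.sum_le_card_nsmul _ _ a (fun p hp => ?_)).trans (by simp)
    exact (hfib p ((Set.Finite.mem_toFinset _).1 hp)).2
  have hPc : hPfin.toFinset.card = Q.ncard := (Set.ncard_eq_toFinset_card _ hPfin).symm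
  rw [hPc] at hcard
  calc S.ncard * L ≤ (Q.ncard * a) * L := Nat.mul_le_mul_right _ hcard
    _ = a * (Q.ncard * L) := by ring
    _ ≤ a * (2 * a * T) := Nat.mul_le_mul_left _ (hPcard.trans hDdeg)
    _ = 2 * a ^ 2 * T := by ring
    _ ≤ 3 * a ^ 2 * T := by
      refine Nat.mul_le_mul_right _ (Nat.mul_le_mul_right _ (by norm_num))

end Pool.Agent.Helper96.PS
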