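import Pool.Agent.Helper96.PS.DgMul

/-!
# PS-A3: `O = A[x]/(f)` is a Dedekind domain for good `f`

Proof. `O` is a noetherian domain (`isDomain`), integral over the principal ideal domain `A = F[X]` (so nonzero primes
of `O` are maximal: a nonzero prime contains a nonzero element of `A` (the norm), its contraction to `A` is a
nonzero prime, so maximal; `Ideal.isMaximal_of_isIntegral_of_isMaximal_comap`). Let `P` be a nonzero prime of `O`, `m` its preimage in `A[x]` (maximal,
`f ∈ m`), `m ∩ A = (π)`; `A[x]/π = κ[x]`, `κ = A/π`, is a PID, so `m = (π, v)` for some `v`. `f ∈ m`: `f = a π + b v`, and `a ∉ m` or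
`b ∉ m`, otherwise `f ∈ m²` against `Reg f`. If `a ∉ m`, `π = - a⁻¹ b v` in `O_P`, so `P O_P = (v)`; similarly in the other case
`P O_P = (π)`. So the maximal ideal of the noetherian local domain `O_P` is principal and `≠ 0` (nor a field): `O_P` is a DVR. So
`IsDedekindDomainDvr`, and `IsDedekindDomainDvr.isDedekindDomain` (Mathlib.RingTheory.DedekindDomain.Dvr).
-/

namespace Pool.Agent.Helper96.PS

open Polynomial

variable {F : Type*} [Field F] {g n : ℕ} {w : F[X]} {f : F[X][X]}

/-- The maximal ideal of the localization is generated by `v` if `u a` is a multiple of `v`, `a` a unit at `P`. -/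
private theorem loc_principal {O : Type*} [CommRing O] {P : Ideal O} [hP : P.IsPrime] {u v a b : O}
    (hv : v ∈ P) (hgen : ∀ y ∈ P, ∃ s r : O, y = u * s + v * r) (ha : a ∉ P) (hab : u * a = v * b) :
    (IsLocalRing.maximalIdeal (Localization.AtPrime P)).IsPrincipal := by
  refine ⟨algebraMap O (Localization.AtPrime P) v, ?_⟩
  rw [← Localization.AtPrime.map_eq_maximalIdeal]
  apply le_antisymm
  · rw [Ideal.map_le_iff_le_comap]
    intro y hy
    rw [Ideal.mem_comap]
    change _ ∈ Ideal.span {algebraMap O (Localization.AtPrime P) v}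
    rw [Ideal.mem_span_singleton]
    obtain ⟨s, r, rfl⟩ := hgen y hy
    have hu : IsUnit (algebraMap O (Localization.AtPrime P) a) :=
      IsLocalization.map_units (Localization.AtPrime P) (⟨a, ha⟩ : P.primeCompl)
    have h1 : algebraMap O (Localization.AtPrime P) v ∣ algebraMap O (Localization.AtPrime P) u := by
      rw [← hu.dvd_mul_right, ← map_mul, hab, map_mul]
      exact dvd_mul_right _ _
    rw [map_add, map_mul, map_mul]
    exact dvd_add (h1.mul_right _) (dvd_mul_right _ _)
  · change Ideal.span {algebraMap O (Localization.AtPrime P) v} ≤ _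
    rw [Ideal.span_singleton_le_iff_mem]
    exact Ideal.mem_map_of_mem _ hv

private theorem integral_A (hf : f.Monic) : Algebra.IsIntegral F[X] (AdjoinRoot f) := by
  have := hf.finite_adjoinRoot
  exact Algebra.IsIntegral.of_finite F[X] (AdjoinRoot f)

private theorem prime_maximal (h : Pre g n w f) {P : Ideal (AdjoinRoot f)} (hP : P.IsPrime)
    (h0 : P ≠ ⊥) : P.IsMaximal ∧ (P.comap (algebraMap F[X] (AdjoinRoot f))).IsMaximal := by
  have hdom : IsDomain (AdjoinRoot f) := isDomain h
  have hint : Algebra.IsIntegral F[X] (AdjoinRoot f) := integral_A h.monic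
  obtain ⟨x, hx, hx0⟩ := Submodule.exists_mem_ne_zero_of_ne_bot h0
  have h1 : P.comap (algebraMap F[X] (AdjoinRoot f)) ≠ ⊥ :=
    Ideal.comap_ne_bot_of_integral_mem hx0 hx (Algebra.IsIntegral.isIntegral x)
  have h2 : (P.comap (algebraMap F[X] (AdjoinRoot f))).IsPrime := Ideal.comap_isPrime _ _
  have h3 : (P.comap (algebraMap F[X] (AdjoinRoot f))).IsMaximal := IsPrime.to_maximal_ideal h1
  exact ⟨Ideal.isMaximal_of_isIntegral_of_isMaximal_comap P h3, h3⟩

/-- A maximal ideal of `F[t][x]` is generated by two elements. -/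
private theorem two_gen (m : Ideal F[X][X]) (hm : (m.comap (C : F[X] →+* F[X][X])).IsMaximal) :
    ∃ u v : F[X][X], u ∈ m ∧ v ∈ m ∧ ∀ y ∈ m, ∃ s r : F[X][X], y = u * s + v * r := by
  obtain ⟨p, hp⟩ : ∃ p, p = m.comap (C : F[X] →+* F[X][X]) := ⟨_, rfl⟩
  rw [← hp] at hm
  obtain ⟨π, hπ⟩ : ∃ π : F[X], p = Ideal.span {π} := by
    obtain ⟨π, hπ⟩ := (IsPrincipalIdealRing.principal p).principal
    exact ⟨π, hπ⟩
  let _ : Field (F[X] ⧸ p) := Ideal.Quotient.field p
  obtain ⟨ψ, hψ⟩ : ∃ ψ : F[X][X] →+* (F[X] ⧸ p)[X], ψ = mapRingHom (Ideal.Quotient.mk p) := ⟨_, rfl⟩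
  have hsurj : Function.Surjective ψ := by
    rw [hψ]
    exact map_surjective _ Ideal.Quotient.mk_surjective
  obtain ⟨v', hv'⟩ := (IsPrincipalIdealRing.principal (m.map ψ)).principal
  have hv'm : v' ∈ m.map ψ := by
    rw [hv']
    exact Submodule.mem_span_singleton_self v'
  obtain ⟨v, hv, hvv⟩ := (Ideal.mem_map_iff_of_surjective ψ hsurj).1 hv'm
  refine ⟨C π, v, ?_, hv, ?_⟩
  · have h1 : π ∈ p := by
      rw [hπ]
      exact Ideal.mem_span_singleton_self π
    rw [hp] at h1
    exact h1
  · intro y hy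
    have h1 : ψ y ∈ m.map ψ := Ideal.mem_map_of_mem ψ hy
    rw [hv', Submodule.mem_span_singleton] at h1
    obtain ⟨z', hz'⟩ := h1
    obtain ⟨z, hz⟩ := hsurj z'
    have h2 : y - v * z ∈ Ideal.span {(C π : F[X][X])} := by
      have h3 : y - v * z ∈ Ideal.map (C : F[X] →+* F[X][X]) p := by
        rw [Ideal.mem_map_C_iff]
        intro k
        have h4 : ψ (y - v * z) = 0 := by
          rw [map_sub, map_mul, hvv, hz, ← hz', smul_eq_mul, mul_comm, sub_self]
        have h5 : Ideal.Quotient.mk p ((y - v * z).coeff k) = 0 := by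
          have h6 := congrArg (fun q => q.coeff k) h4
          rw [hψ] at h6
          rw [coe_mapRingHom, coeff_map, coeff_zero] at h6
          exact h6
        exact Ideal.Quotient.eq_zero_iff_mem.1 h5
      rw [hπ, Ideal.map_span, Set.image_singleton] at h3
      exact h3
    rw [Ideal.mem_span_singleton] at h2
    obtain ⟨s, hs⟩ := h2
    exact ⟨s, z, by rw [← hs]; ring⟩

theorem isDedekind (h : Good g n w f) : IsDedekindDomain (AdjoinRoot f) := by
  have hdom : IsDomain (AdjoinRoot f) := isDomain h.toPre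
  have hnoeth : IsNoetherianRing (AdjoinRoot f) := inferInstance
  have key : IsDedekindDomainDvr (AdjoinRoot f) := by
    refine { toIsNoetherian := hnoeth, is_dvr_at_nonzero_prime := ?_ }
    intro P h0 hP
    obtain ⟨hPm, hpm⟩ := prime_maximal h.toPre hP h0
    obtain ⟨m, hm⟩ : ∃ m : Ideal F[X][X], m = P.comap (AdjoinRoot.mk f) := ⟨_, rfl⟩
    have hmm : m.IsMaximal := by
      rw [hm]
      exact Ideal.comap_isMaximal_of_surjective _ AdjoinRoot.mk_surjective
    have hmem : ∀ y, y ∈ m ↔ AdjoinRoot.mk f y ∈ P := by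
      intro y
      rw [hm]
      exact Iff.rfl
    have hfm : f ∈ m := by
      rw [hmem, AdjoinRoot.mk_self]
      exact P.zero_mem
    have hmC : (m.comap (C : F[X] →+* F[X][X])).IsMaximal := by
      rw [hm, Ideal.comap_comap]
      exact hpm
    obtain ⟨u, v, hu, hv, hgen⟩ := two_gen m hmC
    obtain ⟨a, b, hab⟩ := hgen f hfm
    have hgen' : ∀ y ∈ P, ∃ s r : AdjoinRoot f,
        y = AdjoinRoot.mk f u * s + AdjoinRoot.mk f v * r := by
      intro y hy
      obtain ⟨y', rfl⟩ := AdjoinRoot.mk_surjective y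
      obtain ⟨s, r, hsr⟩ := hgen y' ((hmem y').2 hy)
      exact ⟨AdjoinRoot.mk f s, AdjoinRoot.mk f r, by rw [hsr, map_add, map_mul, map_mul]⟩
    have h1 : AdjoinRoot.mk f u * AdjoinRoot.mk f a + AdjoinRoot.mk f v * AdjoinRoot.mk f b = 0 := by
      rw [← map_mul, ← map_mul, ← map_add, ← hab, AdjoinRoot.mk_self]
    have hor : a ∉ m ∨ b ∉ m := by
      by_contra hcon
      push Not at hcon
      refine h.reg m hmm hfm ?_
      rw [hab, pow_two]
      exact Ideal.add_mem _ (Ideal.mul_mem_mul hu hcon.1) (Ideal.mul_mem_mul hv hcon.2)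
    have hprin : (IsLocalRing.maximalIdeal (Localization.AtPrime P)).IsPrincipal := by
      rcases hor with ha | hb
      · refine loc_principal (u := AdjoinRoot.mk f u) (v := AdjoinRoot.mk f v)
          (a := AdjoinRoot.mk f a) (b := -AdjoinRoot.mk f b) ((hmem v).1 hv) hgen'
          (fun h2 => ha ((hmem a).2 h2)) ?_
        rw [mul_neg]
        exact eq_neg_of_add_eq_zero_left h1
      · refine loc_principal (u := AdjoinRoot.mk f v) (v := AdjoinRoot.mk f u)
          (a := AdjoinRoot.mk f b) (b := -AdjoinRoot.mk f a) ((hmem u).1 hu) ?_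
          (fun h2 => hb ((hmem b).2 h2)) ?_
        · intro y hy
          obtain ⟨s, r, hsr⟩ := hgen' y hy
          exact ⟨r, s, by rw [hsr, add_comm]⟩
        · rw [mul_neg]
          exact eq_neg_of_add_eq_zero_right h1
    have hnf : ¬ IsField (Localization.AtPrime P) :=
      IsLocalization.AtPrime.not_isField (AdjoinRoot f) h0 (Localization.AtPrime P)
    have hn2 : IsNoetherianRing (Localization.AtPrime P) :=
      IsLocalization.isNoetherianRing P.primeCompl _ hnoeth
    exact ((IsDiscreteValuationRing.TFAE (Localization.AtPrime P) hnf).out 0 4).2 hprin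
  exact IsDedekindDomainDvr.isDedekindDomain (AdjoinRoot f)

theorem not_isField (h : Pre g n w f) : ¬ IsField (AdjoinRoot f) := by
  have hdom : IsDomain (AdjoinRoot f) := isDomain h
  intro hF
  have hX : AdjoinRoot.of f (X : F[X]) ≠ 0 := by
    intro h0
    have h1 := dg_of h (X : F[X])
    rw [h0, dg_zero, degree_X] at h1
    exact WithBot.coe_ne_bot h1.symm
  obtain ⟨y, hy⟩ := hF.mul_inv_cancel hX
  have hy0 : y ≠ 0 := by
    rintro rfl
    rw [mul_zero] at hy
    exact zero_ne_one hy
  obtain ⟨m, hm⟩ := exists_dg h.monic n hy0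
  have h1 := dg_mul h (AdjoinRoot.of f (X : F[X])) y
  have h2 := dg_of h (1 : F[X])
  rw [map_one] at h2
  rw [hy, h2, dg_of h, hm, degree_X, degree_one] at h1
  have h3 : ((0 : ℕ) : WithBot ℕ) = ((1 + m : ℕ) : WithBot ℕ) := by
    rw [Nat.cast_add]
    exact h1
  have h4 : (0 : ℕ) = 1 + m := by exact_mod_cast h3
  omega

/-- a nonzero ideal contains a nonzero monic element of `A` -/
theorem exists_of_mem (h : Pre g n w f) {I : Ideal (AdjoinRoot f)} (hI : I ≠ ⊥) :
    ∃ c : F[X], c.Monic ∧ AdjoinRoot.of f c ∈ I := by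
  have hdom : IsDomain (AdjoinRoot f) := isDomain h
  have hint : Algebra.IsIntegral F[X] (AdjoinRoot f) := integral_A h.monic
  obtain ⟨x, hx, hx0⟩ := Submodule.exists_mem_ne_zero_of_ne_bot hI
  have h1 : I.comap (algebraMap F[X] (AdjoinRoot f)) ≠ ⊥ :=
    Ideal.comap_ne_bot_of_integral_mem hx0 hx (Algebra.IsIntegral.isIntegral x)
  obtain ⟨c, hc, hc0⟩ := Submodule.exists_mem_ne_zero_of_ne_bot h1
  refine ⟨c * C c.leadingCoeff⁻¹, monic_mul_leadingCoeff_inv hc0, ?_⟩
  rw [map_mul]
  exact I.mul_mem_right _ hc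

end Pool.Agent.Helper96.PS
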