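import Mathlib

/-!
# PS: positive proportion of trivial 2-Selmer groups in every genus (MP_8ac872_ag): definitions

`F` is a finite field of odd characteristic, `A = F[t]` (`F[X]`), `K = F(t)` (`RatFunc F`), `f ∈ A[x]` (`F[X][X]`)
monic of odd degree `N = 2g+1`, `O = A[x]/(f)` (`AdjoinRoot f`).
-/

namespace Pool.Agent.Helper96.PS

open Polynomial IsDedekindDomain

/-- `f` as a polynomial over `F(t)` -/
noncomputable abbrev fK {F : Type*} [Field F] (f : F[X][X]) : (RatFunc F)[X] :=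
  f.map (algebraMap F[X] (RatFunc F))

/-- The image of the divisor classes of the curve `y² = c f(x)` over `M` in the units of
`M[x]/(f)` (`x - T` map): the subgroup generated by the squares and by the classes
`∏ (x_j - θ) = (-1)^m U(θ)` (times `c^m`) of the divisors `U(x) = 0, y = V(x)`, `m = deg U`,
prime to `f`. -/
noncomputable def LocIm {M : Type*} [Field M] (f : M[X]) (c : M) : Subgroup (AdjoinRoot f)ˣ :=
  Subgroup.closure {a | (∃ b, a = b ^ 2) ∨ ∃ U V : M[X], U.Monic ∧ IsCoprime U f ∧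
    U ∣ V ^ 2 - C c * f ∧ (a : AdjoinRoot f) = AdjoinRoot.mk f (C ((-c) ^ U.natDegree) * U)}

/-- base change of `K[x]/(f)` to `M[x]/(f)` on units -/
noncomputable def bc {K : Type*} (M : Type*) [Field K] [Field M] [Algebra K M] (f : K[X]) :
    (AdjoinRoot f)ˣ →* (AdjoinRoot (f.map (algebraMap K M)))ˣ :=
  Units.map (AdjoinRoot.map (algebraMap K M) f (f.map (algebraMap K M)) dvd_rfl).toMonoidHom

/-- over the extension field `M` of `K`, `α` is in the image of the divisor classes of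
`y² = c f(x)` -/
def LocSel {K : Type*} (M : Type*) [Field K] [Field M] [Algebra K M] (f : K[X]) (c : K)
    (α : (AdjoinRoot f)ˣ) : Prop :=
  bc M f α ∈ LocIm (f.map (algebraMap K M)) (algebraMap K M c)

open Classical in
/-- `α` is in the image of the divisor classes of `y² = c f(x)` over every completion of
`F(t)`: it represents an element of the 2-Selmer group of the Jacobian. -/
def IsSel {F : Type*} [Field F] (f : (RatFunc F)[X]) (c : RatFunc F) (α : (AdjoinRoot f)ˣ) :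
    Prop :=
  (∀ v : HeightOneSpectrum F[X], LocSel (v.adicCompletion (RatFunc F)) f c α) ∧
    LocSel (RatFunc.CompletionAtInfty F) f c α

/-- The 2-Selmer group of the Jacobian of `y² = f(x)` is trivial. -/
def TrivialSelmer {F : Type*} [Field F] (f : F[X][X]) : Prop :=
  ∀ α : (AdjoinRoot (fK f))ˣ, IsSel (fK f) 1 α → ∃ β, α = β ^ 2

/-- monic polynomials of degree `2g+1` in `x`, the coefficient of `x^j` of degree `≤ (2g+1-j) n`
in `t` -/
def Box (F : Type*) [Field F] (g n : ℕ) : Set F[X][X] :=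
  {f | f.Monic ∧ f.natDegree = 2 * g + 1 ∧ ∀ j, j ≤ 2 * g → (f.coeff j).natDegree ≤ (2 * g + 1 - j) * n}

/-- the box with fixed top form `w` (`w ∈ F[z]` monic of degree `2g+1`) -/
def BoxW {F : Type*} [Field F] (w : F[X]) (g n : ℕ) : Set F[X][X] :=
  {f | f ∈ Box F g n ∧ ∀ j, j ≤ 2 * g → (f.coeff j).coeff ((2 * g + 1 - j) * n) = w.coeff j}

/-- the weighted degree on `A[x]/(f)`: `max_j (deg c_j + j n)` for `∑ c_j θ^j`, `j < N` -/
noncomputable def dg {F : Type*} [Field F] {f : F[X][X]} (hf : f.Monic) (n : ℕ)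
    (w : AdjoinRoot f) : WithBot ℕ :=
  (Finset.range f.natDegree).sup fun j =>
    ((AdjoinRoot.modByMonicHom hf w).coeff j).degree + ((j * n : ℕ) : WithBot ℕ)

/-- the coefficient of `θ^j` -/
noncomputable def co {A : Type*} [CommRing A] {f : A[X]} (hf : f.Monic) (j : ℕ) :
    AdjoinRoot f →ₗ[A] A :=
  (Polynomial.lcoeff A j).comp (AdjoinRoot.modByMonicHom hf)

open Classical in
/-- the quotient `a / z` -/
noncomputable def dv {O : Type*} [CommRing O] (z a : O) : O := if h : z ∣ a then h.choose else 0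

/-- `e` is a reduced `F[t]`-basis of the ideal `I`, `δ i` the weighted degree of `e i` -/
structure RBasis {F : Type*} [Field F] {f : F[X][X]} (hf : f.Monic) (n : ℕ) {N : ℕ}
    (I : Ideal (AdjoinRoot f)) (e : Fin N → AdjoinRoot f) (δ : Fin N → ℕ) : Prop where
  mem : ∀ i, e i ∈ I
  span : ∀ a ∈ I, ∃ c : Fin N → F[X], a = ∑ i, AdjoinRoot.of f (c i) * e i
  red : ∀ c : Fin N → F[X], dg hf n (∑ i, AdjoinRoot.of f (c i) * e i) =
    Finset.univ.sup fun i => (c i).degree + (δ i : WithBot ℕ)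
  mono : Monotone δ

/-- the matrix `τ(e_i e'_j / z)`, `τ` the coefficient of `θ^{N-1}` -/
noncomputable def gram {A : Type*} [CommRing A] {f : A[X]} (hf : f.Monic) {N : ℕ}
    (z : AdjoinRoot f) (e e' : Fin N → AdjoinRoot f) : Matrix (Fin N) (Fin N) A :=
  Matrix.of fun i j => co hf (N - 1) (dv z (e i * e' j))

/-- the matrix `τ(θ e_i e'_j / z)` -/
noncomputable def gramT {A : Type*} [CommRing A] {f : A[X]} (hf : f.Monic) {N : ℕ}
    (z : AdjoinRoot f) (e e' : Fin N → AdjoinRoot f) : Matrix (Fin N) (Fin N) A :=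
  Matrix.of fun i j => co hf (N - 1) (AdjoinRoot.root f * dv z (e i * e' j))

/-- regularity: the plane curve `f = 0` over `F` has no singular closed point -/
def Reg {F : Type*} [Field F] (f : F[X][X]) : Prop :=
  ∀ m : Ideal F[X][X], m.IsMaximal → f ∈ m → f ∉ m ^ 2

/-- the valuation of `α` at `P` is even -/
def EvenAt {O : Type*} [CommRing O] (P : Ideal O) (α : O) : Prop :=
  ∃ k : ℕ, α ∈ P ^ (2 * k) ∧ α ∉ P ^ (2 * k + 1)

/-- `α` is a square at `P`, up to squares of the fraction field: `a² d = α c` with `c, d` units at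
`P` and `c d` a square modulo `P` -/
def SqLoc {O : Type*} [CommRing O] (P : Ideal O) (α : O) : Prop :=
  ∃ a c d : O, a ^ 2 * d = α * c ∧ c ∉ P ∧ d ∉ P ∧ IsSquare (Ideal.Quotient.mk P (c * d))

/-- type at a place of `S`: `f ≡ (x - r) h` modulo `π`, `h` irreducible of degree `2g` mod `π` -/
structure TypeS {F : Type*} [Field F] (g : ℕ) (f : F[X][X]) (π r : F[X]) (h : F[X][X]) : Prop where
  hπ : Irreducible π
  hπm : π.Monic
  hh : h.Monic
  deg : h.natDegree = 2 * g
  irr : Irreducible (h.map (AdjoinRoot.mk π))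
  dvd : C π ∣ f - (X - C r) * h

/-- inert type at a place of `S'` -/
structure TypeI {F : Type*} [Field F] (f : F[X][X]) (π : F[X]) : Prop where
  hπ : Irreducible π
  hπm : π.Monic
  irr : Irreducible (f.map (AdjoinRoot.mk π))

/-- the prime of degree `2g` over `π` -/
noncomputable def P1 {F : Type*} [Field F] (f : F[X][X]) (π : F[X]) (h : F[X][X]) :
    Ideal (AdjoinRoot f) :=
  Ideal.span {AdjoinRoot.of f π, AdjoinRoot.mk f h}

/-- the prime of degree `1` over `π` -/
noncomputable def P2 {F : Type*} [Field F] (f : F[X][X]) (π r : F[X]) : Ideal (AdjoinRoot f) :=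
  Ideal.span {AdjoinRoot.of f π, AdjoinRoot.root f - AdjoinRoot.of f r}

/-- the everywhere even elements of square norm: `(x) = I²` -/
def Sg {F : Type*} [Field F] (f : F[X][X]) (x : AdjoinRoot f) : Prop :=
  x ≠ 0 ∧ (∃ I : Ideal (AdjoinRoot f), I ^ 2 = Ideal.span {x}) ∧ IsSquare (Algebra.norm F[X] x)

/-- the standing assumptions on `f`, without regularity: `w` is the top form -/
structure Pre {F : Type*} [Field F] (g n : ℕ) (w : F[X]) (f : F[X][X]) : Prop where
  hg : 1 ≤ g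
  mem : f ∈ BoxW w g n
  wm : w.Monic
  wdeg : w.natDegree = 2 * g + 1
  wirr : Irreducible w

/-- the standing assumptions on `f` -/
structure Good {F : Type*} [Field F] (g n : ℕ) (w : F[X]) (f : F[X][X]) : Prop extends
    Pre g n w f where
  hn : 1 ≤ n
  reg : Reg f

theorem Pre.monic {F : Type*} [Field F] {g n : ℕ} {w : F[X]} {f : F[X][X]} (h : Pre g n w f) :
    f.Monic := h.mem.1.1

theorem Pre.natDegree {F : Type*} [Field F] {g n : ℕ} {w : F[X]} {f : F[X][X]}
    (h : Pre g n w f) : f.natDegree = 2 * g + 1 := h.mem.1.2.1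

/-- the distinguished orbit: `w, T w, …, T^{N-1} w` (`T = G⁻¹ B`) with Gram matrix
`⟨T^i w, w⟩ = 0` (`i < N-1`), `1` (`i = N-1`) -/
def Dist {κ : Type*} [CommRing κ] {N : ℕ} (G B : Matrix (Fin N) (Fin N) κ) : Prop :=
  ∃ w : Fin N → κ, ∀ i : ℕ, i < N →
    w ⬝ᵥ ((G * (G⁻¹ * B) ^ i).mulVec w) = if i + 1 = N then 1 else 0

/-- `det (x G - B)` -/
noncomputable def cdet {A : Type*} [CommRing A] {N : ℕ} (G B : Matrix (Fin N) (Fin N) A) : A[X] :=
  ((X : A[X]) • G.map C - B.map C).det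

/-- splitting types of the bundles of nontrivial classes -/
structure TypeOK (g n : ℕ) (d : Fin (2 * g + 1) → ℤ) : Prop where
  anti : Antitone d
  symm : ∀ i, d i + d i.rev = 0
  top : ∀ i : Fin (2 * g + 1), (i : ℕ) + 1 = g → 2 * d i ≤ n
  gap : ∀ i j : Fin (2 * g + 1), (j : ℕ) = i + 1 → d i - d j ≤ n

/-- pairs of symmetric matrices over `F[t]` of type `d` -/
def PSet (F : Type*) [Field F] (g n : ℕ) (d : Fin (2 * g + 1) → ℤ) :
    Set (Matrix (Fin (2 * g + 1)) (Fin (2 * g + 1)) F[X] ×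
      Matrix (Fin (2 * g + 1)) (Fin (2 * g + 1)) F[X]) :=
  {p | p.1.IsSymm ∧ p.2.IsSymm ∧ IsUnit p.1.det ∧
    (∀ i j, p.1 i j ≠ 0 → ((p.1 i j).natDegree : ℤ) ≤ - d i - d j) ∧
    ∀ i j, p.2 i j ≠ 0 → ((p.2 i j).natDegree : ℤ) ≤ n - d i - d j}

/-- the unipotent group of type `d` -/
def Ud (F : Type*) [Field F] {N : ℕ} (d : Fin N → ℤ) : Set (Matrix (Fin N) (Fin N) F[X]) :=
  {u | (∀ i, u i i = 1) ∧ (∀ i j, j < i → u i j = 0) ∧
    ∀ i j, i < j → u i j ≠ 0 → ((u i j).natDegree : ℤ) ≤ d i - d j}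

/-- exponent of the number of matrices `G` of type `d` -/
def eG {N : ℕ} (d : Fin N → ℤ) : ℕ := ∑ i, ∑ j ∈ Finset.Ici i, (1 - d i - d j).toNat

/-- exponent of the number of matrices `B` of type `d` -/
def eB {N : ℕ} (n : ℕ) (d : Fin N → ℤ) : ℕ := ∑ i, ∑ j ∈ Finset.Ici i, (n + 1 - d i - d j).toNat

/-- exponent of the number of elements of the unipotent group of type `d` -/
def eU {N : ℕ} (d : Fin N → ℤ) : ℕ := ∑ i, ∑ j ∈ Finset.Ioi i, (d i - d j + 1).toNat

/-- monic polynomials of degree `2g+1` with a root and an irreducible cofactor -/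
def TS (κ : Type*) [CommRing κ] (g : ℕ) : Set κ[X] :=
  {p | ∃ (r : κ) (h : κ[X]), h.Monic ∧ h.natDegree = 2 * g ∧ Irreducible h ∧ p = (X - C r) * h}

/-- monic irreducible polynomials of degree `2g+1` -/
def TI (κ : Type*) [CommRing κ] (g : ℕ) : Set κ[X] :=
  {p | p.Monic ∧ p.natDegree = 2 * g + 1 ∧ Irreducible p}

/-- a family of `2k` distinct monic irreducible polynomials of degree `D` -/
structure Places {F : Type*} [Field F] (k D : ℕ) (π π' : Fin k → F[X]) : Prop where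
  monic : ∀ i, (π i).Monic
  monic' : ∀ i, (π' i).Monic
  irr : ∀ i, Irreducible (π i)
  irr' : ∀ i, Irreducible (π' i)
  deg : ∀ i, (π i).natDegree = D
  deg' : ∀ i, (π' i).natDegree = D
  inj : Function.Injective (Sum.elim π π')

/-- the local conditions on `f` -/
def LocOK {F : Type*} [Field F] (g : ℕ) {k : ℕ} (π π' : Fin k → F[X]) (f : F[X][X]) : Prop :=
  (∀ i, f.map (AdjoinRoot.mk (π i)) ∈ TS (AdjoinRoot (π i)) g) ∧
  ∀ i, f.map (AdjoinRoot.mk (π' i)) ∈ TI (AdjoinRoot (π' i)) g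

/-- the proportion of the local conditions -/
noncomputable def rho {F : Type*} [Field F] (g : ℕ) {k : ℕ} (π π' : Fin k → F[X]) : ℝ :=
  (∏ i, ((TS (AdjoinRoot (π i)) g).ncard : ℝ) / (Nat.card (AdjoinRoot (π i)) : ℝ) ^ (2 * g + 1)) *
  ∏ i, ((TI (AdjoinRoot (π' i)) g).ncard : ℝ) / (Nat.card (AdjoinRoot (π' i)) : ℝ) ^ (2 * g + 1)

/-- representatives of the monic polynomials of degree `2g+1` modulo `m` -/
def Rep {F : Type*} [Field F] (g : ℕ) (m : F[X]) : Set F[X][X] :=
  {f | f.Monic ∧ f.natDegree = 2 * g + 1 ∧ ∀ j, j ≤ 2 * g → (f.coeff j).degree < m.degree}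

/-- the local condition on a pair of matrices -/
def LocP {κ : Type*} [CommRing κ] {N : ℕ} (T : Set κ[X]) (G B : Matrix (Fin N) (Fin N) κ) : Prop :=
  Dist G B ∧ ∃ f₀ ∈ T, cdet G B = C G.det * f₀

/-- pairs of type `d` with the local conditions -/
def QSet {F : Type*} [Field F] (g n : ℕ) {k : ℕ} (π π' : Fin k → F[X])
    (d : Fin (2 * g + 1) → ℤ) : Set (Matrix (Fin (2 * g + 1)) (Fin (2 * g + 1)) F[X] ×
      Matrix (Fin (2 * g + 1)) (Fin (2 * g + 1)) F[X]) :=
  {p | p ∈ PSet F g n d ∧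
    (∀ i, LocP (TS (AdjoinRoot (π i)) g) (p.1.map (AdjoinRoot.mk (π i)))
      (p.2.map (AdjoinRoot.mk (π i)))) ∧
    ∀ i, LocP (TI (AdjoinRoot (π' i)) g) (p.1.map (AdjoinRoot.mk (π' i)))
      (p.2.map (AdjoinRoot.mk (π' i)))}

/-- the polynomials with the local conditions and with a pencil of type `d` which is
distinguished at all the places -/
def SSet {F : Type*} [Field F] (w : F[X]) (g n : ℕ) {k : ℕ} (π π' : Fin k → F[X])
    (d : Fin (2 * g + 1) → ℤ) : Set F[X][X] :=
  {f | f ∈ BoxW w g n ∧ LocOK g π π' f ∧ ∃ p ∈ PSet F g n d, cdet p.1 p.2 = C p.1.det * f ∧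
    (∀ i, Dist (p.1.map (AdjoinRoot.mk (π i))) (p.2.map (AdjoinRoot.mk (π i)))) ∧
    ∀ i, Dist (p.1.map (AdjoinRoot.mk (π' i))) (p.2.map (AdjoinRoot.mk (π' i)))}

/-- `f` has a nontrivial class which is trivial at all places of `S` -/
def BadStrict {F : Type*} [Field F] (g : ℕ) {k : ℕ} (π : Fin k → F[X]) (f : F[X][X]) : Prop :=
  ∃ x, Sg f x ∧ ¬ IsSquare x ∧ ∀ i r h, TypeS g f (π i) r h → SqLoc (P2 f (π i) r) x

/-- `f` has a singular point over `π` -/
def IrrAt {F : Type*} [Field F] (f : F[X][X]) (π : F[X]) : Prop :=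
  ∃ v : F[X][X], v.Monic ∧ Irreducible (v.map (AdjoinRoot.mk π)) ∧
    f ∈ Ideal.span {C (π ^ 2), C π * v, v ^ 2}

/-- `dim_F O/I` -/
noncomputable def ix {F : Type*} [Field F] {f : F[X][X]} (I : Ideal (AdjoinRoot f)) : ℕ :=
  Module.finrank F (AdjoinRoot f ⧸ I)

/-- the conditions on `α ∈ A[x]/(f)` which follow from the local conditions of the 2-Selmer group
of `y² = u f(x)` -/
structure TwSel {F : Type*} [Field F] (g : ℕ) (f : F[X][X]) (u : F[X]) (α : AdjoinRoot f) :
    Prop where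
  ne : α ≠ 0
  norm : IsSquare (Algebra.norm F[X] α)
  even : ∀ π : F[X], Irreducible π → π.Monic → ¬ π ∣ u → ∀ P : Ideal (AdjoinRoot f), P.IsMaximal →
    AdjoinRoot.of f π ∈ P → EvenAt P α
  tw : ∀ π r h, TypeS g f π r h → π ∣ u → ¬ π ^ 2 ∣ u → EvenAt (P1 f π h) α → SqLoc (P2 f π r) α

/-- a completion of `F(t)` at the irreducible polynomial `π`, with its integers `R` -/
structure LocData {F : Type*} [Field F] (π : F[X]) (R M : Type*) [CommRing R] [IsDomain R]
    [Field M] [Algebra R M] [Algebra F[X] R] [Algebra (RatFunc F) M] : Prop where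
  dvr : IsDiscreteValuationRing R
  frac : IsFractionRing R M
  compl : IsAdicComplete (Ideal.span {algebraMap F[X] R π}) R
  unif : Irreducible (algebraMap F[X] R π)
  comp : ∀ a : F[X], algebraMap R M (algebraMap F[X] R a) =
    algebraMap (RatFunc F) M (algebraMap F[X] (RatFunc F) a)
  surj : ∀ (r : R) (k : ℕ), ∃ a : F[X], (algebraMap F[X] R π) ^ k ∣ r - algebraMap F[X] R a
  inj : ∀ (a : F[X]) (k : ℕ), (algebraMap F[X] R π) ^ k ∣ algebraMap F[X] R a → π ^ k ∣ a

/-- `w` is the valuation on the units of `M[x]/(f)` belonging to the maximal ideal `m` of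
`R[x]` -/
def IsVal {R M : Type*} [CommRing R] [Field M] [Algebra R M] (f : R[X]) (m : Ideal R[X])
    (w : (AdjoinRoot (f.map (algebraMap R M)))ˣ →* Multiplicative ℤ) : Prop :=
  ∀ (P : R[X]) (a : (AdjoinRoot (f.map (algebraMap R M)))ˣ),
    (a : AdjoinRoot (f.map (algebraMap R M))) = AdjoinRoot.mk _ (P.map (algebraMap R M)) →
    ∀ j : ℕ, (w a = Multiplicative.ofAdd (j : ℤ) ↔
      P ∈ m ^ j ⊔ Ideal.span {f} ∧ P ∉ m ^ (j + 1) ⊔ Ideal.span {f})

end Pool.Agent.Helper96.PS
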