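import Pool.Agent.Helper96.PS.Defs

/-!
# PS A0: the weighted degree, basic properties

`dg(∑ c_j θ^j) = max_j (deg c_j + j n)`.
-/

namespace Pool.Agent.Helper96.PS

open Polynomial

variable {F : Type*} [Field F] {f : F[X][X]}

theorem dg_zero (hf : f.Monic) (n : ℕ) : dg hf n 0 = ⊥ := by
  unfold dg
  simp

theorem co_le_dg (hf : f.Monic) (n j : ℕ) (a : AdjoinRoot f) :
    (co hf j a).degree + ((j * n : ℕ) : WithBot ℕ) ≤ dg hf n a := by
  by_cases hj : j < f.natDegree
  · unfold dg co
    exact Finset.le_sup (f := fun j => ((AdjoinRoot.modByMonicHom hf a).coeff j).degree +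
      ((j * n : ℕ) : WithBot ℕ)) (Finset.mem_range.2 hj)
  · have h0 : co hf j a = 0 := by
      unfold co
      simp only [LinearMap.comp_apply, lcoeff_apply]
      apply coeff_eq_zero_of_degree_lt
      obtain ⟨p, rfl⟩ := AdjoinRoot.mk_surjective a
      rw [AdjoinRoot.modByMonicHom_mk]
      refine (degree_modByMonic_lt p hf).trans_le ?_
      rw [degree_eq_natDegree hf.ne_zero]
      exact_mod_cast not_lt.1 hj
    rw [h0, degree_zero, WithBot.bot_add]
    exact bot_le

theorem dg_le_iff (hf : f.Monic) (n : ℕ) (a : AdjoinRoot f) (m : WithBot ℕ) :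
    dg hf n a ≤ m ↔ ∀ j, (co hf j a).degree + ((j * n : ℕ) : WithBot ℕ) ≤ m := by
  constructor
  · intro h j
    exact (co_le_dg hf n j a).trans h
  · intro h
    exact Finset.sup_le fun j _ => h j

theorem eq_zero_of_co (hf : f.Monic) (a : AdjoinRoot f) (h : ∀ j, co hf j a = 0) : a = 0 := by
  have h1 : AdjoinRoot.modByMonicHom hf a = 0 := by
    ext1 j
    exact h j
  rw [← AdjoinRoot.mk_leftInverse hf a, h1, map_zero]

theorem dg_eq_bot (hf : f.Monic) (n : ℕ) (a : AdjoinRoot f) : dg hf n a = ⊥ ↔ a = 0 := by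
  constructor
  · intro h
    apply eq_zero_of_co hf
    intro j
    have h1 := co_le_dg hf n j a
    rw [h, le_bot_iff, WithBot.add_eq_bot] at h1
    rcases h1 with h1 | h1
    · exact degree_eq_bot.1 h1
    · exact absurd h1 (WithBot.coe_ne_bot)
  · rintro rfl
    exact dg_zero hf n

theorem dg_add_le (hf : f.Monic) (n : ℕ) (a b : AdjoinRoot f) :
    dg hf n (a + b) ≤ max (dg hf n a) (dg hf n b) := by
  rw [dg_le_iff]
  intro j
  rw [map_add]
  refine (add_le_add (degree_add_le _ _) le_rfl).trans ?_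
  rcases le_total (co hf j a).degree (co hf j b).degree with h | h
  · rw [max_eq_right h]
    exact (co_le_dg hf n j b).trans (le_max_right _ _)
  · rw [max_eq_left h]
    exact (co_le_dg hf n j a).trans (le_max_left _ _)

theorem co_of_mul (hf : f.Monic) (j : ℕ) (c : F[X]) (a : AdjoinRoot f) :
    co hf j (AdjoinRoot.of f c * a) = c * co hf j a := by
  have : AdjoinRoot.of f c * a = c • a := by
    rw [Algebra.smul_def]
    rfl
  rw [this, map_smul, smul_eq_mul]

theorem dg_of_mul (hf : f.Monic) (n : ℕ) (c : F[X]) (a : AdjoinRoot f) :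
    dg hf n (AdjoinRoot.of f c * a) = c.degree + dg hf n a := by
  by_cases hc : c = 0
  · subst hc
    rw [map_zero, zero_mul, dg_zero, degree_zero, WithBot.bot_add]
  apply le_antisymm
  · rw [dg_le_iff]
    intro j
    rw [co_of_mul, degree_mul, add_assoc]
    exact add_le_add le_rfl (co_le_dg hf n j a)
  · by_cases ha : a = 0
    · subst ha
      rw [dg_zero, WithBot.add_bot]
      exact bot_le
    have hne : (Finset.range f.natDegree).Nonempty := by
      by_contra hcon
      apply ha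
      rw [← dg_eq_bot hf n]
      unfold dg
      rw [Finset.not_nonempty_iff_eq_empty.1 hcon]
      rfl
    obtain ⟨j, hj, hj2⟩ := Finset.exists_mem_eq_sup (Finset.range f.natDegree) hne
      (fun j => ((AdjoinRoot.modByMonicHom hf a).coeff j).degree + ((j * n : ℕ) : WithBot ℕ))
    have h1 : dg hf n a = (co hf j a).degree + ((j * n : ℕ) : WithBot ℕ) := hj2
    rw [h1, ← add_assoc, ← degree_mul, ← co_of_mul hf]
    exact co_le_dg hf n j _

theorem dg_neg (hf : f.Monic) (n : ℕ) (a : AdjoinRoot f) : dg hf n (-a) = dg hf n a := by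
  have h := dg_of_mul hf n (-1) a
  rw [map_neg, map_one, neg_one_mul] at h
  rw [h]
  simp

theorem exists_dg (hf : f.Monic) (n : ℕ) {a : AdjoinRoot f} (ha : a ≠ 0) :
    ∃ m : ℕ, dg hf n a = m := by
  have h : dg hf n a ≠ ⊥ := fun h => ha ((dg_eq_bot hf n a).1 h)
  obtain ⟨m, hm⟩ := WithBot.ne_bot_iff_exists.1 h
  exact ⟨m, hm.symm⟩

theorem of_C_mul (c : F) (a : AdjoinRoot f) : AdjoinRoot.of f (C c) * a = c • a := by
  rw [Algebra.smul_def]
  rfl

/-- the elements of the ideal `I` of weighted degree `< m` -/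
def lev (hf : f.Monic) (n : ℕ) (I : Ideal (AdjoinRoot f)) (m : ℕ) :
    Submodule F (AdjoinRoot f) where
  carrier := {a | a ∈ I ∧ dg hf n a < m}
  add_mem' := by
    rintro a b ⟨ha, ha2⟩ ⟨hb, hb2⟩
    exact ⟨I.add_mem ha hb, (dg_add_le hf n a b).trans_lt (max_lt ha2 hb2)⟩
  zero_mem' := by
    refine ⟨I.zero_mem, ?_⟩
    rw [dg_zero]
    exact WithBot.bot_lt_coe m
  smul_mem' := by
    rintro c a ⟨ha, ha2⟩
    rw [← of_C_mul]
    refine ⟨I.mul_mem_left _ ha, ?_⟩
    rw [dg_of_mul]
    refine lt_of_le_of_lt ?_ ha2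
    calc (C c).degree + dg hf n a ≤ 0 + dg hf n a := add_le_add degree_C_le le_rfl
      _ = dg hf n a := zero_add _

theorem mem_lev (hf : f.Monic) (n : ℕ) (I : Ideal (AdjoinRoot f)) (m : ℕ) (a : AdjoinRoot f) :
    a ∈ lev hf n I m ↔ a ∈ I ∧ dg hf n a < m := Iff.rfl

end Pool.Agent.Helper96.PS
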