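import Pool.Agent.Helper96.PS.DgBasic

/-!
# PS-A1: the weighted degree is multiplicative; `f` is irreducible

Proof. Let `Ψ : F[t][x] → F[x][t]` be the ring homomorphism `t ↦ t`, `x ↦ x t^n`, constants to constants
(e.g. `Polynomial.eval₂RingHom (mapRingHom C) (C X * X ^ n)`). For `P = ∑ P_j x^j`: the degree in `t` of `Ψ P` is
`wdeg P = max (deg P_j + j n)`, and its leading coefficient in `t` is `∑_j coeff_{wdeg P - jn}(P_j) x^j ∈ F[x]`
(the monomials `t^a x^j ↦ x^j t^{a + j n}` are distinct). `F[x][t]` is a domain, so `wdeg` is additive and the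
leading coefficients (in `F[x]`) multiply. `Ψ f` has degree `N n` (`N = 2g+1`) and leading coefficient `w(x)`, by
`h.mem` (for `j < N` the coefficient of `t^{(N-j)n}` of `f.coeff j` is `w_j`, and `deg (f.coeff j) ≤ (N-j) n`).

For `a ∈ A[x]/(f)` let `R = modByMonicHom a` (`deg_x R < N`): `dg a = wdeg R`. Let `R₁, R₂` be the reduced
representatives of `a, b ≠ 0`, `l₁, l₂ ∈ F[x]` their leading coefficients: nonzero of degree `< N` in `x`. The irreducible
(so prime) `w` of degree `N` does not divide `l₁, l₂`, so not `l₁ l₂`. Divide: `R₁ R₂ = Q f + R`. If `Q = 0` done. Otherwise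
compare `wdeg (Q f)` (leading coefficient `lead(Q) w`) with `wdeg (R₁ R₂)` (leading coefficient `l₁ l₂`):
* `>`: then `R = R₁R₂ - Q f` has leading coefficient `- lead(Q) w`, of degree `≥ N` in `x`, but `R` is reduced: contradiction;
* `=`: `l₁ l₂ - lead(Q) w ≠ 0`, so `wdeg R = wdeg R₁R₂`;
* `<`: `wdeg R = wdeg R₁R₂`.
So `dg (ab) = dg a + dg b`. Domain: `dg = ⊥` iff `a = 0`; nontrivial since `f` is monic of degree `≥ 1`. `f` is
prime in `A[x]` (quotient a domain, `f ≠ 0`), so irreducible, and irreducible over `K = RatFunc F` by Gauss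
(`Polynomial.Monic.irreducible_iff_irreducible_map_fraction_map`).
`dg θ = n`: `θ` is reduced since `N ≥ 3`. `dg (of c) = deg c` from `dg_of_mul` and `dg 1 = 0`.
-/

namespace Pool.Agent.Helper96.PS

open Polynomial

variable {F : Type*} [Field F] {g n : ℕ} {w : F[X]} {f : F[X][X]}

/-- the change of variables `t ↦ t`, `x ↦ x t ^ n` -/
private noncomputable def dpsi (F : Type*) [Field F] (n : ℕ) : F[X][X] →+* F[X][X] :=
  Polynomial.eval₂RingHom (Polynomial.mapRingHom (C : F →+* F[X])) (C X * X ^ n)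

private theorem dpsi_coeff (n : ℕ) (P : F[X][X]) (m j : ℕ) :
    ((dpsi F n P).coeff m).coeff j = if j * n ≤ m then (P.coeff j).coeff (m - j * n) else 0 := by
  induction P using Polynomial.induction_on' with
  | add p q hp hq =>
    rw [map_add, coeff_add, coeff_add, hp, hq, coeff_add, coeff_add]
    split_ifs <;> simp
  | monomial k c =>
    have h1 : dpsi F n (monomial k c) = c.map C * C (X ^ k) * X ^ (k * n) := by
      simp only [dpsi, coe_eval₂RingHom, eval₂_monomial, coe_mapRingHom]
      rw [mul_pow, ← C_pow, ← pow_mul, mul_comm n k, mul_assoc]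
    rw [h1, coeff_mul_X_pow']
    by_cases hjk : j = k
    · subst hjk
      split_ifs with h
      · rw [coeff_mul_C, coeff_map, coeff_C_mul, coeff_X_pow, if_pos rfl, mul_one,
          coeff_monomial_same]
      · simp
    · rw [coeff_monomial_of_ne c hjk]
      split_ifs with h1 h2
      · rw [coeff_mul_C, coeff_map, coeff_C_mul, coeff_X_pow, if_neg hjk]
        simp
      · rw [coeff_mul_C, coeff_map, coeff_C_mul, coeff_X_pow, if_neg hjk]
        simp
      · simp
      · simp

private theorem dpsi_degree_le (n : ℕ) (P : F[X][X]) (m : WithBot ℕ) :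
    (dpsi F n P).degree ≤ m ↔ ∀ j, (P.coeff j).degree + ((j * n : ℕ) : WithBot ℕ) ≤ m := by
  rw [degree_le_iff_coeff_zero]
  constructor
  · intro h j
    by_cases h0 : P.coeff j = 0
    · rw [h0, degree_zero, WithBot.bot_add]
      exact bot_le
    · rw [degree_eq_natDegree h0]
      by_contra hcon
      rw [not_le] at hcon
      have h1 := h ((P.coeff j).natDegree + j * n) (by exact_mod_cast hcon)
      have h2 := dpsi_coeff n P ((P.coeff j).natDegree + j * n) j
      rw [h1, if_pos (Nat.le_add_left _ _), Nat.add_sub_cancel, coeff_zero] at h2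
      exact h0 (leadingCoeff_eq_zero.1 h2.symm)
  · intro h k hk
    ext j
    rw [dpsi_coeff, coeff_zero]
    split_ifs with h1
    · apply coeff_eq_zero_of_degree_lt
      by_contra hcon
      rw [not_lt] at hcon
      have h2 := h j
      have h3 : ((k : ℕ) : WithBot ℕ) ≤ m := by
        refine le_trans ?_ h2
        calc ((k : ℕ) : WithBot ℕ) = ((k - j * n : ℕ) : WithBot ℕ) + ((j * n : ℕ) : WithBot ℕ) := by
              rw [← Nat.cast_add, Nat.sub_add_cancel h1]
          _ ≤ _ := add_le_add hcon le_rfl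
      exact absurd (lt_of_lt_of_le hk h3) (lt_irrefl _)
    · rfl

private theorem dpsi_ne_zero (n : ℕ) {P : F[X][X]} (hP : P ≠ 0) : dpsi F n P ≠ 0 := by
  intro h0
  apply hP
  ext j k
  have h1 := dpsi_coeff n P (k + j * n) j
  rw [h0, coeff_zero, coeff_zero, if_pos (Nat.le_add_left _ _), Nat.add_sub_cancel] at h1
  rw [coeff_zero, coeff_zero]
  exact h1.symm

private theorem dg_eq_dpsi (hf : f.Monic) (n : ℕ) (a : AdjoinRoot f) :
    dg hf n a = (dpsi F n (AdjoinRoot.modByMonicHom hf a)).degree := by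
  apply eq_of_forall_ge_iff
  intro m
  rw [dg_le_iff, dpsi_degree_le]
  rfl

private theorem dpsi_f_le (h : Pre g n w f) : (dpsi F n f).degree ≤ (((2 * g + 1) * n : ℕ) : WithBot ℕ) := by
  rw [dpsi_degree_le]
  intro j
  rcases lt_trichotomy j (2 * g + 1) with hj | hj | hj
  · have h1 := h.mem.1.2.2 j (by omega)
    by_cases h0 : f.coeff j = 0
    · rw [h0, degree_zero, WithBot.bot_add]
      exact bot_le
    · rw [degree_eq_natDegree h0]
      have h2 : (f.coeff j).natDegree + j * n ≤ (2 * g + 1) * n := by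
        calc (f.coeff j).natDegree + j * n ≤ (2 * g + 1 - j) * n + j * n := by omega
          _ = (2 * g + 1) * n := by rw [← add_mul, Nat.sub_add_cancel hj.le]
      exact_mod_cast h2
  · subst hj
    have h1 : f.coeff (2 * g + 1) = 1 := by
      have := h.monic.coeff_natDegree
      rwa [h.natDegree] at this
    rw [h1, degree_one, zero_add]
  · rw [coeff_eq_zero_of_natDegree_lt (by rw [h.natDegree]; exact hj), degree_zero,
      WithBot.bot_add]
    exact bot_le

private theorem dpsi_f_coeff (h : Pre g n w f) : (dpsi F n f).coeff ((2 * g + 1) * n) = w := by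
  ext j
  rw [dpsi_coeff]
  rcases lt_trichotomy j (2 * g + 1) with hj | hj | hj
  · rw [if_pos (Nat.mul_le_mul_right n hj.le), ← Nat.sub_mul]
    exact h.mem.2 j (by omega)
  · subst hj
    have h1 : f.coeff (2 * g + 1) = 1 := by
      have := h.monic.coeff_natDegree
      rwa [h.natDegree] at this
    have h2 : w.coeff (2 * g + 1) = 1 := by
      have := h.wm.coeff_natDegree
      rwa [h.wdeg] at this
    rw [if_pos le_rfl, h1, Nat.sub_self, coeff_one_zero, h2]
  · rw [coeff_eq_zero_of_natDegree_lt (show f.natDegree < j by rw [h.natDegree]; exact hj),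
      coeff_zero, coeff_eq_zero_of_natDegree_lt (show w.natDegree < j by rw [h.wdeg]; exact hj)]
    split_ifs <;> rfl

private theorem dpsi_f_natDegree (h : Pre g n w f) :
    (dpsi F n f).natDegree = (2 * g + 1) * n := by
  apply le_antisymm
  · exact natDegree_le_of_degree_le (dpsi_f_le h)
  · apply le_natDegree_of_ne_zero
    rw [dpsi_f_coeff h]
    exact h.wirr.ne_zero

private theorem dpsi_f_lead (h : Pre g n w f) : (dpsi F n f).leadingCoeff = w := by
  rw [leadingCoeff, dpsi_f_natDegree h, dpsi_f_coeff h]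

/-- the coefficients of `Ψ R`, `R` reduced, have degree `< N` -/
private theorem dpsi_coeff_degree_lt (n N : ℕ) (R : F[X][X]) (hR : R.degree < N) (m : ℕ) :
    ((dpsi F n R).coeff m).degree < N := by
  rw [degree_lt_iff_coeff_zero]
  intro j hj
  rw [dpsi_coeff, coeff_eq_zero_of_degree_lt (lt_of_lt_of_le hR (by exact_mod_cast hj))]
  simp

private theorem not_dvd_coeff (h : Pre g n w f) (R : F[X][X])
    (hR : R.degree < ((2 * g + 1 : ℕ) : WithBot ℕ)) (m : ℕ)
    (h0 : (dpsi F n R).coeff m ≠ 0) : ¬ w ∣ (dpsi F n R).coeff m := by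
  intro hdvd
  have h1 := degree_le_of_dvd hdvd h0
  have h2 := dpsi_coeff_degree_lt n (2 * g + 1) R hR m
  rw [degree_eq_natDegree h.wirr.ne_zero, h.wdeg] at h1
  exact absurd (lt_of_le_of_lt h1 h2) (lt_irrefl _)

private theorem red_degree (h : Pre g n w f) (P : F[X][X]) :
    (P %ₘ f).degree < ((2 * g + 1 : ℕ) : WithBot ℕ) := by
  have h1 := degree_modByMonic_lt P h.monic
  rwa [degree_eq_natDegree h.monic.ne_zero, h.natDegree] at h1

private theorem dpsi_mod (h : Pre g n w f) (R₁ R₂ : F[X][X])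
    (hR₁ : R₁.degree < ((2 * g + 1 : ℕ) : WithBot ℕ))
    (hR₂ : R₂.degree < ((2 * g + 1 : ℕ) : WithBot ℕ)) (h₁ : R₁ ≠ 0) (h₂ : R₂ ≠ 0) :
    (dpsi F n ((R₁ * R₂) %ₘ f)).degree = (dpsi F n R₁).degree + (dpsi F n R₂).degree := by
  have e : dpsi F n ((R₁ * R₂) %ₘ f) + dpsi F n f * dpsi F n ((R₁ * R₂) /ₘ f) =
      dpsi F n R₁ * dpsi F n R₂ := by
    rw [← map_mul, ← map_add, modByMonic_add_div, map_mul]
  have hRd := red_degree h (R₁ * R₂)
  set R := (R₁ * R₂) %ₘ f with hR
  set Q := (R₁ * R₂) /ₘ f with hQ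
  set p₁ := dpsi F n R₁ with hp₁
  set p₂ := dpsi F n R₂ with hp₂
  set q := dpsi F n f * dpsi F n Q with hq
  have hp₁0 : p₁ ≠ 0 := dpsi_ne_zero n h₁
  have hp₂0 : p₂ ≠ 0 := dpsi_ne_zero n h₂
  have hw : Prime w := h.wirr.prime
  have hl : ¬ w ∣ p₁.leadingCoeff * p₂.leadingCoeff := by
    intro hd
    rcases hw.dvd_or_dvd hd with hd | hd
    · exact not_dvd_coeff h R₁ hR₁ _ (leadingCoeff_ne_zero.2 hp₁0) hd
    · exact not_dvd_coeff h R₂ hR₂ _ (leadingCoeff_ne_zero.2 hp₂0) hd
  have hqw : w ∣ q.leadingCoeff := by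
    rw [hq, leadingCoeff_mul, dpsi_f_lead h]
    exact dvd_mul_right _ _
  have hD : (p₁ * p₂).natDegree = p₁.natDegree + p₂.natDegree := natDegree_mul hp₁0 hp₂0
  have hDne : p₁ * p₂ ≠ 0 := mul_ne_zero hp₁0 hp₂0
  have hqle : q.natDegree ≤ (p₁ * p₂).natDegree := by
    by_contra hcon
    rw [not_le] at hcon
    have hq0 : q ≠ 0 := by
      intro h0
      rw [h0, natDegree_zero] at hcon
      omega
    have h3 : (dpsi F n R).coeff q.natDegree = - q.leadingCoeff := by
      have h4 := congrArg (fun u => coeff u q.natDegree) e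
      simp only [coeff_add] at h4
      rw [coeff_eq_zero_of_natDegree_lt hcon] at h4
      rw [leadingCoeff]
      linear_combination h4
    have h5 : (dpsi F n R).coeff q.natDegree ≠ 0 := by
      rw [h3]
      exact neg_ne_zero.2 (leadingCoeff_ne_zero.2 hq0)
    apply not_dvd_coeff h R hRd _ h5
    rw [h3]
    exact (dvd_neg).2 hqw
  have hqc : w ∣ q.coeff (p₁ * p₂).natDegree := by
    rcases hqle.lt_or_eq with h6 | h6
    · rw [coeff_eq_zero_of_natDegree_lt h6]
      exact dvd_zero _
    · rw [← h6]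
      exact hqw
  have hRc : (dpsi F n R).coeff (p₁ * p₂).natDegree ≠ 0 := by
    intro h0
    have h4 := congrArg (fun u => coeff u (p₁ * p₂).natDegree) e
    simp only [coeff_add] at h4
    rw [h0, zero_add] at h4
    apply hl
    rw [← leadingCoeff_mul, leadingCoeff, ← h4]
    exact hqc
  have hRle : (dpsi F n R).natDegree ≤ (p₁ * p₂).natDegree := by
    have h7 : dpsi F n R = p₁ * p₂ - q := by
      rw [← e]
      ring
    rw [h7]
    exact (natDegree_sub_le _ _).trans (max_le le_rfl hqle)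
  have hReq : (dpsi F n R).natDegree = (p₁ * p₂).natDegree :=
    le_antisymm hRle (le_natDegree_of_ne_zero hRc)
  have hR0 : dpsi F n R ≠ 0 := by
    intro h0
    rw [h0, coeff_zero] at hRc
    exact hRc rfl
  rw [degree_eq_natDegree hR0, hReq, ← degree_mul, degree_eq_natDegree hDne]

theorem dg_mul (h : Pre g n w f) (a b : AdjoinRoot f) :
    dg h.monic n (a * b) = dg h.monic n a + dg h.monic n b := by
  by_cases ha : a = 0
  · subst ha
    rw [zero_mul, dg_zero, WithBot.bot_add]
  by_cases hb : b = 0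
  · subst hb
    rw [mul_zero, dg_zero, WithBot.add_bot]
  have key : ∀ c : AdjoinRoot f, c ≠ 0 → AdjoinRoot.modByMonicHom h.monic c ≠ 0 := by
    intro c hc h0
    apply hc
    rw [← AdjoinRoot.mk_leftInverse h.monic c, h0, map_zero]
  have hdeg : ∀ c : AdjoinRoot f, (AdjoinRoot.modByMonicHom h.monic c).degree <
      ((2 * g + 1 : ℕ) : WithBot ℕ) := by
    intro c
    obtain ⟨p, rfl⟩ := AdjoinRoot.mk_surjective c
    rw [AdjoinRoot.modByMonicHom_mk]
    exact red_degree h p
  have hab : AdjoinRoot.modByMonicHom h.monic (a * b) =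
      (AdjoinRoot.modByMonicHom h.monic a * AdjoinRoot.modByMonicHom h.monic b) %ₘ f := by
    conv_lhs => rw [← AdjoinRoot.mk_leftInverse h.monic a, ← AdjoinRoot.mk_leftInverse h.monic b,
      ← map_mul]
    rw [AdjoinRoot.modByMonicHom_mk]
  rw [dg_eq_dpsi, dg_eq_dpsi, dg_eq_dpsi, hab]
  exact dpsi_mod h _ _ (hdeg a) (hdeg b) (key a ha) (key b hb)

theorem isDomain (h : Pre g n w f) : IsDomain (AdjoinRoot f) := by
  have h1 : Nontrivial (AdjoinRoot f) := by
    apply AdjoinRoot.nontrivial
    rw [degree_eq_natDegree h.monic.ne_zero, h.natDegree]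
    exact_mod_cast Nat.succ_ne_zero (2 * g)
  have h2 : NoZeroDivisors (AdjoinRoot f) := by
    refine ⟨fun {a b} hab => ?_⟩
    have h3 := dg_mul h a b
    rw [hab, dg_zero] at h3
    rcases WithBot.add_eq_bot.1 h3.symm with h4 | h4
    · exact Or.inl ((dg_eq_bot _ _ _).1 h4)
    · exact Or.inr ((dg_eq_bot _ _ _).1 h4)
  exact NoZeroDivisors.to_isDomain _

theorem irreducible_f (h : Pre g n w f) : Irreducible f := by
  have h1 : IsDomain (F[X][X] ⧸ Ideal.span {f}) := isDomain h
  have h2 := (Ideal.Quotient.isDomain_iff_prime _).1 h1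
  exact ((Ideal.span_singleton_prime h.monic.ne_zero).1 h2).irreducible

theorem irreducible_fK (h : Pre g n w f) : Irreducible (fK f) :=
  (h.monic.irreducible_iff_irreducible_map_fraction_map).1 (irreducible_f h)

theorem dg_root (h : Pre g n w f) : dg h.monic n (AdjoinRoot.root f) = n := by
  have h1 : (X : F[X][X]) %ₘ f = X := by
    rw [modByMonic_eq_self_iff h.monic, degree_X, degree_eq_natDegree h.monic.ne_zero, h.natDegree]
    have := h.hg
    exact_mod_cast (by omega : 1 < 2 * g + 1)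
  rw [dg_eq_dpsi, ← AdjoinRoot.mk_X, AdjoinRoot.modByMonicHom_mk, h1]
  have h2 : dpsi F n X = C X * X ^ n := by simp [dpsi]
  rw [h2, degree_mul, degree_C X_ne_zero, degree_X_pow, zero_add]

theorem dg_of (h : Pre g n w f) (c : F[X]) : dg h.monic n (AdjoinRoot.of f c) = c.degree := by
  have h1 : (1 : F[X][X]) %ₘ f = 1 := by
    rw [modByMonic_eq_self_iff h.monic, degree_one, degree_eq_natDegree h.monic.ne_zero,
      h.natDegree]
    exact_mod_cast Nat.succ_pos _
  have h2 : dg h.monic n (1 : AdjoinRoot f) = 0 := by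
    rw [dg_eq_dpsi, ← map_one (AdjoinRoot.mk f), AdjoinRoot.modByMonicHom_mk, h1, map_one,
      degree_one]
  have h3 := dg_of_mul h.monic n c 1
  rw [mul_one, h2, add_zero] at h3
  exact h3

end Pool.Agent.Helper96.PS
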