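import Pool.Agent.Helper96.PS.CdetGram

/-!
# PS-A9b: local squares give distinguished pairs

`I² = (x)`, `e` a reduced basis of `I`, `y ∈ I`, `y² = x ρ`, `a ∈ O` with `π ∣ a² ρ - 1` in `O`. Then `(G, B) mod π` is distinguished.

Proof. `y a ∈ I`: `y a = ∑ c_i e_i`, `v_i = c_i mod π`. `T` from `exists_theta`: `B = G T`; `G` is unimodular (`isUnit_gram`), so mod `π`: `G⁻¹ B = T`. The coordinates of
`θ^m y a` are `T^m c`. For `b = ∑ b_i e_i`, `b' = ∑ b'_i e_i` in `I`: `b ᵀ G b' = τ(b b' / x)`. So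
`vᵀ G T^m v = τ(θ^m (y a)²/x) = τ(θ^m ρ a²)` mod `π`, and `θ^m ρ a² = θ^m + π (…)`, so this is `τ(θ^m) mod π` = `0` for `m < 2g`, `1` for `m = 2g` (`co_root_pow`).
-/

namespace Pool.Agent.Helper96.PS

open Polynomial

variable {F : Type*} [Field F] {g n : ℕ} {w : F[X]} {f : F[X][X]}

/-- `τ(b b' / x)` is the value of the Gram form -/
private theorem dm_form (h : Pre g n w f) {x : AdjoinRoot f} (hx : x ≠ 0)
    {e : Fin (2 * g + 1) → AdjoinRoot f} (hd : ∀ i j, x ∣ e i * e j)
    (c c' : Fin (2 * g + 1) → F[X]) :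
    c ⬝ᵥ ((gram h.monic x e e).mulVec c') =
      co h.monic (2 * g + 1 - 1) (dv x ((∑ i, AdjoinRoot.of f (c i) * e i) *
        ∑ j, AdjoinRoot.of f (c' j) * e j)) := by
  haveI := isDomain h
  have h1 : (∑ i, AdjoinRoot.of f (c i) * e i) * ∑ j, AdjoinRoot.of f (c' j) * e j =
      x * ∑ i, ∑ j, AdjoinRoot.of f (c i) * (AdjoinRoot.of f (c' j) * dv x (e i * e j)) := by
    rw [Finset.sum_mul_sum, Finset.mul_sum]
    refine Finset.sum_congr rfl fun i _ => ?_
    rw [Finset.mul_sum]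
    refine Finset.sum_congr rfl fun j _ => ?_
    have h2 := mul_dv (hd i j)
    calc AdjoinRoot.of f (c i) * e i * (AdjoinRoot.of f (c' j) * e j) =
        AdjoinRoot.of f (c i) * (AdjoinRoot.of f (c' j) * (e i * e j)) := by ring
      _ = AdjoinRoot.of f (c i) * (AdjoinRoot.of f (c' j) * (x * dv x (e i * e j))) := by rw [h2]
      _ = x * (AdjoinRoot.of f (c i) * (AdjoinRoot.of f (c' j) * dv x (e i * e j))) := by ring
  rw [h1, dv_mul hx, map_sum]
  unfold dotProduct Matrix.mulVec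
  refine Finset.sum_congr rfl fun i _ => ?_
  rw [map_sum]
  unfold dotProduct
  rw [Finset.mul_sum]
  refine Finset.sum_congr rfl fun j _ => ?_
  rw [co_of_mul, co_of_mul]
  show c i * (co h.monic (2 * g + 1 - 1) (dv x (e i * e j)) * c' j) = _
  ring

/-- the coordinates of `θ ^ m b` -/
private theorem dm_pow {e : Fin (2 * g + 1) → AdjoinRoot f}
    {T : Matrix (Fin (2 * g + 1)) (Fin (2 * g + 1)) F[X]}
    (hT : ∀ j, AdjoinRoot.root f * e j = ∑ k, AdjoinRoot.of f (T k j) * e k)
    (c : Fin (2 * g + 1) → F[X]) (m : ℕ) :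
    AdjoinRoot.root f ^ m * ∑ i, AdjoinRoot.of f (c i) * e i =
      ∑ i, AdjoinRoot.of f ((T ^ m).mulVec c i) * e i := by
  have key : ∀ c : Fin (2 * g + 1) → F[X],
      AdjoinRoot.root f * ∑ i, AdjoinRoot.of f (c i) * e i =
        ∑ i, AdjoinRoot.of f (T.mulVec c i) * e i := by
    intro c
    have h1 : ∀ i, AdjoinRoot.root f * (AdjoinRoot.of f (c i) * e i) =
        ∑ k, AdjoinRoot.of f (T k i * c i) * e k := by
      intro i
      calc AdjoinRoot.root f * (AdjoinRoot.of f (c i) * e i) =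
          AdjoinRoot.of f (c i) * (AdjoinRoot.root f * e i) := by ring
        _ = AdjoinRoot.of f (c i) * ∑ k, AdjoinRoot.of f (T k i) * e k := by rw [hT]
        _ = _ := by
          rw [Finset.mul_sum]
          refine Finset.sum_congr rfl fun k _ => ?_
          rw [map_mul]
          ring
    rw [Finset.mul_sum]
    simp only [h1]
    rw [Finset.sum_comm]
    refine Finset.sum_congr rfl fun k _ => ?_
    rw [← Finset.sum_mul, ← map_sum]
    rfl
  induction m with
  | zero =>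
    simp
  | succ m ih =>
    rw [pow_succ', mul_assoc, ih, key, Matrix.mulVec_mulVec, ← pow_succ']

theorem dist_mod (h : Pre g n w f) {x : AdjoinRoot f} (hx : x ≠ 0) {I : Ideal (AdjoinRoot f)}
    (hI : I ^ 2 = Ideal.span {x}) {e : Fin (2 * g + 1) → AdjoinRoot f}
    {δ : Fin (2 * g + 1) → ℕ} (he : RBasis h.monic n I e δ) (π : F[X]) {y ρ a : AdjoinRoot f}
    (hy : y ∈ I) (hyx : y ^ 2 = x * ρ) (ha : AdjoinRoot.of f π ∣ a ^ 2 * ρ - 1) :
    Dist ((gram h.monic x e e).map (AdjoinRoot.mk π))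
      ((gramT h.monic x e e).map (AdjoinRoot.mk π)) := by
  haveI := isDomain h
  have hd : ∀ i j, x ∣ e i * e j := by
    intro i j
    have h1 : e i * e j ∈ I ^ 2 := by
      rw [pow_two]
      exact Ideal.mul_mem_mul (he.mem i) (he.mem j)
    rw [hI] at h1
    exact Ideal.mem_span_singleton.1 h1
  obtain ⟨T, hT, hGT, -⟩ := exists_theta h hx hI he
  obtain ⟨c, hc⟩ := he.span (y * a) (I.mul_mem_right a hy)
  obtain ⟨s, hs⟩ := ha
  have hII : I * I = Ideal.span {x} := by
    rw [← pow_two]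
    exact hI
  have hU : IsUnit ((gram h.monic x e e).map (AdjoinRoot.mk π)).det := by
    have h1 := (isUnit_gram h hx hII he he).map (AdjoinRoot.mk π)
    rwa [RingHom.map_det] at h1
  have hmap : (gramT h.monic x e e).map (AdjoinRoot.mk π) =
      (gram h.monic x e e).map (AdjoinRoot.mk π) * T.map (AdjoinRoot.mk π) := by
    rw [hGT, Matrix.map_mul]
  refine ⟨fun i => AdjoinRoot.mk π (c i), fun m hm => ?_⟩
  rw [hmap, ← Matrix.mul_assoc, Matrix.nonsing_inv_mul _ hU, Matrix.one_mul]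
  have h2 : c ⬝ᵥ ((gram h.monic x e e * T ^ m).mulVec c) =
      co h.monic (2 * g + 1 - 1) (AdjoinRoot.root f ^ m) +
        π * co h.monic (2 * g + 1 - 1) (AdjoinRoot.root f ^ m * s) := by
    rw [← Matrix.mulVec_mulVec, dm_form h hx hd, ← dm_pow hT c m, ← hc]
    have h3 : y * a * (AdjoinRoot.root f ^ m * (y * a)) =
        x * (AdjoinRoot.root f ^ m + AdjoinRoot.of f π * (AdjoinRoot.root f ^ m * s)) := by
      calc y * a * (AdjoinRoot.root f ^ m * (y * a)) =
          AdjoinRoot.root f ^ m * a ^ 2 * y ^ 2 := by ring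
        _ = x * (AdjoinRoot.root f ^ m + AdjoinRoot.root f ^ m * (a ^ 2 * ρ - 1)) := by
          rw [hyx]
          ring
        _ = _ := by
          rw [hs]
          ring
    rw [h3, dv_mul hx, map_add, co_of_mul]
  have h4 := congrArg (AdjoinRoot.mk π) h2
  rw [map_add, map_mul, AdjoinRoot.mk_self, zero_mul, add_zero,
    co_root_pow h.monic (m := 2 * g) h.natDegree (by omega), RingHom.map_dotProduct] at h4
  have h8 : (AdjoinRoot.mk π) ∘ (gram h.monic x e e * T ^ m).mulVec c =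
      ((gram h.monic x e e * T ^ m).map (AdjoinRoot.mk π)).mulVec
        (fun i => AdjoinRoot.mk π (c i)) := by
    funext i
    exact RingHom.map_mulVec (AdjoinRoot.mk π) (gram h.monic x e e * T ^ m) c i
  rw [h8] at h4
  have h5 : (gram h.monic x e e * T ^ m).map (AdjoinRoot.mk π) =
      (gram h.monic x e e).map (AdjoinRoot.mk π) * T.map (AdjoinRoot.mk π) ^ m := by
    rw [Matrix.map_mul]
    have h6 := map_pow (AdjoinRoot.mk π).mapMatrix T m
    rw [RingHom.mapMatrix_apply, RingHom.mapMatrix_apply] at h6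
    rw [h6]
  rw [h5] at h4
  refine h4.trans ?_
  by_cases h7 : m + 1 = 2 * g + 1
  · rw [if_pos (by omega), if_pos h7, map_one]
  · rw [if_neg (by omega), if_neg h7, map_zero]

end Pool.Agent.Helper96.PS
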