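import Pool.Agent.Helper96.PS.Defs

/-!
# PS-A4a: the form `τ(ab)`, `τ` = coefficient of `θ^{N-1}`, is perfect

`A` any commutative ring, `f ∈ A[x]` monic of degree `m + 1`, `θ` the root, `τ = co m`.
`τ(θ^i) = 0` for `i < m` and `= 1` for `i = m` (reduced representatives `x^i`). The matrix
`τ(θ^i θ^j)` (`i, j ≤ m`) is `0` for `i + j < m` and `1` for `i + j = m`: after reversing the columns it is triangular with
`1` on the diagonal, so invertible. Hence every linear functional is `τ(c ·)` for a unique `c`. (Direct proof of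
existence: find `c = ∑ c_i θ^i` with `τ(c θ^j) = φ(θ^j)` for `j = 0, …, m`: solve for `c_m, c_{m-1}, …` successively;
uniqueness: if `c = ∑ c_i θ^i ≠ 0` and `i` is maximal with `c_i ≠ 0`, `τ(c θ^{m-i}) = c_i`.)
-/

namespace Pool.Agent.Helper96.PS

open Polynomial

variable {A : Type*} [CommRing A] {f : A[X]}

private lemma du_nontrivial {m : ℕ} (hm : f.natDegree = m + 1) : Nontrivial A := by
  by_contra h
  rw [not_nontrivial_iff_subsingleton] at h
  rw [Subsingleton.elim f 0, natDegree_zero] at hm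
  omega

private lemma du_co_mk (hf : f.Monic) (j : ℕ) (p : A[X]) :
    co hf j (AdjoinRoot.mk f p) = (p %ₘ f).coeff j := by
  unfold co
  rw [LinearMap.comp_apply, AdjoinRoot.modByMonicHom_mk, lcoeff_apply]

private lemma du_smul (c : A) (x : AdjoinRoot f) : AdjoinRoot.of f c * x = c • x := by
  rw [Algebra.smul_def]
  rfl

private lemma du_co_of (hf : f.Monic) (j : ℕ) (c : A) (x : AdjoinRoot f) :
    co hf j (AdjoinRoot.of f c * x) = c * co hf j x := by
  rw [du_smul, map_smul, smul_eq_mul]

theorem co_root_pow (hf : f.Monic) {m : ℕ} (hm : f.natDegree = m + 1) {i : ℕ} (hi : i ≤ m) (j : ℕ) :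
    co hf j (AdjoinRoot.root f ^ i) = if i = j then 1 else 0 := by
  have hnt := du_nontrivial hm
  have h1 : AdjoinRoot.root f ^ i = AdjoinRoot.mk f (X ^ i) := by
    rw [map_pow, AdjoinRoot.mk_X]
  have h2 : (X ^ i : A[X]) %ₘ f = X ^ i := by
    rw [modByMonic_eq_self_iff hf, degree_X_pow, degree_eq_natDegree hf.ne_zero, hm]
    exact_mod_cast Nat.lt_succ_of_le hi
  rw [h1, du_co_mk, h2, coeff_X_pow]
  by_cases h : i = j
  · rw [if_pos h, if_pos h.symm]
  · rw [if_neg h, if_neg (fun h' => h h'.symm)]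

/-- coordinates: `a = ∑ (co j a) θ^j` -/
theorem sum_co (hf : f.Monic) {m : ℕ} (hm : f.natDegree = m + 1) (a : AdjoinRoot f) :
    a = ∑ j ∈ Finset.range (m + 1), AdjoinRoot.of f (co hf j a) * AdjoinRoot.root f ^ j := by
  have hnt := du_nontrivial hm
  obtain ⟨p, rfl⟩ := AdjoinRoot.mk_surjective a
  have h1 : (p %ₘ f).natDegree < m + 1 := by
    rw [← hm]
    apply natDegree_modByMonic_lt p hf
    intro h
    rw [h, natDegree_one] at hm
    omega
  have h2 := (p %ₘ f).as_sum_range' (m + 1) h1
  have h3 : AdjoinRoot.mk f p = AdjoinRoot.mk f (p %ₘ f) := by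
    rw [AdjoinRoot.mk_eq_mk]
    exact ⟨p /ₘ f, by
      have := modByMonic_add_div p f
      linear_combination -this⟩
  have h4 : ∀ j, co hf j (AdjoinRoot.mk f p) = (p %ₘ f).coeff j := fun j => du_co_mk hf j p
  simp only [h4]
  rw [h3, h2, map_sum]
  refine Finset.sum_congr rfl fun j _ => ?_
  rw [← h2, ← C_mul_X_pow_eq_monomial, map_mul, map_pow, AdjoinRoot.mk_X, AdjoinRoot.mk_C]

private lemma du_co_big (hf : f.Monic) {m : ℕ} (hm : f.natDegree = m + 1) (a : AdjoinRoot f)
    {j : ℕ} (hj : m < j) : co hf j a = 0 := by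
  have hnt := du_nontrivial hm
  obtain ⟨p, rfl⟩ := AdjoinRoot.mk_surjective a
  rw [du_co_mk]
  apply coeff_eq_zero_of_natDegree_lt
  have h1 : (p %ₘ f).natDegree < f.natDegree := by
    apply natDegree_modByMonic_lt p hf
    intro h
    rw [h, natDegree_one] at hm
    omega
  omega

/-- `φ(c a) = ∑ co_j(a) φ(c θ^j)` -/
private lemma du_expand (hf : f.Monic) {m : ℕ} (hm : f.natDegree = m + 1)
    (φ : AdjoinRoot f →ₗ[A] A) (c a : AdjoinRoot f) :
    φ (c * a) = ∑ j ∈ Finset.range (m + 1), co hf j a * φ (c * AdjoinRoot.root f ^ j) := by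
  conv_lhs => rw [sum_co hf hm a]
  rw [Finset.mul_sum, map_sum]
  refine Finset.sum_congr rfl fun j _ => ?_
  rw [mul_left_comm, du_smul, map_smul, smul_eq_mul]

theorem exists_dual (hf : f.Monic) {m : ℕ} (hm : f.natDegree = m + 1)
    (φ : AdjoinRoot f →ₗ[A] A) : ∃ c, ∀ a, φ a = co hf m (c * a) := by
  have key : ∀ k ≤ m + 1, ∃ c : AdjoinRoot f, ∀ j < k,
      φ (AdjoinRoot.root f ^ j) = co hf m (c * AdjoinRoot.root f ^ j) := by
    intro k
    induction k with
    | zero =>
      intro _
      exact ⟨0, fun j hj => absurd hj (Nat.not_lt_zero j)⟩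
    | succ k ih =>
      intro hk
      obtain ⟨c, hc⟩ := ih (by omega)
      refine ⟨c + AdjoinRoot.of f (φ (AdjoinRoot.root f ^ k) -
        co hf m (c * AdjoinRoot.root f ^ k)) * AdjoinRoot.root f ^ (m - k), fun j hj => ?_⟩
      rw [add_mul, map_add, mul_assoc, du_co_of, ← pow_add]
      rcases Nat.lt_succ_iff_lt_or_eq.1 hj with h | h
      · rw [← hc j h, co_root_pow hf hm (by omega), if_neg (by omega), mul_zero, add_zero]
      · subst h
        rw [co_root_pow hf hm (by omega), if_pos (by omega)]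
        ring
  obtain ⟨c, hc⟩ := key (m + 1) (le_refl _)
  refine ⟨c, fun a => ?_⟩
  rw [du_expand hf hm (co hf m) c a]
  have h1 := du_expand hf hm φ 1 a
  rw [one_mul] at h1
  rw [h1]
  refine Finset.sum_congr rfl fun j hj => ?_
  rw [one_mul, hc j (Finset.mem_range.1 hj)]

private lemma du_mem (hf : f.Monic) {m : ℕ} (hm : f.natDegree = m + 1) (J : Ideal A)
    {c : AdjoinRoot f} (hc : ∀ a, co hf m (c * a) ∈ J) : ∀ i, co hf i c ∈ J := by
  have key : ∀ k i, i ≤ m → m - i ≤ k → co hf i c ∈ J := by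
    intro k
    induction k with
    | zero =>
      intro i hi hk
      have : i = m := by omega
      subst this
      have := hc 1
      rwa [mul_one] at this
    | succ k ih =>
      intro i hi hk
      have h1 := hc (AdjoinRoot.root f ^ (m - i))
      have h2 : co hf m (c * AdjoinRoot.root f ^ (m - i)) =
          ∑ j ∈ Finset.range (m + 1), co hf j c *
            co hf m (AdjoinRoot.root f ^ (m - i) * AdjoinRoot.root f ^ j) := by
        rw [mul_comm c]
        exact du_expand hf hm (co hf m) _ c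
      have h3 : ∑ j ∈ (Finset.range (m + 1)).erase i, co hf j c *
            co hf m (AdjoinRoot.root f ^ (m - i) * AdjoinRoot.root f ^ j) ∈ J := by
        apply Ideal.sum_mem
        intro j hj
        rw [Finset.mem_erase, Finset.mem_range] at hj
        rcases lt_or_gt_of_ne hj.1 with h | h
        · rw [← pow_add, co_root_pow hf hm (by omega), if_neg (by omega), mul_zero]
          exact J.zero_mem
        · exact J.mul_mem_right _ (ih j (by omega) (by omega))
      have h4 : co hf m (c * AdjoinRoot.root f ^ (m - i)) = co hf i c +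
          ∑ j ∈ (Finset.range (m + 1)).erase i, co hf j c *
            co hf m (AdjoinRoot.root f ^ (m - i) * AdjoinRoot.root f ^ j) := by
        rw [h2, ← Finset.add_sum_erase _ _ (Finset.mem_range.2 (Nat.lt_succ_of_le hi)), ← pow_add,
          co_root_pow hf hm (by omega), if_pos (by omega), mul_one]
      rw [h4] at h1
      exact (J.add_mem_iff_left h3).1 h1
  intro i
  rcases le_or_gt i m with h | h
  · exact key (m - i) i h (le_refl _)
  · rw [du_co_big hf hm c h]
    exact J.zero_mem

theorem dual_inj (hf : f.Monic) {m : ℕ} (hm : f.natDegree = m + 1) {c : AdjoinRoot f}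
    (hc : ∀ a, co hf m (c * a) = 0) : c = 0 := by
  have h1 : ∀ i, co hf i c = 0 := by
    intro i
    have := du_mem hf hm ⊥ (c := c) (fun a => by rw [hc a]; exact Ideal.zero_mem _) i
    exact (Submodule.mem_bot A).1 this
  rw [sum_co hf hm c]
  apply Finset.sum_eq_zero
  intro j _
  rw [h1, map_zero, zero_mul]

/-- a `c` with `τ(c θ^i) = 0` for `i < m` is a constant -/
theorem dual_const (hf : f.Monic) {m : ℕ} (hm : f.natDegree = m + 1) {c : AdjoinRoot f}
    (hc : ∀ i, i < m → co hf m (c * AdjoinRoot.root f ^ i) = 0) :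
    c = AdjoinRoot.of f (co hf m (c * AdjoinRoot.root f ^ m)) := by
  rw [← sub_eq_zero]
  apply dual_inj hf hm
  intro a
  rw [du_expand hf hm]
  apply Finset.sum_eq_zero
  intro j hj
  rw [Finset.mem_range] at hj
  rw [sub_mul, map_sub, du_co_of, co_root_pow hf hm (by omega)]
  rcases Nat.lt_succ_iff_lt_or_eq.1 hj with h | h
  · rw [hc j h, if_neg (by omega), mul_zero, sub_zero, mul_zero]
  · subst h
    rw [if_pos rfl, mul_one, sub_self, mul_zero]

/-- if `τ(a b) ∈ (z)` for all `b`, then `a ∈ (z)` (for `z ∈ A`) -/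
theorem dvd_of_dual (hf : f.Monic) {m : ℕ} (hm : f.natDegree = m + 1) {z : A} {a : AdjoinRoot f}
    (ha : ∀ b, z ∣ co hf m (a * b)) : AdjoinRoot.of f z ∣ a := by
  have h1 : ∀ i, z ∣ co hf i a := by
    intro i
    rw [← Ideal.mem_span_singleton]
    exact du_mem hf hm _ (fun b => Ideal.mem_span_singleton.2 (ha b)) i
  rw [sum_co hf hm a]
  apply Finset.dvd_sum
  intro j _
  exact (_root_.map_dvd (AdjoinRoot.of f) (h1 j)).mul_right _

end Pool.Agent.Helper96.PS
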