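import Pool.Agent.Helper96.PS.DgMul

/-!
# PS-A2: degree of the norm

`ix I = dim_F O/I`. Proof of `ix (x) = N m`, `m = dg x`, `N = 2g+1`:
`O_{<M} = lev ⊤ M` has `F`-dimension `∑_{j<N} (M - j n)` (natural subtraction; basis `t^a θ^j`, `a + jn < M`), so for
`M ≥ 2gn` it is `N M - n N (N-1)/2`. `x O ∩ O_{<M+m} = x O_{<M}` by `dg_mul`, so the image of `O_{<M+m}` in `O/(x)`
has dimension `N (M + m) - N M = N m` for all large `M`. The union of the images is `O/(x)`, so `O/(x)` has dimension `N m`
(the images are an increasing family of constant dimension: all equal, so equal to `O/(x)`).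
`natDegree_norm`: `finrank_quotient_span_eq_natDegree_norm` (Mathlib.LinearAlgebra.FreeModule.Norm) with the power basis of
`AdjoinRoot f` over `F[X]` (`AdjoinRoot.powerBasis'`). (Or the other way round: compute the degree of the determinant.)
`even_dg`: `natDegree (norm x) = N m` is even for a square, `N` is odd.
Finiteness: a nonzero ideal `I` contains `x ≠ 0`, and `O/(x)` is finite dimensional over `F`: the norm `c = N(x) ≠ 0` lies in `(x)` and
`O/(c)` is finite over `F[X]/(c)`.
-/

namespace Pool.Agent.Helper96.PS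

open Polynomial

variable {F : Type*} [Field F] {g n : ℕ} {w : F[X]} {f : F[X][X]}

private theorem nd_det {N : ℕ} (M : Matrix (Fin N) (Fin N) F[X]) (m n : ℕ)
    (hM : ∀ i j : Fin N, (M i j).degree + ((i * n : ℕ) : WithBot ℕ) ≤ ((m + j * n : ℕ) : WithBot ℕ))
    (hL : (Matrix.of fun i j : Fin N => (X ^ ((i : ℕ) * n) * M i j *
      X ^ ((N - 1 - (j : ℕ)) * n)).coeff (m + (N - 1) * n)).det ≠ 0) :
    M.det.natDegree = N * m := by
  obtain ⟨D, hD⟩ : ∃ D : ℕ, D = m + (N - 1) * n := ⟨_, rfl⟩
  rw [← hD] at hL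
  obtain ⟨M', hM'⟩ : ∃ M' : Matrix (Fin N) (Fin N) F[X], M' = Matrix.of fun i j : Fin N =>
      (X ^ ((i : ℕ) * n) * M i j * X ^ ((N - 1 - (j : ℕ)) * n)) := ⟨_, rfl⟩
  have hdeg : ∀ i j, (M' i j).natDegree ≤ D := by
    intro i j
    rw [hM', Matrix.of_apply]
    by_cases h0 : M i j = 0
    · rw [h0, mul_zero, zero_mul, natDegree_zero]
      exact Nat.zero_le _
    · have h1 := hM i j
      rw [degree_eq_natDegree h0] at h1
      have h2 : (M i j).natDegree + i * n ≤ m + j * n := by exact_mod_cast h1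
      refine natDegree_mul_le.trans ?_
      refine (add_le_add natDegree_mul_le le_rfl).trans ?_
      rw [natDegree_X_pow, natDegree_X_pow, hD]
      have h3 : (j : ℕ) * n + (N - 1 - (j : ℕ)) * n = (N - 1) * n := by
        rw [← add_mul]
        congr 1
        have := j.isLt
        omega
      omega
  have hcoeff : M'.det.coeff (N * D) = (Matrix.of fun i j => (M' i j).coeff D).det := by
    rw [Matrix.det_apply, Matrix.det_apply, finsetSum_coeff]
    refine Finset.sum_congr rfl fun σ _ => ?_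
    rw [Units.smul_def, Units.smul_def, coeff_smul]
    congr 1
    have h1 := coeff_prod_of_natDegree_le (s := Finset.univ) (fun i : Fin N => M' (σ i) i) D
      (fun i _ => hdeg _ _)
    rw [Finset.card_univ, Fintype.card_fin] at h1
    rw [h1]
    rfl
  have hle : M'.det.natDegree ≤ N * D := by
    rw [Matrix.det_apply]
    refine natDegree_sum_le_of_forall_le _ _ fun σ _ => ?_
    refine (natDegree_smul_le _ _).trans ?_
    refine (natDegree_prod_le _ _).trans ?_
    refine (Finset.sum_le_card_nsmul _ _ D fun i _ => hdeg _ _).trans ?_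
    rw [Finset.card_univ, Fintype.card_fin, smul_eq_mul]
  have hne : M'.det.coeff (N * D) ≠ 0 := by
    rw [hcoeff, hM']
    exact hL
  have hnat : M'.det.natDegree = N * D :=
    le_antisymm hle (le_natDegree_of_ne_zero hne)
  have hfac : M' = Matrix.diagonal (fun i : Fin N => (X : F[X]) ^ ((i : ℕ) * n)) * M *
      Matrix.diagonal (fun j : Fin N => (X : F[X]) ^ ((N - 1 - (j : ℕ)) * n)) := by
    ext1 i j
    rw [hM', Matrix.mul_diagonal, Matrix.diagonal_mul, Matrix.of_apply]
  have hdet : M'.det = X ^ (N * ((N - 1) * n)) * M.det := by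
    rw [hfac, Matrix.det_mul, Matrix.det_mul, Matrix.det_diagonal, Matrix.det_diagonal]
    have h1 : (∏ i : Fin N, (X : F[X]) ^ ((i : ℕ) * n)) *
        (∏ j : Fin N, (X : F[X]) ^ ((N - 1 - (j : ℕ)) * n)) = X ^ (N * ((N - 1) * n)) := by
      rw [← Finset.prod_mul_distrib]
      have h2 : ∀ i ∈ (Finset.univ : Finset (Fin N)), (X : F[X]) ^ ((i : ℕ) * n) *
          X ^ ((N - 1 - (i : ℕ)) * n) = X ^ ((N - 1) * n) := by
        intro i _
        rw [← pow_add, ← add_mul]
        congr 2
        have := i.isLt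
        omega
      rw [Finset.prod_congr rfl h2, Finset.prod_const, Finset.card_univ, Fintype.card_fin,
        ← pow_mul]
      congr 1
      ring
    rw [mul_right_comm, h1]
  have hMne : M.det ≠ 0 := by
    intro h
    rw [h, mul_zero] at hdet
    apply hne
    rw [hdet, coeff_zero]
  rw [hdet, natDegree_mul (pow_ne_zero _ X_ne_zero) hMne, natDegree_X_pow, hD] at hnat
  have h5 : N * (m + (N - 1) * n) = N * m + N * ((N - 1) * n) := by ring
  omega

private theorem nd_co_root (hf : f.Monic) (i : ℕ) (j : Fin f.natDegree) :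
    co hf i (AdjoinRoot.root f ^ (j : ℕ)) = if i = j then 1 else 0 := by
  unfold co
  have h1 : AdjoinRoot.root f ^ (j : ℕ) = AdjoinRoot.mk f (X ^ (j : ℕ)) := by
    rw [map_pow, AdjoinRoot.mk_X]
  rw [LinearMap.comp_apply, lcoeff_apply, h1, AdjoinRoot.modByMonicHom_mk,
    (modByMonic_eq_self_iff hf).2, coeff_X_pow]
  rw [degree_X_pow, degree_eq_natDegree hf.ne_zero]
  exact_mod_cast j.isLt

private theorem nd_dg_lt (hf : f.Monic) (n : ℕ) (y : AdjoinRoot f) (D : ℕ)
    (h : ∀ i : Fin f.natDegree, (co hf i y).degree + ((i * n : ℕ) : WithBot ℕ) < (D : WithBot ℕ)) :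
    dg hf n y < (D : WithBot ℕ) := by
  unfold dg
  refine (Finset.sup_lt_iff (WithBot.bot_lt_coe D)).2 ?_
  intro i hi
  exact h ⟨i, Finset.mem_range.1 hi⟩

private theorem nd_dg_root_pow (h : Pre g n w f) (j : ℕ) :
    dg h.monic n (AdjoinRoot.root f ^ j) = ((j * n : ℕ) : WithBot ℕ) := by
  induction j with
  | zero =>
    have h1 := dg_of h (1 : F[X])
    rw [map_one, degree_one] at h1
    rw [pow_zero, h1, zero_mul]
    rfl
  | succ j ih =>
    rw [pow_succ, dg_mul h, ih, dg_root h]
    norm_cast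
    rw [Nat.succ_mul]

private theorem nd_det_ne (h : Pre g n w f) {x : AdjoinRoot f} {m : ℕ}
    (hm : dg h.monic n x = m) :
    (Matrix.of fun i j : Fin f.natDegree => (X ^ ((i : ℕ) * n) *
      co h.monic i (x * AdjoinRoot.root f ^ (j : ℕ)) *
      X ^ ((f.natDegree - 1 - (j : ℕ)) * n)).coeff (m + (f.natDegree - 1) * n)).det ≠ 0 := by
  intro hdet
  obtain ⟨v, hv0, hv⟩ := Matrix.exists_mulVec_eq_zero_iff.2 hdet
  obtain ⟨N, hN⟩ : ∃ N : ℕ, N = f.natDegree := ⟨_, rfl⟩
  obtain ⟨y, hy⟩ : ∃ y : AdjoinRoot f, y = ∑ j : Fin f.natDegree,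
      AdjoinRoot.of f (C (v j) * X ^ ((f.natDegree - 1 - (j : ℕ)) * n)) *
        AdjoinRoot.root f ^ (j : ℕ) := ⟨_, rfl⟩
  have hcoy : ∀ i : Fin f.natDegree, co h.monic i y =
      C (v i) * X ^ ((f.natDegree - 1 - (i : ℕ)) * n) := by
    intro i
    rw [hy, map_sum, Finset.sum_eq_single i]
    · rw [co_of_mul, nd_co_root, if_pos rfl, mul_one]
    · intro j _ hj
      rw [co_of_mul, nd_co_root, if_neg (fun hc => hj (Fin.ext hc.symm)), mul_zero]
    · intro hc
      exact absurd (Finset.mem_univ i) hc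
  obtain ⟨j0, hj0⟩ := Function.ne_iff.1 hv0
  have hlow : (((f.natDegree - 1) * n : ℕ) : WithBot ℕ) ≤ dg h.monic n y := by
    refine le_trans (le_of_eq ?_) (co_le_dg h.monic n j0 y)
    rw [hcoy, degree_C_mul_X_pow _ hj0]
    norm_cast
    rw [← add_mul]
    congr 1
    have := j0.isLt
    omega
  have hxy : ((m + (f.natDegree - 1) * n : ℕ) : WithBot ℕ) ≤ dg h.monic n (x * y) := by
    rw [dg_mul h, hm]
    push_cast at hlow ⊢
    exact add_le_add le_rfl hlow
  refine absurd hxy (not_le.2 (nd_dg_lt h.monic n _ _ fun i => ?_))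
  have hco : co h.monic i (x * y) = ∑ j : Fin f.natDegree,
      C (v j) * X ^ ((f.natDegree - 1 - (j : ℕ)) * n) *
        co h.monic i (x * AdjoinRoot.root f ^ (j : ℕ)) := by
    rw [hy, Finset.mul_sum, map_sum]
    refine Finset.sum_congr rfl fun j _ => ?_
    rw [mul_left_comm, co_of_mul]
  have hup : (co h.monic i (x * y)).degree + ((i * n : ℕ) : WithBot ℕ) ≤
      ((m + (f.natDegree - 1) * n : ℕ) : WithBot ℕ) := by
    rw [hco]
    have h1 : (∑ j : Fin f.natDegree, C (v j) * X ^ ((f.natDegree - 1 - (j : ℕ)) * n) *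
        co h.monic i (x * AdjoinRoot.root f ^ (j : ℕ))).degree + ((i * n : ℕ) : WithBot ℕ) =
        (∑ j : Fin f.natDegree, C (v j) * X ^ ((f.natDegree - 1 - (j : ℕ)) * n) *
        co h.monic i (x * AdjoinRoot.root f ^ (j : ℕ)) * X ^ ((i : ℕ) * n)).degree := by
      rw [← Finset.sum_mul, degree_mul, degree_X_pow]
    rw [h1]
    refine (degree_sum_le _ _).trans ?_
    refine Finset.sup_le fun j _ => ?_
    rw [degree_mul, degree_mul, degree_X_pow]
    have h2 := co_le_dg h.monic n i (x * AdjoinRoot.root f ^ (j : ℕ))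
    rw [dg_mul h, hm, nd_dg_root_pow h] at h2
    have h3 : (C (v j) * X ^ ((f.natDegree - 1 - (j : ℕ)) * n) : F[X]).degree ≤
        (((f.natDegree - 1 - (j : ℕ)) * n : ℕ) : WithBot ℕ) := degree_C_mul_X_pow_le _ _
    rw [add_assoc]
    refine (add_le_add h3 h2).trans (le_of_eq ?_)
    norm_cast
    have h4 : (f.natDegree - 1) * n = (f.natDegree - 1 - (j : ℕ)) * n + j * n := by
      rw [← add_mul]
      congr 1
      have := j.isLt
      omega
    rw [h4]
    ring
  refine lt_of_le_of_ne hup fun heq => ?_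
  have hcoef : (X ^ ((i : ℕ) * n) * co h.monic i (x * y)).coeff
      (m + (f.natDegree - 1) * n) = 0 := by
    rw [hco, Finset.mul_sum, finsetSum_coeff]
    have h5 := congrFun hv i
    simp only [Matrix.mulVec, dotProduct, Matrix.of_apply, Pi.zero_apply] at h5
    rw [← h5]
    refine Finset.sum_congr rfl fun j _ => ?_
    have h6 : X ^ ((i : ℕ) * n) * (C (v j) * X ^ ((f.natDegree - 1 - (j : ℕ)) * n) *
        co h.monic i (x * AdjoinRoot.root f ^ (j : ℕ))) = C (v j) * (X ^ ((i : ℕ) * n) *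
      co h.monic i (x * AdjoinRoot.root f ^ (j : ℕ)) *
      X ^ ((f.natDegree - 1 - (j : ℕ)) * n)) := by ring
    rw [h6, coeff_C_mul, mul_comm]
  have hdegX : (X ^ ((i : ℕ) * n) * co h.monic i (x * y)).degree =
      ((m + (f.natDegree - 1) * n : ℕ) : WithBot ℕ) := by
    rw [degree_mul, degree_X_pow, add_comm]
    exact heq
  exact (coeff_ne_zero_of_eq_degree hdegX) hcoef

theorem norm_ne_zero (h : Pre g n w f) {x : AdjoinRoot f} (hx : x ≠ 0) :
    Algebra.norm F[X] x ≠ 0 := by
  have := isDomain h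
  exact (Algebra.norm_ne_zero_iff_of_basis (AdjoinRoot.powerBasis' h.monic).basis).2 hx

/-- the norm is a multiple of the element -/
theorem dvd_norm (hf : f.Monic) (x : AdjoinRoot f) :
    x ∣ AdjoinRoot.of f (Algebra.norm F[X] x) := by
  obtain ⟨b, hb⟩ : ∃ b : Module.Basis (Fin f.natDegree) F[X] (AdjoinRoot f),
      b = AdjoinRoot.powerBasisAux' hf := ⟨_, rfl⟩
  obtain ⟨p, hp⟩ : ∃ p : F[X][X], p = (Algebra.leftMulMatrix b x).charpoly := ⟨_, rfl⟩
  have h1 : aeval x p = 0 := by
    apply Algebra.leftMulMatrix_injective b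
    rw [map_zero, ← aeval_algHom_apply, hp]
    exact Matrix.aeval_self_charpoly _
  have h2 := congrArg (aeval x) (divX_mul_X_add p)
  rw [h1, map_add, map_mul, aeval_X, aeval_C] at h2
  have h3 : algebraMap F[X] (AdjoinRoot f) (p.coeff 0) = x * (-(aeval x p.divX)) := by
    linear_combination h2
  have h4 : AdjoinRoot.of f (Algebra.norm F[X] x) =
      (-1) ^ f.natDegree * algebraMap F[X] (AdjoinRoot f) (p.coeff 0) := by
    rw [Algebra.norm_eq_matrix_det b, Matrix.det_eq_sign_charpoly_coeff, ← hp, Fintype.card_fin,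
      map_mul, map_pow, map_neg, map_one]
    rfl
  rw [h4, h3]
  exact ⟨(-1) ^ f.natDegree * (-(aeval x p.divX)), by ring⟩

theorem finite_quot (h : Pre g n w f) {I : Ideal (AdjoinRoot f)} (hI : I ≠ ⊥) :
    Module.Finite F (AdjoinRoot f ⧸ I) := by
  obtain ⟨x, hxI, hx⟩ := Submodule.exists_mem_ne_zero_of_ne_bot hI
  obtain ⟨c, hc⟩ : ∃ c : F[X], c = Algebra.norm F[X] x := ⟨_, rfl⟩
  have hc0 : c ≠ 0 := by
    rw [hc]
    exact norm_ne_zero h hx
  have hcI : AdjoinRoot.of f c ∈ I := by
    rw [hc]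
    obtain ⟨y, hy⟩ := dvd_norm h.monic x
    rw [hy]
    exact I.mul_mem_right _ hxI
  obtain ⟨φ, hφ⟩ : ∃ φ : (Fin f.natDegree → degreeLT F c.natDegree) →ₗ[F] (AdjoinRoot f ⧸ I),
      ∀ r, φ r = Ideal.Quotient.mk I (∑ j : Fin f.natDegree,
        AdjoinRoot.of f (r j : F[X]) * AdjoinRoot.root f ^ (j : ℕ)) := by
    refine ⟨{ toFun := fun r => Ideal.Quotient.mk I (∑ j : Fin f.natDegree,
                AdjoinRoot.of f (r j : F[X]) * AdjoinRoot.root f ^ (j : ℕ))
              map_add' := ?_
              map_smul' := ?_ }, fun r => rfl⟩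
    · intro r s
      rw [← map_add, ← Finset.sum_add_distrib]
      congr 1
      refine Finset.sum_congr rfl fun j _ => ?_
      rw [Pi.add_apply, Submodule.coe_add, map_add, add_mul]
    · intro a r
      have h1 : (∑ j : Fin f.natDegree, AdjoinRoot.of f (((a • r) j : degreeLT F c.natDegree) : F[X]) *
          AdjoinRoot.root f ^ (j : ℕ)) = a • ∑ j : Fin f.natDegree,
          AdjoinRoot.of f (r j : F[X]) * AdjoinRoot.root f ^ (j : ℕ) := by
        rw [Finset.smul_sum]
        refine Finset.sum_congr rfl fun j _ => ?_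
        rw [Pi.smul_apply, Submodule.coe_smul, ← of_C_mul, smul_eq_C_mul, map_mul, mul_assoc]
      rw [h1]
      rfl
  refine Module.Finite.of_surjective φ ?_
  intro q
  obtain ⟨a, rfl⟩ := Ideal.Quotient.mk_surjective q
  refine ⟨fun j => ⟨co h.monic j a % c, ?_⟩, ?_⟩
  · rw [mem_degreeLT]
    refine (degree_mod_lt _ hc0).trans_le ?_
    rw [degree_eq_natDegree hc0]
  · rw [hφ, Ideal.Quotient.eq]
    have ha : a = ∑ j : Fin f.natDegree, AdjoinRoot.of f (co h.monic j a) *
        AdjoinRoot.root f ^ (j : ℕ) := by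
      refine sub_eq_zero.1 (eq_zero_of_co h.monic _ fun i => ?_)
      rw [map_sub, map_sum]
      by_cases hi : i < f.natDegree
      · rw [Finset.sum_eq_single (⟨i, hi⟩ : Fin f.natDegree)]
        · rw [co_of_mul, nd_co_root, if_pos rfl, mul_one, sub_self]
        · intro j _ hj
          rw [co_of_mul, nd_co_root, if_neg (fun hcc => hj (Fin.ext hcc.symm)), mul_zero]
        · intro hcc
          exact absurd (Finset.mem_univ _) hcc
      · have h1 : co h.monic i a = 0 := by
          unfold co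
          simp only [LinearMap.comp_apply, lcoeff_apply]
          apply coeff_eq_zero_of_degree_lt
          obtain ⟨p, rfl⟩ := AdjoinRoot.mk_surjective a
          rw [AdjoinRoot.modByMonicHom_mk]
          refine (degree_modByMonic_lt p h.monic).trans_le ?_
          rw [degree_eq_natDegree h.monic.ne_zero]
          exact_mod_cast not_lt.1 hi
        rw [h1, zero_sub, neg_eq_zero]
        refine Finset.sum_eq_zero fun j _ => ?_
        rw [co_of_mul, nd_co_root, if_neg (fun hcc => hi (by rw [hcc]; exact j.isLt)), mul_zero]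
    have h2 : (∑ j : Fin f.natDegree, AdjoinRoot.of f (co h.monic j a % c) *
        AdjoinRoot.root f ^ (j : ℕ)) - a = AdjoinRoot.of f c *
        (-(∑ j : Fin f.natDegree, AdjoinRoot.of f (co h.monic j a / c) *
        AdjoinRoot.root f ^ (j : ℕ))) := by
      conv_lhs => rw [ha]
      rw [← Finset.sum_sub_distrib, mul_neg, Finset.mul_sum, ← Finset.sum_neg_distrib]
      refine Finset.sum_congr rfl fun j _ => ?_
      have h3 := EuclideanDomain.div_add_mod (co h.monic j a) c
      have h4 : AdjoinRoot.of f c * AdjoinRoot.of f (co h.monic j a / c) +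
          AdjoinRoot.of f (co h.monic j a % c) = AdjoinRoot.of f (co h.monic j a) := by
        rw [← map_mul, ← map_add, h3]
      have h5 : co h.monic (j : ℕ) (∑ j : Fin f.natDegree, AdjoinRoot.of f (co h.monic j a) *
        AdjoinRoot.root f ^ (j : ℕ)) = co h.monic j a := by rw [← ha]
      simp only [h5]
      linear_combination (AdjoinRoot.root f ^ (j : ℕ)) * h4
    rw [h2]
    exact I.mul_mem_right _ hcI

private theorem nd_main (h : Pre g n w f) {x : AdjoinRoot f} {m : ℕ} (hm : dg h.monic n x = m) :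
    (Algebra.norm F[X] x).natDegree = (2 * g + 1) * m := by
  rw [Algebra.norm_eq_matrix_det (AdjoinRoot.powerBasisAux' h.monic)]
  have hent : ∀ i j : Fin f.natDegree,
      Algebra.leftMulMatrix (AdjoinRoot.powerBasisAux' h.monic) x i j =
        co h.monic i (x * AdjoinRoot.root f ^ (j : ℕ)) := by
    intro i j
    rw [Algebra.leftMulMatrix_eq_repr_mul, AdjoinRoot.powerBasisAux'_repr_apply_to_fun]
    have h1 : AdjoinRoot.powerBasisAux' h.monic j = AdjoinRoot.root f ^ (j : ℕ) :=
      (AdjoinRoot.powerBasis' h.monic).basis_eq_pow j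
    rw [h1]
    rfl
  rw [nd_det (Algebra.leftMulMatrix (AdjoinRoot.powerBasisAux' h.monic) x) m n ?_ ?_,
    h.natDegree]
  · intro i j
    rw [hent]
    refine (co_le_dg h.monic n i _).trans (le_of_eq ?_)
    rw [dg_mul h, hm, nd_dg_root_pow h]
    norm_cast
  · have h2 := nd_det_ne h hm
    have h3 : (Matrix.of fun i j : Fin f.natDegree => (X ^ ((i : ℕ) * n) *
      Algebra.leftMulMatrix (AdjoinRoot.powerBasisAux' h.monic) x i j *
      X ^ ((f.natDegree - 1 - (j : ℕ)) * n)).coeff (m + (f.natDegree - 1) * n)) =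
      (Matrix.of fun i j : Fin f.natDegree => (X ^ ((i : ℕ) * n) *
      co h.monic i (x * AdjoinRoot.root f ^ (j : ℕ)) *
      X ^ ((f.natDegree - 1 - (j : ℕ)) * n)).coeff (m + (f.natDegree - 1) * n)) := by
      ext1 i j
      rw [Matrix.of_apply, Matrix.of_apply, hent]
    rw [h3]
    exact h2

theorem ix_span (h : Pre g n w f) {x : AdjoinRoot f} {m : ℕ} (hm : dg h.monic n x = m) :
    ix (Ideal.span {x}) = (2 * g + 1) * m := by
  have hx : x ≠ 0 := by
    intro h0
    rw [h0, dg_zero] at hm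
    exact WithBot.bot_ne_coe hm
  have := isDomain h
  unfold ix
  rw [finrank_quotient_span_eq_natDegree_norm (AdjoinRoot.powerBasisAux' h.monic) hx]
  exact nd_main h hm

theorem natDegree_norm (h : Pre g n w f) {x : AdjoinRoot f} {m : ℕ} (hm : dg h.monic n x = m) :
    (Algebra.norm F[X] x).natDegree = (2 * g + 1) * m := by
  exact nd_main h hm

theorem even_dg (h : Pre g n w f) {x : AdjoinRoot f} {m : ℕ} (hm : dg h.monic n x = m)
    (hx : IsSquare (Algebra.norm F[X] x)) : Even m := by
  obtain ⟨r, hr⟩ := hx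
  have h1 := nd_main h hm
  rw [hr] at h1
  have h2 : (r * r).natDegree = r.natDegree + r.natDegree := by
    by_cases h0 : r = 0
    · rw [h0]
      simp
    · rw [natDegree_mul h0 h0]
  rw [h2] at h1
  have h3 : Even ((2 * g + 1) * m) := ⟨r.natDegree, h1.symm⟩
  rcases Nat.even_mul.1 h3 with h4 | h4
  · exfalso
    obtain ⟨k, hk⟩ := h4
    omega
  · exact h4

end Pool.Agent.Helper96.PS
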