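import Pool.Agent.Helper96.PS.Dedekind
import Pool.Agent.Helper96.PS.NormDeg

/-!
# PS-A10: the primes over the places of type S and I

TypeS at `π`: `f ≡ (x - r) h` mod `π`, `h mod π` irreducible of degree `2g ≥ 2`. `P1 = (π, h)`, `P2 = (π, θ - r)`.
`O/P1 = κ[x]/(h̄)`, `O/P2 = κ[x]/(x - r̄) = κ`, `κ = A/π`: fields (`f ∈ (π, h)` and `f ∈ (π, x - r)` in `A[x]`). They are distinct: `h̄(r̄) ≠ 0` as
`h̄` is irreducible of degree `≥ 2`. `P1 P2 = (π)`: `P1 P2 ∋ π², π(θ - r), π h, h (θ - r) ≡ 0 mod π`; `P1 + P2 = O`, so `P1 P2 = P1 ∩ P2`, and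
`O/π = κ[x]/((x - r)h̄) = κ[x]/(h̄) × κ` (CRT) shows `P1 ∩ P2 = (π)`. A maximal ideal containing `π` contains `P1 P2`, so is `P1` or `P2`.
TypeI: `O/π = κ[x]/(f̄)` a field.
`ix`: dimension over `F`: `deg π · [O/P : κ]`.
-/

namespace Pool.Agent.Helper96.PS

open Polynomial

variable {F : Type*} [Field F] {g n : ℕ} {w : F[X]} {f : F[X][X]}

/-- reduction of `O` modulo `π` and `v`, where `v mod π` divides `f mod π` -/
private theorem exists_red (f : F[X][X]) {π : F[X]} {v : F[X][X]}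
    (hv : v.map (AdjoinRoot.mk π) ∣ f.map (AdjoinRoot.mk π)) :
    ∃ Φ : AdjoinRoot f →ₐ[F] AdjoinRoot (v.map (AdjoinRoot.mk π)), Function.Surjective Φ ∧
      (∀ p : F[X][X], Φ (AdjoinRoot.mk f p) = AdjoinRoot.mk _ (p.map (AdjoinRoot.mk π))) := by
  have h1 : (((AdjoinRoot.ofAlgHom F (v.map (AdjoinRoot.mk π))).comp
      (AdjoinRoot.mkₐ π : F[X] →ₐ[F] AdjoinRoot π)) : F[X] →+* _) =
      (AdjoinRoot.of (v.map (AdjoinRoot.mk π))).comp (AdjoinRoot.mk π) := rfl
  have h0 : f.eval₂ (((AdjoinRoot.ofAlgHom F (v.map (AdjoinRoot.mk π))).comp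
      (AdjoinRoot.mkₐ π : F[X] →ₐ[F] AdjoinRoot π)) : F[X] →+* _)
      (AdjoinRoot.root (v.map (AdjoinRoot.mk π))) = 0 := by
    rw [h1, ← eval₂_map]
    obtain ⟨s, hs⟩ := hv
    rw [hs, eval₂_mul, AdjoinRoot.eval₂_root, zero_mul]
  have h2 : ∀ p : F[X][X], AdjoinRoot.liftAlgHom f _ _ h0 (AdjoinRoot.mk f p) =
      AdjoinRoot.mk _ (p.map (AdjoinRoot.mk π)) := by
    intro p
    rw [AdjoinRoot.liftAlgHom_mk]
    have h3 := eval₂_map (p := p) (AdjoinRoot.mk π) (AdjoinRoot.of (v.map (AdjoinRoot.mk π)))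
      (AdjoinRoot.root (v.map (AdjoinRoot.mk π)))
    refine h3.symm.trans ?_
    rw [← AdjoinRoot.aeval_eq]
    rfl
  refine ⟨AdjoinRoot.liftAlgHom f _ _ h0, ?_, h2⟩
  intro b
  obtain ⟨p, rfl⟩ := AdjoinRoot.mk_surjective b
  obtain ⟨p', rfl⟩ := map_surjective (AdjoinRoot.mk π) AdjoinRoot.mk_surjective p
  exact ⟨AdjoinRoot.mk f p', h2 p'⟩

/-- divisibility modulo `π` and the ideal `(π, v)` -/
private theorem mem_span_iff (f : F[X][X]) {π : F[X]} {v : F[X][X]}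
    (hv : v.map (AdjoinRoot.mk π) ∣ f.map (AdjoinRoot.mk π)) (p : F[X][X]) :
    AdjoinRoot.mk f p ∈ Ideal.span {AdjoinRoot.of f π, AdjoinRoot.mk f v} ↔
      v.map (AdjoinRoot.mk π) ∣ p.map (AdjoinRoot.mk π) := by
  constructor
  · intro h
    obtain ⟨Φ, -, hΦ⟩ := exists_red f hv
    have h1 : Ideal.span {AdjoinRoot.of f π, AdjoinRoot.mk f v} ≤ RingHom.ker Φ := by
      rw [Ideal.span_le]
      rintro a (rfl | rfl)
      · have h2 := hΦ (C π)
        rw [map_C, AdjoinRoot.mk_self, C_0, map_zero, AdjoinRoot.mk_C] at h2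
        exact h2
      · have h2 := hΦ v
        rw [AdjoinRoot.mk_self] at h2
        exact h2
    have h2 := h1 h
    rw [RingHom.mem_ker, hΦ, AdjoinRoot.mk_eq_zero] at h2
    exact h2
  · rintro ⟨s, hs⟩
    obtain ⟨s, rfl⟩ := map_surjective (AdjoinRoot.mk π) AdjoinRoot.mk_surjective s
    rw [← Polynomial.map_mul] at hs
    have h1 : C π ∣ p - v * s := by
      rw [C_dvd_iff_dvd_coeff]
      intro i
      rw [← AdjoinRoot.mk_eq_zero, ← coeff_map, Polynomial.map_sub, hs, sub_self, coeff_zero]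
    obtain ⟨t, ht⟩ := h1
    rw [sub_eq_iff_eq_add] at ht
    rw [ht, map_add, map_mul, map_mul, AdjoinRoot.mk_C]
    exact Ideal.add_mem _ (Ideal.mul_mem_right _ _ (Ideal.subset_span (Set.mem_insert _ _)))
      (Ideal.mul_mem_right _ _ (Ideal.subset_span (Set.mem_insert_of_mem _ rfl)))

private theorem ker_red (f : F[X][X]) {π : F[X]} {v : F[X][X]}
    (hv : v.map (AdjoinRoot.mk π) ∣ f.map (AdjoinRoot.mk π))
    {Φ : AdjoinRoot f →ₐ[F] AdjoinRoot (v.map (AdjoinRoot.mk π))}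
    (hΦ : ∀ p : F[X][X], Φ (AdjoinRoot.mk f p) = AdjoinRoot.mk _ (p.map (AdjoinRoot.mk π))) :
    RingHom.ker Φ = Ideal.span {AdjoinRoot.of f π, AdjoinRoot.mk f v} := by
  ext a
  obtain ⟨p, rfl⟩ := AdjoinRoot.mk_surjective a
  rw [mem_span_iff f hv, RingHom.mem_ker, hΦ, AdjoinRoot.mk_eq_zero]

private theorem isMaximal_span (f : F[X][X]) {π : F[X]} (hπ : Irreducible π) {v : F[X][X]}
    (hv : v.map (AdjoinRoot.mk π) ∣ f.map (AdjoinRoot.mk π))
    (hirr : Irreducible (v.map (AdjoinRoot.mk π))) :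
    (Ideal.span {AdjoinRoot.of f π, AdjoinRoot.mk f v}).IsMaximal := by
  have : Fact (Irreducible π) := ⟨hπ⟩
  have : Fact (Irreducible (v.map (AdjoinRoot.mk π))) := ⟨hirr⟩
  obtain ⟨Φ, hs, hΦ⟩ := exists_red f hv
  rw [← ker_red f hv hΦ]
  exact RingHom.ker_isMaximal_of_surjective Φ hs

private theorem ix_span_pair (f : F[X][X]) {π : F[X]} (hπ : Irreducible π) {v : F[X][X]}
    (hv : v.map (AdjoinRoot.mk π) ∣ f.map (AdjoinRoot.mk π))
    (h0 : v.map (AdjoinRoot.mk π) ≠ 0) :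
    ix (Ideal.span {AdjoinRoot.of f π, AdjoinRoot.mk f v}) =
      (v.map (AdjoinRoot.mk π)).natDegree * π.natDegree := by
  have : Fact (Irreducible π) := ⟨hπ⟩
  obtain ⟨Φ, hs, hΦ⟩ := exists_red f hv
  rw [← ker_red f hv hΦ]
  unfold ix
  rw [(Ideal.quotientKerAlgEquivOfSurjective hs).toLinearEquiv.finrank_eq]
  have h1 : Module.finrank F (AdjoinRoot π) = π.natDegree := by
    rw [(AdjoinRoot.powerBasis hπ.ne_zero).finrank, AdjoinRoot.powerBasis_dim]
  have h2 : Module.finrank (AdjoinRoot π) (AdjoinRoot (v.map (AdjoinRoot.mk π))) =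
      (v.map (AdjoinRoot.mk π)).natDegree := by
    rw [(AdjoinRoot.powerBasis h0).finrank, AdjoinRoot.powerBasis_dim]
  rw [← Module.finrank_mul_finrank F (AdjoinRoot π) (AdjoinRoot (v.map (AdjoinRoot.mk π))), h1, h2,
    mul_comm]

private theorem TypeS.map_eq {π r : F[X]} {q : F[X][X]} (hT : TypeS g f π r q) :
    f.map (AdjoinRoot.mk π) =
      (X - C (AdjoinRoot.mk π r)) * q.map (AdjoinRoot.mk π) := by
  obtain ⟨s, hs⟩ := hT.dvd
  rw [sub_eq_iff_eq_add] at hs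
  rw [hs, Polynomial.map_add, Polynomial.map_mul, map_C, AdjoinRoot.mk_self, C_0, zero_mul,
    zero_add, Polynomial.map_mul, Polynomial.map_sub, map_X, map_C]

private theorem TypeS.q_dvd {π r : F[X]} {q : F[X][X]} (hT : TypeS g f π r q) :
    q.map (AdjoinRoot.mk π) ∣ f.map (AdjoinRoot.mk π) := by
  rw [hT.map_eq]
  exact dvd_mul_left _ _

private theorem map_X_sub_C (π r : F[X]) : (X - C r : F[X][X]).map (AdjoinRoot.mk π) =
    X - C (AdjoinRoot.mk π r) := by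
  rw [Polynomial.map_sub, map_X, map_C]

private theorem TypeS.r_dvd {π r : F[X]} {q : F[X][X]} (hT : TypeS g f π r q) :
    (X - C r : F[X][X]).map (AdjoinRoot.mk π) ∣ f.map (AdjoinRoot.mk π) := by
  rw [hT.map_eq, map_X_sub_C]
  exact dvd_mul_right _ _

private theorem P2_eq (f : F[X][X]) (π r : F[X]) :
    P2 f π r = Ideal.span {AdjoinRoot.of f π, AdjoinRoot.mk f (X - C r)} := by
  unfold P2
  rw [map_sub, AdjoinRoot.mk_X, AdjoinRoot.mk_C]

theorem P1_isMaximal (h : Pre g n w f) {π r : F[X]} {q : F[X][X]} (hT : TypeS g f π r q) :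
    (P1 f π q).IsMaximal := by
  exact isMaximal_span f hT.hπ hT.q_dvd hT.irr

theorem P2_isMaximal (h : Pre g n w f) {π r : F[X]} {q : F[X][X]} (hT : TypeS g f π r q) :
    (P2 f π r).IsMaximal := by
  have : Fact (Irreducible π) := ⟨hT.hπ⟩
  rw [P2_eq]
  refine isMaximal_span f hT.hπ hT.r_dvd ?_
  rw [map_X_sub_C]
  exact irreducible_X_sub_C _

theorem P1_ne_P2 (h : Pre g n w f) {π r : F[X]} {q : F[X][X]} (hT : TypeS g f π r q) :
    P1 f π q ≠ P2 f π r := by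
  intro heq
  have : Fact (Irreducible π) := ⟨hT.hπ⟩
  have h1 : AdjoinRoot.mk f q ∈ P2 f π r := by
    rw [← heq]
    exact Ideal.subset_span (Set.mem_insert_of_mem _ rfl)
  rw [P2_eq, mem_span_iff f hT.r_dvd, map_X_sub_C] at h1
  have h2 := natDegree_eq_of_degree_eq
    (degree_eq_degree_of_associated ((irreducible_X_sub_C _).associated_of_dvd hT.irr h1))
  rw [natDegree_X_sub_C, hT.hh.natDegree_map, hT.deg] at h2
  omega

theorem P1_mul_P2 (h : Pre g n w f) {π r : F[X]} {q : F[X][X]} (hT : TypeS g f π r q) :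
    P1 f π q * P2 f π r = Ideal.span {AdjoinRoot.of f π} := by
  have : Fact (Irreducible π) := ⟨hT.hπ⟩
  have hm1 := P1_isMaximal h hT
  have hm2 := P2_isMaximal h hT
  have hcop : IsCoprime (P1 f π q) (P2 f π r) := by
    rw [Ideal.isCoprime_iff_sup_eq]
    exact hm1.coprime_of_ne hm2 (P1_ne_P2 h hT)
  rw [Ideal.mul_eq_inf_of_isCoprime hcop]
  apply le_antisymm
  · rintro a ⟨ha1, ha2⟩
    obtain ⟨p, rfl⟩ := AdjoinRoot.mk_surjective a
    have h1 := (mem_span_iff f hT.q_dvd p).1 ha1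
    rw [SetLike.mem_coe, P2_eq, mem_span_iff f hT.r_dvd, map_X_sub_C] at ha2
    have hc : IsCoprime (X - C (AdjoinRoot.mk π r)) (q.map (AdjoinRoot.mk π)) := by
      rw [(irreducible_X_sub_C _).coprime_iff_not_dvd]
      intro h3
      apply P1_ne_P2 h hT
      refine hm1.eq_of_le hm2.ne_top ?_
      unfold P1
      rw [Ideal.span_le]
      rintro b (rfl | rfl)
      · exact Ideal.subset_span (Set.mem_insert _ _)
      · rw [SetLike.mem_coe, P2_eq, mem_span_iff f hT.r_dvd, map_X_sub_C]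
        exact h3
    have h2 := hc.mul_dvd ha2 h1
    rw [← hT.map_eq, ← mem_span_iff f dvd_rfl, AdjoinRoot.mk_self] at h2
    have h4 : Ideal.span {AdjoinRoot.of f π, (0 : AdjoinRoot f)} =
        Ideal.span {AdjoinRoot.of f π} := by
      rw [Ideal.span_pair_comm]
      exact Ideal.span_insert_zero
    rwa [h4] at h2
  · rw [Ideal.span_singleton_le_iff_mem]
    exact ⟨Ideal.subset_span (Set.mem_insert _ _), Ideal.subset_span (Set.mem_insert _ _)⟩

theorem eq_P1_or_P2 (h : Pre g n w f) {π r : F[X]} {q : F[X][X]} (hT : TypeS g f π r q)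
    {P : Ideal (AdjoinRoot f)} (hP : P.IsMaximal) (hπ : AdjoinRoot.of f π ∈ P) :
    P = P1 f π q ∨ P = P2 f π r := by
  have h1 : P1 f π q * P2 f π r ≤ P := by
    rw [P1_mul_P2 h hT, Ideal.span_singleton_le_iff_mem]
    exact hπ
  rcases (hP.isPrime.mul_le).1 h1 with h2 | h2
  · exact Or.inl ((P1_isMaximal h hT).eq_of_le hP.ne_top h2).symm
  · exact Or.inr ((P2_isMaximal h hT).eq_of_le hP.ne_top h2).symm

theorem inert_isMaximal (h : Pre g n w f) {π : F[X]} (hT : TypeI f π) :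
    (Ideal.span {AdjoinRoot.of f π}).IsMaximal := by
  have h1 := isMaximal_span f hT.hπ (dvd_refl (f.map (AdjoinRoot.mk π))) hT.irr
  rwa [AdjoinRoot.mk_self, Ideal.span_pair_comm, Ideal.span_insert_zero] at h1

theorem ix_P1 (h : Pre g n w f) {π r : F[X]} {q : F[X][X]} (hT : TypeS g f π r q) :
    ix (P1 f π q) = 2 * g * π.natDegree := by
  have h1 := ix_span_pair f hT.hπ hT.q_dvd hT.irr.ne_zero
  have : Fact (Irreducible π) := ⟨hT.hπ⟩
  rw [hT.hh.natDegree_map, hT.deg] at h1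
  exact h1

theorem ix_P2 (h : Pre g n w f) {π r : F[X]} {q : F[X][X]} (hT : TypeS g f π r q) :
    ix (P2 f π r) = π.natDegree := by
  have : Fact (Irreducible π) := ⟨hT.hπ⟩
  rw [P2_eq, ix_span_pair f hT.hπ hT.r_dvd (by rw [map_X_sub_C]; exact X_sub_C_ne_zero _),
    map_X_sub_C, natDegree_X_sub_C, one_mul]

/-- the place below a maximal ideal -/
theorem exists_place (h : Pre g n w f) {P : Ideal (AdjoinRoot f)} (hP : P.IsMaximal) :
    P ≠ ⊥ ∧ ∃ π : F[X], Irreducible π ∧ π.Monic ∧ AdjoinRoot.of f π ∈ P := by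
  classical
  have hne : P ≠ ⊥ := by
    rintro rfl
    apply not_isField h
    have : Nontrivial (AdjoinRoot f) := by
      refine ⟨0, 1, fun h01 => hP.ne_top ?_⟩
      rw [Ideal.eq_top_iff_one, ← h01]
      exact Ideal.zero_mem _
    exact Ring.isField_iff_maximal_bot.2 hP
  refine ⟨hne, ?_⟩
  obtain ⟨c, hc, hcP⟩ := exists_of_mem h hne
  have := hP.isPrime
  have h1 : Ideal.comap (AdjoinRoot.of f) P ≠ ⊥ := by
    intro h2
    have h3 : c ∈ Ideal.comap (AdjoinRoot.of f) P := hcP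
    rw [h2, Ideal.mem_bot] at h3
    exact hc.ne_zero h3
  obtain ⟨p, hp, hpp⟩ := (Ideal.comap_isPrime (AdjoinRoot.of f) P).exists_mem_prime_of_ne_bot h1
  refine ⟨normalize p, (normalize_associated p).symm.irreducible hpp.irreducible,
    monic_normalize hpp.ne_zero, ?_⟩
  have h2 : normalize p ∈ Ideal.comap (AdjoinRoot.of f) P := by
    obtain ⟨s, hs⟩ := (normalize_associated p).symm
    rw [← hs]
    exact Ideal.mul_mem_right _ _ hp
  exact h2

end Pool.Agent.Helper96.PS
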