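import Pool.Agent.Helper96.PS.Dedekind
import Pool.Agent.Helper96.PS.NormDeg

/-!
# PS-T1: local squares, algebra

`O` Dedekind (`isDedekind`). (1) `exists_not_mem`: for a nonzero ideal `I` and finitely many maximal `P` there is `y ∈ I` with `y ∉ I P` for all `P`
(CRT / prime avoidance: for each `P` choose `y_P ∈ I ∖ I P`, `u_P ≡ 1 mod P`, `u_P ∈ P'` for the others, `y = ∑ u_P y_P`).
(2) `y ∈ I ∖ I P`, `I² = (x)`, `y² ∈ (x)`: `y² = x ρ`. `(y) = I K`, `K ⊄ P`, `(y²) = (x) K²`, so `(ρ) = K²`, `ρ ∉ P`.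
(3) `SqLoc P x ↔ ρ is a square mod P`: `←`: `a = y`, `d = 1`, `c = ρ`. `→`: `a² d = x c`, `c, d ∉ P`, `cd` a square mod `P`. With `y² = x ρ`:
`a² d ρ = x c ρ = c y²`, so `(a d ρ)² … `: in `Frac O`: `d ρ c = (y c / a)²` (`a ≠ 0` as `x c ≠ 0`), `d ρ c ∉ P`, so `y c/a` is a unit `s/s'` at `P`
(`s, s' ∉ P`; localisation at `P` is a DVR, integrally closed): `s'² d ρ c = s²`, so `d ρ c` is a square mod `P`, and `dc` is, nonzero, so `ρ` is.
(4) multiplicativity for `x, x' ∈ Sg` (finite residue field with `2 ≠ 0`: the product of two nonsquares is a square): take `y, ρ` and `y', ρ'`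
(`(xx') = (II')²`, `yy' ∉ II'P`): `(yy')² = xx' ρρ'`.
-/

namespace Pool.Agent.Helper96.PS

open Polynomial

section Abs

variable {O : Type*} [CommRing O] [IsDedekindDomain O]

private theorem abs_not_mem {I : Ideal O} (hI : I ≠ ⊥) (s : Finset (Ideal O))
    (hs : ∀ P ∈ s, P ≠ ⊤ ∧ P ≠ ⊥) : ∃ y ∈ I, ∀ P ∈ s, y ∉ I * P := by
  classical
  have hprod : I * (∏ P ∈ s, P) ≠ 0 := by
    apply mul_ne_zero hI
    rw [Finset.prod_ne_zero_iff]
    intro P hP
    exact (hs P hP).2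
  obtain ⟨y, hy⟩ := IsDedekindDomain.exists_sup_span_eq (I := I * (∏ P ∈ s, P)) (J := I)
    Ideal.mul_le_left hprod
  refine ⟨y, ?_, fun P hP hyP => ?_⟩
  · rw [← hy]
    exact Ideal.mem_sup_right (Ideal.mem_span_singleton_self y)
  · have h1 : I ≤ I * P := by
      conv_lhs => rw [← hy]
      apply sup_le
      · apply Ideal.mul_mono_right
        exact Ideal.le_of_dvd (Finset.dvd_prod_of_mem _ hP)
      · rw [Ideal.span_singleton_le_iff_mem]
        exact hyP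
    have h2 : I * P = I := le_antisymm Ideal.mul_le_left h1
    exact (hs P hP).1 (by
      have h3 : I * P = I * ⊤ := by rw [h2, Ideal.mul_top]
      exact mul_left_cancel₀ (show I ≠ 0 from hI) h3)

private theorem abs_rho {x y : O} (hx : x ≠ 0) {I P : Ideal O} [hP : P.IsPrime] (hP0 : P ≠ ⊥)
    (hI : I ^ 2 = Ideal.span {x}) (hy : y ∈ I) (hyP : y ∉ I * P) :
    ∃ ρ, y ^ 2 = x * ρ ∧ ρ ∉ P := by
  have h1 : y ^ 2 ∈ Ideal.span {x} := by
    rw [← hI]
    exact Ideal.pow_mem_pow hy 2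
  obtain ⟨ρ, hρ⟩ := Ideal.mem_span_singleton'.1 h1
  refine ⟨ρ, by rw [← hρ, mul_comm], fun hmem => hyP ?_⟩
  have hI0 : I ≠ 0 := by
    rintro rfl
    rw [zero_pow two_ne_zero] at hI
    exact hx (Ideal.span_singleton_eq_bot.1 hI.symm)
  obtain ⟨K, hK⟩ : I ∣ Ideal.span {y} := by
    rw [Ideal.dvd_span_singleton]; exact hy
  have h2 : I ^ 2 * Ideal.span {ρ} = I ^ 2 * K ^ 2 := by
    rw [← mul_pow, ← hK, hI, Ideal.span_singleton_mul_span_singleton, Ideal.span_singleton_pow,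
      ← hρ, mul_comm]
  have h3 : Ideal.span {ρ} = K ^ 2 := mul_left_cancel₀ (pow_ne_zero 2 hI0) h2
  have h4 : P ∣ K ^ 2 := by
    rw [← h3, Ideal.dvd_span_singleton]; exact hmem
  have h5 : P ∣ K := (Ideal.prime_of_isPrime hP0 hP).dvd_of_dvd_pow h4
  rw [← Ideal.dvd_span_singleton, hK]
  exact mul_dvd_mul_left I h5

private theorem abs_sq {P : Ideal O} (hP : P.IsMaximal) {x y ρ : O} (hx : x ≠ 0) (h : y ^ 2 = x * ρ)
    (hρ : ρ ∉ P) : (∃ a c d : O, a ^ 2 * d = x * c ∧ c ∉ P ∧ d ∉ P ∧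
      IsSquare (Ideal.Quotient.mk P (c * d))) ↔ IsSquare (Ideal.Quotient.mk P ρ) := by
  constructor
  · rintro ⟨a, c, d, h1, hc, hd, hs⟩
    have hc0 : c ≠ 0 := by
      rintro rfl
      exact hc P.zero_mem
    have ha0 : a ≠ 0 := by
      rintro rfl
      rw [zero_pow two_ne_zero, zero_mul] at h1
      exact mul_ne_zero hx hc0 h1.symm
    have h2 : a ^ 2 * (c * d * ρ) = (y * c) ^ 2 := by
      linear_combination (c * ρ) * h1 - c ^ 2 * h
    have h3 : a ∣ y * c := by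
      rw [← IsIntegrallyClosed.pow_dvd_pow_iff two_ne_zero]
      exact ⟨_, h2.symm⟩
    obtain ⟨t, ht⟩ := h3
    rw [ht, mul_pow] at h2
    have h4 : c * d * ρ = t ^ 2 := mul_left_cancel₀ (pow_ne_zero 2 ha0) h2
    let _ := Ideal.Quotient.field P
    obtain ⟨r, hr⟩ := hs
    have hcd : Ideal.Quotient.mk P (c * d) ≠ 0 := by
      intro h5
      rw [Ideal.Quotient.eq_zero_iff_mem] at h5
      rcases hP.isPrime.mem_or_mem h5 with h6 | h6
      · exact hc h6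
      · exact hd h6
    have hr0 : r ≠ 0 := by
      rintro rfl
      rw [mul_zero] at hr
      exact hcd hr
    refine ⟨Ideal.Quotient.mk P t / r, ?_⟩
    have h5 := congrArg (Ideal.Quotient.mk P) h4
    rw [map_mul, hr, map_pow] at h5
    field_simp
    rw [← h5]
    ring
  · intro hs
    refine ⟨y, ρ, 1, by rw [mul_one, h], hρ, ?_, by rw [mul_one]; exact hs⟩
    intro h1
    exact hP.ne_top ((Ideal.eq_top_iff_one P).2 h1)

private theorem abs_exists_pow {P : Ideal O} (hP : P ≠ ⊤) {a : O} (ha : a ≠ 0) :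
    ∃ k : ℕ, a ∈ P ^ k ∧ a ∉ P ^ (k + 1) := by
  classical
  have h1 : ∃ k : ℕ, a ∉ P ^ k := by
    by_contra h
    push Not at h
    have h2 : a ∈ (⨅ i : ℕ, P ^ i) := by
      rw [Ideal.mem_iInf]
      exact h
    rw [Ideal.iInf_pow_eq_bot_of_isDomain P hP] at h2
    exact ha h2
  have h2 := Nat.find_spec h1
  rcases hk : Nat.find h1 with _ | k
  · rw [hk, pow_zero, Ideal.one_eq_top] at h2
    exact absurd Submodule.mem_top h2
  · refine ⟨k, ?_, by rw [hk] at h2; exact h2⟩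
    by_contra h3
    have := Nat.find_min' h1 h3
    omega

private theorem abs_unit {P : Ideal O} (hP : P.IsMaximal) {u v : O} {m : ℕ}
    (hu : u ∈ P ^ m) (hu' : u ∉ P ^ (m + 1)) (hv : v ∈ P ^ m) (hv' : v ∉ P ^ (m + 1)) :
    ∃ c d : O, u * d = v * c ∧ c ∉ P ∧ d ∉ P := by
  have hPp := hP.isPrime
  obtain ⟨J, hJ⟩ : P ^ m ∣ Ideal.span {u} := by
    rw [Ideal.dvd_span_singleton]; exact hu
  obtain ⟨J', hJ'⟩ : P ^ m ∣ Ideal.span {v} := by
    rw [Ideal.dvd_span_singleton]; exact hv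
  obtain ⟨d, hd, hdP⟩ : ∃ d ∈ J', d ∉ P := by
    by_contra h
    push Not at h
    have h1 : P ∣ J' := Ideal.dvd_iff_le.2 h
    apply hv'
    rw [← Ideal.dvd_span_singleton, hJ', pow_succ]
    exact mul_dvd_mul_left _ h1
  have h1 : u * d ∈ Ideal.span {v} := by
    have h2 : u * d ∈ Ideal.span {u} * J' :=
      Ideal.mul_mem_mul (Ideal.mem_span_singleton_self u) hd
    rw [hJ, mul_right_comm, ← hJ'] at h2
    exact (Ideal.mul_le_left : Ideal.span {v} * J ≤ Ideal.span {v}) h2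
  obtain ⟨c, hc⟩ := Ideal.mem_span_singleton'.1 h1
  refine ⟨c, d, by rw [← hc, mul_comm], fun hcP => ?_, hdP⟩
  have h2 : u * d ∈ P ^ (m + 1) := by
    rw [← hc, pow_succ', mul_comm c v, mul_comm P]
    exact Ideal.mul_mem_mul hv hcP
  rcases Ideal.IsPrime.mem_pow_mul P h2 with h3 | h3
  · exact hu' h3
  · exact hdP h3

private theorem abs_sq_mem {P : Ideal O} (hP : P.IsMaximal) (hP0 : P ≠ ⊥) {a : O} {k : ℕ}
    (ha : a ∈ P ^ k) (ha' : a ∉ P ^ (k + 1)) :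
    a ^ 2 ∈ P ^ (2 * k) ∧ a ^ 2 ∉ P ^ (2 * k + 1) := by
  have hPp := hP.isPrime
  constructor
  · rw [mul_comm, pow_mul]
    exact Ideal.pow_mem_pow ha 2
  · intro h
    obtain ⟨J, hJ⟩ : P ^ k ∣ Ideal.span {a} := by
      rw [Ideal.dvd_span_singleton]; exact ha
    apply ha'
    rw [← Ideal.dvd_span_singleton, hJ, pow_succ]
    apply mul_dvd_mul_left
    have h1 : P ^ (2 * k) * P ∣ P ^ (2 * k) * J ^ 2 := by
      rw [← pow_succ]
      have h2 : P ^ (2 * k) * J ^ 2 = Ideal.span {a ^ 2} := by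
        rw [← Ideal.span_singleton_pow, hJ, mul_pow, ← pow_mul, mul_comm k 2]
      rw [h2, Ideal.dvd_span_singleton]
      exact h
    have h2 : P ∣ J ^ 2 := (mul_dvd_mul_iff_left (pow_ne_zero _ hP0)).1 h1
    exact (Ideal.prime_of_isPrime hP0 hPp).dvd_of_dvd_pow h2

end Abs

variable {F : Type*} [Field F] {g n : ℕ} {w : F[X]} {f : F[X][X]}

theorem exists_not_mem (h : Good g n w f) {I : Ideal (AdjoinRoot f)} (hI : I ≠ ⊥)
    (s : Finset (Ideal (AdjoinRoot f))) (hs : ∀ P ∈ s, P.IsMaximal) :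
    ∃ y ∈ I, ∀ P ∈ s, y ∉ I * P := by
  have hD := isDedekind h
  exact abs_not_mem hI s fun P hP => ⟨(hs P hP).ne_top,
    Ring.ne_bot_of_isMaximal_of_not_isField (hs P hP) (not_isField h.toPre)⟩

theorem sqLoc_iff (h : Good g n w f) {x : AdjoinRoot f} (hx : x ≠ 0) {I : Ideal (AdjoinRoot f)}
    (hI : I ^ 2 = Ideal.span {x}) {P : Ideal (AdjoinRoot f)} (hP : P.IsMaximal) {y : AdjoinRoot f}
    (hy : y ∈ I) (hyP : y ∉ I * P) :
    ∃ ρ, y ^ 2 = x * ρ ∧ ρ ∉ P ∧ (SqLoc P x ↔ IsSquare (Ideal.Quotient.mk P ρ)) := by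
  have hD := isDedekind h
  have hPp := hP.isPrime
  obtain ⟨ρ, h1, h2⟩ := abs_rho hx (Ring.ne_bot_of_isMaximal_of_not_isField hP
    (not_isField h.toPre)) hI hy hyP
  exact ⟨ρ, h1, h2, abs_sq hP hx h1 h2⟩

theorem Sg.mul (h : Good g n w f) {x x' : AdjoinRoot f} (hx : Sg f x) (hx' : Sg f x') :
    Sg f (x * x') := by
  have hD := isDedekind h
  obtain ⟨h1, ⟨I, hI⟩, h2⟩ := hx
  obtain ⟨h1', ⟨I', hI'⟩, h2'⟩ := hx'
  refine ⟨mul_ne_zero h1 h1', ⟨I * I', ?_⟩, ?_⟩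
  · rw [mul_pow, hI, hI', Ideal.span_singleton_mul_span_singleton]
  · rw [map_mul]
    exact h2.mul h2'

theorem Sg.sq (h : Good g n w f) {x : AdjoinRoot f} (hx : x ≠ 0) : Sg f (x ^ 2) := by
  have hD := isDedekind h
  refine ⟨pow_ne_zero 2 hx, ⟨Ideal.span {x}, Ideal.span_singleton_pow x 2⟩, ?_⟩
  rw [map_pow]
  exact IsSquare.sq _

private theorem exists_rho (h : Good g n w f) {x : AdjoinRoot f} (hx : Sg f x)
    {P : Ideal (AdjoinRoot f)} (hP : P.IsMaximal) : ∃ y ρ, y ^ 2 = x * ρ ∧ ρ ∉ P := by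
  have hD := isDedekind h
  obtain ⟨h1, ⟨I, hI⟩, h2⟩ := hx
  have hI0 : I ≠ ⊥ := by
    rintro rfl
    have h3 : (⊥ : Ideal (AdjoinRoot f)) ^ 2 = ⊥ := by
      change (0 : Ideal (AdjoinRoot f)) ^ 2 = 0
      exact zero_pow two_ne_zero
    rw [h3] at hI
    exact h1 (Ideal.span_singleton_eq_bot.1 hI.symm)
  obtain ⟨y, hy, hyP⟩ := exists_not_mem h hI0 {P} (by
    intro Q hQ
    rw [Finset.mem_singleton] at hQ
    rw [hQ]
    exact hP)
  obtain ⟨ρ, h3, h4, -⟩ := sqLoc_iff h h1 hI hP hy (hyP P (Finset.mem_singleton_self P))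
  exact ⟨y, ρ, h3, h4⟩

private theorem isSquare_mul_iff' {κ : Type*} [Field κ] [Finite κ] {a b : κ} (ha : a ≠ 0)
    (hb : b ≠ 0) : IsSquare (a * b) ↔ (IsSquare a ↔ IsSquare b) := by
  classical
  have := Fintype.ofFinite κ
  rw [← quadraticChar_one_iff_isSquare ha, ← quadraticChar_one_iff_isSquare hb,
    ← quadraticChar_one_iff_isSquare (mul_ne_zero ha hb), map_mul]
  rcases quadraticChar_dichotomy ha with h1 | h1 <;>
  rcases quadraticChar_dichotomy hb with h2 | h2 <;> rw [h1, h2] <;> decide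

theorem sqLoc_mul [Finite F] (h2 : (2 : F) ≠ 0) (h : Good g n w f) {x x' : AdjoinRoot f}
    (hx : Sg f x) (hx' : Sg f x') {P : Ideal (AdjoinRoot f)} (hP : P.IsMaximal) :
    SqLoc P (x * x') ↔ (SqLoc P x ↔ SqLoc P x') := by
  have hD := isDedekind h
  obtain ⟨y, ρ, h3, h4⟩ := exists_rho h hx hP
  obtain ⟨y', ρ', h3', h4'⟩ := exists_rho h hx' hP
  have e1 := abs_sq hP hx.1 h3 h4
  have e2 := abs_sq hP hx'.1 h3' h4'
  have h5 : (y * y') ^ 2 = (x * x') * (ρ * ρ') := by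
    rw [mul_pow, h3, h3']; ring
  have h6 : ρ * ρ' ∉ P := by
    intro h7
    rcases hP.isPrime.mem_or_mem h7 with h8 | h8
    · exact h4 h8
    · exact h4' h8
  have e3 := abs_sq hP (mul_ne_zero hx.1 hx'.1) h5 h6
  have hfin : Module.Finite F (AdjoinRoot f ⧸ P) := finite_quot h.toPre
    (Ring.ne_bot_of_isMaximal_of_not_isField hP (not_isField h.toPre))
  have hfin2 : Finite (AdjoinRoot f ⧸ P) := Module.finite_of_finite F
  let _ := Ideal.Quotient.field P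
  unfold SqLoc
  rw [e1, e2, e3, map_mul]
  apply isSquare_mul_iff'
  · rwa [Ne, Ideal.Quotient.eq_zero_iff_mem]
  · rwa [Ne, Ideal.Quotient.eq_zero_iff_mem]

theorem sqLoc_sq (h : Good g n w f) {x : AdjoinRoot f} (hx : x ≠ 0) {P : Ideal (AdjoinRoot f)}
    (hP : P.IsMaximal) : SqLoc P (x ^ 2) := by
  have h1 : (1 : AdjoinRoot f) ∉ P := fun h1 => hP.ne_top ((Ideal.eq_top_iff_one P).2 h1)
  refine ⟨x, 1, 1, rfl, h1, h1, ?_⟩
  rw [mul_one, map_one]
  exact IsSquare.one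

/-- even valuation in terms of `SqLoc`-type factorisations: `EvenAt P α` iff `α c = a² d` with `c, d ∉ P` -/
theorem evenAt_iff (h : Good g n w f) {α : AdjoinRoot f} (hα : α ≠ 0) {P : Ideal (AdjoinRoot f)}
    (hP : P.IsMaximal) : EvenAt P α ↔ ∃ a c d : AdjoinRoot f, a ^ 2 * d = α * c ∧ c ∉ P ∧ d ∉ P := by
  have hD := isDedekind h
  have hPp := hP.isPrime
  have hP0 := Ring.ne_bot_of_isMaximal_of_not_isField hP (not_isField h.toPre)
  constructor
  · rintro ⟨k, h1, h2⟩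
    obtain ⟨a, ha, ha'⟩ := Ideal.exists_mem_pow_notMem_pow_succ P hP0 hP.ne_top k
    obtain ⟨h3, h4⟩ := abs_sq_mem hP hP0 ha ha'
    obtain ⟨c, d, h5, h6, h7⟩ := abs_unit hP h3 h4 h1 h2
    exact ⟨a, c, d, h5, h6, h7⟩
  · rintro ⟨a, c, d, h1, hc, hd⟩
    have hc0 : c ≠ 0 := by
      rintro rfl
      exact hc P.zero_mem
    have ha0 : a ≠ 0 := by
      rintro rfl
      rw [zero_pow two_ne_zero, zero_mul] at h1
      exact mul_ne_zero hα hc0 h1.symm
    obtain ⟨k, ha, ha'⟩ := abs_exists_pow hP.ne_top ha0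
    obtain ⟨h3, h4⟩ := abs_sq_mem hP hP0 ha ha'
    refine ⟨k, ?_, fun h5 => ?_⟩
    · have h5 : α * c ∈ P ^ (2 * k) := by
        rw [← h1]
        exact Ideal.mul_mem_right _ _ h3
      rcases Ideal.IsPrime.mem_pow_mul P h5 with h6 | h6
      · exact h6
      · exact absurd h6 hc
    · have h6 : a ^ 2 * d ∈ P ^ (2 * k + 1) := by
        rw [h1]
        exact Ideal.mul_mem_right _ _ h5
      rcases Ideal.IsPrime.mem_pow_mul P h6 with h7 | h7
      · exact h4 h7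
      · exact hd h7

end Pool.Agent.Helper96.PS
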