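import Pool.Agent.Helper96.PS.CBasic

/-!
# PS-C3: the valuations of `M[x]/(f)` at the regular maximal ideals

`f ∈ R[x]` monic, `m` a maximal ideal of `R[x]` with `ϖ, f ∈ m`, `f ∉ m²`. Then there is a group homomorphism `wv : (M[x]/f)^* → ℤ` with: for `P ∈ R[x]` whose class in `M[x]/(f)` is the unit `a`: `wv a = j` iff `P ∈ m^j + (f)`, `P ∉ m^{j+1} + (f)`.

Proof. `B = (R[x]/(f))_{m}` (localisation of `AdjoinRoot f` at the maximal ideal `m/(f)`) is noetherian local; `m = (ϖ, v)` (`R[x]/ϖ = κ[x]` is a PID), `f = a ϖ + b v` with `a ∉ m` or `b ∉ m`, so the maximal ideal of `B` is principal, generated by `v` or `ϖ`. `ϖ` is not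
nilpotent in `B`: `R[x]/(f)` is free over `R` (`ϖ` a nonzerodivisor, also in the localisation; `B ≠ 0`). A noetherian local ring with principal non-nilpotent maximal ideal is a DVR. `L = Frac B = B[1/ϖ]`. The ring map `M[x]/(f) = (R[x]/(f))[1/ϖ] → L` gives `(M[x]/f)^* → L^* → ℤ`.
For `P ∈ R[x]`: the valuation of `P` in `B` is `≥ j` iff `P ∈ m^j B`, iff `P ∈ m^j + (f)` (`m^j + (f)` is `m`-primary or everything: `R[x]/(m^j + (f)) → B/m^j B` is an isomorphism, as `R[x]/(m^j+(f))` is local).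
Existence of `M[x]/(f) → L`: `AdjoinRoot.lift` of `M → L` (as `R → B → L` is injective, `ϖ` invertible in `L`) and the image of the root.
-/

namespace Pool.Agent.Helper96.PS

open Polynomial

/-! ### Orders in a noetherian ring at a maximal ideal which is principal modulo its square -/

section ord

variable {A : Type*} [CommRing A]

/-- the order of `x` at `n` is `j` -/
private def Od (n : Ideal A) (x : A) (j : ℕ) : Prop := x ∈ n ^ j ∧ x ∉ n ^ (j + 1)

private theorem Od.unique {n : Ideal A} {x : A} {i j : ℕ} (hi : Od n x i) (hj : Od n x j) : i = j := by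
  rcases lt_trichotomy i j with h | h | h
  · exact absurd (Ideal.pow_le_pow_right h hj.1) hi.2
  · exact h
  · exact absurd (Ideal.pow_le_pow_right h hi.1) hj.2

private theorem pow_le_span {n : Ideal A} {t : A} (ht : n ≤ Ideal.span {t} ⊔ n ^ 2) (htn : t ∈ n)
    (k : ℕ) : ∀ x ∈ n ^ k, ∃ c : A, x - c * t ^ k ∈ n ^ (k + 1) := by
  induction k with
  | zero =>
    intro x _
    exact ⟨x, by simp⟩
  | succ k ih =>
    intro x hx
    rw [pow_succ] at hx
    refine Submodule.mul_induction_on hx ?_ ?_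
    · intro y hy z hz
      obtain ⟨c, hc⟩ := ih y hy
      obtain ⟨u, hu, v, hv, huv⟩ := Submodule.mem_sup.1 (ht hz)
      obtain ⟨d, hd⟩ := Ideal.mem_span_singleton'.1 hu
      refine ⟨c * d, ?_⟩
      have e : y * z - c * d * t ^ (k + 1) = (y - c * t ^ k) * (d * t) + y * v := by
        rw [← huv, ← hd]
        ring
      rw [e]
      refine Ideal.add_mem _ ?_ ?_
      · rw [pow_succ]
        exact Ideal.mul_mem_mul hc (Ideal.mul_mem_left _ _ htn)
      · have : k + 1 + 1 = k + 2 := rfl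
        rw [this, pow_add]
        exact Ideal.mul_mem_mul hy hv
    · rintro y z ⟨c, hc⟩ ⟨d, hd⟩
      refine ⟨c + d, ?_⟩
      have e : y + z - (c + d) * t ^ (k + 1) = (y - c * t ^ (k + 1)) + (z - d * t ^ (k + 1)) := by
        ring
      rw [e]
      exact Ideal.add_mem _ hc hd

private theorem cancel_pow {n : Ideal A} (hn : n.IsMaximal) {c x : A} (hc : c ∉ n) {k : ℕ}
    (h : c * x ∈ n ^ k) : x ∈ n ^ k := by
  have h1 : IsCoprime (Ideal.span {c}) (n ^ k) := by
    apply IsCoprime.pow_right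
    obtain ⟨y, i, hi, hyi⟩ := hn.exists_inv hc
    exact Ideal.isCoprime_iff_exists.2
      ⟨y * c, Ideal.mem_span_singleton'.2 ⟨y, rfl⟩, i, hi, hyi⟩
  obtain ⟨i, hi, j, hj, hij⟩ := Ideal.isCoprime_iff_exists.1 h1
  obtain ⟨d, rfl⟩ := Ideal.mem_span_singleton'.1 hi
  have e : x = d * (c * x) + j * x := by
    calc x = (d * c + j) * x := by rw [hij, one_mul]
      _ = _ := by ring
  rw [e]
  exact Ideal.add_mem _ (Ideal.mul_mem_left _ _ h) (Ideal.mul_mem_right _ _ hj)

private theorem pow_not_le [IsNoetherianRing A] {n : Ideal A} (hn : n.IsMaximal) {ϖ : A}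
    (hϖ : ϖ ∈ n) (hreg : ∀ x : A, x * ϖ = 0 → x = 0) (k : ℕ) : ¬ n ^ k ≤ n ^ (k + 1) := by
  intro h
  have h1 : n ^ k ≤ n • n ^ k := by
    rw [smul_eq_mul, ← pow_succ']
    exact h
  obtain ⟨r, hr1, hr2⟩ := Submodule.exists_sub_one_mem_and_smul_eq_zero_of_fg_of_le_smul n (n ^ k)
    (IsNoetherian.noetherian _) h1
  have h2 : ∀ (j : ℕ) (x : A), x * ϖ ^ j = 0 → x = 0 := by
    intro j
    induction j with
    | zero => intro x hx; simpa using hx
    | succ j ih =>
      intro x hx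
      rw [pow_succ, ← mul_assoc] at hx
      exact ih x (hreg _ hx)
  have h3 := hr2 (ϖ ^ k) (Ideal.pow_mem_pow hϖ k)
  rw [smul_eq_mul] at h3
  have h4 := h2 k r h3
  rw [h4, zero_sub] at hr1
  exact hn.ne_top ((Ideal.eq_top_iff_one n).2 ((neg_mem_iff).1 hr1))

private theorem Od.mul [IsNoetherianRing A] {n : Ideal A} (hn : n.IsMaximal) {ϖ t : A}
    (hϖ : ϖ ∈ n) (hreg : ∀ x : A, x * ϖ = 0 → x = 0) (ht : n ≤ Ideal.span {t} ⊔ n ^ 2)
    (htn : t ∈ n) {a b : A} {i j : ℕ} (ha : Od n a i) (hb : Od n b j) : Od n (a * b) (i + j) := by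
  refine ⟨?_, fun hab => ?_⟩
  · rw [pow_add]
    exact Ideal.mul_mem_mul ha.1 hb.1
  · obtain ⟨c, hc⟩ := pow_le_span ht htn i a ha.1
    obtain ⟨d, hd⟩ := pow_le_span ht htn j b hb.1
    have hcn : c ∉ n := by
      intro hcn
      apply ha.2
      have e : a = (a - c * t ^ i) + c * t ^ i := by ring
      rw [e]
      refine Ideal.add_mem _ hc ?_
      rw [pow_succ']
      exact Ideal.mul_mem_mul hcn (Ideal.pow_mem_pow htn i)
    have hdn : d ∉ n := by
      intro hdn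
      apply hb.2
      have e : b = (b - d * t ^ j) + d * t ^ j := by ring
      rw [e]
      refine Ideal.add_mem _ hd ?_
      rw [pow_succ']
      exact Ideal.mul_mem_mul hdn (Ideal.pow_mem_pow htn j)
    have h1 : (c * d) * t ^ (i + j) ∈ n ^ (i + j + 1) := by
      have e : (c * d) * t ^ (i + j) = a * b - ((a - c * t ^ i) * b +
          (c * t ^ i) * (b - d * t ^ j)) := by
        rw [pow_add]
        ring
      rw [e]
      refine Ideal.sub_mem _ hab (Ideal.add_mem _ ?_ ?_)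
      · have : i + j + 1 = (i + 1) + j := by ring
        rw [this, pow_add]
        exact Ideal.mul_mem_mul hc hb.1
      · have : i + j + 1 = i + (j + 1) := by ring
        rw [this, pow_add]
        exact Ideal.mul_mem_mul (Ideal.mul_mem_left _ _ (Ideal.pow_mem_pow htn i)) hd
    have hcd : c * d ∉ n := fun h => (hn.isPrime.mem_or_mem h).elim hcn hdn
    have h2 := cancel_pow hn hcd h1
    apply pow_not_le hn hϖ hreg (i + j)
    intro x hx
    obtain ⟨e, he⟩ := pow_le_span ht htn (i + j) x hx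
    have e1 : x = (x - e * t ^ (i + j)) + e * t ^ (i + j) := by ring
    rw [e1]
    exact Ideal.add_mem _ he (Ideal.mul_mem_left _ _ h2)

private theorem exists_od {n : Ideal A} {x : A} (h : ∃ j, x ∉ n ^ j) : ∃ j, Od n x j := by
  classical
  have h1 := Nat.find_spec h
  have h2 : ∀ k < Nat.find h, x ∈ n ^ k := fun k hk => by
    have := Nat.find_min h hk
    push Not at this
    exact this
  have h3 : Nat.find h ≠ 0 := by
    intro h0
    rw [h0] at h1
    apply h1
    rw [pow_zero, Ideal.one_eq_top]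
    exact Submodule.mem_top
  refine ⟨Nat.find h - 1, h2 _ (by omega), ?_⟩
  have h4 : Nat.find h - 1 + 1 = Nat.find h := by omega
  rw [h4]
  exact h1

private theorem exists_od_pi [IsNoetherianRing A] {n : Ideal A} (hn : n.IsMaximal) {ϖ : A}
    (hreg : ∀ x : A, x * ϖ = 0 → x = 0) : ∃ e, Od n ϖ e := by
  apply exists_od
  by_contra h
  push Not at h
  have h1 : ϖ ∈ (⨅ i : ℕ, n ^ i • ⊤ : Submodule A A) := by
    rw [Submodule.mem_iInf]
    intro i
    rw [smul_eq_mul, Ideal.mul_top]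
    exact h i
  obtain ⟨r, hr⟩ := (Ideal.mem_iInf_smul_pow_eq_bot_iff n ϖ).1 h1
  rw [smul_eq_mul] at hr
  have h2 : (1 - (r : A)) * ϖ = 0 := by
    rw [sub_mul, one_mul, hr, sub_self]
  have h3 := hreg _ h2
  have h4 : (1 : A) = r := sub_eq_zero.1 h3
  exact hn.ne_top ((Ideal.eq_top_iff_one n).2 (h4 ▸ r.2))

end ord


variable {R M : Type*} [CommRing R] [IsDomain R] [Field M] [Algebra R M] {ϖ : R}

private theorem wh_unif (hC : CData ϖ M) : (Ideal.span {ϖ} : Ideal R).IsMaximal := by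
  have := hC.dvr
  rw [← (IsDiscreteValuationRing.irreducible_iff_uniformizer ϖ).1 hC.unif]
  exact IsLocalRing.maximalIdeal.isMaximal R

/-- `m = (ϖ, v)` -/
private theorem exists_v (hC : CData ϖ M) {m : Ideal R[X]} :
    ∃ v ∈ m, ∀ P ∈ m, ∃ q r : R[X], P = q * v + r * C ϖ := by
  have hmax := wh_unif hC
  let fld : Field (R ⧸ (Ideal.span {ϖ} : Ideal R)) := Ideal.Quotient.field _
  have hsurj : Function.Surjective (mapRingHom (Ideal.Quotient.mk (Ideal.span {ϖ}))) :=
    Polynomial.map_surjective _ Ideal.Quotient.mk_surjective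
  obtain ⟨w, hw⟩ := (IsPrincipalIdealRing.principal
    (m.map (mapRingHom (Ideal.Quotient.mk (Ideal.span {ϖ}))))).principal
  have hw1 : w ∈ m.map (mapRingHom (Ideal.Quotient.mk (Ideal.span {ϖ}))) := by
    rw [hw]
    exact Submodule.mem_span_singleton_self w
  obtain ⟨v, hv, hvw⟩ := (Ideal.mem_map_iff_of_surjective _ hsurj).1 hw1
  refine ⟨v, hv, fun P hP => ?_⟩
  have h1 := Ideal.mem_map_of_mem (mapRingHom (Ideal.Quotient.mk (Ideal.span {ϖ}))) hP
  rw [hw] at h1
  obtain ⟨q', hq'⟩ := Submodule.mem_span_singleton.1 h1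
  obtain ⟨q, rfl⟩ := hsurj q'
  have h2 : P - q * v ∈ RingHom.ker (mapRingHom (Ideal.Quotient.mk (Ideal.span {ϖ}))) := by
    rw [RingHom.mem_ker, map_sub, map_mul, hvw, ← hq', smul_eq_mul, sub_self]
  rw [ker_mapRingHom, Ideal.mk_ker, Ideal.map_span, Set.image_singleton,
    Ideal.mem_span_singleton'] at h2
  obtain ⟨r, hr⟩ := h2
  exact ⟨q, r, by rw [hr]; ring⟩

private theorem wh_reg (hC : CData ϖ M) {f : R[X]} (hf : f.Monic) (x : AdjoinRoot f)
    (hx : x * AdjoinRoot.mk f (C ϖ) = 0) : x = 0 := by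
  have hfree := hf.free_adjoinRoot
  have h1 : ϖ • x = 0 := by
    rw [Algebra.smul_def, mul_comm]
    exact hx
  exact (smul_eq_zero.1 h1).resolve_left hC.unif.ne_zero

/-- the maximal ideal of `R[x]/(f)` is principal modulo its square -/
private theorem exists_t (hC : CData ϖ M) {f : R[X]} {m : Ideal R[X]} (hm : m.IsMaximal)
    (hϖ : C ϖ ∈ m) (hfm : f ∈ m) (hreg : f ∉ m ^ 2) :
    ∃ t ∈ m.map (AdjoinRoot.mk f), m.map (AdjoinRoot.mk f) ≤
      Ideal.span {t} ⊔ (m.map (AdjoinRoot.mk f)) ^ 2 := by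
  obtain ⟨v, hv, hmv⟩ := exists_v hC (m := m)
  obtain ⟨b, a, hab⟩ := hmv f hfm
  have hrel : AdjoinRoot.mk f b * AdjoinRoot.mk f v + AdjoinRoot.mk f a * AdjoinRoot.mk f (C ϖ) = 0 := by
    rw [← map_mul, ← map_mul, ← map_add, ← hab, AdjoinRoot.mk_self]
  have hv' := Ideal.mem_map_of_mem (AdjoinRoot.mk f) hv
  have hϖ' := Ideal.mem_map_of_mem (AdjoinRoot.mk f) hϖ
  set n := m.map (AdjoinRoot.mk f) with hn
  have hgen : ∀ x ∈ n, ∃ q r : AdjoinRoot f, x = q * AdjoinRoot.mk f v + r * AdjoinRoot.mk f (C ϖ) := by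
    intro x hx
    obtain ⟨P, hP, rfl⟩ := (Ideal.mem_map_iff_of_surjective _ AdjoinRoot.mk_surjective).1 hx
    obtain ⟨q, r, rfl⟩ := hmv P hP
    exact ⟨AdjoinRoot.mk f q, AdjoinRoot.mk f r, by rw [map_add, map_mul, map_mul]⟩
  by_cases hb : b ∈ m
  · -- `a ∉ m`, `t = v`
    have ha : a ∉ m := by
      intro ha
      apply hreg
      rw [hab, sq]
      exact Ideal.add_mem _ (Ideal.mul_mem_mul hb hv) (Ideal.mul_mem_mul ha hϖ)
    obtain ⟨d, y, hy, hdy⟩ := hm.exists_inv ha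
    have hy' := Ideal.mem_map_of_mem (AdjoinRoot.mk f) hy
    have hdy' : AdjoinRoot.mk f d * AdjoinRoot.mk f a + AdjoinRoot.mk f y = 1 := by
      rw [← map_mul, ← map_add, hdy, map_one]
    refine ⟨AdjoinRoot.mk f v, hv', fun x hx => ?_⟩
    obtain ⟨q, r, rfl⟩ := hgen x hx
    rw [Submodule.mem_sup]
    refine ⟨(q - r * AdjoinRoot.mk f d * AdjoinRoot.mk f b) * AdjoinRoot.mk f v,
      Ideal.mem_span_singleton'.2 ⟨_, rfl⟩, r * (AdjoinRoot.mk f y * AdjoinRoot.mk f (C ϖ)), ?_, ?_⟩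
    · rw [sq]
      exact Ideal.mul_mem_left _ _ (Ideal.mul_mem_mul hy' hϖ')
    · linear_combination (r * AdjoinRoot.mk f (C ϖ)) * hdy' - (r * AdjoinRoot.mk f d) * hrel
  · obtain ⟨d, y, hy, hdy⟩ := hm.exists_inv hb
    have hy' := Ideal.mem_map_of_mem (AdjoinRoot.mk f) hy
    have hdy' : AdjoinRoot.mk f d * AdjoinRoot.mk f b + AdjoinRoot.mk f y = 1 := by
      rw [← map_mul, ← map_add, hdy, map_one]
    refine ⟨AdjoinRoot.mk f (C ϖ), hϖ', fun x hx => ?_⟩
    obtain ⟨q, r, rfl⟩ := hgen x hx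
    rw [Submodule.mem_sup]
    refine ⟨(r - q * AdjoinRoot.mk f d * AdjoinRoot.mk f a) * AdjoinRoot.mk f (C ϖ),
      Ideal.mem_span_singleton'.2 ⟨_, rfl⟩, q * (AdjoinRoot.mk f y * AdjoinRoot.mk f v), ?_, ?_⟩
    · rw [sq]
      exact Ideal.mul_mem_left _ _ (Ideal.mul_mem_mul hy' hv')
    · linear_combination (q * AdjoinRoot.mk f v) * hdy' - (q * AdjoinRoot.mk f d) * hrel

omit [IsDomain R] in
private theorem od_iff {f : R[X]} {m : Ideal R[X]} (P : R[X]) (j : ℕ) :
    Od (m.map (AdjoinRoot.mk f)) (AdjoinRoot.mk f P) j ↔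
      P ∈ m ^ j ⊔ Ideal.span {f} ∧ P ∉ m ^ (j + 1) ⊔ Ideal.span {f} := by
  have key : ∀ k, AdjoinRoot.mk f P ∈ (m.map (AdjoinRoot.mk f)) ^ k ↔ P ∈ m ^ k ⊔ Ideal.span {f} := by
    intro k
    rw [← Ideal.map_pow, Ideal.mem_map_iff_of_surjective _ AdjoinRoot.mk_surjective,
      Submodule.mem_sup]
    constructor
    · rintro ⟨x, hx, hxP⟩
      refine ⟨x, hx, P - x, ?_, by ring⟩
      rw [Ideal.mem_span_singleton, ← AdjoinRoot.mk_eq_zero, map_sub, hxP, sub_self]
    · rintro ⟨x, hx, y, hy, rfl⟩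
      refine ⟨x, hx, ?_⟩
      rw [Ideal.mem_span_singleton, ← AdjoinRoot.mk_eq_zero] at hy
      rw [map_add, hy, add_zero]
  unfold Od
  rw [key, key]

/-- `M[x] = R[x][1/ϖ]` -/
private theorem exists_clear (hC : CData ϖ M) (Q : M[X]) :
    ∃ (k : ℕ) (P : R[X]), P.map (algebraMap R M) = C (algebraMap R M ϖ ^ k) * Q := by
  have := hC.dvr
  have := hC.frac
  obtain ⟨b, hb, hbQ⟩ := IsLocalization.integerNormalization_spec (nonZeroDivisors R) Q
  obtain ⟨k, u, hu⟩ := IsDiscreteValuationRing.eq_unit_mul_pow_irreducible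
    (nonZeroDivisors.ne_zero hb) hC.unif
  refine ⟨k, C ((u⁻¹ : Rˣ) : R) * IsLocalization.integerNormalization (nonZeroDivisors R) Q, ?_⟩
  rw [Polynomial.map_mul, hbQ, map_C]
  have h1 : b • Q = C (algebraMap R M b) * Q := by
    rw [← Polynomial.smul_eq_C_mul, algebraMap_smul]
  rw [h1, ← mul_assoc, ← C_mul, ← map_mul, hu, ← mul_assoc, Units.inv_mul, one_mul, map_pow]

private theorem mk_map_inj (hC : CData ϖ M) {f : R[X]} (hf : f.Monic) {fM : M[X]}
    (hfM : fM = f.map (algebraMap R M)) {P Q : R[X]}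
    (h : AdjoinRoot.mk fM (P.map (algebraMap R M)) = AdjoinRoot.mk fM (Q.map (algebraMap R M))) :
    AdjoinRoot.mk f P = AdjoinRoot.mk f Q := by
  have := hC.frac
  have hinj : Function.Injective (algebraMap R M) := IsFractionRing.injective R M
  rw [← sub_eq_zero, ← map_sub, AdjoinRoot.mk_eq_zero] at h ⊢
  rw [← Polynomial.map_sub, hfM, Polynomial.map_dvd_map _ hinj hf] at h
  exact h

theorem exists_isValM (hC : CData ϖ M) {f : R[X]} (hf : f.Monic) {fM : M[X]}
    (hfM : fM = f.map (algebraMap R M)) {m : Ideal R[X]} (hm : m.IsMaximal) (hϖ : C ϖ ∈ m)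
    (hfm : f ∈ m) (hreg : f ∉ m ^ 2) :
    ∃ wv : (AdjoinRoot fM)ˣ →* Multiplicative ℤ, IsValM fM f m wv := by
  have hdvr := hC.dvr
  have hfrac := hC.frac
  obtain ⟨t, htn, ht⟩ := exists_t hC hm hϖ hfm hreg
  have hϖ' := Ideal.mem_map_of_mem (AdjoinRoot.mk f) hϖ
  have hn : (m.map (AdjoinRoot.mk f)).IsMaximal := by
    have := hm
    refine Ideal.IsMaximal.map_of_surjective_of_ker_le AdjoinRoot.mk_surjective ?_
    intro x hx
    rw [RingHom.mem_ker, AdjoinRoot.mk_eq_zero] at hx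
    obtain ⟨y, rfl⟩ := hx
    exact Ideal.mul_mem_right _ _ hfm
  have hr := wh_reg hC hf
  obtain ⟨e, he⟩ := exists_od_pi hn hr
  have hmul : ∀ {a b : AdjoinRoot f} {i j : ℕ}, Od (m.map (AdjoinRoot.mk f)) a i →
      Od (m.map (AdjoinRoot.mk f)) b j → Od (m.map (AdjoinRoot.mk f)) (a * b) (i + j) :=
    fun ha hb => Od.mul hn hϖ' hr ht htn ha hb
  have hone : Od (m.map (AdjoinRoot.mk f)) 1 0 := by
    refine ⟨by simp, ?_⟩
    rw [zero_add, pow_one]
    exact fun h => hn.ne_top ((Ideal.eq_top_iff_one _).2 h)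
  have hpow : ∀ k : ℕ, Od (m.map (AdjoinRoot.mk f)) (AdjoinRoot.mk f (C ϖ) ^ k) (k * e) := by
    intro k
    induction k with
    | zero => simpa using hone
    | succ k ih =>
      have := hmul ih he
      rw [← pow_succ] at this
      have h2 : (k + 1) * e = k * e + e := by ring
      rwa [h2]
  set p : AdjoinRoot fM := AdjoinRoot.mk fM (C (algebraMap R M ϖ)) with hp
  have hpmap : ∀ P : R[X], AdjoinRoot.mk fM ((C ϖ * P).map (algebraMap R M)) =
      p * AdjoinRoot.mk fM (P.map (algebraMap R M)) := by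
    intro P
    rw [Polynomial.map_mul, map_C, map_mul]
  have hpmapk : ∀ (k : ℕ) (P : R[X]), AdjoinRoot.mk fM ((C ϖ ^ k * P).map (algebraMap R M)) =
      p ^ k * AdjoinRoot.mk fM (P.map (algebraMap R M)) := by
    intro k P
    rw [Polynomial.map_mul, Polynomial.map_pow, map_C, map_mul, map_pow]
  -- the relation
  let Rel : AdjoinRoot fM → ℤ → Prop := fun a z => ∃ (k : ℕ) (P : R[X]) (i : ℕ),
    p ^ k * a = AdjoinRoot.mk fM (P.map (algebraMap R M)) ∧
      Od (m.map (AdjoinRoot.mk f)) (AdjoinRoot.mk f P) i ∧ z = (i : ℤ) - k * e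
  have huniq : ∀ a z z', Rel a z → Rel a z' → z = z' := by
    rintro a z z' ⟨k, P, i, h1, h2, h3⟩ ⟨l, Q, j, g1, g2, g3⟩
    have h4 : AdjoinRoot.mk fM ((C ϖ ^ l * P).map (algebraMap R M)) =
        AdjoinRoot.mk fM ((C ϖ ^ k * Q).map (algebraMap R M)) := by
      rw [hpmapk, hpmapk, ← h1, ← g1]
      ring
    have h5 := mk_map_inj hC hf hfM h4
    rw [map_mul, map_mul, map_pow, map_pow] at h5
    have h6 := hmul (hpow l) h2
    have h7 := hmul (hpow k) g2
    rw [h5] at h6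
    have h8 := h6.unique h7
    have h9 : (l : ℤ) * e + i = k * e + j := by exact_mod_cast h8
    rw [h3, g3]
    linarith
  have hRmul : ∀ a b z z', Rel a z → Rel b z' → Rel (a * b) (z + z') := by
    rintro a b z z' ⟨k, P, i, h1, h2, h3⟩ ⟨l, Q, j, g1, g2, g3⟩
    refine ⟨k + l, P * Q, i + j, ?_, ?_, ?_⟩
    · rw [Polynomial.map_mul, map_mul, ← h1, ← g1]
      ring
    · rw [map_mul]
      exact hmul h2 g2
    · rw [h3, g3]
      push_cast
      ring
  have hclear : ∀ a : AdjoinRoot fM, ∃ (k : ℕ) (P : R[X]),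
      p ^ k * a = AdjoinRoot.mk fM (P.map (algebraMap R M)) := by
    intro a
    obtain ⟨Q, rfl⟩ := AdjoinRoot.mk_surjective a
    obtain ⟨k, P, hP⟩ := exists_clear hC Q
    refine ⟨k, P, ?_⟩
    rw [hP, map_mul, C_pow, map_pow]
  have hex : ∀ a : (AdjoinRoot fM)ˣ, ∃ z, Rel a z := by
    intro a
    obtain ⟨k, P, hP⟩ := hclear a
    obtain ⟨l, Q, hQ⟩ := hclear ((a⁻¹ : (AdjoinRoot fM)ˣ) : AdjoinRoot fM)
    have h1 : AdjoinRoot.mk f P * AdjoinRoot.mk f Q = AdjoinRoot.mk f (C ϖ) ^ (k + l) := by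
      rw [← map_mul, ← map_pow]
      apply mk_map_inj hC hf hfM
      have h2 := hpmapk (k + l) 1
      rw [mul_one] at h2
      rw [h2, Polynomial.map_mul, map_mul, ← hP, ← hQ, Polynomial.map_one, map_one, mul_one]
      have h3 : (a : AdjoinRoot fM) * ((a⁻¹ : (AdjoinRoot fM)ˣ) : AdjoinRoot fM) = 1 := a.mul_inv
      calc p ^ k * (a : AdjoinRoot fM) * (p ^ l * ((a⁻¹ : (AdjoinRoot fM)ˣ) : AdjoinRoot fM)) =
          p ^ (k + l) * ((a : AdjoinRoot fM) * ((a⁻¹ : (AdjoinRoot fM)ˣ) : AdjoinRoot fM)) := by ring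
        _ = _ := by rw [h3, mul_one]
    have h2 : ∃ j, AdjoinRoot.mk f P ∉ (m.map (AdjoinRoot.mk f)) ^ j := by
      refine ⟨(k + l) * e + 1, fun h => (hpow (k + l)).2 ?_⟩
      rw [← h1]
      exact Ideal.mul_mem_right _ _ h
    obtain ⟨i, hi⟩ := exists_od h2
    exact ⟨_, k, P, i, hP, hi, rfl⟩
  choose w hw using hex
  refine ⟨MonoidHom.mk' (fun a => Multiplicative.ofAdd (w a)) fun a b => ?_, ?_⟩
  · rw [← ofAdd_add]
    congr 1
    exact huniq _ _ _ (hw (a * b)) (hRmul _ _ _ _ (hw a) (hw b))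
  · intro P a haP j
    rw [← od_iff]
    change Multiplicative.ofAdd (w a) = Multiplicative.ofAdd (j : ℤ) ↔ _
    constructor
    · intro h
      have h1 : w a = (j : ℤ) := Multiplicative.ofAdd.injective h
      obtain ⟨k, Q, i, g1, g2, g3⟩ := hw a
      have h4 : AdjoinRoot.mk fM ((C ϖ ^ k * P).map (algebraMap R M)) =
          AdjoinRoot.mk fM (Q.map (algebraMap R M)) := by
        rw [hpmapk, ← g1, haP]
      have h5 := mk_map_inj hC hf hfM h4
      rw [map_mul, map_pow] at h5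
      have h6 : ∃ j, AdjoinRoot.mk f P ∉ (m.map (AdjoinRoot.mk f)) ^ j := by
        refine ⟨i + 1, fun h => g2.2 ?_⟩
        rw [← h5]
        exact Ideal.mul_mem_left _ _ h
      obtain ⟨j', hj'⟩ := exists_od h6
      have h7 : Rel a (j' : ℤ) := ⟨0, P, j', by rw [pow_zero, one_mul, haP], hj', by simp⟩
      have h8 := huniq _ _ _ (hw a) h7
      rw [h1] at h8
      have h9 : j = j' := by exact_mod_cast h8
      rwa [h9]
    · intro h
      have h7 : Rel a (j : ℤ) := ⟨0, P, j, by rw [pow_zero, one_mul, haP], h, by simp⟩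
      rw [huniq _ _ _ (hw a) h7]

end Pool.Agent.Helper96.PS
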