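import Pool.Agent.Helper96.PS.RegUp
import Pool.Agent.Helper96.PS.WHom
import Pool.Agent.Helper96.PS.SqLocAlg
import Pool.Agent.Helper96.PS.Places

/-!
# PS-C9: valuations of `O = A[x]/(f)` and of the completion

`f` good, `hL : LData π R M`, `α ∈ O`, `α ≠ 0`, `αM` the unit of `M[x]/(f)` which is its image, `m'` maximal in `R[x]` with `ϖ, f ∈ m'`, `m = m' ∩ A[x]`, `P = m/(f)` the maximal ideal of `O` (`= m.map (mk f)`), `wv` the valuation at `m'`.
`α = P₀(θ)`, `P₀ ∈ A[x]`: `α ∈ P^j` iff `P₀ ∈ m^j + (f)` iff `P₀ ∈ m'^j + (f)` in `R[x]` (`mem_pow_iff`). So `wv(αM) = j` iff `α ∈ P^j ∖ P^{j+1}` (`IsValM` applied to `P₀.map`). As `α ≠ 0` in the Dedekind domain `O` there is such a `j`. So `EvenAt P α ↔ Even (wv αM)`.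
The polynomials `(fK f).map (RatFunc F → M)` and `(f.map (A → R)).map (R → M)` are equal by `hL.comp`.
-/

namespace Pool.Agent.Helper96.PS

open Polynomial

variable {F : Type*} [Field F] {g n : ℕ} {w : F[X]} {f : F[X][X]}
  {π : F[X]} {R M : Type*} [CommRing R] [IsDomain R] [Field M]
  [Algebra R M] [Algebra F[X] R] [Algebra (RatFunc F) M]

private theorem h45_map_mk {S T : Type*} [CommRing S] [CommRing T] (φ : S →+* T) (p : S[X])
    (q : T[X]) (h : q ∣ p.map φ) (r : S[X]) :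
    AdjoinRoot.map φ p q h (AdjoinRoot.mk p r) = AdjoinRoot.mk q (r.map φ) := by
  have h1 : (AdjoinRoot.map φ p q h).comp (AdjoinRoot.mk p) =
      (AdjoinRoot.mk q).comp (mapRingHom φ) := by
    refine Polynomial.ringHom_ext ?_ ?_
    · intro a
      rw [RingHom.comp_apply, RingHom.comp_apply, AdjoinRoot.mk_C, AdjoinRoot.map_of,
        coe_mapRingHom, map_C, AdjoinRoot.mk_C]
    · rw [RingHom.comp_apply, RingHom.comp_apply, AdjoinRoot.mk_X, AdjoinRoot.map_root,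
        coe_mapRingHom, map_X, AdjoinRoot.mk_X]
  exact congrArg (fun (ψ : S[X] →+* AdjoinRoot q) => ψ r) h1

private theorem h45_mem_pow (f : F[X][X]) {P : Ideal (AdjoinRoot f)} {m : Ideal F[X][X]}
    (hm : m = P.comap (AdjoinRoot.mk f)) (P₀ : F[X][X]) (j : ℕ) :
    AdjoinRoot.mk f P₀ ∈ P ^ j ↔ P₀ ∈ m ^ j ⊔ Ideal.span {f} := by
  have hs : Function.Surjective (AdjoinRoot.mk f) := AdjoinRoot.mk_surjective
  have h1 : P = m.map (AdjoinRoot.mk f) := by
    rw [hm, Ideal.map_comap_of_surjective _ hs]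
  have h2 : Ideal.comap (AdjoinRoot.mk f) ⊥ = Ideal.span {f} := by
    ext x
    rw [Ideal.mem_comap, Ideal.mem_bot, AdjoinRoot.mk_eq_zero, Ideal.mem_span_singleton]
  rw [h1, ← Ideal.map_pow, ← Ideal.mem_comap, Ideal.comap_map_of_surjective _ hs, h2]

theorem map_fK (hL : LData π R M) (f : F[X][X]) :
    (fK f).map (algebraMap (RatFunc F) M) = (f.map (algebraMap F[X] R)).map (algebraMap R M) := by
  unfold fK
  rw [Polynomial.map_map, Polynomial.map_map]
  congr 1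
  exact RingHom.ext fun a => (hL.comp a).symm

/-- the image in `M[x]/(f)` of `α = P₀(θ)` -/
theorem bc_eq (hL : LData π R M) {P₀ : F[X][X]} {αK : (AdjoinRoot (fK f))ˣ}
    (hα : (αK : AdjoinRoot (fK f)) = toK f (AdjoinRoot.mk f P₀)) :
    ((bc M (fK f) αK : (AdjoinRoot ((fK f).map (algebraMap (RatFunc F) M)))ˣ) :
      AdjoinRoot ((fK f).map (algebraMap (RatFunc F) M))) =
      AdjoinRoot.mk _ ((P₀.map (algebraMap F[X] R)).map (algebraMap R M)) := by
  unfold bc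
  rw [Units.coe_map]
  have h1 : (AdjoinRoot.map (algebraMap (RatFunc F) M) (fK f)
      ((fK f).map (algebraMap (RatFunc F) M)) dvd_rfl) (αK : AdjoinRoot (fK f)) =
      AdjoinRoot.mk _ ((P₀.map (algebraMap F[X] R)).map (algebraMap R M)) := by
    rw [hα]
    unfold toK
    rw [h45_map_mk, h45_map_mk]
    congr 1
    exact map_fK hL P₀
  exact h1

theorem reg_up (h : Good g n w f) (hL : LData π R M) {m' : Ideal R[X]} (hm' : m'.IsMaximal)
    (hϖ : C (algebraMap F[X] R π) ∈ m') (hf : f.map (algebraMap F[X] R) ∈ m') :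
    f.map (algebraMap F[X] R) ∉ m' ^ 2 := by
  intro h1
  obtain ⟨h2, _⟩ := comap_isMaximal hL hm' hϖ
  rw [mem_pow_iff' hL hm' hϖ] at h1
  exact h.reg _ h2 (Ideal.mem_comap.2 hf) h1

/-- every maximal ideal of `O` over `π` comes from a maximal ideal of `R[x]` -/
theorem exists_up_ideal (h : Good g n w f) (hL : LData π R M) {P : Ideal (AdjoinRoot f)}
    (hP : P.IsMaximal) (hπP : AdjoinRoot.of f π ∈ P) :
    ∃ m' : Ideal R[X], m'.IsMaximal ∧ C (algebraMap F[X] R π) ∈ m' ∧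
      f.map (algebraMap F[X] R) ∈ m' ∧
      (m'.comap (mapRingHom (algebraMap F[X] R))) = P.comap (AdjoinRoot.mk f) := by
  have h1 : (P.comap (AdjoinRoot.mk f)).IsMaximal :=
    Ideal.comap_isMaximal_of_surjective _ AdjoinRoot.mk_surjective
  have h2 : C π ∈ P.comap (AdjoinRoot.mk f) := by
    rw [Ideal.mem_comap, AdjoinRoot.mk_C]
    exact hπP
  obtain ⟨m', hm', hϖ, hc⟩ := exists_up hL h1 h2
  refine ⟨m', hm', hϖ, ?_, hc⟩
  have h3 : f ∈ m'.comap (mapRingHom (algebraMap F[X] R)) := by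
    rw [hc, Ideal.mem_comap, AdjoinRoot.mk_self]
    exact P.zero_mem
  exact h3

theorem evenAt_iff_val (h : Good g n w f) (hL : LData π R M) {P : Ideal (AdjoinRoot f)}
    (hP : P.IsMaximal) {m' : Ideal R[X]} (hm' : m'.IsMaximal)
    (hϖ : C (algebraMap F[X] R π) ∈ m') (hf : f.map (algebraMap F[X] R) ∈ m')
    (hmP : (m'.comap (mapRingHom (algebraMap F[X] R))) = P.comap (AdjoinRoot.mk f))
    {wv : (AdjoinRoot ((fK f).map (algebraMap (RatFunc F) M)))ˣ →* Multiplicative ℤ}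
    (hw : IsValM ((fK f).map (algebraMap (RatFunc F) M)) (f.map (algebraMap F[X] R)) m' wv)
    {α : AdjoinRoot f} (hα : α ≠ 0) {αK : (AdjoinRoot (fK f))ˣ}
    (hαK : (αK : AdjoinRoot (fK f)) = toK f α) :
    EvenAt P α ↔ Even (Multiplicative.toAdd (wv (bc M (fK f) αK))) := by
  obtain ⟨P₀, rfl⟩ := AdjoinRoot.mk_surjective α
  have hdom : IsDomain (AdjoinRoot f) := isDomain h.toPre
  have hded : IsDedekindDomain (AdjoinRoot f) := isDedekind h
  have hval := hw (P₀.map (algebraMap F[X] R)) (bc M (fK f) αK) (bc_eq hL hαK)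
  have hval' : ∀ j : ℕ, (wv (bc M (fK f) αK) = Multiplicative.ofAdd (j : ℤ) ↔
      AdjoinRoot.mk f P₀ ∈ P ^ j ∧ AdjoinRoot.mk f P₀ ∉ P ^ (j + 1)) := by
    intro j
    rw [hval j, mem_pow_iff hL hm' hϖ, mem_pow_iff hL hm' hϖ,
      h45_mem_pow f hmP P₀ j, h45_mem_pow f hmP P₀ (j + 1)]
  have hex : ∃ j : ℕ, AdjoinRoot.mk f P₀ ∉ P ^ j := by
    by_contra hcon
    push Not at hcon
    apply hα
    have h1 : (⨅ i : ℕ, P ^ i) = ⊥ := Ideal.iInf_pow_eq_bot_of_isDomain P hP.ne_top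
    have h2 : AdjoinRoot.mk f P₀ ∈ ⨅ i : ℕ, P ^ i := by
      rw [Submodule.mem_iInf]
      exact hcon
    rw [h1] at h2
    exact h2
  obtain ⟨j, hj, hj'⟩ : ∃ j : ℕ, AdjoinRoot.mk f P₀ ∈ P ^ j ∧
      AdjoinRoot.mk f P₀ ∉ P ^ (j + 1) := by
    classical
    have h1 := Nat.find_spec hex
    have h2 : Nat.find hex ≠ 0 := by
      intro h0
      rw [h0, pow_zero, Ideal.one_eq_top] at h1
      exact h1 Submodule.mem_top
    obtain ⟨j, hj⟩ := Nat.exists_eq_succ_of_ne_zero h2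
    refine ⟨j, ?_, ?_⟩
    · by_contra h3
      have h4 := Nat.find_min' hex h3
      omega
    · rw [hj] at h1
      exact h1
  have hwj := (hval' j).2 ⟨hj, hj'⟩
  rw [hwj, toAdd_ofAdd]
  constructor
  · rintro ⟨k, hk, hk'⟩
    have h1 := (hval' (2 * k)).2 ⟨hk, hk'⟩
    rw [hwj] at h1
    have h2 : (j : ℤ) = ((2 * k : ℕ) : ℤ) := Multiplicative.ofAdd.injective h1
    rw [h2]
    exact ⟨(k : ℤ), by push_cast; ring⟩
  · intro h1
    have h2 : Even j := by exact_mod_cast h1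
    obtain ⟨k, rfl⟩ := h2
    refine ⟨k, ?_, ?_⟩
    · rw [two_mul]
      exact hj
    · rw [two_mul]
      exact hj'

end Pool.Agent.Helper96.PS
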