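import Pool.Agent.Helper96.PS.LD

/-!
# PS-C4b: the parity of intersection numbers

`a ∈ R[x]` monic, `ā = v̄^r`, `v̄` irreducible of degree `d`; `f ∈ R[x]`, prime to `a` over `M`, `c = ε₁ ϖ^j ∈ R`, `a ∣ V² - c f` in `M[x]`; `N_{R[x]/(a)}(f) = ε ϖ^{d s}`. Then `s + j r` is even.

Proof. `W = R[x]/(a)`, free of rank `d r` over `R`. Choose `K` with `V₁ = ϖ^K V ∈ R[x]`: `a ∣ V₁² - ϖ^{2K} c f` in `M[x]`, hence in `R[x]` (`a` monic: division with remainder, `R ⊂ M`). Norms: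
`N(V₁)² = (ϖ^{2K} c)^{d r} N(f) = unit · ϖ^{(2K + j) d r + d s}`; `N(V₁) ≠ 0`, so `N(V₁) = unit ϖ^{d s'}` (`exists_norm_eq`), so `2 d s' = (2K + j) d r + d s`; divide by `d ≥ 1`: `2 s' = 2 K r + j r + s`.
(`N(f) ≠ 0`: given by the hypothesis.)
-/

namespace Pool.Agent.Helper96.PS

open Polynomial

variable {R M : Type*} [CommRing R] [IsDomain R] [Field M] [Algebra R M] {ϖ : R}

theorem even_of_dvd (hC : CData ϖ M) {a v f : R[X]} {r j s : ℕ} (ha : a.Monic) (hv : v.Monic)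
    (hirr : Irreducible (v.map (Ideal.Quotient.mk (Ideal.span {ϖ}))))
    (hav : a.map (Ideal.Quotient.mk (Ideal.span {ϖ})) =
      v.map (Ideal.Quotient.mk (Ideal.span {ϖ})) ^ r)
    {ε ε₁ : R} (hε : IsUnit ε) (hε₁ : IsUnit ε₁)
    (hN : Algebra.norm R (AdjoinRoot.mk a f) = ε * ϖ ^ (v.natDegree * s)) {V : M[X]}
    (hdvd : a.map (algebraMap R M) ∣
      V ^ 2 - C (algebraMap R M (ε₁ * ϖ ^ j)) * f.map (algebraMap R M)) :
    Even (s + j * r) := by
  have := hC.dvr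
  have := hC.frac
  have hϖ : Irreducible ϖ := hC.unif
  have hϖ0 : ϖ ≠ 0 := hϖ.ne_zero
  have : Nontrivial (R ⧸ Ideal.span {ϖ}) := by
    apply Ideal.Quotient.nontrivial_iff.2
    intro h
    exact hϖ.not_isUnit (Ideal.span_singleton_eq_top.1 h)
  -- degrees
  have hd : 0 < v.natDegree := by
    rcases Nat.eq_zero_or_pos v.natDegree with h | h
    · exfalso
      have h1 : v = 1 := Polynomial.eq_one_of_monic_natDegree_zero hv h
      rw [h1, Polynomial.map_one] at hirr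
      exact hirr.not_isUnit isUnit_one
    · exact h
  have hdeg : a.natDegree = v.natDegree * r := by
    have h1 : (a.map (Ideal.Quotient.mk (Ideal.span {ϖ}))).natDegree = a.natDegree :=
      ha.natDegree_map _
    have h2 : (v.map (Ideal.Quotient.mk (Ideal.span {ϖ}))).natDegree = v.natDegree :=
      hv.natDegree_map _
    rw [← h1, hav, (hv.map _).natDegree_pow, h2, mul_comm]
  -- clearing denominators
  obtain ⟨b, hbm, hb⟩ := IsLocalization.integerNormalization_spec (nonZeroDivisors R) V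
  set V₁ := IsLocalization.integerNormalization (nonZeroDivisors R) V with hV₁
  have hb0 : (b : R) ≠ 0 := nonZeroDivisors.ne_zero hbm
  have hdiv : a ∣ V₁ ^ 2 - C ((b : R) ^ 2 * (ε₁ * ϖ ^ j)) * f := by
    rw [← Polynomial.map_dvd_map (algebraMap R M) (IsFractionRing.injective R M) ha]
    have e1 : (V₁ ^ 2 - C ((b : R) ^ 2 * (ε₁ * ϖ ^ j)) * f).map (algebraMap R M) =
        C (algebraMap R M ((b : R) ^ 2)) *
          (V ^ 2 - C (algebraMap R M (ε₁ * ϖ ^ j)) * f.map (algebraMap R M)) := by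
      have hb' : V₁.map (algebraMap R M) = C (algebraMap R M (b : R)) * V := by
        rw [hb, ← Polynomial.smul_eq_C_mul, algebraMap_smul]
      rw [Polynomial.map_sub, Polynomial.map_pow, hb', Polynomial.map_mul, Polynomial.map_C,
        map_mul (algebraMap R M) ((b : R) ^ 2), map_pow, C_mul, C_pow]
      ring
    rw [e1]
    exact hdvd.mul_left _
  have hsq : (AdjoinRoot.mk a V₁) ^ 2 =
      algebraMap R (AdjoinRoot a) ((b : R) ^ 2 * (ε₁ * ϖ ^ j)) * AdjoinRoot.mk a f := by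
    have h1 : AdjoinRoot.mk a (V₁ ^ 2 - C ((b : R) ^ 2 * (ε₁ * ϖ ^ j)) * f) = 0 :=
      AdjoinRoot.mk_eq_zero.2 hdiv
    rw [map_sub, map_pow, map_mul, AdjoinRoot.mk_C, sub_eq_zero] at h1
    exact h1
  have hnorm : Algebra.norm R (AdjoinRoot.mk a V₁) ^ 2 =
      ((b : R) ^ 2 * (ε₁ * ϖ ^ j)) ^ (v.natDegree * r) * (ε * ϖ ^ (v.natDegree * s)) := by
    rw [← map_pow, hsq, map_mul, hN,
      Algebra.norm_algebraMap_of_basis (AdjoinRoot.powerBasis' ha).basis, Fintype.card_fin,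
      AdjoinRoot.powerBasis'_dim, hdeg]
  have hne : Algebra.norm R (AdjoinRoot.mk a V₁) ≠ 0 := by
    intro h0
    rw [h0, zero_pow two_ne_zero] at hnorm
    exact (mul_ne_zero (pow_ne_zero _ (mul_ne_zero (pow_ne_zero _ hb0)
      (mul_ne_zero hε₁.ne_zero (pow_ne_zero _ hϖ0))))
      (mul_ne_zero hε.ne_zero (pow_ne_zero _ hϖ0))) hnorm.symm
  obtain ⟨s', ε₂, hε₂, hs'⟩ := exists_norm_eq hC ha hv hirr hav _ hne
  obtain ⟨K, ub, hub⟩ := IsDiscreteValuationRing.eq_unit_mul_pow_irreducible hb0 hϖ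
  obtain ⟨u, rfl⟩ := hε
  obtain ⟨u₁, rfl⟩ := hε₁
  obtain ⟨u₂, rfl⟩ := hε₂
  rw [hs', hub] at hnorm
  have hkey : ((u₂ ^ 2 : Rˣ) : R) * ϖ ^ (2 * (v.natDegree * s')) =
      (((ub ^ 2 * u₁) ^ (v.natDegree * r) * u : Rˣ) : R) *
        ϖ ^ ((2 * K + j) * (v.natDegree * r) + v.natDegree * s) := by
    have e1 : ((u₂ ^ 2 : Rˣ) : R) * ϖ ^ (2 * (v.natDegree * s')) =
        ((u₂ : R) * ϖ ^ (v.natDegree * s')) ^ 2 := by
      push_cast
      rw [mul_pow, ← pow_mul, mul_comm 2]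
    rw [e1, hnorm]
    push_cast
    rw [pow_add, pow_mul, show ((ub : R) * ϖ ^ K) ^ 2 * ((u₁ : R) * ϖ ^ j) =
      ((ub : R) ^ 2 * u₁) * ϖ ^ (2 * K + j) by rw [pow_add, mul_pow, ← pow_mul, mul_comm K 2]; ring,
      mul_pow]
    ring
  have hexp := IsDiscreteValuationRing.unit_mul_pow_congr_pow hϖ hϖ _ _ _ _ hkey
  have h3 : 2 * s' = (2 * K + j) * r + s := by
    apply Nat.eq_of_mul_eq_mul_left hd
    calc v.natDegree * (2 * s') = 2 * (v.natDegree * s') := by ring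
      _ = (2 * K + j) * (v.natDegree * r) + v.natDegree * s := hexp
      _ = v.natDegree * ((2 * K + j) * r + s) := by ring
  have h4 : Even ((s + j * r) + 2 * (K * r)) := ⟨s', by
    calc (s + j * r) + 2 * (K * r) = (2 * K + j) * r + s := by ring
      _ = 2 * s' := h3.symm
      _ = s' + s' := by ring⟩
  rw [Nat.even_add] at h4
  exact h4.2 (even_two_mul _)

end Pool.Agent.Helper96.PS
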