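import Pool.Agent.Helper96.PS.WHom
import Pool.Agent.Helper96.PS.LD
import Pool.Agent.Helper96.PS.Hensel
import Pool.Agent.Helper96.PS.NormMk

/-!
# PS-C4c: the valuation of `a(θ)` is the intersection number

`f ∈ R[x]` monic, `m = (ϖ, v)` maximal, `f ∈ m`, `f ∉ m²`, `wv` the valuation at `m` (`IsValM`). `a ∈ R[x]` monic with `ā = v̄^r`, `a(θ)` a unit `β` of `M[x]/(f)`, `N_{R[x]/(a)}(f) = ε ϖ^{d s}`, `d = deg v`. Then `wv β = s`.

Proof. Let `f̄ = v̄^e b̄`, `v̄ ∤ b̄`, `e ≥ 1`; Hensel: `f = f₁ f₂`, `f̄₁ = v̄^e`, `f₂` a unit mod `m`. `N_{R[x]/(a)}(f) = N(f₁) N(f₂)`, `N(f₂)` a unit. `Res(a, f₁) = ± Res(f₁, a)`: `N_{R[x]/(a)}(f₁) = ± N_{R[x]/(f₁)}(a)` (`norm_mk_comm`). `W₁ = R[x]/(f₁)` is local with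
maximal ideal `(ϖ, v)`, principal because `f₁ ∉ m²` (`f₂ ∉ m`): a DVR `(p)` with residue field of degree `d`; `W₁/p^j` has `R`-length `d j`, so `N(p) = unit ϖ^d`; `a(θ) = unit · p^{j}` has norm `unit ϖ^{d j}`, so `j = s`. And `j` is characterised by
`a ∈ m^j + (f₁)`, `a ∉ m^{j+1} + (f₁)`; `m^i + (f₁) = m^i + (f)` for all `i` as `f₂` is invertible modulo `m^i`. So `wv β = j`. (Or: `length_R R[x]/(a, f)` in two ways.)

`val_eq_zero`: if `a ∉ m` then `wv (a(θ)) = 0` directly from `IsValM` (`m^0 + (f) = ⊤`, `m + (f) = m`).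
-/

namespace Pool.Agent.Helper96.PS

open Polynomial

variable {R M : Type*} [CommRing R] [IsDomain R] [Field M] [Algebra R M] {ϖ : R}

private theorem mem_m_iff {v : R[X]} (x : R[X]) :
    x ∈ Ideal.span {C ϖ, v} ↔ v.map (Ideal.Quotient.mk (Ideal.span {ϖ})) ∣
      x.map (Ideal.Quotient.mk (Ideal.span {ϖ})) := by
  constructor
  · intro h
    obtain ⟨a, b, h⟩ := Ideal.mem_span_pair.1 h
    have h0 : Ideal.Quotient.mk (Ideal.span {ϖ}) ϖ = 0 :=
      Ideal.Quotient.eq_zero_iff_mem.2 (Ideal.mem_span_singleton_self ϖ)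
    rw [← h, Polynomial.map_add, Polynomial.map_mul, Polynomial.map_mul, map_C, h0, C_0,
      mul_zero, zero_add]
    exact Dvd.intro_left _ rfl
  · rintro ⟨c, hc⟩
    obtain ⟨c, rfl⟩ := Polynomial.map_surjective _ Ideal.Quotient.mk_surjective c
    have h1 : C ϖ ∣ x - v * c := by
      rw [C_dvd_iff_dvd_coeff]
      intro i
      rw [← Ideal.mem_span_singleton, ← Ideal.Quotient.eq_zero_iff_mem, ← coeff_map,
        Polynomial.map_sub, Polynomial.map_mul, hc, sub_self, coeff_zero]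
    obtain ⟨d, hd⟩ := h1
    rw [Ideal.mem_span_pair]
    exact ⟨d, c, by linear_combination -hd⟩

private theorem coprime_of_not_dvd {F : Type*} [CommRing F] (hF : IsField F) {p q : F[X]}
    (hp : Irreducible p) (h : ¬ p ∣ q) : IsCoprime p q := by
  letI := hF.toField
  exact (hp.coprime_iff_not_dvd).2 h

private theorem isField_quot (hC : CData ϖ M) : IsField (R ⧸ Ideal.span {ϖ}) :=
  (Ideal.Quotient.maximal_ideal_iff_isField_quotient _).1 hC.isMaximal

private theorem natDegree_v_pos (hC : CData ϖ M) {v : R[X]} (hv : v.Monic)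
    (hirr : Irreducible (v.map (Ideal.Quotient.mk (Ideal.span {ϖ})))) : 0 < v.natDegree := by
  have hn : Nontrivial (R ⧸ Ideal.span {ϖ}) := (isField_quot hC).nontrivial
  by_contra h
  have h1 : v = 1 := (hv.natDegree_eq_zero).1 (by omega)
  rw [h1, Polynomial.map_one] at hirr
  exact hirr.not_isUnit isUnit_one

/-- membership in `m ^ i + (f)` via the quotient `R[x]/(f)` -/
private theorem mem_sup_iff {f : R[X]} {I : Ideal R[X]} {x : R[X]} :
    x ∈ I ⊔ Ideal.span {f} ↔ AdjoinRoot.mk f x ∈ Ideal.map (AdjoinRoot.mk f) I := by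
  constructor
  · intro h
    obtain ⟨y, hy, z, hz, h⟩ := Submodule.mem_sup.1 h
    obtain ⟨c, hc⟩ := Ideal.mem_span_singleton.1 hz
    rw [← h, hc, map_add, map_mul, AdjoinRoot.mk_self, zero_mul, add_zero]
    exact Ideal.mem_map_of_mem _ hy
  · intro h
    obtain ⟨y, hy, h⟩ := (Ideal.mem_map_iff_of_surjective _ AdjoinRoot.mk_surjective).1 h
    obtain ⟨c, hc⟩ := AdjoinRoot.mk_eq_mk.1 h
    rw [Submodule.mem_sup]
    exact ⟨y, hy, x - y, Ideal.mem_span_singleton.2 ⟨-c, by linear_combination -hc⟩, by ring⟩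

/-- `f₂` invertible modulo `m`: the ideals `m ^ i + (f₁ f₂)` and `m ^ i + (f₁)` agree -/
private theorem sup_eq {m : Ideal R[X]} (hm : m.IsMaximal) {f₁ f₂ : R[X]} (h2 : f₂ ∉ m) (i : ℕ) :
    m ^ i ⊔ Ideal.span {f₁ * f₂} = m ^ i ⊔ Ideal.span {f₁} := by
  apply le_antisymm
  · refine sup_le_sup_left ?_ _
    rw [Ideal.span_singleton_le_span_singleton]
    exact Dvd.intro _ rfl
  · refine sup_le le_sup_left ?_
    rw [Ideal.span_singleton_le_iff_mem]
    obtain ⟨u, w, hw, hu⟩ := Ideal.IsMaximal.exists_inv hm h2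
    have h3 : ∃ u', 1 - u' * f₂ ∈ m ^ i := by
      have h4 : w ^ i ∈ m ^ i := Ideal.pow_mem_pow hw i
      have h5 : f₂ ∣ 1 - w ^ i := by
        have h6 : (1 : R[X]) - w ∣ 1 ^ i - w ^ i := sub_dvd_pow_sub_pow _ _ _
        rw [one_pow] at h6
        refine dvd_trans ?_ h6
        exact ⟨u, by linear_combination -hu⟩
      obtain ⟨c, hc⟩ := h5
      refine ⟨c, ?_⟩
      have h7 : 1 - c * f₂ = w ^ i := by linear_combination hc
      rw [h7]
      exact h4
    obtain ⟨u', hu'⟩ := h3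
    rw [Submodule.mem_sup]
    exact ⟨f₁ * (1 - u' * f₂), Ideal.mul_mem_left _ _ hu', f₁ * f₂ * u',
      Ideal.mem_span_singleton.2 ⟨u', rfl⟩, by ring⟩

theorem val_eq_zero {f : R[X]} {fM : M[X]} {m : Ideal R[X]} (hfm : f ∈ m)
    {wv : (AdjoinRoot fM)ˣ →* Multiplicative ℤ} (hw : IsValM fM f m wv) {P : R[X]} (hP : P ∉ m)
    {β : (AdjoinRoot fM)ˣ}
    (hβ : (β : AdjoinRoot fM) = AdjoinRoot.mk fM (P.map (algebraMap R M))) : wv β = 1 := by
  have h := (hw P β hβ 0).2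
  rw [pow_zero, zero_add, pow_one] at h
  have h2 : wv β = Multiplicative.ofAdd (((0 : ℕ) : ℤ)) := by
    apply h
    refine ⟨?_, ?_⟩
    · rw [Ideal.one_eq_top, top_sup_eq]
      exact Submodule.mem_top
    · intro h3
      apply hP
      refine (sup_le le_rfl ?_ : m ⊔ Ideal.span {f} ≤ m) h3
      rw [Ideal.span_singleton_le_iff_mem]
      exact hfm
  rw [h2]
  rfl

private theorem norm_pi (hC : CData ϖ M) {f : R[X]} (hf : f.Monic) (c : R) :
    Algebra.norm R (AdjoinRoot.mk f (C c)) = c ^ f.natDegree := by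
  have h := Algebra.norm_algebraMap_of_basis (AdjoinRoot.powerBasisAux' hf) c
  rw [Fintype.card_fin] at h
  exact h

/-- the maximal ideal `(ϖ, v)` of `R[x]/(f₁)`, `f₁ ∉ m²`, is principal, with a generator of norm
`unit · ϖ ^ deg v` -/
private theorem exists_gen (hC : CData ϖ M) {f₁ v : R[X]} (hf : f₁.Monic) (hv : v.Monic)
    (hirr : Irreducible (v.map (Ideal.Quotient.mk (Ideal.span {ϖ})))) {e : ℕ} (he : 0 < e)
    (hfv : f₁.map (Ideal.Quotient.mk (Ideal.span {ϖ})) =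
      v.map (Ideal.Quotient.mk (Ideal.span {ϖ})) ^ e)
    (hreg : f₁ ∉ Ideal.span {C ϖ, v} ^ 2) :
    ∃ (p : AdjoinRoot f₁) (η : R), IsUnit η ∧ Algebra.norm R p = η * ϖ ^ v.natDegree ∧
      Ideal.map (AdjoinRoot.mk f₁) (Ideal.span {C ϖ, v}) = Ideal.span {p} := by
  have hf1m : f₁ ∈ Ideal.span {C ϖ, v} := by
    rw [mem_m_iff, hfv]
    exact dvd_pow_self _ he.ne'
  obtain ⟨α, γ, h1⟩ := Ideal.mem_span_pair.1 hf1m
  have h0 : AdjoinRoot.mk f₁ α * AdjoinRoot.mk f₁ (C ϖ) +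
      AdjoinRoot.mk f₁ γ * AdjoinRoot.mk f₁ v = 0 := by
    rw [← map_mul, ← map_mul, ← map_add, h1, AdjoinRoot.mk_self]
  have hmap : Ideal.map (AdjoinRoot.mk f₁) (Ideal.span {C ϖ, v}) =
      Ideal.span {AdjoinRoot.mk f₁ (C ϖ), AdjoinRoot.mk f₁ v} := by
    rw [Ideal.map_span, Set.image_pair]
  by_cases hα : α ∈ Ideal.span {C ϖ, v}
  · -- `γ ∉ m`, the generator is `ϖ`
    have hγ : γ ∉ Ideal.span {C ϖ, v} := by
      intro hγ
      apply hreg
      rw [← h1, pow_two]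
      exact Ideal.add_mem _ (Ideal.mul_mem_mul hα (Ideal.subset_span (by simp)))
        (Ideal.mul_mem_mul hγ (Ideal.subset_span (by simp)))
    have hγ' : ¬ v.map (Ideal.Quotient.mk (Ideal.span {ϖ})) ∣
        γ.map (Ideal.Quotient.mk (Ideal.span {ϖ})) := by
      rwa [← mem_m_iff]
    have hu : IsUnit (AdjoinRoot.mk f₁ γ) := isUnit_of_not_dvd hC hf hv hirr hfv hγ'
    have he1 : e = 1 := by
      by_contra hne
      apply hγ'
      have h2 := congrArg (Polynomial.map (Ideal.Quotient.mk (Ideal.span {ϖ}))) h1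
      have h00 : Ideal.Quotient.mk (Ideal.span {ϖ}) ϖ = 0 :=
        Ideal.Quotient.eq_zero_iff_mem.2 (Ideal.mem_span_singleton_self ϖ)
      rw [hfv, Polynomial.map_add, Polynomial.map_mul, Polynomial.map_mul, map_C, h00, C_0,
        mul_zero, zero_add] at h2
      obtain ⟨k, rfl⟩ : ∃ k, e = k + 2 := ⟨e - 2, by omega⟩
      have hvm : (v.map (Ideal.Quotient.mk (Ideal.span {ϖ}))).Monic := hv.map _
      have h3 : γ.map (Ideal.Quotient.mk (Ideal.span {ϖ})) =
          v.map (Ideal.Quotient.mk (Ideal.span {ϖ})) ^ (k + 1) := by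
        apply hvm.isRegular.right
        show _ * _ = _ * _
        rw [h2]
        ring
      rw [h3]
      exact dvd_pow_self _ (by omega)
    refine ⟨AdjoinRoot.mk f₁ (C ϖ), 1, isUnit_one, ?_, ?_⟩
    · rw [norm_pi hC hf, one_mul]
      congr 1
      have hn : Nontrivial (R ⧸ Ideal.span {ϖ}) := (isField_quot hC).nontrivial
      have h2 := congrArg natDegree hfv
      rw [he1, pow_one, hf.natDegree_map, hv.natDegree_map] at h2
      exact h2
    · rw [hmap]
      apply le_antisymm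
      · rw [Ideal.span_le]
        intro x hx
        rcases hx with rfl | rfl
        · exact Ideal.mem_span_singleton_self _
        · rw [SetLike.mem_coe, Ideal.mem_span_singleton]
          obtain ⟨u, hu⟩ := hu
          refine ⟨-(↑u⁻¹ * AdjoinRoot.mk f₁ α), ?_⟩
          have h4 : (↑u⁻¹ : AdjoinRoot f₁) * u = 1 := Units.inv_mul u
          rw [← hu] at h0
          linear_combination (↑u⁻¹ : AdjoinRoot f₁) * h0 - AdjoinRoot.mk f₁ v * h4
      · exact Ideal.span_mono (by simp)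
  · -- the generator is `v`
    have hα' : ¬ v.map (Ideal.Quotient.mk (Ideal.span {ϖ})) ∣
        α.map (Ideal.Quotient.mk (Ideal.span {ϖ})) := by
      rwa [← mem_m_iff]
    have hu : IsUnit (AdjoinRoot.mk f₁ α) := isUnit_of_not_dvd hC hf hv hirr hfv hα'
    have hu' : IsUnit (AdjoinRoot.mk v α) :=
      isUnit_of_not_dvd hC hv hv hirr (pow_one _).symm hα'
    refine ⟨AdjoinRoot.mk f₁ v, (-1) ^ (f₁.natDegree * v.natDegree) *
      Algebra.norm R (AdjoinRoot.mk v α), ?_, ?_, ?_⟩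
    · exact (isUnit_one.neg.pow _).mul (hu'.map (Algebra.norm R))
    · rw [norm_mk_comm hf hv]
      have h2 : AdjoinRoot.mk v f₁ = AdjoinRoot.mk v α * AdjoinRoot.mk v (C ϖ) := by
        rw [← h1, map_add, map_mul, map_mul, AdjoinRoot.mk_self, mul_zero, add_zero]
      rw [h2, map_mul, norm_pi hC hv]
      ring
    · rw [hmap]
      apply le_antisymm
      · rw [Ideal.span_le]
        intro x hx
        rcases hx with rfl | rfl
        · rw [SetLike.mem_coe, Ideal.mem_span_singleton]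
          obtain ⟨u, hu⟩ := hu
          refine ⟨-(↑u⁻¹ * AdjoinRoot.mk f₁ γ), ?_⟩
          have h4 : (↑u⁻¹ : AdjoinRoot f₁) * u = 1 := Units.inv_mul u
          rw [← hu] at h0
          linear_combination (↑u⁻¹ : AdjoinRoot f₁) * h0 - AdjoinRoot.mk f₁ (C ϖ) * h4
        · exact Ideal.mem_span_singleton_self _
      · exact Ideal.span_mono (by simp)

private theorem pi_ne (hC : CData ϖ M) : ϖ ≠ 0 := hC.unif.ne_zero

private theorem eq_of_assoc (hC : CData ϖ M) {ε η : R} (hε : IsUnit ε) (hη : IsUnit η) {i j : ℕ}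
    (h : ε * ϖ ^ i = η * ϖ ^ j) : i = j := by
  apply le_antisymm
  · have h1 : ϖ ^ i ∣ ϖ ^ j := by
      have h2 : ϖ ^ i ∣ η * ϖ ^ j := by
        rw [← h]
        exact Dvd.intro_left _ rfl
      exact (hη.dvd_mul_left).1 h2
    exact (pow_dvd_pow_iff (pi_ne hC) hC.unif.not_isUnit).1 h1
  · have h1 : ϖ ^ j ∣ ϖ ^ i := by
      have h2 : ϖ ^ j ∣ ε * ϖ ^ i := by
        rw [h]
        exact Dvd.intro_left _ rfl
      exact (hε.dvd_mul_left).1 h2
    exact (pow_dvd_pow_iff (pi_ne hC) hC.unif.not_isUnit).1 h1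

/-- an element of norm `unit · ϖ ^ (d s)` of `R[x]/(f₁)` is a unit times `p ^ s` -/
private theorem exists_eq_pow (hC : CData ϖ M) {f₁ v : R[X]} (hf : f₁.Monic) (hv : v.Monic)
    (hirr : Irreducible (v.map (Ideal.Quotient.mk (Ideal.span {ϖ})))) {e : ℕ}
    (hfv : f₁.map (Ideal.Quotient.mk (Ideal.span {ϖ})) =
      v.map (Ideal.Quotient.mk (Ideal.span {ϖ})) ^ e)
    {p : AdjoinRoot f₁} {η : R} (hη : IsUnit η) (hp : Algebra.norm R p = η * ϖ ^ v.natDegree)
    (hgen : Ideal.map (AdjoinRoot.mk f₁) (Ideal.span {C ϖ, v}) = Ideal.span {p})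
    {z : AdjoinRoot f₁} {ε : R} (hε : IsUnit ε) {s : ℕ}
    (hz : Algebra.norm R z = ε * ϖ ^ (v.natDegree * s)) :
    p ^ s ∣ z ∧ ¬ p ^ (s + 1) ∣ z := by
  classical
  have hd := natDegree_v_pos hC hv hirr
  have hle : ∀ j, p ^ j ∣ z → j ≤ s := by
    intro j ⟨c, hc⟩
    have h1 : ϖ ^ (v.natDegree * j) ∣ ϖ ^ (v.natDegree * s) := by
      have h2 : ϖ ^ (v.natDegree * j) ∣ ε * ϖ ^ (v.natDegree * s) := by
        rw [← hz, hc, map_mul, map_pow, hp, mul_pow, ← pow_mul]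
        exact Dvd.intro_left (η ^ j) rfl |>.mul_right _
      exact (hε.dvd_mul_left).1 h2
    have h3 := (pow_dvd_pow_iff (pi_ne hC) hC.unif.not_isUnit).1 h1
    exact Nat.le_of_mul_le_mul_left h3 hd
  obtain ⟨j, hj⟩ : ∃ j, j = Nat.findGreatest (fun j => p ^ j ∣ z) s := ⟨_, rfl⟩
  have hj1 : p ^ j ∣ z := by
    rw [hj]
    exact Nat.findGreatest_spec (P := fun j => p ^ j ∣ z) (Nat.zero_le s) (by simp)
  have hj2 : ¬ p ^ (j + 1) ∣ z := by
    intro h
    have h1 := Nat.le_findGreatest (P := fun j => p ^ j ∣ z) (hle _ h) h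
    omega
  obtain ⟨c, hc⟩ := hj1
  have hcp : ¬ p ∣ c := by
    rintro ⟨c', hc'⟩
    apply hj2
    exact ⟨c', by rw [hc, hc', pow_succ]; ring⟩
  obtain ⟨y, rfl⟩ := AdjoinRoot.mk_surjective c
  have hcu : IsUnit (AdjoinRoot.mk f₁ y) := by
    apply isUnit_of_not_dvd hC hf hv hirr hfv
    rw [← mem_m_iff]
    intro hy
    apply hcp
    rw [← Ideal.mem_span_singleton, ← hgen]
    exact Ideal.mem_map_of_mem _ hy
  have hjs : j = s := by
    have h1 : ε * ϖ ^ (v.natDegree * s) =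
        (η ^ j * Algebra.norm R (AdjoinRoot.mk f₁ y)) * ϖ ^ (v.natDegree * j) := by
      rw [← hz, hc, map_mul, map_pow, hp, mul_pow, ← pow_mul]
      ring
    have h2 := eq_of_assoc hC hε ((hη.pow j).mul (hcu.map (Algebra.norm R))) h1
    exact (Nat.eq_of_mul_eq_mul_left hd h2).symm
  rw [← hjs]
  exact ⟨⟨_, hc⟩, hj2⟩

private theorem m_isMaximal (hC : CData ϖ M) {v : R[X]}
    (hirr : Irreducible (v.map (Ideal.Quotient.mk (Ideal.span {ϖ})))) :
    (Ideal.span {C ϖ, v} : Ideal R[X]).IsMaximal := by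
  rw [Ideal.isMaximal_iff]
  refine ⟨?_, ?_⟩
  · intro h
    rw [mem_m_iff, Polynomial.map_one] at h
    exact hirr.not_isUnit (isUnit_of_dvd_one h)
  · intro J x hJ hx hxJ
    rw [mem_m_iff] at hx
    obtain ⟨a, b, hab⟩ := coprime_of_not_dvd (isField_quot hC) hirr hx
    obtain ⟨a, rfl⟩ := Polynomial.map_surjective _ Ideal.Quotient.mk_surjective a
    obtain ⟨b, rfl⟩ := Polynomial.map_surjective _ Ideal.Quotient.mk_surjective b
    have h1 : 1 - b * x ∈ Ideal.span {C ϖ, v} := by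
      rw [mem_m_iff, Polynomial.map_sub, Polynomial.map_one, Polynomial.map_mul, ← hab]
      exact ⟨a.map (Ideal.Quotient.mk (Ideal.span {ϖ})), by ring⟩
    have h2 := J.add_mem (hJ h1) (J.mul_mem_left b hxJ)
    rwa [sub_add_cancel] at h2

theorem val_eq (hC : CData ϖ M) {f : R[X]} (hf : f.Monic) {fM : M[X]}
    (hfM : fM = f.map (algebraMap R M)) {v : R[X]} (hv : v.Monic)
    (hirr : Irreducible (v.map (Ideal.Quotient.mk (Ideal.span {ϖ})))) {m : Ideal R[X]}
    (hm : m = Ideal.span {C ϖ, v}) (hfm : f ∈ m) (hreg : f ∉ m ^ 2)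
    {wv : (AdjoinRoot fM)ˣ →* Multiplicative ℤ} (hw : IsValM fM f m wv) {a : R[X]} {r s : ℕ}
    (ha : a.Monic) (hav : a.map (Ideal.Quotient.mk (Ideal.span {ϖ})) =
      v.map (Ideal.Quotient.mk (Ideal.span {ϖ})) ^ r) {ε : R} (hε : IsUnit ε)
    (hN : Algebra.norm R (AdjoinRoot.mk a f) = ε * ϖ ^ (v.natDegree * s))
    {β : (AdjoinRoot fM)ˣ}
    (hβ : (β : AdjoinRoot fM) = AdjoinRoot.mk fM (a.map (algebraMap R M))) :
    wv β = Multiplicative.ofAdd (s : ℤ) := by
  subst hm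
  have hd := natDegree_v_pos hC hv hirr
  have hF := isField_quot hC
  have hn : Nontrivial (R ⧸ Ideal.span {ϖ}) := hF.nontrivial
  have hmax := m_isMaximal hC hirr
  have hvm : (v.map (Ideal.Quotient.mk (Ideal.span {ϖ}))).Monic := hv.map _
  have hfin : FiniteMultiplicity (v.map (Ideal.Quotient.mk (Ideal.span {ϖ})))
      (f.map (Ideal.Quotient.mk (Ideal.span {ϖ}))) := by
    apply finiteMultiplicity_of_degree_pos_of_monic _ hvm (hf.map _).ne_zero
    rw [← natDegree_pos_iff_degree_pos, hv.natDegree_map]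
    exact hd
  obtain ⟨b', hb1, hb2⟩ := hfin.exists_eq_pow_mul_and_not_dvd
  obtain ⟨e, he⟩ : ∃ e, e = multiplicity (v.map (Ideal.Quotient.mk (Ideal.span {ϖ})))
      (f.map (Ideal.Quotient.mk (Ideal.span {ϖ}))) := ⟨_, rfl⟩
  rw [← he] at hb1
  obtain ⟨b₀, rfl⟩ := Polynomial.map_surjective _ Ideal.Quotient.mk_surjective b'
  have he0 : 0 < e := by
    rcases Nat.eq_zero_or_pos e with h | h
    · exfalso
      rw [h, pow_zero, one_mul] at hb1
      rw [mem_m_iff, hb1] at hfm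
      exact hb2 hfm
    · exact h
  have hcompl := hC.compl
  obtain ⟨f₁, f₂, h1, h2, h3, h4, h5⟩ := hensel_factor ϖ (P := f) (a₀ := v ^ e) (b₀ := b₀)
    (hv.pow e) (by
      rw [Polynomial.map_pow]
      exact (coprime_of_not_dvd hF hirr hb2).pow_left)
    (by rw [Polynomial.map_mul, Polynomial.map_pow, hb1])
  rw [Polynomial.map_pow] at h3
  have hf2m : f₂ ∉ Ideal.span {C ϖ, v} := by
    rw [mem_m_iff, h4]
    exact hb2
  have hreg1 : f₁ ∉ Ideal.span {C ϖ, v} ^ 2 := by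
    intro h
    apply hreg
    rw [h5]
    exact Ideal.mul_mem_right _ _ h
  obtain ⟨p, η, hη, hp, hgen⟩ := exists_gen hC h1 hv hirr he0 h3 hreg1
  have hu2 : IsUnit (AdjoinRoot.mk a f₂) := by
    apply isUnit_of_not_dvd hC ha hv hirr hav
    rw [h4]
    exact hb2
  have hu3 := hu2.map (Algebra.norm R)
  obtain ⟨u, hu⟩ := hu3
  have hN1 : Algebra.norm R (AdjoinRoot.mk f₁ a) =
      ((-1) ^ (f₁.natDegree * a.natDegree) * (ε * ↑u⁻¹)) * ϖ ^ (v.natDegree * s) := by
    rw [norm_mk_comm h1 ha]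
    rw [h5, map_mul, map_mul, ← hu] at hN
    have h6 : Algebra.norm R (AdjoinRoot.mk a f₁) = ε * ϖ ^ (v.natDegree * s) * ↑u⁻¹ := by
      rw [← hN, mul_assoc, Units.mul_inv, mul_one]
    rw [h6]
    ring
  have hmain := exists_eq_pow hC h1 hv hirr h3 hη hp hgen
    ((isUnit_one.neg.pow _).mul (hε.mul (Units.isUnit _))) hN1
  rw [hw a β hβ s, h5, sup_eq hmax hf2m, sup_eq hmax hf2m, mem_sup_iff, mem_sup_iff,
    Ideal.map_pow, Ideal.map_pow, hgen, Ideal.span_singleton_pow, Ideal.span_singleton_pow,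
    Ideal.mem_span_singleton, Ideal.mem_span_singleton]
  exact hmain

end Pool.Agent.Helper96.PS
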