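import Pool.Agent.Helper96.PS.CBasic
import Pool.Agent.Helper96.PS.NormMk

/-!
# PS-C6a: generators with non-integral roots are squares

`f ∈ R[x]` monic of odd degree `N`, `c ∈ M^*`, `U = k b` monic of degree `m`, `b ∈ R[x]`, `b ≡ 1 mod ϖ`, `U` prime to `f`, `U ∣ V² - c f`. Then `β = (-c)^m U(θ)` is a square in `(M[x]/f)^*`.
Proof. `b(θ) ≡ 1 mod ϖ` in `R[x]/(f)`, so `b(θ) = s²`, `s ∈ R[x]/(f)` (`CData.isSquare_adjoinRoot`), also in `M[x]/(f)` (map `AdjoinRoot.map`). `β = y · s²` with `y = (-c)^m k ∈ M^*`. `N(β)` is a square (`isSquare_norm_of_mem_locIm`), `N(β) = y^N N(s)²`, so `y^N` is a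
square, and `N` is odd, so `y` is a square in `M`: `y = x²`, `β = (x s)²`, `x s` a unit as `β` is.
-/

namespace Pool.Agent.Helper96.PS

open Polynomial

variable {R M : Type*} [CommRing R] [IsDomain R] [Field M] [Algebra R M] {ϖ : R}

theorem isSquare_of_non (hC : CData ϖ M) (h2 : IsUnit (2 : R)) {f : R[X]} (hf : f.Monic)
    (hodd : Odd f.natDegree) {fM : M[X]} (hfM : fM = f.map (algebraMap R M)) {c : M} (hc : c ≠ 0)
    {b : R[X]} {k : M} {U V : M[X]} {β : (AdjoinRoot fM)ˣ} (hk : k ≠ 0)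
    (hb : b.map (Ideal.Quotient.mk (Ideal.span {ϖ})) = 1)
    (hU : U = C k * b.map (algebraMap R M)) (hUm : U.Monic) (hcop : IsCoprime U fM)
    (hdvd : U ∣ V ^ 2 - C c * fM)
    (hβ : (β : AdjoinRoot fM) = AdjoinRoot.mk fM (C ((-c) ^ U.natDegree) * U)) :
    ∃ b, β = b ^ 2 := by
  have hdv : AdjoinRoot.of f ϖ ∣ AdjoinRoot.mk f b - 1 := by
    have h1 : C ϖ ∣ b - 1 := by
      rw [Polynomial.C_dvd_iff_dvd_coeff]
      intro i
      have h2' : (b - 1).map (Ideal.Quotient.mk (Ideal.span {ϖ})) = 0 := by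
        rw [Polynomial.map_sub, hb, Polynomial.map_one, sub_self]
      have h3 := congrArg (fun p => p.coeff i) h2'
      simp only [Polynomial.coeff_map, Polynomial.coeff_zero] at h3
      rw [Ideal.Quotient.eq_zero_iff_mem, Ideal.mem_span_singleton] at h3
      exact h3
    have h4 := map_dvd (AdjoinRoot.mk f) h1
    rwa [map_sub, map_one, AdjoinRoot.mk_C] at h4
  obtain ⟨s, hs⟩ := hC.isSquare_adjoinRoot h2 hf hdv
  have hfMm : fM.Monic := by rw [hfM]; exact hf.map _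
  have hfMd : fM.natDegree = f.natDegree := by rw [hfM]; exact hf.natDegree_map _
  have hdf : fM ∣ f.map (algebraMap R M) := by rw [hfM]
  set φ := AdjoinRoot.map (algebraMap R M) f fM hdf with hφ
  set t := φ s with ht
  have hbt : AdjoinRoot.mk fM (b.map (algebraMap R M)) = t * t := by
    rw [ht, ← map_mul, ← hs, hφ, ← AdjoinRoot.aeval_eq, aeval_def, eval₂_map]
    simp [AdjoinRoot.map]
  obtain ⟨y, hy⟩ : ∃ y : M, y = (-c) ^ U.natDegree * k := ⟨_, rfl⟩
  have hy0 : y ≠ 0 := hy ▸ mul_ne_zero (pow_ne_zero _ (neg_ne_zero.mpr hc)) hk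
  have hβ2 : (β : AdjoinRoot fM) = AdjoinRoot.of fM y * (t * t) := by
    rw [hβ, ← hbt, ← AdjoinRoot.mk_C, ← map_mul, hy, C_mul, mul_assoc, ← hU]
  have hmem : β ∈ LocIm fM c := Subgroup.subset_closure (Or.inr ⟨U, V, hUm, hcop, hdvd, hβ⟩)
  have hnodd : Odd fM.natDegree := by rw [hfMd]; exact hodd
  have hsq := isSquare_norm_of_mem_locIm hfMm hnodd hc hmem
  have hnorm : Algebra.norm M (β : AdjoinRoot fM) = y ^ fM.natDegree * (Algebra.norm M t) ^ 2 := by
    rw [hβ2, map_mul, map_mul, ← sq]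
    congr 1
    have := Algebra.norm_algebraMap_of_basis (AdjoinRoot.powerBasis' hfMm).basis y
    rw [Fintype.card_fin, AdjoinRoot.powerBasis'_dim] at this
    rw [← this]
    rfl
  have hnu : IsUnit (Algebra.norm M (β : AdjoinRoot fM)) := β.isUnit.map (Algebra.norm M)
  have ht0 : Algebra.norm M t ≠ 0 := by
    intro h
    rw [hnorm, h] at hnu
    simp at hnu
  obtain ⟨r, hr⟩ := hsq
  obtain ⟨m, hm⟩ := hnodd
  have hysq : ∃ z : M, y = z * z := by
    refine ⟨r / (y ^ m * Algebra.norm M t), ?_⟩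
    have h5 : y ^ (2 * m + 1) * (Algebra.norm M t) ^ 2 = r * r := by
      rw [← hr, hnorm, hm]
    have h6 : y ^ m ≠ 0 := pow_ne_zero _ hy0
    field_simp
    rw [pow_two r, ← h5]
    ring
  obtain ⟨z, hz⟩ := hysq
  have hβ3 : (β : AdjoinRoot fM) = (AdjoinRoot.of fM z * t) * (AdjoinRoot.of fM z * t) := by
    rw [hβ2, hz, map_mul]
    ring
  have hun : IsUnit (AdjoinRoot.of fM z * t) := by
    have : IsUnit ((AdjoinRoot.of fM z * t) * (AdjoinRoot.of fM z * t)) := by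
      rw [← hβ3]; exact β.isUnit
    exact isUnit_of_mul_isUnit_left this
  obtain ⟨u, hu⟩ := hun
  refine ⟨u, Units.ext ?_⟩
  rw [hβ3, ← hu, sq]
  rfl

end Pool.Agent.Helper96.PS
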