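import Pool.Agent.Helper96.PS.LocInd
import Pool.Agent.Helper96.PS.Parity
import Pool.Agent.Helper96.PS.ResVal
import Pool.Agent.Helper96.PS.TypeNon

/-!
# PS-C6b: at a place prime to `c` the elements of the local image have even valuations

`f ∈ R[x]` monic of odd degree, regular at `m` (`ϖ, f ∈ m`, `f ∉ m²`), `c ∈ R^*`. For `α ∈ LocIm f c`: `wv α` is even.

Proof. `locIm_le` with `S = {β : wv β even}`. Squares: clear. Non-integral generators are squares (`isSquare_of_non`). Pure generators: `β = (-c)^{deg a} a(θ)`, `ā = v'^r̄`. `(-c)^{deg a}` is a unit of `R`: valuation `0` (`val_eq_zero`: the constant polynomial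
`(-c)^{deg a} ∉ m`). If `a ∉ m`: `wv (a(θ)) = 0`. If `a ∈ m`: `v' ∈ m` (`v'^r ≡ a mod ϖ`), so `m = (ϖ, v')` (maximal ideals, `(ϖ, v')` is maximal as `v̄'` is irreducible). `a(θ)` is a unit of `M[x]/(f)` so the norm `N_{R[x]/(a)}(f) ≠ 0` (resultant of coprime polynomials; or `f` is a unit in `M[x]/(a)`);
`exists_norm_eq`: `= ε ϖ^{d s}`; `val_eq`: `wv (a(θ)) = s`; `even_of_dvd` with `j = 0`: `s` is even.
-/

namespace Pool.Agent.Helper96.PS

open Polynomial

variable {R M : Type*} [CommRing R] [IsDomain R] [Field M] [Algebra R M] {ϖ : R}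

omit [IsDomain R] in
private theorem dvd_C_of_map_eq_zero {P : R[X]}
    (h : P.map (Ideal.Quotient.mk (Ideal.span {ϖ})) = 0) : C ϖ ∣ P := by
  rw [C_dvd_iff_dvd_coeff]
  intro i
  have h1 : (P.map (Ideal.Quotient.mk (Ideal.span {ϖ}))).coeff i = 0 := by rw [h, coeff_zero]
  rw [coeff_map, Ideal.Quotient.eq_zero_iff_mem, Ideal.mem_span_singleton] at h1
  exact h1

private theorem span_isMaximal (hC : CData ϖ M) {v : R[X]}
    (hirr : Irreducible (v.map (Ideal.Quotient.mk (Ideal.span {ϖ})))) :
    (Ideal.span {C ϖ, v} : Ideal R[X]).IsMaximal := by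
  have hmax := hC.isMaximal
  let _ : Field (R ⧸ (Ideal.span {ϖ} : Ideal R)) := Ideal.Quotient.field _
  have h1 : (Ideal.span {v.map (Ideal.Quotient.mk (Ideal.span {ϖ}))}).IsMaximal :=
    PrincipalIdealRing.isMaximal_of_irreducible hirr
  have hsurj : Function.Surjective
      (mapRingHom (Ideal.Quotient.mk (Ideal.span {ϖ} : Ideal R))) :=
    map_surjective _ Ideal.Quotient.mk_surjective
  have h2 := Ideal.comap_isMaximal_of_surjective
    (mapRingHom (Ideal.Quotient.mk (Ideal.span {ϖ} : Ideal R))) hsurj
    (K := Ideal.span {v.map (Ideal.Quotient.mk (Ideal.span {ϖ}))})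
  have h3 : Ideal.comap (mapRingHom (Ideal.Quotient.mk (Ideal.span {ϖ} : Ideal R)))
      (Ideal.span {v.map (Ideal.Quotient.mk (Ideal.span {ϖ}))}) = Ideal.span {C ϖ, v} := by
    ext P
    rw [Ideal.mem_comap, Ideal.mem_span_singleton, Ideal.mem_span_pair]
    constructor
    · rintro ⟨q, hq⟩
      obtain ⟨Q, hQ⟩ := hsurj q
      rw [coe_mapRingHom] at hq hQ
      obtain ⟨B, hB⟩ := dvd_C_of_map_eq_zero (ϖ := ϖ) (P := P - v * Q) (by
        rw [Polynomial.map_sub, Polynomial.map_mul, hQ, hq, sub_self])
      refine ⟨B, Q, ?_⟩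
      linear_combination -hB
    · rintro ⟨A, B, rfl⟩
      rw [coe_mapRingHom, Polynomial.map_add, Polynomial.map_mul, Polynomial.map_mul, map_C]
      have : (Ideal.Quotient.mk (Ideal.span {ϖ})) ϖ = 0 := by
        rw [Ideal.Quotient.eq_zero_iff_mem]
        exact Ideal.mem_span_singleton_self ϖ
      rw [this, C_0, mul_zero, zero_add]
      exact Dvd.intro_left _ rfl
  rw [← h3]
  exact h2

theorem even_val_of_mem_locIm (hC : CData ϖ M) (h2 : IsUnit (2 : R)) {f : R[X]} (hf : f.Monic)
    (hodd : Odd f.natDegree) {fM : M[X]} (hfM : fM = f.map (algebraMap R M)) {m : Ideal R[X]}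
    (hm : m.IsMaximal) (hϖ : C ϖ ∈ m) (hfm : f ∈ m) (hreg : f ∉ m ^ 2)
    {wv : (AdjoinRoot fM)ˣ →* Multiplicative ℤ} (hw : IsValM fM f m wv) {c : R} (hc : IsUnit c)
    {α : (AdjoinRoot fM)ˣ} (hα : α ∈ LocIm fM (algebraMap R M c)) :
    Even (Multiplicative.toAdd (wv α)) := by
  subst hfM
  have hc0 : algebraMap R M c ≠ 0 := (hc.map (algebraMap R M)).ne_zero
  let S : Subgroup (AdjoinRoot (f.map (algebraMap R M)))ˣ :=
    { carrier := {β | Even (Multiplicative.toAdd (wv β))}
      mul_mem' := by
        intro a b ha hb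
        change Even (Multiplicative.toAdd (wv (a * b)))
        rw [map_mul, toAdd_mul]
        exact Even.add ha hb
      one_mem' := by
        change Even (Multiplicative.toAdd (wv 1))
        rw [map_one, toAdd_one]
        exact Even.zero
      inv_mem' := by
        intro a ha
        change Even (Multiplicative.toAdd (wv a⁻¹))
        rw [map_inv, toAdd_inv]
        exact Even.neg ha }
  have hS : ∀ β, β ∈ S ↔ Even (Multiplicative.toAdd (wv β)) := fun β => Iff.rfl
  have hsq : ∀ b, b ^ 2 ∈ S := by
    intro b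
    rw [hS, map_pow, toAdd_pow]
    exact ⟨Multiplicative.toAdd (wv b), by rw [two_nsmul]⟩
  have hone : ∀ β, wv β = 1 → β ∈ S := by
    intro β hβ
    rw [hS, hβ, toAdd_one]
    exact Even.zero
  rw [← hS]
  refine locIm_le hC hc0 S hsq ?_ ?_ hα
  · intro a v r V β ha hv hirr hr hav hcop hdvd hβ
    have hcm : C ((-c) ^ a.natDegree) ∉ m := by
      intro h
      have hu : IsUnit (C ((-c) ^ a.natDegree) : R[X]) := (hc.neg.pow _).map C
      exact hm.ne_top (Ideal.eq_top_of_isUnit_mem _ h hu)
    have hCc : (C ((-algebraMap R M c) ^ a.natDegree) : M[X]) =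
        (C ((-c) ^ a.natDegree)).map (algebraMap R M) := by
      rw [Polynomial.map_C]
      congr 1
      rw [_root_.map_pow, _root_.map_neg]
    by_cases ham : a ∈ m
    · have hvm : v ∈ m := by
        have h1 : C ϖ ∣ a - v ^ r := dvd_C_of_map_eq_zero (by
          rw [Polynomial.map_sub, Polynomial.map_pow, hav, sub_self])
        have h2 : a - v ^ r ∈ m := Ideal.mem_of_dvd _ h1 hϖ
        have h3 : v ^ r ∈ m := by
          have := m.sub_mem ham h2
          rwa [sub_sub_cancel] at this
        exact hm.isPrime.mem_of_pow_mem r h3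
      have hmax := span_isMaximal hC hirr
      have hmeq : m = Ideal.span {C ϖ, v} := by
        refine (hmax.eq_of_le hm.ne_top ?_).symm
        rw [Ideal.span_le]
        rintro x (rfl | hx)
        · exact hϖ
        · rw [Set.mem_singleton_iff] at hx
          rw [hx]
          exact hvm
      -- the norm is not zero
      have hN0 : Algebra.norm R (AdjoinRoot.mk a f) ≠ 0 := by
        have hnm := norm_map (algebraMap R M) ha (AdjoinRoot.mk a f)
        have hmk : AdjoinRoot.map (algebraMap R M) a (a.map (algebraMap R M)) dvd_rfl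
            (AdjoinRoot.mk a f) =
            AdjoinRoot.mk (a.map (algebraMap R M)) (f.map (algebraMap R M)) := by
          unfold AdjoinRoot.map
          rw [AdjoinRoot.lift_mk, ← AdjoinRoot.aeval_eq, aeval_def, eval₂_map]
          rfl
        rw [hmk] at hnm
        have hun : IsUnit (AdjoinRoot.mk (a.map (algebraMap R M)) (f.map (algebraMap R M))) := by
          obtain ⟨p, q, hpq⟩ := hcop
          refine IsUnit.of_mul_eq_one (AdjoinRoot.mk _ q) ?_
          have h4 := congrArg (AdjoinRoot.mk (a.map (algebraMap R M))) hpq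
          rw [map_add, map_mul, map_mul, AdjoinRoot.mk_self, mul_zero, zero_add, map_one] at h4
          rw [mul_comm]
          exact h4
        have hun2 := hun.map (Algebra.norm M)
        intro h0
        rw [hnm, h0, map_zero] at hun2
        exact not_isUnit_zero hun2
      obtain ⟨s, ε, hε, hN⟩ := exists_norm_eq hC ha hv hirr hav (AdjoinRoot.mk a f) hN0
      have heven : Even (s + 0 * r) := by
        refine even_of_dvd hC ha hv hirr hav hε hc hN (j := 0) (V := V) ?_
        rw [pow_zero, mul_one]
        exact hdvd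
      -- splitting off the constant
      have hu1 : IsUnit (AdjoinRoot.mk (f.map (algebraMap R M))
          ((C ((-c) ^ a.natDegree)).map (algebraMap R M))) := by
        have : IsUnit (C ((-c) ^ a.natDegree) : R[X]) := (hc.neg.pow _).map C
        exact (this.map (mapRingHom (algebraMap R M))).map (AdjoinRoot.mk _)
      have hu2 : IsUnit (AdjoinRoot.mk (f.map (algebraMap R M)) (a.map (algebraMap R M))) := by
        obtain ⟨p, q, hpq⟩ := hcop
        refine IsUnit.of_mul_eq_one (AdjoinRoot.mk _ p) ?_
        have h4 := congrArg (AdjoinRoot.mk (f.map (algebraMap R M))) hpq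
        rw [map_add, map_mul, map_mul, AdjoinRoot.mk_self, mul_zero, add_zero, map_one] at h4
        rw [mul_comm]
        exact h4
      have hβ' : β = hu1.unit * hu2.unit := by
        ext
        rw [Units.val_mul, IsUnit.unit_spec, IsUnit.unit_spec, hβ, hCc, ← map_mul]
      have hw1 : wv hu1.unit = 1 := val_eq_zero hfm hw hcm (IsUnit.unit_spec hu1)
      have hw2 : wv hu2.unit = Multiplicative.ofAdd (s : ℤ) :=
        val_eq hC hf rfl hv hirr hmeq hfm hreg hw ha hav hε hN (IsUnit.unit_spec hu2)
      rw [hS, hβ', map_mul, hw1, hw2, one_mul, toAdd_ofAdd]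
      rw [zero_mul, add_zero] at heven
      exact_mod_cast heven
    · refine hone β (val_eq_zero hfm hw (P := C ((-c) ^ a.natDegree) * a) ?_ ?_)
      · intro h
        rcases hm.isPrime.mem_or_mem h with h | h
        · exact hcm h
        · exact ham h
      · rw [hβ, Polynomial.map_mul, hCc]
  · intro b k U V β hk hb hU hUm hcop hdvd hβ
    obtain ⟨b', rfl⟩ := isSquare_of_non hC h2 hf hodd rfl hc0 hk hb hU hUm hcop hdvd hβ
    exact hsq b'

end Pool.Agent.Helper96.PS
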