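import Pool.Agent.Helper96.PS.Defs

/-!
# PS-Z1: existence of places; `rho > 0`; existence of `w`

`exists_places`: choose a prime `D ≥ D₀` with `(q^D - q)/D ≥ 2k` (`q = #F`). The elements of the field `F_{q^D}` outside `F` (`q^D - q` of them) have minimal polynomials over `F` of degree exactly `D` (the degree divides the prime `D`), each such polynomial has `≤ D` roots; so there are `≥ (q^D - q)/D ≥ 2k` monic irreducible polynomials of degree `D`.
(An extension of degree `D` of a finite field: `FiniteField.Extension` / `GaloisField` / `exists irreducible` in Mathlib.) Then a bijection with `Fin k ⊕ Fin k`.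
`rho_pos`: over the finite field `κ = A/π` there are irreducible monic polynomials of all degrees `≥ 1`, so `TS`, `TI` are nonempty; they are finite (`ncard > 0`), `Nat.card κ > 0`.
`exists_irr`: monic irreducible polynomials of each degree `≥ 1` over a finite field.
-/

namespace Pool.Agent.Helper96.PS

open Polynomial

private lemma exists_ext (κ : Type*) [Field κ] [Finite κ] {m : ℕ} (hm : 1 ≤ m) :
    ∃ (L : Type) (_ : Field L) (_ : Finite L) (_ : Algebra κ L), Module.finrank κ L = m := by
  have : NeZero m := ⟨by omega⟩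
  have : Fact (ringChar κ).Prime := ⟨CharP.char_is_prime κ (ringChar κ)⟩
  exact ⟨FiniteField.Extension κ (ringChar κ) m, inferInstance, inferInstance, inferInstance,
    FiniteField.finrank_extension κ (ringChar κ) m⟩

theorem exists_irr (κ : Type*) [Field κ] [Finite κ] {m : ℕ} (hm : 1 ≤ m) :
    ∃ w : κ[X], w.Monic ∧ Irreducible w ∧ w.natDegree = m := by
  obtain ⟨L, hL, hLf, hA, hfr⟩ := exists_ext κ hm
  have : Module.Finite κ L := Module.Finite.of_finite
  obtain ⟨α, hα⟩ := Field.exists_primitive_element κ L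
  have hint : IsIntegral κ α := Algebra.IsIntegral.isIntegral α
  refine ⟨minpoly κ α, minpoly.monic hint, minpoly.irreducible hint, ?_⟩
  rw [(Field.primitive_element_iff_minpoly_natDegree_eq κ α).1 hα, hfr]

/-- the set of monic irreducible polynomials of degree `D` -/
private def Ir (F : Type*) [Field F] (D : ℕ) : Set F[X] :=
  {p | p.Monic ∧ p.natDegree = D ∧ Irreducible p}

private lemma finite_deg (κ : Type*) [CommRing κ] [Finite κ] (D : ℕ) :
    {p : κ[X] | p.natDegree = D}.Finite := by
  have h1 : (Polynomial.degreeLT κ (D + 1) : Set κ[X]).Finite := by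
    have : Finite (Polynomial.degreeLT κ (D + 1)) :=
      Finite.of_equiv (Fin (D + 1) → κ) (Polynomial.degreeLTEquiv κ (D + 1)).toEquiv.symm
    exact Set.toFinite _
  refine h1.subset (fun p hp => ?_)
  rw [SetLike.mem_coe, Polynomial.mem_degreeLT]
  have hp' : p.natDegree = D := hp
  rcases eq_or_ne p 0 with rfl | h0
  · rw [Polynomial.degree_zero]
    exact WithBot.bot_lt_coe _
  · rw [Polynomial.degree_eq_natDegree h0, hp']
    exact_mod_cast Nat.lt_succ_self D

private lemma card_Ir (F : Type*) [Field F] [Finite F] {D : ℕ} (hD : D.Prime) :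
    Nat.card F ^ D ≤ Nat.card F + D * (Ir F D).ncard := by
  classical
  obtain ⟨L, hL, hLf, hA, hfr⟩ := exists_ext F hD.one_lt.le
  have : Module.Finite F L := Module.Finite.of_finite
  have := Fintype.ofFinite L
  have := Fintype.ofFinite F
  have hcard : Fintype.card L = Nat.card F ^ D := by
    rw [Fintype.card_eq_nat_card, Module.natCard_eq_pow_finrank (K := F), hfr]
  have hfin : (Ir F D).Finite := (finite_deg F D).subset (fun p hp => hp.2.1)
  set T : Finset L := Finset.univ.image (algebraMap F L) with hT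
  set U : Finset L := Finset.univ \ T with hU
  have hTc : T.card ≤ Nat.card F := by
    rw [Nat.card_eq_fintype_card]
    exact Finset.card_image_le
  have hmaps : ∀ a ∈ U, minpoly F a ∈ hfin.toFinset := by
    intro a ha
    rw [Set.Finite.mem_toFinset]
    have hint : IsIntegral F a := Algebra.IsIntegral.isIntegral a
    refine ⟨minpoly.monic hint, ?_, minpoly.irreducible hint⟩
    have hdvd : (minpoly F a).natDegree ∣ D := by
      rw [← hfr]
      exact minpoly.degree_dvd hint
    rcases (Nat.dvd_prime hD).1 hdvd with h1 | h1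
    · exfalso
      have h2 : a ∈ (algebraMap F L).range := by
        rw [← minpoly.natDegree_eq_one_iff]
        exact h1
      obtain ⟨b, hb⟩ := h2
      have : a ∈ T := by
        rw [hT, Finset.mem_image]
        exact ⟨b, Finset.mem_univ _, hb⟩
      exact (Finset.mem_sdiff.1 ha).2 this
    · exact h1
  have hfib : ∀ p ∈ hfin.toFinset, (U.filter (fun a => minpoly F a = p)).card ≤ D := by
    intro p hp
    rw [Set.Finite.mem_toFinset] at hp
    obtain ⟨hm, hd, hi⟩ := hp
    have hpm : p.map (algebraMap F L) ≠ 0 := (hm.map _).ne_zero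
    have h1 : (U.filter (fun a => minpoly F a = p)) ⊆ (p.map (algebraMap F L)).roots.toFinset := by
      intro a ha
      have ha2 := (Finset.mem_filter.1 ha).2
      rw [Multiset.mem_toFinset, Polynomial.mem_roots hpm, Polynomial.IsRoot.def,
        Polynomial.eval_map_algebraMap, ← ha2]
      exact minpoly.aeval F a
    calc (U.filter (fun a => minpoly F a = p)).card
        ≤ (p.map (algebraMap F L)).roots.toFinset.card := Finset.card_le_card h1
      _ ≤ Multiset.card (p.map (algebraMap F L)).roots := Multiset.toFinset_card_le _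
      _ ≤ (p.map (algebraMap F L)).natDegree := Polynomial.card_roots' _
      _ = D := by rw [hm.natDegree_map, hd]
  have hUc : U.card ≤ D * (Ir F D).ncard := by
    have h3 := Finset.card_le_mul_card_image_of_maps_to (s := U) (t := hfin.toFinset)
      (f := fun a => minpoly F a) hmaps D hfib
    rwa [← Set.ncard_eq_toFinset_card (Ir F D) hfin] at h3
  have htot : Fintype.card L ≤ T.card + U.card := by
    have h4 : T.card + U.card = (Finset.univ : Finset L).card := by
      rw [add_comm]
      exact Finset.card_sdiff_add_card_eq_card (Finset.subset_univ T)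
    rw [h4, Finset.card_univ]
  rw [← hcard]
  exact htot.trans (add_le_add hTc hUc)

private lemma two_pow_big (k : ℕ) : ∀ D : ℕ, 2 * k + 5 ≤ D → 2 * k * D + 2 ≤ 2 ^ D := by
  intro D hD
  have h1 : ∀ n : ℕ, 5 ≤ n → n ^ 2 ≤ 2 ^ n := by
    intro n hn
    induction n, hn using Nat.le_induction with
    | base => norm_num
    | succ n hn ih =>
      have h6 : 2 ^ (n + 1) = 2 ^ n * 2 := pow_succ 2 n
      nlinarith
  have h2 := h1 D (by omega)
  nlinarith

private lemma many_Ir (F : Type*) [Field F] [Finite F] (k D : ℕ) (hD : D.Prime)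
    (hk : 2 * k + 5 ≤ D) : 2 * k ≤ (Ir F D).ncard := by
  have h1 := card_Ir F hD
  have h2 : 2 ≤ Nat.card F := Finite.one_lt_card
  have h3 := two_pow_big k D hk
  set q := Nat.card F with hq
  by_contra hlt
  push Not at hlt
  obtain ⟨e, rfl⟩ : ∃ e, D = e + 1 := ⟨D - 1, by omega⟩
  have h4 : 2 ^ e ≤ q ^ e := Nat.pow_le_pow_left h2 e
  have h5 : q ^ (e + 1) = q ^ e * q := pow_succ q e
  have h6 : 2 ^ (e + 1) = 2 ^ e * 2 := pow_succ 2 e
  have h7 : (e + 1) * (Ir F (e + 1)).ncard + (e + 1) ≤ (e + 1) * (2 * k) := by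
    nlinarith
  have h8 : 1 ≤ q ^ e := Nat.one_le_pow _ _ (by omega)
  have h9 : (q - 2) * 1 ≤ (q - 2) * q ^ e := Nat.mul_le_mul_left _ h8
  obtain ⟨r, hr⟩ : ∃ r, q = r + 2 := ⟨q - 2, by omega⟩
  have h10 : q ^ e * q = r * q ^ e + 2 * q ^ e := by
    rw [hr]
    ring
  have h11 : q - 2 = r := by omega
  rw [h11] at h9
  nlinarith

theorem exists_places (F : Type*) [Field F] [Finite F] (k D₀ : ℕ) :
    ∃ D, D₀ ≤ D ∧ ∃ π π' : Fin k → F[X], Places k D π π' := by
  classical
  obtain ⟨D, hD1, hDp⟩ := Nat.exists_infinite_primes (max D₀ (2 * k + 5))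
  have hk := many_Ir F k D hDp (le_trans (le_max_right _ _) hD1)
  have hfin : (Ir F D).Finite := (finite_deg F D).subset (fun p hp => hp.2.1)
  rw [Set.ncard_eq_toFinset_card (Ir F D) hfin] at hk
  obtain ⟨s, hs1, hs2⟩ := Finset.exists_subset_card_eq hk
  have e : Fin k ⊕ Fin k ≃ s := by
    refine Fintype.equivOfCardEq ?_
    rw [Fintype.card_sum, Fintype.card_fin, Fintype.card_coe, hs2]
    ring
  have hmem : ∀ x : Fin k ⊕ Fin k, (e x : F[X]) ∈ Ir F D := by
    intro x
    exact (Set.Finite.mem_toFinset hfin).1 (hs1 (e x).2)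
  refine ⟨D, le_trans (le_max_left _ _) hD1, fun i => (e (Sum.inl i) : F[X]),
    fun i => (e (Sum.inr i) : F[X]), ?_⟩
  refine ⟨fun i => (hmem _).1, fun i => (hmem _).1, fun i => (hmem _).2.2, fun i => (hmem _).2.2,
    fun i => (hmem _).2.1, fun i => (hmem _).2.1, ?_⟩
  have : (Sum.elim (fun i => (e (Sum.inl i) : F[X])) fun i => (e (Sum.inr i) : F[X])) =
      fun x => (e x : F[X]) := by
    funext x
    rcases x with x | x <;> rfl
  rw [this]
  exact Subtype.val_injective.comp e.injective

theorem card_adjoinRoot {F : Type*} [Field F] [Finite F] {π : F[X]} (hπ : π.Monic) :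
    Nat.card (AdjoinRoot π) = Nat.card F ^ π.natDegree := by
  have e := (AdjoinRoot.powerBasis' hπ).basis.equivFun
  rw [Nat.card_congr e.toEquiv, Nat.card_pi]
  simp

private lemma finite_adjoinRoot {F : Type*} [Field F] [Finite F] {π : F[X]} (hπ : π.Monic) :
    Finite (AdjoinRoot π) := by
  apply Nat.finite_of_card_ne_zero
  rw [card_adjoinRoot hπ]
  exact pow_ne_zero _ (Nat.card_pos (α := F)).ne'

theorem rho_pos {F : Type*} [Field F] [Finite F] {g k D : ℕ} (hg : 1 ≤ g) (hD : 1 ≤ D)
    {π π' : Fin k → F[X]} (hpl : Places k D π π') : 0 < rho g π π' := by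
  have hS : ∀ p : F[X], p.Monic → Irreducible p →
      0 < ((TS (AdjoinRoot p) g).ncard : ℝ) / (Nat.card (AdjoinRoot p) : ℝ) ^ (2 * g + 1) := by
    intro p hm hi
    have : Fact (Irreducible p) := ⟨hi⟩
    have := finite_adjoinRoot hm
    have h1 : 0 < (Nat.card (AdjoinRoot p) : ℝ) := by
      exact_mod_cast (Nat.card_pos (α := AdjoinRoot p))
    have h2 : 0 < (TS (AdjoinRoot p) g).ncard := by
      rw [Set.ncard_pos ((finite_deg (AdjoinRoot p) (2 * g + 1)).subset ?_)]
      · obtain ⟨h, hh1, hh2, hh3⟩ := exists_irr (AdjoinRoot p) (m := 2 * g) (by omega)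
        exact ⟨(X - C 0) * h, 0, h, hh1, hh3, hh2, rfl⟩
      · rintro q ⟨r, h, hh1, hh2, hh3, rfl⟩
        show ((X - C r) * h).natDegree = 2 * g + 1
        rw [(monic_X_sub_C r).natDegree_mul hh1, natDegree_X_sub_C, hh2]
        ring
    have h3 : (0 : ℝ) < ((TS (AdjoinRoot p) g).ncard : ℝ) := by exact_mod_cast h2
    positivity
  have hI : ∀ p : F[X], p.Monic → Irreducible p →
      0 < ((TI (AdjoinRoot p) g).ncard : ℝ) / (Nat.card (AdjoinRoot p) : ℝ) ^ (2 * g + 1) := by
    intro p hm hi
    have : Fact (Irreducible p) := ⟨hi⟩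
    have := finite_adjoinRoot hm
    have h1 : 0 < (Nat.card (AdjoinRoot p) : ℝ) := by
      exact_mod_cast (Nat.card_pos (α := AdjoinRoot p))
    have h2 : 0 < (TI (AdjoinRoot p) g).ncard := by
      rw [Set.ncard_pos ((finite_deg (AdjoinRoot p) (2 * g + 1)).subset ?_)]
      · obtain ⟨h, hh1, hh2, hh3⟩ := exists_irr (AdjoinRoot p) (m := 2 * g + 1) (by omega)
        exact ⟨h, hh1, hh3, hh2⟩
      · rintro q ⟨-, hq, -⟩
        exact hq
    have h3 : (0 : ℝ) < ((TI (AdjoinRoot p) g).ncard : ℝ) := by exact_mod_cast h2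
    positivity
  exact mul_pos (Finset.prod_pos fun i _ => hS _ (hpl.monic i) (hpl.irr i))
    (Finset.prod_pos fun i _ => hI _ (hpl.monic' i) (hpl.irr' i))

end Pool.Agent.Helper96.PS
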