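import Pool.Agent.Helper96.PS.Dedekind
import Pool.Agent.Helper96.PS.NormDeg

/-!
# PS-A6c: the index is multiplicative

`ix (I J) = ix I + ix J` for nonzero ideals of the Dedekind domain `O`: choose `a ∈ I` with
`a O + I J = I`; then `b ↦ a b` is an injection `O/J → O/IJ` with image the kernel of
`O/IJ → O/I`.
-/

namespace Pool.Agent.Helper96.PS

open Polynomial

private theorem finrank_quot_mul {F O : Type*} [Field F] [CommRing O] [Algebra F O]
    [IsDedekindDomain O] {I J : Ideal O} (hI : I ≠ ⊥) (hJ : J ≠ ⊥)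
    (hfin : Module.Finite F (O ⧸ (I * J))) :
    Module.finrank F (O ⧸ (I * J)) = Module.finrank F (O ⧸ I) + Module.finrank F (O ⧸ J) := by
  have hle : I * J ≤ I := Ideal.mul_le_left
  obtain ⟨a, ha⟩ := IsDedekindDomain.exists_sup_span_eq hle (mul_ne_zero hI hJ)
  have haI : a ∈ I := by
    rw [← ha]
    exact Ideal.mem_sup_right (Ideal.mem_span_singleton_self a)
  -- cofactor
  have hdvd : I ∣ Ideal.span {a} := by
    rw [Ideal.dvd_iff_le, Ideal.span_singleton_le_iff_mem]
    exact haI
  obtain ⟨K, hK⟩ := hdvd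
  have hJK : J ⊔ K = ⊤ := by
    have h1 : I * (J ⊔ K) = I * ⊤ := by
      rw [Ideal.mul_sup, ← hK, ha, Ideal.mul_top]
    exact mul_left_cancel₀ hI h1
  have hinj : ∀ b : O, a * b ∈ I * J → b ∈ J := by
    intro b hb
    have h1 : I * (K * Ideal.span {b}) ≤ I * J := by
      rw [← mul_assoc, ← hK, Ideal.span_singleton_mul_span_singleton,
        Ideal.span_singleton_le_iff_mem]
      exact hb
    have h2 : K * Ideal.span {b} ≤ J := by
      have h3 : I * J ∣ I * (K * Ideal.span {b}) := Ideal.dvd_iff_le.mpr h1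
      exact Ideal.dvd_iff_le.mp ((mul_dvd_mul_iff_left (by exact hI)).mp h3)
    have h4 : (J ⊔ K) * Ideal.span {b} ≤ J := by
      rw [Ideal.sup_mul]
      exact sup_le Ideal.mul_le_left h2
    rw [hJK, Ideal.top_mul] at h4
    exact h4 (Ideal.mem_span_singleton_self b)
  -- the map `O/J → O/IJ`
  let μ : (O ⧸ J) →ₗ[O] (O ⧸ (I * J)) :=
    Submodule.mapQ J (I * J) (LinearMap.mulLeft O a) (by
      intro b hb
      rw [Submodule.mem_comap, LinearMap.mulLeft_apply]
      exact Ideal.mul_mem_mul haI hb)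
  have hμ : ∀ b : O, μ (Ideal.Quotient.mk J b) = Ideal.Quotient.mk (I * J) (a * b) := fun b => rfl
  have hμinj : Function.Injective μ := by
    rw [injective_iff_map_eq_zero]
    intro x hx
    obtain ⟨b, rfl⟩ := Ideal.Quotient.mk_surjective x
    rw [hμ, Ideal.Quotient.eq_zero_iff_mem] at hx
    exact Ideal.Quotient.eq_zero_iff_mem.mpr (hinj b hx)
  let ν : (O ⧸ (I * J)) →ₗ[O] (O ⧸ I) := Submodule.factor hle
  have hν : ∀ b : O, ν (Ideal.Quotient.mk (I * J) b) = Ideal.Quotient.mk I b := fun b => rfl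
  have hνsurj : Function.Surjective ν := by
    intro x
    obtain ⟨b, rfl⟩ := Ideal.Quotient.mk_surjective x
    exact ⟨_, hν b⟩
  have hker : LinearMap.ker ν = LinearMap.range μ := by
    ext x
    obtain ⟨b, rfl⟩ := Ideal.Quotient.mk_surjective x
    rw [LinearMap.mem_ker, hν, Ideal.Quotient.eq_zero_iff_mem, LinearMap.mem_range]
    constructor
    · intro hb
      rw [← ha] at hb
      obtain ⟨u, hu, v, hv, huv⟩ := Submodule.mem_sup.mp hb
      obtain ⟨c, hc⟩ := Ideal.mem_span_singleton'.mp hv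
      refine ⟨Ideal.Quotient.mk J c, ?_⟩
      rw [hμ, Ideal.Quotient.eq, ← huv, ← hc]
      have : a * c - (u + c * a) = -u := by ring
      rw [this]
      exact neg_mem hu
    · rintro ⟨y, hy⟩
      obtain ⟨c, rfl⟩ := Ideal.Quotient.mk_surjective y
      rw [hμ, Ideal.Quotient.eq] at hy
      have h1 : a * c ∈ I := Ideal.mul_mem_right c I haI
      have h2 := hle hy
      have : b = a * c - (a * c - b) := by ring
      rw [this]
      exact sub_mem h1 h2
  -- dimensions
  have e1 := LinearMap.finrank_range_add_finrank_ker (ν.restrictScalars F)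
  have e2 : LinearMap.range (ν.restrictScalars F) = ⊤ := LinearMap.range_eq_top.mpr hνsurj
  rw [e2, finrank_top] at e1
  have e3 : Module.finrank F (LinearMap.ker (ν.restrictScalars F)) = Module.finrank F (O ⧸ J) := by
    have e4 : LinearMap.ker (ν.restrictScalars F) = LinearMap.range (μ.restrictScalars F) := by
      ext x
      have := congrArg (fun S : Submodule O (O ⧸ (I * J)) => x ∈ S) hker
      simpa using this
    rw [e4]
    exact LinearMap.finrank_range_of_inj (f := μ.restrictScalars F) hμinj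
  rw [e3] at e1
  exact e1.symm

variable {F : Type*} [Field F] {g n : ℕ} {w : F[X]} {f : F[X][X]}

theorem ix_mul (h : Good g n w f) {I J : Ideal (AdjoinRoot f)} (hI : I ≠ ⊥) (hJ : J ≠ ⊥) :
    ix (I * J) = ix I + ix J := by
  have := isDomain h.toPre
  have := isDedekind h
  have h1 : I * J ≠ ⊥ := mul_ne_zero hI hJ
  exact finrank_quot_mul hI hJ (finite_quot h.toPre h1)

theorem ix_top (f : F[X][X]) : ix (⊤ : Ideal (AdjoinRoot f)) = 0 := by
  unfold ix
  have : Subsingleton (AdjoinRoot f ⧸ (⊤ : Ideal (AdjoinRoot f))) :=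
    Ideal.Quotient.subsingleton_iff.mpr rfl
  exact Module.finrank_zero_of_subsingleton

end Pool.Agent.Helper96.PS
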