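import Pool.Agent.Helper96.PS.Places
import Pool.Agent.Helper96.PS.IxMul

/-!
# PS-T4: valuations of elements of square norm; PS-T7: parity factorisation

`v_π(N α) = ∑_{P ∣ π} f_P v_P(α)`, `f_P = [O/P : A/π]`. Proof e.g.: `(α) = ∏ P^{v_P}`; `Ideal.relNorm`/`spanNorm` are multiplicative with
`N(P) = (π)^{f_P}`; or: `deg`-free: for `K ⊆ O` an ideal prime to `π` there is `c ∈ K ∩ A` prime to `π`. TypeI, `P = (π)`: `α = π^v β`, `π ∤ β` (so `β` is a unit mod `π`,
`N(β)` is prime to `π`), `N(α) = π^{N v} N(β)`: a square, so `N v` even, `v` even as `N = 2g+1` is odd. TypeS: with `v_i = v_{P_i}(α)`,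
`P1 P2 = (π)`: choose `β ∈ O` with `(β) = P1^{v1} P2^{v2} K`... `v_π(N α) = 2g v_1 + v_2` (for instance: multiply `α` by an element `γ` of `P2^{a}`-type, or
localise at `π`: `O_π` is a semilocal PID with primes `P1 = (p_1)`, `P2 = (p_2)`, `p_1 p_2 = π · unit`, `v_π(N p_1) = dim_κ O/P1 = 2g`, `v_π(N p_2) = 1`
(`v_π(N p) = length O_π/p`); `α = p_1^{v_1} p_2^{v_2} unit`). So `v_2` is even.
An alternative uses only `natDegree_norm`-type counting: see `Ideal.natAbs_det_equiv`, `Ideal.absNorm`… any proof is welcome.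

Parity factorisation: `(α) = ∏ P^{v_P}`, `s = {P : v_P odd}`, `J = ∏ P^{⌊v_P/2⌋}`.
-/

namespace Pool.Agent.Helper96.PS

open Polynomial

variable {F : Type*} [Field F] {g n : ℕ} {w : F[X]} {f : F[X][X]}

private theorem exists_pow_mul {O : Type*} [CommRing O] [IsDedekindDomain O] {P : Ideal O}
    (hP : P.IsMaximal) {I : Ideal O} (hI : I ≠ ⊥) :
    ∃ (n : ℕ) (K : Ideal O), ¬ K ≤ P ∧ I = P ^ n * K := by
  have hu : ¬ IsUnit P := by
    rw [Ideal.isUnit_iff]
    exact hP.ne_top
  obtain ⟨n, K, h1, h2⟩ := WfDvdMonoid.max_power_factor' (a₀ := I) (x := P) hI hu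
  exact ⟨n, K, fun h => h1 (Ideal.dvd_iff_le.2 h), h2⟩

private theorem mem_of_eq {O : Type*} [CommRing O] [IsDedekindDomain O] {P K : Ideal O}
    (hP0 : P ≠ ⊥) {α : O} {n : ℕ} (hK : ¬ K ≤ P)
    (h : Ideal.span {α} = P ^ n * K) : α ∈ P ^ n ∧ α ∉ P ^ (n + 1) := by
  constructor
  · have h1 : Ideal.span {α} ≤ P ^ n := by
      rw [h]
      exact Ideal.mul_le_left
    exact h1 (Ideal.mem_span_singleton_self α)
  · intro hα
    have h1 : Ideal.span {α} ≤ P ^ (n + 1) := (Ideal.span_singleton_le_iff_mem _).2 hα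
    rw [h, ← Ideal.dvd_iff_le, pow_succ] at h1
    have h2 : P ^ n ≠ 0 := pow_ne_zero n hP0
    rw [mul_dvd_mul_iff_left h2] at h1
    exact hK (Ideal.dvd_iff_le.1 h1)

private theorem exists_val {O : Type*} [CommRing O] [IsDedekindDomain O] {P : Ideal O}
    (hP : P.IsMaximal) (hP0 : P ≠ ⊥) {α : O} (hα : α ≠ 0) :
    ∃ n : ℕ, α ∈ P ^ n ∧ α ∉ P ^ (n + 1) := by
  have h0 : Ideal.span {α} ≠ ⊥ := by
    rw [Ne, Ideal.span_singleton_eq_bot]
    exact hα
  obtain ⟨n, K, hK, h⟩ := exists_pow_mul hP h0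
  exact ⟨n, mem_of_eq hP0 hK h⟩

private theorem count_eq {O : Type*} [CommRing O] [IsDedekindDomain O] [DecidableEq (Ideal O)]
    {P : Ideal O} (hP : P.IsMaximal) {α : O} {n : ℕ} (h1 : α ∈ P ^ n) (h2 : α ∉ P ^ (n + 1)) :
    (UniqueFactorizationMonoid.normalizedFactors (Ideal.span {α})).count P = n := by
  have hp := hP.isPrime
  have h3 : Ideal.span {α} ≤ P ^ n := (Ideal.span_singleton_le_iff_mem _).2 h1
  have h4 : ¬ Ideal.span {α} ≤ P ^ (n + 1) :=
    fun h => h2 ((Ideal.span_singleton_le_iff_mem _).1 h)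
  have h5 := Ideal.count_normalizedFactors_eq h3 h4
  refine Eq.trans ?_ h5
  exact congrArg (fun d => @Multiset.count _ d P
    (UniqueFactorizationMonoid.normalizedFactors (Ideal.span {α}))) (Subsingleton.elim _ _)

private theorem evenAt_count {O : Type*} [CommRing O] [IsDedekindDomain O] [DecidableEq (Ideal O)]
    {P : Ideal O} (hP : P.IsMaximal) (hP0 : P ≠ ⊥) {α : O} (hα : α ≠ 0) :
    EvenAt P α ↔ Even ((UniqueFactorizationMonoid.normalizedFactors (Ideal.span {α})).count P) := by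
  constructor
  · rintro ⟨k, h1, h2⟩
    rw [count_eq hP h1 h2]
    exact ⟨k, by ring⟩
  · intro h
    obtain ⟨n, h1, h2⟩ := exists_val hP hP0 hα
    rw [count_eq hP h1 h2] at h
    obtain ⟨k, rfl⟩ := h
    refine ⟨k, ?_, ?_⟩
    · rwa [two_mul]
    · rwa [two_mul]

private theorem pow_eq_of {A : Type*} [CommRing A] [IsDomain A] {π x y : A} (hπ : Prime π)
    (hx : ¬ π ∣ x) (hy : ¬ π ∣ y) {a b : ℕ} (h : π ^ a * x = π ^ b * y) : a = b := by
  have key : ∀ (a b : ℕ) (x y : A), ¬ π ∣ x → π ^ a * x = π ^ b * y → b ≤ a := by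
    intro a b x y hx h
    by_contra hlt
    push Not at hlt
    obtain ⟨c, rfl⟩ := Nat.exists_eq_add_of_lt hlt
    have h1 : π ^ a * x = π ^ a * (π ^ (c + 1) * y) := by
      rw [h]; ring
    have h2 := mul_left_cancel₀ (pow_ne_zero a hπ.ne_zero) h1
    exact hx ⟨π ^ c * y, by rw [h2]; ring⟩
  exact le_antisymm (key b a y x hy h.symm) (key a b x y hx h)

private theorem norm_one_sub (hf : f.Monic) (π : F[X]) (δ : AdjoinRoot f) :
    π ∣ Algebra.norm F[X] (1 - AdjoinRoot.of f π * δ) - 1 := by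
  classical
  have hb := (AdjoinRoot.powerBasis' hf).basis
  rw [Algebra.norm_eq_matrix_det hb]
  have h1 : Algebra.leftMulMatrix hb (1 - AdjoinRoot.of f π * δ) =
      1 - π • Algebra.leftMulMatrix hb δ := by
    rw [map_sub, map_one]
    congr 1
    have : AdjoinRoot.of f π * δ = π • δ := by
      rw [Algebra.smul_def]
      rfl
    rw [this, map_smul]
  rw [h1, ← Ideal.mem_span_singleton, ← Ideal.Quotient.eq_zero_iff_mem, map_sub, map_one,
    RingHom.map_det]
  have h2 : (Ideal.Quotient.mk (Ideal.span {π})).mapMatrix (1 - π • Algebra.leftMulMatrix hb δ) = 1 := by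
    rw [map_sub, map_one, sub_eq_self]
    ext i j
    simp only [RingHom.mapMatrix_apply, Matrix.map_apply, Matrix.smul_apply, smul_eq_mul, map_mul,
      Matrix.zero_apply]
    rw [Ideal.Quotient.eq_zero_iff_mem.2 (Ideal.mem_span_singleton_self π), zero_mul]
  rw [h2, Matrix.det_one, sub_self]

private theorem not_dvd_norm_of (hf : f.Monic) {π : F[X]} (hπ : Irreducible π)
    {β γ δ : AdjoinRoot f} (h : β * γ = 1 - AdjoinRoot.of f π * δ) :
    ¬ π ∣ Algebra.norm F[X] β := by
  intro hd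
  have h1 := norm_one_sub hf π δ
  rw [← h, map_mul] at h1
  have h2 : π ∣ Algebra.norm F[X] β * Algebra.norm F[X] γ := Dvd.dvd.mul_right hd _
  have h3 : π ∣ 1 := by
    have := dvd_sub h2 h1
    simpa using this
  exact hπ.not_isUnit (isUnit_of_dvd_one h3)

private theorem not_dvd_norm (hf : f.Monic) {π : F[X]} (hπ : Irreducible π)
    {β : AdjoinRoot f} (h : ∀ M : Ideal (AdjoinRoot f), M.IsMaximal → AdjoinRoot.of f π ∈ M → β ∉ M) :
    ¬ π ∣ Algebra.norm F[X] β := by
  have htop : Ideal.span {β} ⊔ Ideal.span {AdjoinRoot.of f π} = ⊤ := by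
    by_contra hne
    obtain ⟨M, hM, hle⟩ := Ideal.exists_le_maximal _ hne
    exact h M hM (hle (Ideal.mem_sup_right (Ideal.mem_span_singleton_self _)))
      (hle (Ideal.mem_sup_left (Ideal.mem_span_singleton_self _)))
  have h1 : (1 : AdjoinRoot f) ∈ Ideal.span {β} ⊔ Ideal.span {AdjoinRoot.of f π} := by
    rw [htop]
    exact Submodule.mem_top
  obtain ⟨x, hx, y, hy, hxy⟩ := Submodule.mem_sup.1 h1
  obtain ⟨γ, rfl⟩ := Ideal.mem_span_singleton'.1 hx
  obtain ⟨δ, rfl⟩ := Ideal.mem_span_singleton'.1 hy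
  refine not_dvd_norm_of hf hπ (γ := γ) (δ := δ) ?_
  rw [← hxy]
  ring

private theorem finrank_eq (hf : f.Monic) : Module.finrank F[X] (AdjoinRoot f) = f.natDegree := by
  rw [Module.finrank_eq_card_basis (AdjoinRoot.powerBasis' hf).basis, Fintype.card_fin]
  rfl

private theorem norm_of (hf : f.Monic) (π : F[X]) :
    Algebra.norm F[X] (AdjoinRoot.of f π) = π ^ f.natDegree := by
  have h := Algebra.norm_algebraMap_of_basis (AdjoinRoot.powerBasis' hf).basis π
  rw [AdjoinRoot.algebraMap_eq, Fintype.card_fin] at h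
  exact h

private theorem norm_sub_root (hf : f.Monic) (r : F[X]) :
    Algebra.norm F[X] (AdjoinRoot.of f r - AdjoinRoot.root f) = f.eval r := by
  have : Module.Free F[X] (AdjoinRoot f) := Module.Free.of_basis (AdjoinRoot.powerBasis' hf).basis
  have : Module.Finite F[X] (AdjoinRoot f) := Module.Finite.of_basis (AdjoinRoot.powerBasis' hf).basis
  have h1 : (Algebra.lmul F[X] (AdjoinRoot f) (AdjoinRoot.root f)).charpoly = f := by
    have h2 := Algebra.aeval_self_charpoly_lmul (R := F[X]) (AdjoinRoot.root f)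
    rw [AdjoinRoot.aeval_eq, AdjoinRoot.mk_eq_zero] at h2
    refine Polynomial.eq_of_monic_of_dvd_of_natDegree_le hf (LinearMap.charpoly_monic _) h2 ?_
    rw [LinearMap.charpoly_natDegree, finrank_eq hf]
  rw [Algebra.norm_apply]
  conv_rhs => rw [← h1]
  rw [LinearMap.eval_charpoly]
  congr 1
  rw [map_sub]
  congr 1
  ext1 x
  change AdjoinRoot.of f r * x = _
  rw [Module.algebraMap_end_apply, Algebra.smul_def]
  rfl

private theorem of_ne_zero (hf : f.Monic) (hd : 0 < f.natDegree) {π : F[X]} (hπ : π ≠ 0) :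
    AdjoinRoot.of f π ≠ 0 := by
  have : Module.Free F[X] (AdjoinRoot f) := Module.Free.of_basis (AdjoinRoot.powerBasis' hf).basis
  have : Module.Finite F[X] (AdjoinRoot f) := Module.Finite.of_basis (AdjoinRoot.powerBasis' hf).basis
  have hnt : Nontrivial (AdjoinRoot f) := by
    have := finrank_eq hf
    exact Module.nontrivial_of_finrank_pos (R := F[X]) (by omega)
  intro h0
  have h1 := norm_of hf π
  rw [h0, Algebra.norm_zero] at h1
  exact pow_ne_zero _ hπ h1.symm

/-- a second representative `r'` of the root with `π ∥ f(r')` -/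
private theorem exists_root_rep {π r : F[X]} {q : F[X][X]} (hT : TypeS g f π r q) :
    ∃ (e u : F[X]), f.eval (r + π * e) = π * u ∧ ¬ π ∣ u := by
  have : Fact (Irreducible π) := ⟨hT.hπ⟩
  have hπ := hT.hπ.prime
  obtain ⟨s, hs⟩ := hT.dvd
  have hf : f = (X - C r) * q + C π * s := by rw [← hs]; ring
  have hq : ¬ π ∣ q.eval r := by
    intro hd
    have h1 : (q.map (AdjoinRoot.mk π)).IsRoot (AdjoinRoot.mk π r) := by
      rw [IsRoot, eval_map, eval₂_at_apply, AdjoinRoot.mk_eq_zero.2 hd]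
    have h2 := degree_eq_one_of_irreducible_of_root hT.irr h1
    have h3 : (q.map (AdjoinRoot.mk π)).natDegree = 2 * g := by
      rw [hT.hh.natDegree_map, hT.deg]
    have h4 : (q.map (AdjoinRoot.mk π)).natDegree = 1 := natDegree_eq_of_degree_eq_some h2
    have h5 := h3.symm.trans h4
    omega
  have hr : f.eval r = π * s.eval r := by
    rw [hf]
    simp
  by_cases ha : π ∣ s.eval r
  · obtain ⟨a, ha⟩ := ha
    obtain ⟨z, hz⟩ := f.binomExpansion r π
    refine ⟨1, π * a + f.derivative.eval r + z * π, ?_, ?_⟩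
    · rw [mul_one, hz, hr, ha]
      ring
    · intro hd
      have h1 : f.derivative.eval r = q.eval r + π * s.derivative.eval r := by
        rw [hf]
        simp
      have h2 : π ∣ q.eval r := by
        have h3 : q.eval r = (π * a + f.derivative.eval r + z * π) -
            π * (a + s.derivative.eval r + z) := by
          rw [h1]; ring
        rw [h3]
        exact dvd_sub hd (dvd_mul_right _ _)
      exact hq h2
  · exact ⟨0, s.eval r, by rw [mul_zero, add_zero, hr], ha⟩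

theorem evenAt_P2 (h : Good g n w f) {α : AdjoinRoot f} (hα : α ≠ 0)
    (hN : IsSquare (Algebra.norm F[X] α)) {π r : F[X]} {q : F[X][X]} (hT : TypeS g f π r q) :
    EvenAt (P2 f π r) α := by
  classical
  have := isDedekind h
  have hf := h.monic
  have hπ := hT.hπ.prime
  have hM1 := P1_isMaximal h.toPre hT
  have hM2 := P2_isMaximal h.toPre hT
  have hne := P1_ne_P2 h.toPre hT
  have h12 := P1_mul_P2 h.toPre hT
  have hπ2 : AdjoinRoot.of f π ∈ P2 f π r := Ideal.subset_span (by simp)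
  have hπ0 : AdjoinRoot.of f π ≠ 0 := of_ne_zero hf (by rw [h.natDegree]; omega) hπ.ne_zero
  have hP20 : P2 f π r ≠ ⊥ := fun h0 => hπ0 (by rw [h0] at hπ2; exact hπ2)
  have hπ1 : AdjoinRoot.of f π ∈ P1 f π q := Ideal.subset_span (by simp)
  have hP10 : P1 f π q ≠ ⊥ := fun h0 => hπ0 (by rw [h0] at hπ1; exact hπ1)
  have hmax : ∀ M : Ideal (AdjoinRoot f), M.IsMaximal → AdjoinRoot.of f π ∈ M →
      M = P1 f π q ∨ M = P2 f π r := fun M hM hπM => eq_P1_or_P2 h.toPre hT hM hπM
  -- the element `p`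
  obtain ⟨e, u, hu, hud⟩ := exists_root_rep hT
  set p : AdjoinRoot f := AdjoinRoot.of f (r + π * e) - AdjoinRoot.root f with hp
  have hNp : Algebra.norm F[X] p = π * u := by rw [hp, norm_sub_root hf, hu]
  have hgen : AdjoinRoot.root f - AdjoinRoot.of f r = AdjoinRoot.of f π * AdjoinRoot.of f e - p := by
    rw [hp, map_add, map_mul]
    ring
  have hpmem : p ∈ P2 f π r := by
    have h1 : AdjoinRoot.root f - AdjoinRoot.of f r ∈ P2 f π r := Ideal.subset_span (by simp)
    have h2 : p = AdjoinRoot.of f π * AdjoinRoot.of f e - (AdjoinRoot.root f - AdjoinRoot.of f r) := by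
      rw [hgen]; ring
    rw [h2]
    exact Ideal.sub_mem _ (Ideal.mul_mem_right _ _ hπ2) h1
  have hp1 : p ∉ P1 f π q := by
    intro hmem
    apply hne
    have hle : P2 f π r ≤ P1 f π q := by
      unfold P2
      rw [Ideal.span_le]
      rintro x (rfl | rfl)
      · exact hπ1
      · rw [SetLike.mem_coe, hgen]
        exact Ideal.sub_mem _ (Ideal.mul_mem_right _ _ hπ1) hmem
    exact (hM2.eq_of_le hM1.ne_top hle).symm
  have hp2 : p ∉ P2 f π r ^ 2 := by
    intro hmem
    have hcop : IsCoprime π u := (hT.hπ.coprime_iff_not_dvd).2 hud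
    obtain ⟨x, y, hxy⟩ := hcop
    have h1 : AdjoinRoot.of f (π * u) ∈ P2 f π r ^ 2 := by
      obtain ⟨z, hz⟩ := dvd_norm hf p
      rw [← hNp, hz]
      exact Ideal.mul_mem_right _ _ hmem
    have h2 : AdjoinRoot.of f π ∈ P2 f π r ^ 2 := by
      have h3 : AdjoinRoot.of f π = AdjoinRoot.of f x * (AdjoinRoot.of f π * AdjoinRoot.of f π) +
          AdjoinRoot.of f y * AdjoinRoot.of f (π * u) := by
        rw [← map_mul, ← map_mul, ← map_mul, ← map_add]
        congr 1
        calc π = (x * π + y * u) * π := by rw [hxy, one_mul]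
          _ = _ := by ring
      rw [h3]
      refine Ideal.add_mem _ (Ideal.mul_mem_left _ _ ?_) (Ideal.mul_mem_left _ _ h1)
      rw [pow_two]
      exact Ideal.mul_mem_mul hπ2 hπ2
    have hle : P2 f π r ≤ P2 f π r ^ 2 := by
      conv_lhs => unfold P2
      rw [Ideal.span_le]
      rintro x (rfl | rfl)
      · exact h2
      · rw [SetLike.mem_coe, hgen]
        exact Ideal.sub_mem _ (Ideal.mul_mem_right _ _ h2) hmem
    have h4 := Ideal.pow_right_strictAnti (P2 f π r) hP20 hM2.ne_top (show 1 < 2 by norm_num)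
    simp only [pow_one] at h4
    exact absurd hle (not_le_of_gt h4)
  have hp0 : p ≠ 0 := fun h0 => hp1 (by rw [h0]; exact Ideal.zero_mem _)
  obtain ⟨L, hL⟩ : P2 f π r ∣ Ideal.span {p} :=
    Ideal.dvd_iff_le.2 ((Ideal.span_singleton_le_iff_mem _).2 hpmem)
  have hL2 : ¬ L ≤ P2 f π r := by
    intro hle
    apply hp2
    have h1 : Ideal.span {p} ≤ P2 f π r ^ 2 := by
      rw [hL, pow_two]
      exact Ideal.mul_mono_right hle
    exact h1 (Ideal.mem_span_singleton_self p)
  have hL1 : ¬ L ≤ P1 f π q := by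
    intro hle
    apply hp1
    have h1 : Ideal.span {p} ≤ P1 f π q := by
      rw [hL]
      exact Ideal.mul_le_right.trans hle
    exact h1 (Ideal.mem_span_singleton_self p)
  have hLtop : L ⊔ Ideal.span {AdjoinRoot.of f π} = ⊤ := by
    by_contra hne'
    obtain ⟨M, hM, hle⟩ := Ideal.exists_le_maximal _ hne'
    rcases hmax M hM (hle (Ideal.mem_sup_right (Ideal.mem_span_singleton_self _))) with rfl | rfl
    · exact hL1 (le_sup_left.trans hle)
    · exact hL2 (le_sup_left.trans hle)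
  -- factorisation of `α`
  have h0 : Ideal.span {α} ≠ ⊥ := by
    rw [Ne, Ideal.span_singleton_eq_bot]
    exact hα
  obtain ⟨v2, K2, hK2, hα2⟩ := exists_pow_mul hM2 h0
  have hK20 : K2 ≠ ⊥ := by
    rintro rfl
    exact hK2 bot_le
  obtain ⟨v1, K, hK1, hαK⟩ := exists_pow_mul hM1 hK20
  have hKP2 : ¬ K ≤ P2 f π r := by
    intro hle
    apply hK2
    rw [hαK]
    exact Ideal.mul_le_right.trans hle
  obtain ⟨hαmem, hαnot⟩ := mem_of_eq hP20 hK2 hα2
  -- the multiplier `c`
  have hLv : L ^ v2 ⊔ Ideal.span {AdjoinRoot.of f π} = ⊤ := Ideal.pow_sup_eq_top hLtop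
  have h1mem : (1 : AdjoinRoot f) ∈ L ^ v2 ⊔ Ideal.span {AdjoinRoot.of f π} := by
    rw [hLv]
    exact Submodule.mem_top
  obtain ⟨c, hc, y, hy, hcy⟩ := Submodule.mem_sup.1 h1mem
  obtain ⟨δ, rfl⟩ := Ideal.mem_span_singleton'.1 hy
  have hc1 : c * 1 = 1 - AdjoinRoot.of f π * δ := by linear_combination hcy
  have hNc := not_dvd_norm_of hf hT.hπ hc1
  have hcP : ∀ M : Ideal (AdjoinRoot f), M.IsMaximal → AdjoinRoot.of f π ∈ M → c ∉ M := by
    intro M hM hπM hcM
    apply hM.ne_top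
    rw [Ideal.eq_top_iff_one, ← hcy]
    exact Ideal.add_mem _ hcM (Ideal.mul_mem_left _ _ hπM)
  obtain ⟨C', hC'⟩ : L ^ v2 ∣ Ideal.span {c} :=
    Ideal.dvd_iff_le.2 ((Ideal.span_singleton_le_iff_mem _).2 hc)
  have hideal : Ideal.span {c * α * p ^ v1} =
      Ideal.span {p ^ v2 * AdjoinRoot.of f π ^ v1} * (C' * K * L ^ v1) := by
    rw [← Ideal.span_singleton_mul_span_singleton, ← Ideal.span_singleton_mul_span_singleton,
      ← Ideal.span_singleton_mul_span_singleton, ← Ideal.span_singleton_pow,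
      ← Ideal.span_singleton_pow, ← Ideal.span_singleton_pow, hC', hα2, hαK, hL, ← h12]
    ring
  have hdiv : p ^ v2 * AdjoinRoot.of f π ^ v1 ∣ c * α * p ^ v1 := by
    rw [← Ideal.mem_span_singleton]
    have h1 : Ideal.span {c * α * p ^ v1} ≤ Ideal.span {p ^ v2 * AdjoinRoot.of f π ^ v1} := by
      rw [hideal]
      exact Ideal.mul_le_left
    exact h1 (Ideal.mem_span_singleton_self _)
  obtain ⟨β, hβ⟩ := hdiv
  have hβideal : Ideal.span {β} = C' * K * L ^ v1 := by
    rw [hβ, ← Ideal.span_singleton_mul_span_singleton] at hideal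
    refine mul_left_cancel₀ ?_ hideal
    rw [Ne, Submodule.zero_eq_bot, Ideal.span_singleton_eq_bot]
    exact mul_ne_zero (pow_ne_zero _ hp0) (pow_ne_zero _ hπ0)
  have hβM : ∀ M : Ideal (AdjoinRoot f), M.IsMaximal → AdjoinRoot.of f π ∈ M → β ∉ M := by
    intro M hM hπM hβM'
    have hle : C' * K * L ^ v1 ≤ M := by
      rw [← hβideal]
      exact (Ideal.span_singleton_le_iff_mem _).2 hβM'
    have hMp := hM.isPrime
    have hLM : ¬ L ≤ M := by
      rcases hmax M hM hπM with rfl | rfl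
      · exact hL1
      · exact hL2
    have hKM : ¬ K ≤ M := by
      rcases hmax M hM hπM with rfl | rfl
      · exact hK1
      · exact hKP2
    rcases (Ideal.IsPrime.mul_le hMp).1 hle with h1 | h1
    · rcases (Ideal.IsPrime.mul_le hMp).1 h1 with h2 | h2
      · apply hcP M hM hπM
        have h3 : Ideal.span {c} ≤ M := by
          rw [hC']
          exact Ideal.mul_le_right.trans h2
        exact h3 (Ideal.mem_span_singleton_self c)
      · exact hKM h2
    · exact hLM (Ideal.IsPrime.le_of_pow_le h1)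
  have hNβ := not_dvd_norm hf hT.hπ hβM
  -- norms
  obtain ⟨s, hs⟩ := hN
  have hs0 : s ≠ 0 := by
    rintro rfl
    rw [mul_zero] at hs
    exact norm_ne_zero h.toPre hα hs
  obtain ⟨k, t, ht, hst⟩ := WfDvdMonoid.max_power_factor hs0 hT.hπ
  have hnorm : Algebra.norm F[X] c * Algebra.norm F[X] α * Algebra.norm F[X] p ^ v1 =
      Algebra.norm F[X] p ^ v2 * Algebra.norm F[X] (AdjoinRoot.of f π) ^ v1 * Algebra.norm F[X] β := by
    rw [← map_pow, ← map_mul, ← map_mul, ← map_pow, ← map_pow, ← map_mul, ← map_mul, hβ]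
  have hkey : π ^ (2 * k + v1) * (Algebra.norm F[X] c * (t * t) * u ^ v1) =
      π ^ (v2 + (2 * g + 1) * v1) * (u ^ v2 * Algebra.norm F[X] β) := by
    rw [hNp, norm_of hf, h.natDegree, hs, hst] at hnorm
    calc π ^ (2 * k + v1) * (Algebra.norm F[X] c * (t * t) * u ^ v1) =
        Algebra.norm F[X] c * (π ^ k * t * (π ^ k * t)) * (π * u) ^ v1 := by ring
      _ = (π * u) ^ v2 * (π ^ (2 * g + 1)) ^ v1 * Algebra.norm F[X] β := hnorm
      _ = _ := by ring
  have hx : ¬ π ∣ Algebra.norm F[X] c * (t * t) * u ^ v1 := by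
    intro hd
    rcases hπ.dvd_or_dvd hd with h1 | h1
    · rcases hπ.dvd_or_dvd h1 with h2 | h2
      · exact hNc h2
      · exact (hπ.dvd_or_dvd h2).elim ht ht
    · exact hud (hπ.dvd_of_dvd_pow h1)
  have hy' : ¬ π ∣ u ^ v2 * Algebra.norm F[X] β := by
    intro hd
    rcases hπ.dvd_or_dvd hd with h1 | h1
    · exact hud (hπ.dvd_of_dvd_pow h1)
    · exact hNβ h1
  have h5 := pow_eq_of hπ hx hy' hkey
  have hv : Even v2 := by
    refine (Nat.even_add.1 (?_ : Even (v2 + 2 * (g * v1)))).2 ⟨g * v1, by ring⟩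
    exact ⟨k, by
      have h6 : (2 * g + 1) * v1 = 2 * (g * v1) + v1 := by ring
      omega⟩
  obtain ⟨j, hj⟩ := hv
  refine ⟨j, ?_, ?_⟩
  · rw [two_mul, ← hj]
    exact hαmem
  · rw [two_mul, ← hj]
    exact hαnot

theorem evenAt_inert (h : Good g n w f) {α : AdjoinRoot f} (hα : α ≠ 0)
    (hN : IsSquare (Algebra.norm F[X] α)) {π : F[X]} (hT : TypeI f π) :
    EvenAt (Ideal.span {AdjoinRoot.of f π}) α := by
  classical
  have := isDedekind h
  have hf := h.monic
  have hπ := hT.hπ.prime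
  have hM := inert_isMaximal h.toPre hT
  have hπ0 : AdjoinRoot.of f π ≠ 0 := of_ne_zero hf (by rw [h.natDegree]; omega) hπ.ne_zero
  have hP0 : Ideal.span {AdjoinRoot.of f π} ≠ ⊥ := by
    rw [Ne, Ideal.span_singleton_eq_bot]
    exact hπ0
  obtain ⟨v, hv1, hv2⟩ := exists_val hM hP0 hα
  rw [Ideal.span_singleton_pow, Ideal.mem_span_singleton] at hv1 hv2
  obtain ⟨β, hβ⟩ := hv1
  have hβM : ∀ M : Ideal (AdjoinRoot f), M.IsMaximal → AdjoinRoot.of f π ∈ M → β ∉ M := by
    intro M hM' hπM hβM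
    have hle : Ideal.span {AdjoinRoot.of f π} ≤ M := (Ideal.span_singleton_le_iff_mem _).2 hπM
    rw [← hM.eq_of_le hM'.ne_top hle] at hβM
    obtain ⟨γ, hγ⟩ := Ideal.mem_span_singleton.1 hβM
    exact hv2 ⟨γ, by rw [hβ, hγ]; ring⟩
  have hNβ := not_dvd_norm hf hT.hπ hβM
  obtain ⟨s, hs⟩ := hN
  have hs0 : s ≠ 0 := by
    rintro rfl
    rw [mul_zero] at hs
    exact norm_ne_zero h.toPre hα hs
  obtain ⟨k, t, ht, hst⟩ := WfDvdMonoid.max_power_factor hs0 hT.hπ
  have h1 : π ^ (2 * k) * (t * t) = π ^ ((2 * g + 1) * v) * Algebra.norm F[X] β := by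
    have h2 : Algebra.norm F[X] α = π ^ ((2 * g + 1) * v) * Algebra.norm F[X] β := by
      rw [hβ, map_mul, map_pow, norm_of hf, h.natDegree, pow_mul]
    rw [← h2, hs, hst]
    ring
  have h3 := pow_eq_of hπ (fun hd => (hπ.dvd_or_dvd hd).elim ht ht) hNβ h1
  have hv : Even v := by
    have h4 : Even ((2 * g + 1) * v) := ⟨k, by omega⟩
    rcases Nat.even_mul.1 h4 with h5 | h5
    · exfalso
      obtain ⟨c, hc⟩ := h5
      omega
    · exact h5
  obtain ⟨c, hc⟩ := hv
  refine ⟨c, ?_, ?_⟩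
  · rw [Ideal.span_singleton_pow, Ideal.mem_span_singleton, two_mul, ← hc]
    exact ⟨β, hβ⟩
  · rw [Ideal.span_singleton_pow, Ideal.mem_span_singleton, two_mul, ← hc]
    exact hv2

theorem parity_factor {O : Type*} [CommRing O] [IsDedekindDomain O] {α : O}
    (hα : α ≠ 0) : ∃ (s : Finset (Ideal O)) (J : Ideal O), (∀ P ∈ s, P.IsMaximal ∧ P ≠ ⊥) ∧
      (∏ P ∈ s, P) * J ^ 2 = Ideal.span {α} ∧
      ∀ P : Ideal O, P.IsMaximal → P ≠ ⊥ → (P ∈ s ↔ ¬ EvenAt P α) := by
  classical
  have h0 : Ideal.span {α} ≠ ⊥ := by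
    rw [Ne, Ideal.span_singleton_eq_bot]
    exact hα
  set M := UniqueFactorizationMonoid.normalizedFactors (Ideal.span {α}) with hM
  have hprod : M.prod = Ideal.span {α} := Ideal.prod_normalizedFactors_eq_self h0
  refine ⟨M.toFinset.filter fun P => ¬ Even (M.count P), ∏ P ∈ M.toFinset, P ^ (M.count P / 2),
    ?_, ?_, ?_⟩
  · intro P hP
    have h1 : P ∈ M := Multiset.mem_toFinset.1 (Finset.mem_filter.1 hP).1
    have h2 := UniqueFactorizationMonoid.prime_of_normalized_factor P h1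
    have h3 : P ≠ ⊥ := h2.ne_zero
    exact ⟨(Ideal.isPrime_of_prime h2).isMaximal h3, h3⟩
  · rw [Finset.prod_filter, ← Finset.prod_pow, ← Finset.prod_mul_distrib, ← hprod,
      Finset.prod_multiset_count]
    refine Finset.prod_congr rfl fun P _ => ?_
    by_cases he : Even (M.count P)
    · rw [if_neg (not_not.2 he), one_mul, ← pow_mul, Nat.div_mul_cancel he.two_dvd]
    · rw [if_pos he, ← pow_mul, ← pow_succ']
      congr 1
      rw [Nat.not_even_iff_odd] at he
      obtain ⟨k, hk⟩ := he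
      omega
  · intro P hP hP0
    rw [Finset.mem_filter, evenAt_count hP hP0 hα]
    constructor
    · exact fun h => h.2
    · intro h
      refine ⟨?_, h⟩
      rw [Multiset.mem_toFinset]
      by_contra hnot
      apply h
      rw [← hM, Multiset.count_eq_zero_of_notMem hnot]
      exact Even.zero

end Pool.Agent.Helper96.PS
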