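import Pool.Agent.Helper96.PS.Places

/-!
# PS-A11: elements of square norm modulo a place

`F` finite with `2 ≠ 0`. `N(ρ) mod π` is the norm of `ρ̄ ∈ O/π = κ[x]/(f̄)` over `κ = A/π` (base change of the norm along `A → κ`: `AdjoinRoot f ⊗ κ = AdjoinRoot f̄`,
`Algebra.norm` via the matrix of multiplication in the basis `θ^j`, reduced mod `π`).
TypeI: `O/π = κ'` is a field of degree `N` over the finite field `κ`, and `c ∈ κ'^*` is a square iff `N_{κ'/κ}(c)` is (`N(c) = c^{(Q'-1)/(Q-1)}`,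
`c^{(Q'-1)/2} = N(c)^{(Q-1)/2}`, Euler's criterion; or `FiniteField` norm surjectivity). If `N(ρ)` is a square, so is `ρ̄`, `ρ̄ = b̄²`, `a = b⁻¹` mod `π`.
TypeS: `O/π = κ × κ₁` (`κ = O/P2`, `κ₁ = O/P1` of degree `2g`): `N(ρ) mod π = ρ_2 · N_{κ₁/κ}(ρ_1)`. If `N(ρ)` is a square then `ρ_2` is a square iff
`N(ρ_1)` is a square iff `ρ_1` is a square. If both are squares, `ρ` is a square mod `π` and `a` exists by CRT.
-/

namespace Pool.Agent.Helper96.PS

open Polynomial

variable {F : Type*} [Field F] {g n : ℕ} {w : F[X]} {f : F[X][X]}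

/-! ### Norms -/

/-- reduction of `A[x]/(f)` -/
private noncomputable def rd {A κ : Type*} [CommRing A] [CommRing κ] (m : A →+* κ) (f : A[X]) :
    AdjoinRoot f →+* AdjoinRoot (f.map m) :=
  AdjoinRoot.map m f (f.map m) dvd_rfl

private theorem rd_mk {A κ : Type*} [CommRing A] [CommRing κ] (m : A →+* κ) (f p : A[X]) :
    rd m f (AdjoinRoot.mk f p) = AdjoinRoot.mk (f.map m) (p.map m) := by
  unfold rd AdjoinRoot.map
  rw [AdjoinRoot.lift_mk, ← AdjoinRoot.aeval_eq, aeval_def, eval₂_map]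
  rfl

private theorem rd_norm {A κ : Type*} [CommRing A] [CommRing κ] [Nontrivial κ] (m : A →+* κ)
    {f : A[X]} (hf : f.Monic) (z : AdjoinRoot f) :
    m (Algebra.norm A z) = Algebra.norm κ (rd m f z) := by
  classical
  have hd : (f.map m).natDegree = f.natDegree := hf.natDegree_map m
  set B := (AdjoinRoot.powerBasis' hf).basis with hB
  set B' := (AdjoinRoot.powerBasis' (hf.map m)).basis.reindex
    (finCongr (show (AdjoinRoot.powerBasis' (hf.map m)).dim = (AdjoinRoot.powerBasis' hf).dim from hd))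
    with hB'
  have hBB : ∀ i, rd m f (B i) = B' i := by
    intro i
    rw [hB, hB', PowerBasis.basis_eq_pow, Module.Basis.reindex_apply, PowerBasis.basis_eq_pow,
      map_pow]
    have h1 : rd m f (AdjoinRoot.powerBasis' hf).gen = (AdjoinRoot.powerBasis' (hf.map m)).gen := by
      change rd m f (AdjoinRoot.root f) = AdjoinRoot.root (f.map m)
      exact AdjoinRoot.map_root m f _ _
    rw [h1]
    rfl
  have hrepr : ∀ (y : AdjoinRoot f) (i), B'.repr (rd m f y) i = m (B.repr y i) := by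
    intro y i
    have h1 : rd m f y = ∑ j, m (B.repr y j) • B' j := by
      conv_lhs => rw [← B.sum_repr y]
      rw [map_sum]
      refine Finset.sum_congr rfl fun j _ => ?_
      rw [Algebra.smul_def, map_mul, hBB, Algebra.smul_def]
      congr 1
      exact AdjoinRoot.map_of m f _ _ _
    rw [h1, map_sum, Finsupp.finsetSum_apply]
    simp only [map_smul, Module.Basis.repr_self, Finsupp.smul_apply, smul_eq_mul,
      Finsupp.single_apply]
    simp
  rw [Algebra.norm_eq_matrix_det B, Algebra.norm_eq_matrix_det B', RingHom.map_det]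
  congr 1
  ext i j
  rw [RingHom.mapMatrix_apply, Matrix.map_apply, Algebra.leftMulMatrix_eq_repr_mul,
    Algebra.leftMulMatrix_eq_repr_mul, ← hrepr, map_mul, hBB]

private theorem norm_prod_mk {κ L : Type*} [Field κ] [CommRing L] [Algebra κ L] [Module.Finite κ L]
    (a : κ) (b : L) : Algebra.norm κ ((a, b) : κ × L) = a * Algebra.norm κ b := by
  rw [Algebra.norm_apply, Algebra.norm_apply]
  have h1 : Algebra.lmul κ (κ × L) (a, b) = LinearMap.prodMap (Algebra.lmul κ κ a)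
      (Algebra.lmul κ L b) := by
    ext <;> simp
  rw [h1, LinearMap.det_prodMap]
  congr 1
  rw [← Algebra.norm_apply, Algebra.norm_self]
  rfl

/-- squares and norms in finite fields -/
private theorem sq_iff_norm {κ L : Type*} [Field κ] [Field L] [Algebra κ L] [Finite L]
    (h2 : (2 : κ) ≠ 0) {c : L} (hc : c ≠ 0) : IsSquare (Algebra.norm κ c) ↔ IsSquare c := by
  have hfin : Finite κ := Finite.of_injective _ (algebraMap κ L).injective
  have := Fintype.ofFinite κ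
  have := Fintype.ofFinite L
  have hκ : ringChar κ ≠ 2 := by
    intro h
    apply h2
    have := ringChar.Nat.cast_ringChar (R := κ)
    rw [h] at this
    exact_mod_cast this
  have h2L : (2 : L) ≠ 0 := by
    have h3 := (map_ne_zero (algebraMap κ L)).2 h2
    rwa [map_ofNat] at h3
  have hL : ringChar L ≠ 2 := by
    intro h
    apply h2L
    have := ringChar.Nat.cast_ringChar (R := L)
    rw [h] at this
    exact_mod_cast this
  have hn : Algebra.norm κ c ≠ 0 := (Algebra.norm_ne_zero_iff).2 hc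
  rw [FiniteField.isSquare_iff hκ hn, FiniteField.isSquare_iff hL hc]
  rw [← (algebraMap κ L).injective.eq_iff, map_pow, map_one, FiniteField.algebraMap_norm_eq_pow,
    ← pow_mul]
  have hodd1 := FiniteField.odd_card_of_char_ne_two hκ
  have hodd2 := FiniteField.odd_card_of_char_ne_two hL
  rw [← Nat.card_eq_fintype_card, ← Nat.card_eq_fintype_card] at *
  have hdvd : (Nat.card κ - 1) ∣ (Nat.card L - 1) := by
    have h5 := Module.natCard_eq_pow_finrank (K := κ) (V := L)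
    rw [h5]
    simpa using Nat.sub_dvd_pow_sub_pow (Nat.card κ) 1 (Module.finrank κ L)
  obtain ⟨k, hk⟩ := hdvd
  have hq : 1 < Nat.card κ := Finite.one_lt_card
  have h6 : (Nat.card L - 1) / (Nat.card κ - 1) = k := by
    rw [hk, Nat.mul_div_cancel_left _ (by omega)]
  have h7 : k * (Nat.card κ / 2) = Nat.card L / 2 := by
    have e1 : Nat.card κ - 1 = 2 * (Nat.card κ / 2) := by omega
    have e2 : Nat.card L - 1 = 2 * (Nat.card L / 2) := by omega
    rw [e1, e2, mul_assoc] at hk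
    have e3 : 2 * (Nat.card L / 2) = 2 * (Nat.card κ / 2 * k) := by rw [hk]
    rw [Nat.eq_of_mul_eq_mul_left (by norm_num) e3, mul_comm]
  rw [h6, h7]

/-! ### Reduction modulo a place -/

section red

variable {π : F[X]}

private theorem mk_eq_zero' {a : F[X]} : AdjoinRoot.mk π a = 0 ↔ π ∣ a := AdjoinRoot.mk_eq_zero

/-- lifting from `κ[x]` to `A[x]` -/
private theorem lift_poly (p : (AdjoinRoot π)[X]) : ∃ c : F[X][X], c.map (AdjoinRoot.mk π) = p :=
  Polynomial.map_surjective _ AdjoinRoot.mk_surjective p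

private theorem map_zero_iff {p : F[X][X]} :
    p.map (AdjoinRoot.mk π) = 0 ↔ C π ∣ p := by
  rw [C_dvd_iff_dvd_coeff, Polynomial.ext_iff]
  simp only [coeff_map, coeff_zero, AdjoinRoot.mk_eq_zero]

private theorem of_dvd_iff (z : AdjoinRoot f) :
    AdjoinRoot.of f π ∣ z ↔ rd (AdjoinRoot.mk π) f z = 0 := by
  obtain ⟨p, rfl⟩ := AdjoinRoot.mk_surjective z
  rw [rd_mk, AdjoinRoot.mk_eq_zero]
  constructor
  · rintro ⟨y, hy⟩
    obtain ⟨e, rfl⟩ := AdjoinRoot.mk_surjective y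
    rw [← AdjoinRoot.mk_C, ← map_mul, AdjoinRoot.mk_eq_mk] at hy
    obtain ⟨c, hc⟩ := hy
    have h1 : p = C π * e + f * c := by rw [← hc]; ring
    rw [h1, Polynomial.map_add, Polynomial.map_mul, Polynomial.map_mul, Polynomial.map_C,
      AdjoinRoot.mk_self, C_0, zero_mul, zero_add]
    exact dvd_mul_right _ _
  · rintro ⟨c', hc'⟩
    obtain ⟨c, rfl⟩ := lift_poly c'
    rw [← Polynomial.map_mul, ← sub_eq_zero, ← Polynomial.map_sub, map_zero_iff] at hc'
    obtain ⟨e, he⟩ := hc'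
    refine ⟨AdjoinRoot.mk f e, ?_⟩
    rw [← AdjoinRoot.mk_C, ← map_mul, AdjoinRoot.mk_eq_mk]
    exact ⟨c, by rw [← he]; ring⟩

private theorem rd_surj : Function.Surjective (rd (AdjoinRoot.mk π) f) := by
  intro y
  obtain ⟨p, rfl⟩ := AdjoinRoot.mk_surjective y
  obtain ⟨c, rfl⟩ := lift_poly p
  exact ⟨AdjoinRoot.mk f c, rd_mk _ _ _⟩

end red

private theorem two_ne {π : F[X]} (hπ : Irreducible π) (h2 : (2 : F) ≠ 0) :
    (2 : AdjoinRoot π) ≠ 0 := by
  have := Fact.mk hπ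
  have h3 := (map_ne_zero (algebraMap F (AdjoinRoot π))).2 h2
  rwa [map_ofNat] at h3

private theorem finite_adj {K : Type*} [Field K] [Finite K] {p : K[X]} (hp : p ≠ 0) :
    Finite (AdjoinRoot p) := by
  have : Module.Finite K (AdjoinRoot p) := (AdjoinRoot.powerBasis hp).finite
  exact Module.finite_of_finite K

theorem exists_sq_inert [Finite F] (h2 : (2 : F) ≠ 0) (h : Pre g n w f) {π : F[X]} (hT : TypeI f π) {ρ : AdjoinRoot f}
    (hρ : ¬ AdjoinRoot.of f π ∣ ρ) (hN : IsSquare (Algebra.norm F[X] ρ)) :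
    ∃ a : AdjoinRoot f, AdjoinRoot.of f π ∣ a ^ 2 * ρ - 1 := by
  have := Fact.mk hT.hπ
  have := Fact.mk hT.irr
  have : Finite (AdjoinRoot π) := finite_adj hT.hπ.ne_zero
  have : Finite (AdjoinRoot (f.map (AdjoinRoot.mk π))) := finite_adj hT.irr.ne_zero
  have h1 : rd (AdjoinRoot.mk π) f ρ ≠ 0 := fun h0 => hρ ((of_dvd_iff ρ).2 h0)
  have h3 : IsSquare (Algebra.norm (AdjoinRoot π) (rd (AdjoinRoot.mk π) f ρ)) := by
    rw [← rd_norm _ h.monic]
    exact hN.map _
  rw [sq_iff_norm (two_ne hT.hπ h2) h1] at h3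
  obtain ⟨c, hc⟩ := h3
  have hc0 : c ≠ 0 := by
    rintro rfl
    exact h1 (by rw [hc, mul_zero])
  obtain ⟨a, ha⟩ := rd_surj (π := π) (f := f) c⁻¹
  refine ⟨a, ?_⟩
  rw [of_dvd_iff, map_sub, map_mul, map_pow, map_one, ha, hc, ← pow_two, ← mul_pow,
    inv_mul_cancel₀ hc0, one_pow, sub_self]

/-! ### The split places -/

section split

variable {π r : F[X]} {q : F[X][X]}

private theorem map_f (hT : TypeS g f π r q) : f.map (AdjoinRoot.mk π) =
    (X - C (AdjoinRoot.mk π r)) * q.map (AdjoinRoot.mk π) := by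
  have h1 := map_zero_iff.2 hT.dvd
  rw [Polynomial.map_sub, sub_eq_zero] at h1
  rw [h1, Polynomial.map_mul, Polynomial.map_sub, Polynomial.map_X, Polynomial.map_C]

/-- reduction modulo `P1` -/
private noncomputable def ph1 (hT : TypeS g f π r q) :
    AdjoinRoot f →+* AdjoinRoot (q.map (AdjoinRoot.mk π)) :=
  AdjoinRoot.map (AdjoinRoot.mk π) f (q.map (AdjoinRoot.mk π))
    (by rw [map_f hT]; exact dvd_mul_left _ _)

/-- reduction modulo `P2` -/
private noncomputable def ph2 (hT : TypeS g f π r q) : AdjoinRoot f →+* AdjoinRoot π :=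
  AdjoinRoot.lift (AdjoinRoot.mk π) (AdjoinRoot.mk π r) (by
    rw [← eval_map, map_f hT, eval_mul, eval_sub, eval_X, eval_C, sub_self, zero_mul])

private theorem ph1_mk (hT : TypeS g f π r q) (p : F[X][X]) : ph1 hT (AdjoinRoot.mk f p) =
    AdjoinRoot.mk (q.map (AdjoinRoot.mk π)) (p.map (AdjoinRoot.mk π)) := by
  unfold ph1 AdjoinRoot.map
  rw [AdjoinRoot.lift_mk, ← AdjoinRoot.aeval_eq, aeval_def, eval₂_map]
  rfl

private theorem ph2_mk (hT : TypeS g f π r q) (p : F[X][X]) : ph2 hT (AdjoinRoot.mk f p) =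
    (p.map (AdjoinRoot.mk π)).eval (AdjoinRoot.mk π r) := by
  unfold ph2
  rw [AdjoinRoot.lift_mk, eval_map]

private theorem mem_P1 (hT : TypeS g f π r q) (z : AdjoinRoot f) :
    z ∈ P1 f π q ↔ ph1 hT z = 0 := by
  obtain ⟨p, rfl⟩ := AdjoinRoot.mk_surjective z
  unfold P1
  rw [Ideal.mem_span_pair]
  constructor
  · rintro ⟨a, b, hab⟩
    rw [← hab, map_add, map_mul, map_mul, ← AdjoinRoot.mk_C, ph1_mk, ph1_mk, Polynomial.map_C,
      AdjoinRoot.mk_self, C_0, map_zero, AdjoinRoot.mk_self, mul_zero, mul_zero, add_zero]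
  · intro h0
    rw [ph1_mk, AdjoinRoot.mk_eq_zero] at h0
    obtain ⟨c', hc'⟩ := h0
    obtain ⟨c, rfl⟩ := lift_poly c'
    rw [← Polynomial.map_mul, ← sub_eq_zero, ← Polynomial.map_sub, map_zero_iff] at hc'
    obtain ⟨e, he⟩ := hc'
    refine ⟨AdjoinRoot.mk f e, AdjoinRoot.mk f c, ?_⟩
    rw [← AdjoinRoot.mk_C, ← map_mul, ← map_mul, ← map_add]
    congr 1
    have h1 : p = q * c + (p - q * c) := by ring
    rw [h1, he]
    ring

private theorem mem_P2 (hT : TypeS g f π r q) (z : AdjoinRoot f) :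
    z ∈ P2 f π r ↔ ph2 hT z = 0 := by
  obtain ⟨p, rfl⟩ := AdjoinRoot.mk_surjective z
  unfold P2
  rw [Ideal.mem_span_pair]
  have hX : AdjoinRoot.root f - AdjoinRoot.of f r = AdjoinRoot.mk f (X - C r) := by
    rw [map_sub, AdjoinRoot.mk_X, AdjoinRoot.mk_C]
  rw [hX]
  constructor
  · rintro ⟨a, b, hab⟩
    rw [← hab, map_add, map_mul, map_mul, ← AdjoinRoot.mk_C, ph2_mk, ph2_mk]
    simp
  · intro h0
    rw [ph2_mk, eval_map, eval₂_hom, AdjoinRoot.mk_eq_zero] at h0
    obtain ⟨e, he⟩ := h0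
    obtain ⟨s, hs⟩ := X_sub_C_dvd_sub_C_eval (a := r) (p := p)
    refine ⟨AdjoinRoot.mk f (C e), AdjoinRoot.mk f s, ?_⟩
    have h1 : p = C e * C π + s * (X - C r) := by
      have h2 : p = (p - C (p.eval r)) + C (p.eval r) := by ring
      rw [h2, hs, he, C_mul]
      ring
    rw [← AdjoinRoot.mk_C]
    conv_rhs => rw [h1, map_add, map_mul, map_mul]

/-- `O/π = κ × κ₁` -/
private theorem crt (h : Pre g n w f) (hT : TypeS g f π r q) :
    ∃ e : AdjoinRoot (f.map (AdjoinRoot.mk π)) ≃ₐ[AdjoinRoot π]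
        (AdjoinRoot π × AdjoinRoot (q.map (AdjoinRoot.mk π))),
      ∀ z : AdjoinRoot f, e (rd (AdjoinRoot.mk π) f z) = (ph2 hT z, ph1 hT z) := by
  have := Fact.mk hT.hπ
  have := Fact.mk hT.irr
  set κ := AdjoinRoot π
  set m : F[X] →+* κ := AdjoinRoot.mk π with hm
  have hqm : (q.map m).Monic := hT.hh.map m
  have hfm : (f.map m).Monic := h.monic.map m
  have : Module.Finite κ (AdjoinRoot (q.map m)) := hqm.finite_adjoinRoot
  have : Module.Finite κ (AdjoinRoot (f.map m)) := hfm.finite_adjoinRoot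
  have hq2 : (q.map m).natDegree = 2 * g := by rw [hT.hh.natDegree_map, hT.deg]
  have hf2 : (f.map m).natDegree = 2 * g + 1 := by rw [h.monic.natDegree_map, h.natDegree]
  have hae : ∀ p : κ[X], aeval ((m r, AdjoinRoot.root (q.map m)) : κ × AdjoinRoot (q.map m)) p =
      (p.eval (m r), AdjoinRoot.mk (q.map m) p) := by
    intro p
    rw [aeval_prod_apply]
    simp [AdjoinRoot.aeval_eq]
  have hroot : eval₂ (algebraMap κ (κ × AdjoinRoot (q.map m)))
      ((m r, AdjoinRoot.root (q.map m)) : κ × AdjoinRoot (q.map m)) (f.map m) = 0 := by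
    rw [← aeval_def, hae, map_f hT, eval_mul, eval_sub, eval_X, eval_C, sub_self, zero_mul,
      map_mul, AdjoinRoot.mk_self, mul_zero]
    rfl
  set ψ : AdjoinRoot (f.map m) →ₐ[κ] (κ × AdjoinRoot (q.map m)) :=
    AdjoinRoot.liftAlgHom (f.map m) (Algebra.ofId κ (κ × AdjoinRoot (q.map m)))
      (m r, AdjoinRoot.root (q.map m)) hroot with hψ
  have hψm : ∀ p : κ[X], ψ (AdjoinRoot.mk _ p) = (p.eval (m r), AdjoinRoot.mk (q.map m) p) := by
    intro p
    rw [← hae]
    exact AdjoinRoot.lift_mk hroot p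
  have hinj : Function.Injective ψ := by
    rw [injective_iff_map_eq_zero]
    intro y hy
    obtain ⟨p, rfl⟩ := AdjoinRoot.mk_surjective y
    rw [hψm, Prod.mk_eq_zero, AdjoinRoot.mk_eq_zero] at hy
    rw [AdjoinRoot.mk_eq_zero, map_f hT]
    refine IsCoprime.mul_dvd ?_ (dvd_iff_isRoot.2 hy.1) hy.2
    rw [(irreducible_X_sub_C (m r)).coprime_iff_not_dvd]
    intro hdvd
    have h1 := (hT.irr.dvd_iff.1 hdvd)
    rcases h1 with h1 | h1
    · exact (irreducible_X_sub_C (m r)).not_isUnit h1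
    · have h3 := natDegree_eq_of_degree_eq (degree_eq_degree_of_associated h1)
      rw [natDegree_X_sub_C] at h3
      have h4 := h.hg
      change (q.map m).natDegree = 1 at h3
      omega
  have hdim : Module.finrank κ (AdjoinRoot (f.map m)) =
      Module.finrank κ (κ × AdjoinRoot (q.map m)) := by
    rw [Module.finrank_prod, Module.finrank_self, (AdjoinRoot.powerBasis' hfm).finrank,
      (AdjoinRoot.powerBasis' hqm).finrank, AdjoinRoot.powerBasis'_dim,
      AdjoinRoot.powerBasis'_dim, hf2, hq2, add_comm]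
  have hsurj : Function.Surjective ψ :=
    (LinearMap.injective_iff_surjective_of_finrank_eq_finrank hdim (f := ψ.toLinearMap)).1 hinj
  refine ⟨AlgEquiv.ofBijective ψ ⟨hinj, hsurj⟩, ?_⟩
  intro z
  obtain ⟨p, rfl⟩ := AdjoinRoot.mk_surjective z
  rw [rd_mk, ph1_mk, ph2_mk]
  exact hψm _

private theorem ph_surj (h : Pre g n w f) (hT : TypeS g f π r q) (c₂ : AdjoinRoot π)
    (c₁ : AdjoinRoot (q.map (AdjoinRoot.mk π))) :
    ∃ a : AdjoinRoot f, ph2 hT a = c₂ ∧ ph1 hT a = c₁ := by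
  obtain ⟨e, he⟩ := crt h hT
  obtain ⟨a, ha⟩ := rd_surj (π := π) (f := f) (e.symm (c₂, c₁))
  refine ⟨a, ?_⟩
  have h1 := he a
  rw [ha, e.apply_symm_apply] at h1
  exact ⟨(congrArg Prod.fst h1).symm, (congrArg Prod.snd h1).symm⟩

private theorem ph_dvd (h : Pre g n w f) (hT : TypeS g f π r q) {z : AdjoinRoot f}
    (h2 : ph2 hT z = 0) (h1 : ph1 hT z = 0) : AdjoinRoot.of f π ∣ z := by
  obtain ⟨e, he⟩ := crt h hT
  rw [of_dvd_iff]
  apply e.injective
  rw [he, h1, h2, map_zero]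
  rfl

private theorem ph_norm (h : Pre g n w f) (hT : TypeS g f π r q) (ρ : AdjoinRoot f) :
    AdjoinRoot.mk π (Algebra.norm F[X] ρ) =
      ph2 hT ρ * Algebra.norm (AdjoinRoot π) (ph1 hT ρ) := by
  have := Fact.mk hT.hπ
  have hqm : (q.map (AdjoinRoot.mk π)).Monic := hT.hh.map _
  have : Module.Finite (AdjoinRoot π) (AdjoinRoot (q.map (AdjoinRoot.mk π))) :=
    hqm.finite_adjoinRoot
  obtain ⟨e, he⟩ := crt h hT
  rw [rd_norm _ h.monic, ← Algebra.norm_eq_of_algEquiv e, he, norm_prod_mk]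

private theorem sq_mk {S : Type*} [CommRing S] {I : Ideal (AdjoinRoot f)}
    {ph : AdjoinRoot f →+* S} (hph : ∀ z, z ∈ I ↔ ph z = 0) (hs : Function.Surjective ph)
    (z : AdjoinRoot f) : IsSquare (Ideal.Quotient.mk I z) ↔ IsSquare (ph z) := by
  constructor
  · rintro ⟨b, hb⟩
    obtain ⟨b, rfl⟩ := Ideal.Quotient.mk_surjective b
    rw [← map_mul, Ideal.Quotient.eq, hph, map_sub, map_mul, sub_eq_zero] at hb
    exact ⟨ph b, hb⟩
  · rintro ⟨b, hb⟩
    obtain ⟨b, rfl⟩ := hs b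
    refine ⟨Ideal.Quotient.mk I b, ?_⟩
    rw [← map_mul, Ideal.Quotient.eq, hph, map_sub, map_mul, hb, sub_self]

private theorem ph1_iff (h : Pre g n w f) (hT : TypeS g f π r q) (z : AdjoinRoot f) :
    IsSquare (Ideal.Quotient.mk (P1 f π q) z) ↔ IsSquare (ph1 hT z) :=
  sq_mk (mem_P1 hT) (fun c => (ph_surj h hT 0 c).imp fun _ ha => ha.2) z

private theorem ph2_iff (h : Pre g n w f) (hT : TypeS g f π r q) (z : AdjoinRoot f) :
    IsSquare (Ideal.Quotient.mk (P2 f π r) z) ↔ IsSquare (ph2 hT z) :=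
  sq_mk (mem_P2 hT) (fun c => (ph_surj h hT c 0).imp fun _ ha => ha.1) z

end split

/-- if a product is a square, then both factors are or none is -/
private theorem sq_iff_of_mul {K : Type*} [Field K] {a b : K} (ha : a ≠ 0) (hb : b ≠ 0)
    (hab : IsSquare (a * b)) : IsSquare b ↔ IsSquare a := by
  constructor
  · intro h
    have h1 := hab.div h
    rwa [mul_div_cancel_right₀ _ hb] at h1
  · intro h
    have h1 := hab.div h
    rwa [mul_div_cancel_left₀ _ ha] at h1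

theorem isSquare_P1_iff_P2 [Finite F] (h2 : (2 : F) ≠ 0) (h : Pre g n w f) {π r : F[X]} {q : F[X][X]}
    (hT : TypeS g f π r q) {ρ : AdjoinRoot f} (hρ1 : ρ ∉ P1 f π q) (hρ2 : ρ ∉ P2 f π r)
    (hN : IsSquare (Algebra.norm F[X] ρ)) :
    IsSquare (Ideal.Quotient.mk (P1 f π q) ρ) ↔ IsSquare (Ideal.Quotient.mk (P2 f π r) ρ) := by
  have := Fact.mk hT.hπ
  have := Fact.mk hT.irr
  have : Finite (AdjoinRoot π) := finite_adj hT.hπ.ne_zero
  have : Finite (AdjoinRoot (q.map (AdjoinRoot.mk π))) := finite_adj hT.irr.ne_zero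
  rw [mem_P1 hT] at hρ1
  rw [mem_P2 hT] at hρ2
  rw [ph1_iff h hT, ph2_iff h hT, ← sq_iff_norm (two_ne hT.hπ h2) hρ1]
  have hn : Algebra.norm (AdjoinRoot π) (ph1 hT ρ) ≠ 0 := Algebra.norm_ne_zero_iff.2 hρ1
  apply sq_iff_of_mul hρ2 hn
  rw [← ph_norm h hT]
  exact hN.map _

theorem exists_sq_split [Finite F] (h2 : (2 : F) ≠ 0) (h : Pre g n w f) {π r : F[X]} {q : F[X][X]}
    (hT : TypeS g f π r q) {ρ : AdjoinRoot f} (hρ1 : ρ ∉ P1 f π q) (hρ2 : ρ ∉ P2 f π r)
    (hN : IsSquare (Algebra.norm F[X] ρ)) (hs : IsSquare (Ideal.Quotient.mk (P2 f π r) ρ)) :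
    ∃ a : AdjoinRoot f, AdjoinRoot.of f π ∣ a ^ 2 * ρ - 1 := by
  have := Fact.mk hT.hπ
  have := Fact.mk hT.irr
  have hs1 := (isSquare_P1_iff_P2 h2 h hT hρ1 hρ2 hN).2 hs
  rw [mem_P1 hT] at hρ1
  rw [mem_P2 hT] at hρ2
  rw [ph1_iff h hT] at hs1
  rw [ph2_iff h hT] at hs
  obtain ⟨c₁, hc₁⟩ := hs1
  obtain ⟨c₂, hc₂⟩ := hs
  have hc₁0 : c₁ ≠ 0 := by
    rintro rfl
    exact hρ1 (by rw [hc₁, mul_zero])
  have hc₂0 : c₂ ≠ 0 := by
    rintro rfl
    exact hρ2 (by rw [hc₂, mul_zero])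
  obtain ⟨a, ha2, ha1⟩ := ph_surj h hT c₂⁻¹ c₁⁻¹
  refine ⟨a, ph_dvd h hT ?_ ?_⟩
  · rw [map_sub, map_mul, map_pow, map_one, ha2, hc₂, ← pow_two, ← mul_pow, inv_mul_cancel₀ hc₂0,
      one_pow, sub_self]
  · rw [map_sub, map_mul, map_pow, map_one, ha1, hc₁, ← pow_two, ← mul_pow, inv_mul_cancel₀ hc₁0,
      one_pow, sub_self]

end Pool.Agent.Helper96.PS
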