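import Pool.Agent.Helper96.PS.GramDeg
import Pool.Agent.Helper96.PS.Dedekind
import Pool.Agent.Helper96.PS.NormDeg

/-!
# PS-A8a: a common isotropic subspace of dimension `g` makes `x` a square

`N = 2g+1`, `x ≠ 0`, `N(x)` a square, `e_1..e_g ∈ O` independent over `A`, `x ∣ e_i e_j`, `τ(e_i e_j/x) = 0 = τ(θ e_i e_j/x)` for all `i, j`. Then `x` is a square in `O`.

Proof. `V = A e_1 + … + A e_g` has rank `g`. With `x x' = N(x)` the form `B(a, b) = τ(x' a b)` on `O` is nondegenerate and
`V` is orthogonal to `U = V + θV`, so `rank U ≤ N - g = g + 1` (`sq_perp`). Put `W_0 = V`, `W_{k+1} = {a ∈ W_k : θ a ∈ W_k}` (`sqW`). Then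
`rank W_{k+1} + rank (W_k + θ W_k) = 2 rank W_k` and `W_{k+1} + θ W_{k+1} ⊆ W_k`, so `rank W_k ≥ g - k`: there is `v ≠ 0` in `W_{g-1}`, so
`v, θ v, …, θ^{g-1} v ∈ V`. Hence `v² = x c`, `τ(θ^{i+j} c) = 0 = τ(θ^{i+j+1} c)` for `0 ≤ i, j ≤ g-1`, so `τ(θ^m c) = 0` for all
`0 ≤ m ≤ 2g - 1`. By `dual_const` `c ∈ A`. Norms: `N(v)² = c^N N(x)`, and `N(x)` is a nonzero square, `N` odd, so `c = s²`.
`O` is integrally closed (`isDedekind`): `s² ∣ v²` gives `s ∣ v` in `O`, `x = (v/s)²`.
-/

namespace Pool.Agent.Helper96.PS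

open Polynomial

universe u

section Rank

variable {A M : Type u} [CommRing A] [IsDomain A] [IsPrincipalIdealRing A] [AddCommGroup M]
  [Module A M] [Module.Finite A M]

private theorem sq_sup_inf (s t : Submodule A M) :
    Module.finrank A ↥(s ⊔ t) + Module.finrank A ↥(s ⊓ t) =
      Module.finrank A s + Module.finrank A t := by
  have h := Submodule.rank_sup_add_rank_inf_eq s t
  rw [← Module.finrank_eq_rank, ← Module.finrank_eq_rank, ← Module.finrank_eq_rank,
    ← Module.finrank_eq_rank] at h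
  exact_mod_cast h

private theorem sq_le {s t : Submodule A M} (h : s ≤ t) :
    Module.finrank A s ≤ Module.finrank A t :=
  LinearMap.finrank_le_finrank_of_injective (Submodule.inclusion_injective h)

private theorem sq_free {N : Type u} [AddCommGroup N] [Module A N] [Module.Finite A N]
    [Module.IsTorsionFree A N] (S : Submodule A N) : Module.Free A S := inferInstance

omit [IsPrincipalIdealRing A] in
private theorem sq_dual {N : Type u} [AddCommGroup N] [Module A N] (S : Submodule A N)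
    [Module.Finite A S] [Module.Free A S] :
    Module.finrank A (S →ₗ[A] A) = Module.finrank A S := by
  rw [Module.finrank_linearMap, Module.finrank_self, mul_one]

/-- for a nondegenerate form, the ranks of two orthogonal submodules -/
private theorem sq_perp [Module.Free A M] (B : M →ₗ[A] M →ₗ[A] A)
    (hB : ∀ a, (∀ b, B a b = 0) → a = 0)
    (V U : Submodule A M) (hVU : ∀ a ∈ V, ∀ b ∈ U, B a b = 0) :
    Module.finrank A V + Module.finrank A U ≤ Module.finrank A M := by
  let Ψ : M →ₗ[A] (V →ₗ[A] A) := (LinearMap.lcomp A A V.subtype).comp B.flip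
  have hΨ : ∀ (b : M) (a : V), Ψ b a = B a b := fun b a => rfl
  have h1 : Module.finrank A (LinearMap.range Ψ) + Module.finrank A (LinearMap.ker Ψ) =
      Module.finrank A M := by
    have h := LinearMap.rank_range_add_rank_ker Ψ
    rw [← Module.finrank_eq_rank, ← Module.finrank_eq_rank, ← Module.finrank_eq_rank] at h
    exact_mod_cast h
  have h2 : Module.finrank A U ≤ Module.finrank A (LinearMap.ker Ψ) := by
    refine sq_le fun b hb => ?_
    rw [LinearMap.mem_ker]
    ext a
    rw [hΨ, hVU a a.2 b hb]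
    rfl
  let Θ : V →ₗ[A] (LinearMap.range Ψ →ₗ[A] A) := LinearMap.flip (LinearMap.range Ψ).subtype
  have h3 : Function.Injective Θ := by
    rw [← LinearMap.ker_eq_bot, LinearMap.ker_eq_bot']
    intro a ha
    have h4 : (a : M) = 0 := by
      refine hB a fun b => ?_
      have h5 := LinearMap.congr_fun ha ⟨Ψ b, LinearMap.mem_range_self Ψ b⟩
      exact h5
    exact Subtype.ext h4
  have h4 : Module.finrank A V ≤ Module.finrank A (LinearMap.range Ψ) := by
    have h6 : Module.Free A (LinearMap.range Ψ) := sq_free (LinearMap.range Ψ)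
    have h7 : Module.Finite A (LinearMap.range Ψ) := Module.Finite.range Ψ
    exact (LinearMap.finrank_le_finrank_of_injective h3).trans (sq_dual _).le
  omega

/-- the elements `a` with `a, θ a, …, θ^k a ∈ V` -/
private def sqW (θ : M →ₗ[A] M) (V : Submodule A M) : ℕ → Submodule A M
  | 0 => V
  | k + 1 => sqW θ V k ⊓ (sqW θ V k).comap θ

private theorem sqW_rank (θ : M →ₗ[A] M) (hθ : Function.Injective θ) (V : Submodule A M) (k : ℕ) :
    Module.finrank A ↥(sqW θ V k ⊔ (sqW θ V k).map θ) + Module.finrank A (sqW θ V (k + 1)) =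
      2 * Module.finrank A (sqW θ V k) := by
  have h1 : Module.finrank A (sqW θ V (k + 1)) =
      Module.finrank A ↥(sqW θ V k ⊓ (sqW θ V k).map θ) := by
    have h2 : (sqW θ V (k + 1)).map θ = sqW θ V k ⊓ (sqW θ V k).map θ := by
      show (sqW θ V k ⊓ (sqW θ V k).comap θ).map θ = _
      ext y
      constructor
      · rintro ⟨x, ⟨hx1, hx2⟩, rfl⟩
        exact ⟨hx2, x, hx1, rfl⟩
      · rintro ⟨hy, x, hx, rfl⟩
        exact ⟨x, ⟨hx, hy⟩, rfl⟩
    rw [← h2]
    exact (Submodule.equivMapOfInjective θ hθ (sqW θ V (k + 1))).finrank_eq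
  have h3 : Module.finrank A ↥((sqW θ V k).map θ) = Module.finrank A (sqW θ V k) :=
    ((Submodule.equivMapOfInjective θ hθ (sqW θ V k)).finrank_eq).symm
  rw [h1, sq_sup_inf, h3, two_mul]

omit [IsDomain A] [IsPrincipalIdealRing A] [Module.Finite A M] in
private theorem sqW_le (θ : M →ₗ[A] M) (V : Submodule A M) (k : ℕ) :
    sqW θ V (k + 1) ⊔ (sqW θ V (k + 1)).map θ ≤ sqW θ V k := by
  refine sup_le inf_le_left ?_
  rintro y ⟨x, ⟨hx1, hx2⟩, rfl⟩
  exact hx2

private theorem sqW_chain (θ : M →ₗ[A] M) (hθ : Function.Injective θ) (V : Submodule A M)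
    (hU : Module.finrank A ↥(V ⊔ V.map θ) ≤ Module.finrank A V + 1) (k : ℕ) :
    Module.finrank A (sqW θ V k) ≤ Module.finrank A (sqW θ V (k + 1)) + 1 ∧
      Module.finrank A V ≤ Module.finrank A (sqW θ V k) + k := by
  induction k with
  | zero =>
    have h1 := sqW_rank θ hθ V 0
    change Module.finrank A ↥(V ⊔ V.map θ) + _ = 2 * Module.finrank A V at h1
    refine ⟨?_, ?_⟩
    · change Module.finrank A V ≤ _
      omega
    · change _ ≤ Module.finrank A V + 0
      omega
  | succ k ih =>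
    have h1 := sqW_rank θ hθ V (k + 1)
    have h2 := sq_le (sqW_le θ V k)
    obtain ⟨h3, h4⟩ := ih
    constructor <;> omega

omit [IsDomain A] [IsPrincipalIdealRing A] [Module.Finite A M] in
private theorem sqW_mem (θ : M →ₗ[A] M) (V : Submodule A M) (k : ℕ) :
    ∀ a ∈ sqW θ V k, ∀ i ≤ k, (θ ^ i) a ∈ V := by
  induction k with
  | zero =>
    intro a ha i hi
    obtain rfl : i = 0 := by omega
    exact ha
  | succ k ih =>
    rintro a ⟨ha1, ha2⟩ i hi
    rcases i with _ | i
    · exact ih a ha1 0 (Nat.zero_le _)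
    · rw [pow_succ]
      exact ih (θ a) ha2 i (by omega)

end Rank

variable {F : Type*} [Field F] {g n : ℕ} {w : F[X]} {f : F[X][X]}

/-- the elements `x y` with `τ(y) = 0 = τ(θ y)` -/
private noncomputable def sqS (hf : f.Monic) (g : ℕ) (x : AdjoinRoot f) :
    Submodule F[X] (AdjoinRoot f) where
  carrier := {z | ∃ y, z = x * y ∧ co hf (2 * g) y = 0 ∧
    co hf (2 * g) (AdjoinRoot.root f * y) = 0}
  zero_mem' := ⟨0, by rw [mul_zero], by rw [map_zero], by rw [mul_zero, map_zero]⟩
  add_mem' := by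
    rintro a b ⟨y, rfl, h1, h2⟩ ⟨y', rfl, h3, h4⟩
    refine ⟨y + y', by rw [mul_add], by rw [map_add, h1, h3, add_zero], ?_⟩
    rw [mul_add, map_add, h2, h4, add_zero]
  smul_mem' := by
    rintro c a ⟨y, rfl, h1, h2⟩
    refine ⟨c • y, by rw [mul_smul_comm], by rw [map_smul, h1, smul_zero], ?_⟩
    rw [mul_smul_comm, map_smul, h2, smul_zero]

theorem isSquare_of_isotropic (h : Good g n w f) {x : AdjoinRoot f} (hx : x ≠ 0)
    (hN : IsSquare (Algebra.norm F[X] x)) (e : Fin g → AdjoinRoot f)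
    (indep : ∀ c : Fin g → F[X], ∑ i, AdjoinRoot.of f (c i) * e i = 0 → c = 0)
    (hd : ∀ i j, x ∣ e i * e j) (h1 : ∀ i j, co h.monic (2 * g) (dv x (e i * e j)) = 0)
    (h2 : ∀ i j, co h.monic (2 * g) (AdjoinRoot.root f * dv x (e i * e j)) = 0) :
    IsSquare x := by
  have hg := h.hg
  have hdom : IsDomain (AdjoinRoot f) := isDomain h.toPre
  have hof : ∀ c : F[X], AdjoinRoot.of f c = 0 → c = 0 := by
    intro c hc
    have h3 := dg_of h.toPre c
    rw [hc, dg_zero] at h3
    exact degree_eq_bot.1 h3.symm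
  have hsm : ∀ (c : F[X]) (a : AdjoinRoot f), AdjoinRoot.of f c * a = c • a := by
    intro c a
    rw [Algebra.smul_def]
    rfl
  have hfin : Module.Finite F[X] (AdjoinRoot f) := (AdjoinRoot.powerBasis' h.monic).finite
  have hfree : Module.Free F[X] (AdjoinRoot f) :=
    Module.Free.of_basis (AdjoinRoot.powerBasis' h.monic).basis
  have hrank : Module.finrank F[X] (AdjoinRoot f) = 2 * g + 1 := by
    rw [(AdjoinRoot.powerBasis' h.monic).finrank, AdjoinRoot.powerBasis'_dim, h.natDegree]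
  have hnorm : Algebra.norm F[X] x ≠ 0 := norm_ne_zero h.toPre hx
  obtain ⟨x', hx'⟩ := dvd_norm h.monic x
  have hx'0 : x' ≠ 0 := by
    rintro rfl
    rw [mul_zero] at hx'
    exact hnorm (hof _ hx')
  set V : Submodule F[X] (AdjoinRoot f) := Submodule.span F[X] (Set.range e) with hV
  have hVrank : Module.finrank F[X] V = g := by
    have h3 : LinearIndependent F[X] e := by
      rw [Fintype.linearIndependent_iff]
      intro c hc i
      have h4 := indep c (by simpa only [hsm] using hc)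
      rw [h4]
      rfl
    rw [hV, finrank_span_eq_card h3, Fintype.card_fin]
  -- products of elements of `V`
  have hVV : ∀ a ∈ V, ∀ b ∈ V, a * b ∈ sqS h.monic g x := by
    have h3 : ∀ i, ∀ b ∈ V, e i * b ∈ sqS h.monic g x := by
      intro i
      have h4 : V ≤ (sqS h.monic g x).comap (LinearMap.mulLeft F[X] (e i)) := by
        rw [hV, Submodule.span_le]
        rintro _ ⟨j, rfl⟩
        exact ⟨dv x (e i * e j), (mul_dv (hd i j)).symm, h1 i j, h2 i j⟩
      exact fun b hb => h4 hb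
    intro a ha b hb
    have h4 : V ≤ (sqS h.monic g x).comap (LinearMap.mulRight F[X] b) := by
      rw [hV, Submodule.span_le]
      rintro _ ⟨i, rfl⟩
      exact h3 i b hb
    exact h4 ha
  -- the form
  let B : AdjoinRoot f →ₗ[F[X]] AdjoinRoot f →ₗ[F[X]] F[X] :=
    LinearMap.mk₂ F[X] (fun a b => co h.monic (2 * g) (x' * (a * b)))
      (fun a a' b => by rw [add_mul, mul_add, map_add])
      (fun c a b => by rw [smul_mul_assoc, mul_smul_comm, map_smul])
      (fun a b b' => by rw [mul_add, mul_add, map_add])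
      (fun c a b => by rw [mul_smul_comm, mul_smul_comm, map_smul])
  have hBdef : ∀ a b, B a b = co h.monic (2 * g) (x' * (a * b)) := fun a b => rfl
  have hB : ∀ a, (∀ b, B a b = 0) → a = 0 := by
    intro a ha
    have h3 : x' * a = 0 := by
      refine dual_inj h.monic h.natDegree fun b => ?_
      rw [mul_assoc]
      exact ha b
    exact (mul_eq_zero.1 h3).resolve_left hx'0
  have hθ0 : AdjoinRoot.root f ≠ 0 := by
    intro h0
    have h3 := dg_root h.toPre
    rw [h0, dg_zero] at h3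
    exact absurd h3 (by simp)
  set θ : AdjoinRoot f →ₗ[F[X]] AdjoinRoot f := LinearMap.mulLeft F[X] (AdjoinRoot.root f) with hθ
  have hθi : Function.Injective θ := by
    intro a b hab
    exact mul_left_cancel₀ hθ0 hab
  have hxx : ∀ y, x' * (x * y) = AdjoinRoot.of f (Algebra.norm F[X] x) * y := by
    intro y
    rw [hx']
    ring
  have hVU : ∀ a ∈ V, ∀ b ∈ V ⊔ V.map θ, B a b = 0 := by
    intro a ha b hb
    rw [Submodule.mem_sup] at hb
    obtain ⟨b₁, hb₁, _, ⟨b₂, hb₂, rfl⟩, rfl⟩ := hb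
    obtain ⟨y₁, e₁, t₁, -⟩ := hVV a ha b₁ hb₁
    obtain ⟨y₂, e₂, -, t₂⟩ := hVV a ha b₂ hb₂
    have h3 : a * θ b₂ = x * (AdjoinRoot.root f * y₂) := by
      change a * (AdjoinRoot.root f * b₂) = _
      rw [mul_left_comm, e₂, mul_left_comm]
    rw [map_add, hBdef, hBdef, e₁, h3, hxx, hxx, hsm, hsm, map_smul, map_smul, t₁, t₂,
      smul_zero, add_zero]
  have hU : Module.finrank F[X] ↥(V ⊔ V.map θ) ≤ Module.finrank F[X] V + 1 := by
    have h3 := sq_perp B hB V (V ⊔ V.map θ) hVU
    rw [hrank] at h3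
    omega
  have hW := (sqW_chain θ hθi V hU (g - 1)).2
  obtain ⟨v, hvW, hv0⟩ : ∃ v ∈ sqW θ V (g - 1), v ≠ 0 := by
    apply Submodule.exists_mem_ne_zero_of_ne_bot
    intro h0
    rw [h0, finrank_bot, hVrank] at hW
    omega
  have hvi : ∀ i, i ≤ g - 1 → AdjoinRoot.root f ^ i * v ∈ V := by
    intro i hi
    have h3 := sqW_mem θ V (g - 1) v hvW i hi
    rw [hθ, LinearMap.pow_mulLeft] at h3
    exact h3
  obtain ⟨c, hc, -, -⟩ := hVV _ (hvi 0 (Nat.zero_le _)) _ (hvi 0 (Nat.zero_le _))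
  rw [pow_zero, one_mul] at hc
  have hprod : ∀ i j, i ≤ g - 1 → j ≤ g - 1 →
      co h.monic (2 * g) (c * AdjoinRoot.root f ^ (i + j)) = 0 ∧
      co h.monic (2 * g) (c * AdjoinRoot.root f ^ (i + j + 1)) = 0 := by
    intro i j hi hj
    obtain ⟨y, hy, t1, t2⟩ := hVV _ (hvi i hi) _ (hvi j hj)
    have h3 : c * AdjoinRoot.root f ^ (i + j) = y := by
      refine mul_left_cancel₀ hx ?_
      rw [← hy, ← mul_assoc, ← hc, pow_add]
      ring
    refine ⟨by rw [h3, t1], ?_⟩
    rw [pow_succ, ← mul_assoc, h3, mul_comm y, t2]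
  have hcm : ∀ m, m < 2 * g → co h.monic (2 * g) (c * AdjoinRoot.root f ^ m) = 0 := by
    intro m hm
    rcases Nat.lt_or_ge m (2 * g - 1) with h3 | h3
    · have h4 := (hprod (min m (g - 1)) (m - min m (g - 1)) (by omega) (by omega)).1
      rwa [show min m (g - 1) + (m - min m (g - 1)) = m by omega] at h4
    · have h4 := (hprod (g - 1) (g - 1) le_rfl le_rfl).2
      rwa [show g - 1 + (g - 1) + 1 = m by omega] at h4
  have hcof := dual_const h.monic h.natDegree hcm
  set s := co h.monic (2 * g) (c * AdjoinRoot.root f ^ (2 * g)) with hs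
  have hs0 : s ≠ 0 := by
    intro h0
    rw [h0, map_zero] at hcof
    rw [hcof, mul_zero] at hc
    exact hv0 (mul_self_eq_zero.1 hc)
  -- norms
  have hnof : Algebra.norm F[X] (AdjoinRoot.of f s) = s ^ (2 * g + 1) := by
    have h3 := Algebra.norm_algebraMap_of_basis (AdjoinRoot.powerBasis' h.monic).basis s
    rw [Fintype.card_fin, AdjoinRoot.powerBasis'_dim, h.natDegree] at h3
    exact h3
  obtain ⟨y, hy⟩ := hN
  have hy0 : y ≠ 0 := by
    rintro rfl
    rw [mul_zero] at hy
    exact hnorm hy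
  have hnv : Algebra.norm F[X] v ^ 2 = s * (s ^ g * y) ^ 2 := by
    have h3 := congrArg (Algebra.norm F[X]) hc
    rw [map_mul, map_mul, hcof, hnof, hy] at h3
    rw [sq, h3]
    ring
  have hb0 : s ^ g * y ≠ 0 := mul_ne_zero (pow_ne_zero _ hs0) hy0
  obtain ⟨d, hd'⟩ : s ^ g * y ∣ Algebra.norm F[X] v := by
    rw [← IsIntegrallyClosed.pow_dvd_pow_iff two_ne_zero, hnv]
    exact dvd_mul_left _ _
  have hsd : s = d ^ 2 := by
    have h3 : (s ^ g * y) ^ 2 * s = (s ^ g * y) ^ 2 * d ^ 2 := by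
      rw [mul_comm, ← hnv, hd']
      ring
    exact mul_left_cancel₀ (pow_ne_zero 2 hb0) h3
  -- `x` is a square
  have hded : IsDedekindDomain (AdjoinRoot f) := isDedekind h
  have hofd : AdjoinRoot.of f d ≠ 0 := by
    intro h0
    apply hs0
    rw [hsd, hof d h0]
    ring
  have hvd : v ^ 2 = AdjoinRoot.of f d ^ 2 * x := by
    rw [sq, hc, hcof, hsd, map_pow]
    ring
  obtain ⟨r, hr⟩ : AdjoinRoot.of f d ∣ v := by
    rw [← IsIntegrallyClosed.pow_dvd_pow_iff two_ne_zero, hvd]
    exact dvd_mul_right _ _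
  refine ⟨r, ?_⟩
  have h3 : AdjoinRoot.of f d ^ 2 * x = AdjoinRoot.of f d ^ 2 * (r * r) := by
    rw [← hvd, hr]
    ring
  exact mul_left_cancel₀ (pow_ne_zero 2 hofd) h3

end Pool.Agent.Helper96.PS
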