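import Pool.Agent.Helper96.PS.TypeSym
import Pool.Agent.Helper96.PS.SquareLemma
import Pool.Agent.Helper96.PS.Block
import Pool.Agent.Helper96.PS.DistMod
import Pool.Agent.Helper96.PS.NormMod
import Pool.Agent.Helper96.PS.SqLocAlg

/-!
# PS-A9: the pencil of a class (assembly of part A)

`x ∈ Sg f` not a square, `I² = (x)`, `dg x = 2 μ` (`even_dg`), `e, δ` a reduced basis of `I` (`exists_rbasis`), `d_i = g n + μ - δ_i`, `G = gram x e e`, `B = gramT x e e`.
* `PSet`: symmetric (`gram_isSymm`), `det G` unit (`isUnit_gram` with `I I = (x)`), degrees: `gram_deg`, `gramT_deg` with `m = 2 μ`: `δ_i + δ_j - 2μ - 2gn = -d_i - d_j`.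
* `anti`: `δ` monotone. `symm`: `type_symm` with `z = x`, `I = J`, `e = e'`. `gap`: `false_of_gap` with `irreducible_f`, `cdet_gram`.
* `top`: let `(i : ℕ) + 1 = g`. If `2 d_i > n` then for `k, l ≤ i`: `d_k + d_l ≥ 2 d_i > n`, so `G_kl = 0`, `B_kl = 0`; `e_0, …, e_{g-1}` contradict
  `isSquare_of_isotropic`.
* `cdet`: `cdet_gram`.
* TypeS: `exists_not_mem` for `{P1, P2}`: `y ∈ I`, `sqLoc_iff` at `P2` and `P1` (the same `ρ` as `O` is a domain): `y² = x ρ`, `ρ ∉ P1, P2`. `N(y)² = N(x) N(ρ)` with `N(x) = s²`, `s ≠ 0`: `N(ρ)`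
  is a square in `A` (`s² ∣ N(y)²` so `s ∣ N(y)`). `exists_sq_split`, `dist_mod`. TypeI: the same with `P = (π)`, `exists_sq_inert`.
-/

namespace Pool.Agent.Helper96.PS

open Polynomial

variable {F : Type*} [Field F] {g n : ℕ} {w : F[X]} {f : F[X][X]}

private theorem pc_ne_bot {x : AdjoinRoot f} (hx : x ≠ 0) {I : Ideal (AdjoinRoot f)}
    (hI : I ^ 2 = Ideal.span {x}) : I ≠ ⊥ := by
  rintro rfl
  apply hx
  have h1 : x ∈ (⊥ : Ideal (AdjoinRoot f)) ^ 2 := by
    rw [hI]
    exact Ideal.mem_span_singleton_self x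
  rw [pow_two, Ideal.bot_mul] at h1
  exact (Submodule.mem_bot _).1 h1

/-- a generator at finitely many primes, with an element of square norm -/
theorem exists_gen_norm (h : Good g n w f) {x : AdjoinRoot f} (hx : Sg f x) {I : Ideal (AdjoinRoot f)}
    (hI : I ^ 2 = Ideal.span {x}) (s : Finset (Ideal (AdjoinRoot f))) (hs : ∀ P ∈ s, P.IsMaximal) :
    ∃ y ∈ I, ∃ ρ, y ^ 2 = x * ρ ∧ IsSquare (Algebra.norm F[X] ρ) ∧ ∀ P ∈ s, y ∉ I * P ∧ ρ ∉ P ∧
      (SqLoc P x ↔ IsSquare (Ideal.Quotient.mk P ρ)) := by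
  haveI := isDomain h.toPre
  have hI0 : I ≠ ⊥ := pc_ne_bot hx.1 hI
  obtain ⟨y, hy, hyP⟩ := exists_not_mem h hI0 s hs
  have h1 : y ^ 2 ∈ I ^ 2 := Ideal.pow_mem_pow hy 2
  rw [hI, Ideal.mem_span_singleton] at h1
  obtain ⟨ρ, hρ⟩ := h1
  refine ⟨y, hy, ρ, hρ, ?_, ?_⟩
  · obtain ⟨t, ht⟩ := hx.2.2
    have h2 := congrArg (Algebra.norm F[X]) hρ
    rw [map_pow, map_mul, ht] at h2
    have ht0 : t ≠ 0 := by
      rintro rfl
      rw [mul_zero] at ht
      exact norm_ne_zero h.toPre hx.1 ht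
    have h3 : t ^ 2 ∣ (Algebra.norm F[X] y) ^ 2 := ⟨Algebra.norm F[X] ρ, by rw [h2]; ring⟩
    have h4 : t ∣ Algebra.norm F[X] y := (IsIntegrallyClosed.pow_dvd_pow_iff two_ne_zero).1 h3
    obtain ⟨u, hu⟩ := h4
    refine ⟨u, ?_⟩
    have h5 : t * t * Algebra.norm F[X] ρ = t * t * (u * u) := by
      rw [← h2, hu]
      ring
    exact mul_left_cancel₀ (mul_ne_zero ht0 ht0) h5
  · intro P hP
    obtain ⟨ρ', h2, h3, h4⟩ := sqLoc_iff h hx.1 hI (hs P hP) hy (hyP P hP)
    have h5 : ρ' = ρ := by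
      rw [hρ] at h2
      exact (mul_left_cancel₀ hx.1 h2).symm
    subst h5
    exact ⟨hyP P hP, h3, h4⟩

/-- for classes, the local conditions at the two primes over a place of type S are equivalent -/
theorem sqLoc_P1_iff_P2 [Finite F] (h2 : (2 : F) ≠ 0) (h : Good g n w f) {x : AdjoinRoot f} (hx : Sg f x)
    {π r : F[X]} {q : F[X][X]} (hT : TypeS g f π r q) :
    SqLoc (P1 f π q) x ↔ SqLoc (P2 f π r) x := by
  classical
  obtain ⟨I, hI⟩ := hx.2.1
  obtain ⟨y, -, ρ, -, hN, hP⟩ := exists_gen_norm h hx hI {P1 f π q, P2 f π r} (by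
    intro P hP
    rw [Finset.mem_insert, Finset.mem_singleton] at hP
    rcases hP with rfl | rfl
    · exact P1_isMaximal h.toPre hT
    · exact P2_isMaximal h.toPre hT)
  obtain ⟨-, h3, h4⟩ := hP (P1 f π q) (Finset.mem_insert_self _ _)
  obtain ⟨-, h5, h6⟩ := hP (P2 f π r) (Finset.mem_insert_of_mem (Finset.mem_singleton_self _))
  rw [h4, h6]
  exact isSquare_P1_iff_P2 h2 h.toPre hT h3 h5 hN

theorem exists_pencil [Finite F] (h2 : (2 : F) ≠ 0) (h : Good g n w f) {x : AdjoinRoot f} (hx : Sg f x)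
    (hns : ¬ IsSquare x) :
    ∃ d, TypeOK g n d ∧ ∃ p ∈ PSet F g n d, cdet p.1 p.2 = C p.1.det * f ∧
      (∀ π r q, TypeS g f π r q → SqLoc (P2 f π r) x →
        Dist (p.1.map (AdjoinRoot.mk π)) (p.2.map (AdjoinRoot.mk π))) ∧
      ∀ π, TypeI f π → Dist (p.1.map (AdjoinRoot.mk π)) (p.2.map (AdjoinRoot.mk π)) := by
  classical
  have hx' := hx
  obtain ⟨hx0, ⟨I, hI⟩, hN⟩ := hx
  have hI0 : I ≠ ⊥ := pc_ne_bot hx0 hI
  obtain ⟨m, hm⟩ := exists_dg h.monic n hx0
  obtain ⟨μ, hμ⟩ := even_dg h.toPre hm hN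
  have hm2 : dg h.monic n x = ((2 * μ : ℕ) : WithBot ℕ) := by
    rw [hm, hμ, two_mul]
  obtain ⟨e, δ, he⟩ := exists_rbasis h.toPre hI0
  have hII : I * I = Ideal.span {x} := by
    rw [← pow_two]
    exact hI
  have hd : ∀ i j, x ∣ e i * e j := by
    intro i j
    rw [← Ideal.mem_span_singleton, ← hII]
    exact Ideal.mul_mem_mul (he.mem i) (he.mem j)
  have hdg : ∀ i, dg h.monic n (e i) = δ i := fun i => he.dg_eq i
  have hG := gram_deg h.toPre hm2 hdg hdg hd
  have hB := gramT_deg h.toPre hm2 hdg hdg hd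
  have hu := isUnit_gram h.toPre hx0 hII he he
  have hcd := cdet_gram h.toPre hx0 hI he
  set G := gram h.monic x e e with hGdef
  set B := gramT h.monic x e e with hBdef
  set d : Fin (2 * g + 1) → ℤ := fun i => (g : ℤ) * n + μ - δ i with hddef
  have hG' : ∀ i j, G i j ≠ 0 → ((G i j).natDegree : ℤ) ≤ - d i - d j := by
    intro i j hij
    have h3 := hG i j hij
    rw [hddef]
    push_cast at h3 ⊢
    linarith
  have hB' : ∀ i j, B i j ≠ 0 → ((B i j).natDegree : ℤ) ≤ n - d i - d j := by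
    intro i j hij
    have h3 := hB i j hij
    rw [hddef]
    push_cast at h3 ⊢
    linarith
  have hanti : Antitone d := by
    intro i j hij
    have h3 := he.mono hij
    rw [hddef]
    have h4 : (δ i : ℤ) ≤ δ j := by exact_mod_cast h3
    show (g : ℤ) * n + μ - δ j ≤ (g : ℤ) * n + μ - δ i
    linarith
  have hsymm : ∀ i, d i + d i.rev = 0 := by
    intro i
    have h3 := type_symm h hm2 hII he he i
    have h4 : (δ i : ℤ) + δ i.rev = 2 * ((g : ℤ) * n + μ) := by exact_mod_cast h3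
    show (g : ℤ) * n + μ - δ i + ((g : ℤ) * n + μ - δ i.rev) = 0
    linarith
  have hfirr := irreducible_f h.toPre
  refine ⟨d, ⟨hanti, hsymm, ?_, ?_⟩, (G, B),
    ⟨gram_isSymm _ _ _, gramT_isSymm _ _ _, hu, hG', hB'⟩, hcd, ?_, ?_⟩
  · -- top
    intro i hi
    by_contra hcon
    push Not at hcon
    apply hns
    have hle : g ≤ 2 * g + 1 := by omega
    have hkd : ∀ k : Fin g, d i ≤ d (Fin.castLE hle k) := by
      intro k
      apply hanti
      rw [Fin.le_iff_val_le_val]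
      have := k.2
      simp only [Fin.val_castLE]
      omega
    have hn0 : (0 : ℤ) ≤ n := Int.natCast_nonneg n
    have hG0 : ∀ k l : Fin g, G (Fin.castLE hle k) (Fin.castLE hle l) = 0 := by
      intro k l
      by_contra h3
      have h4 := hG' _ _ h3
      have h5 := hkd k
      have h6 := hkd l
      have h7 : (0 : ℤ) ≤ ((G (Fin.castLE hle k) (Fin.castLE hle l)).natDegree : ℤ) :=
        Int.natCast_nonneg _
      linarith
    have hB0 : ∀ k l : Fin g, B (Fin.castLE hle k) (Fin.castLE hle l) = 0 := by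
      intro k l
      by_contra h3
      have h4 := hB' _ _ h3
      have h5 := hkd k
      have h6 := hkd l
      have h7 : (0 : ℤ) ≤ ((B (Fin.castLE hle k) (Fin.castLE hle l)).natDegree : ℤ) :=
        Int.natCast_nonneg _
      linarith
    refine isSquare_of_isotropic h hx0 hN (fun k => e (Fin.castLE hle k)) ?_
      (fun k l => hd _ _) (fun k l => hG0 k l) (fun k l => hB0 k l)
    intro c hc
    let c' : Fin (2 * g + 1) → F[X] := fun j => if hj : (j : ℕ) < g then c ⟨j, hj⟩ else 0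
    have h3 : ∑ j, AdjoinRoot.of f (c' j) * e j = 0 := by
      rw [← hc]
      symm
      refine Finset.sum_of_injOn (Fin.castLE hle) (fun _ _ _ _ hab => Fin.castLE_injective hle hab)
        (fun _ _ => Finset.mem_coe.2 (Finset.mem_univ _)) ?_ ?_
      · intro j _ hj
        have h4 : ¬ (j : ℕ) < g := by
          intro h5
          apply hj
          exact ⟨⟨j, h5⟩, Finset.mem_coe.2 (Finset.mem_univ _), Fin.ext rfl⟩
        simp only [c', dif_neg h4, map_zero, zero_mul]
      · intro k _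
        have h4 : ((Fin.castLE hle k : Fin (2 * g + 1)) : ℕ) < g := k.2
        simp only [c', dif_pos h4]
        rfl
    funext k
    have h4 := he.indep c' h3 (Fin.castLE hle k)
    have h5 : ((Fin.castLE hle k : Fin (2 * g + 1)) : ℕ) < g := k.2
    simp only [c', dif_pos h5] at h4
    exact h4
  · -- gap
    intro i j hij
    by_contra hcon
    push Not at hcon
    exact false_of_gap hanti hsymm hG' hB' hu h.monic h.natDegree hfirr hcd hij hcon
  · -- type S
    intro π r q hT hsq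
    obtain ⟨y, hy, ρ, hyρ, hNρ, hP⟩ := exists_gen_norm h hx' hI {P1 f π q, P2 f π r} (by
      intro P hP
      rw [Finset.mem_insert, Finset.mem_singleton] at hP
      rcases hP with rfl | rfl
      · exact P1_isMaximal h.toPre hT
      · exact P2_isMaximal h.toPre hT)
    obtain ⟨-, h3, -⟩ := hP (P1 f π q) (Finset.mem_insert_self _ _)
    obtain ⟨-, h5, h6⟩ := hP (P2 f π r) (Finset.mem_insert_of_mem (Finset.mem_singleton_self _))
    obtain ⟨a, ha⟩ := exists_sq_split h2 h.toPre hT h3 h5 hNρ (h6.1 hsq)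
    exact dist_mod h.toPre hx0 hI he π hy hyρ ha
  · -- type I
    intro π hT
    obtain ⟨y, hy, ρ, hyρ, hNρ, hP⟩ := exists_gen_norm h hx' hI {Ideal.span {AdjoinRoot.of f π}} (by
      intro P hP
      rw [Finset.mem_singleton] at hP
      rw [hP]
      exact inert_isMaximal h.toPre hT)
    obtain ⟨-, h3, -⟩ := hP _ (Finset.mem_singleton_self _)
    rw [Ideal.mem_span_singleton] at h3
    obtain ⟨a, ha⟩ := exists_sq_inert h2 h.toPre hT h3 hNρ
    exact dist_mod h.toPre hx0 hI he π hy hyρ ha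

end Pool.Agent.Helper96.PS
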