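import Pool.Agent.Helper96.PS.Recip
import Pool.Agent.Helper96.PS.NormVal
import Pool.Agent.Helper96.PS.BasisF2
import Pool.Agent.Helper96.PS.Pencil

/-!
# PS-T5: the twisting element

`f` good, `LocOK`, not `BadStrict`. For `x ∈ Sg f` let `λ(x) ∈ F_2^k`, `λ_i(x) = 0` iff `SqLoc (P2_i) x` (`P2_i = P2 f (π_i) r_i` for a chosen `(r_i, h_i)` with
`TypeS g f (π_i) r_i h_i`, from `LocOK`: `f mod π_i = (x - r̄)h̄`, lift `r̄`, and lift `h̄` to a monic polynomial; `P2` does not depend on the choice: the root `r̄` of `f̄` is unique).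
`λ(xx') = λ(x) + λ(x')` (`sqLoc_mul`), `λ(x²) = 0`, so `V = {λ(x)}` is a subgroup (nonempty: `λ(1) = 0`). `λ(x) = 0` implies `x` is a square: otherwise `BadStrict`.
`exists_coord_basis`: `I`. `u = ∏_{i ∈ I} π_i ∏_{i ∉ I} π'_i`. Let `α` satisfy `TwSel g f u α`.
`parity_factor`: `(α) = (∏_{P ∈ s} P) J²`, `s = {P : v_P(α) odd}`. Let `P ∈ s`, `π` the place below (`exists_place`). If `π ∤ u`: `P ∉ s` by `TwSel.even`. If `π ∣ u`: `π = π_i`, `i ∈ I`, or
`π = π'_i`, `i ∉ I` (monic irreducible). `π'_i`: `P = (π)` (`inert_isMaximal`) is even (`evenAt_inert`). `π_i`: `P = P1_i` or `P2_i`, `P2_i` is even (`evenAt_P2`). So `s ⊆ {P1_i : i ∈ I}`; let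
`I' = {i ∈ I : v_{P1_i}(α) odd}`; the `P1_i` are distinct for distinct `i`. `dg α` is even (`even_dg`). For `x ∈ Sg f`: `recip`: `#{i ∈ I' : ¬ SqLoc (P1_i) x}` is even, and `SqLoc (P1_i) x ↔ SqLoc (P2_i) x`
(`sqLoc_P1_iff_P2`), so `∑_{i ∈ I'} λ_i(x) = 0`. If `i₀ ∈ I'` choose `x` with `λ_{i₀}(x) = 1`, `λ_i(x) = 0` for the other `i ∈ I`: contradiction. So `I' = ∅`, `s = ∅`, `(α) = J²`, `α ∈ Sg f`; for `i ∈ I` `EvenAt P1_i α`,
so `SqLoc (P2_i) α` by `TwSel.tw` (`π_i ∣ u`, `π_i² ∤ u` as the places are distinct). So `λ(α)` vanishes on `I`, `λ(α) = 0`, `α` is a square.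
-/

namespace Pool.Agent.Helper96.PS

open Polynomial

variable {F : Type*} [Field F] {g n : ℕ} {w : F[X]} {f : F[X][X]}

/-- the twisting element -/
noncomputable def tw {k : ℕ} (π π' : Fin k → F[X]) (I : Finset (Fin k)) : F[X] :=
  (∏ i ∈ I, π i) * ∏ i ∈ Iᶜ, π' i

private theorem eu_typeS {π : F[X]} (hπ : Irreducible π) (hm : π.Monic) {f : F[X][X]}
    (hT : f.map (AdjoinRoot.mk π) ∈ TS (AdjoinRoot π) g) : ∃ r q, TypeS g f π r q := by
  obtain ⟨r', h', h1, h3, h4, h5⟩ := hT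
  have hfact : Fact (Irreducible π) := ⟨hπ⟩
  obtain ⟨r, hr⟩ := AdjoinRoot.mk_surjective (g := π) r'
  obtain ⟨q, hq1, hq2, hq3⟩ := Polynomial.lifts_and_natDegree_eq_and_monic
    (p := h') (f := AdjoinRoot.mk π)
    ((Polynomial.mem_lifts _).2 (Polynomial.map_surjective _ AdjoinRoot.mk_surjective h')) h1
  refine ⟨r, q, hπ, hm, hq3, ?_, ?_, ?_⟩
  · rw [hq2, h3]
  · rw [hq1]
    exact h4
  · rw [Polynomial.C_dvd_iff_dvd_coeff]
    intro j
    rw [← AdjoinRoot.mk_eq_zero, ← Polynomial.coeff_map, Polynomial.map_sub,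
      Polynomial.map_mul, Polynomial.map_sub, Polynomial.map_X, Polynomial.map_C, hq1, hr, h5,
      sub_self, Polynomial.coeff_zero]

private theorem eu_typeI {π : F[X]} (hπ : Irreducible π) (hm : π.Monic) {f : F[X][X]}
    (hT : f.map (AdjoinRoot.mk π) ∈ TI (AdjoinRoot π) g) : TypeI f π :=
  ⟨hπ, hm, hT.2.2⟩

private theorem eu_eq {a b : F[X]} (ha : Irreducible a) (hb : Irreducible b) (ham : a.Monic)
    (hbm : b.Monic) (h : a ∣ b) : a = b :=
  Polynomial.eq_of_monic_of_associated ham hbm (ha.associated_of_dvd hb h)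

/-- `P2` does not depend on the choice of the root -/
private theorem eu_P2 (h : Pre g n w f) {π r r' : F[X]} {q q' : F[X][X]}
    (hT : TypeS g f π r q) (hT' : TypeS g f π r' q') : P2 f π r' = P2 f π r := by
  have h1 : AdjoinRoot.of f π ∈ P2 f π r' := Ideal.subset_span (by simp)
  rcases eq_P1_or_P2 h hT (P2_isMaximal h hT') h1 with h3 | h3
  · exfalso
    have h4 := ix_P2 h hT'
    rw [h3, ix_P1 h hT] at h4
    have h5 : 0 < π.natDegree := hT.hπ.natDegree_pos
    have h6 := h.hg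
    nlinarith
  · exact h3

theorem exists_u [Finite F] (h2 : (2 : F) ≠ 0) (h : Good g n w f) {k D : ℕ} {π π' : Fin k → F[X]}
    (hpl : Places k D π π') (hloc : LocOK g π π' f) (hbad : ¬ BadStrict g π f) :
    ∃ I : Finset (Fin k), ∀ α, TwSel g f (tw π π' I) α → IsSquare α := by
  classical
  have hpre := h.toPre
  have hdom : IsDomain (AdjoinRoot f) := isDomain hpre
  have hded : IsDedekindDomain (AdjoinRoot f) := isDedekind h
  have hTS : ∀ i, ∃ r q, TypeS g f (π i) r q := fun i =>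
    eu_typeS (hpl.irr i) (hpl.monic i) (hloc.1 i)
  choose r q hT using hTS
  have hTI : ∀ i, TypeI f (π' i) := fun i =>
    eu_typeI (hpl.irr' i) (hpl.monic' i) (hloc.2 i)
  have hM2 : ∀ i, (P2 f (π i) (r i)).IsMaximal := fun i => P2_isMaximal hpre (hT i)
  have hM1 : ∀ i, (P1 f (π i) (q i)).IsMaximal := fun i => P1_isMaximal hpre (hT i)
  -- the map to `F_2^k`
  obtain ⟨lam, hlam⟩ : ∃ lam : AdjoinRoot f → Fin k → ZMod 2, ∀ x i,
      lam x i = if SqLoc (P2 f (π i) (r i)) x then 0 else 1 := ⟨_, fun _ _ => rfl⟩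
  have hlam0 : ∀ x i, lam x i = 0 ↔ SqLoc (P2 f (π i) (r i)) x := by
    intro x i
    rw [hlam]
    by_cases hs : SqLoc (P2 f (π i) (r i)) x
    · simp [hs]
    · simp [hs]
  have hsq : ∀ x, Sg f x → lam x = 0 → IsSquare x := by
    intro x hx hx0
    by_contra hns
    refine hbad ⟨x, hx, hns, fun i r' q' hT' => ?_⟩
    rw [eu_P2 hpre (hT i) hT', ← hlam0, hx0]
    rfl
  have hlm : ∀ x x', Sg f x → Sg f x' → lam (x * x') = lam x + lam x' := by
    intro x x' hx hx'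
    funext i
    rw [Pi.add_apply, hlam, hlam, hlam]
    have h3 := sqLoc_mul h2 h hx hx' (hM2 i)
    by_cases h4 : SqLoc (P2 f (π i) (r i)) x
    · by_cases h5 : SqLoc (P2 f (π i) (r i)) x'
      · have h6 : SqLoc (P2 f (π i) (r i)) (x * x') := h3.2 (by simp [h4, h5])
        simp [h4, h5, h6]
      · have h6 : ¬ SqLoc (P2 f (π i) (r i)) (x * x') := fun h7 => h5 ((h3.1 h7).1 h4)
        simp [h4, h5, h6]
    · by_cases h5 : SqLoc (P2 f (π i) (r i)) x'
      · have h6 : ¬ SqLoc (P2 f (π i) (r i)) (x * x') := fun h7 => h4 ((h3.1 h7).2 h5)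
        simp [h4, h5, h6]
      · have h6 : SqLoc (P2 f (π i) (r i)) (x * x') := h3.2 (by simp [h4, h5])
        simp only [h4, h5, h6, if_true, if_false]
        decide
  let V : AddSubgroup (Fin k → ZMod 2) :=
    { carrier := {v | ∃ x, Sg f x ∧ v = lam x}
      zero_mem' := by
        refine ⟨1 ^ 2, Sg.sq h one_ne_zero, ?_⟩
        funext i
        exact ((hlam0 _ _).2 (sqLoc_sq h one_ne_zero (hM2 i))).symm
      add_mem' := by
        rintro a b ⟨x, hx, rfl⟩ ⟨x', hx', rfl⟩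
        exact ⟨x * x', Sg.mul h hx hx', (hlm x x' hx hx').symm⟩
      neg_mem' := by
        rintro a ⟨x, hx, rfl⟩
        refine ⟨x, hx, ?_⟩
        funext i
        have h3 : ∀ z : ZMod 2, -z = z := by decide
        exact h3 _ }
  have hV : ∀ v, v ∈ V ↔ ∃ x, Sg f x ∧ v = lam x := fun _ => Iff.rfl
  obtain ⟨I, hI1, hI2⟩ := exists_coord_basis V
  refine ⟨I, fun α hα => ?_⟩
  obtain ⟨s, J, hs, hprod, hmem⟩ := parity_factor hα.ne
  -- the primes of odd valuation
  have hA : ∀ P ∈ s, ∃ i ∈ I, P = P1 f (π i) (q i) := by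
    intro P hP
    have hPm := (hs P hP).1
    have hodd : ¬ EvenAt P α := (hmem P hPm (hs P hP).2).1 hP
    obtain ⟨_, ϖ, hϖ, hϖm, hϖP⟩ := exists_place hpre hPm
    by_cases hu : ϖ ∣ tw π π' I
    · unfold tw at hu
      rcases hϖ.prime.dvd_or_dvd hu with h3 | h3
      · obtain ⟨i, hi, h4⟩ := (hϖ.prime.dvd_finsetProd_iff _).1 h3
        have h5 := eu_eq hϖ (hpl.irr i) hϖm (hpl.monic i) h4
        rw [h5] at hϖP
        rcases eq_P1_or_P2 hpre (hT i) hPm hϖP with h6 | h6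
        · exact ⟨i, hi, h6⟩
        · exfalso
          apply hodd
          rw [h6]
          exact evenAt_P2 h hα.ne hα.norm (hT i)
      · obtain ⟨i, hi, h4⟩ := (hϖ.prime.dvd_finsetProd_iff _).1 h3
        have h5 := eu_eq hϖ (hpl.irr' i) hϖm (hpl.monic' i) h4
        rw [h5] at hϖP
        exfalso
        apply hodd
        have h6 : Ideal.span {AdjoinRoot.of f (π' i)} = P := by
          refine (inert_isMaximal hpre (hTI i)).eq_of_le hPm.ne_top ?_
          rw [Ideal.span_singleton_le_iff_mem]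
          exact hϖP
        rw [← h6]
        exact evenAt_inert h hα.ne hα.norm (hTI i)
    · exact absurd (hα.even ϖ hϖ hϖm hu P hPm hϖP) hodd
  obtain ⟨m, hm⟩ := exists_dg hpre.monic n hα.ne
  obtain ⟨m', hm'⟩ := even_dg hpre hm hα.norm
  have hm2 : dg h.monic n α = ((2 * m' : ℕ) : WithBot ℕ) := by
    rw [two_mul, ← hm']
    exact hm
  have hs0 : s = ∅ := by
    by_contra hne
    obtain ⟨P₀, hP₀⟩ := Finset.nonempty_iff_ne_empty.2 hne
    obtain ⟨i₀, hi₀, hPi₀⟩ := hA P₀ hP₀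
    obtain ⟨v, hv, hvI⟩ := hI2 (Pi.single i₀ 1)
    obtain ⟨x, hx, rfl⟩ := (hV v).1 hv
    have heven := recip h2 h s (fun P hP => (hs P hP).1) hprod hm2 hx
    have hset : {P | P ∈ s ∧ ¬ SqLoc P x} = {P₀} := by
      ext P
      simp only [Set.mem_ofPred_eq, Set.mem_singleton_iff]
      constructor
      · rintro ⟨hP, hns⟩
        obtain ⟨i, hi, hPi⟩ := hA P hP
        rw [hPi, sqLoc_P1_iff_P2 h2 h hx (hT i), ← hlam0, hvI i hi] at hns
        have h3 : i = i₀ := by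
          by_contra hii
          exact hns (Pi.single_eq_of_ne hii 1)
        rw [hPi, h3, ← hPi₀]
      · rintro rfl
        refine ⟨hP₀, ?_⟩
        rw [hPi₀, sqLoc_P1_iff_P2 h2 h hx (hT i₀), ← hlam0, hvI i₀ hi₀, Pi.single_eq_same]
        exact one_ne_zero
    rw [hset, Set.ncard_singleton] at heven
    exact absurd heven (by decide)
  have hSg : Sg f α := by
    refine ⟨hα.ne, ⟨J, ?_⟩, hα.norm⟩
    rw [← hprod, hs0, Finset.prod_empty, one_mul]
  refine hsq α hSg (hI1 (lam α) ((hV _).2 ⟨α, hSg, rfl⟩) fun i hi => ?_)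
  rw [hlam0]
  refine hα.tw (π i) (r i) (q i) (hT i) ?_ ?_ ?_
  · unfold tw
    exact Dvd.dvd.mul_right (Finset.dvd_prod_of_mem _ hi) _
  · intro hd
    unfold tw at hd
    rw [← Finset.mul_prod_erase I π hi, sq, mul_assoc] at hd
    have h3 := (mul_dvd_mul_iff_left (hpl.irr i).ne_zero).1 hd
    rcases (hpl.irr i).prime.dvd_or_dvd h3 with h4 | h4
    · obtain ⟨j, hj, h5⟩ := ((hpl.irr i).prime.dvd_finsetProd_iff _).1 h4
      have h6 := eu_eq (hpl.irr i) (hpl.irr j) (hpl.monic i) (hpl.monic j) h5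
      have h7 : (Sum.inl i : Fin k ⊕ Fin k) = Sum.inl j := hpl.inj h6
      exact (Finset.mem_erase.1 hj).1 (Sum.inl_injective h7).symm
    · obtain ⟨j, hj, h5⟩ := ((hpl.irr i).prime.dvd_finsetProd_iff _).1 h4
      have h6 := eu_eq (hpl.irr i) (hpl.irr' j) (hpl.monic i) (hpl.monic' j) h5
      have h7 : (Sum.inl i : Fin k ⊕ Fin k) = Sum.inr j := hpl.inj h6
      exact absurd h7 (by simp)
  · by_contra hodd
    have h3 := (hmem _ (hM1 i) (exists_place hpre (hM1 i)).1).2 hodd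
    rw [hs0] at h3
    exact absurd h3 (Finset.notMem_empty _)

end Pool.Agent.Helper96.PS
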