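import Pool.Agent.Helper96.PS.LargeFix
import Pool.Agent.Helper96.PS.Cards

/-!
# PS-S3c: the proportion of `f` with a singular point over a large place tends to `0`

`w` irreducible monic of degree `N = 2g+1`, `g ≥ 1`, `E` fixed. For large `n` let `L₁ = (n + 1 - E)/2` (floor; `n ≤ 4L₁` for large `n`), `H = ((2g+1) n - 2)/p`, `L = min(L₁, H + 1)`: `L → ∞`. `V = {h : deg h ≤ H}`, `#V = q^{H+1}`. For `(h₁, h₂) ∈ V²` the translation `f ↦ f + C (X h₁^p + h₂^p)` is a bijection of `BoxW w g n`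
(the constant coefficient has free coefficients in degrees `< Nn`, and `deg (X h₁^p + h₂^p) ≤ pH + 1 < Nn`; if `g ≥ 1`, `n ≥ 1`). So `q^{2(H+1)} #bad = ∑_{f ∈ BoxW} #{(h₁, h₂) : f + … bad} ≤ #BoxW · 17 N³ q^{2(H+1)} q^{-L}` (`large_fix`; `Pre g n w f`). So `#bad ≤ 17 N³ q^{-L} #BoxW ≤ ε #BoxW` for large `n`.
(`p = ringChar F`, prime as `F` is finite.)
-/

namespace Pool.Agent.Helper96.PS

open Polynomial

private theorem boxW_add {F : Type*} [Field F] {g n : ℕ} {w : F[X]} {f : F[X][X]}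
    (hf : f ∈ BoxW w g n) (c : F[X]) (hc : c.natDegree < (2 * g + 1) * n) :
    f + C c ∈ BoxW w g n := by
  obtain ⟨⟨hm, hd, hb⟩, ht⟩ := hf
  have hlt : (C c : F[X][X]).degree < f.degree := by
    rw [degree_eq_natDegree hm.ne_zero, hd]
    exact lt_of_le_of_lt degree_C_le (by exact_mod_cast Nat.succ_pos _)
  refine ⟨⟨hm.add_of_left hlt, ?_, ?_⟩, ?_⟩
  · rw [natDegree_add_C, hd]
  · intro j hj
    rw [coeff_add, coeff_C]
    split_ifs with h0
    · subst h0
      refine (natDegree_add_le _ _).trans (max_le (hb 0 (Nat.zero_le _)) ?_)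
      exact hc.le
    · rw [add_zero]
      exact hb j hj
  · intro j hj
    rw [coeff_add, coeff_C]
    split_ifs with h0
    · subst h0
      have h1 : c.coeff ((2 * g + 1 - 0) * n) = 0 := coeff_eq_zero_of_natDegree_lt hc
      rw [coeff_add, ht 0 (Nat.zero_le _), h1, add_zero]
    · rw [add_zero]
      exact ht j hj

private theorem card_V (F : Type*) [Field F] [Finite F] (H : ℕ) :
    ∃ s : Finset F[X], (∀ h, h ∈ s ↔ h.natDegree ≤ H) ∧ s.card = Nat.card F ^ (H + 1) := by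
  have hset : {h : F[X] | h.natDegree ≤ H} = (degreeLT F (H + 1) : Set F[X]) := by
    ext h
    rw [Set.mem_setOf_eq, SetLike.mem_coe, mem_degreeLT, natDegree_le_iff_coeff_eq_zero,
      degree_lt_iff_coeff_zero]
    exact ⟨fun h1 m hm => h1 m (by omega), fun h1 m hm => h1 m (by omega)⟩
  have e := (degreeLTEquiv F (H + 1)).toEquiv
  haveI : Finite (degreeLT F (H + 1)) := Finite.of_equiv _ e.symm
  have hfin : {h : F[X] | h.natDegree ≤ H}.Finite := by
    rw [hset]
    exact Set.toFinite _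
  refine ⟨hfin.toFinset, fun h => by rw [Set.Finite.mem_toFinset, Set.mem_setOf_eq], ?_⟩
  rw [← Set.ncard_eq_toFinset_card _ hfin, hset]
  have h1 : (degreeLT F (H + 1) : Set F[X]).ncard = Nat.card (degreeLT F (H + 1)) := rfl
  rw [h1, Nat.card_congr e, Nat.card_fun, Nat.card_fin]

open Classical in
private theorem count {F : Type*} [Field F] {P : F[X][X] → Prop} {p H N : ℕ}
    (B : Finset F[X][X]) (V : Finset F[X]) (hV : ∀ h, h ∈ V ↔ h.natDegree ≤ H)
    (hB : ∀ f ∈ B, ∀ c : F[X], c.natDegree < N → f + C c ∈ B) (hpH : p * H + 1 < N) :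
    (B.filter P).card * V.card ^ 2 ≤
      ∑ f ∈ B, ((V ×ˢ V).filter fun h => P (f + C (X * h.1 ^ p + h.2 ^ p))).card := by
  have h1 : ∑ f ∈ B, ((V ×ˢ V).filter fun h => P (f + C (X * h.1 ^ p + h.2 ^ p))).card =
      ∑ h ∈ V ×ˢ V, (B.filter fun f => P (f + C (X * h.1 ^ p + h.2 ^ p))).card := by
    simp only [Finset.card_filter]
    exact Finset.sum_comm
  rw [h1]
  have h2 : (B.filter P).card * V.card ^ 2 = ∑ _h ∈ V ×ˢ V, (B.filter P).card := by
    rw [Finset.sum_const, Finset.card_product, smul_eq_mul, sq, mul_comm]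
  rw [h2]
  refine Finset.sum_le_sum fun h hh => ?_
  rw [Finset.mem_product, hV, hV] at hh
  have hdeg : (-(X * h.1 ^ p + h.2 ^ p) : F[X]).natDegree < N := by
    rw [natDegree_neg]
    refine lt_of_le_of_lt (natDegree_add_le_of_degree_le (n := p * H + 1) ?_ ?_) hpH
    · refine natDegree_mul_le.trans ?_
      rw [natDegree_X, add_comm]
      refine Nat.add_le_add_right (natDegree_pow_le.trans ?_) 1
      exact Nat.mul_le_mul_left _ hh.1
    · refine natDegree_pow_le.trans ?_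
      exact (Nat.mul_le_mul_left _ hh.2).trans (Nat.le_succ _)
  refine Finset.card_le_card_of_injOn (fun f => f + C (-(X * h.1 ^ p + h.2 ^ p))) ?_ ?_
  · intro f hf
    have hf' : f ∈ B ∧ P f := by simpa using hf
    have h3 : f + C (-(X * h.1 ^ p + h.2 ^ p)) + C (X * h.1 ^ p + h.2 ^ p) = f := by
      rw [C_neg]
      ring
    simp only [Finset.coe_filter, Set.mem_setOf_eq]
    exact ⟨hB f hf'.1 _ hdeg, by rw [h3]; exact hf'.2⟩
  · intro a _ b _ hab
    exact add_right_cancel hab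

theorem large {F : Type*} [Field F] [Finite F] {g : ℕ} (hg : 1 ≤ g) {w : F[X]} (hw : w.Monic)
    (hwd : w.natDegree = 2 * g + 1) (hwi : Irreducible w) (E : ℕ) {ε : ℝ} (hε : 0 < ε) :
    ∃ n₀ : ℕ, ∀ n, n₀ ≤ n →
      ({f | f ∈ BoxW w g n ∧ ∃ ϖ : F[X], ϖ.Monic ∧ Irreducible ϖ ∧ n < 2 * ϖ.natDegree + E ∧
        IrrAt f ϖ}.ncard : ℝ) ≤ ε * (BoxW w g n).ncard := by
  classical
  obtain ⟨p, hpc⟩ := CharP.exists F
  have hp : p.Prime := CharP.char_is_prime F p
  haveI : Fact p.Prime := ⟨hp⟩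
  have hq2 : 2 ≤ Nat.card F := Finite.one_lt_card
  obtain ⟨T, hT⟩ := pow_unbounded_of_one_lt (17 * (2 * g + 1 : ℝ) ^ 3 / ε) (one_lt_two)
  refine ⟨2 * E + 2 * T + p * T + 1, fun n hn => ?_⟩
  set L₁ := (n + 1 - E) / 2 with hL₁
  set H := ((2 * g + 1) * n - 2) / p with hHdef
  set L := min L₁ (H + 1) with hLdef
  have h3n : 3 * n ≤ (2 * g + 1) * n := Nat.mul_le_mul_right _ (by omega)
  have hpT : 0 ≤ p * T := Nat.zero_le _
  have hH2 : p * H + 2 ≤ (2 * g + 1) * n := by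
    have := Nat.mul_div_le ((2 * g + 1) * n - 2) p
    rw [← hHdef] at this
    omega
  have hTH : T ≤ H := by
    rw [hHdef, Nat.le_div_iff_mul_le hp.pos, mul_comm]
    omega
  have hTL : T ≤ L := by
    rw [hLdef]
    refine le_min ?_ (by omega)
    rw [hL₁]
    omega
  have hBfin : (BoxW w g n).Finite := (finite_Box (F := F) g n).subset fun f hf => hf.1
  obtain ⟨V, hV, hVc⟩ := card_V F H
  set P : F[X][X] → Prop := fun f => ∃ ϖ : F[X], ϖ.Monic ∧ Irreducible ϖ ∧
    n < 2 * ϖ.natDegree + E ∧ IrrAt f ϖ with hPdef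
  have hcount := count (P := P) (p := p) (H := H) (N := (2 * g + 1) * n) hBfin.toFinset V hV
    (by
      intro f hf c hc
      rw [Set.Finite.mem_toFinset] at hf ⊢
      exact boxW_add hf c hc) (by omega)
  have hfix : ∀ f ∈ hBfin.toFinset,
      ((V ×ˢ V).filter fun h => P (f + C (X * h.1 ^ p + h.2 ^ p))).card * Nat.card F ^ L ≤
        17 * (2 * g + 1) ^ 3 * Nat.card F ^ (2 * (H + 1)) := by
    intro f hf
    rw [Set.Finite.mem_toFinset] at hf
    have hPre : Pre g n w f := ⟨hg, hf, hw, hwd, hwi⟩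
    have := large_fix (p := p) (E := E) (H := H) (L₁ := L₁) (L := L) hPre hH2 (by omega) (by omega)
      (by omega) (min_le_left _ _) (min_le_right _ _)
    convert this using 2
    rw [← Set.ncard_coe_finset]
    congr 1
    ext h
    simp only [Finset.coe_filter, Finset.mem_product, Set.mem_setOf_eq, hV, hPdef, and_assoc]
  have hsum : (hBfin.toFinset.filter P).card * V.card ^ 2 * Nat.card F ^ L ≤
      hBfin.toFinset.card * (17 * (2 * g + 1) ^ 3 * Nat.card F ^ (2 * (H + 1))) := by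
    calc (hBfin.toFinset.filter P).card * V.card ^ 2 * Nat.card F ^ L
        ≤ (∑ f ∈ hBfin.toFinset,
            ((V ×ˢ V).filter fun h => P (f + C (X * h.1 ^ p + h.2 ^ p))).card) *
              Nat.card F ^ L := Nat.mul_le_mul_right _ hcount
      _ = ∑ f ∈ hBfin.toFinset,
            ((V ×ˢ V).filter fun h => P (f + C (X * h.1 ^ p + h.2 ^ p))).card *
              Nat.card F ^ L := by rw [Finset.sum_mul]
      _ ≤ ∑ _f ∈ hBfin.toFinset, 17 * (2 * g + 1) ^ 3 * Nat.card F ^ (2 * (H + 1)) :=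
          Finset.sum_le_sum hfix
      _ = _ := by rw [Finset.sum_const, smul_eq_mul]
  have hbad : {f | f ∈ BoxW w g n ∧ ∃ ϖ : F[X], ϖ.Monic ∧ Irreducible ϖ ∧
      n < 2 * ϖ.natDegree + E ∧ IrrAt f ϖ}.ncard = (hBfin.toFinset.filter P).card := by
    rw [← Set.ncard_coe_finset]
    congr 1
    ext f
    simp only [Finset.coe_filter, Set.Finite.mem_toFinset, Set.mem_setOf_eq, hPdef]
  have hBc : (BoxW w g n).ncard = hBfin.toFinset.card := Set.ncard_eq_toFinset_card _ hBfin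
  rw [hbad, hBc]
  have hkey : (hBfin.toFinset.filter P).card * Nat.card F ^ L ≤
      hBfin.toFinset.card * (17 * (2 * g + 1) ^ 3) := by
    have hpos : 0 < Nat.card F ^ (2 * (H + 1)) := pow_pos (by omega) _
    apply Nat.le_of_mul_le_mul_right _ hpos
    calc (hBfin.toFinset.filter P).card * Nat.card F ^ L * Nat.card F ^ (2 * (H + 1))
        = (hBfin.toFinset.filter P).card * V.card ^ 2 * Nat.card F ^ L := by
          rw [hVc, ← pow_mul, mul_comm (H + 1) 2]
          ring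
      _ ≤ _ := hsum
      _ = _ := by ring
  have hkeyR : ((hBfin.toFinset.filter P).card : ℝ) * (Nat.card F : ℝ) ^ L ≤
      (hBfin.toFinset.card : ℝ) * (17 * (2 * g + 1 : ℝ) ^ 3) := by
    exact_mod_cast hkey
  have hqL : (17 * (2 * g + 1 : ℝ) ^ 3) ≤ ε * (Nat.card F : ℝ) ^ L := by
    have h1 : (2 : ℝ) ^ T ≤ (Nat.card F : ℝ) ^ L := by
      calc (2 : ℝ) ^ T ≤ (Nat.card F : ℝ) ^ T :=
            pow_le_pow_left₀ (by norm_num) (by exact_mod_cast hq2) T
        _ ≤ (Nat.card F : ℝ) ^ L :=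
            pow_le_pow_right₀ (by exact_mod_cast (by omega : 1 ≤ Nat.card F)) hTL
    have h2 : 17 * (2 * g + 1 : ℝ) ^ 3 < 2 ^ T * ε := by
      rwa [div_lt_iff₀ hε] at hT
    nlinarith
  have hposL : (0 : ℝ) < (Nat.card F : ℝ) ^ L :=
    pow_pos (by exact_mod_cast (by omega : 0 < Nat.card F)) _
  have hBnn : (0 : ℝ) ≤ (hBfin.toFinset.card : ℝ) := Nat.cast_nonneg _
  refine le_of_mul_le_mul_right ?_ hposL
  calc ((hBfin.toFinset.filter P).card : ℝ) * (Nat.card F : ℝ) ^ L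
      ≤ (hBfin.toFinset.card : ℝ) * (17 * (2 * g + 1 : ℝ) ^ 3) := hkeyR
    _ ≤ (hBfin.toFinset.card : ℝ) * (ε * (Nat.card F : ℝ) ^ L) :=
        mul_le_mul_of_nonneg_left hqL hBnn
    _ = ε * (hBfin.toFinset.card : ℝ) * (Nat.card F : ℝ) ^ L := by ring

end Pool.Agent.Helper96.PS
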