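import Pool.Agent.Helper96.PS.SmallMed
import Pool.Agent.Helper96.PS.Large

/-!
# PS-S4: at least `1/3` of the `f` with the local conditions are regular (assembly of part S)

`#{f ∈ BoxW : LocOK} = rho #BoxW` (`card_loc`). If `f` has `LocOK` and is not `Reg`, then `IrrAt f ϖ` for some monic irreducible `ϖ` (`reg_of`): either `2 deg ϖ + 2kD ≤ n` (`small_medium`: at most `11/20 rho #BoxW`), or `n < 2 deg ϖ + 2kD` (`large` with `E = 2kD`, `ε = (9/20 - 1/3) rho > 0`). So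
`#{LocOK, Reg} ≥ (1 - 11/20) rho #BoxW - ε #BoxW = (1/3) rho #BoxW` for large `n`.
-/

namespace Pool.Agent.Helper96.PS

open Polynomial

theorem good_count {F : Type*} [Field F] [Finite F] (h2 : (2 : F) ≠ 0) {g k D : ℕ} (hg : 1 ≤ g)
    {w : F[X]} (hw : w.Monic) (hwd : w.natDegree = 2 * g + 1) (hwi : Irreducible w)
    {π π' : Fin k → F[X]} (hpl : Places k D π π') (hrho : 0 < rho g π π') :
    ∃ n₀ : ℕ, ∀ n, n₀ ≤ n → 1 / 3 * rho g π π' * (BoxW w g n).ncard ≤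
      ({f | f ∈ BoxW w g n ∧ Reg f ∧ LocOK g π π' f}.ncard : ℝ) := by
  obtain ⟨n₀, hn₀⟩ := large hg hw hwd hwi (2 * k * D)
    (ε := (9 / 20 - 1 / 3) * rho g π π') (by positivity)
  refine ⟨max n₀ (2 * k * D), fun n hn => ?_⟩
  have hn1 : n₀ ≤ n := (le_max_left _ _).trans hn
  have hn2 : 2 * k * D ≤ n := (le_max_right _ _).trans hn
  have hL := hn₀ n hn1
  have hS := small_medium h2 (n := n) hg w hpl
  have hA := card_loc (g := g) w hpl hn2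
  have hfin : (BoxW w g n).Finite := (finite_Box (F := F) g n).subset fun f hf => hf.1
  have hsub : {f | f ∈ BoxW w g n ∧ LocOK g π π' f} ⊆
      {f | f ∈ BoxW w g n ∧ Reg f ∧ LocOK g π π' f} ∪
      ({f | f ∈ BoxW w g n ∧ LocOK g π π' f ∧ ∃ ϖ : F[X], ϖ.Monic ∧ Irreducible ϖ ∧
        2 * ϖ.natDegree + 2 * k * D ≤ n ∧ IrrAt f ϖ} ∪
      {f | f ∈ BoxW w g n ∧ ∃ ϖ : F[X], ϖ.Monic ∧ Irreducible ϖ ∧
        n < 2 * ϖ.natDegree + 2 * k * D ∧ IrrAt f ϖ}) := by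
    rintro f ⟨hf, hloc⟩
    by_cases hreg : Reg f
    · exact Or.inl ⟨hf, hreg, hloc⟩
    · right
      have h1 : ¬ ∀ ϖ : F[X], ϖ.Monic → Irreducible ϖ → ¬ IrrAt f ϖ := fun h => hreg (reg_of h)
      push Not at h1
      obtain ⟨ϖ, hm, hi, hirr⟩ := h1
      rcases le_or_gt (2 * ϖ.natDegree + 2 * k * D) n with h3 | h3
      · exact Or.inl ⟨hf, hloc, ϖ, hm, hi, h3, hirr⟩
      · exact Or.inr ⟨hf, ϖ, hm, hi, h3, hirr⟩
  have hle : {f | f ∈ BoxW w g n ∧ LocOK g π π' f}.ncard ≤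
      {f | f ∈ BoxW w g n ∧ Reg f ∧ LocOK g π π' f}.ncard +
      ({f | f ∈ BoxW w g n ∧ LocOK g π π' f ∧ ∃ ϖ : F[X], ϖ.Monic ∧ Irreducible ϖ ∧
        2 * ϖ.natDegree + 2 * k * D ≤ n ∧ IrrAt f ϖ}.ncard +
      {f | f ∈ BoxW w g n ∧ ∃ ϖ : F[X], ϖ.Monic ∧ Irreducible ϖ ∧
        n < 2 * ϖ.natDegree + 2 * k * D ∧ IrrAt f ϖ}.ncard) := by
    refine (Set.ncard_le_ncard hsub ?_).trans ((Set.ncard_union_le _ _).trans ?_)
    · exact (hfin.subset fun f hf => hf.1).union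
        ((hfin.subset fun f hf => hf.1).union (hfin.subset fun f hf => hf.1))
    · exact Nat.add_le_add_left (Set.ncard_union_le _ _) _
  have hle' : ({f | f ∈ BoxW w g n ∧ LocOK g π π' f}.ncard : ℝ) ≤
      ({f | f ∈ BoxW w g n ∧ Reg f ∧ LocOK g π π' f}.ncard : ℝ) +
      (({f | f ∈ BoxW w g n ∧ LocOK g π π' f ∧ ∃ ϖ : F[X], ϖ.Monic ∧ Irreducible ϖ ∧
        2 * ϖ.natDegree + 2 * k * D ≤ n ∧ IrrAt f ϖ}.ncard : ℝ) +
      ({f | f ∈ BoxW w g n ∧ ∃ ϖ : F[X], ϖ.Monic ∧ Irreducible ϖ ∧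
        n < 2 * ϖ.natDegree + 2 * k * D ∧ IrrAt f ϖ}.ncard : ℝ)) := by
    exact_mod_cast hle
  rw [hA] at hle'
  linarith

end Pool.Agent.Helper96.PS
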