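import Pool.Agent.Helper96.PS.ExistsU

/-!
# PS-Z1b: the twist in the larger box, separability

`u` monic of degree `m`, `f ∈ BoxW w g n`: `(f.scaleRoots u).coeff j = f.coeff j * u^{N-j}` has degree `≤ (N-j)(n+m)` with coefficient of `t^{(N-j)(n+m)}` equal to `w_j · 1`. `f ↦ f.scaleRoots u` is injective on monic polynomials of degree `N`.
`tw π π' I` is monic of degree `kD` and nonzero.
`separable`: `w` irreducible over the finite (perfect) field `F`, so `w' ≠ 0`, some `j ≥ 1` with `w_j ≠ 0` and `j ≠ 0` in `F`; so the derivative of `fK f` is nonzero; `fK f` is irreducible (`irreducible_fK`), so separable (`Polynomial.separable_iff_derivative_ne_zero`).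
-/

namespace Pool.Agent.Helper96.PS

open Polynomial

variable {F : Type*} [Field F] {g n : ℕ} {w : F[X]} {f : F[X][X]}

theorem scaleRoots_mem {u : F[X]} (hu : u.Monic) (hf : f ∈ BoxW w g n) :
    f.scaleRoots u ∈ BoxW w g (n + u.natDegree) := by
  obtain ⟨⟨hm, hd, hc⟩, ht⟩ := hf
  have hup : ∀ k : ℕ, (u ^ k).natDegree = k * u.natDegree := fun k => natDegree_pow u k
  have hul : ∀ k : ℕ, (u ^ k).coeff (k * u.natDegree) = 1 := by
    intro k
    rw [← hup k]
    exact (hu.pow k).coeff_natDegree
  refine ⟨⟨(monic_scaleRoots_iff u).2 hm, ?_, ?_⟩, ?_⟩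
  · rw [natDegree_scaleRoots, hd]
  · intro j hj
    rw [coeff_scaleRoots, hd, mul_add]
    refine natDegree_mul_le.trans (Nat.add_le_add (hc j hj) (hup _).le)
  · intro j hj
    rw [coeff_scaleRoots, hd, mul_add, coeff_mul_add_eq_of_natDegree_le (hc j hj) (hup _).le, ht j hj,
      hul, mul_one]

theorem scaleRoots_inj {u : F[X]} (hu : u.Monic) {f f' : F[X][X]} (hf : f ∈ BoxW w g n)
    (hf' : f' ∈ BoxW w g n) (h : f.scaleRoots u = f'.scaleRoots u) : f = f' := by
  obtain ⟨⟨_, hd, _⟩, _⟩ := hf
  obtain ⟨⟨_, hd', _⟩, _⟩ := hf'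
  ext1 j
  have h1 := congrArg (fun q : F[X][X] => q.coeff j) h
  simp only [coeff_scaleRoots, hd, hd'] at h1
  exact mul_right_cancel₀ (pow_ne_zero _ hu.ne_zero) h1

theorem tw_monic {k D : ℕ} {π π' : Fin k → F[X]} (hpl : Places k D π π') (I : Finset (Fin k)) :
    (tw π π' I).Monic ∧ (tw π π' I).natDegree = k * D := by
  have h1 : (∏ i ∈ I, π i).Monic := monic_prod_of_monic _ _ fun i _ => hpl.monic i
  have h2 : (∏ i ∈ Iᶜ, π' i).Monic := monic_prod_of_monic _ _ fun i _ => hpl.monic' i
  refine ⟨h1.mul h2, ?_⟩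
  unfold tw
  rw [h1.natDegree_mul h2, natDegree_prod_of_monic _ _ fun i _ => hpl.monic i,
    natDegree_prod_of_monic _ _ fun i _ => hpl.monic' i, Finset.sum_congr rfl fun i _ => hpl.deg i,
    Finset.sum_congr rfl fun i _ => hpl.deg' i, Finset.sum_const, Finset.sum_const, smul_eq_mul,
    smul_eq_mul, ← add_mul, Finset.card_add_card_compl, Fintype.card_fin]

theorem separable_fK [Finite F] (h : Pre g n w f) : (fK f).Separable := by
  rw [separable_iff_derivative_ne_zero (irreducible_fK h)]
  have hw : w.Separable := PerfectField.separable_of_irreducible h.wirr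
  have hw' : derivative w ≠ 0 := (separable_iff_derivative_ne_zero h.wirr).1 hw
  obtain ⟨j, hj⟩ : ∃ j, (derivative w).coeff j ≠ 0 := by
    by_contra hcon
    push Not at hcon
    exact hw' (Polynomial.ext fun j => by rw [hcon j, coeff_zero])
  rw [coeff_derivative] at hj
  have hwj : w.coeff (j + 1) ≠ 0 := left_ne_zero_of_mul hj
  have hj1 : ((j : F) + 1) ≠ 0 := right_ne_zero_of_mul hj
  have hjle : j + 1 ≤ 2 * g + 1 := by
    rw [← h.wdeg]
    exact le_natDegree_of_ne_zero hwj
  have hfj : f.coeff (j + 1) ≠ 0 := by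
    rcases Nat.lt_or_ge (j + 1) (2 * g + 1) with h1 | h1
    · intro h0
      have h2 := h.mem.2 (j + 1) (by omega)
      rw [h0, coeff_zero] at h2
      exact hwj h2.symm
    · have h2 : j + 1 = f.natDegree := by
        rw [h.natDegree]
        omega
      rw [h2, h.monic.coeff_natDegree]
      exact one_ne_zero
  intro h0
  have h1 := congrArg (fun q : (RatFunc F)[X] => q.coeff j) h0
  simp only [coeff_derivative, coeff_map, coeff_zero] at h1
  rcases mul_eq_zero.1 h1 with h2 | h2
  · rw [FaithfulSMul.algebraMap_eq_zero_iff] at h2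
    exact hfj h2
  · apply hj1
    have h3 : algebraMap F (RatFunc F) ((j : F) + 1) = 0 := by
      rw [map_add, map_natCast, map_one]
      exact h2
    exact (map_eq_zero _).1 h3

end Pool.Agent.Helper96.PS
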