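import Pool.Agent.Helper96.PS.DefsC

/-!
# PS-C12: `y² = u f(x)` and its monic model `y² = f^u(x)`, `f^u(x) = u^N f(x/u)`

`M` a field, `u ∈ M^*`, `f` monic of degree `N = 2g+1`, `f^u = f.scaleRoots u` (`eval`: `f^u(u x) = u^N f(x)`, `Polynomial.scaleRoots_eval₂_mul`). `φ : M[x]/(f^u) → M[x]/(f)`, `θ' ↦ u θ`, is an isomorphism (inverse `θ ↦ u⁻¹ θ'`). It maps `LocIm f^u 1` into `LocIm f u`:
squares to squares; a generator `(-1)^m U'(θ')`, `U'` monic of degree `m`, prime to `f^u`, `U' ∣ V'² - f^u`. Put `U(x) = u^{-m} U'(u x)`: monic of degree `m`, prime to `f`; `U'(ux) ∣ V'(ux)² - u^N f(x)`, so with `V(x) = u^{-g} V'(u x)`: `U ∣ V² - u f`. `φ((-1)^m U'(θ')) = (-1)^m U'(uθ) = (-u)^m U(θ)`.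
Compatibility with base change `K → M`: `(f.scaleRoots u).map φ = (f.map φ).scaleRoots (φ u)` for monic `f` (`Polynomial.map_scaleRoots`, leading coefficient does not vanish), and the two maps `θ' ↦ u θ` commute with `bc`.
-/

namespace Pool.Agent.Helper96.PS

open Polynomial IsDedekindDomain

/-- `U(x) = u^{-m} U'(u x)` -/
private theorem tw_comp {M : Type*} [Field M] (U : M[X]) {u : M} (hu : u ≠ 0) :
    U.comp (C u * X) = C (u ^ U.natDegree) * U.scaleRoots u⁻¹ := by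
  have h := scaleRoots_eval₂_mul (p := U) (C : M →+* M[X]) (C u * X) u⁻¹
  have h1 : (C u⁻¹ : M[X]) * (C u * X) = X := by
    rw [← mul_assoc, ← C_mul, inv_mul_cancel₀ hu, C_1, one_mul]
  rw [h1, eval₂_C_X] at h
  rw [h, ← mul_assoc, ← C_pow, ← C_mul, inv_pow, mul_inv_cancel₀ (pow_ne_zero _ hu), C_1, one_mul]
  rfl

private theorem tw_comp' {M : Type*} [Field M] (f : M[X]) (u : M) :
    (f.scaleRoots u).comp (C u * X) = C (u ^ f.natDegree) * f := by
  have h := scaleRoots_eval₂_mul (p := f) (C : M →+* M[X]) X u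
  rw [eval₂_C_X, ← C_pow] at h
  exact h

/-- `θ' ↦ u θ` -/
theorem exists_twist_iso {M : Type*} [Field M] {f : M[X]} (hf : f.Monic) {u : M} (hu : u ≠ 0) :
    ∃ φ : AdjoinRoot (f.scaleRoots u) ≃+* AdjoinRoot f,
      (∀ c : M, φ (AdjoinRoot.of _ c) = AdjoinRoot.of f c) ∧
      φ (AdjoinRoot.root _) = AdjoinRoot.of f u * AdjoinRoot.root f := by
  have h1 : (f.scaleRoots u).eval₂ (AdjoinRoot.of f) (AdjoinRoot.of f u * AdjoinRoot.root f) = 0 :=
    scaleRoots_eval₂_eq_zero _ (AdjoinRoot.eval₂_root f)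
  have h2 : f.eval₂ (AdjoinRoot.of (f.scaleRoots u))
      (AdjoinRoot.of (f.scaleRoots u) u⁻¹ * AdjoinRoot.root (f.scaleRoots u)) = 0 := by
    have h := scaleRoots_eval₂_eq_zero (s := u⁻¹) _ (AdjoinRoot.eval₂_root (f.scaleRoots u))
    rwa [← scaleRoots_mul, mul_inv_cancel₀ hu, scaleRoots_one] at h
  refine ⟨RingEquiv.ofRingHom (AdjoinRoot.lift _ _ h1) (AdjoinRoot.lift _ _ h2) ?_ ?_, ?_, ?_⟩
  · refine AdjoinRoot.ringHom_ext ?_ ?_
    · ext c
      simp
    · rw [RingHom.comp_apply, AdjoinRoot.lift_root, map_mul, AdjoinRoot.lift_of,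
        AdjoinRoot.lift_root, ← mul_assoc, ← map_mul, inv_mul_cancel₀ hu, map_one, one_mul]
      rfl
  · refine AdjoinRoot.ringHom_ext ?_ ?_
    · ext c
      simp
    · rw [RingHom.comp_apply, AdjoinRoot.lift_root, map_mul, AdjoinRoot.lift_of,
        AdjoinRoot.lift_root, ← mul_assoc, ← map_mul, mul_inv_cancel₀ hu, map_one, one_mul]
      rfl
  · intro c
    exact AdjoinRoot.lift_of h1
  · exact AdjoinRoot.lift_root h1

/-- the core: `ψ : M[x]/(f') → M[x]/(f)`, `θ' ↦ u θ`, with `f'(u x) = u^N f(x)` -/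
private theorem tw_core {M : Type*} [Field M] {f f' : M[X]} {g : ℕ} {u c : M} (hu : u ≠ 0)
    (hc : c = 1) (hf' : f'.comp (C u * X) = C (u ^ (2 * g + 1)) * f)
    {ψ : AdjoinRoot f' →+* AdjoinRoot f}
    (hψ : ∀ c : M, ψ (AdjoinRoot.of _ c) = AdjoinRoot.of f c)
    (hψ' : ψ (AdjoinRoot.root _) = AdjoinRoot.of f u * AdjoinRoot.root f)
    {α : (AdjoinRoot f')ˣ} (hα : α ∈ LocIm f' c) :
    Units.map (ψ : AdjoinRoot f' →* AdjoinRoot f) α ∈ LocIm f u := by
  subst hc
  have hmk : ∀ P : M[X], ψ (AdjoinRoot.mk f' P) = AdjoinRoot.mk f (P.comp (C u * X)) := by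
    intro P
    have e : ψ.comp (AdjoinRoot.mk f') = (AdjoinRoot.mk f).comp (compRingHom (C u * X)) := by
      refine Polynomial.ringHom_ext ?_ ?_
      · intro a
        rw [RingHom.comp_apply, RingHom.comp_apply, coe_compRingHom_apply, C_comp,
          AdjoinRoot.mk_C, AdjoinRoot.mk_C, hψ]
      · rw [RingHom.comp_apply, RingHom.comp_apply, coe_compRingHom_apply, X_comp,
          AdjoinRoot.mk_X, hψ', map_mul, AdjoinRoot.mk_C, AdjoinRoot.mk_X]
    exact RingHom.congr_fun e P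
  have key : LocIm f' 1 ≤ (LocIm f u).comap (Units.map (ψ : AdjoinRoot f' →* AdjoinRoot f)) := by
    rw [LocIm, Subgroup.closure_le]
    rintro a (⟨b, rfl⟩ | ⟨U, V, hU, hco, hdvd, ha⟩)
    · rw [SetLike.mem_coe, Subgroup.mem_comap, map_pow]
      exact Subgroup.subset_closure (Or.inl ⟨_, rfl⟩)
    · rw [SetLike.mem_coe, Subgroup.mem_comap]
      refine Subgroup.subset_closure (Or.inr
        ⟨U.scaleRoots u⁻¹, C (u⁻¹ ^ g) * V.comp (C u * X), ?_, ?_, ?_, ?_⟩)
      · exact (monic_scaleRoots_iff _).2 hU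
      · have h := hco.map (compRingHom (C u * X))
        rw [coe_compRingHom_apply, coe_compRingHom_apply, tw_comp U hu, hf'] at h
        exact (IsCoprime.of_mul_left_right (IsCoprime.of_mul_right_right h))
      · have h : U.comp (C u * X) ∣ (V ^ 2 - C 1 * f').comp (C u * X) := by
          obtain ⟨W, hW⟩ := hdvd
          exact ⟨W.comp (C u * X), by rw [hW, mul_comp]⟩
        rw [tw_comp U hu, C_1, one_mul, sub_comp,
          pow_comp, hf'] at h
        have h3 := (dvd_mul_left _ _).trans h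
        have h4 : (C (u⁻¹ ^ g) * V.comp (C u * X)) ^ 2 - C u * f =
            C (u⁻¹ ^ (2 * g)) * (V.comp (C u * X) ^ 2 - C (u ^ (2 * g + 1)) * f) := by
          have h5 : u⁻¹ ^ (2 * g) * u ^ (2 * g + 1) = u := by
            rw [pow_succ, ← mul_assoc, ← mul_pow, inv_mul_cancel₀ hu, one_pow, one_mul]
          rw [mul_sub, ← mul_assoc (C (u⁻¹ ^ (2 * g))), ← C_mul, h5, mul_pow, ← C_pow, ← pow_mul,
            mul_comm g 2]
        rw [h4]
        exact Dvd.dvd.mul_left h3 _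
      · rw [Units.coe_map, ha, MonoidHom.coe_coe, hmk, mul_comp, C_comp, tw_comp U hu,
          natDegree_scaleRoots, ← mul_assoc, ← C_mul, ← mul_pow, neg_one_mul]
  exact key hα

theorem twist_locIm {M : Type*} [Field M] {f : M[X]} (hf : f.Monic) {g : ℕ}
    (hd : f.natDegree = 2 * g + 1) {u : M} (hu : u ≠ 0)
    {φ : AdjoinRoot (f.scaleRoots u) ≃+* AdjoinRoot f}
    (hφ : ∀ c : M, φ (AdjoinRoot.of _ c) = AdjoinRoot.of f c)
    (hφ' : φ (AdjoinRoot.root _) = AdjoinRoot.of f u * AdjoinRoot.root f)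
    {α : (AdjoinRoot (f.scaleRoots u))ˣ} (hα : α ∈ LocIm (f.scaleRoots u) 1) :
    Units.map (φ : AdjoinRoot (f.scaleRoots u) →* AdjoinRoot f) α ∈ LocIm f u :=
  tw_core (ψ := (φ : AdjoinRoot (f.scaleRoots u) →+* AdjoinRoot f)) hu rfl
    (by rw [tw_comp', hd]) hφ hφ' hα

theorem twist_locSel {K M : Type*} [Field K] [Field M] [Algebra K M] {f : K[X]} (hf : f.Monic)
    {g : ℕ} (hd : f.natDegree = 2 * g + 1) {u : K} (hu : u ≠ 0)
    {φ : AdjoinRoot (f.scaleRoots u) ≃+* AdjoinRoot f}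
    (hφ : ∀ c : K, φ (AdjoinRoot.of _ c) = AdjoinRoot.of f c)
    (hφ' : φ (AdjoinRoot.root _) = AdjoinRoot.of f u * AdjoinRoot.root f)
    {α : (AdjoinRoot (f.scaleRoots u))ˣ} (hα : LocSel M (f.scaleRoots u) 1 α) :
    LocSel M f u (Units.map (φ : AdjoinRoot (f.scaleRoots u) →* AdjoinRoot f) α) := by
  have hm : (f.scaleRoots u).map (algebraMap K M) =
      (f.map (algebraMap K M)).scaleRoots (algebraMap K M u) := by
    refine map_scaleRoots _ _ _ ?_
    rw [hf.leadingCoeff, map_one]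
    exact one_ne_zero
  have hu' : algebraMap K M u ≠ 0 := (_root_.map_ne_zero _).2 hu
  have hz : ((f.scaleRoots u).map (algebraMap K M)).eval₂
      (AdjoinRoot.of (f.map (algebraMap K M)))
      (AdjoinRoot.of (f.map (algebraMap K M)) (algebraMap K M u) *
        AdjoinRoot.root (f.map (algebraMap K M))) = 0 := by
    rw [hm]
    exact scaleRoots_eval₂_eq_zero _ (AdjoinRoot.eval₂_root _)
  have hcore := tw_core (g := g) (f := f.map (algebraMap K M))
    (ψ := AdjoinRoot.lift _ _ hz) hu' (map_one (algebraMap K M))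
    (by rw [hm, tw_comp', natDegree_map, hd]) (fun c => AdjoinRoot.lift_of _)
    (AdjoinRoot.lift_root _) hα
  have hcomm : (AdjoinRoot.lift _ _ hz).comp (AdjoinRoot.map (algebraMap K M) (f.scaleRoots u)
      ((f.scaleRoots u).map (algebraMap K M)) dvd_rfl) =
      (AdjoinRoot.map (algebraMap K M) f (f.map (algebraMap K M)) dvd_rfl).comp
        (φ : AdjoinRoot (f.scaleRoots u) →+* AdjoinRoot f) := by
    refine AdjoinRoot.ringHom_ext ?_ ?_
    · ext c
      rw [RingHom.comp_apply, RingHom.comp_apply, RingHom.comp_apply, RingHom.comp_apply,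
        AdjoinRoot.map_of, AdjoinRoot.lift_of, RingEquiv.coe_toRingHom, hφ, AdjoinRoot.map_of]
    · rw [RingHom.comp_apply, RingHom.comp_apply, AdjoinRoot.map_root, AdjoinRoot.lift_root,
        RingEquiv.coe_toRingHom, hφ', map_mul, AdjoinRoot.map_of, AdjoinRoot.map_root]
  have heq : bc M f (Units.map (φ : AdjoinRoot (f.scaleRoots u) →* AdjoinRoot f) α) =
      Units.map ((AdjoinRoot.lift _ _ hz : _ →+* _) : _ →* _) (bc M (f.scaleRoots u) α) := by
    refine Units.ext ?_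
    exact (RingHom.congr_fun hcomm (α : AdjoinRoot (f.scaleRoots u))).symm
  rw [LocSel, heq]
  exact hcore

end Pool.Agent.Helper96.PS
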