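import Pool.Agent.Helper96.PS.SelToTw
import Pool.Agent.Helper96.PS.TwistIso

/-!
# PS-C14: triviality of the 2-Selmer group of the twist

`f` good, `u ∈ A` nonzero, every `α` with `TwSel g f u α` is a square. Then `TrivialSelmer (f.scaleRoots u)`.
Proof. `fK (f.scaleRoots u) = (fK f).scaleRoots u` (`f` monic). Let `α' ∈ (K[x]/(f^u))^*` with `IsSel (f^u) 1 α'`. `φ : K[x]/(f^u) ≅ K[x]/(f)` (`exists_twist_iso`), `α₁ = φ(α')`: `IsSel (fK f) u α₁` (`twist_locSel` at all places, incl. infinity). Every element of `K[x]/(f)` is `a/s`, `a ∈ O`, `0 ≠ s ∈ A`; so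
`α₂ = s² α₁` is the image of an element `α ∈ O` (`α = s a`), `α ≠ 0`, and `IsSel (fK f) u α₂` (`LocIm` contains the squares; `bc` is a homomorphism). `twSel_of_isSel`: `TwSel g f u α`, so `α` is a square in `O`, `α₂` is a square, so `α₁`, so `α'`.
-/

namespace Pool.Agent.Helper96.PS

open Polynomial IsDedekindDomain

variable {F : Type*} [Field F] {g n : ℕ} {w : F[X]} {f : F[X][X]}

private theorem to_toK (f Q : F[X][X]) :
    toK f (AdjoinRoot.mk f Q) =
      AdjoinRoot.mk (fK f) (Q.map (algebraMap F[X] (RatFunc F))) := by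
  have h : (toK f).comp (AdjoinRoot.mk f) = (AdjoinRoot.mk (fK f)).comp
      (Polynomial.mapRingHom (algebraMap F[X] (RatFunc F))) := by
    apply Polynomial.ringHom_ext
    · intro a
      rw [RingHom.comp_apply, RingHom.comp_apply, AdjoinRoot.mk_C, Polynomial.coe_mapRingHom,
        Polynomial.map_C, AdjoinRoot.mk_C]
      unfold toK
      rw [AdjoinRoot.map_of]
    · rw [RingHom.comp_apply, RingHom.comp_apply, AdjoinRoot.mk_X, Polynomial.coe_mapRingHom,
        Polynomial.map_X, AdjoinRoot.mk_X]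
      unfold toK
      rw [AdjoinRoot.map_root]
  exact RingHom.congr_fun h Q

/-- `s² a₁` is the image of an element of `O` -/
private theorem to_exists (f : F[X][X]) (a₁ : AdjoinRoot (fK f)) :
    ∃ (s : F[X]) (α : AdjoinRoot f), s ≠ 0 ∧
      toK f α = AdjoinRoot.of (fK f) (algebraMap F[X] (RatFunc F) s) ^ 2 * a₁ := by
  obtain ⟨P, rfl⟩ := AdjoinRoot.mk_surjective a₁
  obtain ⟨b, hbm, hb⟩ := IsLocalization.integerNormalization_spec (nonZeroDivisors F[X]) P
  have hb2 : b • P = C (algebraMap F[X] (RatFunc F) b) * P := by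
    ext i
    rw [Polynomial.coeff_smul, Polynomial.coeff_C_mul, Algebra.smul_def]
  refine ⟨b, AdjoinRoot.mk f (C b *
    IsLocalization.integerNormalization (nonZeroDivisors F[X]) P),
    nonZeroDivisors.ne_zero hbm, ?_⟩
  rw [to_toK, Polynomial.map_mul, Polynomial.map_C, hb, hb2, map_mul, map_mul, AdjoinRoot.mk_C,
    sq, mul_assoc]

private theorem to_locIm {M : Type*} [Field M] {f : M[X]} {c : M} (a b : (AdjoinRoot f)ˣ)
    (hb : b ∈ LocIm f c) : a ^ 2 * b ∈ LocIm f c :=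
  Subgroup.mul_mem _ (Subgroup.subset_closure (Or.inl ⟨a, rfl⟩)) hb

private theorem to_locSel {K M : Type*} [Field K] [Field M] [Algebra K M] {f : K[X]} {c : K}
    (a b : (AdjoinRoot f)ˣ) (hb : LocSel M f c b) : LocSel M f c (a ^ 2 * b) := by
  unfold LocSel at *
  rw [map_mul, map_pow]
  exact to_locIm _ _ hb

private theorem to_key (h2 : (2 : F) ≠ 0) (h : Good g n w f) {u : F[X]} (hu : u ≠ 0)
    (H : ∀ α, TwSel g f u α → IsSquare α) (f₁ : (RatFunc F)[X])
    (hf₁ : f₁ = (fK f).scaleRoots (algebraMap F[X] (RatFunc F) u)) (α' : (AdjoinRoot f₁)ˣ)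
    (hα' : IsSel f₁ 1 α') : ∃ β, α' = β ^ 2 := by
  subst hf₁
  have huK : algebraMap F[X] (RatFunc F) u ≠ 0 := by
    rw [Ne, FaithfulSMul.algebraMap_eq_zero_iff]
    exact hu
  have hm : (fK f).Monic := h.toPre.monic.map _
  have hd : (fK f).natDegree = 2 * g + 1 := by
    rw [fK, h.toPre.monic.natDegree_map]
    exact h.toPre.natDegree
  obtain ⟨φ, hφ, hφ'⟩ := exists_twist_iso hm huK
  obtain ⟨α₁, hα₁⟩ : ∃ α₁, α₁ = Units.map
    (φ : AdjoinRoot ((fK f).scaleRoots (algebraMap F[X] (RatFunc F) u)) →* AdjoinRoot (fK f)) α' :=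
    ⟨_, rfl⟩
  have hs1 : IsSel (fK f) (algebraMap F[X] (RatFunc F) u) α₁ := by
    rw [hα₁]
    exact ⟨fun v => twist_locSel hm hd huK hφ hφ' (hα'.1 v),
      twist_locSel hm hd huK hφ hφ' hα'.2⟩
  obtain ⟨s, α, hs, hα⟩ := to_exists f (α₁ : AdjoinRoot (fK f))
  have hsK : algebraMap F[X] (RatFunc F) s ≠ 0 := by
    rw [Ne, FaithfulSMul.algebraMap_eq_zero_iff]
    exact hs
  obtain ⟨sU, hsU⟩ : ∃ sU : (AdjoinRoot (fK f))ˣ, (sU : AdjoinRoot (fK f)) =
      AdjoinRoot.of (fK f) (algebraMap F[X] (RatFunc F) s) :=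
    ⟨Units.map (AdjoinRoot.of (fK f)).toMonoidHom (Units.mk0 _ hsK), rfl⟩
  have hαK : ((sU ^ 2 * α₁ : (AdjoinRoot (fK f))ˣ) : AdjoinRoot (fK f)) = toK f α := by
    rw [hα, Units.val_mul, Units.val_pow_eq_pow_val, hsU]
  have hs2 : IsSel (fK f) (algebraMap F[X] (RatFunc F) u) (sU ^ 2 * α₁) :=
    ⟨fun v => to_locSel _ _ (hs1.1 v), to_locSel _ _ hs1.2⟩
  have hnt : Nontrivial (AdjoinRoot (fK f)) := by
    refine AdjoinRoot.nontrivial _ ?_
    rw [Polynomial.degree_eq_natDegree hm.ne_zero, hd]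
    exact_mod_cast (Nat.succ_ne_zero (2 * g))
  have hα0 : α ≠ 0 := by
    intro h0
    rw [h0, map_zero] at hαK
    exact (sU ^ 2 * α₁).ne_zero hαK
  obtain ⟨r, hr⟩ := H α (twSel_of_isSel h2 h hu hα0 hαK hs2)
  have hr2 : toK f r * toK f r = ((sU ^ 2 * α₁ : (AdjoinRoot (fK f))ˣ) : AdjoinRoot (fK f)) := by
    rw [hαK, ← map_mul, ← hr]
  have hru : IsUnit (toK f r) := by
    refine isUnit_of_mul_isUnit_left (y := toK f r) ?_
    rw [hr2]
    exact (sU ^ 2 * α₁).isUnit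
  obtain ⟨ρ, hρ⟩ := hru
  have hρ2 : α₁ = (sU⁻¹ * ρ) ^ 2 := by
    have h3 : ρ * ρ = sU ^ 2 * α₁ := by
      apply Units.ext
      rw [Units.val_mul, hρ, hr2]
    rw [mul_pow, sq ρ, h3, ← mul_assoc, ← mul_pow, inv_mul_cancel, one_pow, one_mul]
  refine ⟨Units.map (φ.symm : AdjoinRoot (fK f) →*
    AdjoinRoot ((fK f).scaleRoots (algebraMap F[X] (RatFunc F) u))) (sU⁻¹ * ρ), ?_⟩
  rw [← map_pow, ← hρ2, hα₁]
  apply Units.ext
  simp

theorem trivialSelmer_scaleRoots (h2 : (2 : F) ≠ 0) (h : Good g n w f) {u : F[X]} (hu : u ≠ 0)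
    (H : ∀ α, TwSel g f u α → IsSquare α) : TrivialSelmer (f.scaleRoots u) := by
  intro α' hα'
  refine to_key h2 h hu H _ ?_ α' hα'
  refine Polynomial.map_scaleRoots f u _ ?_
  rw [h.toPre.monic.leadingCoeff, map_one]
  exact one_ne_zero

end Pool.Agent.Helper96.PS
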