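import Pool.Agent.Helper96.PS.BadCount
import Pool.Agent.Helper96.PS.GoodCount
import Pool.Agent.Helper96.PS.ExistPl
import Pool.Agent.Helper96.PS.ScaleBox
import Pool.Agent.Helper96.PS.TrivialOf

/-!
# PS-Z2: the theorem

`M, Q₀` from `bad_count`; `k` with `M (3/4)^k ≤ 1/6`; `D ≥ 1` with `Q₀ ≤ q^D` and `Places k D π π'` (`exists_places`); `rho > 0`; `w` monic irreducible of degree `2g+1`. For `n ≥ n₁`: `#{f ∈ BoxW w g n : Reg, LocOK, ¬ BadStrict} ≥ (1/3 - 1/6) rho #BoxW`. For such `f` (`Good g n w f`, `n ≥ 1`): `exists_u`: `I`, `u = tw π π' I`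
monic of degree `kD`, every `α` with `TwSel g f u α` is a square; `trivialSelmer_scaleRoots`: `TrivialSelmer (f.scaleRoots u)`; `f.scaleRoots u ∈ BoxW w g (n + kD) ⊆ Box F g (n + kD)`, `separable_fK`. The map `f ↦ (I, f.scaleRoots u)` is injective, so `#target (n + kD) ≥ (1/6) rho #BoxW(n)/2^k`, and
`#BoxW w g n = q^{n(g+1)(2g+1)}`, `#Box F g (n+kD) = q^{(n+kD)(g+1)(2g+1) + 2g+1}`: `c = (1/6) rho 2^{-k} q^{-kD(g+1)(2g+1) - (2g+1)}`.
-/

namespace Pool.Agent.Helper96.PS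

open Polynomial

private theorem fi_good {F : Type*} [Field F] {g n : ℕ} {w : F[X]} (hg : 1 ≤ g) (hw : w.Monic)
    (hwd : w.natDegree = 2 * g + 1) (hwi : Irreducible w) (hn : 1 ≤ n) {f : F[X][X]}
    (hf : f ∈ BoxW w g n) (hr : Reg f) : Good g n w f :=
  { hg := hg, mem := hf, wm := hw, wdeg := hwd, wirr := hwi, hn := hn, reg := hr }

/-- the injection into the pairs (set of places, twist) -/
private theorem fi_inj {F : Type*} [Field F] [Finite F] (h2 : (2 : F) ≠ 0) {g k D n : ℕ}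
    (hg : 1 ≤ g) {w : F[X]} (hw : w.Monic) (hwd : w.natDegree = 2 * g + 1) (hwi : Irreducible w)
    {π π' : Fin k → F[X]} (hpl : Places k D π π') (hn : 1 ≤ n) :
    {f | f ∈ BoxW w g n ∧ Reg f ∧ LocOK g π π' f ∧ ¬ BadStrict g π f}.ncard ≤
      2 ^ k * {f | f ∈ Box F g (n + k * D) ∧ (fK f).Separable ∧ TrivialSelmer f}.ncard := by
  classical
  have hex : ∀ f : F[X][X], ∃ I : Finset (Fin k),
      f ∈ {f | f ∈ BoxW w g n ∧ Reg f ∧ LocOK g π π' f ∧ ¬ BadStrict g π f} →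
        ∀ α, TwSel g f (tw π π' I) α → IsSquare α := by
    intro f
    by_cases hf : f ∈ {f | f ∈ BoxW w g n ∧ Reg f ∧ LocOK g π π' f ∧ ¬ BadStrict g π f}
    · obtain ⟨I, hI⟩ := exists_u h2 (fi_good hg hw hwd hwi hn hf.1 hf.2.1) hpl hf.2.2.1 hf.2.2.2
      exact ⟨I, fun _ => hI⟩
    · exact ⟨∅, fun h => absurd h hf⟩
  choose I hI using hex
  have hfin : {f | f ∈ Box F g (n + k * D) ∧ (fK f).Separable ∧ TrivialSelmer f}.Finite :=
    (finite_Box g (n + k * D)).subset fun f hf => hf.1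
  have h1 := Set.ncard_le_ncard_of_injOn
    (s := {f | f ∈ BoxW w g n ∧ Reg f ∧ LocOK g π π' f ∧ ¬ BadStrict g π f})
    (t := (Set.univ : Set (Finset (Fin k))) ×ˢ
      {f | f ∈ Box F g (n + k * D) ∧ (fK f).Separable ∧ TrivialSelmer f})
    (fun f => (I f, f.scaleRoots (tw π π' (I f)))) (by
      intro f hf
      have hgood := fi_good hg hw hwd hwi hn hf.1 hf.2.1
      obtain ⟨hm, hd⟩ := tw_monic hpl (I f)
      have hmem := scaleRoots_mem hm hf.1
      rw [hd] at hmem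
      have hpre : Pre g (n + k * D) w (f.scaleRoots (tw π π' (I f))) :=
        { hg := hg, mem := hmem, wm := hw, wdeg := hwd, wirr := hwi }
      exact ⟨Set.mem_univ _, hmem.1, separable_fK hpre,
        trivialSelmer_scaleRoots h2 hgood hm.ne_zero (hI f hf)⟩) (by
      intro f hf f' hf' hff
      have h3 : I f = I f' := congrArg Prod.fst hff
      have h4 : f.scaleRoots (tw π π' (I f)) = f'.scaleRoots (tw π π' (I f')) :=
        congrArg Prod.snd hff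
      rw [← h3] at h4
      exact scaleRoots_inj (tw_monic hpl (I f)).1 hf.1 hf'.1 h4)
    (Set.finite_univ.prod hfin)
  rw [Set.ncard_prod, Set.ncard_univ, Nat.card_eq_fintype_card, Fintype.card_finset,
    Fintype.card_fin] at h1
  exact h1

theorem main (F : Type*) [Field F] [Finite F] (h2 : (2 : F) ≠ 0) {g : ℕ} (hg : 1 ≤ g) :
    ∃ c : ℝ, 0 < c ∧ ∃ n₀ : ℕ, ∀ n, n₀ ≤ n → c * (Box F g n).ncard ≤
      ({f | f ∈ Box F g n ∧ (fK f).Separable ∧ TrivialSelmer f}.ncard : ℝ) := by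
  obtain ⟨M, hM, Q₀, hbad⟩ := bad_count F h2 hg
  obtain ⟨k, hk⟩ := exists_pow_lt_of_lt_one (show (0 : ℝ) < 1 / (6 * M) by positivity)
    (show (3 / 4 : ℝ) < 1 by norm_num)
  have hq : 1 < Nat.card F := Finite.one_lt_card
  obtain ⟨D, hD, π, π', hpl⟩ := exists_places F k (max 1 Q₀)
  have hD1 : 1 ≤ D := le_trans (le_max_left _ _) hD
  have hDQ : Q₀ ≤ Nat.card F ^ D :=
    (le_trans (le_max_right _ _) hD).trans (Nat.lt_pow_self hq).le
  have hrho : 0 < rho g π π' := rho_pos hg hD1 hpl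
  obtain ⟨w, hw, hwi, hwd⟩ := exists_irr F (m := 2 * g + 1) (by omega)
  obtain ⟨n₁, hn₁⟩ := hbad k D π π' hpl hDQ hrho w hw hwd hwi
  obtain ⟨n₂, hn₂⟩ := good_count h2 hg hw hwd hwi hpl hrho
  obtain ⟨e, he⟩ : ∃ e : ℕ, e = (g + 1) * (2 * g + 1) := ⟨_, rfl⟩
  have hqp : (0 : ℝ) < (Nat.card F : ℝ) := by exact_mod_cast (by omega : 0 < Nat.card F)
  refine ⟨rho g π π' / 6 / 2 ^ k / (Nat.card F : ℝ) ^ (k * D * e + (2 * g + 1)), by positivity,
    max (max n₁ n₂) 1 + k * D, fun n hn => ?_⟩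
  obtain ⟨m, rfl⟩ : ∃ m, n = m + k * D := ⟨n - k * D, by omega⟩
  have hm1 : n₁ ≤ m := by
    have := le_max_left n₁ n₂
    have := le_max_left (max n₁ n₂) 1
    omega
  have hm2 : n₂ ≤ m := by
    have := le_max_right n₁ n₂
    have := le_max_left (max n₁ n₂) 1
    omega
  have hm3 : 1 ≤ m := by
    have := le_max_right (max n₁ n₂) 1
    omega
  have hB := hn₁ m hm1
  have hG := hn₂ m hm2
  have hfinW : (BoxW w g m).Finite := (finite_Box g m).subset fun f hf => hf.1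
  have hcard : ({f | f ∈ BoxW w g m ∧ Reg f ∧ LocOK g π π' f}.ncard : ℝ) ≤
      ({f | f ∈ BoxW w g m ∧ Reg f ∧ LocOK g π π' f ∧ ¬ BadStrict g π f}.ncard : ℝ) +
      ({f | f ∈ BoxW w g m ∧ Reg f ∧ LocOK g π π' f ∧ BadStrict g π f}.ncard : ℝ) := by
    have h3 : {f | f ∈ BoxW w g m ∧ Reg f ∧ LocOK g π π' f} ⊆
        {f | f ∈ BoxW w g m ∧ Reg f ∧ LocOK g π π' f ∧ ¬ BadStrict g π f} ∪
        {f | f ∈ BoxW w g m ∧ Reg f ∧ LocOK g π π' f ∧ BadStrict g π f} := by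
      intro f hf
      by_cases hb : BadStrict g π f
      · exact Or.inr ⟨hf.1, hf.2.1, hf.2.2, hb⟩
      · exact Or.inl ⟨hf.1, hf.2.1, hf.2.2, hb⟩
    have h4 := (Set.ncard_le_ncard h3 ((hfinW.subset fun f hf => hf.1).union
      (hfinW.subset fun f hf => hf.1))).trans (Set.ncard_union_le _ _)
    exact_mod_cast h4
  have hI := fi_inj (n := m) h2 hg hw hwd hwi hpl hm3
  have hI' : ({f | f ∈ BoxW w g m ∧ Reg f ∧ LocOK g π π' f ∧ ¬ BadStrict g π f}.ncard : ℝ) ≤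
      2 ^ k * ({f | f ∈ Box F g (m + k * D) ∧ (fK f).Separable ∧ TrivialSelmer f}.ncard : ℝ) := by
    exact_mod_cast hI
  have hWc : ((BoxW w g m).ncard : ℝ) = (Nat.card F : ℝ) ^ (m * e) := by
    rw [card_BoxW, he]
    push_cast
    rfl
  have hBc : ((Box F g (m + k * D)).ncard : ℝ) =
      (Nat.card F : ℝ) ^ (m * e) * (Nat.card F : ℝ) ^ (k * D * e + (2 * g + 1)) := by
    rw [card_Box, ← he, ← pow_add]
    push_cast
    congr 1
    ring
  have hMk : M * (3 / 4) ^ k ≤ 1 / 6 := by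
    have h3 : M * (3 / 4 : ℝ) ^ k ≤ M * (1 / (6 * M)) := mul_le_mul_of_nonneg_left hk.le hM.le
    have h4 : M * (1 / (6 * M)) = 1 / 6 := by
      field_simp
    linarith
  have hW0 : (0 : ℝ) ≤ rho g π π' * ((BoxW w g m).ncard : ℝ) := by positivity
  have hB2 : M * (3 / 4) ^ k * rho g π π' * ((BoxW w g m).ncard : ℝ) ≤
      1 / 6 * (rho g π π' * ((BoxW w g m).ncard : ℝ)) := by
    rw [mul_assoc (M * (3 / 4) ^ k)]
    exact mul_le_mul_of_nonneg_right hMk hW0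
  have hfinal : rho g π π' / 6 * (Nat.card F : ℝ) ^ (m * e) ≤ 2 ^ k *
      ({f | f ∈ Box F g (m + k * D) ∧ (fK f).Separable ∧ TrivialSelmer f}.ncard : ℝ) := by
    rw [← hWc]
    linarith
  rw [hBc]
  have hqn : (Nat.card F : ℝ) ^ (k * D * e + (2 * g + 1)) ≠ 0 := pow_ne_zero _ hqp.ne'
  calc rho g π π' / 6 / 2 ^ k / (Nat.card F : ℝ) ^ (k * D * e + (2 * g + 1)) *
        ((Nat.card F : ℝ) ^ (m * e) * (Nat.card F : ℝ) ^ (k * D * e + (2 * g + 1)))
      = (rho g π π' / 6 * (Nat.card F : ℝ) ^ (m * e)) / 2 ^ k := by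
        field_simp
    _ ≤ _ := by
        rw [div_le_iff₀ (by positivity)]
        linarith

end Pool.Agent.Helper96.PS
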