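import Mathlib

/-!
# PS-T3a: two Lagrangians give an even number of nonsquares

`E = ∏ κ_i` (finite extension fields of the finite field `F`, `2 ≠ 0`), `ψ : E → F` linear with nondegenerate `ψ(ab)`, `ρ = (ρ_i)` a unit.
If `ψ(ab)` and `ψ(ρab)` both have isotropic subspaces of dimension `½ dim E` then the number of `i` with `ρ_i` a nonsquare is even.

Proof. (1) Let `β` be a nondegenerate symmetric bilinear form on an `F`-space of dimension `2m` with Gram matrix `G` in some basis, with an isotropic subspace `W` of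
dimension `m`. Then `(-1)^m det G` is a square in `F`: extend a basis of `W` to a basis of the space: the Gram matrix is `[[0, M], [Mᵀ, D]]`, with determinant
`(-1)^m (det M)²`; change of basis multiplies `det` by a square.
(2) Basis `b` of `E`, `G_1 = ψ(b_i b_j)`, `G_2 = ψ(ρ b_i b_j) = G_1 R`, `R` the matrix of multiplication by `ρ`. By (1) `(-1)^m det G_1`, `(-1)^m det G_2` are
nonzero squares, so `det R = N_{E/F}(ρ) = ∏ N_{κ_i/F}(ρ_i)` is a nonzero square.
(3) `χ_F(N_{κ/F}(c)) = χ_κ(c)` for `c ∈ κ^*`, `#κ = q^r`: `N(c) = c^{(q^r-1)/(q-1)}` (`FiniteField.algebraMap_norm_eq_pow` or product of Frobenius conjugates), so `N(c)^{(q-1)/2} = c^{(q^r-1)/2}`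
and Euler's criterion. So `∏ χ_{κ_i}(ρ_i) = 1`: the number of nonsquares is even.
If `dim E` is odd there is no such subspace (`2 dim W = dim E`).
-/

namespace Pool.Agent.Helper96.PS

private theorem gram_det {F V : Type*} [Field F] [AddCommGroup V] [Module F V]
    [Module.Finite F V] (B : LinearMap.BilinForm F V) (hs : ∀ a b, B a b = B b a)
    (W : Submodule F V) (m : ℕ) (hW : Module.finrank F W = m) (hV : Module.finrank F V = 2 * m)
    (iso : ∀ a ∈ W, ∀ b ∈ W, B a b = 0) (b : Module.Basis (Fin m ⊕ Fin m) F V) :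
    ∃ t : F, (LinearMap.BilinForm.toMatrix b B).det =
      (Matrix.fromBlocks 0 1 1 0 : Matrix (Fin m ⊕ Fin m) (Fin m ⊕ Fin m) F).det * (t * t) := by
  obtain ⟨U, hU⟩ := Submodule.exists_isCompl W
  have hUf : Module.finrank F U = m := by
    have := Submodule.finrank_add_eq_of_isCompl hU
    omega
  let w : Module.Basis (Fin m) F W := Module.finBasisOfFinrankEq F W hW
  let u : Module.Basis (Fin m) F U := Module.finBasisOfFinrankEq F U hUf
  let c : Module.Basis (Fin m ⊕ Fin m) F V := (w.prod u).map (Submodule.prodEquivOfIsCompl W U hU)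
  have hcl : ∀ i, c (Sum.inl i) = w i := fun i => by
    simp [c]
  have hcr : ∀ i, c (Sum.inr i) = u i := fun i => by
    simp [c]
  set M : Matrix (Fin m) (Fin m) F := Matrix.of fun i j => B (w i) (u j) with hM
  set D : Matrix (Fin m) (Fin m) F := Matrix.of fun i j => B (u i) (u j) with hD
  have hG : LinearMap.BilinForm.toMatrix c B = Matrix.fromBlocks 0 M M.transpose D := by
    ext i j
    rw [LinearMap.BilinForm.toMatrix_apply]
    rcases i with i | i <;> rcases j with j | j
    · rw [hcl, hcl, Matrix.fromBlocks_apply₁₁]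
      exact iso _ (w i).2 _ (w j).2
    · rw [hcl, hcr, Matrix.fromBlocks_apply₁₂]
      rfl
    · rw [hcr, hcl, Matrix.fromBlocks_apply₂₁, hs]
      rfl
    · rw [hcr, hcr, Matrix.fromBlocks_apply₂₂]
      rfl
  set S : Matrix (Fin m ⊕ Fin m) (Fin m ⊕ Fin m) F := Matrix.fromBlocks 0 1 1 0 with hS
  have h1 : (LinearMap.BilinForm.toMatrix c B).det * S.det = M.det * M.det := by
    rw [hG, ← Matrix.det_mul, hS, Matrix.fromBlocks_multiply]
    simp only [Matrix.mul_one, zero_add, Matrix.mul_zero, add_zero]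
    rw [Matrix.det_fromBlocks_zero₁₂, Matrix.det_transpose]
  have h2 : S.det * S.det = 1 := by
    rw [← Matrix.det_mul, hS, Matrix.fromBlocks_multiply]
    simp
  refine ⟨(c.toMatrix b).det * M.det, ?_⟩
  rw [← LinearMap.BilinForm.toMatrix_mul_basis_toMatrix c b B, Matrix.det_mul, Matrix.det_mul,
    Matrix.det_transpose]
  have h3 : (LinearMap.BilinForm.toMatrix c B).det = S.det * (M.det * M.det) := by
    rw [← h1, mul_comm _ S.det, ← mul_assoc, h2, one_mul]
  rw [h3]
  ring

private theorem det_bd {F : Type*} [Field F] {ι : Type*} [Fintype ι] [hd : DecidableEq ι]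
    {n : ι → ℕ} (A : ∀ i, Matrix (Fin (n i)) (Fin (n i)) F) :
    (Matrix.blockDiagonal' A).det = ∏ i, (A i).det := by
  let _ : LinearOrder ι := LinearOrder.lift' (Fintype.equivFin ι) (Fintype.equivFin ι).injective
  have h2 := (Matrix.blockTriangular_blockDiagonal' A).det_fintype
  refine Eq.trans ?_ (h2.trans ?_)
  · congr!
  refine Finset.prod_congr rfl fun i _ => ?_
  rw [← Matrix.det_submatrix_equiv_self (Equiv.sigmaSubtype i).symm]
  congr 1
  ext s t
  rw [Matrix.submatrix_apply, Matrix.toSquareBlock_def, Matrix.of_apply]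
  exact Matrix.blockDiagonal'_apply_eq _ _ _ _

private theorem norm_pi {F : Type*} [Field F] {ι : Type*} [Fintype ι] (κ : ι → Type*)
    [∀ i, Field (κ i)] [∀ i, Algebra F (κ i)] [∀ i, Module.Finite F (κ i)] (ρ : ∀ i, κ i) :
    Algebra.norm F ρ = ∏ i, Algebra.norm F (ρ i) := by
  classical
  let b : ∀ i, Module.Basis (Fin (Module.finrank F (κ i))) F (κ i) := fun i => Module.finBasis F (κ i)
  have h : Algebra.leftMulMatrix (Pi.basis b) ρ =
      Matrix.blockDiagonal' (fun i => Algebra.leftMulMatrix (b i) (ρ i)) := by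
    ext ⟨i, s⟩ ⟨j, t⟩
    rw [Algebra.leftMulMatrix_eq_repr_mul, Pi.basis_repr, Pi.basis_apply]
    by_cases hij : i = j
    · subst hij
      rw [Matrix.blockDiagonal'_apply_eq, Algebra.leftMulMatrix_eq_repr_mul]
      simp
    · rw [Matrix.blockDiagonal'_apply_ne _ _ _ hij]
      simp [Pi.single_eq_of_ne hij]
  rw [Algebra.norm_eq_matrix_det (Pi.basis b), h, det_bd]
  refine Finset.prod_congr rfl fun i _ => ?_
  rw [Algebra.norm_eq_matrix_det (b i)]

private theorem ringChar_ne {F : Type*} [Field F] (h2 : (2 : F) ≠ 0) : ringChar F ≠ 2 := by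
  intro h
  apply h2
  have := ringChar.Nat.cast_ringChar (R := F)
  rw [h] at this
  exact_mod_cast this

theorem isSquare_norm_iff {F κ : Type*} [Field F] [Finite F] [Field κ] [Algebra F κ]
    [Module.Finite F κ] (h2 : (2 : F) ≠ 0) (c : κ) : IsSquare (Algebra.norm F c) ↔ IsSquare c := by
  have h2' : (2 : κ) ≠ 0 := by
    intro h
    apply h2
    apply (algebraMap F κ).injective
    rw [map_ofNat, h, map_zero]
  rcases eq_or_ne c 0 with rfl | hc
  · rw [Algebra.norm_zero]
    exact iff_of_true ⟨0, by simp⟩ ⟨0, by simp⟩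
  have hκ : Finite κ := Module.finite_of_finite F
  have := Fintype.ofFinite F
  have := Fintype.ofFinite κ
  have hN : Algebra.norm F c ≠ 0 := (Algebra.norm_ne_zero_iff).2 hc
  rw [FiniteField.isSquare_iff (ringChar_ne h2) hN, FiniteField.isSquare_iff (ringChar_ne h2') hc]
  have h3 := FiniteField.algebraMap_norm_eq_pow (K := F) (K' := κ) (x := c)
  rw [Nat.card_eq_fintype_card, Nat.card_eq_fintype_card] at h3
  have hF := FiniteField.odd_card_of_char_ne_two (ringChar_ne h2)
  have hK := FiniteField.odd_card_of_char_ne_two (ringChar_ne h2')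
  have hd : (Fintype.card F - 1) ∣ (Fintype.card κ - 1) := by
    rw [Module.card_eq_pow_finrank (K := F) (V := κ)]
    exact Nat.sub_one_dvd_pow_sub_one _ _
  have h4 : (Fintype.card κ - 1) / (Fintype.card F - 1) * (Fintype.card F / 2) = Fintype.card κ / 2 := by
    obtain ⟨e, he⟩ := hd
    have hF1 : 0 < Fintype.card F - 1 := by
      have := Fintype.one_lt_card (α := F)
      omega
    rw [he, Nat.mul_div_cancel_left _ hF1]
    have h5 : Fintype.card F / 2 * 2 = Fintype.card F - 1 := by omega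
    have h6 : Fintype.card κ / 2 * 2 = Fintype.card κ - 1 := by omega
    have h7 : e * (Fintype.card F / 2) * 2 = Fintype.card κ / 2 * 2 := by
      rw [h6, he, mul_assoc, h5, mul_comm]
    omega
  rw [← (algebraMap F κ).injective.eq_iff, map_pow, h3, ← pow_mul, h4, map_one]

theorem even_nonsquares {F : Type*} [Field F] [Finite F] (h2 : (2 : F) ≠ 0) {ι : Type*} [Fintype ι]
    [DecidableEq ι] (κ : ι → Type*) [∀ i, Field (κ i)] [∀ i, Algebra F (κ i)]
    [∀ i, Module.Finite F (κ i)] (ψ : (∀ i, κ i) →ₗ[F] F)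
    (hψ : ∀ a, (∀ b, ψ (a * b) = 0) → a = 0) (ρ : ∀ i, κ i) (hρ : ∀ i, ρ i ≠ 0)
    (W₁ W₂ : Submodule F (∀ i, κ i))
    (hW₁ : 2 * Module.finrank F W₁ = Module.finrank F (∀ i, κ i))
    (hW₂ : 2 * Module.finrank F W₂ = Module.finrank F (∀ i, κ i))
    (iso₁ : ∀ a ∈ W₁, ∀ b ∈ W₁, ψ (a * b) = 0) (iso₂ : ∀ a ∈ W₂, ∀ b ∈ W₂, ψ (ρ * (a * b)) = 0) :
    Even {i | ¬ IsSquare (ρ i)}.ncard := by
  classical
  have := Fintype.ofFinite F
  have hV : Module.finrank F (∀ i, κ i) = 2 * Module.finrank F W₁ := hW₁.symm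
  have hW21 : Module.finrank F W₂ = Module.finrank F W₁ := by omega
  set m := Module.finrank F W₁ with hm
  let b : Module.Basis (Fin m ⊕ Fin m) F (∀ i, κ i) :=
    (Module.finBasisOfFinrankEq F (∀ i, κ i) (show Module.finrank F (∀ i, κ i) = m + m by omega)).reindex
      finSumFinEquiv.symm
  let B₁ : LinearMap.BilinForm F (∀ i, κ i) := (LinearMap.mul F (∀ i, κ i)).compr₂ ψ
  have hB₁ : ∀ x y, B₁ x y = ψ (x * y) := fun x y => rfl
  let B₂ : LinearMap.BilinForm F (∀ i, κ i) :=
    LinearMap.BilinForm.compRight B₁ (LinearMap.mulLeft F ρ)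
  have hB₂ : ∀ x y, B₂ x y = ψ (x * (ρ * y)) := fun x y => rfl
  obtain ⟨t₁, ht₁⟩ := gram_det B₁ (fun x y => by rw [hB₁, hB₁, mul_comm]) W₁ m rfl hV
    (fun x hx y hy => iso₁ x hx y hy) b
  obtain ⟨t₂, ht₂⟩ := gram_det B₂ (fun x y => by rw [hB₂, hB₂]; congr 1; ring) W₂ m hW21 hV
    (fun x hx y hy => by rw [hB₂, mul_left_comm]; exact iso₂ x hx y hy) b
  have hdet : (LinearMap.BilinForm.toMatrix b B₂).det =
      (LinearMap.BilinForm.toMatrix b B₁).det * Algebra.norm F ρ := by
    rw [show B₂ = LinearMap.BilinForm.compRight B₁ (LinearMap.mulLeft F ρ) from rfl,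
      LinearMap.BilinForm.toMatrix_compRight, Matrix.det_mul, LinearMap.det_toMatrix]
    rfl
  have hnd : (LinearMap.BilinForm.toMatrix b B₁).det ≠ 0 := by
    rw [← LinearMap.BilinForm.nondegenerate_iff_det_ne_zero]
    refine ⟨fun x hx => hψ x fun y => hx y, fun y hy => hψ y fun x => ?_⟩
    rw [mul_comm]
    exact hy x
  set s := (Matrix.fromBlocks 0 1 1 0 : Matrix (Fin m ⊕ Fin m) (Fin m ⊕ Fin m) F).det with hs
  have hs0 : s ≠ 0 := fun h => hnd (by rw [ht₁, h, zero_mul])
  have ht10 : t₁ ≠ 0 := fun h => hnd (by rw [ht₁, h, zero_mul, mul_zero])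
  have hsq : IsSquare (∏ i, Algebra.norm F (ρ i)) := by
    rw [← norm_pi]
    rw [ht₁, ht₂] at hdet
    refine ⟨t₂ / t₁, ?_⟩
    have h1 : t₂ * t₂ = t₁ * t₁ * Algebra.norm F ρ := by
      apply mul_left_cancel₀ hs0
      rw [hdet]
      ring
    field_simp
    rw [sq, sq, h1]
    ring
  have hne : ∀ i, Algebra.norm F (ρ i) ≠ 0 := fun i => (Algebra.norm_ne_zero_iff).2 (hρ i)
  have hchi : ∏ i, quadraticChar F (Algebra.norm F (ρ i)) = 1 := by
    rw [← map_prod]
    exact (quadraticChar_one_iff_isSquare (Finset.prod_ne_zero_iff.2 fun i _ => hne i)).2 hsq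
  have hval : ∀ i, quadraticChar F (Algebra.norm F (ρ i)) = if ¬ IsSquare (ρ i) then -1 else 1 := by
    intro i
    by_cases h : IsSquare (ρ i)
    · rw [if_neg (not_not.2 h), quadraticChar_one_iff_isSquare (hne i), isSquare_norm_iff h2]
      exact h
    · rw [if_pos h, quadraticChar_neg_one_iff_not_isSquare, isSquare_norm_iff h2]
      exact h
  rw [Finset.prod_congr rfl fun i _ => hval i, Finset.prod_ite, Finset.prod_const_one, mul_one,
    Finset.prod_const] at hchi
  have hcard : {i | ¬ IsSquare (ρ i)}.ncard = (Finset.univ.filter fun i => ¬ IsSquare (ρ i)).card := by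
    rw [← Set.ncard_coe_finset]
    congr 1
    ext i
    simp
  rw [hcard]
  rcases Nat.even_or_odd (Finset.univ.filter fun i => ¬ IsSquare (ρ i)).card with h | h
  · exact h
  · rw [h.neg_one_pow] at hchi
    norm_num at hchi

end Pool.Agent.Helper96.PS
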