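import Pool.Agent.Helper96.PS.GramUnit

/-!
# PS-A5: degrees and symmetry of the Gram matrices

`τ = co (2g)`: `deg τ(a) + 2 g n ≤ dg a` (`co_le_dg`). With `e_i e'_j = z c` we have
`dg c = δ_i + δ'_j - m` (`dg_mul`, as integers), and `dg (θ c) = dg c + n`. So the bounds. Symmetry: `e i * e j = e j * e i`.
Quotients: `dv z` of a multiple of `z` in a domain (`dv_mul`, `mul_dv`).
-/

namespace Pool.Agent.Helper96.PS

open Polynomial

variable {F : Type*} [Field F] {g n : ℕ} {w : F[X]} {f : F[X][X]}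

/-- the degree of the top coefficient of an element `c` with `z c = a` -/
private theorem gd_aux (h : Pre g n w f) {z a c : AdjoinRoot f} {m k : ℕ}
    (hm : dg h.monic n z = m) (ha : dg h.monic n a = k) (hc : z * c = a)
    (hne : co h.monic (2 * g) c ≠ 0) :
    m + ((co h.monic (2 * g) c).natDegree + 2 * g * n) ≤ k := by
  have h1 := dg_mul h z c
  rw [hc, ha, hm] at h1
  have h2 := co_le_dg h.monic n (2 * g) c
  rw [degree_eq_natDegree hne] at h2
  have h3 : (m : WithBot ℕ) + (((co h.monic (2 * g) c).natDegree : WithBot ℕ) +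
      ((2 * g * n : ℕ) : WithBot ℕ)) ≤ (k : WithBot ℕ) := by
    rw [h1]
    exact add_le_add le_rfl h2
  exact_mod_cast h3

theorem gram_deg (h : Pre g n w f) {z : AdjoinRoot f} {m : ℕ} (hm : dg h.monic n z = m)
    {e e' : Fin (2 * g + 1) → AdjoinRoot f} {δ δ' : Fin (2 * g + 1) → ℕ}
    (he : ∀ i, dg h.monic n (e i) = δ i) (he' : ∀ i, dg h.monic n (e' i) = δ' i)
    (hd : ∀ i j, z ∣ e i * e' j) (i j : Fin (2 * g + 1)) (hne : gram h.monic z e e' i j ≠ 0) :
    ((gram h.monic z e e' i j).natDegree : ℤ) ≤ δ i + δ' j - m - 2 * g * n := by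
  have e0 : gram h.monic z e e' i j = co h.monic (2 * g) (dv z (e i * e' j)) := by
    unfold gram
    rw [Matrix.of_apply, Nat.add_sub_cancel]
  rw [e0] at hne ⊢
  have h1 : dg h.monic n (e i * e' j) = ((δ i + δ' j : ℕ) : WithBot ℕ) := by
    rw [dg_mul h, he, he']
    norm_cast
  have h2 := gd_aux h hm h1 (mul_dv (hd i j)) hne
  have h3 : ((m : ℤ) + (((co h.monic (2 * g) (dv z (e i * e' j))).natDegree : ℤ) + 2 * g * n)) ≤
      δ i + δ' j := by exact_mod_cast h2
  linarith

theorem gramT_deg (h : Pre g n w f) {z : AdjoinRoot f} {m : ℕ} (hm : dg h.monic n z = m)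
    {e e' : Fin (2 * g + 1) → AdjoinRoot f} {δ δ' : Fin (2 * g + 1) → ℕ}
    (he : ∀ i, dg h.monic n (e i) = δ i) (he' : ∀ i, dg h.monic n (e' i) = δ' i)
    (hd : ∀ i j, z ∣ e i * e' j) (i j : Fin (2 * g + 1)) (hne : gramT h.monic z e e' i j ≠ 0) :
    ((gramT h.monic z e e' i j).natDegree : ℤ) ≤ n + δ i + δ' j - m - 2 * g * n := by
  have e0 : gramT h.monic z e e' i j =
      co h.monic (2 * g) (AdjoinRoot.root f * dv z (e i * e' j)) := by
    unfold gramT
    rw [Matrix.of_apply, Nat.add_sub_cancel]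
  rw [e0] at hne ⊢
  have h1 : dg h.monic n (AdjoinRoot.root f * (e i * e' j)) =
      ((n + (δ i + δ' j) : ℕ) : WithBot ℕ) := by
    rw [dg_mul h, dg_root h, dg_mul h, he, he']
    norm_cast
  have h4 : z * (AdjoinRoot.root f * dv z (e i * e' j)) = AdjoinRoot.root f * (e i * e' j) := by
    rw [← mul_assoc, mul_comm z, mul_assoc, mul_dv (hd i j)]
  have h2 := gd_aux h hm h1 h4 hne
  have h3 : ((m : ℤ) + (((co h.monic (2 * g) (AdjoinRoot.root f *
      dv z (e i * e' j))).natDegree : ℤ) + 2 * g * n)) ≤ n + (δ i + δ' j) := by exact_mod_cast h2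
  linarith

theorem gram_isSymm (hf : f.Monic) {N : ℕ} (z : AdjoinRoot f) (e : Fin N → AdjoinRoot f) :
    (gram hf z e e).IsSymm := by
  refine Matrix.IsSymm.ext fun i j => ?_
  unfold gram
  rw [Matrix.of_apply, Matrix.of_apply, mul_comm (e j) (e i)]

theorem gramT_isSymm (hf : f.Monic) {N : ℕ} (z : AdjoinRoot f) (e : Fin N → AdjoinRoot f) :
    (gramT hf z e e).IsSymm := by
  refine Matrix.IsSymm.ext fun i j => ?_
  unfold gramT
  rw [Matrix.of_apply, Matrix.of_apply, mul_comm (e j) (e i)]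

theorem RBasis.dg_eq {hf : f.Monic} {N : ℕ} {I : Ideal (AdjoinRoot f)}
    {e : Fin N → AdjoinRoot f} {δ : Fin N → ℕ} (he : RBasis hf n I e δ) (i : Fin N) :
    dg hf n (e i) = δ i := by
  have h1 := he.red (Pi.single i 1)
  have h2 : ∑ j, AdjoinRoot.of f ((Pi.single i 1 : Fin N → F[X]) j) * e j = e i := by
    rw [Finset.sum_eq_single i]
    · rw [Pi.single_eq_same, map_one, one_mul]
    · intro j _ hj
      rw [Pi.single_eq_of_ne hj, map_zero, zero_mul]
    · intro hn
      exact absurd (Finset.mem_univ i) hn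
  rw [h2] at h1
  rw [h1]
  apply le_antisymm
  · refine Finset.sup_le fun j _ => ?_
    by_cases hj : j = i
    · rw [hj, Pi.single_eq_same, degree_one, zero_add]
    · rw [Pi.single_eq_of_ne hj, degree_zero, WithBot.bot_add]
      exact bot_le
  · have h3 := Finset.le_sup (f := fun j => ((Pi.single i 1 : Fin N → F[X]) j).degree +
      (δ j : WithBot ℕ)) (Finset.mem_univ i)
    simp only [Pi.single_eq_same, degree_one, zero_add] at h3
    exact h3

theorem RBasis.indep {hf : f.Monic} {N : ℕ} {I : Ideal (AdjoinRoot f)}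
    {e : Fin N → AdjoinRoot f} {δ : Fin N → ℕ} (he : RBasis hf n I e δ) (c : Fin N → F[X])
    (hc : ∑ i, AdjoinRoot.of f (c i) * e i = 0) (i : Fin N) : c i = 0 := by
  have h1 := he.red c
  rw [hc, dg_zero] at h1
  have h3 := Finset.le_sup (f := fun j => (c j).degree + (δ j : WithBot ℕ)) (Finset.mem_univ i)
  rw [← h1, le_bot_iff, WithBot.add_eq_bot] at h3
  rcases h3 with h3 | h3
  · exact degree_eq_bot.1 h3
  · exact absurd h3 WithBot.coe_ne_bot

end Pool.Agent.Helper96.PS
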