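import Pool.Agent.Helper96.PS.Dual
import Pool.Agent.Helper96.PS.DgMul

/-!
# PS-A4b: the Gram matrix `τ(e_i e'_j / z)` is unimodular

`O` is a domain, `I J = (z)`, `z ≠ 0`, `e` a basis of `I` over `A`, `e'` a basis of `J` (from `RBasis`: spanning, and independent by
`red`: if `∑ c_i e_i = 0` then `dg = ⊥`, so every `deg c_i + δ_i = ⊥`, `c_i = 0`).

Proof. For `a ∈ I`, `b ∈ J`: `ab ∈ (z)`; `dv z (ab)` is THE quotient. Claim: every `A`-linear `φ : J → A` is
`b ↦ τ(dv z (c b))` for some `c ∈ I`. By A4a (`exists_dual`):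
(1) for `y ∈ J` there is `c_y ∈ O` with `φ(y b') = τ(c_y b')` for all `b' ∈ O`;
(2) `z ∈ I J ⊆ J`, so there is `c ∈ O` with `φ(z b') = τ(c b')` for all `b'`.
For `y ∈ J` and all `b'`: `τ(c y b') = φ(z y b') = τ(c_y z b')`, so `c y = c_y z` (`dual_inj`). So `c J ⊆ (z)`, and `c z ∈ c I J ⊆ z I`, so `c ∈ I`
(cancel `z`: `c z = z c'` with `c' ∈ I`; precisely `c · I J = I · (c J) ⊆ I z`). And `φ(y) = τ(c_y) = τ(dv z (c y))`.
Apply the claim to the dual basis of `e'`: `c^{(j)} ∈ I` with `τ(c^{(j)} e'_k / z) = δ_{jk}`; writing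
`c^{(j)} = ∑ M_{ji} e_i` we get `M G = 1`. So `det G` is a unit. Rank: both index sets are `Fin (2g+1)`.
-/

namespace Pool.Agent.Helper96.PS

open Polynomial

variable {F : Type*} [Field F] {g n : ℕ} {w : F[X]} {f : F[X][X]}

/-- the quotient in a domain -/
theorem dv_mul {O : Type*} [CommRing O] [IsDomain O] {z : O} (hz : z ≠ 0) (a : O) :
    dv z (z * a) = a := by
  have h : z ∣ z * a := dvd_mul_right z a
  unfold dv
  rw [dif_pos h]
  exact mul_left_cancel₀ hz h.choose_spec.symm

theorem mul_dv {O : Type*} [CommRing O] {z a : O} (ha : z ∣ a) : z * dv z a = a := by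
  unfold dv
  rw [dif_pos ha]
  exact ha.choose_spec.symm

/-- the coordinate functionals -/
private theorem gu_coord {A O : Type*} [CommRing A] [CommRing O] [Algebra A O] {N : ℕ}
    {J : Ideal O} {e' : Fin N → O}
    (hspan' : ∀ a ∈ J, ∃ c : Fin N → A, a = ∑ i, c i • e' i)
    (huniq : ∀ c c' : Fin N → A, ∑ i, c i • e' i = ∑ i, c' i • e' i → c = c')
    {y : O} (hy : y ∈ J) (j : Fin N) : ∃ φ : O →ₗ[A] A, ∀ (b : O) (c : Fin N → A),
      ∑ i, c i • e' i = y * b → c j = φ b := by
  have hmem : ∀ b, y * b ∈ J := fun b => J.mul_mem_right b hy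
  choose c hc using fun b => hspan' (y * b) (hmem b)
  have hadd : ∀ b b', c (b + b') = c b + c b' := by
    intro b b'
    apply huniq
    rw [← hc]
    simp only [Pi.add_apply, add_smul, Finset.sum_add_distrib]
    rw [← hc, ← hc, mul_add]
  have hsmul : ∀ (r : A) b, c (r • b) = r • c b := by
    intro r b
    apply huniq
    rw [← hc]
    simp only [Pi.smul_apply, smul_eq_mul, mul_smul]
    rw [← Finset.smul_sum, ← hc, mul_smul_comm]
  refine ⟨{ toFun := fun b => c b j
            map_add' := fun b b' => by rw [hadd, Pi.add_apply]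
            map_smul' := fun r b => by rw [hsmul, Pi.smul_apply, RingHom.id_apply] }, ?_⟩
  intro b c' hc'
  have h2 : c' = c b := huniq _ _ (by rw [hc', ← hc])
  rw [h2]
  rfl

private theorem gu_abs {A O : Type*} [CommRing A] [CommRing O] [IsDomain O] [Algebra A O]
    (τ : O →ₗ[A] A) (hdual : ∀ φ : O →ₗ[A] A, ∃ c, ∀ a, φ a = τ (c * a))
    (hinj : ∀ c, (∀ a, τ (c * a) = 0) → c = 0) {N : ℕ} {z : O} (hz : z ≠ 0) {I J : Ideal O}
    (hIJ : I * J = Ideal.span {z}) (e e' : Fin N → O) (he : ∀ i, e i ∈ I) (he' : ∀ i, e' i ∈ J)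
    (hspan : ∀ a ∈ I, ∃ c : Fin N → A, a = ∑ i, c i • e i)
    (hspan' : ∀ a ∈ J, ∃ c : Fin N → A, a = ∑ i, c i • e' i)
    (huniq : ∀ c c' : Fin N → A, ∑ i, c i • e' i = ∑ i, c' i • e' i → c = c') :
    IsUnit (Matrix.of fun i j => τ (dv z (e i * e' j)) : Matrix (Fin N) (Fin N) A).det := by
  have hL : ∀ y ∈ J, ∀ j : Fin N, ∃ d : O, ∀ (b : O) (c : Fin N → A),
      ∑ i, c i • e' i = y * b → c j = τ (d * b) := by
    intro y hy j
    obtain ⟨φ, hφ⟩ := gu_coord hspan' huniq hy j
    obtain ⟨d, hd⟩ := hdual φ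
    exact ⟨d, fun b c hc => by rw [← hd b]; exact hφ b c hc⟩
  have hzIJ : z ∈ I * J := by
    rw [hIJ]
    exact Ideal.mem_span_singleton_self z
  have hzJ : z ∈ J := Ideal.mul_le_right hzIJ
  have hdvd : ∀ a ∈ I, ∀ b ∈ J, z ∣ a * b := by
    intro a ha b hb
    have h1 : a * b ∈ I * J := Ideal.mul_mem_mul ha hb
    rw [hIJ] at h1
    exact Ideal.mem_span_singleton.1 h1
  have hclaim : ∀ j : Fin N, ∃ d ∈ I, ∀ k, τ (dv z (d * e' k)) = if j = k then 1 else 0 := by
    intro j
    obtain ⟨d, hd⟩ := hL z hzJ j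
    have h1 : ∀ y ∈ J, ∃ d' : O, d * y = z * d' ∧
        ∀ c : Fin N → A, ∑ i, c i • e' i = y → c j = τ d' := by
      intro y hy
      obtain ⟨d', hd'⟩ := hL y hy j
      refine ⟨d', ?_, ?_⟩
      · have h2 : d * y - z * d' = 0 := by
          apply hinj
          intro b
          obtain ⟨c, hc⟩ := hspan' (z * (y * b)) (J.mul_mem_right _ hzJ)
          have h3 := hd (y * b) c hc.symm
          have h4 := hd' (z * b) c (by rw [← hc]; ring)
          have e1 : (d * y - z * d') * b = d * (y * b) - d' * (z * b) := by ring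
          rw [e1, map_sub, ← h3, ← h4, sub_self]
        exact sub_eq_zero.1 h2
      · intro c hc
        have h3 := hd' 1 c (by rw [hc, mul_one])
        rwa [mul_one] at h3
    refine ⟨d, ?_, ?_⟩
    · have hK : I * J ≤ Submodule.comap (LinearMap.mulLeft O d)
          (Submodule.map (LinearMap.mulLeft O z) I) := by
        rw [Ideal.mul_le]
        intro a ha b hb
        rw [Submodule.mem_comap, Submodule.mem_map]
        obtain ⟨d', hd', -⟩ := h1 b hb
        refine ⟨a * d', I.mul_mem_right _ ha, ?_⟩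
        rw [LinearMap.mulLeft_apply, LinearMap.mulLeft_apply]
        calc z * (a * d') = a * (z * d') := by ring
          _ = a * (d * b) := by rw [hd']
          _ = d * (a * b) := by ring
      have h2 := hK hzIJ
      rw [Submodule.mem_comap, Submodule.mem_map] at h2
      obtain ⟨c', hc', h3⟩ := h2
      rw [LinearMap.mulLeft_apply, LinearMap.mulLeft_apply, mul_comm d z] at h3
      rw [← mul_left_cancel₀ hz h3]
      exact hc'
    · intro k
      obtain ⟨d', hd', h2⟩ := h1 (e' k) (he' k)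
      rw [hd', dv_mul hz]
      have h3 := h2 (Pi.single k 1) (by
        rw [Finset.sum_eq_single k]
        · rw [Pi.single_eq_same, one_smul]
        · intro i _ hik
          rw [Pi.single_eq_of_ne hik, zero_smul]
        · intro hk
          exact absurd (Finset.mem_univ k) hk)
      rw [← h3, Pi.single_apply]
  choose d hdI hd using hclaim
  have hM : ∀ j, ∃ c : Fin N → A, d j = ∑ i, c i • e i := fun j => hspan (d j) (hdI j)
  choose M hM using hM
  have hMG : (Matrix.of M) * (Matrix.of fun i j => τ (dv z (e i * e' j))) =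
      (1 : Matrix (Fin N) (Fin N) A) := by
    ext1 j k
    rw [Matrix.mul_apply, Matrix.one_apply, ← hd j k]
    have h1 : dv z (d j * e' k) = ∑ i, M j i • dv z (e i * e' k) := by
      have h2 : d j * e' k = z * ∑ i, M j i • dv z (e i * e' k) := by
        rw [Finset.mul_sum]
        conv_lhs => rw [hM j, Finset.sum_mul]
        refine Finset.sum_congr rfl fun i _ => ?_
        have h3 := mul_dv (hdvd (e i) (he i) (e' k) (he' k))
        rw [mul_smul_comm, h3, smul_mul_assoc]
      rw [h2, dv_mul hz]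
    rw [h1, map_sum]
    refine Finset.sum_congr rfl fun i _ => ?_
    rw [map_smul, smul_eq_mul]
    rfl
  exact Matrix.isUnit_det_of_left_inverse hMG

theorem isUnit_gram (h : Pre g n w f) {z : AdjoinRoot f} (hz : z ≠ 0)
    {I J : Ideal (AdjoinRoot f)} (hIJ : I * J = Ideal.span {z})
    {e e' : Fin (2 * g + 1) → AdjoinRoot f} {δ δ' : Fin (2 * g + 1) → ℕ}
    (he : RBasis h.monic n I e δ) (he' : RBasis h.monic n J e' δ') :
    IsUnit (gram h.monic z e e').det := by
  have := isDomain h
  have hm : f.natDegree = 2 * g + 1 := h.natDegree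
  have hsm : ∀ (c : F[X]) (x : AdjoinRoot f), AdjoinRoot.of f c * x = c • x := by
    intro c x
    rw [Algebra.smul_def]
    rfl
  have huniq : ∀ c c' : Fin (2 * g + 1) → F[X], ∑ i, c i • e' i = ∑ i, c' i • e' i → c = c' := by
    intro c c' hcc
    have h1 : ∑ i, AdjoinRoot.of f ((c - c') i) * e' i = 0 := by
      have h2 : ∀ i, AdjoinRoot.of f ((c - c') i) * e' i = c i • e' i - c' i • e' i := by
        intro i
        rw [hsm, Pi.sub_apply, sub_smul]
      rw [Finset.sum_congr rfl fun i _ => h2 i, Finset.sum_sub_distrib, hcc, sub_self]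
    have h3 := he'.red (c - c')
    rw [h1, dg_zero] at h3
    ext1 i
    have h5 := Finset.le_sup (f := fun i => ((c - c') i).degree + (δ' i : WithBot ℕ))
      (Finset.mem_univ i)
    rw [← h3, le_bot_iff, WithBot.add_eq_bot] at h5
    rcases h5 with h5 | h5
    · have h6 := degree_eq_bot.1 h5
      rw [Pi.sub_apply, sub_eq_zero] at h6
      exact h6
    · exact absurd h5 WithBot.coe_ne_bot
  have hspan : ∀ a ∈ I, ∃ c : Fin (2 * g + 1) → F[X], a = ∑ i, c i • e i := by
    intro a ha
    obtain ⟨c, hc⟩ := he.span a ha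
    exact ⟨c, hc.trans (Finset.sum_congr rfl fun i _ => hsm _ _)⟩
  have hspan' : ∀ a ∈ J, ∃ c : Fin (2 * g + 1) → F[X], a = ∑ i, c i • e' i := by
    intro a ha
    obtain ⟨c, hc⟩ := he'.span a ha
    exact ⟨c, hc.trans (Finset.sum_congr rfl fun i _ => hsm _ _)⟩
  exact gu_abs (co h.monic (2 * g)) (exists_dual h.monic hm) (fun c hc => dual_inj h.monic hm hc)
    hz hIJ e e' he.mem he'.mem hspan hspan' huniq

end Pool.Agent.Helper96.PS
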