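import Pool.Agent.Helper96.PS.Cards

/-!
# PS-S2a: equidistribution of the box modulo `m`

`Rep g m`: monic polynomials of degree `N = 2g+1` in `x` whose other coefficients have degree `< deg m`; `#Rep = q^{N deg m}`. Reduction `ρ_m : f ↦` the element of `Rep g m` congruent to `f` coefficientwise mod `m` (`%ₘ`, `m` monic). `f.map (AdjoinRoot.mk m)` is determined by `ρ_m f` and conversely.
`equiW`: `deg m ≤ n`. On `BoxW w g n` the coefficient `a_j` (`j ≤ 2g`) runs over `w_j t^{(N-j)n} +` (polynomials of degree `< (N-j)n`), and `(N-j) n ≥ n ≥ deg m`: each residue class mod `m` is hit `q^{(N-j)n - deg m}` times. So all fibres of `ρ_m` on `BoxW` have the same cardinality `#BoxW/q^{N deg m}`.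
`rep_mul`: CRT: `(ρ_{m₁}, ρ_{m₂}) : Rep g (m₁m₂) → Rep g m₁ × Rep g m₂` is bijective.
`card_locOK`: by `rep_mul` repeatedly (induction over the places, or directly CRT for a finite family): the number of `f ∈ Rep g (∏ π_i ∏ π'_i)` with `LocOK` is `∏ #TS(A/π_i) ∏ #TI(A/π'_i) = rho · q^{N · 2kD}`: for `π` monic irreducible of degree `D`, `f ↦ f.map (mk π)` is a bijection of `Rep g π` onto the monic polynomials of degree `N` over `A/π`,
`#(A/π) = q^D`.
-/

namespace Pool.Agent.Helper96.PS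

open Polynomial

variable {F : Type*} [Field F]

/-- the monic polynomial of degree `N` with given lower coefficients -/
private noncomputable def ofC {A : Type*} [CommRing A] (N : ℕ) (c : ℕ → A) : A[X] :=
  X ^ N + ∑ j ∈ Finset.range N, C (c j) * X ^ j

private theorem ofC_low_degree {A : Type*} [CommRing A] (N : ℕ) (c : ℕ → A) :
    (∑ j ∈ Finset.range N, C (c j) * X ^ j).degree < (N : WithBot ℕ) := by
  rw [← mem_degreeLT]
  refine Submodule.sum_mem _ fun j hj => ?_
  rw [Finset.mem_range] at hj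
  rw [mem_degreeLT]
  exact (degree_C_mul_X_pow_le j (c j)).trans_lt (by exact_mod_cast hj)

private theorem ofC_monic {A : Type*} [CommRing A] (N : ℕ) (c : ℕ → A) : (ofC N c).Monic :=
  monic_X_pow_add (ofC_low_degree N c)

private theorem ofC_natDegree {A : Type*} [CommRing A] [Nontrivial A] (N : ℕ) (c : ℕ → A) :
    (ofC N c).natDegree = N := by
  unfold ofC
  rw [natDegree_add_eq_left_of_degree_lt, natDegree_X_pow]
  rw [degree_X_pow]
  exact ofC_low_degree N c

private theorem ofC_coeff {A : Type*} [CommRing A] (N : ℕ) (c : ℕ → A) (j : ℕ) (hj : j < N) :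
    (ofC N c).coeff j = c j := by
  unfold ofC
  rw [coeff_add, coeff_X_pow, if_neg (by omega), zero_add, finset_sum_coeff,
    Finset.sum_eq_single j]
  · rw [coeff_C_mul, coeff_X_pow, if_pos rfl, mul_one]
  · intro i _ hi
    rw [coeff_C_mul, coeff_X_pow, if_neg (fun h => hi h.symm), mul_zero]
  · intro h
    exact absurd (Finset.mem_range.2 hj) h

/-- monic polynomials of the same degree with the same lower coefficients are equal -/
private theorem eq_of_coeff {A : Type*} [CommRing A] {f f' : A[X]} {N : ℕ} (hf : f.Monic)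
    (hf' : f'.Monic) (h : f.natDegree = N) (h' : f'.natDegree = N)
    (hc : ∀ j, j < N → f.coeff j = f'.coeff j) : f = f' := by
  ext j
  rcases lt_trichotomy j N with hj | hj | hj
  · exact hc j hj
  · subst hj
    have h1 : f.coeff f.natDegree = 1 := hf.coeff_natDegree
    have h2 : f'.coeff f'.natDegree = 1 := hf'.coeff_natDegree
    rw [h] at h1
    rw [h'] at h2
    rw [h1, h2]
  · rw [coeff_eq_zero_of_natDegree_lt (by omega), coeff_eq_zero_of_natDegree_lt (by omega)]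

/-- the reduction modulo `m` -/
private noncomputable def rdc (g : ℕ) (m : F[X]) (f : F[X][X]) : F[X][X] :=
  ofC (2 * g + 1) (fun j => f.coeff j %ₘ m)

private theorem rdc_mem (g : ℕ) {m : F[X]} (hm : m.Monic) (f : F[X][X]) : rdc g m f ∈ Rep g m := by
  refine ⟨ofC_monic _ _, ofC_natDegree _ _, ?_⟩
  intro j hj
  unfold rdc
  rw [ofC_coeff _ _ j (by omega)]
  exact degree_modByMonic_lt _ hm

private theorem mk_eq_iff {m a b : F[X]} : AdjoinRoot.mk m a = AdjoinRoot.mk m b ↔ m ∣ a - b :=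
  AdjoinRoot.mk_eq_mk

private theorem rdc_map (g : ℕ) {m : F[X]} (hm : m.Monic) {f : F[X][X]} (hf : f.Monic)
    (hd : f.natDegree = 2 * g + 1) :
    (rdc g m f).map (AdjoinRoot.mk m) = f.map (AdjoinRoot.mk m) := by
  ext j
  rw [coeff_map, coeff_map]
  rcases lt_trichotomy j (2 * g + 1) with hj | hj | hj
  · unfold rdc
    rw [ofC_coeff _ _ j hj, mk_eq_iff]
    have h1 := modByMonic_add_div (f.coeff j) m
    refine ⟨- (f.coeff j /ₘ m), ?_⟩
    linear_combination h1
  · have h1 : (rdc g m f).coeff j = 1 := by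
      have h2 := (rdc_mem g hm f).1.coeff_natDegree
      rw [(rdc_mem g hm f).2.1, ← hj] at h2
      exact h2
    have h3 : f.coeff j = 1 := by
      have h2 := hf.coeff_natDegree
      rw [hd, ← hj] at h2
      exact h2
    rw [h1, h3]
  · have h1 : (rdc g m f).coeff j = 0 :=
      coeff_eq_zero_of_natDegree_lt (by rw [(rdc_mem g hm f).2.1]; exact hj)
    have h2 : f.coeff j = 0 := coeff_eq_zero_of_natDegree_lt (by rw [hd]; exact hj)
    rw [h1, h2]

/-- elements of `Rep` are determined by their reduction -/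
private theorem rep_inj {g : ℕ} {m : F[X]} {f f' : F[X][X]} (hf : f ∈ Rep g m)
    (hf' : f' ∈ Rep g m) (h : f.map (AdjoinRoot.mk m) = f'.map (AdjoinRoot.mk m)) : f = f' := by
  refine eq_of_coeff hf.1 hf'.1 hf.2.1 hf'.2.1 ?_
  intro j hj
  have h1 := congrArg (fun p => coeff p j) h
  simp only [coeff_map] at h1
  rw [mk_eq_iff] at h1
  have h2 : (f.coeff j - f'.coeff j).degree < m.degree :=
    (degree_sub_le _ _).trans_lt (max_lt (hf.2.2 j (by omega)) (hf'.2.2 j (by omega)))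
  exact sub_eq_zero.1 (eq_zero_of_dvd_of_degree_lt h1 h2)

private theorem rep_finite [Finite F] (g : ℕ) {m : F[X]} (hm : m.Monic) :
    (Rep g m).Finite ∧ (Rep g m).ncard = Nat.card F ^ ((2 * g + 1) * m.natDegree) := by
  classical
  have hmd : ∀ a : F[X], a.degree < m.degree ↔ a ∈ degreeLT F m.natDegree := by
    intro a
    rw [mem_degreeLT, degree_eq_natDegree hm.ne_zero]
  -- the bijection
  let e : Rep g m ≃ (Fin (2 * g + 1) → degreeLT F m.natDegree) :=
    { toFun := fun f j => ⟨f.1.coeff j, (hmd _).1 (f.2.2.2 j (by have := j.2; omega))⟩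
      invFun := fun c => ⟨ofC (2 * g + 1)
        (fun j => if h : j < 2 * g + 1 then ((c ⟨j, h⟩ : degreeLT F m.natDegree) : F[X]) else 0),
        ofC_monic _ _, ofC_natDegree _ _, by
          intro j hj
          rw [ofC_coeff _ _ j (by omega), dif_pos (by omega)]
          exact (hmd _).2 (c _).2⟩
      left_inv := by
        intro f
        apply Subtype.ext
        refine eq_of_coeff (ofC_monic _ _) f.2.1 (ofC_natDegree _ _) f.2.2.1 ?_
        intro j hj
        change (ofC (2 * g + 1) _).coeff j = _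
        rw [ofC_coeff _ _ j hj, dif_pos hj]
      right_inv := by
        intro c
        funext j
        apply Subtype.ext
        change (ofC (2 * g + 1) _).coeff j = _
        rw [ofC_coeff _ _ j j.2, dif_pos j.2] }
  have hfin : Finite (degreeLT F m.natDegree) :=
    Finite.of_equiv _ (degreeLTEquiv F m.natDegree).toEquiv.symm
  have h1 : Finite (Rep g m) := Finite.of_equiv _ e.symm
  refine ⟨Set.toFinite _, ?_⟩
  rw [← Nat.card_coe_set_eq, Nat.card_congr e, Nat.card_pi, Finset.prod_const, Finset.card_univ,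
    Fintype.card_fin, Nat.card_congr (degreeLTEquiv F m.natDegree).toEquiv, Nat.card_pi,
    Finset.prod_const, Finset.card_univ, Fintype.card_fin, ← pow_mul, mul_comm]

theorem card_rep [Finite F] (g : ℕ) {m : F[X]} (hm : m.Monic) :
    (Rep g m).ncard = Nat.card F ^ ((2 * g + 1) * m.natDegree) := (rep_finite g hm).2

/-- counting with fibres of the same cardinality -/
private theorem ncard_fibres {α β : Type*} {S : Set α} {T : Set β} (hS : S.Finite)
    (hT : T.Finite) (φ : α → β) (hφ : ∀ a ∈ S, φ a ∈ T) (K : ℕ)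
    (hK : ∀ b ∈ T, {a | a ∈ S ∧ φ a = b}.ncard = K) : S.ncard = T.ncard * K := by
  classical
  have h1 : hS.toFinset.card = ∑ b ∈ hT.toFinset, (hS.toFinset.filter (fun a => φ a = b)).card :=
    Finset.card_eq_sum_card_fiberwise (fun a ha => by
      rw [Set.Finite.coe_toFinset] at ha ⊢
      exact hφ a ha)
  rw [Set.ncard_eq_toFinset_card S hS, Set.ncard_eq_toFinset_card T hT, h1,
    Finset.sum_congr rfl (g := fun _ => K), Finset.sum_const, smul_eq_mul]
  intro b hb
  rw [Set.Finite.mem_toFinset] at hb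
  rw [← hK b hb, ← Set.ncard_coe_finset]
  congr 1
  ext a
  simp

theorem equiW [Finite F] {g n : ℕ} (w : F[X]) {m : F[X]} (hm : m.Monic) (hdeg : m.natDegree ≤ n)
    (P : F[X][X] → Prop)
    (hP : ∀ f f' : F[X][X], f.map (AdjoinRoot.mk m) = f'.map (AdjoinRoot.mk m) → (P f ↔ P f')) :
    {f | f ∈ BoxW w g n ∧ P f}.ncard * Nat.card F ^ ((2 * g + 1) * m.natDegree) =
      {f | f ∈ Rep g m ∧ P f}.ncard * (BoxW w g n).ncard := by
  have hBfin : (BoxW w g n).Finite := (finite_Box g n).subset (fun f hf => hf.1)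
  obtain ⟨hRfin, hRcard⟩ := rep_finite g hm
  -- the translation of the fibres
  have htr : ∀ r ∈ Rep g m, ∀ r' ∈ Rep g m, ∀ f ∈ BoxW w g n, f + (r' - r) ∈ BoxW w g n := by
    intro r hr r' hr' f hf
    have hlow : ∀ j, j ≤ 2 * g → ((r' - r).coeff j).degree < m.degree := by
      intro j hj
      rw [coeff_sub]
      exact (degree_sub_le _ _).trans_lt (max_lt (hr'.2.2 j hj) (hr.2.2 j hj))
    have hdlt : (r' - r).degree < f.degree := by
      have h1 : (r' - r).degree < r'.degree := degree_sub_lt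
        (by rw [degree_eq_natDegree hr'.1.ne_zero, degree_eq_natDegree hr.1.ne_zero, hr.2.1,
          hr'.2.1]) hr'.1.ne_zero (by rw [hr'.1.leadingCoeff, hr.1.leadingCoeff])
      rw [degree_eq_natDegree hr'.1.ne_zero, hr'.2.1] at h1
      rw [degree_eq_natDegree hf.1.1.ne_zero, hf.1.2.1]
      exact h1
    have hnd : ∀ j, j ≤ 2 * g → (r' - r).coeff j = 0 ∨
        ((r' - r).coeff j).natDegree < (2 * g + 1 - j) * n := by
      intro j hj
      by_cases h0 : (r' - r).coeff j = 0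
      · exact Or.inl h0
      · right
        have h2 := hlow j hj
        rw [degree_eq_natDegree h0, degree_eq_natDegree hm.ne_zero] at h2
        have h3 : ((r' - r).coeff j).natDegree < m.natDegree := by exact_mod_cast h2
        calc ((r' - r).coeff j).natDegree < m.natDegree := h3
          _ ≤ n := hdeg
          _ = 1 * n := (one_mul n).symm
          _ ≤ (2 * g + 1 - j) * n := Nat.mul_le_mul_right n (by omega)
    refine ⟨⟨hf.1.1.add_of_left hdlt, ?_, ?_⟩, ?_⟩
    · rw [natDegree_add_eq_left_of_degree_lt hdlt, hf.1.2.1]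
    · intro j hj
      rw [coeff_add]
      refine (natDegree_add_le _ _).trans (max_le (hf.1.2.2 j hj) ?_)
      rcases hnd j hj with h | h
      · rw [h, natDegree_zero]; exact Nat.zero_le _
      · exact h.le
    · intro j hj
      rw [coeff_add, coeff_add, hf.2 j hj]
      rcases hnd j hj with h | h
      · rw [h, coeff_zero, add_zero]
      · rw [coeff_eq_zero_of_natDegree_lt h, add_zero]
  -- the fibres
  set fib : F[X][X] → Set F[X][X] := fun r => {f | f ∈ BoxW w g n ∧ rdc g m f = r} with hfib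
  have hfib' : ∀ r ∈ Rep g m, ∀ f ∈ BoxW w g n,
      (rdc g m f = r ↔ f.map (AdjoinRoot.mk m) = r.map (AdjoinRoot.mk m)) := by
    intro r hr f hf
    constructor
    · intro h
      rw [← h, rdc_map g hm hf.1.1 hf.1.2.1]
    · intro h
      apply rep_inj (rdc_mem g hm f) hr
      rw [rdc_map g hm hf.1.1 hf.1.2.1, h]
  have hle : ∀ r ∈ Rep g m, ∀ r' ∈ Rep g m, (fib r).ncard ≤ (fib r').ncard := by
    intro r hr r' hr'
    refine Set.ncard_le_ncard_of_injOn (fun f => f + (r' - r)) ?_ ?_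
      (hBfin.subset (fun f hf => hf.1))
    · rintro f ⟨hf, hf2⟩
      have h1 := htr r hr r' hr' f hf
      refine ⟨h1, (hfib' r' hr' _ h1).2 ?_⟩
      rw [Polynomial.map_add, Polynomial.map_sub, (hfib' r hr f hf).1 hf2]
      ring
    · intro f _ f' _ h
      exact add_right_cancel h
  obtain ⟨K, hK⟩ : ∃ K : ℕ, ∀ r ∈ Rep g m, (fib r).ncard = K := by
    refine ⟨(fib (rdc g m 0)).ncard, fun r hr => ?_⟩
    exact le_antisymm (hle r hr _ (rdc_mem g hm 0)) (hle _ (rdc_mem g hm 0) r hr)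
  have h1 : (BoxW w g n).ncard = (Rep g m).ncard * K :=
    ncard_fibres hBfin hRfin (rdc g m) (fun f _ => rdc_mem g hm f) K hK
  have h2 : {f | f ∈ BoxW w g n ∧ P f}.ncard = {f | f ∈ Rep g m ∧ P f}.ncard * K := by
    have hmap : ∀ f ∈ {f | f ∈ BoxW w g n ∧ P f}, rdc g m f ∈ {f | f ∈ Rep g m ∧ P f} := by
      rintro f ⟨hf, hf2⟩
      exact ⟨rdc_mem g hm f, (hP _ _ (rdc_map g hm hf.1.1 hf.1.2.1)).2 hf2⟩
    refine ncard_fibres (hBfin.subset (fun f hf => hf.1)) (hRfin.subset (fun f hf => hf.1))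
      (rdc g m) hmap K ?_
    rintro r ⟨hr, hPr⟩
    rw [← hK r hr]
    congr 1
    ext f
    constructor
    · rintro ⟨⟨hf, _⟩, h⟩
      exact ⟨hf, h⟩
    · rintro ⟨hf, h⟩
      refine ⟨⟨hf, ?_⟩, h⟩
      exact (hP _ _ ((hfib' r hr f hf).1 h)).2 hPr
  rw [h1, h2, hRcard]
  ring

theorem rep_mul [Finite F] {g : ℕ} {m₁ m₂ : F[X]} (h₁ : m₁.Monic) (h₂ : m₂.Monic)
    (hcop : IsCoprime m₁ m₂) (P₁ P₂ : F[X][X] → Prop)
    (hP₁ : ∀ f f' : F[X][X], f.map (AdjoinRoot.mk m₁) = f'.map (AdjoinRoot.mk m₁) → (P₁ f ↔ P₁ f'))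
    (hP₂ : ∀ f f' : F[X][X], f.map (AdjoinRoot.mk m₂) = f'.map (AdjoinRoot.mk m₂) → (P₂ f ↔ P₂ f')) :
    {f | f ∈ Rep g (m₁ * m₂) ∧ P₁ f ∧ P₂ f}.ncard =
      {f | f ∈ Rep g m₁ ∧ P₁ f}.ncard * {f | f ∈ Rep g m₂ ∧ P₂ f}.ncard := by
  have h₁₂ : (m₁ * m₂).Monic := h₁.mul h₂
  rw [← Set.ncard_prod]
  refine Set.ncard_congr (fun f _ => (rdc g m₁ f, rdc g m₂ f)) ?_ ?_ ?_
  · rintro f ⟨hf, hf1, hf2⟩
    exact ⟨⟨rdc_mem g h₁ f, (hP₁ _ _ (rdc_map g h₁ hf.1 hf.2.1)).2 hf1⟩,
      ⟨rdc_mem g h₂ f, (hP₂ _ _ (rdc_map g h₂ hf.1 hf.2.1)).2 hf2⟩⟩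
  · rintro f f' ⟨hf, _, _⟩ ⟨hf', _, _⟩ h
    rw [Prod.mk.injEq] at h
    apply rep_inj hf hf'
    have e1 : f.map (AdjoinRoot.mk m₁) = f'.map (AdjoinRoot.mk m₁) := by
      rw [← rdc_map g h₁ hf.1 hf.2.1, h.1, rdc_map g h₁ hf'.1 hf'.2.1]
    have e2 : f.map (AdjoinRoot.mk m₂) = f'.map (AdjoinRoot.mk m₂) := by
      rw [← rdc_map g h₂ hf.1 hf.2.1, h.2, rdc_map g h₂ hf'.1 hf'.2.1]
    ext j
    have d1 := congrArg (fun p => coeff p j) e1
    have d2 := congrArg (fun p => coeff p j) e2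
    simp only [coeff_map] at d1 d2
    rw [mk_eq_iff] at d1 d2
    rw [coeff_map, coeff_map, mk_eq_iff]
    exact hcop.mul_dvd d1 d2
  · rintro ⟨r₁, r₂⟩ ⟨⟨hr1, hp1⟩, ⟨hr2, hp2⟩⟩
    obtain ⟨a, b, hab⟩ := hcop
    set f : F[X][X] := ofC (2 * g + 1)
      (fun j => (r₁.coeff j * (b * m₂) + r₂.coeff j * (a * m₁)) %ₘ (m₁ * m₂)) with hf
    have hfR : f ∈ Rep g (m₁ * m₂) := by
      refine ⟨ofC_monic _ _, ofC_natDegree _ _, ?_⟩
      intro j hj
      rw [hf, ofC_coeff _ _ j (by omega)]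
      exact degree_modByMonic_lt _ h₁₂
    have key : ∀ j, j < 2 * g + 1 → m₁ * m₂ ∣ f.coeff j -
        (r₁.coeff j * (b * m₂) + r₂.coeff j * (a * m₁)) := by
      intro j hj
      rw [hf, ofC_coeff _ _ j hj]
      have h1 := modByMonic_add_div (r₁.coeff j * (b * m₂) + r₂.coeff j * (a * m₁)) (m₁ * m₂)
      refine ⟨- ((r₁.coeff j * (b * m₂) + r₂.coeff j * (a * m₁)) /ₘ (m₁ * m₂)), ?_⟩
      linear_combination h1
    have hmap : ∀ (m : F[X]) (r : F[X][X]), r.Monic → r.natDegree = 2 * g + 1 →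
        (∀ j, j < 2 * g + 1 → m ∣ f.coeff j - r.coeff j) →
        f.map (AdjoinRoot.mk m) = r.map (AdjoinRoot.mk m) := by
      intro m r hr hrd h
      ext j
      rw [coeff_map, coeff_map]
      rcases lt_trichotomy j (2 * g + 1) with hj | hj | hj
      · rw [mk_eq_iff]; exact h j hj
      · have e1 := hfR.1.coeff_natDegree
        have e2 := hr.coeff_natDegree
        rw [hfR.2.1, ← hj] at e1
        rw [hrd, ← hj] at e2
        rw [e1, e2]
      · rw [coeff_eq_zero_of_natDegree_lt (by rw [hfR.2.1]; exact hj),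
          coeff_eq_zero_of_natDegree_lt (by rw [hrd]; exact hj)]
    have hm1 : f.map (AdjoinRoot.mk m₁) = r₁.map (AdjoinRoot.mk m₁) := by
      refine hmap m₁ r₁ hr1.1 hr1.2.1 ?_
      intro j hj
      obtain ⟨c, hc⟩ := key j hj
      refine ⟨m₂ * c + a * (r₂.coeff j - r₁.coeff j), ?_⟩
      linear_combination hc + r₁.coeff j * hab
    have hm2 : f.map (AdjoinRoot.mk m₂) = r₂.map (AdjoinRoot.mk m₂) := by
      refine hmap m₂ r₂ hr2.1 hr2.2.1 ?_
      intro j hj
      obtain ⟨c, hc⟩ := key j hj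
      refine ⟨m₁ * c + b * (r₁.coeff j - r₂.coeff j), ?_⟩
      linear_combination hc + r₂.coeff j * hab
    refine ⟨f, ⟨hfR, (hP₁ _ _ hm1).2 hp1, (hP₂ _ _ hm2).2 hp2⟩, ?_⟩
    rw [Prod.mk.injEq]
    constructor
    · apply rep_inj (rdc_mem g h₁ f) hr1
      rw [rdc_map g h₁ hfR.1 hfR.2.1, hm1]
    · apply rep_inj (rdc_mem g h₂ f) hr2
      rw [rdc_map g h₂ hfR.1 hfR.2.1, hm2]

/-- the product of the places -/
noncomputable def prodPl {k : ℕ} (π π' : Fin k → F[X]) : F[X] := (∏ i, π i) * ∏ i, π' i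

private theorem map_of_dvd {m m' : F[X]} (h : m ∣ m') {f f' : F[X][X]}
    (hf : f.map (AdjoinRoot.mk m') = f'.map (AdjoinRoot.mk m')) :
    f.map (AdjoinRoot.mk m) = f'.map (AdjoinRoot.mk m) := by
  ext j
  have d1 := congrArg (fun p => coeff p j) hf
  simp only [coeff_map] at d1
  rw [mk_eq_iff] at d1
  rw [coeff_map, coeff_map, mk_eq_iff]
  exact h.trans d1

theorem locOK_congr {g k : ℕ} {π π' : Fin k → F[X]} (f f' : F[X][X])
    (h : f.map (AdjoinRoot.mk (prodPl π π')) = f'.map (AdjoinRoot.mk (prodPl π π'))) :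
    LocOK g π π' f ↔ LocOK g π π' f' := by
  have h1 : ∀ i, f.map (AdjoinRoot.mk (π i)) = f'.map (AdjoinRoot.mk (π i)) := fun i =>
    map_of_dvd ((Finset.dvd_prod_of_mem π (Finset.mem_univ i)).trans (dvd_mul_right _ _)) h
  have h2 : ∀ i, f.map (AdjoinRoot.mk (π' i)) = f'.map (AdjoinRoot.mk (π' i)) := fun i =>
    map_of_dvd ((Finset.dvd_prod_of_mem π' (Finset.mem_univ i)).trans (dvd_mul_left _ _)) h
  unfold LocOK
  simp only [h1, h2]

/-- the Chinese remainder theorem for a finite family -/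
private theorem rep_prod [Finite F] {g : ℕ} {ι : Type*} [DecidableEq ι] (s : Finset ι)
    (m : ι → F[X]) (hm : ∀ i, (m i).Monic)
    (hcop : ∀ i j, i ≠ j → IsCoprime (m i) (m j)) (P : ι → F[X][X] → Prop)
    (hP : ∀ i, ∀ f f' : F[X][X],
      f.map (AdjoinRoot.mk (m i)) = f'.map (AdjoinRoot.mk (m i)) → (P i f ↔ P i f')) :
    {f | f ∈ Rep g (∏ i ∈ s, m i) ∧ ∀ i ∈ s, P i f}.ncard =
      ∏ i ∈ s, {f | f ∈ Rep g (m i) ∧ P i f}.ncard := by
  induction s using Finset.induction_on with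
  | empty =>
    have h1 := card_rep (F := F) g (m := 1) monic_one
    rw [natDegree_one, mul_zero, pow_zero] at h1
    rw [Finset.prod_empty, Finset.prod_empty, ← h1]
    congr 1
    ext f
    simp
  | insert i s his ih =>
    rw [Finset.prod_insert his, Finset.prod_insert his, ← ih]
    have hcop' : IsCoprime (m i) (∏ j ∈ s, m j) := by
      apply IsCoprime.prod_right
      intro j hj
      exact hcop i j (fun h => his (h ▸ hj))
    rw [← rep_mul (hm i) (monic_prod_of_monic s m (fun j _ => hm j)) hcop' (P i)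
      (fun f => ∀ j ∈ s, P j f) (hP i) ?_]
    · congr 1
      ext f
      simp [Finset.forall_mem_insert]
    · intro f f' h
      have h1 : ∀ j ∈ s, (P j f ↔ P j f') := fun j hj =>
        hP j _ _ (map_of_dvd (Finset.dvd_prod_of_mem m hj) h)
      exact ⟨fun h2 j hj => (h1 j hj).1 (h2 j hj), fun h2 j hj => (h1 j hj).2 (h2 j hj)⟩

/-- the representatives of a set of monic polynomials over the residue ring -/
private theorem card_rep_set {g : ℕ} {m : F[X]} (hm : m.Monic) (hm1 : Irreducible m)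
    (T : Set (AdjoinRoot m)[X]) (hT : ∀ p ∈ T, p.Monic ∧ p.natDegree = 2 * g + 1) :
    {f | f ∈ Rep g m ∧ f.map (AdjoinRoot.mk m) ∈ T}.ncard = T.ncard := by
  have : Fact (Irreducible m) := ⟨hm1⟩
  refine Set.ncard_congr (fun f _ => f.map (AdjoinRoot.mk m)) (fun f hf => hf.2)
    (fun f f' hf hf' h => rep_inj hf.1 hf'.1 h) ?_
  intro p hp
  obtain ⟨hpm, hpd⟩ := hT p hp
  choose c hc using fun j => AdjoinRoot.mk_surjective (p.coeff j)
  set f₀ : F[X][X] := ofC (2 * g + 1) c with hf₀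
  have h1 : f₀.map (AdjoinRoot.mk m) = p := by
    refine eq_of_coeff ((ofC_monic _ _).map _) hpm ?_ hpd ?_
    · rw [(ofC_monic _ _).natDegree_map, ofC_natDegree]
    · intro j hj
      rw [coeff_map, hf₀, ofC_coeff _ _ j hj, hc]
  have h2 : (rdc g m f₀).map (AdjoinRoot.mk m) = p := by
    rw [rdc_map g hm (ofC_monic _ _) (ofC_natDegree _ _), h1]
  exact ⟨rdc g m f₀, ⟨rdc_mem g hm f₀, by rw [h2]; exact hp⟩, h2⟩

private theorem card_adjoin [Finite F] {m : F[X]} (hm : m.Monic) :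
    Nat.card (AdjoinRoot m) = Nat.card F ^ m.natDegree := by
  have h1 := hm.finite_adjoinRoot
  have h2 := hm.free_adjoinRoot
  rw [Module.natCard_eq_pow_finrank (K := F) (V := AdjoinRoot m)]
  congr 1
  exact finrank_quotient_span_eq_natDegree' hm

private theorem coprime_of_ne {p p' : F[X]} (hp : Irreducible p) (hp' : Irreducible p')
    (hm : p.Monic) (hm' : p'.Monic) (hne : p ≠ p') : IsCoprime p p' := by
  rw [hp.coprime_iff_not_dvd]
  intro h
  exact hne (eq_of_monic_of_associated hm hm' (hp.associated_of_dvd hp' h))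

theorem card_locOK [Finite F] {g k D : ℕ} {π π' : Fin k → F[X]} (hpl : Places k D π π') :
    ({f | f ∈ Rep g (prodPl π π') ∧ LocOK g π π' f}.ncard : ℝ) =
      rho g π π' * (Nat.card F : ℝ) ^ ((2 * g + 1) * (2 * k * D)) := by
  classical
  have hinj : ∀ a b : Fin k ⊕ Fin k, a ≠ b → Sum.elim π π' a ≠ Sum.elim π π' b :=
    fun a b h h' => h (hpl.inj h')
  have hcop1 : ∀ i j, i ≠ j → IsCoprime (π i) (π j) := fun i j hij =>
    coprime_of_ne (hpl.irr i) (hpl.irr j) (hpl.monic i) (hpl.monic j)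
      (hinj (Sum.inl i) (Sum.inl j) (fun h => hij (Sum.inl.inj h)))
  have hcop2 : ∀ i j, i ≠ j → IsCoprime (π' i) (π' j) := fun i j hij =>
    coprime_of_ne (hpl.irr' i) (hpl.irr' j) (hpl.monic' i) (hpl.monic' j)
      (hinj (Sum.inr i) (Sum.inr j) (fun h => hij (Sum.inr.inj h)))
  have hcop3 : ∀ i j, IsCoprime (π i) (π' j) := fun i j =>
    coprime_of_ne (hpl.irr i) (hpl.irr' j) (hpl.monic i) (hpl.monic' j)
      (hinj (Sum.inl i) (Sum.inr j) (fun h => Sum.inl_ne_inr h))
  have hcop : IsCoprime (∏ i, π i) (∏ i, π' i) :=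
    IsCoprime.prod_left fun i _ => IsCoprime.prod_right fun j _ => hcop3 i j
  have hm1 : (∏ i, π i).Monic := monic_prod_of_monic _ _ (fun i _ => hpl.monic i)
  have hm2 : (∏ i, π' i).Monic := monic_prod_of_monic _ _ (fun i _ => hpl.monic' i)
  have h1 := rep_mul (g := g) hm1 hm2 hcop
    (fun f => ∀ i ∈ Finset.univ, f.map (AdjoinRoot.mk (π i)) ∈ TS (AdjoinRoot (π i)) g)
    (fun f => ∀ i ∈ Finset.univ, f.map (AdjoinRoot.mk (π' i)) ∈ TI (AdjoinRoot (π' i)) g)
    (fun f f' h => by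
      have h2 : ∀ i, f.map (AdjoinRoot.mk (π i)) = f'.map (AdjoinRoot.mk (π i)) := fun i =>
        map_of_dvd (Finset.dvd_prod_of_mem π (Finset.mem_univ i)) h
      simp only [h2])
    (fun f f' h => by
      have h2 : ∀ i, f.map (AdjoinRoot.mk (π' i)) = f'.map (AdjoinRoot.mk (π' i)) := fun i =>
        map_of_dvd (Finset.dvd_prod_of_mem π' (Finset.mem_univ i)) h
      simp only [h2])
  have h2 := rep_prod (g := g) Finset.univ π hpl.monic hcop1
    (fun i f => f.map (AdjoinRoot.mk (π i)) ∈ TS (AdjoinRoot (π i)) g)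
    (fun i f f' h => by rw [h])
  have h3 := rep_prod (g := g) Finset.univ π' hpl.monic' hcop2
    (fun i f => f.map (AdjoinRoot.mk (π' i)) ∈ TI (AdjoinRoot (π' i)) g)
    (fun i f f' h => by rw [h])
  rw [h2, h3] at h1
  have h4 : ∀ i, {f | f ∈ Rep g (π i) ∧ f.map (AdjoinRoot.mk (π i)) ∈
      TS (AdjoinRoot (π i)) g}.ncard = (TS (AdjoinRoot (π i)) g).ncard := by
    intro i
    have : Fact (Irreducible (π i)) := ⟨hpl.irr i⟩
    refine card_rep_set (hpl.monic i) (hpl.irr i) _ ?_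
    rintro p ⟨r, h, hh, hd, _, rfl⟩
    refine ⟨(monic_X_sub_C r).mul hh, ?_⟩
    rw [(monic_X_sub_C r).natDegree_mul hh, natDegree_X_sub_C, hd]
    ring
  have h5 : ∀ i, {f | f ∈ Rep g (π' i) ∧ f.map (AdjoinRoot.mk (π' i)) ∈
      TI (AdjoinRoot (π' i)) g}.ncard = (TI (AdjoinRoot (π' i)) g).ncard := by
    intro i
    exact card_rep_set (hpl.monic' i) (hpl.irr' i) _ (fun p hp => ⟨hp.1, hp.2.1⟩)
  simp only [h4, h5] at h1
  have h6 : {f | f ∈ Rep g (prodPl π π') ∧ LocOK g π π' f}.ncard =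
      (∏ i, (TS (AdjoinRoot (π i)) g).ncard) * ∏ i, (TI (AdjoinRoot (π' i)) g).ncard := by
    rw [← h1]
    congr 1
    ext f
    unfold prodPl LocOK
    simp
  rw [h6]
  unfold rho
  have hq : (Nat.card F : ℝ) ≠ 0 := by
    have : 0 < Nat.card F := Nat.card_pos
    exact_mod_cast this.ne'
  have h7 : ∀ i, (Nat.card (AdjoinRoot (π i)) : ℝ) ^ (2 * g + 1) =
      (Nat.card F : ℝ) ^ ((2 * g + 1) * D) := by
    intro i
    rw [card_adjoin (hpl.monic i), hpl.deg i]
    push_cast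
    rw [← pow_mul, mul_comm D]
  have h8 : ∀ i, (Nat.card (AdjoinRoot (π' i)) : ℝ) ^ (2 * g + 1) =
      (Nat.card F : ℝ) ^ ((2 * g + 1) * D) := by
    intro i
    rw [card_adjoin (hpl.monic' i), hpl.deg' i]
    push_cast
    rw [← pow_mul, mul_comm D]
  simp only [h7, h8, Finset.prod_div_distrib, Finset.prod_const, Finset.card_univ,
    Fintype.card_fin]
  have h9 : (Nat.card F : ℝ) ^ ((2 * g + 1) * (2 * k * D)) =
      ((Nat.card F : ℝ) ^ ((2 * g + 1) * D)) ^ k * ((Nat.card F : ℝ) ^ ((2 * g + 1) * D)) ^ k := by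
    rw [← pow_mul, ← pow_add]
    congr 1
    ring
  rw [h9]
  have h10 : ((Nat.card F : ℝ) ^ ((2 * g + 1) * D)) ^ k ≠ 0 := pow_ne_zero _ (pow_ne_zero _ hq)
  push_cast
  field_simp

end Pool.Agent.Helper96.PS
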