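import Pool.Agent.Helper96.PS.RegOf
import Pool.Agent.Helper96.PS.Residues

/-!
# PS-S1: the proportion of singular polynomials modulo `π²`

`Q = q^{deg π}`, `N = 2g+1`, `#Rep g (π²) = Q^{2N}`. CLAIM `#{f ∈ Rep g (π²) : IrrAt f π} (Q² - 1) ≤ Q^{2N}`.
Proof. For a monic `v` with `v̄` irreducible of degree `e` let `J_v = (π², πv, v²)` (it depends only on the ideal `(π, v)`, i.e. on `v̄`). The number of `f ∈ Rep g (π²)` with `f ∈ J_v` is `Q^{2N - 3e}` if `2e ≤ N` and `0` if `2e > N`: `f ∈ J_v` implies `v̄² ∣ f̄`, so `2e ≤ N`; divide by the monic `v²`: `f = v² a + b`, `deg_x b < 2e`, `a` monic of degree `N - 2e`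
(unique modulo `π²`; `Q^{2(N-2e)}` choices of `a`), and `f ∈ J_v` iff `b ∈ J_v` iff `π ∣ b` and `b/π ≡ v·c mod π` with `deg c < e`: (`b ∈ J_v`, `deg b < 2e`: mod `π`, `b̄` is divisible by `v̄²`, so `b̄ = 0`, `b = π b₁`; `π b₁ ∈ (π², πv, v²)` iff `b̄₁ ∈ (v̄)`: if `π b₁ = π² x + π v y + v² z` then `π ∣ z` (mod `π`: `v̄² z̄ = 0`), so
`b₁ = π x + v y + v² z'`). `b₁` mod `π` is a multiple of `v̄` of degree `< 2e`: `Q^e` choices. Total `Q^{2(N-2e)} Q^e = Q^{2N - 3e}`.
The number of monic irreducible `v̄` of degree `e` over `κ` is `≤ Q^e`. So `#IrrAt ≤ ∑_{e ≥ 1} Q^e Q^{2N-3e} = Q^{2N} ∑_{e≥1} Q^{-2e} = Q^{2N}/(Q² - 1)`.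
(`Rep` has coefficients of degree `< 2 deg π`: representatives modulo `π²`.)
-/

namespace Pool.Agent.Helper96.PS

open Polynomial

variable {F : Type*} [Field F]

section

private noncomputable def low {D : ℕ} (e : ℕ) (u : Fin e → degreeLT F D) : F[X][X] :=
  ∑ i : Fin e, C (u i : F[X]) * X ^ (i : ℕ)

private theorem coeff_low {D e : ℕ} (u : Fin e → degreeLT F D) (j : ℕ) :
    (low e u).coeff j = if h : j < e then (u ⟨j, h⟩ : F[X]) else 0 := by
  unfold low
  rw [finset_sum_coeff]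
  simp only [coeff_C_mul, coeff_X_pow]
  split_ifs with h
  · rw [Finset.sum_eq_single ⟨j, h⟩]
    · simp
    · intro i _ hi
      have : j ≠ (i : ℕ) := fun h' => hi (Fin.ext h'.symm)
      simp [this]
    · intro h'; exact absurd (Finset.mem_univ _) h'
  · refine Finset.sum_eq_zero fun i _ => ?_
    have : j ≠ (i : ℕ) := fun h' => h (h' ▸ i.2)
    simp [this]

private noncomputable def bld {D : ℕ} (e : ℕ) (u : Fin e → degreeLT F D) : F[X][X] :=
  X ^ e + low e u

private theorem degree_low {D e : ℕ} (u : Fin e → degreeLT F D) :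
    (low e u).degree < (e : WithBot ℕ) := by
  rw [degree_lt_iff_coeff_zero]
  intro j hj
  rw [coeff_low, dif_neg (not_lt.mpr hj)]

private theorem bld_monic {D e : ℕ} (u : Fin e → degreeLT F D) : (bld e u).Monic :=
  monic_X_pow_add (degree_low u)

private theorem bld_natDegree {D e : ℕ} (u : Fin e → degreeLT F D) :
    (bld e u).natDegree = e := by
  unfold bld
  rw [natDegree_add_eq_left_of_degree_lt (by rw [degree_X_pow]; exact degree_low u),
    natDegree_X_pow]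

private theorem exists_low {m : F[X]} (hm : m.Monic) {e : ℕ} (p : F[X][X])
    (hp : (p.map (AdjoinRoot.mk m)).degree < (e : WithBot ℕ)) (hm0 : 1 ≤ m.natDegree) :
    ∃ u : Fin e → degreeLT F m.natDegree, C m ∣ p - low e u := by
  have hdm : ∀ a : F[X], a %ₘ m ∈ degreeLT F m.natDegree := by
    intro a
    rw [mem_degreeLT, ← degree_eq_natDegree hm.ne_zero]
    exact degree_modByMonic_lt _ hm
  refine ⟨fun i => ⟨p.coeff i %ₘ m, hdm _⟩, ?_⟩
  rw [C_dvd_iff_dvd_coeff]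
  intro j
  rw [coeff_sub, coeff_low]
  split_ifs with h
  · exact ⟨p.coeff j /ₘ m, by
      have := modByMonic_add_div (p.coeff j) m
      linear_combination -this⟩
  · have h1 : (p.map (AdjoinRoot.mk m)).coeff j = 0 :=
      coeff_eq_zero_of_degree_lt (lt_of_lt_of_le hp (by exact_mod_cast not_lt.mp h))
    rw [coeff_map, AdjoinRoot.mk_eq_zero] at h1
    rw [sub_zero]
    exact h1

private theorem exists_bld {m : F[X]} (hm : m.Monic) (hm0 : 1 ≤ m.natDegree) {e : ℕ} {p : F[X][X]}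
    (hp : p.Monic) (he : p.natDegree = e) :
    ∃ u : Fin e → degreeLT F m.natDegree, C m ∣ p - bld e u := by
  have h1 : (p - X ^ e).degree < (e : WithBot ℕ) := by
    have hd : p.degree = (e : WithBot ℕ) := by rw [degree_eq_natDegree hp.ne_zero, he]
    rw [← hd]
    refine degree_sub_lt ?_ hp.ne_zero ?_
    · rw [hd, degree_X_pow]
    · rw [hp.leadingCoeff, leadingCoeff_X_pow]
  obtain ⟨u, hu⟩ := exists_low hm (p - X ^ e) (lt_of_le_of_lt (degree_map_le) h1) hm0
  refine ⟨u, ?_⟩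
  unfold bld
  rw [← sub_sub]
  exact hu

private noncomputable def Psi (π : F[X]) {D D' N e : ℕ}
    (z : (Fin e → degreeLT F D) × (Fin (N - 2 * e) → degreeLT F D') × (Fin e → degreeLT F D)) :
    F[X][X] :=
  bld e z.1 ^ 2 * bld (N - 2 * e) z.2.1 + C π * bld e z.1 * low e z.2.2

private theorem map_eq_zero_iff {π : F[X]} (p : F[X][X]) :
    p.map (AdjoinRoot.mk π) = 0 ↔ C π ∣ p := by
  rw [C_dvd_iff_dvd_coeff]
  constructor
  · intro h j
    have := congrArg (fun q => q.coeff j) h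
    simp only [coeff_map, coeff_zero] at this
    exact AdjoinRoot.mk_eq_zero.mp this
  · intro h
    ext j
    rw [coeff_map, coeff_zero]
    exact AdjoinRoot.mk_eq_zero.mpr (h j)

private theorem exists_data {g : ℕ} {π : F[X]} (hπ : Irreducible π) (hm : π.Monic)
    {f : F[X][X]} (hf : f.Monic) (hN : f.natDegree = 2 * g + 1) (hI : IrrAt f π) :
    ∃ z : Σ e : Fin g, (Fin ((e : ℕ) + 1) → degreeLT F π.natDegree) ×
      (Fin (2 * g + 1 - 2 * ((e : ℕ) + 1)) → degreeLT F (π ^ 2).natDegree) ×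
      (Fin ((e : ℕ) + 1) → degreeLT F π.natDegree), C (π ^ 2) ∣ f - Psi π z.2 := by
  haveI : Fact (Irreducible π) := ⟨hπ⟩
  have hπ0 : π ≠ 0 := hπ.ne_zero
  have hπ1 : 1 ≤ π.natDegree := hπ.natDegree_pos
  have hm2 : (π ^ 2).Monic := hm.pow 2
  have hπ2 : 1 ≤ (π ^ 2).natDegree := by rw [hm.natDegree_pow]; omega
  obtain ⟨v₀, hv₀, hirr, hmem⟩ := hI
  obtain ⟨e, he⟩ : ∃ e, v₀.natDegree = e := ⟨_, rfl⟩
  have he1 : 1 ≤ e := by
    have := hirr.natDegree_pos
    rw [hv₀.natDegree_map, he] at this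
    exact this
  obtain ⟨u, s, hs⟩ := exists_bld hm hπ1 hv₀ he
  set v := bld e u with hv
  have hvm : v.Monic := bld_monic u
  have hve : v.natDegree = e := bld_natDegree u
  obtain ⟨x, y, z, hxyz⟩ : ∃ x y z : F[X][X], f = C (π ^ 2) * x + C π * v * y + v ^ 2 * z := by
    obtain ⟨a, b, hb, h1⟩ := Ideal.mem_span_insert.mp hmem
    obtain ⟨c, d, h2⟩ := Ideal.mem_span_pair.mp hb
    refine ⟨a + c * s + d * s ^ 2, c + 2 * d * s, d, ?_⟩
    have h3 : v₀ = v + C π * s := by rw [← hs]; ring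
    rw [h1, ← h2, h3, C_pow]
    ring
  set φ := mapRingHom (AdjoinRoot.mk π) with hφ
  have hφz : ∀ p : F[X][X], φ p = 0 ↔ C π ∣ p := fun p => map_eq_zero_iff p
  have hφπ : φ (C π) = 0 := (hφz _).mpr dvd_rfl
  have hφf : φ f = φ v ^ 2 * φ z := by
    rw [hxyz]
    simp only [map_add, map_mul, map_pow, hφπ, C_pow]
    ring
  have hφvm : (φ v).Monic := hvm.map _
  have hφvd : (φ v).natDegree = e := by rw [hφ, coe_mapRingHom, hvm.natDegree_map, hve]
  have hφfm : (φ f).Monic := hf.map _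
  have hφfd : (φ f).natDegree = 2 * g + 1 := by rw [hφ, coe_mapRingHom, hf.natDegree_map, hN]
  have hφz0 : φ z ≠ 0 := by
    intro h
    rw [h, mul_zero] at hφf
    exact hφfm.ne_zero hφf
  have h2e : 2 * e + (φ z).natDegree = 2 * g + 1 := by
    rw [← hφfd, hφf, (hφvm.pow 2).natDegree_mul' hφz0, hφvm.natDegree_pow, hφvd]
  have hv2 : (v ^ 2).Monic := hvm.pow 2
  have hv2d : (v ^ 2).natDegree = 2 * e := by rw [hvm.natDegree_pow, hve]
  set a := f /ₘ (v ^ 2) with ha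
  set b := f %ₘ (v ^ 2) with hb
  have hab : b + v ^ 2 * a = f := modByMonic_add_div f (v ^ 2)
  have had : a.natDegree = 2 * g + 1 - 2 * e := by
    rw [ha, natDegree_divByMonic f hv2, hN, hv2d]
  have ham : a.Monic := by
    unfold Monic
    rw [ha, leadingCoeff_divByMonic_of_monic hv2, hf.leadingCoeff]
    rw [degree_eq_natDegree hv2.ne_zero, degree_eq_natDegree hf.ne_zero, hv2d, hN]
    exact_mod_cast (by omega : 2 * e ≤ 2 * g + 1)
  have hbd : b.degree < ((2 * e : ℕ) : WithBot ℕ) := by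
    have := degree_modByMonic_lt f hv2
    rwa [degree_eq_natDegree hv2.ne_zero, hv2d] at this
  have hφb : φ b = φ v ^ 2 * (φ z - φ a) := by
    have : φ b + φ v ^ 2 * φ a = φ v ^ 2 * φ z := by
      rw [← hφf, ← hab, map_add, map_mul, map_pow]
    linear_combination this
  have hza : φ z - φ a = 0 := by
    by_contra hne
    have h1 : (φ b).degree < ((2 * e : ℕ) : WithBot ℕ) :=
      lt_of_le_of_lt (by rw [hφ, coe_mapRingHom]; exact degree_map_le) hbd
    have h2 : (φ b).natDegree = 2 * e + (φ z - φ a).natDegree := by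
      rw [hφb, (hφvm.pow 2).natDegree_mul' hne, hφvm.natDegree_pow, hφvd]
    have h3 : φ b ≠ 0 := by
      rw [hφb]; exact mul_ne_zero (hφvm.pow 2).ne_zero hne
    rw [degree_eq_natDegree h3, h2] at h1
    have : 2 * e + (φ z - φ a).natDegree < 2 * e := by exact_mod_cast h1
    omega
  obtain ⟨z', hz'⟩ : C π ∣ z - a := by rw [← hφz, map_sub, hza]
  set w := y + v * z' with hw
  have hfw : f = v ^ 2 * a + C π * v * w + C (π ^ 2) * x := by
    have h1 : z = a + C π * z' := by rw [← hz']; ring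
    rw [hxyz, h1, hw]; ring
  have hbw : b = C π * (v * w + C π * x) := by
    have : b = f - v ^ 2 * a := by rw [← hab]; ring
    rw [this, hfw, C_pow]; ring
  have hvw : (φ v * φ w).degree < ((2 * e : ℕ) : WithBot ℕ) := by
    have h1 : (v * w + C π * x).degree < ((2 * e : ℕ) : WithBot ℕ) := by
      rw [hbw, degree_C_mul hπ0] at hbd
      exact hbd
    have h2 : φ v * φ w = φ (v * w + C π * x) := by
      rw [map_add φ (v * w), map_mul φ v w, map_mul φ (C π) x, hφπ, zero_mul, add_zero]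
    rw [h2]
    exact lt_of_le_of_lt (by rw [hφ, coe_mapRingHom]; exact degree_map_le) h1
  have hwd : (w.map (AdjoinRoot.mk π)).degree < (e : WithBot ℕ) := by
    change (φ w).degree < _
    by_cases h0 : φ w = 0
    · rw [h0, degree_zero]; exact WithBot.bot_lt_coe e
    · have h1 : φ v * φ w ≠ 0 := mul_ne_zero hφvm.ne_zero h0
      rw [degree_eq_natDegree h1, hφvm.natDegree_mul' h0, hφvd] at hvw
      have : e + (φ w).natDegree < 2 * e := by exact_mod_cast hvw
      rw [degree_eq_natDegree h0]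
      exact_mod_cast (by omega : (φ w).natDegree < e)
  obtain ⟨uc, sc, hsc⟩ := exists_low hm w hwd hπ1
  obtain ⟨ua, sa, hsa⟩ := exists_bld hm2 hπ2 ham had
  obtain ⟨e', rfl⟩ : ∃ e', e = e' + 1 := ⟨e - 1, by omega⟩
  refine ⟨⟨⟨e', by omega⟩, (u, ua, uc)⟩, ⟨v ^ 2 * sa + v * sc + x, ?_⟩⟩
  have h1 : a = bld (2 * g + 1 - 2 * (e' + 1)) ua + C (π ^ 2) * sa := by rw [← hsa]; ring
  have h2 : w = low (e' + 1) uc + C π * sc := by rw [← hsc]; ring
  simp only [Psi]
  rw [← hv, hfw]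
  conv_lhs => rw [h1, h2]
  rw [C_pow]
  ring

private theorem rep_inj {g : ℕ} {m : F[X]} {f f' : F[X][X]} (hf : f ∈ Rep g m)
    (hf' : f' ∈ Rep g m) (h : C m ∣ f - f') : f = f' := by
  obtain ⟨h1, h2, h3⟩ := hf
  obtain ⟨h1', h2', h3'⟩ := hf'
  rw [C_dvd_iff_dvd_coeff] at h
  ext1 j
  rcases lt_trichotomy j (2 * g + 1) with hj | hj | hj
  · have h4 := h j
    rw [coeff_sub] at h4
    have h5 : (f.coeff j - f'.coeff j).degree < m.degree :=
      lt_of_le_of_lt (degree_sub_le _ _) (max_lt (h3 j (by omega)) (h3' j (by omega)))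
    exact sub_eq_zero.mp (eq_zero_of_dvd_of_degree_lt h4 h5)
  · have e1 : f.coeff j = 1 := by
      rw [hj, ← h2]; exact h1
    have e2 : f'.coeff j = 1 := by
      rw [hj, ← h2']; exact h1'
    rw [e1, e2]
  · rw [coeff_eq_zero_of_natDegree_lt (by omega), coeff_eq_zero_of_natDegree_lt (by omega)]

private theorem card_degLT [Finite F] (D : ℕ) : Nat.card (degreeLT F D) = Nat.card F ^ D := by
  rw [Nat.card_congr (degreeLTEquiv F D).toEquiv, Nat.card_fun, Nat.card_fin]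

private instance finDeg [Finite F] (D : ℕ) : Finite (degreeLT F D) :=
  Finite.of_equiv _ (degreeLTEquiv F D).toEquiv.symm

private theorem geom (Q : ℝ) {g k : ℕ} (hk : k ≤ g) :
    (∑ e ∈ Finset.range k, Q ^ (2 * (2 * g + 1) - 2 * (e + 1))) * (Q ^ 2 - 1) =
      Q ^ (2 * (2 * g + 1)) - Q ^ (2 * (2 * g + 1) - 2 * k) := by
  induction k with
  | zero => simp
  | succ k ih =>
    rw [Finset.sum_range_succ, add_mul, ih (by omega)]
    have : Q ^ (2 * (2 * g + 1) - 2 * k) = Q ^ (2 * (2 * g + 1) - 2 * (k + 1)) * Q ^ 2 := by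
      rw [← pow_add]; congr 1; omega
    rw [this]; ring

end

theorem irr_local [Finite F] {g : ℕ} {π : F[X]} (hπ : Irreducible π) (hm : π.Monic) :
    ({f | f ∈ Rep g (π ^ 2) ∧ IrrAt f π}.ncard : ℝ) * (((Nat.card F : ℝ) ^ π.natDegree) ^ 2 - 1) ≤
      ((Nat.card F : ℝ) ^ π.natDegree) ^ (2 * (2 * g + 1)) := by
  classical
  set S : Set F[X][X] := {f | f ∈ Rep g (π ^ 2) ∧ IrrAt f π} with hS
  set D := π.natDegree with hD
  have hD2 : (π ^ 2).natDegree = 2 * D := by rw [hm.natDegree_pow]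
  have hex : ∀ f : S, ∃ z : Σ e : Fin g, (Fin ((e : ℕ) + 1) → degreeLT F π.natDegree) ×
      (Fin (2 * g + 1 - 2 * ((e : ℕ) + 1)) → degreeLT F (π ^ 2).natDegree) ×
      (Fin ((e : ℕ) + 1) → degreeLT F π.natDegree), C (π ^ 2) ∣ (f : F[X][X]) - Psi π z.2 :=
    fun f => exists_data hπ hm f.2.1.1 f.2.1.2.1 f.2.2
  choose Z hZ using hex
  have hinj : Function.Injective Z := by
    intro f f' hff
    have h1 := hZ f
    have h2 := hZ f'
    rw [hff] at h1
    have h3 : C (π ^ 2) ∣ (f : F[X][X]) - f' := by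
      have := dvd_sub h1 h2
      simpa using this
    exact Subtype.ext (rep_inj f.2.1 f'.2.1 h3)
  have hcard := Nat.card_le_card_of_injective Z hinj
  rw [Nat.card_coe_set_eq, Nat.card_sigma] at hcard
  have hcard' : S.ncard ≤ ∑ e ∈ Finset.range g,
      (Nat.card F ^ D) ^ (2 * (2 * g + 1) - 2 * (e + 1)) := by
    rw [← Fin.sum_univ_eq_sum_range
      (fun e => (Nat.card F ^ D) ^ (2 * (2 * g + 1) - 2 * (e + 1)))]
    refine hcard.trans (le_of_eq (Finset.sum_congr rfl fun e _ => ?_))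
    rw [Nat.card_prod, Nat.card_prod, Nat.card_fun, Nat.card_fun, card_degLT, card_degLT,
      Nat.card_fin, Nat.card_fin, hD2, ← hD, ← pow_mul, ← pow_mul, ← pow_mul, ← pow_add,
      ← pow_add]
    congr 1
    have he := e.2
    obtain ⟨k, hk⟩ : ∃ k, 2 * g + 1 = k + 2 * ((e : ℕ) + 1) :=
      ⟨2 * g + 1 - 2 * ((e : ℕ) + 1), by omega⟩
    rw [hk]
    have e1 : k + 2 * ((e : ℕ) + 1) - 2 * ((e : ℕ) + 1) = k := by omega
    have e2 : 2 * (k + 2 * ((e : ℕ) + 1)) - 2 * ((e : ℕ) + 1) = 2 * k + 2 * ((e : ℕ) + 1) := by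
      omega
    rw [e1, e2]
    ring
  have hq : (1 : ℝ) ≤ (Nat.card F : ℝ) ^ D := by
    have : 1 ≤ Nat.card F := Nat.one_le_iff_ne_zero.mpr Nat.card_pos.ne'
    exact one_le_pow₀ (by exact_mod_cast this)
  have hQ2 : (0 : ℝ) ≤ ((Nat.card F : ℝ) ^ D) ^ 2 - 1 := by nlinarith
  have h1 : (S.ncard : ℝ) ≤ ∑ e ∈ Finset.range g,
      ((Nat.card F : ℝ) ^ D) ^ (2 * (2 * g + 1) - 2 * (e + 1)) := by
    exact_mod_cast hcard'
  calc (S.ncard : ℝ) * (((Nat.card F : ℝ) ^ D) ^ 2 - 1)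
      ≤ (∑ e ∈ Finset.range g, ((Nat.card F : ℝ) ^ D) ^ (2 * (2 * g + 1) - 2 * (e + 1))) *
          (((Nat.card F : ℝ) ^ D) ^ 2 - 1) := mul_le_mul_of_nonneg_right h1 hQ2
    _ = ((Nat.card F : ℝ) ^ D) ^ (2 * (2 * g + 1)) -
          ((Nat.card F : ℝ) ^ D) ^ (2 * (2 * g + 1) - 2 * g) := geom _ le_rfl
    _ ≤ ((Nat.card F : ℝ) ^ D) ^ (2 * (2 * g + 1)) := by
        have : (0 : ℝ) ≤ ((Nat.card F : ℝ) ^ D) ^ (2 * (2 * g + 1) - 2 * g) := by positivity
        linarith

end Pool.Agent.Helper96.PS
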