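import Pool.Agent.Helper96.PS.TypeSym
import Pool.Agent.Helper96.PS.SqLocAlg

/-!
# PS-T3c: the Lagrangian of `(z, 𝔞)`

`f` good, `z ∈ O`, `dg z = 2 μ`, `𝔞² 𝔓 = (z)`, `𝔓 = ∏_{P ∈ s} P` (distinct maximal ideals; only used for the nondegeneracy: any nonzero `𝔓` works),
`y ∈ 𝔞` with `y ∉ 𝔞 P` for `P ∈ s`, `q ∈ A` monic with `q ∈ 𝔓`. For `c ∈ O` put `Ψ(c) = coeff_{deg q - 1} (τ(q y² c / z) mod q)`: `z ∣ q y² c` since
`y² ∈ 𝔞²`, `q ∈ 𝔓`. (`Ψ(c)` is the residue at infinity of `τ(y² c / z)`.) `res` notation: for `r ∈ A`, `res(r) = coeff_{deg q - 1}(r mod q)`, `F`-linear;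
for `a, b ∈ 𝔞`: `β(a, b) = res(τ(dv z (q a b)))`.

(1) `β(a, b) = 0` for `a ∈ 𝔞`, `b ∈ 𝔞𝔓`: `ab ∈ 𝔞²𝔓 = (z)`, so `q ab/z ∈ q O`, `τ ∈ q A`, residue mod `q` is `0`.
(2) If `a ∈ 𝔞` and `β(a, b) = 0` for all `b ∈ 𝔞` then `a ∈ 𝔞𝔓`: for `b ∈ 𝔞`, `c ∈ A`, `o ∈ O`: `res(c τ(q a b o/z)) = 0` for all `c ∈ A`; if `r ∈ A` and `res(c r) = 0` for all `c ∈ A` then
`q ∣ r` (reduce `r` mod `q`; if `r ≠ 0`, `deg r < deg q`, take `c = t^{deg q - 1 - deg r}`). So `q ∣ τ((q ab/z) o)` for all `o ∈ O`, so `q ∣ q ab/z` in `O`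
(`dvd_of_dual`), `z ∣ ab` for all `b ∈ 𝔞`: `a 𝔞 ⊆ (z) = 𝔞² 𝔓`, `a ∈ 𝔞𝔓` (cancel `𝔞`).
(3) For `a, b ∈ W₀ = lev 𝔞 (gn + μ)` (`dg < gn + μ`): `dg(qab/z) ≤ deg q + 2(gn + μ - 1) - 2μ`, so `deg τ(qab/z) ≤ deg q - 2` (`co_le_dg`, `j = 2g`) or it is `0`: equal to its
residue mod `q` and the coefficient of `t^{deg q - 1}` vanishes. `β(a, b) = 0`.
(4) The map `O/𝔓 → 𝔞/𝔞𝔓`, `c ↦ y c`, is an isomorphism: injective: `y c ∈ 𝔞𝔓`, `(y) = 𝔞 K` with `K` prime to all `P ∈ s`, so `K c ⊆ 𝔓`, `c ∈ P` for all `P ∈ s`, `c ∈ 𝔓`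
(distinct maximal ideals: the product is the intersection). Surjective: dimensions `ix (𝔞𝔓) - ix 𝔞 = ix 𝔓` (`ix_mul`).
`W` = the set of `c mod 𝔓` with `y c ∈ W₀ + 𝔞𝔓`. Isotropic: `y a = w + p`, `y b = w' + p'`: `β(ya, yb) = β(w, w') = 0` by (1), (3). Dimension: `W ≅ (W₀ + 𝔞𝔓)/𝔞𝔓 ≅ W₀/(W₀ ∩ 𝔞𝔓)`,
`W₀ ∩ 𝔞𝔓 = lev (𝔞𝔓) (gn + μ)`, so by `finrank_sub` (`I = 𝔞`, `J = 𝔞𝔓`, `I J = (z)`): `2 dim W = ix(𝔞𝔓) - ix 𝔞 = ix 𝔓 = dim O/𝔓`.
-/

namespace Pool.Agent.Helper96.PS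

open Polynomial

variable {F : Type*} [Field F] {g n : ℕ} {w : F[X]} {f : F[X][X]}

private theorem of_ne (h : Good g n w f) {q : F[X]} (hq : q ≠ 0) : AdjoinRoot.of f q ≠ 0 := by
  intro h0
  have h1 := dg_of h.toPre q
  rw [h0, dg_zero] at h1
  exact hq (degree_eq_bot.1 h1.symm)

private theorem res_dvd {q r : F[X]} (hq : q.Monic)
    (hr : ∀ c : F[X], ((c * r) %ₘ q).coeff (q.natDegree - 1) = 0) : q ∣ r := by
  rw [← modByMonic_eq_zero_iff_dvd hq]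
  by_contra hne
  have hlt : (r %ₘ q).degree < q.degree := degree_modByMonic_lt r hq
  have hlt' : (r %ₘ q).natDegree < q.natDegree := natDegree_lt_natDegree hne hlt
  have h1 := hr (X ^ (q.natDegree - 1 - (r %ₘ q).natDegree))
  have h2 : (X ^ (q.natDegree - 1 - (r %ₘ q).natDegree) * r) %ₘ q =
      X ^ (q.natDegree - 1 - (r %ₘ q).natDegree) * (r %ₘ q) := by
    have h3 : X ^ (q.natDegree - 1 - (r %ₘ q).natDegree) * r =
        X ^ (q.natDegree - 1 - (r %ₘ q).natDegree) * (r %ₘ q) +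
          q * (X ^ (q.natDegree - 1 - (r %ₘ q).natDegree) * (r /ₘ q)) := by
      have h5 := modByMonic_add_div r q
      generalize q.natDegree - 1 - (r %ₘ q).natDegree = k
      linear_combination (-(X ^ k)) * h5
    rw [h3, add_modByMonic, (modByMonic_eq_zero_iff_dvd hq).2 (dvd_mul_right _ _), add_zero,
      modByMonic_eq_self_iff hq]
    rw [degree_eq_natDegree hq.ne_zero, degree_eq_natDegree
      (mul_ne_zero (pow_ne_zero _ X_ne_zero) hne), natDegree_mul (pow_ne_zero _ X_ne_zero) hne,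
      natDegree_X_pow]
    exact_mod_cast (by omega)
  rw [h2, coeff_X_pow_mul'] at h1
  rw [if_pos (by omega)] at h1
  have h4 : q.natDegree - 1 - (q.natDegree - 1 - (r %ₘ q).natDegree) = (r %ₘ q).natDegree := by
    omega
  rw [h4] at h1
  exact hne (leadingCoeff_eq_zero.1 h1)

private theorem mem_z {z : AdjoinRoot f} {𝔞 𝔓 : Ideal (AdjoinRoot f)}
    (hz : 𝔞 ^ 2 * 𝔓 = Ideal.span {z}) {a b p : AdjoinRoot f} (ha : a ∈ 𝔞) (hb : b ∈ 𝔞)
    (hp : p ∈ 𝔓) : z ∣ p * (a * b) := by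
  rw [← Ideal.mem_span_singleton, ← hz, mul_comm p]
  refine Ideal.mul_mem_mul ?_ hp
  rw [sq]
  exact Ideal.mul_mem_mul ha hb

theorem nondeg (h : Good g n w f) {z : AdjoinRoot f} (hz0 : z ≠ 0) {𝔞 𝔓 : Ideal (AdjoinRoot f)}
    (hz : 𝔞 ^ 2 * 𝔓 = Ideal.span {z}) {q : F[X]} (hq : q.Monic) (hqP : AdjoinRoot.of f q ∈ 𝔓)
    {a : AdjoinRoot f} (ha : a ∈ 𝔞)
    (h0 : ∀ b ∈ 𝔞, ((co h.monic (2 * g) (dv z (AdjoinRoot.of f q * (a * b)))) %ₘ q).coeff
      (q.natDegree - 1) = 0) : a ∈ 𝔞 * 𝔓 := by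
  haveI hded := isDedekind h
  haveI hdom : IsDomain (AdjoinRoot f) := isDomain h.toPre
  have hqne := of_ne h hq.ne_zero
  have ha0 : 𝔞 ≠ ⊥ := by
    intro h1
    apply hz0
    rw [h1] at hz
    have h2 : z ∈ Ideal.span {z} := Ideal.mem_span_singleton_self z
    rw [← hz, sq, Ideal.bot_mul, Ideal.bot_mul, Ideal.mem_bot] at h2
    exact h2
  have hzab : ∀ b ∈ 𝔞, z ∣ a * b := by
    intro b hb
    have hd := mem_z hz ha hb hqP
    obtain ⟨t, ht⟩ := hd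
    have h1 : AdjoinRoot.of f q ∣ t := by
      refine dvd_of_dual h.monic (m := 2 * g) h.natDegree fun o => res_dvd hq fun c => ?_
      have h2 := h0 (AdjoinRoot.of f c * o * b) (𝔞.mul_mem_left _ hb)
      have h3 : AdjoinRoot.of f q * (a * (AdjoinRoot.of f c * o * b)) =
          z * (AdjoinRoot.of f c * (t * o)) := by
        calc AdjoinRoot.of f q * (a * (AdjoinRoot.of f c * o * b)) =
            (AdjoinRoot.of f q * (a * b)) * (AdjoinRoot.of f c * o) := by ring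
          _ = z * (AdjoinRoot.of f c * (t * o)) := by rw [ht]; ring
      rw [h3, dv_mul hz0, co_of_mul] at h2
      exact h2
    obtain ⟨t', ht'⟩ := h1
    refine ⟨t', mul_left_cancel₀ hqne ?_⟩
    rw [ht, ht']
    ring
  have hle : Ideal.span {a} * 𝔞 ≤ (𝔞 * 𝔓) * 𝔞 := by
    have h1 : (𝔞 * 𝔓) * 𝔞 = Ideal.span {z} := by rw [← hz]; ring
    rw [h1, Ideal.mul_le]
    intro r hr b hb
    rw [Ideal.mem_span_singleton] at hr ⊢
    obtain ⟨t, ht⟩ := hr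
    rw [ht]
    obtain ⟨t', ht'⟩ := hzab b hb
    exact ⟨t' * t, by rw [mul_right_comm, ht']; ring⟩
  have h2 : 𝔞 * 𝔓 ∣ Ideal.span {a} := by
    rw [← mul_dvd_mul_iff_right ha0]
    exact Ideal.dvd_iff_le.2 hle
  exact Ideal.dvd_iff_le.1 h2 (Ideal.mem_span_singleton_self a)

theorem lagrangian (h : Good g n w f) {z : AdjoinRoot f} {μ : ℕ}
    (hzμ : dg h.monic n z = ((2 * μ : ℕ) : WithBot ℕ)) {𝔞 : Ideal (AdjoinRoot f)}
    (s : Finset (Ideal (AdjoinRoot f))) (hs : ∀ P ∈ s, P.IsMaximal)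
    (hz : 𝔞 ^ 2 * ∏ P ∈ s, P = Ideal.span {z}) {q : F[X]} (hq : q.Monic)
    (hqP : AdjoinRoot.of f q ∈ ∏ P ∈ s, P) {y : AdjoinRoot f} (hy : y ∈ 𝔞)
    (hyP : ∀ P ∈ s, y ∉ 𝔞 * P) :
    ∃ W : Submodule F (AdjoinRoot f ⧸ ∏ P ∈ s, P),
      2 * Module.finrank F W = Module.finrank F (AdjoinRoot f ⧸ ∏ P ∈ s, P) ∧
      ∀ a b : AdjoinRoot f, Ideal.Quotient.mk _ a ∈ W → Ideal.Quotient.mk _ b ∈ W →
        ((co h.monic (2 * g) (dv z (AdjoinRoot.of f q * (y ^ 2 * (a * b))))) %ₘ q).coeff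
          (q.natDegree - 1) = 0 := by
  classical
  haveI hded := isDedekind h
  haveI hdom : IsDomain (AdjoinRoot f) := isDomain h.toPre
  obtain ⟨𝔓, h𝔓⟩ : ∃ 𝔓 : Ideal (AdjoinRoot f), 𝔓 = ∏ P ∈ s, P := ⟨_, rfl⟩
  have hcopr : ∀ K : Ideal (AdjoinRoot f), (∀ P ∈ s, ¬ K ≤ P) → IsCoprime K 𝔓 := by
    intro K hK
    rw [h𝔓]
    refine IsCoprime.prod_right fun P hP => ?_
    rw [Ideal.isCoprime_iff_sup_eq]
    have h1 := (hs P hP).out.2 (K ⊔ P)
    refine h1 (lt_of_le_of_ne le_sup_right ?_)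
    intro h2
    apply hK P hP
    rw [h2]
    exact le_sup_left
  clear hs
  rw [← h𝔓] at hz hqP ⊢
  have hz0 : z ≠ 0 := by
    intro h1
    rw [h1, dg_zero] at hzμ
    exact absurd hzμ.symm (WithBot.coe_ne_bot)
  have ha0 : 𝔞 ≠ ⊥ := by
    intro h1
    apply hz0
    rw [h1] at hz
    have h2 : z ∈ Ideal.span {z} := Ideal.mem_span_singleton_self z
    rw [← hz, sq, Ideal.bot_mul, Ideal.bot_mul, Ideal.mem_bot] at h2
    exact h2
  have hP0 : 𝔓 ≠ ⊥ := by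
    intro h1
    apply hz0
    rw [h1] at hz
    have h2 : z ∈ Ideal.span {z} := Ideal.mem_span_singleton_self z
    rw [← hz, Ideal.mul_bot, Ideal.mem_bot] at h2
    exact h2
  have haP0 : 𝔞 * 𝔓 ≠ ⊥ := mul_ne_zero ha0 hP0
  have haP : 𝔞 * 𝔓 ≤ 𝔞 := Ideal.mul_le_inf.trans inf_le_left
  have hIJ : 𝔞 * (𝔞 * 𝔓) = Ideal.span {z} := by rw [← hz]; ring
  -- the residue form
  have hlin : ∀ a a' b, a ∈ 𝔞 → a' ∈ 𝔞 → b ∈ 𝔞 →
      ((co h.monic (2 * g) (dv z (AdjoinRoot.of f q * ((a + a') * b)))) %ₘ q).coeff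
          (q.natDegree - 1) =
        ((co h.monic (2 * g) (dv z (AdjoinRoot.of f q * (a * b)))) %ₘ q).coeff
          (q.natDegree - 1) +
        ((co h.monic (2 * g) (dv z (AdjoinRoot.of f q * (a' * b)))) %ₘ q).coeff
          (q.natDegree - 1) := by
    intro a a' b ha ha' hb
    obtain ⟨t, ht⟩ := mem_z hz ha hb hqP
    obtain ⟨t', ht'⟩ := mem_z hz ha' hb hqP
    have h1 : AdjoinRoot.of f q * ((a + a') * b) = z * (t + t') := by
      rw [mul_add, ← ht, ← ht']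
      ring
    rw [h1, ht, ht', dv_mul hz0, dv_mul hz0, dv_mul hz0, map_add, add_modByMonic, coeff_add]
  have hzero1 : ∀ a b, a ∈ 𝔞 → b ∈ 𝔞 * 𝔓 →
      ((co h.monic (2 * g) (dv z (AdjoinRoot.of f q * (a * b)))) %ₘ q).coeff
          (q.natDegree - 1) = 0 := by
    intro a b ha hb
    have h1 : z ∣ a * b := by
      rw [← Ideal.mem_span_singleton, ← hIJ]
      exact Ideal.mul_mem_mul ha hb
    obtain ⟨t, ht⟩ := h1
    have h2 : AdjoinRoot.of f q * (a * b) = z * (AdjoinRoot.of f q * t) := by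
      rw [ht]
      ring
    rw [h2, dv_mul hz0, co_of_mul, (modByMonic_eq_zero_iff_dvd hq).2 (dvd_mul_right _ _),
      coeff_zero]
  have hzero2 : ∀ a b, a ∈ lev h.monic n 𝔞 (g * n + μ) → b ∈ lev h.monic n 𝔞 (g * n + μ) →
      ((co h.monic (2 * g) (dv z (AdjoinRoot.of f q * (a * b)))) %ₘ q).coeff
          (q.natDegree - 1) = 0 := by
    intro a b ha hb
    rw [mem_lev] at ha hb
    obtain ⟨t, ht⟩ := mem_z hz ha.1 hb.1 hqP
    rw [ht, dv_mul hz0]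
    by_cases hτ : co h.monic (2 * g) t = 0
    · rw [hτ, zero_modByMonic, coeff_zero]
    have ht0 : t ≠ 0 := by
      intro h1
      rw [h1, map_zero] at hτ
      exact hτ rfl
    have hab0 : a * b ≠ 0 := by
      intro h1
      rw [h1, mul_zero] at ht
      exact mul_ne_zero hz0 ht0 ht.symm
    have ha1 : a ≠ 0 := left_ne_zero_of_mul hab0
    have hb1 : b ≠ 0 := right_ne_zero_of_mul hab0
    obtain ⟨m1, hm1⟩ := exists_dg h.monic n ha1
    obtain ⟨m2, hm2⟩ := exists_dg h.monic n hb1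
    obtain ⟨m3, hm3⟩ := exists_dg h.monic n ht0
    have e1 := congrArg (dg h.monic n) ht
    rw [dg_mul h.toPre, dg_mul h.toPre, dg_mul h.toPre, dg_of h.toPre, hm1, hm2, hm3, hzμ,
      degree_eq_natDegree hq.ne_zero] at e1
    have e2 : q.natDegree + (m1 + m2) = 2 * μ + m3 := by exact_mod_cast e1
    have e3 := co_le_dg h.monic n (2 * g) t
    rw [hm3, degree_eq_natDegree hτ] at e3
    have e4 : (co h.monic (2 * g) t).natDegree + 2 * g * n ≤ m3 := by exact_mod_cast e3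
    have e5 : m1 < g * n + μ := by
      have := ha.2
      rw [hm1] at this
      exact_mod_cast this
    have e6 : m2 < g * n + μ := by
      have := hb.2
      rw [hm2] at this
      exact_mod_cast this
    have e7 : (co h.monic (2 * g) t).natDegree + 2 ≤ q.natDegree := by
      have e8 : 2 * g * n = g * n + g * n := by ring
      omega
    rw [(modByMonic_eq_self_iff hq).2]
    · exact coeff_eq_zero_of_natDegree_lt (by omega)
    · rw [degree_eq_natDegree hτ, degree_eq_natDegree hq.ne_zero]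
      exact_mod_cast (by omega)
  -- finiteness
  haveI hf1 : Module.Finite F (AdjoinRoot f ⧸ 𝔓) := finite_quot h.toPre hP0
  haveI hf2 : Module.Finite F (AdjoinRoot f ⧸ 𝔞 * 𝔓) := finite_quot h.toPre haP0
  haveI hf3 : Module.Finite F (AdjoinRoot f ⧸ 𝔞) := finite_quot h.toPre ha0
  haveI hf4 : Module.Finite F (lev h.monic n 𝔞 (g * n + μ)) := finite_lev h.toPre _ _
  -- multiplication by y
  have hyc : 𝔓 ≤ Submodule.comap (LinearMap.mulLeft (AdjoinRoot f) y) (𝔞 * 𝔓) := by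
    intro c hc
    rw [Submodule.mem_comap, LinearMap.mulLeft_apply]
    exact Ideal.mul_mem_mul hy hc
  obtain ⟨Y, hY⟩ : ∃ Y : (AdjoinRoot f ⧸ 𝔓) →ₗ[F] (AdjoinRoot f ⧸ 𝔞 * 𝔓),
      ∀ c, Y (Ideal.Quotient.mk 𝔓 c) = Ideal.Quotient.mk (𝔞 * 𝔓) (y * c) :=
    ⟨(Submodule.mapQ 𝔓 (𝔞 * 𝔓) (LinearMap.mulLeft (AdjoinRoot f) y) hyc).restrictScalars F,
      fun c => rfl⟩
  have hYinj : Function.Injective Y := by
    rw [← LinearMap.ker_eq_bot, Submodule.eq_bot_iff]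
    intro x hx
    obtain ⟨c, rfl⟩ := Ideal.Quotient.mk_surjective x
    rw [LinearMap.mem_ker, hY, Ideal.Quotient.eq_zero_iff_mem] at hx
    rw [Ideal.Quotient.eq_zero_iff_mem]
    have h1 : 𝔞 ∣ Ideal.span {y} := by
      rw [Ideal.dvd_span_singleton]
      exact hy
    obtain ⟨K, hK⟩ := h1
    have hKP : ∀ P ∈ s, ¬ K ≤ P := by
      intro P hP hle
      apply hyP P hP
      have h2 : y ∈ Ideal.span {y} := Ideal.mem_span_singleton_self y
      rw [hK] at h2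
      exact Ideal.mul_mono_right hle h2
    have h3 := hcopr K hKP
    have h4 : 𝔞 * 𝔓 ∣ 𝔞 * (K * Ideal.span {c}) := by
      rw [← mul_assoc, ← hK, Ideal.span_singleton_mul_span_singleton, Ideal.dvd_span_singleton]
      exact hx
    rw [mul_dvd_mul_iff_left ha0] at h4
    have h5 : 𝔓 ∣ Ideal.span {c} := h3.symm.dvd_of_dvd_mul_left h4
    rwa [Ideal.dvd_span_singleton] at h5
  -- the quotient map
  obtain ⟨φ, hφ⟩ : ∃ φ : (AdjoinRoot f ⧸ 𝔞 * 𝔓) →ₗ[F] (AdjoinRoot f ⧸ 𝔞),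
      ∀ c, φ (Ideal.Quotient.mk (𝔞 * 𝔓) c) = Ideal.Quotient.mk 𝔞 c :=
    ⟨(Ideal.Quotient.factorₐ F haP).toLinearMap, fun c => rfl⟩
  have hφs : Function.Surjective φ := by
    intro x
    obtain ⟨c, rfl⟩ := Ideal.Quotient.mk_surjective x
    exact ⟨_, hφ c⟩
  have hk1 : ix 𝔞 + Module.finrank F (LinearMap.ker φ) = ix (𝔞 * 𝔓) := by
    have h1 := LinearMap.finrank_range_add_finrank_ker φ
    rw [LinearMap.range_eq_top.2 hφs, finrank_top] at h1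
    exact h1
  have hixm := ix_mul h ha0 hP0
  have hrange : LinearMap.range Y = LinearMap.ker φ := by
    apply Submodule.eq_of_le_of_finrank_eq
    · rintro _ ⟨x, rfl⟩
      obtain ⟨c, rfl⟩ := Ideal.Quotient.mk_surjective x
      rw [LinearMap.mem_ker, hY, hφ, Ideal.Quotient.eq_zero_iff_mem]
      exact 𝔞.mul_mem_right c hy
    · rw [LinearMap.finrank_range_of_inj hYinj]
      have h1 : Module.finrank F (AdjoinRoot f ⧸ 𝔓) = ix 𝔓 := rfl
      omega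
  obtain ⟨M, hM⟩ : ∃ M : AdjoinRoot f →ₗ[F] (AdjoinRoot f ⧸ 𝔞 * 𝔓),
      ∀ c, M c = Ideal.Quotient.mk (𝔞 * 𝔓) c :=
    ⟨(Ideal.Quotient.mkₐ F (𝔞 * 𝔓)).toLinearMap, fun c => rfl⟩
  obtain ⟨S, hS⟩ : ∃ S : Submodule F (AdjoinRoot f ⧸ 𝔞 * 𝔓),
      S = Submodule.map M (lev h.monic n 𝔞 (g * n + μ)) := ⟨_, rfl⟩
  have hSr : S ≤ LinearMap.range Y := by
    rw [hrange, hS]
    rintro _ ⟨a, ha, rfl⟩
    rw [LinearMap.mem_ker, hM, hφ, Ideal.Quotient.eq_zero_iff_mem]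
    exact ha.1
  have hSdim : Module.finrank F S + Module.finrank F (lev h.monic n (𝔞 * 𝔓) (g * n + μ)) =
      Module.finrank F (lev h.monic n 𝔞 (g * n + μ)) := by
    have h1 := LinearMap.finrank_range_add_finrank_ker
      (M.domRestrict (lev h.monic n 𝔞 (g * n + μ)))
    have h2 : LinearMap.range (M.domRestrict (lev h.monic n 𝔞 (g * n + μ))) = S := by
      rw [hS]
      ext x
      constructor
      · rintro ⟨a, rfl⟩
        exact ⟨a, a.2, rfl⟩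
      · rintro ⟨a, ha, rfl⟩
        exact ⟨⟨a, ha⟩, rfl⟩
    have hle : lev h.monic n (𝔞 * 𝔓) (g * n + μ) ≤ lev h.monic n 𝔞 (g * n + μ) := by
      intro a ha
      rw [mem_lev] at ha ⊢
      exact ⟨haP ha.1, ha.2⟩
    have h3 : LinearMap.ker (M.domRestrict (lev h.monic n 𝔞 (g * n + μ))) =
        Submodule.comap (lev h.monic n 𝔞 (g * n + μ)).subtype
          (lev h.monic n (𝔞 * 𝔓) (g * n + μ)) := by
      ext x
      rw [LinearMap.mem_ker, LinearMap.domRestrict_apply, hM, Ideal.Quotient.eq_zero_iff_mem,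
        Submodule.mem_comap, mem_lev]
      constructor
      · intro hx
        exact ⟨hx, x.2.2⟩
      · intro hx
        exact hx.1
    rw [h2, h3, (Submodule.comapSubtypeEquivOfLe hle).finrank_eq] at h1
    exact h1
  refine ⟨Submodule.comap Y S, ?_, ?_⟩
  · have h1 : Module.finrank F (Submodule.comap Y S) = Module.finrank F S := by
      rw [(Submodule.equivMapOfInjective Y hYinj (Submodule.comap Y S)).finrank_eq,
        Submodule.map_comap_eq_self hSr]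
    have h2 := finrank_sub h hzμ hIJ
    have h3 : Module.finrank F (AdjoinRoot f ⧸ 𝔓) = ix 𝔓 := rfl
    rw [h1, h3]
    omega
  · have hmem : ∀ a, Ideal.Quotient.mk 𝔓 a ∈ Submodule.comap Y S →
        ∃ v ∈ lev h.monic n 𝔞 (g * n + μ), ∃ p ∈ 𝔞 * 𝔓, y * a = v + p := by
      intro a ha
      rw [Submodule.mem_comap, hY, hS] at ha
      obtain ⟨v, hv, hv2⟩ := ha
      refine ⟨v, hv, y * a - v, ?_, by ring⟩
      rw [hM] at hv2
      rw [← Ideal.Quotient.eq]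
      exact hv2.symm
    intro a b ha hb
    obtain ⟨v, hv, p, hp, hvp⟩ := hmem a ha
    obtain ⟨v', hv', p', hp', hvp'⟩ := hmem b hb
    have e1 : y ^ 2 * (a * b) = (v + p) * (v' + p') := by
      rw [← hvp, ← hvp']
      ring
    have hsw : ∀ a b, a ∈ 𝔞 * 𝔓 → b ∈ 𝔞 →
        ((co h.monic (2 * g) (dv z (AdjoinRoot.of f q * (a * b)))) %ₘ q).coeff
          (q.natDegree - 1) = 0 := by
      intro a b ha hb
      rw [mul_comm a b]
      exact hzero1 b a hb ha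
    have hv1 : v ∈ 𝔞 := hv.1
    have hv1' : v' ∈ 𝔞 := hv'.1
    rw [e1, hlin v p (v' + p') hv1 (haP hp) (𝔞.add_mem hv1' (haP hp')),
      hsw p (v' + p') hp (𝔞.add_mem hv1' (haP hp')), add_zero, mul_comm v (v' + p'),
      hlin v' p' v hv1' (haP hp') hv1, hsw p' v hp' hv1, add_zero]
    exact hzero2 v' v hv' hv

end Pool.Agent.Helper96.PS
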