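import Pool.Agent.Helper96.PS.Defs

/-!
# PS-S0: regularity is a condition at the irreducible polynomials `π`

`reg_of`: let `m` be a maximal ideal of `F[t][x]` with `f ∈ m²`. `m ∩ F[t]` is maximal (Jacobson rings: `Polynomial.isMaximal_comap_C_of_isJacobsonRing`), `= (π)` with `π` monic irreducible, `m/(π)` is a nonzero (`f` monic of positive degree lies in `m`; or: maximal ideals of `κ[x]` are nonzero) prime of the PID `κ[x]`, generated by
a monic irreducible `v̄`; `v` a monic lift: `m = (π, v)`, `m² = (π², π v, v²)`. So `IrrAt f π`.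
`not_irrAt_of_TS`: `IrrAt f π` implies `v̄² ∣ f̄`. If `f̄ = (x - r) h` with `h` irreducible of degree `2g ≥ 2`, `v̄` is (associated to) `x - r` or `h`, and `v̄² ∤ f̄`. `TI`: `f̄` irreducible.
`irrAt_congr`: the ideal `(π², π v, v²)` contains `π²`; `f ≡ f' mod π²`.
-/

namespace Pool.Agent.Helper96.PS

open Polynomial

variable {F : Type*} [Field F] {f : F[X][X]}

private theorem ro_sub {f f' : F[X][X]} {π : F[X]}
    (h : f.map (AdjoinRoot.mk (π ^ 2)) = f'.map (AdjoinRoot.mk (π ^ 2))) (hi : IrrAt f π) :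
    IrrAt f' π := by
  obtain ⟨v, hv, hvi, hf⟩ := hi
  refine ⟨v, hv, hvi, ?_⟩
  have h1 : C (π ^ 2) ∣ f - f' := by
    rw [Polynomial.C_dvd_iff_dvd_coeff]
    intro i
    rw [← AdjoinRoot.mk_eq_zero, coeff_sub, map_sub, sub_eq_zero]
    have := congrArg (fun q => q.coeff i) h
    simpa only [coeff_map] using this
  obtain ⟨c, hc⟩ := h1
  have h2 : f' = f - C (π ^ 2) * c := by
    rw [← hc]
    ring
  rw [h2]
  exact Ideal.sub_mem _ hf (Ideal.mul_mem_right _ _ (Ideal.subset_span (by simp)))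

private theorem ro_dvd {π : F[X]} {v : F[X][X]}
    (h : f ∈ Ideal.span {C (π ^ 2), C π * v, v ^ 2}) :
    (v.map (AdjoinRoot.mk π)) ^ 2 ∣ f.map (AdjoinRoot.mk π) := by
  have hle : (Ideal.span {C (π ^ 2), C π * v, v ^ 2} : Ideal F[X][X]) ≤
      Ideal.comap (Polynomial.mapRingHom (AdjoinRoot.mk π))
        (Ideal.span {(v.map (AdjoinRoot.mk π)) ^ 2}) := by
    rw [Ideal.span_le]
    rintro x hx
    simp only [Set.mem_insert_iff, Set.mem_singleton_iff] at hx
    rw [SetLike.mem_coe, Ideal.mem_comap, Ideal.mem_span_singleton, coe_mapRingHom]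
    rcases hx with rfl | rfl | rfl
    · rw [map_C, map_pow, AdjoinRoot.mk_self]
      simp
    · rw [Polynomial.map_mul, map_C, AdjoinRoot.mk_self]
      simp
    · rw [Polynomial.map_pow]
  have := hle h
  rwa [Ideal.mem_comap, Ideal.mem_span_singleton, coe_mapRingHom] at this

private theorem ro_gen {K : Type*} [Field K] {I : Ideal K[X]} (hI : I.IsMaximal) :
    ∃ v : K[X], v.Monic ∧ Irreducible v ∧ I = Ideal.span {v} := by
  have hne : I ≠ ⊥ := Ring.ne_bot_of_isMaximal_of_not_isField hI (Polynomial.not_isField K)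
  obtain ⟨w, hw⟩ := (inferInstance : I.IsPrincipal)
  have hw' : I = Ideal.span {w} := hw
  have hw0 : w ≠ 0 := by
    rintro rfl
    exact hne (by rw [hw']; simp)
  have hass : Associated (w * C (leadingCoeff w)⁻¹) w := by
    refine Associated.symm (associated_mul_unit_right _ _ ?_)
    exact Polynomial.isUnit_C.2 (isUnit_iff_ne_zero.2 (inv_ne_zero (leadingCoeff_ne_zero.2 hw0)))
  refine ⟨w * C (leadingCoeff w)⁻¹, monic_mul_leadingCoeff_inv hw0, ?_, ?_⟩
  · rw [hass.irreducible_iff]
    have hp : Prime w := by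
      rw [← Ideal.span_singleton_prime hw0, ← hw']
      exact hI.isPrime
    exact hp.irreducible
  · rw [hw', Ideal.span_singleton_eq_span_singleton]
    exact hass.symm

private theorem ro_max {m : Ideal F[X][X]} (hm : m.IsMaximal) :
    ∃ (π : F[X]) (v : F[X][X]), π.Monic ∧ Irreducible π ∧ v.Monic ∧
      Irreducible (v.map (AdjoinRoot.mk π)) ∧ m ≤ Ideal.span {C π, v} := by
  haveI := hm
  have h1 : (Ideal.comap (C : F[X] →+* F[X][X]) m).IsMaximal :=
    Polynomial.isMaximal_comap_C_of_isJacobsonRing m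
  obtain ⟨π, hπm, hπi, hπ⟩ := ro_gen h1
  haveI : Fact (Irreducible π) := ⟨hπi⟩
  set φ : F[X][X] →+* (AdjoinRoot π)[X] := Polynomial.mapRingHom (AdjoinRoot.mk π) with hφ
  have hsurj : Function.Surjective φ :=
    Polynomial.map_surjective _ AdjoinRoot.mk_surjective
  have hker : ∀ p : F[X][X], φ p = 0 → p ∈ Ideal.span {(C π : F[X][X])} := by
    intro p hp
    rw [Ideal.mem_span_singleton, Polynomial.C_dvd_iff_dvd_coeff]
    intro i
    rw [← AdjoinRoot.mk_eq_zero]
    have := congrArg (fun q => q.coeff i) hp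
    simpa only [hφ, coe_mapRingHom, coeff_map, coeff_zero] using this
  have hπm' : (C π : F[X][X]) ∈ m := by
    have : π ∈ Ideal.comap (C : F[X] →+* F[X][X]) m := by
      rw [hπ]
      exact Ideal.mem_span_singleton_self π
    exact this
  have hkm : RingHom.ker φ ≤ m := by
    intro p hp
    have := hker p hp
    exact (Ideal.span_singleton_le_iff_mem m).2 hπm' this
  have h2 : (Ideal.map φ m).IsMaximal := by
    rcases Ideal.map_eq_top_or_isMaximal_of_surjective φ hsurj hm with h | h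
    · exfalso
      have h3 : Ideal.comap φ (Ideal.map φ m) = m := by
        rw [Ideal.comap_map_of_surjective φ hsurj]
        refine sup_eq_left.2 ?_
        intro p hp
        exact hkm hp
      rw [h, Ideal.comap_top] at h3
      exact hm.ne_top h3.symm
    · exact h
  obtain ⟨u, hum, hui, hu⟩ := ro_gen h2
  obtain ⟨v, hv, -, hvm⟩ := Polynomial.lifts_and_degree_eq_and_monic
    ((Polynomial.mem_lifts _).2 (hsurj u)) hum
  refine ⟨π, v, hπm, hπi, hvm, ?_, ?_⟩
  · rw [hv]
    exact hui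
  · intro p hp
    have h3 : φ p ∈ Ideal.span {u} := by
      rw [← hu]
      exact Ideal.mem_map_of_mem φ hp
    rw [Ideal.mem_span_singleton] at h3
    obtain ⟨q, hq⟩ := h3
    obtain ⟨q', rfl⟩ := hsurj q
    have h4 : φ (p - v * q') = 0 := by
      rw [map_sub, map_mul, hq]
      have : φ v = u := hv
      rw [this, sub_self]
    have h5 := hker _ h4
    have h6 : p = (p - v * q') + v * q' := by ring
    rw [h6]
    refine Ideal.add_mem _ ?_ ?_
    · exact Ideal.span_mono (by simp) h5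
    · exact Ideal.mul_mem_right _ _ (Ideal.subset_span (by simp))

theorem reg_of (h : ∀ π : F[X], π.Monic → Irreducible π → ¬ IrrAt f π) : Reg f := by
  intro m hm hfm hf2
  obtain ⟨π, v, hπm, hπi, hvm, hvi, hle⟩ := ro_max hm
  refine h π hπm hπi ⟨v, hvm, hvi, ?_⟩
  have h1 : m ^ 2 ≤ Ideal.span {C (π ^ 2), C π * v, v ^ 2} := by
    refine (Ideal.pow_right_mono hle 2).trans ?_
    rw [sq (Ideal.span {C π, v}), Ideal.span_pair_mul_span_pair, Ideal.span_le]
    intro x hx
    simp only [Set.mem_insert_iff, Set.mem_singleton_iff] at hx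
    rcases hx with rfl | rfl | rfl | rfl
    · rw [← C_mul, ← sq]
      exact Ideal.subset_span (by simp)
    · exact Ideal.subset_span (by simp)
    · rw [mul_comm]
      exact Ideal.subset_span (by simp)
    · rw [← sq]
      exact Ideal.subset_span (by simp)
  exact h1 hf2

theorem not_irrAt_of_TS {g : ℕ} (hg : 1 ≤ g) {π : F[X]} (hπ : Irreducible π)
    (h : f.map (AdjoinRoot.mk π) ∈ TS (AdjoinRoot π) g) : ¬ IrrAt f π := by
  rintro ⟨v, hvm, hvi, hf⟩
  haveI : Fact (Irreducible π) := ⟨hπ⟩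
  have hd := ro_dvd hf
  obtain ⟨r, k, hkm, hkd, hki, hk⟩ := h
  rw [hk] at hd
  set u := v.map (AdjoinRoot.mk π) with hu
  have hup : Prime u := hvi.prime
  have h1 : u ∣ (X - C r) * k := (dvd_pow_self u two_ne_zero).trans hd
  have hX : Irreducible (X - C r : (AdjoinRoot π)[X]) := irreducible_X_sub_C r
  have hdeg : ¬ Associated (X - C r : (AdjoinRoot π)[X]) k := by
    intro h3
    have h4 := Polynomial.degree_eq_degree_of_associated h3
    rw [degree_X_sub_C, Polynomial.degree_eq_natDegree hkm.ne_zero, hkd] at h4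
    have h5 : 1 = 2 * g := by exact_mod_cast h4
    omega
  rcases hup.dvd_or_dvd h1 with h2 | h2
  · obtain ⟨c, hc⟩ := h2
    have hass : Associated u (X - C r) :=
      (Irreducible.dvd_irreducible_iff_associated hvi hX).1 ⟨c, hc⟩
    have h3 : (X - C r : (AdjoinRoot π)[X]) ^ 2 ∣ (X - C r) * k :=
      (hass.symm.pow_pow (n := 2)).dvd.trans hd
    rw [sq] at h3
    have h4 : (X - C r : (AdjoinRoot π)[X]) ∣ k := (mul_dvd_mul_iff_left hX.ne_zero).1 h3
    exact hdeg ((Irreducible.dvd_irreducible_iff_associated hX hki).1 h4)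
  · have hass : Associated u k := (Irreducible.dvd_irreducible_iff_associated hvi hki).1 h2
    have h3 : k ^ 2 ∣ (X - C r) * k := (hass.symm.pow_pow (n := 2)).dvd.trans hd
    rw [sq] at h3
    have h4 : k ∣ (X - C r : (AdjoinRoot π)[X]) := (mul_dvd_mul_iff_right hki.ne_zero).1 h3
    exact hdeg ((Irreducible.dvd_irreducible_iff_associated hki hX).1 h4).symm

theorem not_irrAt_of_TI {g : ℕ} {π : F[X]} (hπ : Irreducible π)
    (h : f.map (AdjoinRoot.mk π) ∈ TI (AdjoinRoot π) g) : ¬ IrrAt f π := by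
  rintro ⟨v, hvm, hvi, hf⟩
  haveI : Fact (Irreducible π) := ⟨hπ⟩
  have hd := ro_dvd hf
  rw [sq] at hd
  obtain ⟨-, -, hi⟩ := h
  exact hvi.not_isUnit (hi.squarefree _ hd)

theorem irrAt_congr {f f' : F[X][X]} {π : F[X]}
    (h : f.map (AdjoinRoot.mk (π ^ 2)) = f'.map (AdjoinRoot.mk (π ^ 2))) :
    IrrAt f π ↔ IrrAt f' π := by
  exact ⟨fun hi => ro_sub h hi, fun hi => ro_sub h.symm hi⟩

end Pool.Agent.Helper96.PS
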