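import Pool.Agent.Helper96.PS.CommonPl
import Pool.Agent.Helper96.PS.RegOf

/-!
# PS-S3b: large places, for fixed `f` (Poonen's trick)

`p = char F`, `f ∈ BoxW w g n`, `w` irreducible of degree `N = 2g+1`; `f' = f + t h₁^p + h₂^p`, `h₁, h₂ ∈ F[t]` of degree `≤ H`, `pH + 2 ≤ Nn`. Large: `n < 2 deg ϖ + E`; then `deg ϖ ≥ L₁` as `2L₁ + E ≤ n + 1`. `n ≤ 4 L₁`, `L ≤ L₁`, `L ≤ H + 1`.
CLAIM: the number of `(h₁, h₂)` with `IrrAt f' ϖ` for a large `ϖ`, times `q^L`, is `≤ 17 N³ q^{2(H+1)}`.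

Proof. If `IrrAt f' ϖ`: with `m = (ϖ, v)` (maximal) `f' ∈ (ϖ², ϖv, v²) = m²`, so `f', ∂_x f', ∂_t f' ∈ m` (`∂(m²) ⊆ m` for a derivation). `∂_x f' = ∂_x f =: A`, `∂_t f' = ∂_t f + h₁^p =: B(h₁)` (`∂_t (t h₁^p) = h₁^p`, `p`-th powers have derivative `0`).
`A ≠ 0`: the irreducible `w` over the finite (perfect) field `F` has `w' ≠ 0`, so some `j` with `p ∤ j`, `w_j ≠ 0`, `j ≥ 1`: the coefficient of `x^{j-1}` in `A` is `j a_j`, `a_j ≠ 0` (`j ≤ 2g`: coefficient of `t^{(N-j)n}` is `w_j`; `j = N`: `a_N = 1`).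
Degrees: `A`, `B(h₁)` have `x`-degree `≤ 2g` (`∂_t f` kills the monic top), coefficients of degree `≤ T = Nn` (`pH ≤ Nn`).
(I) the number of `h₁` such that some irreducible `φ` of positive `x`-degree divides `A` and `B(h₁)` is `≤ N - 1`: `A` has at most `deg_x A ≤ N - 1` such factors up to units, and `φ ∣ B(h₁), B(h₁')` gives `φ ∣ (h₁ - h₁')^p ∈ F[t]`, so `h₁ = h₁'`. These give `≤ (N-1) q^{H+1} ≤ N q^{2(H+1) - L}` pairs.
(II) the number of `h₁` such that a `ϖ` of degree `≥ L₁` divides `A` and `B(h₁)`: `ϖ` divides a nonzero coefficient of `A` (degree `≤ Nn`): at most `Nn/L₁ ≤ 4N` monic `ϖ`; for each, `h₁^p ≡` given mod `ϖ` determines `h₁` mod `ϖ` (Frobenius is injective on the field `F[t]/ϖ`), so at most `q^{H+1-L}` values `h₁` (`deg h₁ ≤ H`, `deg ϖ ≥ L`, `L ≤ H + 1`; two values of `h₁` differ by a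
 multiple of `ϖ`: if `deg ϖ ≤ H` there are `q^{H+1-deg ϖ}`, else one). Pairs: `≤ 4N q^{2(H+1)-L}`.
(III) otherwise `card_common` (`a = 2g`, `T = Nn`, `L := L₁`) bounds the number of possible `m` by `3 (2g)² N n/L₁ ≤ 12 (2g)² N`; for each `m` (over `ϖ`, `deg ϖ ≥ L₁ ≥ L`): `h₂^p ≡ -(f + t h₁^p) mod m` determines `h₂` mod `ϖ` (Frobenius injective on `F[t][x]/m`, `m ∩ F[t] = (ϖ)`): `≤ q^{H+1-L}` values. Pairs: `≤ q^{H+1} · 12 (2g)² N q^{H+1-L}`.
Total `≤ (N + 4N + 12 (2g)² N) q^{2(H+1)-L} ≤ 17 N³ q^{2(H+1)-L}`.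
-/

namespace Pool.Agent.Helper96.PS

open Polynomial

/-! ### The derivation `∂/∂t` -/

/-- the derivative in `t` -/
private noncomputable def lfdt {F : Type*} [Field F] (P : F[X][X]) : F[X][X] :=
  P.sum fun i a => monomial i (derivative a)

private theorem lfdt_coeff {F : Type*} [Field F] (P : F[X][X]) (i : ℕ) :
    (lfdt P).coeff i = derivative (P.coeff i) := by
  unfold lfdt
  rw [Polynomial.sum_def, finsetSum_coeff]
  simp only [coeff_monomial]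
  rw [Finset.sum_ite_eq']
  split_ifs with h
  · rfl
  · rw [notMem_support_iff.1 h, derivative_zero]

private theorem lfdt_add {F : Type*} [Field F] (P Q : F[X][X]) :
    lfdt (P + Q) = lfdt P + lfdt Q := by
  ext1 i
  rw [lfdt_coeff, coeff_add, coeff_add, lfdt_coeff, lfdt_coeff, derivative_add]

private theorem lfdt_mul {F : Type*} [Field F] (P Q : F[X][X]) :
    lfdt (P * Q) = lfdt P * Q + P * lfdt Q := by
  ext1 i
  rw [lfdt_coeff, coeff_add, coeff_mul, coeff_mul, coeff_mul, derivative_sum,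
    ← Finset.sum_add_distrib]
  refine Finset.sum_congr rfl fun x _ => ?_
  rw [lfdt_coeff, lfdt_coeff, derivative_mul]

private theorem lfdt_C {F : Type*} [Field F] (a : F[X]) : lfdt (C a) = C (derivative a) := by
  ext1 i
  rw [lfdt_coeff, coeff_C, coeff_C]
  split_ifs
  · rfl
  · exact derivative_zero

private theorem lf_der {R : Type*} [CommRing R] {δ : R → R} (ha : ∀ x y, δ (x + y) = δ x + δ y)
    (hm : ∀ x y, δ (x * y) = δ x * y + x * δ y) {m : Ideal R} {u : R} (hu : u ∈ m * m) :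
    δ u ∈ m := by
  refine Submodule.mul_induction_on hu (fun a h b h' => ?_) fun x y hx hy => ?_
  · rw [hm]
    exact m.add_mem (m.mul_mem_left _ h') (m.mul_mem_right _ h)
  · rw [ha]
    exact m.add_mem hx hy

/-- the maximal ideal of a singular point -/
private theorem lf_max {F : Type*} [Field F] {f' : F[X][X]} {ϖ : F[X]} (hϖ : Irreducible ϖ)
    (h : IrrAt f' ϖ) : ∃ m : Ideal F[X][X], m.IsMaximal ∧ C ϖ ∈ m ∧ f' ∈ m ∧
      derivative f' ∈ m ∧ lfdt f' ∈ m := by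
  obtain ⟨v, -, hvi, hf⟩ := h
  have : Fact (Irreducible ϖ) := ⟨hϖ⟩
  obtain ⟨m, hm⟩ : ∃ m : Ideal F[X][X], m = Ideal.comap (mapRingHom (AdjoinRoot.mk ϖ))
      (Ideal.span {v.map (AdjoinRoot.mk ϖ)}) := ⟨_, rfl⟩
  have hmax : m.IsMaximal := by
    rw [hm]
    have h1 : (Ideal.span {v.map (AdjoinRoot.mk ϖ)}).IsMaximal :=
      PrincipalIdealRing.isMaximal_of_irreducible hvi
    exact Ideal.comap_isMaximal_of_surjective _
      (by
        rw [coe_mapRingHom]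
        exact map_surjective _ AdjoinRoot.mk_surjective)
  have h1 : C ϖ ∈ m := by
    rw [hm, Ideal.mem_comap, coe_mapRingHom, map_C, AdjoinRoot.mk_self, C_0]
    exact Ideal.zero_mem _
  have h2 : v ∈ m := by
    rw [hm, Ideal.mem_comap, coe_mapRingHom]
    exact Ideal.subset_span rfl
  have h3 : f' ∈ m * m := by
    refine (Ideal.span_le.2 ?_) hf
    rintro x (rfl | rfl | rfl)
    · rw [pow_two, C_mul]
      exact Ideal.mul_mem_mul h1 h1
    · exact Ideal.mul_mem_mul h1 h2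
    · rw [pow_two]
      exact Ideal.mul_mem_mul h2 h2
  exact ⟨m, hmax, h1, Ideal.mul_le_left h3, lf_der (fun x y => derivative_add)
    (fun x y => derivative_mul) h3, lf_der lfdt_add lfdt_mul h3⟩

/-! ### Counting -/

private theorem lf_card {F : Type*} [Field F] [Finite F] (k : ℕ) :
    {h : F[X] | h.degree < (k : WithBot ℕ)}.Finite ∧
      {h : F[X] | h.degree < (k : WithBot ℕ)}.ncard = Nat.card F ^ k := by
  have e : {h : F[X] | h.degree < (k : WithBot ℕ)} = (degreeLT F k : Set F[X]) := by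
    ext h
    rw [SetLike.mem_coe, mem_degreeLT]
    rfl
  have hf : Finite (degreeLT F k) := Finite.of_equiv _ (degreeLTEquiv F k).toEquiv.symm
  rw [e]
  refine ⟨Set.toFinite _, ?_⟩
  have h1 : Nat.card (degreeLT F k) = (degreeLT F k : Set F[X]).ncard := Nat.card_coe_set_eq _
  rw [← h1, Nat.card_congr (degreeLTEquiv F k).toEquiv, Nat.card_fun, Nat.card_fin]

private theorem lf_V {F : Type*} [Field F] (H : ℕ) :
    {h : F[X] | h.natDegree ≤ H} = {h : F[X] | h.degree < ((H + 1 : ℕ) : WithBot ℕ)} := by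
  ext h
  change h.natDegree ≤ H ↔ h.degree < ((H + 1 : ℕ) : WithBot ℕ)
  rw [natDegree_le_iff_coeff_eq_zero, degree_lt_iff_coeff_zero]
  exact ⟨fun h m hm => h m (by omega), fun h m hm => h m (by omega)⟩

private theorem lf_cnt {F : Type*} [Field F] [Finite F] {H L : ℕ} {S : Set F[X]} {ϖ : F[X]}
    (hϖ : ϖ ≠ 0) (hS : ∀ h ∈ S, h.natDegree ≤ H) (hc : ∀ h ∈ S, ∀ h' ∈ S, ϖ ∣ h - h')
    (hL : L ≤ ϖ.natDegree) (hLH : L ≤ H + 1) :
    S.Finite ∧ S.ncard * Nat.card F ^ L ≤ Nat.card F ^ (H + 1) := by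
  have hV := lf_card (F := F) (H + 1)
  have hW := lf_card (F := F) L
  rw [← lf_V] at hV
  have hSf : S.Finite := hV.1.subset hS
  refine ⟨hSf, ?_⟩
  rw [← hV.2, ← hW.2, ← Set.ncard_prod]
  refine Set.ncard_le_ncard_of_injOn (fun x => x.1 + x.2) ?_ ?_ hV.1
  · rintro ⟨h, r⟩ ⟨h1, h2⟩
    change (h + r).natDegree ≤ H
    have h3 : r.natDegree ≤ H := by
      have h4 : r.degree < (L : WithBot ℕ) := h2
      rw [degree_lt_iff_coeff_zero] at h4
      rw [natDegree_le_iff_coeff_eq_zero]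
      exact fun m hm => h4 m (by omega)
    exact (natDegree_add_le _ _).trans (max_le (hS h h1) h3)
  · rintro ⟨h, r⟩ ⟨h1, h2⟩ ⟨h', r'⟩ ⟨h1', h2'⟩ he
    have he' : h + r = h' + r' := he
    have h3 : ϖ ∣ r' - r := by
      have h4 := hc h h1 h' h1'
      have h5 : h - h' = r' - r := by linear_combination he'
      rwa [h5] at h4
    have h6 : (r' - r).degree < ϖ.degree := by
      refine lt_of_le_of_lt (degree_sub_le _ _) (max_lt ?_ ?_)
      · rw [degree_eq_natDegree hϖ]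
        exact lt_of_lt_of_le h2' (by exact_mod_cast hL)
      · rw [degree_eq_natDegree hϖ]
        exact lt_of_lt_of_le h2 (by exact_mod_cast hL)
    have h7 := eq_zero_of_dvd_of_degree_lt h3 h6
    have h8 : r' = r := sub_eq_zero.1 h7
    have h9 : h = h' := by
      rw [h8] at he'
      exact add_right_cancel he'
    rw [h8, h9]

private theorem lf_rel {α β : Type*} {S : Set α} {M : Set β} {a b : ℕ} (hM : M.Finite)
    (R : β → Set α) (hR : ∀ m ∈ M, (R m).Finite ∧ (R m).ncard * a ≤ b)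
    (hS : ∀ s ∈ S, ∃ m ∈ M, s ∈ R m) : S.Finite ∧ S.ncard * a ≤ M.ncard * b := by
  classical
  obtain ⟨G, hG⟩ : ∃ G : β → Finset α, ∀ m ∈ M, (G m : Set α) = R m := by
    refine ⟨fun m => if h : (R m).Finite then h.toFinset else ∅, fun m hm => ?_⟩
    simp only [(hR m hm).1, dite_true, Set.Finite.coe_toFinset]
  have h1 : S ⊆ ((hM.toFinset.biUnion G : Finset α) : Set α) := by
    intro s hs
    obtain ⟨m, hm, hsm⟩ := hS s hs
    rw [Finset.mem_coe, Finset.mem_biUnion]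
    refine ⟨m, (Set.Finite.mem_toFinset hM).2 hm, ?_⟩
    rw [← Finset.mem_coe, hG m hm]
    exact hsm
  refine ⟨(Finset.finite_toSet _).subset h1, ?_⟩
  have h2 := Set.ncard_le_ncard h1 (Finset.finite_toSet _)
  rw [Set.ncard_coe_finset] at h2
  have h3 : (hM.toFinset.biUnion G).card * a ≤ hM.toFinset.card * b := by
    calc (hM.toFinset.biUnion G).card * a ≤ (∑ m ∈ hM.toFinset, (G m).card) * a :=
          Nat.mul_le_mul_right _ Finset.card_biUnion_le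
      _ = ∑ m ∈ hM.toFinset, (G m).card * a := Finset.sum_mul _ _ _
      _ ≤ ∑ m ∈ hM.toFinset, b := by
          refine Finset.sum_le_sum fun m hm => ?_
          have hm' := (Set.Finite.mem_toFinset hM).1 hm
          have h4 := (hR m hm').2
          rw [← hG m hm', Set.ncard_coe_finset] at h4
          exact h4
      _ = hM.toFinset.card * b := by rw [Finset.sum_const, smul_eq_mul]
  calc S.ncard * a ≤ (hM.toFinset.biUnion G).card * a := Nat.mul_le_mul_right _ h2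
    _ ≤ hM.toFinset.card * b := h3
    _ = M.ncard * b := by rw [Set.ncard_eq_toFinset_card M hM]

private theorem lf_prod {R ι : Type*} [CommRing R] [IsDomain R] {φ : ι → R} {A : R}
    (s : Finset ι) (hp : ∀ i ∈ s, Prime (φ i)) (hA : ∀ i ∈ s, φ i ∣ A)
    (hne : ∀ i ∈ s, ∀ j ∈ s, i ≠ j → ¬ φ i ∣ φ j) : ∏ i ∈ s, φ i ∣ A := by
  classical
  induction s using Finset.induction_on with
  | empty => simp
  | insert i s hi ih =>
    obtain ⟨c, hc⟩ := ih (fun j hj => hp j (Finset.mem_insert_of_mem hj))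
      (fun j hj => hA j (Finset.mem_insert_of_mem hj))
      (fun j hj k hk => hne j (Finset.mem_insert_of_mem hj) k (Finset.mem_insert_of_mem hk))
    have h1 := hA i (Finset.mem_insert_self i s)
    have h2 := hp i (Finset.mem_insert_self i s)
    rw [hc] at h1
    rcases h2.dvd_or_dvd h1 with h3 | h3
    · obtain ⟨j, hj, h4⟩ := (Prime.dvd_finsetProd_iff h2 _).1 h3
      exact absurd h4 (hne i (Finset.mem_insert_self i s) j (Finset.mem_insert_of_mem hj)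
        (fun e => hi (e ▸ hj)))
    · obtain ⟨d, hd⟩ := h3
      rw [Finset.prod_insert hi, hc, hd]
      exact ⟨d, by ring⟩

/-- type (I) -/
private theorem lf_one {F : Type*} [Field F] [Finite F] {p : ℕ} [Fact p.Prime] [CharP F p]
    {H : ℕ} {A B₀ : F[X][X]} (hA : A ≠ 0) :
    {h : F[X] | h.natDegree ≤ H ∧ ∃ φ : F[X][X], Irreducible φ ∧ 1 ≤ φ.natDegree ∧ φ ∣ A ∧
      φ ∣ B₀ + C (h ^ p)}.ncard ≤ A.natDegree := by
  classical
  obtain ⟨S, hS⟩ : ∃ S : Set F[X], S = {h : F[X] | h.natDegree ≤ H ∧ ∃ φ : F[X][X],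
    Irreducible φ ∧ 1 ≤ φ.natDegree ∧ φ ∣ A ∧ φ ∣ B₀ + C (h ^ p)} := ⟨_, rfl⟩
  rw [← hS]
  have hV := (lf_card (F := F) (H + 1)).1
  rw [← lf_V] at hV
  have hSf : S.Finite := hV.subset (by rw [hS]; exact fun h hh => hh.1)
  have hex : ∀ h : F[X], ∃ φ : F[X][X], h ∈ S → Irreducible φ ∧ 1 ≤ φ.natDegree ∧ φ ∣ A ∧
      φ ∣ B₀ + C (h ^ p) := by
    intro h
    by_cases hh : h ∈ S
    · rw [hS] at hh
      obtain ⟨φ, hφ⟩ := hh.2
      exact ⟨φ, fun _ => hφ⟩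
    · exact ⟨0, fun h' => absurd h' hh⟩
  choose φ hφ using hex
  have hmem : ∀ h ∈ hSf.toFinset, h ∈ S := fun h hh => (Set.Finite.mem_toFinset hSf).1 hh
  have h1 : ∏ h ∈ hSf.toFinset, φ h ∣ A := by
    refine lf_prod _ (fun h hh => (hφ h (hmem h hh)).1.prime) (fun h hh => (hφ h (hmem h hh)).2.2.1)
      fun h hh h' hh' hne hd => ?_
    obtain ⟨-, h2, -, h3⟩ := hφ h (hmem h hh)
    obtain ⟨-, -, -, h4⟩ := hφ h' (hmem h' hh')
    have h5 : φ h ∣ C ((h - h') ^ p) := by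
      have h6 := dvd_sub h3 (hd.trans h4)
      rw [sub_pow_char]
      rw [show B₀ + C (h ^ p) - (B₀ + C (h' ^ p)) = C (h ^ p - h' ^ p) by rw [C_sub]; ring] at h6
      exact h6
    have h7 : C ((h - h') ^ p) ≠ 0 := by
      rw [Ne, C_eq_zero]
      exact pow_ne_zero _ (sub_ne_zero.2 hne)
    have h8 := natDegree_le_of_dvd h5 h7
    rw [natDegree_C] at h8
    omega
  have h2 := natDegree_le_of_dvd h1 hA
  rw [natDegree_prod _ _ (fun h hh => (hφ h (hmem h hh)).1.ne_zero)] at h2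
  have h3 : hSf.toFinset.card ≤ ∑ h ∈ hSf.toFinset, (φ h).natDegree := by
    rw [Finset.card_eq_sum_ones]
    exact Finset.sum_le_sum fun h hh => (hφ h (hmem h hh)).2.1
  rw [Set.ncard_eq_toFinset_card S hSf]
  exact h3.trans h2

/-- type (II) -/
private theorem lf_two {F : Type*} [Field F] [Finite F] {p : ℕ} [Fact p.Prime] [CharP F p]
    {H L L₁ T : ℕ} {A B₀ : F[X][X]} (hA : A ≠ 0) (hT : ∀ j, (A.coeff j).natDegree ≤ T)
    (h1 : 1 ≤ L₁) (hL : L ≤ L₁) (hLH : L ≤ H + 1) {c : ℕ} (hc : T ≤ c * L₁) :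
    {h : F[X] | h.natDegree ≤ H ∧ ∃ ϖ : F[X], Irreducible ϖ ∧ L₁ ≤ ϖ.natDegree ∧ C ϖ ∣ A ∧
      C ϖ ∣ B₀ + C (h ^ p)}.ncard * Nat.card F ^ L ≤ c * Nat.card F ^ (H + 1) := by
  classical
  obtain ⟨j, hj⟩ : ∃ j, A.coeff j ≠ 0 := by
    by_contra hcon
    push Not at hcon
    exact hA (Polynomial.ext fun i => by rw [hcon i, coeff_zero])
  obtain ⟨M, hM⟩ : ∃ M : Set F[X], M = {ϖ : F[X] | ϖ.Monic ∧ Irreducible ϖ ∧ L₁ ≤ ϖ.natDegree ∧
    C ϖ ∣ A} := ⟨_, rfl⟩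
  have hdv : ∀ ϖ ∈ M, ϖ ∣ A.coeff j := by
    intro ϖ hϖ
    rw [hM] at hϖ
    exact (C_dvd_iff_dvd_coeff _ _).1 hϖ.2.2.2 j
  have hMf : M.Finite := by
    have hV := (lf_card (F := F) (T + 1)).1
    rw [← lf_V] at hV
    exact hV.subset fun ϖ hϖ => (natDegree_le_of_dvd (hdv ϖ hϖ) hj).trans (hT j)
  have hMc : M.ncard ≤ c := by
    have hmem : ∀ h ∈ hMf.toFinset, h ∈ M := fun h hh => (Set.Finite.mem_toFinset hMf).1 hh
    have h2 : ∏ ϖ ∈ hMf.toFinset, ϖ ∣ A.coeff j := by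
      refine lf_prod (φ := fun ϖ : F[X] => ϖ) _ (fun ϖ hϖ => ?_) (fun ϖ hϖ => hdv ϖ (hmem ϖ hϖ))
        fun ϖ hϖ ϖ' hϖ' hne hd => ?_
      · have h3 := hmem ϖ hϖ
        rw [hM] at h3
        exact h3.2.1.prime
      · have h3 := hmem ϖ hϖ
        have h4 := hmem ϖ' hϖ'
        rw [hM] at h3 h4
        exact hne (eq_of_monic_of_associated h3.1 h4.1 (h3.2.1.associated_of_dvd h4.2.1 hd))
    have h3 := (natDegree_le_of_dvd h2 hj).trans (hT j)
    rw [natDegree_prod _ _ (fun ϖ hϖ => by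
      have h4 := hmem ϖ hϖ
      rw [hM] at h4
      exact h4.2.1.ne_zero)] at h3
    have h4 : hMf.toFinset.card * L₁ ≤ ∑ ϖ ∈ hMf.toFinset, ϖ.natDegree := by
      rw [← smul_eq_mul, ← Finset.sum_const]
      refine Finset.sum_le_sum fun ϖ hϖ => ?_
      have h4 := hmem ϖ hϖ
      rw [hM] at h4
      exact h4.2.2.1
    rw [Set.ncard_eq_toFinset_card M hMf]
    exact Nat.le_of_mul_le_mul_right ((h4.trans h3).trans hc) h1
  have h2 := lf_rel (S := {h : F[X] | h.natDegree ≤ H ∧ ∃ ϖ : F[X], Irreducible ϖ ∧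
      L₁ ≤ ϖ.natDegree ∧ C ϖ ∣ A ∧ C ϖ ∣ B₀ + C (h ^ p)}) (a := Nat.card F ^ L)
    (b := Nat.card F ^ (H + 1)) hMf
    (fun ϖ => {h : F[X] | h.natDegree ≤ H ∧ C ϖ ∣ B₀ + C (h ^ p)}) ?_ ?_
  · exact h2.2.trans (Nat.mul_le_mul_right _ hMc)
  · intro ϖ hϖ
    rw [hM] at hϖ
    refine lf_cnt hϖ.2.1.ne_zero (fun h hh => hh.1) (fun h hh h' hh' => ?_) (hL.trans hϖ.2.2.1) hLH
    have h3 := dvd_sub hh.2 hh'.2
    rw [show B₀ + C (h ^ p) - (B₀ + C (h' ^ p)) = C (h ^ p - h' ^ p) by rw [C_sub]; ring,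
      ← sub_pow_char] at h3
    have h4 := (C_dvd_iff_dvd_coeff _ _).1 h3 0
    rw [coeff_C_zero] at h4
    exact hϖ.2.1.prime.dvd_of_dvd_pow h4
  · rintro h ⟨hh, ϖ, h3, h4, h5, h6⟩
    obtain ⟨u, hu⟩ : ∃ u : F[X], u = ϖ * C (ϖ.leadingCoeff⁻¹) := ⟨_, rfl⟩
    have hass : Associated ϖ u := by
      rw [hu]
      have hne : ϖ.leadingCoeff⁻¹ ≠ 0 := inv_ne_zero (leadingCoeff_ne_zero.2 h3.ne_zero)
      exact (associated_mul_unit_right _ _ (isUnit_C.2 (isUnit_iff_ne_zero.2 hne)))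
    have hmon : u.Monic := by
      rw [hu]
      exact monic_mul_leadingCoeff_inv h3.ne_zero
    have hdvd : C u ∣ C ϖ := (_root_.map_dvd (C : F[X] →+* F[X][X]) hass.symm.dvd)
    have hdeg : u.natDegree = ϖ.natDegree := by
      rw [hu]
      exact natDegree_mul_leadingCoeff_inv _ h3.ne_zero
    refine ⟨u, ?_, hh, hdvd.trans h6⟩
    rw [hM]
    exact ⟨hmon, hass.irreducible h3, by rw [hdeg]; exact h4, hdvd.trans h5⟩

/-- type (III) -/
private theorem lf_three {F : Type*} [Field F] [Finite F] {p : ℕ} [Fact p.Prime] [CharP F p]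
    {H L L₁ : ℕ} {u : F[X][X]} {m : Ideal F[X][X]} (hm : m.IsMaximal) {ϖ : F[X]}
    (hϖ : Irreducible ϖ) (hd : L₁ ≤ ϖ.natDegree) (hC : C ϖ ∈ m) (hL : L ≤ L₁)
    (hLH : L ≤ H + 1) :
    {h : F[X] | h.natDegree ≤ H ∧ u + C (h ^ p) ∈ m}.Finite ∧
    {h : F[X] | h.natDegree ≤ H ∧ u + C (h ^ p) ∈ m}.ncard * Nat.card F ^ L ≤
      Nat.card F ^ (H + 1) := by
  refine lf_cnt hϖ.ne_zero (fun h hh => hh.1) (fun h hh h' hh' => ?_) (hL.trans hd) hLH
  have h1 := m.sub_mem hh.2 hh'.2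
  rw [show u + C (h ^ p) - (u + C (h' ^ p)) = (C (h - h')) ^ p by
    rw [← C_pow, sub_pow_char, C_sub]; ring] at h1
  have h2 : C (h - h') ∈ m := hm.isPrime.mem_of_pow_mem _ h1
  have h3 : Ideal.span {ϖ} = Ideal.comap (C : F[X] →+* F[X][X]) m := by
    have h4 : (Ideal.span {ϖ}).IsMaximal := PrincipalIdealRing.isMaximal_of_irreducible hϖ
    refine h4.eq_of_le ?_ ?_
    · exact Ideal.comap_ne_top _ hm.ne_top
    · rw [Ideal.span_le]
      rintro x rfl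
      exact hC
  have h4 : h - h' ∈ Ideal.comap (C : F[X] →+* F[X][X]) m := h2
  rw [← h3, Ideal.mem_span_singleton] at h4
  exact h4

theorem large_fix {F : Type*} [Field F] [Finite F] {p : ℕ} [Fact p.Prime] [CharP F p]
    {g n E H L₁ L : ℕ} {w : F[X]} {f : F[X][X]} (h : Pre g n w f)
    (hH : p * H + 2 ≤ (2 * g + 1) * n) (hL₁ : 2 * L₁ + E ≤ n + 1) (h1 : 1 ≤ L₁) (hn : n ≤ 4 * L₁)
    (hL : L ≤ L₁) (hLH : L ≤ H + 1) :
    {h : F[X] × F[X] | h.1.natDegree ≤ H ∧ h.2.natDegree ≤ H ∧ ∃ ϖ : F[X], ϖ.Monic ∧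
      Irreducible ϖ ∧ n < 2 * ϖ.natDegree + E ∧
      IrrAt (f + C (X * h.1 ^ p + h.2 ^ p)) ϖ}.ncard * Nat.card F ^ L ≤
      17 * (2 * g + 1) ^ 3 * Nat.card F ^ (2 * (H + 1)) := by
  classical
  obtain ⟨hfm, hfd, hfc⟩ := h.mem.1
  have hfw := h.mem.2
  have hq : 1 ≤ Nat.card F := Nat.one_le_iff_ne_zero.2 Nat.card_pos.ne'
  -- the polynomial `A`
  obtain ⟨A, hAdef⟩ : ∃ A : F[X][X], A = derivative f := ⟨_, rfl⟩
  obtain ⟨T, hT⟩ : ∃ T : ℕ, T = (2 * g + 1) * n := ⟨_, rfl⟩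
  have hfT : ∀ j, (f.coeff j).natDegree ≤ T := by
    intro j
    rcases Nat.lt_trichotomy j (2 * g + 1) with hj | hj | hj
    · refine (hfc j (by omega)).trans ?_
      rw [hT]
      exact Nat.mul_le_mul_right _ (Nat.sub_le _ _)
    · have h2 : f.coeff j = 1 := by
        rw [hj, ← hfd]
        exact hfm.coeff_natDegree
      rw [h2, natDegree_one]
      exact Nat.zero_le _
    · rw [coeff_eq_zero_of_natDegree_lt (by omega), natDegree_zero]
      exact Nat.zero_le _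
  have hA0 : A ≠ 0 := by
    intro hA
    have hsep : w.Separable := PerfectField.separable_of_irreducible h.wirr
    have hw' : derivative w ≠ 0 := by
      intro h0
      rw [Separable, h0] at hsep
      obtain ⟨a, b, hab⟩ := hsep
      rw [mul_zero, add_zero] at hab
      have h2 : IsUnit w := IsUnit.of_mul_eq_one a (by rw [mul_comm]; exact hab)
      exact h.wirr.not_isUnit h2
    obtain ⟨i, hi⟩ : ∃ i, (derivative w).coeff i ≠ 0 := by
      by_contra hcon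
      push Not at hcon
      exact hw' (Polynomial.ext fun i => by rw [hcon i, coeff_zero])
    rw [coeff_derivative] at hi
    have hi1 : w.coeff (i + 1) ≠ 0 := fun h0 => hi (by rw [h0, zero_mul])
    have hi2 : ((i : F) + 1) ≠ 0 := fun h0 => hi (by rw [h0, mul_zero])
    have hile : i + 1 ≤ 2 * g + 1 := by
      rw [← h.wdeg]
      exact le_natDegree_of_ne_zero hi1
    have hAi : A.coeff i = f.coeff (i + 1) * ((i : F[X]) + 1) := by
      rw [hAdef, coeff_derivative]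
    rw [hA, coeff_zero] at hAi
    have hcast : ((i : F[X]) + 1) = C ((i : F) + 1) := by
      rw [C_add, C_1, map_natCast]
    rw [hcast] at hAi
    rcases Nat.lt_or_eq_of_le hile with h2 | h2
    · have h3 := congrArg (fun P : F[X] => P.coeff ((2 * g + 1 - (i + 1)) * n)) hAi
      simp only [coeff_zero, coeff_mul_C] at h3
      rw [hfw (i + 1) (by omega)] at h3
      exact mul_ne_zero hi1 hi2 h3.symm
    · have h3 : f.coeff (i + 1) = 1 := by
        rw [h2, ← hfd]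
        exact hfm.coeff_natDegree
      rw [h3, one_mul] at hAi
      exact hi2 (C_eq_zero.1 hAi.symm)
  have hAd : A.natDegree ≤ 2 * g := by
    rw [hAdef]
    have h2 := natDegree_derivative_le f
    omega
  have hAc : ∀ j, (A.coeff j).natDegree ≤ T := by
    intro j
    rw [hAdef, coeff_derivative]
    refine (natDegree_mul_le).trans ?_
    have h2 : ((j : F[X]) + 1).natDegree = 0 := by
      rw [show ((j : F[X]) + 1) = ((j + 1 : ℕ) : F[X]) by push_cast; ring]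
      exact natDegree_natCast _
    rw [h2, add_zero]
    exact hfT _
  -- the polynomials `B`
  obtain ⟨B₀, hB₀⟩ : ∃ B₀ : F[X][X], B₀ = lfdt f := ⟨_, rfl⟩
  have hBd : ∀ h₁ : F[X], (B₀ + C (h₁ ^ p)).natDegree ≤ 2 * g := by
    intro h₁
    refine (natDegree_add_le _ _).trans (max_le ?_ ?_)
    · rw [natDegree_le_iff_coeff_eq_zero]
      intro j hj
      rw [hB₀, lfdt_coeff]
      rcases Nat.lt_or_ge (2 * g + 1) j with h2 | h2
      · rw [coeff_eq_zero_of_natDegree_lt (by omega), derivative_zero]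
      · have h3 : j = 2 * g + 1 := by omega
        have h4 : f.coeff j = 1 := by
          rw [h3, ← hfd]
          exact hfm.coeff_natDegree
        rw [h4, derivative_one]
    · rw [natDegree_C]
      exact Nat.zero_le _
  have hBc : ∀ h₁ : F[X], h₁.natDegree ≤ H → ∀ j, ((B₀ + C (h₁ ^ p)).coeff j).natDegree ≤ T := by
    intro h₁ hh j
    rw [coeff_add]
    refine (natDegree_add_le _ _).trans (max_le ?_ ?_)
    · rw [hB₀, lfdt_coeff]
      exact (natDegree_derivative_le _).trans ((Nat.sub_le _ _).trans (hfT j))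
    · rw [coeff_C]
      split_ifs
      · refine (natDegree_pow_le).trans ?_
        rw [hT]
        have h2 := Nat.mul_le_mul_left p hh
        omega
      · rw [natDegree_zero]
        exact Nat.zero_le _
  -- the sets
  obtain ⟨V, hVdef⟩ : ∃ V : Set F[X], V = {h : F[X] | h.natDegree ≤ H} := ⟨_, rfl⟩
  have hVc : V.ncard = Nat.card F ^ (H + 1) := by
    rw [hVdef, lf_V]
    exact (lf_card (H + 1)).2
  have hVf : V.Finite := by
    rw [hVdef, lf_V]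
    exact (lf_card (H + 1)).1
  obtain ⟨S₁, hS₁⟩ : ∃ S₁ : Set F[X], S₁ = {h : F[X] | h.natDegree ≤ H ∧ ∃ φ : F[X][X],
    Irreducible φ ∧ 1 ≤ φ.natDegree ∧ φ ∣ A ∧ φ ∣ B₀ + C (h ^ p)} := ⟨_, rfl⟩
  obtain ⟨S₂, hS₂⟩ : ∃ S₂ : Set F[X], S₂ = {h : F[X] | h.natDegree ≤ H ∧ ∃ ϖ : F[X],
    Irreducible ϖ ∧ L₁ ≤ ϖ.natDegree ∧ C ϖ ∣ A ∧ C ϖ ∣ B₀ + C (h ^ p)} := ⟨_, rfl⟩
  have hS₁c : S₁.ncard ≤ 2 * g := by
    rw [hS₁]
    exact (lf_one hA0).trans hAd
  have hS₂c : S₂.ncard * Nat.card F ^ L ≤ 4 * (2 * g + 1) * Nat.card F ^ (H + 1) := by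
    rw [hS₂]
    refine lf_two hA0 hAc h1 hL hLH ?_
    rw [hT]
    have h2 := Nat.mul_le_mul_left (2 * g + 1) hn
    calc (2 * g + 1) * n ≤ (2 * g + 1) * (4 * L₁) := h2
      _ = 4 * (2 * g + 1) * L₁ := by ring
  obtain ⟨S₃, hS₃⟩ : ∃ S₃ : Set (F[X] × F[X]), S₃ = {x | x.1 ∈ V ∧ x.1 ∉ S₁ ∧ x.1 ∉ S₂ ∧
    x.2 ∈ V ∧ ∃ m : Ideal F[X][X], (m.IsMaximal ∧ A ∈ m ∧ B₀ + C (x.1 ^ p) ∈ m ∧
      ∃ ϖ : F[X], Irreducible ϖ ∧ L₁ ≤ ϖ.natDegree ∧ C ϖ ∈ m) ∧
      f + C (X * x.1 ^ p + x.2 ^ p) ∈ m} := ⟨_, rfl⟩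
  have hS₃c : S₃.Finite ∧ S₃.ncard * Nat.card F ^ L ≤
      V.ncard * (12 * (2 * g) ^ 2 * (2 * g + 1) * Nat.card F ^ (H + 1)) := by
    refine lf_rel hVf (fun h₁ => {x | x ∈ S₃ ∧ x.1 = h₁}) ?_ ?_
    · intro h₁ hh₁
      by_cases hno : h₁ ∈ S₁ ∨ h₁ ∈ S₂
      · have he : {x | x ∈ S₃ ∧ x.1 = h₁} = ∅ := by
          ext x
          refine ⟨fun hx => ?_, fun hx => absurd hx (Set.notMem_empty _)⟩
          obtain ⟨hx1, hx2⟩ := hx
          rw [hS₃] at hx1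
          obtain ⟨-, h3, h4, -⟩ := hx1
          rw [hx2] at h3 h4
          rcases hno with h5 | h5
          · exact absurd h5 h3
          · exact absurd h5 h4
        rw [he, Set.ncard_empty, zero_mul]
        exact ⟨Set.finite_empty, Nat.zero_le _⟩
      push Not at hno
      have hh₁' : h₁.natDegree ≤ H := by
        rw [hVdef] at hh₁
        exact hh₁
      obtain ⟨hMf, hMc⟩ := card_common (F := F) (A := A) (B := B₀ + C (h₁ ^ p)) (a := 2 * g)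
        (T := T) (L := L₁) h1 hA0 hAd hAc (hBd h₁) (hBc h₁ hh₁')
        (fun φ h2 h3 h4 h5 => hno.1 (by
          rw [hS₁]
          exact ⟨hh₁', φ, h2, h3, h4, h5⟩))
        (fun ϖ h2 h3 h4 h5 => hno.2 (by
          rw [hS₂]
          exact ⟨hh₁', ϖ, h2, h3, h4, h5⟩))
      have h2 := lf_rel (S := {x | x ∈ S₃ ∧ x.1 = h₁}) (a := Nat.card F ^ L)
        (b := Nat.card F ^ (H + 1)) hMf
        (fun m => {x : F[X] × F[X] | x.1 = h₁ ∧ x.2.natDegree ≤ H ∧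
          (f + C (X * h₁ ^ p)) + C (x.2 ^ p) ∈ m}) ?_ ?_
      · refine ⟨h2.1, h2.2.trans (Nat.mul_le_mul_right _ ?_)⟩
        have h3 : {m : Ideal F[X][X] | m.IsMaximal ∧ A ∈ m ∧ B₀ + C (h₁ ^ p) ∈ m ∧
            ∃ ϖ : F[X], Irreducible ϖ ∧ L₁ ≤ ϖ.natDegree ∧ C ϖ ∈ m}.ncard * L₁ ≤
            12 * (2 * g) ^ 2 * (2 * g + 1) * L₁ := by
          refine hMc.trans ?_
          rw [hT]
          have h4 := Nat.mul_le_mul_left (3 * (2 * g) ^ 2 * (2 * g + 1)) hn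
          calc 3 * (2 * g) ^ 2 * ((2 * g + 1) * n) = 3 * (2 * g) ^ 2 * (2 * g + 1) * n := by ring
            _ ≤ 3 * (2 * g) ^ 2 * (2 * g + 1) * (4 * L₁) := h4
            _ = 12 * (2 * g) ^ 2 * (2 * g + 1) * L₁ := by ring
        exact Nat.le_of_mul_le_mul_right h3 h1
      · rintro m ⟨hm, -, -, ϖ, hϖ, hd, hC⟩
        obtain ⟨h3, h4⟩ := lf_three (p := p) (H := H) (u := f + C (X * h₁ ^ p)) hm hϖ hd hC hL hLH
        have he : {x : F[X] × F[X] | x.1 = h₁ ∧ x.2.natDegree ≤ H ∧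
            (f + C (X * h₁ ^ p)) + C (x.2 ^ p) ∈ m} = ({h₁} : Set F[X]) ×ˢ
            {h : F[X] | h.natDegree ≤ H ∧ (f + C (X * h₁ ^ p)) + C (h ^ p) ∈ m} := by
          ext x
          exact ⟨fun hx => ⟨hx.1, hx.2.1, hx.2.2⟩, fun hx => ⟨hx.1, hx.2.1, hx.2.2⟩⟩
        rw [he, Set.ncard_prod, Set.ncard_singleton, one_mul]
        exact ⟨(Set.finite_singleton _).prod h3, h4⟩
      · rintro x ⟨hx, hx1⟩
        rw [hS₃] at hx
        obtain ⟨-, -, -, hx2, m, hm, hfm'⟩ := hx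
        rw [hx1] at hm hfm'
        rw [hVdef] at hx2
        refine ⟨m, hm, hx1, hx2, ?_⟩
        rw [C_add, ← add_assoc] at hfm'
        exact hfm'
    · intro x hx
      refine ⟨x.1, ?_, hx, rfl⟩
      rw [hS₃] at hx
      exact hx.1
  -- the covering
  have hcov : {h : F[X] × F[X] | h.1.natDegree ≤ H ∧ h.2.natDegree ≤ H ∧ ∃ ϖ : F[X], ϖ.Monic ∧
      Irreducible ϖ ∧ n < 2 * ϖ.natDegree + E ∧
      IrrAt (f + C (X * h.1 ^ p + h.2 ^ p)) ϖ} ⊆ S₁ ×ˢ V ∪ S₂ ×ˢ V ∪ S₃ := by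
    rintro ⟨h₁, h₂⟩ ⟨hh₁, hh₂, ϖ, hϖm, hϖi, hbig, hirr⟩
    change h₁.natDegree ≤ H at hh₁
    change h₂.natDegree ≤ H at hh₂
    have hV1 : h₁ ∈ V := by
      rw [hVdef]
      exact hh₁
    have hV2 : h₂ ∈ V := by
      rw [hVdef]
      exact hh₂
    by_cases hs1 : h₁ ∈ S₁
    · exact Or.inl (Or.inl ⟨hs1, hV2⟩)
    by_cases hs2 : h₁ ∈ S₂
    · exact Or.inl (Or.inr ⟨hs2, hV2⟩)
    right
    rw [hS₃]
    obtain ⟨m, hm, h2, h3, h4, h5⟩ := lf_max hϖi hirr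
    refine ⟨hV1, hs1, hs2, hV2, m, ⟨hm, ?_, ?_, ϖ, hϖi, by omega, h2⟩, h3⟩
    · rw [derivative_add, derivative_C, add_zero, ← hAdef] at h4
      exact h4
    · rw [lfdt_add, lfdt_C, ← hB₀] at h5
      have hp0 : ∀ y : F[X], derivative (y ^ p) = 0 := by
        intro y
        rw [derivative_pow, CharP.cast_eq_zero, C_0, zero_mul, zero_mul]
      rw [derivative_add, derivative_mul, hp0, hp0, derivative_X, mul_zero, add_zero, add_zero,
        one_mul] at h5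
      exact h5
  have hfin : (S₁ ×ˢ V ∪ S₂ ×ˢ V ∪ S₃).Finite := by
    refine Set.Finite.union (Set.Finite.union ?_ ?_) hS₃c.1
    · refine Set.Finite.prod (hVf.subset ?_) hVf
      rw [hS₁, hVdef]
      exact fun x hx => hx.1
    · refine Set.Finite.prod (hVf.subset ?_) hVf
      rw [hS₂, hVdef]
      exact fun x hx => hx.1
  have hle : (S₁ ×ˢ V ∪ S₂ ×ˢ V ∪ S₃).ncard ≤ S₁.ncard * V.ncard + S₂.ncard * V.ncard +
      S₃.ncard := by
    refine (Set.ncard_union_le _ _).trans (Nat.add_le_add_right ?_ _)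
    refine (Set.ncard_union_le _ _).trans ?_
    rw [Set.ncard_prod, Set.ncard_prod]
  refine (Nat.mul_le_mul_right _ ((Set.ncard_le_ncard hcov hfin).trans hle)).trans ?_
  have hqL : Nat.card F ^ L ≤ Nat.card F ^ (H + 1) := Nat.pow_le_pow_right hq hLH
  obtain ⟨Q, hQ⟩ : ∃ Q : ℕ, Q = Nat.card F ^ (H + 1) := ⟨_, rfl⟩
  obtain ⟨K, hK⟩ : ∃ K : ℕ, K = Nat.card F ^ L := ⟨_, rfl⟩
  have hQ2 : Nat.card F ^ (2 * (H + 1)) = Q * Q := by
    rw [hQ, ← pow_add]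
    congr 1
    ring
  rw [hQ2, ← hK]
  rw [← hQ, ← hK] at hqL hS₂c hS₃c
  rw [← hQ] at hVc
  rw [hVc] at hS₃c ⊢
  have e1 : S₁.ncard * Q * K ≤ 2 * g * (Q * Q) := by
    calc S₁.ncard * Q * K ≤ 2 * g * Q * Q :=
          Nat.mul_le_mul (Nat.mul_le_mul_right _ hS₁c) hqL
      _ = 2 * g * (Q * Q) := by ring
  have e2 : S₂.ncard * Q * K ≤ 4 * (2 * g + 1) * (Q * Q) := by
    calc S₂.ncard * Q * K = (S₂.ncard * K) * Q := by ring
      _ ≤ (4 * (2 * g + 1) * Q) * Q := Nat.mul_le_mul_right _ hS₂c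
      _ = 4 * (2 * g + 1) * (Q * Q) := by ring
  have e3 : S₃.ncard * K ≤ 12 * (2 * g) ^ 2 * (2 * g + 1) * (Q * Q) := by
    refine hS₃c.2.trans (le_of_eq ?_)
    ring
  calc (S₁.ncard * Q + S₂.ncard * Q + S₃.ncard) * K = S₁.ncard * Q * K + S₂.ncard * Q * K +
        S₃.ncard * K := by ring
    _ ≤ 2 * g * (Q * Q) + 4 * (2 * g + 1) * (Q * Q) +
        12 * (2 * g) ^ 2 * (2 * g + 1) * (Q * Q) := Nat.add_le_add (Nat.add_le_add e1 e2) e3
    _ = (2 * g + 4 * (2 * g + 1) + 12 * (2 * g) ^ 2 * (2 * g + 1)) * (Q * Q) := by ring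
    _ ≤ 17 * (2 * g + 1) ^ 3 * (Q * Q) := by
        refine Nat.mul_le_mul_right _ ?_
        nlinarith [Nat.zero_le g, Nat.zero_le (g ^ 2), Nat.zero_le (g ^ 3)]

end Pool.Agent.Helper96.PS
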