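import Pool.Agent.Helper96.PS.CBasic
import Pool.Agent.Helper96.PS.Hensel

/-!
# PS-C5b: the local image is generated by squares and by polynomials which are pure modulo `ϖ`

`hC : CData ϖ M`, `f` monic over `M`. `LocIm f c` is generated by squares and `(-c)^m U(θ)`, `U` monic of degree `m`, prime to `f`, `U ∣ V² - c f`. Every monic irreducible factor `U_i` of `U` in `M[x]` has the same
properties and `(-c)^m U = ∏ (-c)^{m_i} U_i`; so a subgroup `S` containing the squares and the elements of irreducible `U` contains `LocIm f c`. (The class of `U_i` is a unit of `M[x]/(f)` as `U_i` is prime to `f`.)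

Let `U` be monic irreducible over `M`. `exists_primitive`: `U₀ = ϖ^k U ∈ R[x]`, `Ū₀ ≠ 0` over the field `R/ϖ`. If `Ū₀` is a constant `κ₀ ≠ 0`: lift `κ₀` to a unit `u₀` of `R`, `b = u₀⁻¹ U₀ ≡ 1 mod ϖ`, `U = (u₀ ϖ^{-k}) b`:
type 2 (`hnon`). Otherwise let `v̄` be a monic irreducible factor of `Ū₀`, `Ū₀ = v̄^r b̄₀` with `v̄ ∤ b̄₀`, `r ≥ 1`. `hensel_factor` (`a₀` a monic lift of `v̄^r`): `U₀ = a b`, `a` monic of degree `≥ 1`, `ā = v̄^r`. `U` is irreducible, `deg a ≥ 1`, so `b` is a constant and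
`U = a` (both monic): type 1 (`hpure`). If `deg U = 0`, `U = 1` (not irreducible; the element is `1`).
-/

namespace Pool.Agent.Helper96.PS

open Polynomial

variable {R M : Type*} [CommRing R] [IsDomain R] [Field M] [Algebra R M] {ϖ : R}

private theorem li_isUnit {f U : M[X]} (h : IsCoprime U f) : IsUnit (AdjoinRoot.mk f U) := by
  obtain ⟨a, b, hab⟩ := h
  refine IsUnit.of_mul_eq_one (AdjoinRoot.mk f a) ?_
  have h1 := congrArg (AdjoinRoot.mk f) hab
  rw [map_add, map_mul, map_mul, AdjoinRoot.mk_self, mul_zero, add_zero, map_one] at h1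
  rw [mul_comm, h1]

private theorem li_unit {f U : M[X]} (h : IsCoprime U f) {c : M} (hc : c ≠ 0) (m : ℕ) :
    ∃ β : (AdjoinRoot f)ˣ, (β : AdjoinRoot f) = AdjoinRoot.mk f (C ((-c) ^ m) * U) := by
  have h1 : IsUnit (AdjoinRoot.mk f (C ((-c) ^ m))) := by
    refine IsUnit.map (AdjoinRoot.mk f) ?_
    rw [isUnit_C]
    exact (pow_ne_zero m (neg_ne_zero.2 hc)).isUnit
  have h2 : IsUnit (AdjoinRoot.mk f (C ((-c) ^ m) * U)) := by
    rw [map_mul]
    exact h1.mul (li_isUnit h)
  obtain ⟨β, hβ⟩ := h2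
  exact ⟨β, hβ⟩

private theorem li_prim (hC : CData ϖ M) {U : M[X]} (hU : U.Monic) (hirr : Irreducible U) :
    (∃ (a v : R[X]) (r : ℕ), a.Monic ∧ v.Monic ∧
      Irreducible (v.map (Ideal.Quotient.mk (Ideal.span {ϖ}))) ∧ 1 ≤ r ∧
      a.map (Ideal.Quotient.mk (Ideal.span {ϖ})) =
        v.map (Ideal.Quotient.mk (Ideal.span {ϖ})) ^ r ∧ a.map (algebraMap R M) = U) ∨
    ∃ (b : R[X]) (k : M), k ≠ 0 ∧ b.map (Ideal.Quotient.mk (Ideal.span {ϖ})) = 1 ∧
      U = C k * b.map (algebraMap R M) := by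
  have _ := hC.frac
  have _ := hC.compl
  have hmax := hC.isMaximal
  let _ : Field (R ⧸ Ideal.span {ϖ}) := Ideal.Quotient.field _
  have hinj : Function.Injective (algebraMap R M) := IsFractionRing.injective R M
  have hϖ : algebraMap R M ϖ ≠ 0 := by
    rw [Ne, map_eq_zero_iff _ hinj]
    exact hC.unif.ne_zero
  obtain ⟨k, U₀, hU₀, hne⟩ := hC.exists_primitive hU.ne_zero
  have hk : algebraMap R M ϖ ^ k ≠ 0 := zpow_ne_zero k hϖ
  by_cases hu : IsUnit (U₀.map (Ideal.Quotient.mk (Ideal.span {ϖ})))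
  · right
    obtain ⟨κ₀, hκ₀, hκ⟩ := Polynomial.isUnit_iff.1 hu
    obtain ⟨u₀, rfl⟩ := Ideal.Quotient.mk_surjective κ₀
    have hu₀ : IsUnit u₀ := by
      rw [hC.isUnit_iff]
      intro hd
      rw [Ideal.Quotient.eq_zero_iff_dvd _ _ |>.2 hd] at hκ₀
      exact not_isUnit_zero hκ₀
    obtain ⟨u, rfl⟩ := hu₀
    refine ⟨C ((u⁻¹ : Rˣ) : R) * U₀, algebraMap R M (u : R) * (algebraMap R M ϖ ^ k)⁻¹,
      mul_ne_zero ?_ (inv_ne_zero hk), ?_, ?_⟩
    · rw [Ne, map_eq_zero_iff _ hinj]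
      exact u.ne_zero
    · rw [Polynomial.map_mul, map_C, ← hκ, ← C_mul, ← map_mul, Units.inv_mul, map_one, C_1]
    · rw [Polynomial.map_mul, map_C, hU₀, ← mul_assoc, ← mul_assoc, ← C_mul, ← C_mul]
      have h1 : algebraMap R M (u : R) * (algebraMap R M ϖ ^ k)⁻¹ *
          algebraMap R M ((u⁻¹ : Rˣ) : R) * algebraMap R M ϖ ^ k = 1 := by
        have h2 : algebraMap R M (u : R) * algebraMap R M ((u⁻¹ : Rˣ) : R) = 1 := by
          rw [← map_mul, Units.mul_inv, map_one]
        calc _ = (algebraMap R M (u : R) * algebraMap R M ((u⁻¹ : Rˣ) : R)) *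
              ((algebraMap R M ϖ ^ k)⁻¹ * algebraMap R M ϖ ^ k) := by ring
          _ = 1 := by rw [h2, inv_mul_cancel₀ hk, one_mul]
      rw [h1, C_1, one_mul]
  · left
    obtain ⟨vb, hvm, hvi, hvd⟩ := Polynomial.exists_monic_irreducible_factor _ hu
    obtain ⟨r, b₀b, hb₀, hfac⟩ := WfDvdMonoid.max_power_factor hne hvi
    have hr : 1 ≤ r := by
      rcases Nat.eq_zero_or_pos r with h0 | h0
      · exfalso
        rw [h0, pow_zero, one_mul] at hfac
        exact hb₀ (hfac ▸ hvd)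
      · exact h0
    have hsurj : Function.Surjective (Ideal.Quotient.mk (Ideal.span {ϖ})) :=
      Ideal.Quotient.mk_surjective
    obtain ⟨v, hv, hvdeg, hvmon⟩ := Polynomial.lifts_and_degree_eq_and_monic
      ((Polynomial.mem_lifts vb).2 (Polynomial.map_surjective _ hsurj vb)) hvm
    obtain ⟨b₀, hb₀'⟩ := Polynomial.map_surjective _ hsurj b₀b
    have hcop : IsCoprime ((v ^ r).map (Ideal.Quotient.mk (Ideal.span {ϖ})))
        (b₀.map (Ideal.Quotient.mk (Ideal.span {ϖ}))) := by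
      rw [Polynomial.map_pow, hv, hb₀']
      exact (hvi.coprime_iff_not_dvd.2 hb₀).pow_left
    obtain ⟨a, b, ham, hadeg, ha, hb, hab⟩ := hensel_factor ϖ (hvmon.pow r) hcop (P := U₀) (by
      rw [Polynomial.map_mul, Polynomial.map_pow, hv, hb₀', hfac])
    have hadeg' : 0 < a.natDegree := by
      rw [hadeg, hvmon.natDegree_pow]
      have h1 : 0 < vb.natDegree := hvi.natDegree_pos
      have h2 : v.natDegree = vb.natDegree := natDegree_eq_of_degree_eq hvdeg
      rw [h2]
      positivity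
    have hamM : (a.map (algebraMap R M)).Monic := ham.map _
    have hanu : ¬ IsUnit (a.map (algebraMap R M)) := by
      intro h1
      have h2 := hamM.eq_one_of_isUnit h1
      have h3 := ham.natDegree_map (algebraMap R M)
      rw [h2, natDegree_one] at h3
      omega
    have hprod : C (algebraMap R M ϖ ^ k) * U = a.map (algebraMap R M) * b.map (algebraMap R M) := by
      rw [← hU₀, hab, Polynomial.map_mul]
    have hirr' : Irreducible (a.map (algebraMap R M) * b.map (algebraMap R M)) := by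
      rw [← hprod]
      have h1 : IsUnit (C (algebraMap R M ϖ ^ k) : M[X]) := isUnit_C.2 hk.isUnit
      exact (irreducible_isUnit_mul h1).2 hirr
    have hbu : IsUnit (b.map (algebraMap R M)) :=
      (hirr'.isUnit_or_isUnit rfl).resolve_left hanu
    obtain ⟨b', hb'u, hb'⟩ := Polynomial.isUnit_iff.1 hbu
    rw [← hb'] at hprod
    have hlead : algebraMap R M ϖ ^ k = b' := by
      have h1 := congrArg leadingCoeff hprod
      rw [leadingCoeff_mul, leadingCoeff_mul, leadingCoeff_C, leadingCoeff_C, hU.leadingCoeff,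
        hamM.leadingCoeff, mul_one, one_mul] at h1
      exact h1
    refine ⟨a, v, r, ham, hvmon, by rw [hv]; exact hvi, hr, by
      rw [ha, Polynomial.map_pow], ?_⟩
    have hCk : (C (algebraMap R M ϖ ^ k) : M[X]) ≠ 0 := by
      rw [Ne, C_eq_zero]
      exact hk
    refine mul_left_cancel₀ hCk ?_
    rw [hprod, ← hlead, mul_comm]

theorem locIm_le (hC : CData ϖ M) {f : M[X]} {c : M} (hc : c ≠ 0)
    (S : Subgroup (AdjoinRoot f)ˣ) (hsq : ∀ b, b ^ 2 ∈ S)
    (hpure : ∀ (a v : R[X]) (r : ℕ) (V : M[X]) (β : (AdjoinRoot f)ˣ), a.Monic → v.Monic →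
      Irreducible (v.map (Ideal.Quotient.mk (Ideal.span {ϖ}))) → 1 ≤ r →
      a.map (Ideal.Quotient.mk (Ideal.span {ϖ})) = v.map (Ideal.Quotient.mk (Ideal.span {ϖ})) ^ r →
      IsCoprime (a.map (algebraMap R M)) f → a.map (algebraMap R M) ∣ V ^ 2 - C c * f →
      (β : AdjoinRoot f) =
        AdjoinRoot.mk f (C ((-c) ^ a.natDegree) * a.map (algebraMap R M)) → β ∈ S)
    (hnon : ∀ (b : R[X]) (k : M) (U V : M[X]) (β : (AdjoinRoot f)ˣ), k ≠ 0 →
      b.map (Ideal.Quotient.mk (Ideal.span {ϖ})) = 1 → U = C k * b.map (algebraMap R M) → U.Monic →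
      IsCoprime U f → U ∣ V ^ 2 - C c * f →
      (β : AdjoinRoot f) = AdjoinRoot.mk f (C ((-c) ^ U.natDegree) * U) → β ∈ S) :
    LocIm f c ≤ S := by
  have hirr : ∀ (U V : M[X]) (β : (AdjoinRoot f)ˣ), U.Monic → Irreducible U → IsCoprime U f →
      U ∣ V ^ 2 - C c * f →
      (β : AdjoinRoot f) = AdjoinRoot.mk f (C ((-c) ^ U.natDegree) * U) → β ∈ S := by
    intro U V β hU hi hcop hd hβ
    rcases li_prim hC hU hi with ⟨a, v, r, ham, hvm, hvi, hr, hav, rfl⟩ | ⟨b, k, hk, hb, hUb⟩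
    · refine hpure a v r V β ham hvm hvi hr hav hcop hd ?_
      rw [hβ, ham.natDegree_map]
    · exact hnon b k U V β hk hb hUb hU hcop hd hβ
  have hall : ∀ (N : ℕ) (U V : M[X]) (β : (AdjoinRoot f)ˣ), U.natDegree ≤ N → U.Monic →
      IsCoprime U f → U ∣ V ^ 2 - C c * f →
      (β : AdjoinRoot f) = AdjoinRoot.mk f (C ((-c) ^ U.natDegree) * U) → β ∈ S := by
    intro N
    induction N with
    | zero =>
      intro U V β hN hU hcop hd hβ
      have h1 : U = 1 := hU.natDegree_eq_zero.1 (Nat.le_zero.1 hN)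
      rw [h1, natDegree_one, pow_zero, C_1, mul_one, map_one] at hβ
      have h2 : β = 1 := Units.ext hβ
      rw [h2]
      exact S.one_mem
    | succ N ih =>
      intro U V β hN hU hcop hd hβ
      by_cases hu : IsUnit U
      · have h1 : U = 1 := hU.eq_one_of_isUnit hu
        rw [h1, natDegree_one, pow_zero, C_1, mul_one, map_one] at hβ
        have h2 : β = 1 := Units.ext hβ
        rw [h2]
        exact S.one_mem
      · obtain ⟨U₁, hU₁m, hU₁i, U₂, rfl⟩ := Polynomial.exists_monic_irreducible_factor U hu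
        have hU₂m : U₂.Monic := hU₁m.of_mul_monic_left hU
        have hdeg : (U₁ * U₂).natDegree = U₁.natDegree + U₂.natDegree := hU₁m.natDegree_mul hU₂m
        have hpos : 0 < U₁.natDegree := hU₁i.natDegree_pos
        have hc1 : IsCoprime U₁ f := hcop.of_mul_left_left
        have hc2 : IsCoprime U₂ f := hcop.of_mul_left_right
        obtain ⟨β₁, hβ₁⟩ := li_unit hc1 hc U₁.natDegree
        obtain ⟨β₂, hβ₂⟩ := li_unit hc2 hc U₂.natDegree
        have h1 : β = β₁ * β₂ := by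
          refine Units.ext ?_
          rw [Units.val_mul, hβ, hβ₁, hβ₂, ← map_mul, hdeg, pow_add, C_mul]
          congr 1
          ring
        rw [h1]
        refine S.mul_mem (hirr U₁ V β₁ hU₁m hU₁i hc1 ((dvd_mul_right _ _).trans hd) hβ₁)
          (ih U₂ V β₂ ?_ hU₂m hc2 ((dvd_mul_left _ _).trans hd) hβ₂)
        omega
  unfold LocIm
  rw [Subgroup.closure_le]
  rintro β (⟨b, rfl⟩ | ⟨U, V, hU, hcop, hd, hβ⟩)
  · exact hsq b
  · exact hall _ U V β le_rfl hU hcop hd hβ

end Pool.Agent.Helper96.PS
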