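import Pool.Agent.Helper96.PS.Defs

/-!
# PS-B6c: distinguished pairs with a given characteristic polynomial form one orbit

`κ` a finite field, `G` symmetric invertible of size `N ≥ 1`, `f₀` monic of degree `N`. `𝓑 = {B symmetric : det(XG - B) = det G · f₀, Dist G B}`, `Z = {p ∈ κ[x]/(f₀) : p² = 1}`. Then `#𝓑 · #Z ≤ #{u : uᵀGu = G}`.
Proof. For `B ∈ 𝓑`, `T = G⁻¹B` has characteristic polynomial `f₀` and is self-adjoint for `⟨a, b⟩ = aᵀGb`. Let `v` be the vector of `Dist`: `⟨T^i v, T^j v⟩ = ⟨T^{i+j} v, v⟩` (`= vᵀ G T^{i+j} v`), which is `0` for `i + j < N - 1`, `1` for `i + j = N - 1`, and for `i + j ≥ N` it is determined by `f₀` (`f₀(T) = 0`, recursion). So the vectors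
`T^i v`, `i < N`, have an invertible (antitriangular) Gram matrix depending only on `f₀`: they form a basis. Fix `B₀ ∈ 𝓑` (if `𝓑` is empty there is nothing to prove), `T₀, v₀`, and for each `B ∈ 𝓑` choose `v`. Let `u_B` be the linear map `T₀^i v₀ ↦ T^i v` (`i < N`): an isometry of `G` with `u_B T₀ = T u_B` (also on `T₀^{N-1}v₀`, by `f₀`).
For `p ∈ Z`: `p(T₀)` (`κ[x]/(f₀) → κ[T₀]`) is self-adjoint with `p(T₀)² = 1`: an isometry commuting with `T₀`. Map `𝓑 × Z → {isometries}`, `(B, p) ↦ u_B p(T₀)`. Injective: `u = u_B p(T₀)` gives `u T₀ u⁻¹ = T`, so `B = G T`; then `p(T₀) = u_B⁻¹ u`, and `p` is determined by `p(T₀) v₀` (`v₀` cyclic).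
-/

namespace Pool.Agent.Helper96.PS

open Polynomial Matrix

section

variable {κ : Type*} [Field κ] {N : ℕ}

/-- the Krylov matrix -/
private def Kr (T : Matrix (Fin N) (Fin N) κ) (w : Fin N → κ) : Matrix (Fin N) (Fin N) κ :=
  Matrix.of fun i j => ((T ^ (j : ℕ)).mulVec w) i

/-- `T` is self-adjoint, annihilated by `f`, and `w` is distinguished -/
private structure Gd (G : Matrix (Fin N) (Fin N) κ) (f : κ[X]) (T : Matrix (Fin N) (Fin N) κ)
    (w : Fin N → κ) : Prop where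
  adj : T.transpose * G = G * T
  ann : aeval T f = 0
  dist : ∀ i : ℕ, i < N → w ⬝ᵥ ((G * T ^ i).mulVec w) = if i + 1 = N then 1 else 0

private theorem adj_pow {G T : Matrix (Fin N) (Fin N) κ} (h : T.transpose * G = G * T) (n : ℕ) :
    (T ^ n).transpose * G = G * T ^ n := by
  induction n with
  | zero => simp
  | succ n ih =>
    rw [pow_succ, Matrix.transpose_mul, Matrix.mul_assoc, ih, ← Matrix.mul_assoc, h,
      Matrix.mul_assoc, ← pow_succ', pow_succ]

private theorem adj_aeval {G T : Matrix (Fin N) (Fin N) κ} (h : T.transpose * G = G * T)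
    (P : κ[X]) : (aeval T P).transpose * G = G * aeval T P := by
  rw [aeval_eq_sum_range, Matrix.transpose_sum, Finset.sum_mul, Finset.mul_sum]
  refine Finset.sum_congr rfl fun i _ => ?_
  rw [Matrix.transpose_smul, Matrix.smul_mul, Matrix.mul_smul, adj_pow h]

private theorem dot_left (M : Matrix (Fin N) (Fin N) κ) (w v : Fin N → κ) :
    (M.mulVec w) ⬝ᵥ v = w ⬝ᵥ (M.transpose.mulVec v) := by
  rw [dotProduct_comm, Matrix.dotProduct_mulVec, ← Matrix.mulVec_transpose, dotProduct_comm]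

private theorem form_eq {G : Matrix (Fin N) (Fin N) κ} (w : Fin N → κ) (P A Q : Matrix (Fin N) (Fin N) κ) (hP : P.transpose * G = G * P) :
    (P.mulVec w) ⬝ᵥ ((G * A).mulVec (Q.mulVec w)) = w ⬝ᵥ ((G * (P * A * Q)).mulVec w) := by
  rw [dot_left, Matrix.mulVec_mulVec, Matrix.mulVec_mulVec]
  congr 2
  rw [← Matrix.mul_assoc, ← Matrix.mul_assoc, hP]
  simp only [Matrix.mul_assoc]

private theorem phi {G : Matrix (Fin N) (Fin N) κ} {f : κ[X]} {T : Matrix (Fin N) (Fin N) κ}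
    {w : Fin N → κ} (hN : 1 ≤ N) (hf : f.Monic) (hd : f.natDegree = N) (h : Gd G f T w) (p : κ[X]) :
    w ⬝ᵥ ((G * aeval T p).mulVec w) = (p %ₘ f).coeff (N - 1) := by
  have h1 : aeval T (p %ₘ f) = aeval T p := aeval_modByMonic_eq_self_of_root h.ann
  have h2 : (p %ₘ f).natDegree < N := by
    rw [← hd]
    refine natDegree_modByMonic_lt p hf ?_
    rintro rfl
    rw [natDegree_one] at hd
    omega
  rw [← h1, aeval_eq_sum_range' h2, Matrix.mul_sum, Matrix.sum_mulVec, dotProduct_sum]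
  have h3 : ∀ i ∈ Finset.range N, w ⬝ᵥ ((G * ((p %ₘ f).coeff i • T ^ i)).mulVec w) =
      if i = N - 1 then (p %ₘ f).coeff (N - 1) else 0 := by
    intro i hi
    rw [Matrix.mul_smul, Matrix.smul_mulVec, dotProduct_smul, h.dist i (Finset.mem_range.1 hi),
      smul_eq_mul]
    have : i + 1 = N ↔ i = N - 1 := by omega
    simp only [this]
    split_ifs with h4
    · rw [h4, mul_one]
    · rw [mul_zero]
  rw [Finset.sum_congr rfl h3, Finset.sum_ite_eq' (Finset.range N), if_pos (Finset.mem_range.2 (by omega))]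

private theorem kr_mulVec (T : Matrix (Fin N) (Fin N) κ) (w c : Fin N → κ) :
    (Kr T w).mulVec c = (aeval T (∑ j, C (c j) * X ^ (j : ℕ) : κ[X])).mulVec w := by
  rw [map_sum, Matrix.sum_mulVec]
  ext i
  rw [Finset.sum_apply]
  change ∑ j : Fin N, ((T ^ (j : ℕ)).mulVec w) i * c j = _
  refine Finset.sum_congr rfl fun j _ => ?_
  rw [map_mul, aeval_C, map_pow, aeval_X, ← Algebra.smul_def, Matrix.smul_mulVec, Pi.smul_apply,
    smul_eq_mul, mul_comm]

private theorem cyc {G : Matrix (Fin N) (Fin N) κ} {f : κ[X]} {T : Matrix (Fin N) (Fin N) κ}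
    {w : Fin N → κ} (hN : 1 ≤ N) (hf : f.Monic) (hd : f.natDegree = N) (h : Gd G f T w) {P : κ[X]}
    (hP : P.degree < (N : WithBot ℕ)) (h0 : (aeval T P).mulVec w = 0) : P = 0 := by
  by_contra hne
  have h1 : P.natDegree < N := (natDegree_lt_iff_degree_lt hne).2 hP
  have h2 := phi hN hf hd h (X ^ (N - 1 - P.natDegree) * P)
  have h3 : (X ^ (N - 1 - P.natDegree) * P) %ₘ f = X ^ (N - 1 - P.natDegree) * P := by
    rw [modByMonic_eq_self_iff hf, degree_mul, degree_X_pow, degree_eq_natDegree hf.ne_zero, hd,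
      degree_eq_natDegree hne]
    have : N - 1 - P.natDegree + P.natDegree < N := by omega
    exact_mod_cast this
  have h4 : (X ^ (N - 1 - P.natDegree) * P).coeff (N - 1) = P.leadingCoeff := by
    have h5 : N - 1 = P.natDegree + (N - 1 - P.natDegree) := by omega
    nth_rewrite 2 [h5]
    rw [coeff_X_pow_mul]
    rfl
  rw [h3, h4, map_mul, ← Matrix.mul_assoc, ← Matrix.mulVec_mulVec, h0, Matrix.mulVec_zero,
    dotProduct_zero] at h2
  exact hne (leadingCoeff_eq_zero.1 h2.symm)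

private theorem kr_det {G : Matrix (Fin N) (Fin N) κ} {f : κ[X]} {T : Matrix (Fin N) (Fin N) κ}
    {w : Fin N → κ} (hN : 1 ≤ N) (hf : f.Monic) (hd : f.natDegree = N) (h : Gd G f T w) :
    IsUnit (Kr T w).det := by
  rw [isUnit_iff_ne_zero]
  intro h0
  obtain ⟨c, hc, hc0⟩ := Matrix.exists_mulVec_eq_zero_iff.2 h0
  rw [kr_mulVec] at hc0
  have h1 := cyc hN hf hd h (degree_sum_fin_lt c) hc0
  apply hc
  ext j
  have h2 := congrArg (fun P : κ[X] => P.coeff j) h1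
  simp only [finsetSum_coeff, coeff_C_mul, coeff_X_pow, coeff_zero] at h2
  rw [Finset.sum_eq_single j] at h2
  · simpa using h2
  · intro b _ hb
    rw [if_neg, mul_zero]
    intro h3
    exact hb (Fin.ext h3.symm)
  · intro hb
    exact absurd (Finset.mem_univ _) hb

private theorem kr_gram {G : Matrix (Fin N) (Fin N) κ} {f : κ[X]} {T : Matrix (Fin N) (Fin N) κ}
    {w : Fin N → κ} (hN : 1 ≤ N) (hf : f.Monic) (hd : f.natDegree = N) (h : Gd G f T w) :
    (Kr T w).transpose * G * Kr T w =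
      Matrix.of fun i j : Fin N => ((X ^ ((i : ℕ) + (j : ℕ)) : κ[X]) %ₘ f).coeff (N - 1) := by
  ext i j
  have h1 : ((Kr T w).transpose * G * Kr T w) i j =
      ((T ^ (i : ℕ)).mulVec w) ⬝ᵥ ((G * 1).mulVec ((T ^ (j : ℕ)).mulVec w)) := by
    rw [Matrix.mul_one, Matrix.mul_assoc, Matrix.mul_apply]
    unfold dotProduct
    refine Finset.sum_congr rfl fun k _ => ?_
    congr 1
  rw [h1, form_eq w _ _ _ (adj_pow h.adj i), Matrix.mul_one, ← pow_add, Matrix.of_apply,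
    ← phi hN hf hd h]
  simp

private theorem kr_inj {G : Matrix (Fin N) (Fin N) κ} {f : κ[X]} {T T' : Matrix (Fin N) (Fin N) κ}
    {w w' : Fin N → κ} (hN : 1 ≤ N) (hf : f.Monic) (hd : f.natDegree = N) (h : Gd G f T w)
    (h' : Gd G f T' w') (he : Kr T w = Kr T' w') : T = T' ∧ w = w' := by
  have hcol : ∀ m : ℕ, m < N → (T ^ m).mulVec w = (T' ^ m).mulVec w' := by
    intro m hm
    ext i
    exact congrFun (congrFun he i) ⟨m, hm⟩
  have hpow : ∀ {S : Matrix (Fin N) (Fin N) κ}, aeval S f = 0 →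
      S ^ N = -∑ i ∈ Finset.range N, f.coeff i • S ^ i := by
    intro S hS
    rw [aeval_eq_sum_range, hd, Finset.sum_range_succ] at hS
    have h1 : f.coeff N = 1 := by
      rw [← hd]
      exact hf.coeff_natDegree
    rw [h1, one_smul] at hS
    exact eq_neg_of_add_eq_zero_right hS
  have htop : (T ^ N).mulVec w = (T' ^ N).mulVec w' := by
    rw [hpow h.ann, hpow h'.ann, Matrix.neg_mulVec, Matrix.neg_mulVec, Matrix.sum_mulVec,
      Matrix.sum_mulVec]
    congr 1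
    refine Finset.sum_congr rfl fun i hi => ?_
    rw [Matrix.smul_mulVec, Matrix.smul_mulVec, hcol i (Finset.mem_range.1 hi)]
  have hall : ∀ m : ℕ, m ≤ N → (T ^ m).mulVec w = (T' ^ m).mulVec w' := by
    intro m hm
    rcases hm.lt_or_eq with h1 | h1
    · exact hcol m h1
    · rw [h1]
      exact htop
  have hw : w = w' := by
    have := hall 0 (Nat.zero_le _)
    simpa using this
  refine ⟨?_, hw⟩
  have hmul : ∀ (S : Matrix (Fin N) (Fin N) κ) (v : Fin N → κ) (i j : Fin N),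
      (S * Kr S v) i j = ((S ^ ((j : ℕ) + 1)).mulVec v) i := by
    intro S v i j
    rw [pow_succ', ← Matrix.mulVec_mulVec]
    rfl
  have h1 : T * Kr T w = T' * Kr T w := by
    rw [he]
    nth_rewrite 1 [← he]
    ext i j
    rw [hmul, hmul, hall _ j.2]
  have h2 := kr_det hN hf hd h
  calc T = T * Kr T w * (Kr T w)⁻¹ := by rw [Matrix.mul_nonsing_inv_cancel_right _ _ h2]
    _ = T' * Kr T w * (Kr T w)⁻¹ := by rw [h1]
    _ = T' := by rw [Matrix.mul_nonsing_inv_cancel_right _ _ h2]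

private theorem charpoly_eq {G B : Matrix (Fin N) (Fin N) κ} {f : κ[X]} (hG : IsUnit G.det)
    (h : cdet G B = C G.det * f) : (G⁻¹ * B).charpoly = f := by
  have h1 : cdet G B = C G.det * (G⁻¹ * B).charpoly := by
    have h2 : ((X : κ[X]) • G.map C - B.map C) = G.map C * Matrix.charmatrix (G⁻¹ * B) := by
      have h3 : B = G * (G⁻¹ * B) := by
        rw [Matrix.mul_nonsing_inv_cancel_left _ _ hG]
      nth_rewrite 1 [h3]
      rw [Matrix.charmatrix, Matrix.mul_sub]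
      congr 1
      · rw [Matrix.scalar_apply, ← Matrix.smul_one_eq_diagonal, Matrix.mul_smul, Matrix.mul_one]
      · exact Matrix.map_mul
    unfold cdet Matrix.charpoly
    rw [h2, Matrix.det_mul]
    congr 1
    exact (RingHom.map_det C G).symm
  rw [h1] at h
  exact mul_left_cancel₀ (C_ne_zero.2 hG.ne_zero) h

private theorem gd_of {G B : Matrix (Fin N) (Fin N) κ} {f : κ[X]} (hs : G.IsSymm)
    (hG : IsUnit G.det) (hB : B.IsSymm) (h : cdet G B = C G.det * f) {w : Fin N → κ}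
    (hw : ∀ i : ℕ, i < N → w ⬝ᵥ ((G * (G⁻¹ * B) ^ i).mulVec w) = if i + 1 = N then 1 else 0) :
    Gd G f (G⁻¹ * B) w := by
  refine ⟨?_, ?_, hw⟩
  · rw [Matrix.mul_nonsing_inv_cancel_left _ _ hG, Matrix.transpose_mul, hB.eq,
      Matrix.transpose_nonsing_inv, hs.eq, Matrix.mul_assoc, Matrix.nonsing_inv_mul _ hG,
      Matrix.mul_one]
  · rw [← charpoly_eq hG h]
    exact Matrix.aeval_self_charpoly _

private theorem gd_mul {G : Matrix (Fin N) (Fin N) κ} {f : κ[X]} {T : Matrix (Fin N) (Fin N) κ}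
    {w : Fin N → κ} (h : Gd G f T w) {P : κ[X]} (hP : aeval T (P ^ 2) = 1) :
    Gd G f T ((aeval T P).mulVec w) := by
  refine ⟨h.adj, h.ann, fun i hi => ?_⟩
  rw [form_eq w _ _ _ (adj_aeval h.adj P), ← h.dist i hi]
  congr 3
  have h1 : aeval T P * T ^ i * aeval T P = aeval T (X ^ i * P ^ 2) := by
    have h2 : (X ^ i * P ^ 2 : κ[X]) = P * X ^ i * P := by ring
    rw [h2, map_mul, map_mul, map_pow, aeval_X]
  rw [h1, map_mul, hP, map_pow, aeval_X, mul_one]

end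

theorem orbit_card {κ : Type*} [Field κ] [Finite κ] {N : ℕ} (hN : 1 ≤ N)
    {G : Matrix (Fin N) (Fin N) κ} (hs : G.IsSymm) (hG : IsUnit G.det) {f₀ : κ[X]}
    (hf₀ : f₀.Monic) (hd : f₀.natDegree = N) :
    {B : Matrix (Fin N) (Fin N) κ | B.IsSymm ∧ cdet G B = C G.det * f₀ ∧ Dist G B}.ncard *
      {p : AdjoinRoot f₀ | p ^ 2 = 1}.ncard ≤
      {u : Matrix (Fin N) (Fin N) κ | u.transpose * G * u = G}.ncard := by
  classical
  set 𝓑 : Set (Matrix (Fin N) (Fin N) κ) :=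
    {B | B.IsSymm ∧ cdet G B = C G.det * f₀ ∧ Dist G B} with h𝓑
  set Z : Set (AdjoinRoot f₀) := {p | p ^ 2 = 1} with hZ
  rcases 𝓑.eq_empty_or_nonempty with h0 | ⟨B₀, hB₀⟩
  · rw [h0, Set.ncard_empty, zero_mul]
    exact Nat.zero_le _
  -- distinguished vectors
  have hex : ∀ B : Matrix (Fin N) (Fin N) κ, ∃ w : Fin N → κ, B ∈ 𝓑 → Gd G f₀ (G⁻¹ * B) w := by
    intro B
    by_cases hB : B ∈ 𝓑
    · obtain ⟨w, hw⟩ := hB.2.2
      exact ⟨w, fun _ => gd_of hs hG hB.1 hB.2.1 hw⟩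
    · exact ⟨0, fun h => absurd h hB⟩
  choose w hw using hex
  set K₀ := Kr (G⁻¹ * B₀) (w B₀) with hK₀
  have hK₀d : IsUnit K₀.det := kr_det hN hf₀ hd (hw B₀ hB₀)
  set v : Matrix (Fin N) (Fin N) κ × AdjoinRoot f₀ → (Fin N → κ) := fun x =>
    (aeval (G⁻¹ * x.1) (AdjoinRoot.modByMonicHom hf₀ x.2)).mulVec (w x.1) with hv
  have hgd : ∀ x ∈ 𝓑 ×ˢ Z, Gd G f₀ (G⁻¹ * x.1) (v x) := by
    rintro ⟨B, p⟩ ⟨hB, hp⟩
    refine gd_mul (hw B hB) ?_
    have h1 : AdjoinRoot.mk f₀ ((AdjoinRoot.modByMonicHom hf₀ p) ^ 2) = AdjoinRoot.mk f₀ 1 := by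
      rw [map_pow, AdjoinRoot.mk_leftInverse hf₀ p, map_one]
      exact hp
    rw [AdjoinRoot.mk_eq_mk] at h1
    obtain ⟨q, hq⟩ := h1
    have h2 : (AdjoinRoot.modByMonicHom hf₀ p) ^ 2 = f₀ * q + 1 := by rw [← hq]; ring
    change aeval (G⁻¹ * B) ((AdjoinRoot.modByMonicHom hf₀ p) ^ 2) = 1
    rw [h2, map_add, map_mul, (hw B hB).ann, zero_mul, zero_add, map_one]
  rw [← Set.ncard_prod]
  refine Set.ncard_le_ncard_of_injOn (fun x => Kr (G⁻¹ * x.1) (v x) * K₀⁻¹) ?_ ?_ (Set.toFinite _)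
  · intro x hx
    have h1 := kr_gram hN hf₀ hd (hgd x hx)
    have h2 := kr_gram hN hf₀ hd (hw B₀ hB₀)
    rw [← h2] at h1
    change (Kr (G⁻¹ * x.1) (v x) * K₀⁻¹).transpose * G * (Kr (G⁻¹ * x.1) (v x) * K₀⁻¹) = G
    calc (Kr (G⁻¹ * x.1) (v x) * K₀⁻¹).transpose * G * (Kr (G⁻¹ * x.1) (v x) * K₀⁻¹)
        = (K₀⁻¹).transpose * ((Kr (G⁻¹ * x.1) (v x)).transpose * G * Kr (G⁻¹ * x.1) (v x)) * K₀⁻¹ := by
          rw [Matrix.transpose_mul]
          simp only [Matrix.mul_assoc]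
      _ = (K₀⁻¹).transpose * (K₀.transpose * G * K₀) * K₀⁻¹ := by rw [h1]
      _ = (K₀ * K₀⁻¹).transpose * G * (K₀ * K₀⁻¹) := by
          rw [Matrix.transpose_mul]
          simp only [Matrix.mul_assoc]
      _ = G := by
          rw [Matrix.mul_nonsing_inv _ hK₀d, Matrix.transpose_one, Matrix.one_mul, Matrix.mul_one]
  · intro x hx y hy hxy
    have h1 : Kr (G⁻¹ * x.1) (v x) = Kr (G⁻¹ * y.1) (v y) := by
      have h2 : Kr (G⁻¹ * x.1) (v x) * K₀⁻¹ = Kr (G⁻¹ * y.1) (v y) * K₀⁻¹ := hxy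
      calc Kr (G⁻¹ * x.1) (v x) = Kr (G⁻¹ * x.1) (v x) * K₀⁻¹ * K₀ := by
            rw [Matrix.nonsing_inv_mul_cancel_right _ _ hK₀d]
        _ = Kr (G⁻¹ * y.1) (v y) * K₀⁻¹ * K₀ := by rw [h2]
        _ = _ := by rw [Matrix.nonsing_inv_mul_cancel_right _ _ hK₀d]
    obtain ⟨h2, h3⟩ := kr_inj hN hf₀ hd (hgd x hx) (hgd y hy) h1
    have h4 : x.1 = y.1 := by
      calc x.1 = G * (G⁻¹ * x.1) := by rw [Matrix.mul_nonsing_inv_cancel_left _ _ hG]
        _ = G * (G⁻¹ * y.1) := by rw [h2]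
        _ = y.1 := by rw [Matrix.mul_nonsing_inv_cancel_left _ _ hG]
    refine Prod.ext h4 ?_
    have h5 : (aeval (G⁻¹ * x.1) (AdjoinRoot.modByMonicHom hf₀ x.2 -
        AdjoinRoot.modByMonicHom hf₀ y.2)).mulVec (w x.1) = 0 := by
      rw [map_sub, Matrix.sub_mulVec, sub_eq_zero]
      have h6 : v x = v y := h3
      simp only [hv] at h6
      rw [← h4] at h6
      exact h6
    have hdeg : ∀ p : AdjoinRoot f₀, (AdjoinRoot.modByMonicHom hf₀ p).degree < (N : WithBot ℕ) := by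
      intro p
      obtain ⟨P, rfl⟩ := AdjoinRoot.mk_surjective p
      rw [AdjoinRoot.modByMonicHom_mk, ← hd, ← degree_eq_natDegree hf₀.ne_zero]
      exact degree_modByMonic_lt P hf₀
    have h7 := cyc hN hf₀ hd (hw x.1 hx.1)
      ((degree_sub_le _ _).trans_lt (max_lt (hdeg x.2) (hdeg y.2))) h5
    rw [sub_eq_zero] at h7
    rw [← AdjoinRoot.mk_leftInverse hf₀ x.2, h7, AdjoinRoot.mk_leftInverse hf₀ y.2]

end Pool.Agent.Helper96.PS
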