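import Pool.Agent.Helper96.PS.DefsC

/-!
# PS-C8: maximal ideals of `A[x]` and of `R[x]`

`hL : LData π R M`, `π` irreducible. For all `k`: `A/π^k → R/ϖ^k` is an isomorphism (`surj`, `inj`), so `A[x]/(π^k) ≅ R[x]/(ϖ^k)`. Let `m'` be a maximal ideal of `R[x]` containing `ϖ`, `m` its preimage in `A[x]`. `m ∋ π`, `A[x]/m ≅ R[x]/m'`: `m` is maximal, `m R[x] + (ϖ^k) = m'` … For all `j`:
`P ∈ m'^j + (f)` iff `P ∈ m^j + (f)` for `P, f ∈ A[x]`: both ideals contain `ϖ^j` resp. `π^j`, and correspond to each other under `A[x]/(π^j) ≅ R[x]/(ϖ^j)` (`m'` = the ideal generated by the image of `m` together with `ϖ^j R[x]`; the image of `m` mod `π^j` corresponds to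
`m'` mod `ϖ^j`, so do the powers). Conversely every maximal `m ∋ π` of `A[x]` is the preimage of a maximal `m' ∋ ϖ` of `R[x]` (`m' =` the ideal generated by `m`; `R[x]/m' = A[x]/m`).
-/

namespace Pool.Agent.Helper96.PS

open Polynomial

variable {F : Type*} [Field F] {π : F[X]} {R M : Type*} [CommRing R] [IsDomain R] [Field M]
  [Algebra R M] [Algebra F[X] R] [Algebra (RatFunc F) M]

/-- approximation of polynomials over `R` by polynomials over `F[t]` -/
private theorem h86surj (hL : LData π R M) (Q : R[X]) (k : ℕ) :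
    ∃ P : F[X][X], C ((algebraMap F[X] R π) ^ k) ∣ Q - mapRingHom (algebraMap F[X] R) P := by
  choose a ha using fun i => hL.surj (Q.coeff i) k
  refine ⟨∑ i ∈ Q.support, monomial i (a i), ?_⟩
  rw [C_dvd_iff_dvd_coeff]
  intro i
  rw [coeff_sub, coe_mapRingHom, coeff_map, finsetSum_coeff]
  simp only [coeff_monomial]
  rw [Finset.sum_ite_eq' Q.support i a]
  by_cases hi : i ∈ Q.support
  · rw [if_pos hi]
    exact ha i
  · rw [if_neg hi, map_zero, sub_zero, notMem_support_iff.mp hi]
    exact dvd_zero _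

private theorem h86inj (hL : LData π R M) (P : F[X][X]) (k : ℕ)
    (h : C ((algebraMap F[X] R π) ^ k) ∣ mapRingHom (algebraMap F[X] R) P) : C (π ^ k) ∣ P := by
  rw [C_dvd_iff_dvd_coeff] at h ⊢
  intro i
  have h1 := h i
  rw [coe_mapRingHom, coeff_map] at h1
  exact hL.inj _ _ h1

private theorem h86C (k : ℕ) : mapRingHom (algebraMap F[X] R) (C (π ^ k)) =
    C ((algebraMap F[X] R π) ^ k) := by
  rw [coe_mapRingHom, map_C, map_pow]

private theorem h86surj_field (hL : LData π R M) {m' : Ideal R[X]}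
    (hϖ : C (algebraMap F[X] R π) ∈ m') :
    Function.Surjective ((Ideal.Quotient.mk m').comp (mapRingHom (algebraMap F[X] R))) := by
  intro z
  obtain ⟨Q, rfl⟩ := Ideal.Quotient.mk_surjective z
  obtain ⟨P, hP⟩ := h86surj hL Q 1
  refine ⟨P, ?_⟩
  rw [RingHom.comp_apply, eq_comm, ← sub_eq_zero, ← map_sub, Ideal.Quotient.eq_zero_iff_mem]
  rw [pow_one] at hP
  exact m'.mem_of_dvd hP hϖ

theorem comap_isMaximal (hL : LData π R M) {m' : Ideal R[X]} (hm' : m'.IsMaximal)
    (hϖ : C (algebraMap F[X] R π) ∈ m') :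
    (m'.comap (mapRingHom (algebraMap F[X] R))).IsMaximal ∧
      C π ∈ m'.comap (mapRingHom (algebraMap F[X] R)) := by
  constructor
  · have h1 : m'.comap (mapRingHom (algebraMap F[X] R)) =
        RingHom.ker ((Ideal.Quotient.mk m').comp (mapRingHom (algebraMap F[X] R))) := by
      ext P
      rw [Ideal.mem_comap, RingHom.mem_ker, RingHom.comp_apply, Ideal.Quotient.eq_zero_iff_mem]
    rw [h1]
    letI := Ideal.Quotient.field m'
    exact RingHom.ker_isMaximal_of_surjective _ (h86surj_field hL hϖ)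
  · rw [Ideal.mem_comap, coe_mapRingHom, map_C]
    exact hϖ

/-- the polynomials over `R` which are congruent to elements of `I` -/
private def h86J (hL : LData π R M) (I : Ideal F[X][X]) (k : ℕ) : Ideal R[X] where
  carrier := {Q | ∃ P ∈ I, C ((algebraMap F[X] R π) ^ k) ∣ Q - mapRingHom (algebraMap F[X] R) P}
  zero_mem' := ⟨0, I.zero_mem, by rw [map_zero, sub_zero]; exact dvd_zero _⟩
  add_mem' := by
    rintro Q Q' ⟨P, hP, h⟩ ⟨P', hP', h'⟩
    refine ⟨P + P', I.add_mem hP hP', ?_⟩
    rw [map_add]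
    have := dvd_add h h'
    have e : Q - mapRingHom (algebraMap F[X] R) P + (Q' - mapRingHom (algebraMap F[X] R) P') =
      Q + Q' - (mapRingHom (algebraMap F[X] R) P + mapRingHom (algebraMap F[X] R) P') := by ring
    rwa [e] at this
  smul_mem' := by
    rintro S Q ⟨P, hP, h⟩
    obtain ⟨P', hP'⟩ := h86surj hL S k
    refine ⟨P' * P, I.mul_mem_left _ hP, ?_⟩
    rw [smul_eq_mul, map_mul]
    have e : S * Q - mapRingHom (algebraMap F[X] R) P' * mapRingHom (algebraMap F[X] R) P =
      S * (Q - mapRingHom (algebraMap F[X] R) P) +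
        mapRingHom (algebraMap F[X] R) P * (S - mapRingHom (algebraMap F[X] R) P') := by ring
    rw [e]
    exact dvd_add (h.mul_left _) (hP'.mul_left _)

private theorem h86memJ (hL : LData π R M) (I : Ideal F[X][X]) (k : ℕ) (Q : R[X]) :
    Q ∈ h86J hL I k ↔ ∃ P ∈ I, C ((algebraMap F[X] R π) ^ k) ∣
      Q - mapRingHom (algebraMap F[X] R) P := Iff.rfl

theorem exists_up (hL : LData π R M) {m : Ideal F[X][X]} (hm : m.IsMaximal) (hπ : C π ∈ m) :
    ∃ m' : Ideal R[X], m'.IsMaximal ∧ C (algebraMap F[X] R π) ∈ m' ∧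
      m'.comap (mapRingHom (algebraMap F[X] R)) = m := by
  have hle : m.map (mapRingHom (algebraMap F[X] R)) ≤ h86J hL m 1 := by
    rw [Ideal.map_le_iff_le_comap]
    intro P hP
    rw [Ideal.mem_comap, h86memJ]
    exact ⟨P, hP, by rw [sub_self]; exact dvd_zero _⟩
  have hne : m.map (mapRingHom (algebraMap F[X] R)) ≠ ⊤ := by
    intro htop
    have h1 : (1 : R[X]) ∈ h86J hL m 1 := hle (by rw [htop]; trivial)
    obtain ⟨P, hP, h⟩ := h1
    have h2 : C (π ^ 1) ∣ 1 - P := by
      refine h86inj hL _ 1 ?_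
      rw [map_sub, map_one]
      exact h
    rw [pow_one] at h2
    have h3 : (1 - P) ∈ m := m.mem_of_dvd h2 hπ
    have h4 : (1 : F[X][X]) ∈ m := by
      have := m.add_mem h3 hP
      rwa [sub_add_cancel] at this
    exact hm.ne_top ((Ideal.eq_top_iff_one m).mpr h4)
  obtain ⟨m', hm', hle'⟩ := Ideal.exists_le_maximal _ hne
  have hle2 : m ≤ m'.comap (mapRingHom (algebraMap F[X] R)) := Ideal.map_le_iff_le_comap.mp hle'
  have hϖ : C (algebraMap F[X] R π) ∈ m' := by
    have := hle2 hπ
    rwa [Ideal.mem_comap, coe_mapRingHom, map_C] at this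
  refine ⟨m', hm', hϖ, ?_⟩
  exact (hm.eq_of_le (comap_isMaximal hL hm' hϖ).1.ne_top hle2).symm

private theorem h86pow (hL : LData π R M) {m' : Ideal R[X]} (hϖ : C (algebraMap F[X] R π) ∈ m')
    (j k : ℕ) : m' ^ j ≤ h86J hL ((m'.comap (mapRingHom (algebraMap F[X] R))) ^ j) k := by
  induction j with
  | zero =>
    intro Q _
    obtain ⟨P, hP⟩ := h86surj hL Q k
    exact ⟨P, by simp, hP⟩
  | succ j ih =>
    rw [pow_succ, Ideal.mul_le]
    intro a ha b hb
    obtain ⟨P, hP, h⟩ := ih ha
    obtain ⟨P', h'⟩ := h86surj hL b (k + 1)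
    have hP' : P' ∈ m'.comap (mapRingHom (algebraMap F[X] R)) := by
      rw [Ideal.mem_comap]
      have h1 : b - mapRingHom (algebraMap F[X] R) P' ∈ m' := by
        refine m'.mem_of_dvd h' ?_
        rw [pow_succ, C_mul]
        exact m'.mul_mem_left _ hϖ
      have h2 := m'.sub_mem hb h1
      rwa [sub_sub_cancel] at h2
    rw [h86memJ]
    have hPP : P * P' ∈ (m'.comap (mapRingHom (algebraMap F[X] R))) ^ (j + 1) := by
      have h9 := Ideal.mul_mem_mul hP hP'
      exact (le_of_eq (pow_succ (m'.comap (mapRingHom (algebraMap F[X] R))) j).symm) h9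
    refine ⟨P * P', hPP, ?_⟩
    have h'' : C ((algebraMap F[X] R π) ^ k) ∣ b - mapRingHom (algebraMap F[X] R) P' := by
      refine dvd_trans ?_ h'
      rw [pow_succ, C_mul]
      exact dvd_mul_right _ _
    rw [map_mul]
    have e : a * b - mapRingHom (algebraMap F[X] R) P * mapRingHom (algebraMap F[X] R) P' =
      b * (a - mapRingHom (algebraMap F[X] R) P) +
        mapRingHom (algebraMap F[X] R) P * (b - mapRingHom (algebraMap F[X] R) P') := by ring
    rw [e]
    exact dvd_add (h.mul_left _) (h''.mul_left _)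

theorem mem_pow_iff (hL : LData π R M) {m' : Ideal R[X]} (hm' : m'.IsMaximal)
    (hϖ : C (algebraMap F[X] R π) ∈ m') (P f : F[X][X]) (j : ℕ) :
    P.map (algebraMap F[X] R) ∈ m' ^ j ⊔ Ideal.span {f.map (algebraMap F[X] R)} ↔
      P ∈ (m'.comap (mapRingHom (algebraMap F[X] R))) ^ j ⊔ Ideal.span {f} := by
  constructor
  · intro h
    obtain ⟨Q1, hQ1, Q2, hQ2, hQ⟩ := Submodule.mem_sup.mp h
    obtain ⟨S, rfl⟩ := Ideal.mem_span_singleton'.mp hQ2
    obtain ⟨P1, hP1, h1⟩ := h86pow hL hϖ j j hQ1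
    obtain ⟨P2, h2⟩ := h86surj hL S j
    have h3 : C (π ^ j) ∣ P - P1 - P2 * f := by
      refine h86inj hL _ j ?_
      rw [map_sub, map_sub, map_mul, coe_mapRingHom]
      rw [coe_mapRingHom] at h1 h2
      rw [← hQ]
      have e : Q1 + S * map (algebraMap F[X] R) f - map (algebraMap F[X] R) P1 -
          map (algebraMap F[X] R) P2 * map (algebraMap F[X] R) f =
        (Q1 - map (algebraMap F[X] R) P1) +
          map (algebraMap F[X] R) f * (S - map (algebraMap F[X] R) P2) := by ring
      rw [e]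
      exact dvd_add h1 (h2.mul_left _)
    have h4 : P - P1 - P2 * f ∈ (m'.comap (mapRingHom (algebraMap F[X] R))) ^ j := by
      refine Ideal.mem_of_dvd _ h3 ?_
      rw [C_pow]
      exact Ideal.pow_mem_pow (comap_isMaximal hL hm' hϖ).2 j
    have e : P = ((P - P1 - P2 * f) + P1) + P2 * f := by ring
    rw [e]
    exact Submodule.add_mem_sup (Ideal.add_mem _ h4 hP1)
      (Ideal.mul_mem_left _ _ (Ideal.mem_span_singleton_self f))
  · intro h
    have h1 := Ideal.mem_map_of_mem (mapRingHom (algebraMap F[X] R)) h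
    rw [Ideal.map_sup, Ideal.map_pow, Ideal.map_span, Set.image_singleton, coe_mapRingHom] at h1
    have h2 : (Ideal.map (mapRingHom (algebraMap F[X] R))
        (m'.comap (mapRingHom (algebraMap F[X] R)))) ^ j ⊔
          Ideal.span {f.map (algebraMap F[X] R)} ≤
        m' ^ j ⊔ Ideal.span {f.map (algebraMap F[X] R)} :=
      sup_le_sup (Ideal.pow_right_mono Ideal.map_comap_le j) le_rfl
    exact h2 h1

theorem mem_pow_iff' (hL : LData π R M) {m' : Ideal R[X]} (hm' : m'.IsMaximal)
    (hϖ : C (algebraMap F[X] R π) ∈ m') (P : F[X][X]) (j : ℕ) :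
    P.map (algebraMap F[X] R) ∈ m' ^ j ↔
      P ∈ (m'.comap (mapRingHom (algebraMap F[X] R))) ^ j := by
  have h := mem_pow_iff hL hm' hϖ P 0 j
  rw [Polynomial.map_zero, Ideal.span_singleton_eq_bot.mpr rfl,
    Ideal.span_singleton_eq_bot.mpr rfl, sup_bot_eq, sup_bot_eq] at h
  exact h

/-- the residue fields are isomorphic -/
private theorem h86equiv (hL : LData π R M) :
    ∃ e : AdjoinRoot π ≃+* (R ⧸ Ideal.span {algebraMap F[X] R π}), ∀ a : F[X],
      e (AdjoinRoot.mk π a) = Ideal.Quotient.mk _ (algebraMap F[X] R a) := by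
  set p₂ : F[X] →+* R ⧸ Ideal.span {algebraMap F[X] R π} :=
    (Ideal.Quotient.mk (Ideal.span {algebraMap F[X] R π})).comp (algebraMap F[X] R) with hp₂
  have h1 : Function.Surjective (AdjoinRoot.mk π) := AdjoinRoot.mk_surjective
  have h2 : Function.Surjective p₂ := by
    intro z
    obtain ⟨r, rfl⟩ := Ideal.Quotient.mk_surjective z
    obtain ⟨a, ha⟩ := hL.surj r 1
    refine ⟨a, ?_⟩
    rw [hp₂, RingHom.comp_apply, eq_comm, ← sub_eq_zero, ← map_sub,
      Ideal.Quotient.eq_zero_iff_mem, Ideal.mem_span_singleton]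
    rwa [pow_one] at ha
  have hker : RingHom.ker (AdjoinRoot.mk π) = RingHom.ker p₂ := by
    ext a
    rw [RingHom.mem_ker, RingHom.mem_ker, hp₂, RingHom.comp_apply,
      Ideal.Quotient.eq_zero_iff_mem, Ideal.mem_span_singleton, AdjoinRoot.mk_eq_zero]
    constructor
    · intro h
      exact map_dvd _ h
    · intro h
      have := hL.inj a 1
      rw [pow_one, pow_one] at this
      exact this h
  refine ⟨(RingHom.quotientKerEquivOfSurjective h1).symm.trans
    ((Ideal.quotEquivOfEq hker).trans (RingHom.quotientKerEquivOfSurjective h2)), ?_⟩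
  intro a
  have h3 : (RingHom.quotientKerEquivOfSurjective h1).symm (AdjoinRoot.mk π a) =
      Ideal.Quotient.mk _ a := by
    rw [RingEquiv.symm_apply_eq]
    rfl
  rw [RingEquiv.trans_apply, RingEquiv.trans_apply, h3]
  rfl

/-- the residue fields agree: irreducibility modulo `π` -/
theorem irreducible_map_iff (hL : LData π R M) (v : F[X][X]) :
    Irreducible (v.map (AdjoinRoot.mk π)) ↔ Irreducible ((v.map (algebraMap F[X] R)).map
      (Ideal.Quotient.mk (Ideal.span {algebraMap F[X] R π}))) := by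
  obtain ⟨e, he⟩ := h86equiv hL
  have h1 : (v.map (algebraMap F[X] R)).map
      (Ideal.Quotient.mk (Ideal.span {algebraMap F[X] R π})) =
      Polynomial.mapEquiv e (v.map (AdjoinRoot.mk π)) := by
    rw [Polynomial.mapEquiv_apply, Polynomial.map_map, Polynomial.map_map]
    congr 1
    ext a
    · simp only [RingHom.comp_apply]
      exact (he _).symm
    · simp only [RingHom.comp_apply]
      exact (he _).symm
  rw [h1]
  exact (MulEquiv.irreducible_iff (Polynomial.mapEquiv e)).symm

theorem isSquare_residue_iff (hL : LData π R M) (a : F[X]) :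
    IsSquare (AdjoinRoot.mk π a) ↔
      IsSquare (Ideal.Quotient.mk (Ideal.span {algebraMap F[X] R π}) (algebraMap F[X] R a)) := by
  obtain ⟨e, he⟩ := h86equiv hL
  rw [← he a]
  constructor
  · intro h
    exact h.map e
  · intro h
    have := h.map e.symm
    rwa [RingEquiv.symm_apply_apply] at this

theorem LData.isUnit_two (hL : LData π R M) (h2 : (2 : F) ≠ 0) : IsUnit (2 : R) := by
  have h1 : IsUnit (C (2 : F)) := isUnit_C.mpr (isUnit_iff_ne_zero.mpr h2)
  have h3 := h1.map (algebraMap F[X] R)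
  have h4 : algebraMap F[X] R (C (2 : F)) = 2 := by
    rw [show (C (2 : F) : F[X]) = 2 from map_ofNat C 2, map_ofNat]
  rwa [h4] at h3

end Pool.Agent.Helper96.PS
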