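import Pool.Agent.Helper96.PS.NormMk
import Pool.Agent.Helper96.PS.CBasic
import Pool.Agent.Helper96.PS.CompDVR
import Pool.Agent.Helper96.PS.RegUp

/-!
# PS-C11: the norm of a Selmer element is a square

`K = RatFunc F`, `f ∈ K[x]` monic of odd degree, `α ∈ (K[x]/f)^*` with `LocSel` at all finite places. `N(α) ∈ K^*` is a square in every completion `K_v`: `isSquare_norm_of_mem_locIm` and `norm_map` (the norm commutes with `bc`). (1) A square in `K_v` has even valuation: `isSquare_iff` of
PS-C0 with `LData` at `v` (PS-C7b). (2) `c ∈ K^*` with even valuation at all irreducible polynomials is `ε s²`, `ε ∈ F^*`, `s ∈ K^*` (unique factorisation in `F[t]`: write `c = a/b`, `a b` is `ε ×` a product of monic irreducibles, all with even exponents). (3) `ε` is a square in `K_v` for `v = (t)`, so `ε` is a square in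
the residue field `R/ϖ = F[t]/(t) = F` (`CData.isSquare_iff'`, `isSquare_residue_iff`). So `N(α)` is a square.
-/

namespace Pool.Agent.Helper96.PS

open Polynomial IsDedekindDomain

variable {F : Type*} [Field F]

/-- the height one prime of an irreducible polynomial -/
private noncomputable def hp1 {π : F[X]} (hπ : Irreducible π) : HeightOneSpectrum F[X] where
  asIdeal := Ideal.span {π}
  isPrime := (Ideal.span_singleton_prime hπ.ne_zero).2 hπ.prime
  ne_bot := by
    rw [Ne, Ideal.span_singleton_eq_bot]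
    exact hπ.ne_zero

private theorem sq_dvd_of_local (h2 : (2 : F) ≠ 0) {π d : F[X]} (hπ : Irreducible π)
    (hd : d ≠ 0) (hdvd : π ∣ d)
    (hloc : IsSquare (algebraMap (RatFunc F) ((hp1 hπ).adicCompletion (RatFunc F))
      (algebraMap F[X] (RatFunc F) d))) : π ^ 2 ∣ d := by
  have hL := lData_adicCompletion (hp1 hπ) (π := π) rfl
  obtain ⟨e, rfl⟩ := hdvd
  by_contra hcon
  have he : ¬ π ∣ e := fun h => hcon (by rw [pow_two]; exact mul_dvd_mul_left π h)
  have hu : IsUnit (algebraMap F[X] ((hp1 hπ).adicCompletionIntegers (RatFunc F)) e) := by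
    rw [hL.toCData.isUnit_iff]
    intro h0
    have h1 := hL.inj e 1 (by rwa [pow_one])
    rw [pow_one] at h1
    exact he h1
  have h3 := hL.toCData.isSquare_iff (hL.isUnit_two h2) hu 1
  rw [zpow_one, hL.comp, hL.comp, ← map_mul, ← map_mul, mul_comm e π] at h3
  have h4 := (h3.1 hloc).1
  norm_num at h4

private theorem const_of_local (h2 : (2 : F) ≠ 0) {ε : F} (hε : ε ≠ 0)
    (hloc : IsSquare (algebraMap (RatFunc F) ((hp1 (irreducible_X (R := F))).adicCompletion
      (RatFunc F)) (algebraMap F[X] (RatFunc F) (C ε)))) : IsSquare ε := by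
  have hL := lData_adicCompletion (hp1 (irreducible_X (R := F))) (π := X) rfl
  have hu : IsUnit (algebraMap F[X]
      ((hp1 (irreducible_X (R := F))).adicCompletionIntegers (RatFunc F)) (C ε)) :=
    (isUnit_C.2 (isUnit_iff_ne_zero.2 hε)).map _
  rw [← hL.comp, hL.toCData.isSquare_iff' (hL.isUnit_two h2) hu, ← isSquare_residue_iff hL] at hloc
  obtain ⟨b, hb⟩ := hloc
  obtain ⟨b, rfl⟩ := AdjoinRoot.mk_surjective b
  rw [← map_mul, AdjoinRoot.mk_eq_mk] at hb
  obtain ⟨q, hq⟩ := hb
  have h1 := congrArg (eval 0) hq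
  rw [eval_sub, eval_C, eval_mul, eval_mul, eval_X, zero_mul, sub_eq_zero] at h1
  exact ⟨b.eval 0, h1⟩

private theorem poly_of_local (h2 : (2 : F) ≠ 0) (n : ℕ) (d : F[X]) (hn : d.natDegree = n)
    (hd : d ≠ 0)
    (hloc : ∀ v : HeightOneSpectrum F[X], IsSquare (algebraMap (RatFunc F)
      (v.adicCompletion (RatFunc F)) (algebraMap F[X] (RatFunc F) d))) :
    IsSquare (algebraMap F[X] (RatFunc F) d) := by
  induction n using Nat.strong_induction_on generalizing d with
  | _ n ih =>
    by_cases hu : IsUnit d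
    · obtain ⟨ε, hε, rfl⟩ := Polynomial.isUnit_iff.1 hu
      have h1 := const_of_local h2 hε.ne_zero (hloc _)
      exact (h1.map C).map _
    · obtain ⟨π, hπ, hdvd⟩ := WfDvdMonoid.exists_irreducible_factor hu hd
      obtain ⟨d', rfl⟩ := sq_dvd_of_local h2 hπ hd hdvd (hloc _)
      have hd' : d' ≠ 0 := right_ne_zero_of_mul hd
      have hπ0 : π ≠ 0 := hπ.ne_zero
      have hdeg : d'.natDegree < n := by
        rw [← hn, natDegree_mul (pow_ne_zero 2 hπ0) hd', natDegree_pow]
        have := hπ.natDegree_pos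
        omega
      have h3 := ih _ hdeg d' rfl hd' (fun v => by
        have h4 := hloc v
        rw [map_mul, map_mul, map_pow, map_pow] at h4
        set t := algebraMap (RatFunc F) (v.adicCompletion (RatFunc F))
          (algebraMap F[X] (RatFunc F) π) with ht
        have ht0 : t ≠ 0 := by
          rw [ht, _root_.map_ne_zero, map_ne_zero_iff _ (IsFractionRing.injective F[X] (RatFunc F))]
          exact hπ0
        have h5 := h4.div (IsSquare.sq t)
        rwa [mul_div_cancel_left₀ _ (pow_ne_zero 2 ht0)] at h5)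
      rw [map_mul, map_pow]
      exact (IsSquare.sq _).mul h3

theorem isSquare_of_local (h2 : (2 : F) ≠ 0) {c : RatFunc F} (hc : c ≠ 0)
    (hloc : ∀ v : HeightOneSpectrum F[X],
      IsSquare (algebraMap (RatFunc F) (v.adicCompletion (RatFunc F)) c)) : IsSquare c := by
  obtain ⟨a, b, hb, rfl⟩ := IsFractionRing.div_surjective (A := F[X]) c
  have hb0 : b ≠ 0 := nonZeroDivisors.ne_zero hb
  have hb1 : algebraMap F[X] (RatFunc F) b ≠ 0 :=
    (map_ne_zero_iff _ (IsFractionRing.injective F[X] (RatFunc F))).2 hb0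
  have ha0 : a ≠ 0 := by
    rintro rfl
    rw [map_zero, zero_div] at hc
    exact hc rfl
  have h1 : algebraMap F[X] (RatFunc F) (a * b) = algebraMap F[X] (RatFunc F) a /
      algebraMap F[X] (RatFunc F) b * (algebraMap F[X] (RatFunc F) b) ^ 2 := by
    rw [map_mul]
    field_simp
  have h3 := poly_of_local h2 _ (a * b) rfl (mul_ne_zero ha0 hb0) (fun v => by
    rw [h1, map_mul, map_pow]
    exact (hloc v).mul (IsSquare.sq _))
  rw [h1] at h3
  have h4 := h3.div (IsSquare.sq (algebraMap F[X] (RatFunc F) b))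
  rwa [mul_div_cancel_right₀ _ (pow_ne_zero 2 hb1)] at h4

theorem isSquare_norm_of_sel (h2 : (2 : F) ≠ 0) {f : (RatFunc F)[X]} (hf : f.Monic)
    (hodd : Odd f.natDegree) {c : RatFunc F} (hc : c ≠ 0) {α : (AdjoinRoot f)ˣ}
    (hα : ∀ v : HeightOneSpectrum F[X], LocSel (v.adicCompletion (RatFunc F)) f c α) :
    IsSquare (Algebra.norm (RatFunc F) (α : AdjoinRoot f)) := by
  have h0 : Algebra.norm (RatFunc F) (α : AdjoinRoot f) ≠ 0 :=
    (α.isUnit.map (Algebra.norm (RatFunc F))).ne_zero
  apply isSquare_of_local h2 h0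
  intro v
  rw [← norm_map (algebraMap (RatFunc F) (v.adicCompletion (RatFunc F))) hf]
  exact isSquare_norm_of_mem_locIm (hf.map _) (by rwa [hf.natDegree_map])
    ((_root_.map_ne_zero _).2 hc) (hα v)

end Pool.Agent.Helper96.PS
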