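import Mathlib

/-!
# PS-B6a: points on diagonal quadrics

`κ` finite field with `Q` elements, `2 ≠ 0`, `c_i ≠ 0`, `a ≠ 0`: `#{v ∈ κ^m : ∑ c_i v_i² = a} ≤ Q^{m-1} + 3 Q^{m-2}` for `m ≥ 2`, `≤ 2` for `m = 1`.
Proof. Binary forms: `#{c_1 x² + c_2 y² = b} ≤ Q + 1` for `b ≠ 0`, `≤ 2Q - 1 ≤ 2Q` for `b = 0`. (`b = 0`: for `y` given, `x² = - (c_2/c_1) y²` has `≤ 2` solutions, `1` for `y = 0`. `b ≠ 0`: conic; e.g. if there is a solution, the lines through it parametrise the others: `≤ Q + 1`; or via characters/`ZMod` lemmas; a bound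
`≤ Q + 2` or `Q + 3` is enough for `m = 2`, but for `m ≥ 3` one needs the total `≤ Q^{m-1} + 3Q^{m-2}`, see below.)
`m ≥ 3`: fix `v_3, …, v_m` and count `(v_1, v_2)` with `c_1v_1²+c_2v_2² = b := a - ∑_{i≥3}`: `≤ Q + 1` if `b ≠ 0`, `≤ 2Q` if `b = 0`; `b = 0` happens for at most `2 Q^{m-3}` choices (fix all but one of the `v_i`, `i ≥ 3`: `c_3 v_3² = …` has `≤ 2` solutions). Total
`≤ Q^{m-2}(Q+1) + 2Q^{m-3}·Q = Q^{m-1} + 3Q^{m-2}`.
-/

namespace Pool.Agent.Helper96.PS

open Finset

section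

variable {κ : Type*} [Field κ] [Fintype κ] [DecidableEq κ]

private def cnt {m : ℕ} (c : Fin m → κ) (a : κ) : ℕ :=
  ∑ v : Fin m → κ, if ∑ i, c i * v i ^ 2 = a then 1 else 0

private theorem cnt_succ {m : ℕ} (c : Fin (m + 1) → κ) (a : κ) :
    cnt c a = ∑ x : κ, cnt (fun i => c i.succ) (a - c 0 * x ^ 2) := by
  unfold cnt
  rw [← (Fin.consEquiv (fun _ : Fin (m + 1) => κ)).sum_comp, Fintype.sum_prod_type]
  refine Finset.sum_congr rfl fun x _ => Finset.sum_congr rfl fun w _ => ?_
  have h : (∑ i, c i * ((Fin.consEquiv (fun _ : Fin (m + 1) => κ)) (x, w)) i ^ 2 = a) ↔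
      (∑ i : Fin m, c i.succ * w i ^ 2 = a - c 0 * x ^ 2) := by
    rw [Fin.sum_univ_succ]
    simp only [Fin.consEquiv_apply, Fin.cons_zero, Fin.cons_succ]
    constructor
    · intro h; rw [← h]; ring
    · intro h; rw [h]; ring
  simp only [h]

private theorem sq_le_two {c a : κ} (hc : c ≠ 0) :
    (∑ x : κ, if c * x ^ 2 = a then 1 else 0) ≤ 2 := by
  rw [← Finset.card_filter]
  by_cases hex : ∃ x0 : κ, c * x0 ^ 2 = a
  · obtain ⟨x0, hx0⟩ := hex
    refine le_trans (Finset.card_le_card (t := {x0, -x0}) ?_) Finset.card_le_two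
    intro x hx
    rw [Finset.mem_filter] at hx
    have h1 : c * x ^ 2 = c * x0 ^ 2 := by rw [hx.2, hx0]
    have h2 : x ^ 2 = x0 ^ 2 := mul_left_cancel₀ hc h1
    rw [Finset.mem_insert, Finset.mem_singleton]
    exact sq_eq_sq_iff_eq_or_eq_neg.mp h2
  · have : (Finset.univ.filter fun x : κ => c * x ^ 2 = a) = ∅ := by
      rw [Finset.filter_eq_empty_iff]
      intro x _ hx
      exact hex ⟨x, hx⟩
    rw [this]
    simp

private theorem cnt_zero (c : Fin 0 → κ) {a : κ} (ha : a ≠ 0) : cnt c a = 0 := by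
  unfold cnt
  simp [ha.symm]

private theorem cnt_one (c : Fin 1 → κ) (a : κ) :
    cnt c a = ∑ x : κ, if c 0 * x ^ 2 = a then 1 else 0 := by
  rw [cnt_succ]
  refine Finset.sum_congr rfl fun x _ => ?_
  unfold cnt
  simp only [Finset.univ_unique, Finset.sum_singleton, Finset.univ_eq_empty, Finset.sum_empty]
  have h : (0 = a - c 0 * x ^ 2) ↔ (c 0 * x ^ 2 = a) := by
    constructor
    · intro h; linear_combination h
    · intro h; linear_combination h
  simp only [h]

private theorem cnt_le (m : ℕ) : ∀ (c : Fin (m + 1) → κ), (∀ i, c i ≠ 0) → ∀ a : κ,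
    cnt c a ≤ 2 * Fintype.card κ ^ m := by
  induction m with
  | zero =>
    intro c hc a
    rw [cnt_one]
    simpa using sq_le_two (hc 0)
  | succ m ih =>
    intro c hc a
    rw [cnt_succ]
    calc ∑ x : κ, cnt (fun i => c i.succ) (a - c 0 * x ^ 2)
        ≤ ∑ _x : κ, 2 * Fintype.card κ ^ m :=
          Finset.sum_le_sum fun x _ => ih _ (fun i => hc _) _
      _ = 2 * Fintype.card κ ^ (m + 1) := by
          rw [Finset.sum_const, Finset.card_univ, smul_eq_mul]; ring

private def n2 (c d b : κ) : ℕ := ∑ x : κ, ∑ y : κ, if c * x ^ 2 + d * y ^ 2 = b then 1 else 0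

private theorem n2_le (c d b : κ) (hd : d ≠ 0) : n2 c d b ≤ 2 * Fintype.card κ := by
  unfold n2
  calc ∑ x : κ, ∑ y : κ, (if c * x ^ 2 + d * y ^ 2 = b then 1 else 0)
      ≤ ∑ _x : κ, 2 := by
        refine Finset.sum_le_sum fun x _ => ?_
        have h : ∀ y : κ, (c * x ^ 2 + d * y ^ 2 = b) ↔ (d * y ^ 2 = b - c * x ^ 2) := by
          intro y
          constructor
          · intro h; linear_combination h
          · intro h; linear_combination h
        simp only [h]
        exact sq_le_two hd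
    _ = 2 * Fintype.card κ := by
        rw [Finset.sum_const, Finset.card_univ, smul_eq_mul]; ring

private theorem sqrts (h2 : ringChar κ ≠ 2) (a : κ) :
    (∑ x : κ, if x ^ 2 = a then (1 : ℤ) else 0) = 1 + quadraticChar κ a := by
  have h := quadraticChar_card_sqrts h2 a
  rw [add_comm, ← h, Finset.sum_boole]
  congr 2
  ext x
  simp

private theorem n2_lt (h2 : ringChar κ ≠ 2) {c d b : κ} (hc : c ≠ 0) (hd : d ≠ 0) (hb : b ≠ 0) :
    n2 c d b ≤ Fintype.card κ + 1 := by
  have e1 : (n2 c d b : ℤ) = ∑ x : κ, (1 + quadraticChar κ ((b - c * x ^ 2) / d)) := by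
    unfold n2
    push_cast
    refine Finset.sum_congr rfl fun x _ => ?_
    rw [← sqrts h2]
    refine Finset.sum_congr rfl fun y _ => ?_
    have h : (c * x ^ 2 + d * y ^ 2 = b) ↔ (y ^ 2 = (b - c * x ^ 2) / d) := by
      rw [eq_div_iff hd]
      constructor
      · intro h; linear_combination h
      · intro h; linear_combination h
    simp only [h]
  have e2 : ∀ G : κ → ℤ, ∑ x : κ, G (x ^ 2) = ∑ u : κ, (1 + quadraticChar κ u) * G u := by
    intro G
    calc ∑ x : κ, G (x ^ 2) = ∑ x : κ, ∑ u : κ, (if x ^ 2 = u then G u else 0) := by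
          refine Finset.sum_congr rfl fun x _ => ?_
          rw [Finset.sum_ite_eq]
          simp
      _ = ∑ u : κ, ∑ x : κ, (if x ^ 2 = u then G u else 0) := Finset.sum_comm
      _ = _ := by
          refine Finset.sum_congr rfl fun u _ => ?_
          rw [← sqrts h2, Finset.sum_mul]
          refine Finset.sum_congr rfl fun x _ => ?_
          split_ifs <;> simp
  have e3 : (n2 c d b : ℤ) = Fintype.card κ + ∑ u : κ, (1 + quadraticChar κ u) *
      quadraticChar κ ((b - c * u) / d) := by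
    rw [e1, Finset.sum_add_distrib, ← e2 fun u => quadraticChar κ ((b - c * u) / d)]
    simp
  have e4 : ∑ u : κ, quadraticChar κ ((b - c * u) / d) = 0 := by
    rw [← quadraticChar_sum_zero h2]
    refine Fintype.sum_equiv
      ⟨fun u => (b - c * u) / d, fun w => (b - d * w) / c, fun u => ?_, fun w => ?_⟩ _ _
      fun u => rfl
    · field_simp; ring
    · field_simp; ring
  have e5 : ∑ u : κ, quadraticChar κ u * quadraticChar κ ((b - c * u) / d) =
      quadraticChar κ (b / c) * quadraticChar κ (b / d) *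
        jacobiSum (quadraticChar κ) (quadraticChar κ) := by
    unfold jacobiSum
    rw [Finset.mul_sum]
    symm
    refine Fintype.sum_equiv
      ⟨fun u => (b / c) * u, fun w => w / (b / c), fun u => ?_, fun w => ?_⟩ _ _
      fun u => ?_
    · field_simp
    · field_simp
    · simp only [Equiv.coe_fn_mk]
      have : (b - c * (b / c * u)) / d = (b / d) * (1 - u) := by field_simp
      rw [this, map_mul, map_mul]
      ring
  have hinv : (quadraticChar κ)⁻¹ = quadraticChar κ := (quadraticChar_isQuadratic κ).inv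
  have e6 : jacobiSum (quadraticChar κ) (quadraticChar κ) = - quadraticChar κ (-1) := by
    have := jacobiSum_nontrivial_inv (quadraticChar_ne_one h2)
    rwa [hinv] at this
  have e7 : (n2 c d b : ℤ) = Fintype.card κ +
      quadraticChar κ (b / c) * quadraticChar κ (b / d) * (- quadraticChar κ (-1)) := by
    rw [e3, ← e6, ← e5]
    simp only [add_mul, one_mul, Finset.sum_add_distrib, e4, zero_add]
  have q1 : quadraticChar κ (b / c) = 1 ∨ quadraticChar κ (b / c) = -1 :=
    quadraticChar_dichotomy (div_ne_zero hb hc)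
  have q2 : quadraticChar κ (b / d) = 1 ∨ quadraticChar κ (b / d) = -1 :=
    quadraticChar_dichotomy (div_ne_zero hb hd)
  have q3 : quadraticChar κ (-1) = 1 ∨ quadraticChar κ (-1) = -1 :=
    quadraticChar_dichotomy (neg_ne_zero.mpr one_ne_zero)
  have : (n2 c d b : ℤ) ≤ Fintype.card κ + 1 := by
    rw [e7]
    rcases q1 with h | h <;> rcases q2 with h' | h' <;> rcases q3 with h'' | h'' <;>
      rw [h, h', h''] <;> norm_num
  exact_mod_cast this

private theorem cnt_swap {k : ℕ} (c : Fin (k + 2) → κ) (a : κ) :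
    cnt c a = ∑ w : Fin k → κ, n2 (c 0) (c 1) (a - ∑ i, c i.succ.succ * w i ^ 2) := by
  rw [cnt_succ]
  simp only [cnt_succ]
  unfold cnt n2
  have : ∀ x : κ, ∑ y : κ, ∑ w : Fin k → κ,
      (if ∑ i : Fin k, c i.succ.succ * w i ^ 2 =
        a - c 0 * x ^ 2 - c (Fin.succ 0) * y ^ 2 then 1 else 0) =
      ∑ w : Fin k → κ, ∑ y : κ, (if ∑ i : Fin k, c i.succ.succ * w i ^ 2 =
        a - c 0 * x ^ 2 - c (Fin.succ 0) * y ^ 2 then 1 else 0) := fun x => Finset.sum_comm
  simp only [this]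
  rw [Finset.sum_comm]
  refine Finset.sum_congr rfl fun w _ => Finset.sum_congr rfl fun x _ =>
    Finset.sum_congr rfl fun y _ => ?_
  have h : (∑ i : Fin k, c i.succ.succ * w i ^ 2 =
        a - c 0 * x ^ 2 - c (Fin.succ 0) * y ^ 2) ↔
      (c 0 * x ^ 2 + c 1 * y ^ 2 = a - ∑ i : Fin k, c i.succ.succ * w i ^ 2) := by
    rw [show (Fin.succ 0 : Fin (k + 2)) = 1 from rfl]
    constructor
    · intro h; rw [h]; ring
    · intro h
      have : ∑ i : Fin k, c i.succ.succ * w i ^ 2 = a - (c 0 * x ^ 2 + c 1 * y ^ 2) := by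
        rw [h]; ring
      rw [this]; ring
  simp only [h]

private theorem main_bound (h2 : ringChar κ ≠ 2) {k : ℕ} (c : Fin (k + 2) → κ)
    (hc : ∀ i, c i ≠ 0) {a : κ} (ha : a ≠ 0) :
    cnt c a ≤ Fintype.card κ ^ (k + 1) + 3 * Fintype.card κ ^ k := by
  set Q := Fintype.card κ with hQ
  have hQ1 : 1 ≤ Q := Fintype.card_pos
  have hS : cnt c a ≤ Q ^ k * (Q + 1) + cnt (fun i => c i.succ.succ) a * Q := by
    rw [cnt_swap]
    calc ∑ w : Fin k → κ, n2 (c 0) (c 1) (a - ∑ i, c i.succ.succ * w i ^ 2)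
        ≤ ∑ w : Fin k → κ, ((Q + 1) + (if ∑ i, c i.succ.succ * w i ^ 2 = a then 1 else 0) * Q) := by
          refine Finset.sum_le_sum fun w _ => ?_
          split_ifs with h
          · have := n2_le (c 0) (c 1) (a - ∑ i, c i.succ.succ * w i ^ 2) (hc 1)
            omega
          · have := n2_lt h2 (hc 0) (hc 1) (b := a - ∑ i, c i.succ.succ * w i ^ 2)
              (sub_ne_zero.mpr (Ne.symm h))
            omega
      _ = Q ^ k * (Q + 1) + cnt (fun i => c i.succ.succ) a * Q := by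
          rw [Finset.sum_add_distrib, ← Finset.sum_mul, Finset.sum_const, Finset.card_univ,
            smul_eq_mul]
          congr 2
          rw [Fintype.card_fun, Fintype.card_fin]
  refine hS.trans ?_
  rcases k with _ | k
  · rw [cnt_zero _ ha]
    simp
  · have := cnt_le k (fun i => c i.succ.succ) (fun i => hc _) a
    have h3 : cnt (fun i => c i.succ.succ) a * Q ≤ 2 * Q ^ k * Q := Nat.mul_le_mul_right _ this
    calc Q ^ (k + 1) * (Q + 1) + cnt (fun i => c i.succ.succ) a * Q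
        ≤ Q ^ (k + 1) * (Q + 1) + 2 * Q ^ k * Q := Nat.add_le_add_left h3 _
      _ = Q ^ (k + 1 + 1) + 3 * Q ^ (k + 1) := by ring

private theorem ncard_eq_cnt {m : ℕ} (c : Fin m → κ) (a : κ) :
    {v : Fin m → κ | ∑ i, c i * v i ^ 2 = a}.ncard = cnt c a := by
  unfold cnt
  rw [← Finset.card_filter, ← Set.ncard_coe_finset]
  congr 1
  ext v
  simp

end

theorem card_quad {κ : Type*} [Field κ] [Finite κ] (h2 : (2 : κ) ≠ 0) {m : ℕ} (hm : 2 ≤ m)
    (c : Fin m → κ) (hc : ∀ i, c i ≠ 0) {a : κ} (ha : a ≠ 0) :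
    {v : Fin m → κ | ∑ i, c i * v i ^ 2 = a}.ncard ≤
      Nat.card κ ^ (m - 1) + 3 * Nat.card κ ^ (m - 2) := by
  classical
  have := Fintype.ofFinite κ
  obtain ⟨k, rfl⟩ := Nat.exists_eq_add_of_le' hm
  have hr : ringChar κ ≠ 2 := fun h => h2 (by
    have := ringChar.Nat.cast_ringChar (R := κ)
    rw [h] at this
    exact_mod_cast this)
  rw [ncard_eq_cnt, Nat.card_eq_fintype_card]
  exact main_bound hr c hc ha

theorem card_quad_one {κ : Type*} [Field κ] [Finite κ] (c : Fin 1 → κ) (hc : ∀ i, c i ≠ 0)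
    (a : κ) : {v : Fin 1 → κ | ∑ i, c i * v i ^ 2 = a}.ncard ≤ 2 := by
  classical
  have := Fintype.ofFinite κ
  rw [ncard_eq_cnt]
  simpa using cnt_le 0 c hc a

end Pool.Agent.Helper96.PS
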