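import Pool.Agent.Helper96.PS.Lagr
import Pool.Agent.Helper96.PS.FiniteQuad
import Pool.Agent.Helper96.PS.SqLocAlg

/-!
# PS-T3d: the reciprocity law

`f` good, `α ∈ O`, `(α) = (∏_{P ∈ s} P) J²`, `dg α = 2m`, `x ∈ Sg f`: the number of `P ∈ s` with `¬ SqLoc P x` is even.

Proof. `𝔓 = ∏_{P ∈ s} P`, `(x) = I²`, `dg x` even (`even_dg`), so `dg (αx) = 2μ`. Choose `y₀ ∈ J`, `y₀ ∉ J P` and `y ∈ I`, `y ∉ I P` for all `P ∈ s` (`exists_not_mem`);
`y² = x ρ`, `ρ ∉ P`, `SqLoc P x ↔ ρ` a square mod `P` (`sqLoc_iff`; the same `ρ` for all `P`, `O` is a domain). `q ∈ A` monic with `q ∈ 𝔓` (`exists_of_mem`).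
Apply `lagrangian` to `(α, J, y₀)`: `W₁ ⊆ E = O/𝔓`, `Ψ(ab) = 0` on `W₁`, `Ψ(c) = coeff_{deg q - 1}(τ(q y₀² c/α) mod q)`; and to `(αx, IJ, y₀ y)`, `(IJ)² 𝔓 = (αx)`, `y₀y ∈ IJ ∖ IJP`
(`(y₀) = J K`, `(y) = I K'`, `K, K' ⊄ P`): `W₂ ⊆ E`; `(y₀ y)² c/(αx) = y₀² ρ c/α`, so `Ψ(ρab) = 0` on `W₂`. `Ψ` vanishes on `𝔓` (`y₀² 𝔓 ⊆ (α)`), so it is a linear functional
on `E`; `Ψ(ab)` is nondegenerate on `E`: if `Ψ(ab) = 0` for all `b ∈ O` then `y₀ a ∈ J𝔓` by `nondeg` (`J = y₀ O + J𝔓`, and `β(y₀a, J𝔓) = 0`), so `a ∈ 𝔓` (as in Lagr (4)).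
`E ≅ ∏_{P ∈ s} O/P` (CRT, `Ideal.quotientInfRingEquivPiQuotient` or the product version), `ρ ↦ (ρ mod P)`. `even_nonsquares`.
-/

namespace Pool.Agent.Helper96.PS

open Polynomial

private theorem recip_even_ns {F : Type*} [Field F] [Finite F] (h2 : (2 : F) ≠ 0) {ι : Type*}
    [Fintype ι] [DecidableEq ι] (κ : ι → Type*) [∀ i, CommRing (κ i)] (hκ : ∀ i, IsField (κ i))
    [∀ i, Algebra F (κ i)] [∀ i, Module.Finite F (κ i)] (ψ : (∀ i, κ i) →ₗ[F] F)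
    (hψ : ∀ a, (∀ b, ψ (a * b) = 0) → a = 0) (ρ : ∀ i, κ i) (hρ : ∀ i, ρ i ≠ 0)
    (W₁ W₂ : Submodule F (∀ i, κ i))
    (hW₁ : 2 * Module.finrank F W₁ = Module.finrank F (∀ i, κ i))
    (hW₂ : 2 * Module.finrank F W₂ = Module.finrank F (∀ i, κ i))
    (iso₁ : ∀ a ∈ W₁, ∀ b ∈ W₁, ψ (a * b) = 0) (iso₂ : ∀ a ∈ W₂, ∀ b ∈ W₂, ψ (ρ * (a * b)) = 0) :
    Even {i | ¬ IsSquare (ρ i)}.ncard := by
  letI : ∀ i, Field (κ i) := fun i => (hκ i).toField
  exact even_nonsquares h2 κ ψ hψ ρ hρ W₁ W₂ hW₁ hW₂ iso₁ iso₂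

private theorem recip_core {F O : Type*} [Field F] [Finite F] (h2 : (2 : F) ≠ 0) [CommRing O]
    [Algebra F O] (s : Finset (Ideal O)) (hs : ∀ P ∈ s, P.IsMaximal)
    (hfin : ∀ P ∈ s, Module.Finite F (O ⧸ P))
    (Ψ : O →ₗ[F] F) (hΨ : ∀ c ∈ ∏ P ∈ s, P, Ψ c = 0)
    (hnd : ∀ a, (∀ b, Ψ (a * b) = 0) → ∀ P ∈ s, a ∈ P)
    (ρ : O) (hρ : ∀ P ∈ s, ρ ∉ P)
    (W₁ W₂ : Submodule F (O ⧸ ∏ P ∈ s, P))
    (hW₁ : 2 * Module.finrank F W₁ = Module.finrank F (O ⧸ ∏ P ∈ s, P))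
    (hW₂ : 2 * Module.finrank F W₂ = Module.finrank F (O ⧸ ∏ P ∈ s, P))
    (iso₁ : ∀ a b : O, Ideal.Quotient.mk _ a ∈ W₁ → Ideal.Quotient.mk _ b ∈ W₁ → Ψ (a * b) = 0)
    (iso₂ : ∀ a b : O, Ideal.Quotient.mk _ a ∈ W₂ → Ideal.Quotient.mk _ b ∈ W₂ →
      Ψ (ρ * (a * b)) = 0) :
    Even {P | P ∈ s ∧ ¬ IsSquare (Ideal.Quotient.mk P ρ)}.ncard := by
  classical
  let ι := {P // P ∈ s}
  let κ : ι → Type _ := fun i => O ⧸ (i : Ideal O)
  let π : O →ₐ[F] (∀ i : ι, κ i) := Pi.algHom F _ (fun i => Ideal.Quotient.mkₐ F (i : Ideal O))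
  have hπ : ∀ c (i : ι), π c i = Ideal.Quotient.mk (i : Ideal O) c := fun c i => rfl
  have hcop2 : ∀ P ∈ s, ∀ Q ∈ s, P ≠ Q → IsCoprime P Q := by
    intro P hP Q hQ hPQ
    haveI := hs P hP
    haveI := hs Q hQ
    exact Ideal.isCoprime_iff_sup_eq.2 (Ideal.IsMaximal.coprime_of_ne ‹_› ‹_› hPQ)
  have hcop : Pairwise (Function.onFun IsCoprime (fun i : ι => (i : Ideal O))) := by
    intro i j hij
    exact hcop2 _ i.2 _ j.2 (fun h => hij (Subtype.ext h))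
  have hsurj : Function.Surjective π := fun x => by
    obtain ⟨r, hr⟩ := Ideal.pi_quotient_surjective hcop x
    exact ⟨r, funext hr⟩
  have hinf : (∏ P ∈ s, P) = ⨅ P ∈ s, P :=
    Ideal.prod_eq_iInf_of_pairwise_isCoprime (J := fun P => P)
      (fun P hP Q hQ hPQ => hcop2 P hP Q hQ hPQ)
  have hker : ∀ c, π c = 0 ↔ c ∈ ∏ P ∈ s, P := by
    intro c
    rw [hinf]
    simp only [Ideal.mem_iInf]
    constructor
    · intro h P hP
      have := congrFun h ⟨P, hP⟩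
      rw [hπ] at this
      exact Ideal.Quotient.eq_zero_iff_mem.1 this
    · intro h
      funext i
      rw [hπ]
      exact Ideal.Quotient.eq_zero_iff_mem.2 (h _ i.2)
  have hψ0 : ∀ c, Ψ (Function.surjInv hsurj (π c)) = Ψ c := by
    intro c
    have h1 : π (Function.surjInv hsurj (π c) - c) = 0 := by
      rw [map_sub, Function.surjInv_eq hsurj, sub_self]
    have h3 := hΨ _ ((hker _).1 h1)
    rw [map_sub, sub_eq_zero] at h3
    exact h3
  let ψ : (∀ i : ι, κ i) →ₗ[F] F :=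
    { toFun := fun x => Ψ (Function.surjInv hsurj x)
      map_add' := by
        intro x y
        obtain ⟨a, rfl⟩ := hsurj x
        obtain ⟨b, rfl⟩ := hsurj y
        rw [← map_add, hψ0, hψ0, hψ0, map_add]
      map_smul' := by
        intro r x
        obtain ⟨a, rfl⟩ := hsurj x
        rw [← map_smul, hψ0, hψ0, map_smul, RingHom.id_apply] }
  have hψ : ∀ c, ψ (π c) = Ψ c := hψ0
  let e0 : (O ⧸ ∏ P ∈ s, P) →ₐ[F] (∀ i : ι, κ i) :=
    Ideal.Quotient.liftₐ _ π (fun a ha => (hker a).2 ha)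
  have he0 : ∀ c, e0 (Ideal.Quotient.mk _ c) = π c := fun c => rfl
  have hbij : Function.Bijective e0 := by
    constructor
    · intro x y hxy
      obtain ⟨a, rfl⟩ := Ideal.Quotient.mk_surjective x
      obtain ⟨b, rfl⟩ := Ideal.Quotient.mk_surjective y
      rw [he0, he0] at hxy
      rw [Ideal.Quotient.eq, ← hker, map_sub, hxy, sub_self]
    · intro x
      obtain ⟨a, rfl⟩ := hsurj x
      exact ⟨Ideal.Quotient.mk _ a, he0 a⟩
  let e : (O ⧸ ∏ P ∈ s, P) ≃ₗ[F] (∀ i : ι, κ i) := LinearEquiv.ofBijective e0.toLinearMap hbij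
  have he : ∀ c, e (Ideal.Quotient.mk _ c) = π c := fun c => rfl
  haveI : ∀ i : ι, Module.Finite F (κ i) := fun i => hfin _ i.2
  have hfr : ∀ W : Submodule F (O ⧸ ∏ P ∈ s, P),
      2 * Module.finrank F W = Module.finrank F (O ⧸ ∏ P ∈ s, P) →
      2 * Module.finrank F (W.map e.toLinearMap) = Module.finrank F (∀ i : ι, κ i) := by
    intro W hW
    rw [← e.finrank_eq, ← hW]
    congr 1
    exact LinearEquiv.finrank_map_eq e W
  have key := recip_even_ns h2 κ (fun i => by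
      haveI := hs _ i.2
      exact (Ideal.Quotient.field (i : Ideal O)).toIsField) ψ (by
      intro a ha
      obtain ⟨a, rfl⟩ := hsurj a
      rw [hker, hinf]
      simp only [Ideal.mem_iInf]
      apply hnd
      intro b
      rw [← hψ, map_mul]
      exact ha _) (π ρ) (by
      intro i
      rw [hπ]
      intro h
      exact hρ _ i.2 (Ideal.Quotient.eq_zero_iff_mem.1 h))
    (W₁.map e.toLinearMap) (W₂.map e.toLinearMap) (hfr W₁ hW₁) (hfr W₂ hW₂) (by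
      rintro _ ⟨a, ha, rfl⟩ _ ⟨b, hb, rfl⟩
      obtain ⟨a, rfl⟩ := Ideal.Quotient.mk_surjective a
      obtain ⟨b, rfl⟩ := Ideal.Quotient.mk_surjective b
      have : (e.toLinearMap (Ideal.Quotient.mk _ a)) * (e.toLinearMap (Ideal.Quotient.mk _ b)) =
          π (a * b) := by
        rw [map_mul]; rfl
      rw [this, hψ]
      exact iso₁ a b ha hb) (by
      rintro _ ⟨a, ha, rfl⟩ _ ⟨b, hb, rfl⟩
      obtain ⟨a, rfl⟩ := Ideal.Quotient.mk_surjective a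
      obtain ⟨b, rfl⟩ := Ideal.Quotient.mk_surjective b
      have : π ρ * ((e.toLinearMap (Ideal.Quotient.mk _ a)) *
          (e.toLinearMap (Ideal.Quotient.mk _ b))) = π (ρ * (a * b)) := by
        rw [map_mul, map_mul]; rfl
      rw [this, hψ]
      exact iso₂ a b ha hb)
  have himg : {P | P ∈ s ∧ ¬ IsSquare (Ideal.Quotient.mk P ρ)} =
      Subtype.val '' {i : ι | ¬ IsSquare (π ρ i)} := by
    ext P
    constructor
    · rintro ⟨hP, hP2⟩
      exact ⟨⟨P, hP⟩, hP2, rfl⟩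
    · rintro ⟨i, hi, rfl⟩
      exact ⟨i.2, hi⟩
  rw [himg, Set.ncard_image_of_injective _ Subtype.val_injective]
  exact key

variable {F : Type*} [Field F] {g n : ℕ} {w : F[X]} {f : F[X][X]}

theorem recip [Finite F] (h2 : (2 : F) ≠ 0) (h : Good g n w f) {α x : AdjoinRoot f}
    (s : Finset (Ideal (AdjoinRoot f))) (hs : ∀ P ∈ s, P.IsMaximal) {J : Ideal (AdjoinRoot f)}
    (hα : (∏ P ∈ s, P) * J ^ 2 = Ideal.span {α}) {m : ℕ}
    (hm : dg h.monic n α = ((2 * m : ℕ) : WithBot ℕ)) (hx : Sg f x) :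
    Even {P | P ∈ s ∧ ¬ SqLoc P x}.ncard := by
  classical
  haveI hdom := isDomain h.toPre
  haveI hded := isDedekind h
  have hα0 : α ≠ 0 := by
    rintro rfl
    rw [dg_zero] at hm
    exact absurd hm WithBot.bot_ne_coe
  obtain ⟨hx0, ⟨I, hI⟩, hnorm⟩ := hx
  have hJ : J ≠ ⊥ := by
    rintro rfl
    rw [← Ideal.zero_eq_bot, zero_pow two_ne_zero, mul_zero, Ideal.zero_eq_bot, eq_comm,
      Ideal.span_singleton_eq_bot] at hα
    exact hα0 hα
  have hprod : (∏ P ∈ s, P) ≠ ⊥ := by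
    intro h0
    rw [h0, ← Ideal.zero_eq_bot, zero_mul, Ideal.zero_eq_bot, eq_comm,
      Ideal.span_singleton_eq_bot] at hα
    exact hα0 hα
  have hI0 : I ≠ ⊥ := by
    rintro rfl
    rw [← Ideal.zero_eq_bot, zero_pow two_ne_zero, Ideal.zero_eq_bot, eq_comm,
      Ideal.span_singleton_eq_bot] at hI
    exact hx0 hI
  have hPbot : ∀ P ∈ s, P ≠ ⊥ := by
    intro P hP h0
    apply hprod
    rw [← Ideal.zero_eq_bot]
    exact Finset.prod_eq_zero hP h0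
  obtain ⟨m', hm'⟩ := exists_dg h.monic n hx0
  obtain ⟨μ', rfl⟩ := even_dg h.toPre hm' hnorm
  have hdg : dg h.monic n (α * x) = ((2 * (m + μ') : ℕ) : WithBot ℕ) := by
    rw [dg_mul h.toPre, hm, hm', ← Nat.cast_add]
    congr 1
    ring
  have hJz : J ^ 2 * ∏ P ∈ s, P = Ideal.span {α} := by rw [mul_comm]; exact hα
  obtain ⟨y₀, hy₀, hy₀P⟩ := exists_not_mem h hJ s hs
  obtain ⟨y, hy, hyP⟩ := exists_not_mem h hI0 s hs
  have hy2 : y ^ 2 ∈ Ideal.span {x} := by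
    rw [← hI]
    exact Ideal.pow_mem_pow hy 2
  obtain ⟨ρ, hρ⟩ := Ideal.mem_span_singleton.1 hy2
  have hρP : ∀ P ∈ s, ρ ∉ P ∧ (SqLoc P x ↔ IsSquare (Ideal.Quotient.mk P ρ)) := by
    intro P hP
    obtain ⟨ρ', h1, h3, h4⟩ := sqLoc_iff h hx0 hI (hs P hP) hy (hyP P hP)
    have h5 : ρ' = ρ := mul_left_cancel₀ hx0 (h1.symm.trans hρ)
    rw [h5] at h3 h4
    exact ⟨h3, h4⟩
  obtain ⟨q, hq, hqP⟩ := exists_of_mem h.toPre hprod
  -- factorisations of `(y₀)`, `(y)`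
  obtain ⟨K, hK⟩ : J ∣ Ideal.span {y₀} := by
    rw [Ideal.dvd_span_singleton]; exact hy₀
  obtain ⟨K', hK'⟩ : I ∣ Ideal.span {y} := by
    rw [Ideal.dvd_span_singleton]; exact hy
  have hKP : ∀ P ∈ s, ¬ K ≤ P := by
    intro P hP hle
    apply hy₀P P hP
    rw [← Ideal.span_singleton_le_iff_mem, hK]
    exact Ideal.mul_mono_right hle
  have hKP' : ∀ P ∈ s, ¬ K' ≤ P := by
    intro P hP hle
    apply hyP P hP
    rw [← Ideal.span_singleton_le_iff_mem, hK']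
    exact Ideal.mul_mono_right hle
  have hPle : ∀ P ∈ s, (∏ P ∈ s, P) ≤ P := by
    intro P hP
    exact Ideal.le_of_dvd (Finset.dvd_prod_of_mem (fun P => P) hP)
  -- divisibility by `α`
  have hmemα : ∀ c ∈ ∏ P ∈ s, P, ∀ d ∈ J ^ 2, α ∣ c * d := by
    intro c hc d hd
    rw [← Ideal.mem_span_singleton, ← hα]
    exact Ideal.mul_mem_mul hc hd
  obtain ⟨D₀, hD₀⟩ := hmemα _ hqP _ (Ideal.pow_mem_pow hy₀ 2)
  let res : F[X] →ₗ[F] F :=
    (Polynomial.lcoeff F (q.natDegree - 1)).comp (Polynomial.modByMonicHom q)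
  have hres : ∀ r, res r = (r %ₘ q).coeff (q.natDegree - 1) := fun r => rfl
  have hres0 : ∀ r : F[X], q ∣ r → res r = 0 := by
    intro r hr
    rw [hres, (Polynomial.modByMonic_eq_zero_iff_dvd hq).2 hr, coeff_zero]
  let Ψ : AdjoinRoot f →ₗ[F] F :=
    res.comp (((co h.monic (2 * g)).restrictScalars F).comp (LinearMap.mulLeft F D₀))
  have hΨ : ∀ c, Ψ c = res (co h.monic (2 * g) (D₀ * c)) := fun c => rfl
  have hΨ1 : ∀ c, Ψ c = ((co h.monic (2 * g) (dv α (AdjoinRoot.of f q * (y₀ ^ 2 * c)))) %ₘ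
      q).coeff (q.natDegree - 1) := by
    intro c
    have h1 : AdjoinRoot.of f q * (y₀ ^ 2 * c) = α * (D₀ * c) := by
      rw [← mul_assoc, hD₀, mul_assoc]
    rw [h1, dv_mul hα0]
    rfl
  have hΨ2 : ∀ c, Ψ (ρ * c) = ((co h.monic (2 * g) (dv (α * x)
      (AdjoinRoot.of f q * ((y₀ * y) ^ 2 * c)))) %ₘ q).coeff (q.natDegree - 1) := by
    intro c
    have h1 : AdjoinRoot.of f q * ((y₀ * y) ^ 2 * c) = (α * x) * (D₀ * (ρ * c)) := by
      have : AdjoinRoot.of f q * ((y₀ * y) ^ 2 * c) = (AdjoinRoot.of f q * y₀ ^ 2) * y ^ 2 * c := by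
        ring
      rw [this, hD₀, hρ]
      ring
    rw [h1, dv_mul (mul_ne_zero hα0 hx0)]
    rfl
  have hΨ3 : ∀ c ∈ ∏ P ∈ s, P, Ψ c = 0 := by
    intro c hc
    obtain ⟨e, he⟩ := hmemα _ hc _ (Ideal.pow_mem_pow hy₀ 2)
    have h1 : D₀ * c = AdjoinRoot.of f q * e := by
      apply mul_left_cancel₀ hα0
      calc α * (D₀ * c) = (α * D₀) * c := by ring
        _ = AdjoinRoot.of f q * (c * y₀ ^ 2) := by rw [← hD₀]; ring
        _ = α * (AdjoinRoot.of f q * e) := by rw [he]; ring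
    rw [hΨ, h1, co_of_mul]
    exact hres0 _ (Dvd.intro _ rfl)
  have hnd : ∀ a, (∀ b, Ψ (a * b) = 0) → ∀ P ∈ s, a ∈ P := by
    intro a ha
    have h1 : y₀ * a ∈ J * ∏ P ∈ s, P := by
      apply nondeg h hα0 hJz hq hqP (Ideal.mul_mem_right _ _ hy₀)
      intro b hb
      have hcop : IsCoprime K (∏ P ∈ s, P) := by
        apply IsCoprime.prod_right
        intro P hP
        rw [Ideal.isCoprime_iff_sup_eq]
        exact (Ideal.isMaximal_def.1 (hs P hP)).2 _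
          (lt_of_le_of_ne le_sup_right (fun h => hKP P hP (by rw [h]; exact le_sup_left)))
      have hb2 : b ∈ Ideal.span {y₀} ⊔ J * ∏ P ∈ s, P := by
        rw [hK, ← Ideal.mul_sup, Ideal.isCoprime_iff_sup_eq.1 hcop, Ideal.mul_top]
        exact hb
      obtain ⟨u, hu, p, hp, rfl⟩ := Submodule.mem_sup.1 hb2
      obtain ⟨c, rfl⟩ := Ideal.mem_span_singleton'.1 hu
      have h3 : y₀ * a * p ∈ Ideal.span {α} := by
        rw [← hJz, pow_two, mul_assoc]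
        exact Ideal.mul_mem_mul (Ideal.mul_mem_right _ _ hy₀) hp
      obtain ⟨e, he⟩ := Ideal.mem_span_singleton.1 h3
      have h4 : AdjoinRoot.of f q * (y₀ * a * (c * y₀ + p)) =
          α * (D₀ * (a * c) + AdjoinRoot.of f q * e) := by
        calc AdjoinRoot.of f q * (y₀ * a * (c * y₀ + p)) =
            (AdjoinRoot.of f q * y₀ ^ 2) * (a * c) + AdjoinRoot.of f q * (y₀ * a * p) := by ring
          _ = _ := by rw [hD₀, he]; ring
      rw [h4, dv_mul hα0, ← hres, map_add, map_add, co_of_mul, hres0 _ (Dvd.intro _ rfl), add_zero,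
        ← hΨ]
      exact ha c
    intro P hP
    have h5 : (J * (K * Ideal.span {a})) ≤ J * ∏ P ∈ s, P := by
      rw [← mul_assoc, ← hK, Ideal.span_singleton_mul_span_singleton,
        Ideal.span_singleton_le_iff_mem]
      exact h1
    have h6 : K * Ideal.span {a} ≤ P := by
      refine le_trans ?_ (hPle P hP)
      rw [← Ideal.dvd_iff_le] at h5 ⊢
      exact (mul_dvd_mul_iff_left hJ).1 h5
    rcases (Ideal.IsPrime.mul_le (hs P hP).isPrime).1 h6 with h7 | h7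
    · exact absurd h7 (hKP P hP)
    · exact (Ideal.span_singleton_le_iff_mem _).1 h7
  -- the two Lagrangians
  obtain ⟨W₁, hW₁, iso₁⟩ := lagrangian h hm s hs hJz hq hqP hy₀ hy₀P
  have hz2 : (J * I) ^ 2 * ∏ P ∈ s, P = Ideal.span {α * x} := by
    rw [← Ideal.span_singleton_mul_span_singleton, ← hJz, ← hI]
    ring
  have hyP2 : ∀ P ∈ s, y₀ * y ∉ J * I * P := by
    intro P hP hmem
    have h1 : (J * I) * (K * K') ≤ (J * I) * P := by
      rw [mul_mul_mul_comm, ← hK, ← hK', Ideal.span_singleton_mul_span_singleton,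
        Ideal.span_singleton_le_iff_mem]
      exact hmem
    have h3 : K * K' ≤ P := by
      rw [← Ideal.dvd_iff_le] at h1 ⊢
      exact (mul_dvd_mul_iff_left (mul_ne_zero hJ hI0)).1 h1
    rcases (Ideal.IsPrime.mul_le (hs P hP).isPrime).1 h3 with h7 | h7
    · exact hKP P hP h7
    · exact hKP' P hP h7
  obtain ⟨W₂, hW₂, iso₂⟩ := lagrangian h hdg s hs hz2 hq hqP (Ideal.mul_mem_mul hy₀ hy) hyP2
  have key := recip_core h2 s hs (fun P hP => finite_quot h.toPre (hPbot P hP)) Ψ hΨ3 hnd ρ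
    (fun P hP => (hρP P hP).1) W₁ W₂ hW₁ hW₂
    (fun a b ha hb => by rw [hΨ1]; exact iso₁ a b ha hb)
    (fun a b ha hb => by rw [hΨ2]; exact iso₂ a b ha hb)
  have hset : {P | P ∈ s ∧ ¬ SqLoc P x} = {P | P ∈ s ∧ ¬ IsSquare (Ideal.Quotient.mk P ρ)} := by
    ext P
    constructor
    · rintro ⟨hP, hP2⟩
      exact ⟨hP, fun h0 => hP2 ((hρP P hP).2.2 h0)⟩
    · rintro ⟨hP, hP2⟩
      exact ⟨hP, fun h0 => hP2 ((hρP P hP).2.1 h0)⟩
  rw [hset]
  exact key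

end Pool.Agent.Helper96.PS
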