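import Pool.Agent.Helper96.PS.Reduced
import Pool.Agent.Helper96.PS.NormDeg

/-!
# PS-A6b: reduced bases of ideals, index formula

`exists_rbasis`: `exists_reduced` (PS-A6a) for `M = I` (a nonzero ideal: a submodule of the free `F[X]`-module `O` of rank `2g+1`, free, and of
full rank as it contains `x O ≅ O`, `x ≠ 0`), `D = dg`: `dg_eq_bot`, `dg_add_le`, `dg_of_mul`.
`finrank_lev`: `finrank_of_reduced`.
`ix_eq`: for `I = ⊤` the basis `θ^j` is reduced with `δ_j = j n`, so `dim (lev ⊤ m) = ∑_j (m - jn)`. The map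
`lev ⊤ m → O/I` has kernel `lev I m` and is onto for large `m` (`O/I` is finite dimensional, `finite_quot`, and every
element of `O` lies in some `lev ⊤ m`). So for large `m`: `ix I = ∑_j (m - jn) - ∑_i (m - δ_i) = ∑ δ_i - n N(N-1)/2`, `N(N-1)/2 = g (2g+1)`.
-/

namespace Pool.Agent.Helper96.PS

open Polynomial

variable {F : Type*} [Field F] {g n : ℕ} {w : F[X]} {f : F[X][X]}

private theorem fin_O (h : Pre g n w f) : Module.Finite F[X] (AdjoinRoot f) :=
  h.monic.finite_adjoinRoot

private theorem free_O (h : Pre g n w f) : Module.Free F[X] (AdjoinRoot f) :=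
  h.monic.free_adjoinRoot

private theorem finrank_O (h : Pre g n w f) : Module.finrank F[X] (AdjoinRoot f) = 2 * g + 1 := by
  rw [(AdjoinRoot.powerBasis' h.monic).finrank, AdjoinRoot.powerBasis'_dim, h.natDegree]

private theorem finrank_I (h : Pre g n w f) {I : Ideal (AdjoinRoot f)} (hI : I ≠ ⊥) :
    Module.finrank F[X] (I.restrictScalars F[X]) = 2 * g + 1 := by
  have := fin_O h
  have := free_O h
  have := isDomain h
  apply le_antisymm
  · rw [← finrank_O h]
    exact Submodule.finrank_le _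
  · obtain ⟨x, hx, hx0⟩ := Submodule.exists_mem_ne_zero_of_ne_bot hI
    let φ : AdjoinRoot f →ₗ[F[X]] (I.restrictScalars F[X]) :=
      { toFun := fun a => ⟨x * a, I.mul_mem_right a hx⟩
        map_add' := fun a b => by
          apply Subtype.ext
          exact mul_add x a b
        map_smul' := fun c a => by
          apply Subtype.ext
          exact mul_smul_comm c x a }
    have hφ : Function.Injective φ := by
      intro a b hab
      have h1 : x * a = x * b := congrArg Subtype.val hab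
      exact mul_left_cancel₀ hx0 h1
    rw [← finrank_O h]
    exact LinearMap.finrank_le_finrank_of_injective hφ

theorem exists_rbasis (h : Pre g n w f) {I : Ideal (AdjoinRoot f)} (hI : I ≠ ⊥) :
    ∃ (e : Fin (2 * g + 1) → AdjoinRoot f) (δ : Fin (2 * g + 1) → ℕ), RBasis h.monic n I e δ := by
  have := fin_O h
  have := free_O h
  have := isDomain h
  obtain ⟨e, δ, hδ, hspan, hred⟩ := exists_reduced (M := I.restrictScalars F[X]) (finrank_I h hI)
    (fun a => dg h.monic n (a : AdjoinRoot f))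
    (fun a => by
      rw [dg_eq_bot]
      exact ZeroMemClass.coe_eq_zero)
    (fun a b => dg_add_le h.monic n _ _)
    (fun c a => by
      have h1 : ((c • a : I.restrictScalars F[X]) : AdjoinRoot f) =
          AdjoinRoot.of f c * (a : AdjoinRoot f) := by
        rw [Submodule.coe_smul, Algebra.smul_def]
        rfl
      rw [h1, dg_of_mul])
  have hsum : ∀ c : Fin (2 * g + 1) → F[X], ((∑ i, c i • e i : I.restrictScalars F[X]) : AdjoinRoot f) =
      ∑ i, AdjoinRoot.of f (c i) * (e i : AdjoinRoot f) := by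
    intro c
    rw [Submodule.coe_sum]
    refine Finset.sum_congr rfl fun i _ => ?_
    rw [Submodule.coe_smul, Algebra.smul_def]
    rfl
  refine ⟨fun i => (e i : AdjoinRoot f), δ, ⟨fun i => (e i).2, ?_, ?_, hδ⟩⟩
  · intro a ha
    obtain ⟨c, hc⟩ := hspan ⟨a, ha⟩
    refine ⟨c, ?_⟩
    rw [← hsum, ← hc]
  · intro c
    rw [← hsum]
    exact hred c

theorem finrank_lev (h : Pre g n w f) {I : Ideal (AdjoinRoot f)}
    {e : Fin (2 * g + 1) → AdjoinRoot f} {δ : Fin (2 * g + 1) → ℕ} (he : RBasis h.monic n I e δ)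
    (m : ℕ) : Module.finrank F (lev h.monic n I m) = ∑ i, (m - δ i) := by
  have hsm : ∀ c : Fin (2 * g + 1) → F[X], ∑ i, c i • e i = ∑ i, AdjoinRoot.of f (c i) * e i := by
    intro c
    refine Finset.sum_congr rfl fun i _ => ?_
    rw [Algebra.smul_def]
    rfl
  refine finrank_of_reduced (dg h.monic n) e δ ?_ (fun a => dg_eq_bot h.monic n a) _ m ?_
  · intro c
    rw [hsm]
    exact he.red c
  · intro a
    rw [mem_lev]
    constructor
    · rintro ⟨h1, h2⟩
      obtain ⟨c, hc⟩ := he.span a h1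
      exact ⟨⟨c, by rw [hsm, hc]⟩, h2⟩
    · rintro ⟨⟨c, hc⟩, h2⟩
      refine ⟨?_, h2⟩
      rw [hc, hsm]
      exact I.sum_mem fun i _ => I.mul_mem_left _ (he.mem i)

private theorem co_natDegree_lt (h : Pre g n w f) {I : Ideal (AdjoinRoot f)} {m : ℕ}
    (a : lev h.monic n I m) (j : ℕ) : co h.monic j (a : AdjoinRoot f) ∈ degreeLT F m := by
  rw [mem_degreeLT]
  have h1 := co_le_dg h.monic n j (a : AdjoinRoot f)
  have h2 : dg h.monic n (a : AdjoinRoot f) < m := a.2.2
  refine lt_of_le_of_lt ?_ h2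
  refine le_trans ?_ h1
  calc (co h.monic j (a : AdjoinRoot f)).degree = (co h.monic j (a : AdjoinRoot f)).degree + 0 := by
        rw [add_zero]
    _ ≤ _ := add_le_add le_rfl (by exact_mod_cast Nat.zero_le (j * n))

theorem finite_lev (h : Pre g n w f) (I : Ideal (AdjoinRoot f)) (m : ℕ) :
    Module.Finite F (lev h.monic n I m) := by
  let φ : lev h.monic n I m →ₗ[F] (Fin f.natDegree → degreeLT F m) :=
    { toFun := fun a j => ⟨co h.monic j (a : AdjoinRoot f), co_natDegree_lt h a j⟩
      map_add' := fun a b => by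
        ext1 j
        apply Subtype.ext
        exact map_add (co h.monic j) (a : AdjoinRoot f) (b : AdjoinRoot f)
      map_smul' := fun c a => by
        ext1 j
        apply Subtype.ext
        change co h.monic j (c • (a : AdjoinRoot f)) = c • co h.monic j (a : AdjoinRoot f)
        rw [← of_C_mul, co_of_mul, smul_eq_C_mul] }
  have hφ : Function.Injective φ := by
    intro a b hab
    apply Subtype.ext
    rw [← sub_eq_zero]
    apply eq_zero_of_co h.monic
    intro j
    rw [map_sub, sub_eq_zero]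
    by_cases hj : j < f.natDegree
    · have h1 := congrFun hab ⟨j, hj⟩
      exact congrArg Subtype.val h1
    · have hz : ∀ x : AdjoinRoot f, co h.monic j x = 0 := by
        intro x
        unfold co
        simp only [LinearMap.comp_apply, lcoeff_apply]
        apply coeff_eq_zero_of_degree_lt
        obtain ⟨p, rfl⟩ := AdjoinRoot.mk_surjective x
        rw [AdjoinRoot.modByMonicHom_mk]
        refine (degree_modByMonic_lt p h.monic).trans_le ?_
        rw [degree_eq_natDegree h.monic.ne_zero]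
        exact_mod_cast not_lt.1 hj
      rw [hz, hz]
  exact Module.Finite.of_injective φ hφ

private theorem co_pow_sum (h : Pre g n w f) (c : Fin (2 * g + 1) → F[X]) (j : ℕ) :
    co h.monic j (∑ i, AdjoinRoot.of f (c i) * AdjoinRoot.root f ^ (i : ℕ)) =
      if hj : j < 2 * g + 1 then c ⟨j, hj⟩ else 0 := by
  have h1 : ∑ i, AdjoinRoot.of f (c i) * AdjoinRoot.root f ^ (i : ℕ) =
      AdjoinRoot.mk f (∑ i, C (c i) * X ^ (i : ℕ)) := by
    rw [map_sum]
    refine Finset.sum_congr rfl fun i _ => ?_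
    rw [map_mul, map_pow, AdjoinRoot.mk_C, AdjoinRoot.mk_X]
  have hdeg : (∑ i : Fin (2 * g + 1), C (c i) * X ^ (i : ℕ) : F[X][X]).degree < f.degree := by
    rw [degree_eq_natDegree h.monic.ne_zero, h.natDegree]
    exact degree_sum_fin_lt c
  unfold co
  rw [LinearMap.comp_apply, h1, AdjoinRoot.modByMonicHom_mk, (modByMonic_eq_self_iff h.monic).2 hdeg,
    lcoeff_apply, finsetSum_coeff]
  simp only [coeff_C_mul, coeff_X_pow]
  split_ifs with hj
  · rw [Finset.sum_eq_single ⟨j, hj⟩]
    · simp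
    · intro b _ hb
      rw [if_neg, mul_zero]
      intro hjb
      exact hb (Fin.ext hjb.symm)
    · intro hb
      exact absurd (Finset.mem_univ _) hb
  · refine Finset.sum_eq_zero fun b _ => ?_
    rw [if_neg, mul_zero]
    intro hjb
    exact hj (hjb ▸ b.2)

private theorem co_zero_of_le (h : Pre g n w f) {j : ℕ} (hj : ¬ j < 2 * g + 1) (x : AdjoinRoot f) :
    co h.monic j x = 0 := by
  unfold co
  simp only [LinearMap.comp_apply, lcoeff_apply]
  apply coeff_eq_zero_of_degree_lt
  obtain ⟨p, rfl⟩ := AdjoinRoot.mk_surjective x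
  rw [AdjoinRoot.modByMonicHom_mk]
  refine (degree_modByMonic_lt p h.monic).trans_le ?_
  rw [degree_eq_natDegree h.monic.ne_zero, h.natDegree]
  exact_mod_cast not_lt.1 hj

/-- the standard reduced basis of the unit ideal -/
private theorem rbasis_top (h : Pre g n w f) : RBasis h.monic n (⊤ : Ideal (AdjoinRoot f))
    (fun j : Fin (2 * g + 1) => AdjoinRoot.root f ^ (j : ℕ)) (fun j => j * n) := by
  refine ⟨fun _ => Submodule.mem_top, ?_, ?_, ?_⟩
  · intro a _
    refine ⟨fun i => co h.monic i a, ?_⟩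
    rw [← sub_eq_zero]
    apply eq_zero_of_co h.monic
    intro j
    rw [map_sub, co_pow_sum h, sub_eq_zero]
    split_ifs with hj
    · rfl
    · exact co_zero_of_le h hj a
  · intro c
    apply le_antisymm
    · rw [dg_le_iff]
      intro j
      rw [co_pow_sum h]
      split_ifs with hj
      · exact Finset.le_sup (f := fun i : Fin (2 * g + 1) =>
          (c i).degree + (((i : ℕ) * n : ℕ) : WithBot ℕ)) (Finset.mem_univ (⟨j, hj⟩ : Fin (2 * g + 1)))
      · rw [degree_zero, WithBot.bot_add]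
        exact bot_le
    · refine Finset.sup_le fun i _ => ?_
      have h1 := co_le_dg h.monic n i
        (∑ i, AdjoinRoot.of f (c i) * AdjoinRoot.root f ^ (i : ℕ))
      rw [co_pow_sum h, dif_pos i.2] at h1
      exact h1
  · intro i j hij
    exact Nat.mul_le_mul_right n hij

private theorem exists_dg_lt (h : Pre g n w f) (a : AdjoinRoot f) :
    ∃ k : ℕ, dg h.monic n a < k := by
  by_cases ha : a = 0
  · refine ⟨0, ?_⟩
    rw [ha, dg_zero]
    exact WithBot.bot_lt_coe 0
  · obtain ⟨m, hm⟩ := exists_dg h.monic n ha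
    refine ⟨m + 1, ?_⟩
    rw [hm]
    exact_mod_cast Nat.lt_succ_self m

/-- the map of the elements of small degree to the quotient -/
private noncomputable def qmap (h : Pre g n w f) (I : Ideal (AdjoinRoot f)) (m : ℕ) :
    lev h.monic n (⊤ : Ideal (AdjoinRoot f)) m →ₗ[F] (AdjoinRoot f ⧸ I) :=
  (Ideal.Quotient.mkₐ F I).toLinearMap.comp (Submodule.subtype _)

private theorem qmap_apply (h : Pre g n w f) (I : Ideal (AdjoinRoot f)) (m : ℕ)
    (a : lev h.monic n (⊤ : Ideal (AdjoinRoot f)) m) :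
    qmap h I m a = Ideal.Quotient.mk I (a : AdjoinRoot f) := rfl

private theorem exists_surj (h : Pre g n w f) {I : Ideal (AdjoinRoot f)} (hI : I ≠ ⊥) :
    ∃ M : ℕ, ∀ m, M ≤ m → LinearMap.range (qmap h I m) = ⊤ := by
  have := finite_quot h hI
  obtain ⟨S, hS⟩ := (Module.Finite.fg_top : (⊤ : Submodule F (AdjoinRoot f ⧸ I)).FG)
  choose k hk using exists_dg_lt h
  choose l hl using (Ideal.Quotient.mk_surjective : Function.Surjective (Ideal.Quotient.mk I))
  refine ⟨S.sup fun s => k (l s), fun m hm => ?_⟩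
  rw [eq_top_iff, ← hS, Submodule.span_le]
  intro s hs
  have h1 : k (l s) ≤ m := (Finset.le_sup (f := fun s => k (l s)) hs).trans hm
  have h2 : dg h.monic n (l s) < m := (hk (l s)).trans_le (by exact_mod_cast h1)
  exact ⟨⟨l s, Submodule.mem_top, h2⟩, hl s⟩

private theorem ker_qmap (h : Pre g n w f) (I : Ideal (AdjoinRoot f)) (m : ℕ) :
    (LinearMap.ker (qmap h I m)).map (Submodule.subtype _) = lev h.monic n I m := by
  ext a
  rw [Submodule.mem_map, mem_lev]
  constructor
  · rintro ⟨b, hb, rfl⟩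
    rw [LinearMap.mem_ker, qmap_apply, Ideal.Quotient.eq_zero_iff_mem] at hb
    exact ⟨hb, b.2.2⟩
  · rintro ⟨h1, h2⟩
    refine ⟨⟨a, Submodule.mem_top, h2⟩, ?_, rfl⟩
    rw [LinearMap.mem_ker, qmap_apply, Ideal.Quotient.eq_zero_iff_mem]
    exact h1

private theorem sum_fin_id (g : ℕ) : (∑ j : Fin (2 * g + 1), ((j : ℕ) : ℤ)) = g * (2 * g + 1) := by
  have h1 : (∑ j : Fin (2 * g + 1), ((j : ℕ) : ℤ)) = ((∑ j ∈ Finset.range (2 * g + 1), j : ℕ) : ℤ) := by
    rw [Nat.cast_sum, ← Fin.sum_univ_eq_sum_range (fun j => (j : ℤ))]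
  have h2 := Finset.sum_range_id_mul_two (2 * g + 1)
  have h3 : (((∑ j ∈ Finset.range (2 * g + 1), j : ℕ) : ℤ)) * 2 = (2 * g + 1) * (2 * g) := by
    exact_mod_cast h2
  rw [h1]
  linarith

theorem ix_eq (h : Pre g n w f) {I : Ideal (AdjoinRoot f)} (hI : I ≠ ⊥)
    {e : Fin (2 * g + 1) → AdjoinRoot f} {δ : Fin (2 * g + 1) → ℕ} (he : RBasis h.monic n I e δ) :
    (ix I : ℤ) = ∑ i, (δ i : ℤ) - n * (g * (2 * g + 1)) := by
  obtain ⟨M, hM⟩ := exists_surj h hI
  set m : ℕ := max M (max (∑ i, δ i) (2 * g * n)) with hm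
  have hm1 : M ≤ m := le_max_left _ _
  have hm2 : ∀ i, δ i ≤ m := fun i =>
    (Finset.single_le_sum (f := δ) (fun _ _ => Nat.zero_le _) (Finset.mem_univ i)).trans
      ((le_max_left _ _).trans (le_max_right _ _))
  have hm3 : ∀ j : Fin (2 * g + 1), (j : ℕ) * n ≤ m := fun j =>
    (Nat.mul_le_mul_right n (Nat.lt_succ_iff.1 j.2)).trans
      ((le_max_right _ _).trans (le_max_right _ _))
  have := finite_lev h (⊤ : Ideal (AdjoinRoot f)) m
  have hrn := LinearMap.finrank_range_add_finrank_ker (qmap h I m)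
  rw [hM m hm1, finrank_top, ← Submodule.finrank_map_subtype_eq, ker_qmap, finrank_lev h he,
    finrank_lev h (rbasis_top h)] at hrn
  have h1 : (ix I : ℤ) + ∑ i, ((m : ℤ) - δ i) = ∑ j : Fin (2 * g + 1), ((m : ℤ) - (j : ℕ) * n) := by
    have h2 : ((Module.finrank F (AdjoinRoot f ⧸ I) + ∑ i, (m - δ i) : ℕ) : ℤ) =
        ((∑ j : Fin (2 * g + 1), (m - (j : ℕ) * n) : ℕ) : ℤ) := by rw [hrn]
    rw [Nat.cast_add, Nat.cast_sum, Nat.cast_sum] at h2
    have h3 : ∑ i, ((m - δ i : ℕ) : ℤ) = ∑ i, ((m : ℤ) - δ i) :=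
      Finset.sum_congr rfl fun i _ => Nat.cast_sub (hm2 i)
    have h4 : ∑ j : Fin (2 * g + 1), ((m - (j : ℕ) * n : ℕ) : ℤ) =
        ∑ j : Fin (2 * g + 1), ((m : ℤ) - (j : ℕ) * n) :=
      Finset.sum_congr rfl fun j _ => by rw [Nat.cast_sub (hm3 j), Nat.cast_mul]
    rw [h3, h4] at h2
    exact h2
  rw [Finset.sum_sub_distrib, Finset.sum_sub_distrib, ← Finset.sum_mul, sum_fin_id] at h1
  linarith

end Pool.Agent.Helper96.PS
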