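import Mathlib

/-!
# PS-A6a: reduced bases over `F[t]` (Lenstra; existence of a splitting)

`M` a free `F[t]`-module of finite rank `N` with a degree function `D : M → WithBot ℕ`: `D a = ⊥` iff `a = 0`, `D(a+b) ≤ max`, `D(ca) = deg c + D a`.
There is a basis `e` with `D(e_0) ≤ D(e_1) ≤ …` and `D(∑ c_i e_i) = max (deg c_i + D e_i)`.

Proof. Choose a basis `b` with `∑ D(b_i)` minimal. Suppose `D(∑ c_i b_i) < m := max (deg c_i + D b_i)`. Let `S` be the set of
`i` with `deg c_i + D b_i = m`, `k ∈ S` with `D b_k` maximal, `γ_i` the leading coefficient of `c_i`. Replace `b_k` by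
`e' = ∑_{i ∈ S} (γ_i/γ_k) t^{D b_k - D b_i} b_i = b_k + (combination of the other b_i)`: again a basis.
`γ_k t^{deg c_k} e'` differs from `∑ c_i b_i` by terms of degree `< m`, so `D(e') < D(b_k)`, contradiction.
Counting: the elements with `D a < m` are the `∑ c_i e_i` with `deg c_i < m - δ_i`: `F`-dimension `∑ (m - δ_i)` (natural subtraction).
-/

namespace Pool.Agent.Helper96.PS

open Polynomial

variable {F : Type*} [Field F] {M : Type*} [AddCommGroup M] [Module F[X] M]

private theorem D_neg (D : M → WithBot ℕ) (hsmul : ∀ (c : F[X]) a, D (c • a) = c.degree + D a) (a : M) :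
    D (-a) = D a := by
  have h := hsmul (-1) a
  rw [neg_one_smul] at h
  rw [h]
  simp

private theorem D_sum_le (D : M → WithBot ℕ) (h0 : ∀ a, D a = ⊥ ↔ a = 0)
    (hadd : ∀ a b, D (a + b) ≤ max (D a) (D b)) {ι : Type*} (s : Finset ι) (g : ι → M) :
    D (∑ i ∈ s, g i) ≤ s.sup fun i => D (g i) := by
  classical
  induction s using Finset.induction_on with
  | empty =>
    rw [Finset.sum_empty, (h0 0).2 rfl]
    exact bot_le
  | insert a s ha ih =>
    rw [Finset.sum_insert ha, Finset.sup_insert]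
    exact (hadd _ _).trans (max_le_max le_rfl ih)

/-- the transvection `x ↦ x + f(x) v`, `f(v) = 0` -/
private noncomputable def tv (f : M →ₗ[F[X]] F[X]) (v : M) (hv : f v = 0) : M ≃ₗ[F[X]] M :=
  LinearEquiv.ofLinearMap (LinearMap.id + f.smulRight v) (LinearMap.id - f.smulRight v)
    (by
      ext x
      simp [hv])
    (by
      ext x
      simp [hv])

private theorem reduced_of_min {N : ℕ} (D : M → WithBot ℕ) (h0 : ∀ a, D a = ⊥ ↔ a = 0)
    (hadd : ∀ a b, D (a + b) ≤ max (D a) (D b)) (hsmul : ∀ (c : F[X]) a, D (c • a) = c.degree + D a)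
    (b : Module.Basis (Fin N) F[X] M) (δ : Fin N → ℕ) (hδ : ∀ i, D (b i) = δ i)
    (hmin : ∀ b' : Module.Basis (Fin N) F[X] M,
      ∑ i, δ i ≤ ∑ i, (D (b' i)).unbotD 0) (c : Fin N → F[X]) :
    D (∑ i, c i • b i) = Finset.univ.sup fun i => (c i).degree + (δ i : WithBot ℕ) := by
  classical
  have hle : ∀ c : Fin N → F[X], D (∑ i, c i • b i) ≤
      Finset.univ.sup fun i => (c i).degree + (δ i : WithBot ℕ) := by
    intro c
    refine (D_sum_le D h0 hadd _ _).trans (Finset.sup_le fun i hi => ?_)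
    rw [hsmul, hδ]
    exact Finset.le_sup (f := fun i => (c i).degree + (δ i : WithBot ℕ)) hi
  refine le_antisymm (hle c) ?_
  by_contra hcon
  rw [not_le] at hcon
  set m : WithBot ℕ := Finset.univ.sup fun i => (c i).degree + (δ i : WithBot ℕ) with hm
  have hmb : ⊥ < m := bot_le.trans_lt hcon
  have hile : ∀ i, (c i).degree + (δ i : WithBot ℕ) ≤ m := fun i =>
    Finset.le_sup (f := fun i => (c i).degree + (δ i : WithBot ℕ)) (Finset.mem_univ i)
  have hne : (Finset.univ : Finset (Fin N)).Nonempty := by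
    by_contra h
    rw [Finset.not_nonempty_iff_eq_empty] at h
    rw [hm, h, Finset.sup_empty] at hmb
    exact lt_irrefl _ hmb
  obtain ⟨j, -, hj⟩ := Finset.exists_mem_eq_sup Finset.univ hne
    (fun i => (c i).degree + (δ i : WithBot ℕ))
  have hSne : (Finset.univ.filter fun i => (c i).degree + (δ i : WithBot ℕ) = m).Nonempty :=
    ⟨j, Finset.mem_filter.2 ⟨Finset.mem_univ _, hj.symm⟩⟩
  set S := Finset.univ.filter fun i => (c i).degree + (δ i : WithBot ℕ) = m with hS
  obtain ⟨k, hk, hkmax⟩ := Finset.exists_max_image S δ hSne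
  have hSc : ∀ i ∈ S, c i ≠ 0 := by
    intro i hi h
    have h1 := (Finset.mem_filter.1 hi).2
    rw [h, degree_zero, WithBot.bot_add] at h1
    rw [← h1] at hmb
    exact lt_irrefl _ hmb
  have hSd : ∀ i ∈ S, (((c i).natDegree + δ i : ℕ) : WithBot ℕ) = m := by
    intro i hi
    have h1 := (Finset.mem_filter.1 hi).2
    rw [degree_eq_natDegree (hSc i hi)] at h1
    exact_mod_cast h1
  have hSd2 : ∀ i ∈ S, (c i).natDegree = (δ k - δ i) + (c k).natDegree := by
    intro i hi
    have h1 := (hSd i hi).trans (hSd k hk).symm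
    have h2 : (c i).natDegree + δ i = (c k).natDegree + δ k := by exact_mod_cast h1
    have h3 := hkmax i hi
    omega
  have hγ : (c k).leadingCoeff ≠ 0 := leadingCoeff_ne_zero.2 (hSc k hk)
  set q : Fin N → F[X] := fun i => C ((c i).leadingCoeff / (c k).leadingCoeff) * X ^ (δ k - δ i)
    with hq
  set v : M := ∑ i ∈ S.erase k, q i • b i with hv
  have hv0 : b.coord k v = 0 := by
    rw [hv, map_sum]
    refine Finset.sum_eq_zero fun i hi => ?_
    rw [map_smul, Module.Basis.coord_apply, Module.Basis.repr_self,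
      Finsupp.single_eq_of_ne (Finset.ne_of_mem_erase hi).symm, smul_zero]
  have hqk : q k = 1 := by
    rw [hq]
    simp only [Nat.sub_self, pow_zero, mul_one]
    rw [div_self hγ, C_1]
  have he' : b k + v = ∑ i ∈ S, q i • b i := by
    rw [← Finset.add_sum_erase S _ hk, hqk, one_smul]
  -- the new basis
  set b' : Module.Basis (Fin N) F[X] M := b.map (tv (b.coord k) v hv0) with hb'
  have hb'k : b' k = b k + v := by
    rw [hb', Module.Basis.map_apply]
    simp [tv]
  have hb'i : ∀ i, i ≠ k → b' i = b i := by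
    intro i hi
    rw [hb', Module.Basis.map_apply]
    simp [tv, Finsupp.single_eq_of_ne hi.symm]
  -- the degree of the new vector
  have hlead : (C (c k).leadingCoeff * X ^ (c k).natDegree : F[X]) • (b k + v) =
      ∑ i ∈ S, (C (c i).leadingCoeff * X ^ (c i).natDegree : F[X]) • b i := by
    rw [he', Finset.smul_sum]
    refine Finset.sum_congr rfl fun i hi => ?_
    rw [smul_smul]
    congr 1
    rw [hSd2 i hi, pow_add, hq]
    simp only
    have : C (c i).leadingCoeff = C (c k).leadingCoeff * C ((c i).leadingCoeff / (c k).leadingCoeff) := by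
      rw [← C_mul, mul_div_cancel₀ _ hγ]
    rw [this]
    ring
  have hdiff : ∑ i, c i • b i - (C (c k).leadingCoeff * X ^ (c k).natDegree : F[X]) • (b k + v) =
      ∑ i, (if i ∈ S then (c i).eraseLead else c i) • b i := by
    rw [hlead, sub_eq_iff_eq_add, ← Finset.sum_filter_add_sum_filter_not Finset.univ (· ∈ S)
      (fun i => c i • b i), ← Finset.sum_filter_add_sum_filter_not Finset.univ (· ∈ S)
      (fun i => (if i ∈ S then (c i).eraseLead else c i) • b i)]
    have hfs : Finset.univ.filter (· ∈ S) = S := by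
      ext i
      simp
    rw [hfs]
    have e1 : ∑ i ∈ S, (if i ∈ S then (c i).eraseLead else c i) • b i =
        ∑ i ∈ S, (c i).eraseLead • b i :=
      Finset.sum_congr rfl fun i hi => by rw [if_pos hi]
    have e2 : ∑ i ∈ Finset.univ.filter (fun i => ¬ i ∈ S), (if i ∈ S then (c i).eraseLead else c i) • b i =
        ∑ i ∈ Finset.univ.filter (fun i => ¬ i ∈ S), c i • b i :=
      Finset.sum_congr rfl fun i hi => by rw [if_neg (Finset.mem_filter.1 hi).2]
    have e3 : ∑ i ∈ S, c i • b i = ∑ i ∈ S, (c i).eraseLead • b i +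
        ∑ i ∈ S, (C (c i).leadingCoeff * X ^ (c i).natDegree : F[X]) • b i := by
      rw [← Finset.sum_add_distrib]
      refine Finset.sum_congr rfl fun i _ => ?_
      rw [← add_smul, eraseLead_add_C_mul_X_pow]
    rw [e1, e2, e3]
    abel
  have hD1 : D (∑ i, (if i ∈ S then (c i).eraseLead else c i) • b i) < m := by
    refine (hle _).trans_lt ?_
    rw [Finset.sup_lt_iff hmb]
    intro i _
    by_cases hi : i ∈ S
    · rw [if_pos hi]
      have h1 : (c i).eraseLead.degree < (c i).degree := degree_eraseLead_lt (hSc i hi)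
      rw [← (Finset.mem_filter.1 hi).2]
      exact WithBot.add_lt_add_right (WithBot.coe_ne_bot) h1
    · rw [if_neg hi]
      refine lt_of_le_of_ne (hile i) fun h => hi ?_
      exact Finset.mem_filter.2 ⟨Finset.mem_univ _, h⟩
  have hD2 : D ((C (c k).leadingCoeff * X ^ (c k).natDegree : F[X]) • (b k + v)) < m := by
    have h1 : (C (c k).leadingCoeff * X ^ (c k).natDegree : F[X]) • (b k + v) =
        ∑ i, c i • b i + -(∑ i, (if i ∈ S then (c i).eraseLead else c i) • b i) := by
      rw [← hdiff]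
      abel
    rw [h1]
    refine (hadd _ _).trans_lt (max_lt hcon ?_)
    rw [D_neg D hsmul]
    exact hD1
  have hD3 : D (b k + v) < (δ k : WithBot ℕ) := by
    rw [hsmul, degree_C_mul_X_pow _ hγ, ← hSd k hk] at hD2
    rw [Nat.cast_add] at hD2
    exact lt_of_add_lt_add_left hD2
  have hb0 : D (b' k) ≠ ⊥ := fun h => b'.ne_zero k ((h0 _).1 h)
  have hlt : ∑ i, (D (b' i)).unbotD 0 < ∑ i, δ i := by
    apply Finset.sum_lt_sum
    · intro i _
      by_cases hik : i = k
      · subst hik
        rw [hb'k]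
        rw [hb'k] at hb0
        obtain ⟨n, hn⟩ := WithBot.ne_bot_iff_exists.1 hb0
        rw [← hn] at hD3 ⊢
        rw [WithBot.unbotD_coe]
        exact (WithBot.coe_lt_coe.1 hD3).le
      · rw [hb'i i hik, hδ]
        exact le_of_eq (WithBot.unbotD_coe 0 (δ i))
    · refine ⟨k, Finset.mem_univ _, ?_⟩
      rw [hb'k]
      rw [hb'k] at hb0
      obtain ⟨n, hn⟩ := WithBot.ne_bot_iff_exists.1 hb0
      rw [← hn] at hD3 ⊢
      rw [WithBot.unbotD_coe]
      exact WithBot.coe_lt_coe.1 hD3
  exact absurd (hmin b') (not_le.2 hlt)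

theorem exists_reduced [Module.Free F[X] M] [Module.Finite F[X] M] {N : ℕ}
    (hN : Module.finrank F[X] M = N) (D : M → WithBot ℕ) (h0 : ∀ a, D a = ⊥ ↔ a = 0)
    (hadd : ∀ a b, D (a + b) ≤ max (D a) (D b)) (hsmul : ∀ (c : F[X]) a, D (c • a) = c.degree + D a) :
    ∃ (e : Fin N → M) (δ : Fin N → ℕ), Monotone δ ∧ (∀ a, ∃ c : Fin N → F[X], a = ∑ i, c i • e i) ∧
      ∀ c : Fin N → F[X], D (∑ i, c i • e i) =
        Finset.univ.sup fun i => (c i).degree + (δ i : WithBot ℕ) := by
  classical
  have hne : Nonempty (Module.Basis (Fin N) F[X] M) := ⟨Module.finBasisOfFinrankEq F[X] M hN⟩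
  set w : Module.Basis (Fin N) F[X] M → ℕ := fun b => ∑ i, (D (b i)).unbotD 0 with hw
  obtain ⟨b, hb⟩ : ∃ b, ∀ b', w b ≤ w b' := ⟨Function.argmin w, fun b' => Function.argmin_le w b'⟩
  set δ₀ : Fin N → ℕ := fun i => (D (b i)).unbotD 0 with hδ₀
  set σ : Equiv.Perm (Fin N) := Tuple.sort δ₀ with hσ
  have hδ : ∀ b : Module.Basis (Fin N) F[X] M, ∀ i, D (b i) = (((D (b i)).unbotD 0 : ℕ) : WithBot ℕ) := by
    intro b i
    have h1 : D (b i) ≠ ⊥ := fun h => b.ne_zero i ((h0 _).1 h)
    obtain ⟨n, hn⟩ := WithBot.ne_bot_iff_exists.1 h1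
    rw [← hn, WithBot.unbotD_coe]
    rfl
  refine ⟨fun i => b (σ i), fun i => δ₀ (σ i), Tuple.monotone_sort δ₀, ?_, ?_⟩
  · intro a
    refine ⟨fun i => b.repr a (σ i), ?_⟩
    rw [Equiv.sum_comp σ (fun i => b.repr a i • b i), b.sum_repr]
  · intro c
    have h := reduced_of_min D h0 hadd hsmul (b.reindex σ.symm) (fun i => δ₀ (σ i))
      (by
        intro i
        rw [Module.Basis.reindex_apply, Equiv.symm_symm]
        exact hδ b (σ i))
      (by
        intro b'
        rw [Equiv.sum_comp σ δ₀]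
        exact hb b') c
    simp only [Module.Basis.reindex_apply, Equiv.symm_symm] at h
    exact h

/-- the dimension of `{D < m}`, in the presence of a reduced basis -/
theorem finrank_of_reduced [Module F M] [IsScalarTower F F[X] M] {N : ℕ} (D : M → WithBot ℕ)
    (e : Fin N → M) (δ : Fin N → ℕ)
    (hred : ∀ c : Fin N → F[X], D (∑ i, c i • e i) =
        Finset.univ.sup fun i => (c i).degree + (δ i : WithBot ℕ))
    (h0 : ∀ a, D a = ⊥ ↔ a = 0) (W : Submodule F M) (m : ℕ)
    (hW : ∀ a, a ∈ W ↔ (∃ c : Fin N → F[X], a = ∑ i, c i • e i) ∧ D a < m) :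
    Module.finrank F W = ∑ i, (m - δ i) := by
  classical
  have hlt : ∀ (i : Fin N) (p : F[X]), p.degree < ((m - δ i : ℕ) : WithBot ℕ) ↔
      p.degree + (δ i : WithBot ℕ) < m := by
    intro i p
    by_cases hp : p = 0
    · subst hp
      rw [degree_zero, WithBot.bot_add]
      exact ⟨fun _ => WithBot.bot_lt_coe _, fun _ => WithBot.bot_lt_coe _⟩
    · rw [degree_eq_natDegree hp]
      have h1 : ((p.natDegree : ℕ) : WithBot ℕ) + (δ i : WithBot ℕ) =
        ((p.natDegree + δ i : ℕ) : WithBot ℕ) := by push_cast; rfl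
      rw [h1, Nat.cast_lt, Nat.cast_lt]
      omega
  have hbm : (⊥ : WithBot ℕ) < (m : WithBot ℕ) := WithBot.bot_lt_coe m
  -- the parametrisation
  let Φ : (∀ i : Fin N, degreeLT F (m - δ i)) →ₗ[F] W :=
    { toFun := fun c => ⟨∑ i, (c i : F[X]) • e i, by
        rw [hW]
        refine ⟨⟨fun i => (c i : F[X]), rfl⟩, ?_⟩
        rw [hred, Finset.sup_lt_iff hbm]
        intro i _
        exact (hlt i _).1 (mem_degreeLT.1 (c i).2)⟩
      map_add' := by
        intro c d
        apply Subtype.ext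
        simp only [Pi.add_apply, Submodule.coe_add, add_smul, Finset.sum_add_distrib]
      map_smul' := by
        intro r c
        apply Subtype.ext
        simp only [Pi.smul_apply, Submodule.coe_smul, smul_assoc, ← Finset.smul_sum,
          RingHom.id_apply] }
  have hinj : Function.Injective Φ := by
    rw [← LinearMap.ker_eq_bot, LinearMap.ker_eq_bot']
    intro c hc
    have h1 : ∑ i, (c i : F[X]) • e i = 0 := congrArg Subtype.val hc
    have h2 := hred fun i => (c i : F[X])
    rw [h1, (h0 0).2 rfl] at h2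
    funext i
    apply Subtype.ext
    have h3 : ((c i : F[X])).degree + (δ i : WithBot ℕ) ≤ ⊥ := by
      rw [h2]
      exact Finset.le_sup (f := fun i => ((c i : F[X])).degree + (δ i : WithBot ℕ))
        (Finset.mem_univ i)
    rw [le_bot_iff, WithBot.add_eq_bot] at h3
    rcases h3 with h3 | h3
    · exact degree_eq_bot.1 h3
    · exact absurd h3 WithBot.coe_ne_bot
  have hsurj : Function.Surjective Φ := by
    rintro ⟨a, ha⟩
    obtain ⟨⟨c, rfl⟩, hD⟩ := (hW a).1 ha
    rw [hred, Finset.sup_lt_iff hbm] at hD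
    refine ⟨fun i => ⟨c i, mem_degreeLT.2 ((hlt i _).2 (hD i (Finset.mem_univ i)))⟩, ?_⟩
    apply Subtype.ext
    rfl
  rw [← (LinearEquiv.ofBijective Φ ⟨hinj, hsurj⟩).finrank_eq]
  have hd : ∀ n : ℕ, Module.Finite F (degreeLT F n) := fun n =>
    Module.Finite.equiv (degreeLTEquiv F n).symm
  rw [Module.finrank_pi_fintype]
  refine Finset.sum_congr rfl fun i _ => ?_
  rw [(degreeLTEquiv F (m - δ i)).finrank_eq, Module.finrank_fin_fun]

end Pool.Agent.Helper96.PS
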