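import Pool.Agent.Helper96.PS.EvenGlob
import Pool.Agent.Helper96.PS.CBasic
import Pool.Agent.Helper96.PS.Hensel

/-!
# PS-C10: squares at the prime of degree one

`f` good, TypeS at `(π, r, q)`, `hL : LData π R M`. (1) Hensel: over `R`: `f = (x - ρ) h̃`, `ρ ≡ r mod ϖ`, `h̃` monic, `h̃ ≡ q mod ϖ` (`hensel_factor` with `a₀ = q`, `b₀ = x - r`, coprime mod `ϖ`: `q̄` irreducible of degree `2g ≥ 2`; `b` is then monic of degree `1` since `f` is monic).
(2) `α ∈ O`, `α ≠ 0`, `EvenAt (P2 f π r) α`, and the value `α(ρ) ∈ M` is a square. Then `SqLoc (P2 f π r) α`. Proof: `evenAt_iff`: `a² d = α c`, `c, d ∉ P2`. Evaluate at `ρ` (`O → R`, `θ ↦ ρ`; modulo `ϖ` it is `O → O/P2 = κ`): `a(ρ)² d(ρ) = α(ρ) c(ρ)`, `c(ρ), d(ρ)` units of `R`;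
`α(ρ) ≠ 0` (`α` is nonzero in the field `K[x]/(f)`, so a unit in `M[x]/(f)`), so `c(ρ) d(ρ) = α(ρ) (c(ρ)/a(ρ))²` is a square in `M`, so its residue is a square (`CData.isSquare_iff'`), i.e. `c d` is a square mod `P2`.
-/

namespace Pool.Agent.Helper96.PS

open Polynomial

variable {F : Type*} [Field F] {g n : ℕ} {w : F[X]} {f : F[X][X]}
  {π : F[X]} {R M : Type*} [CommRing R] [IsDomain R] [Field M]
  [Algebra R M] [Algebra F[X] R] [Algebra (RatFunc F) M]

private theorem h45_coprime {S : Type*} [CommRing S] (I : Ideal S) (hI : I.IsMaximal) {p : (S ⧸ I)[X]}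
    (hp : Irreducible p) (hm : p.Monic) (hd : 2 ≤ p.natDegree) (c : S ⧸ I) :
    IsCoprime p (X - C c) := by
  let _ : Field (S ⧸ I) := Ideal.Quotient.field I
  have h1 : ¬ p ∣ (X - C c) := by
    intro h2
    have h3 := natDegree_le_of_dvd h2 (X_sub_C_ne_zero c)
    rw [natDegree_X_sub_C] at h3
    omega
  exact (hp.coprime_iff_not_dvd).2 h1

private theorem h45_map_map_eval (hL : LData π R M) {ρ : R} (P₀ : F[X][X]) :
    ((P₀.map (algebraMap F[X] R)).map (algebraMap R M)).eval₂ (RingHom.id M) (algebraMap R M ρ) =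
      algebraMap R M (P₀.eval₂ (algebraMap F[X] R) ρ) := by
  rw [eval₂_map, RingHom.id_comp, eval₂_map, hom_eval₂]

theorem exists_rho (h : Good g n w f) (hL : LData π R M) {r : F[X]} {q : F[X][X]}
    (hT : TypeS g f π r q) :
    ∃ (ρ : R) (h' : R[X]), h'.Monic ∧ h'.natDegree = 2 * g ∧
      f.map (algebraMap F[X] R) = (X - C ρ) * h' ∧
      algebraMap F[X] R π ∣ ρ - algebraMap F[X] R r ∧
      h'.map (Ideal.Quotient.mk (Ideal.span {algebraMap F[X] R π})) =
        (q.map (algebraMap F[X] R)).map (Ideal.Quotient.mk (Ideal.span {algebraMap F[X] R π})) := by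
  have hcomp := hL.compl
  have hmax : (Ideal.span {algebraMap F[X] R π} : Ideal R).IsMaximal := hL.toCData.isMaximal
  have hirr := (irreducible_map_iff hL q).1 hT.irr
  have hq' : (q.map (algebraMap F[X] R)).Monic := hT.hh.map _
  have hf' : (f.map (algebraMap F[X] R)).Monic := h.monic.map _
  have hnt : Nontrivial (R ⧸ (Ideal.span {algebraMap F[X] R π} : Ideal R)) :=
    Ideal.Quotient.nontrivial_iff.2 hmax.ne_top
  have hg := h.hg
  have hcop : IsCoprime ((q.map (algebraMap F[X] R)).map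
      (Ideal.Quotient.mk (Ideal.span {algebraMap F[X] R π})))
      ((X - C (algebraMap F[X] R r)).map
      (Ideal.Quotient.mk (Ideal.span {algebraMap F[X] R π}))) := by
    rw [Polynomial.map_sub, map_X, map_C]
    refine h45_coprime _ hmax hirr (hq'.map _) ?_ _
    rw [hq'.natDegree_map, hT.hh.natDegree_map, hT.deg]
    omega
  have hP : (f.map (algebraMap F[X] R)).map
      (Ideal.Quotient.mk (Ideal.span {algebraMap F[X] R π})) =
      (q.map (algebraMap F[X] R) * (X - C (algebraMap F[X] R r))).map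
      (Ideal.Quotient.mk (Ideal.span {algebraMap F[X] R π})) := by
    obtain ⟨s, hs⟩ := hT.dvd
    rw [sub_eq_iff_eq_add] at hs
    have h0 : Ideal.Quotient.mk (Ideal.span {algebraMap F[X] R π}) (algebraMap F[X] R π) = 0 :=
      Ideal.Quotient.eq_zero_iff_mem.2 (Ideal.mem_span_singleton_self _)
    rw [hs]
    simp only [Polynomial.map_add, Polynomial.map_mul, Polynomial.map_sub, map_X, map_C, h0, C_0,
      zero_mul, zero_add]
    rw [mul_comm]
  obtain ⟨a, b, ha, hda, hma, hmb, hab⟩ := hensel_factor (algebraMap F[X] R π) hq' hcop hP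
  have hb : b.Monic := by
    refine ha.of_mul_monic_left ?_
    rw [← hab]
    exact hf'
  have hdeg : b.natDegree = 1 := by
    have h1 := ha.natDegree_mul hb
    rw [← hab, h.monic.natDegree_map, h.toPre.natDegree, hda, hT.hh.natDegree_map, hT.deg] at h1
    omega
  have hbX := hb.eq_X_add_C hdeg
  refine ⟨-b.coeff 0, a, ha, ?_, ?_, ?_, hma⟩
  · rw [hda, hT.hh.natDegree_map, hT.deg]
  · rw [hab, C_neg, sub_neg_eq_add, ← hbX, mul_comm]
  · have h1 := congrArg (fun p => p.coeff 0) hmb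
    simp only [coeff_map, coeff_sub, coeff_X_zero, coeff_C_zero, zero_sub] at h1
    rw [Ideal.Quotient.eq, Ideal.mem_span_singleton] at h1
    have h2 : -b.coeff 0 - algebraMap F[X] R r = -(b.coeff 0 - -(algebraMap F[X] R r)) := by ring
    rw [h2]
    exact (dvd_neg).2 h1

theorem sqLoc_of_ev (h2 : (2 : F) ≠ 0) (h : Good g n w f) (hL : LData π R M) {r : F[X]}
    {q : F[X][X]} (hT : TypeS g f π r q) {ρ : R}
    (hρ : algebraMap F[X] R π ∣ ρ - algebraMap F[X] R r)
    (hx : ((fK f).map (algebraMap (RatFunc F) M)).eval₂ (RingHom.id M) (algebraMap R M ρ) = 0)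
    {α : AdjoinRoot f} (hα : α ≠ 0) {αK : (AdjoinRoot (fK f))ˣ}
    (hαK : (αK : AdjoinRoot (fK f)) = toK f α) (heven : EvenAt (P2 f π r) α)
    (hsq : IsSquare (evR (algebraMap R M ρ) hx (bc M (fK f) αK :
      (AdjoinRoot ((fK f).map (algebraMap (RatFunc F) M)))ˣ).val)) :
    SqLoc (P2 f π r) α := by
  obtain ⟨P₀, rfl⟩ := AdjoinRoot.mk_surjective α
  have hC := hL.toCData
  have hfrac : IsFractionRing R M := hL.frac
  have hinj : Function.Injective (algebraMap R M) := IsFractionRing.injective R M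
  have hP2 := P2_isMaximal h.toPre hT
  have hf0 : f.eval₂ (algebraMap F[X] R) ρ = 0 := by
    apply hinj
    rw [map_zero, ← h45_map_map_eval hL, ← map_fK hL f]
    exact hx
  obtain ⟨ev, hev⟩ : ∃ ev : AdjoinRoot f →+* R, ∀ p : F[X][X],
      ev (AdjoinRoot.mk f p) = p.eval₂ (algebraMap F[X] R) ρ :=
    ⟨AdjoinRoot.lift (algebraMap F[X] R) ρ hf0, fun p => AdjoinRoot.lift_mk hf0 p⟩
  have hevof : ∀ a : F[X], ev (AdjoinRoot.of f a) = algebraMap F[X] R a := by
    intro a
    rw [← AdjoinRoot.mk_C, hev, eval₂_C]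
  have hevroot : ev (AdjoinRoot.root f) = ρ := by
    rw [← AdjoinRoot.mk_X, hev, eval₂_X]
  -- the value of `α`
  have hval : evR (algebraMap R M ρ) hx (bc M (fK f) αK :
      (AdjoinRoot ((fK f).map (algebraMap (RatFunc F) M)))ˣ).val =
      algebraMap R M (ev (AdjoinRoot.mk f P₀)) := by
    rw [bc_eq hL hαK, hev, ← h45_map_map_eval hL]
    exact AdjoinRoot.lift_mk hx _
  have hα0 : algebraMap R M (ev (AdjoinRoot.mk f P₀)) ≠ 0 := by
    rw [← hval]
    exact ((bc M (fK f) αK).isUnit.map (evR (algebraMap R M ρ) hx)).ne_zero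
  rw [hval] at hsq
  -- the ideal `P2`
  have hmem : ∀ z : AdjoinRoot f, z ∈ P2 f π r ↔ algebraMap F[X] R π ∣ ev z := by
    have h1 : P2 f π r ≤ (Ideal.span {algebraMap F[X] R π}).comap ev := by
      unfold P2
      rw [Ideal.span_le]
      rintro z (rfl | rfl)
      · rw [SetLike.mem_coe, Ideal.mem_comap, hevof]
        exact Ideal.mem_span_singleton_self _
      · rw [SetLike.mem_coe, Ideal.mem_comap, map_sub, hevroot, hevof, Ideal.mem_span_singleton]
        exact hρ
    have h2 : (Ideal.span {algebraMap F[X] R π}).comap ev ≠ ⊤ := by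
      rw [Ne, Ideal.eq_top_iff_one, Ideal.mem_comap, map_one, Ideal.mem_span_singleton]
      exact fun h3 => hC.unif.not_isUnit (isUnit_of_dvd_one h3)
    have h3 := hP2.eq_of_le h2 h1
    intro z
    rw [h3, Ideal.mem_comap, Ideal.mem_span_singleton]
  obtain ⟨a, c, d, hacd, hc, hd⟩ := (evenAt_iff h hα hP2).1 heven
  refine ⟨a, c, d, hacd, hc, hd, ?_⟩
  have hcu : IsUnit (ev c) := (hC.isUnit_iff _).2 fun h1 => hc ((hmem c).2 h1)
  have hdu : IsUnit (ev d) := (hC.isUnit_iff _).2 fun h1 => hd ((hmem d).2 h1)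
  have heq : ev a ^ 2 * ev d = ev (AdjoinRoot.mk f P₀) * ev c := by
    rw [← map_pow, ← map_mul, hacd, map_mul]
  have hsq2 : IsSquare (algebraMap R M (ev c * ev d)) := by
    obtain ⟨s, hs⟩ := hsq
    have hs0 : s ≠ 0 := by
      rintro rfl
      rw [mul_zero] at hs
      exact hα0 hs
    refine ⟨algebraMap R M (ev a * ev d) / s, ?_⟩
    have h7 : (ev c * ev d) * ev (AdjoinRoot.mk f P₀) = (ev a * ev d) * (ev a * ev d) := by
      linear_combination (- ev d) * heq
    have h8 := congrArg (algebraMap R M) h7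
    rw [div_mul_div_comm, eq_div_iff (mul_ne_zero hs0 hs0), ← hs]
    exact ((map_mul (algebraMap R M) _ _).symm.trans h8).trans (map_mul (algebraMap R M) _ _)
  have hsq3 := (hC.isSquare_iff' (hL.isUnit_two h2) (hcu.mul hdu)).1 hsq2
  obtain ⟨y, hy⟩ := hsq3
  obtain ⟨y, rfl⟩ := Ideal.Quotient.mk_surjective y
  obtain ⟨b, hb⟩ := hL.surj y 1
  rw [pow_one] at hb
  refine ⟨Ideal.Quotient.mk _ (AdjoinRoot.of f b), ?_⟩
  rw [← map_mul, Ideal.Quotient.eq, hmem, map_sub, map_mul, map_mul, hevof]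
  have hy := hy.trans (map_mul (Ideal.Quotient.mk (Ideal.span {algebraMap F[X] R π})) y y).symm
  rw [Ideal.Quotient.eq, Ideal.mem_span_singleton] at hy
  have h4 : ev c * ev d - algebraMap F[X] R b * algebraMap F[X] R b =
      (ev c * ev d - y * y) + (y - algebraMap F[X] R b) * (y + algebraMap F[X] R b) := by ring
  rw [h4]
  exact dvd_add hy (hb.mul_right _)

end Pool.Agent.Helper96.PS
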