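import Pool.Agent.Helper96.PS.LocInd
import Pool.Agent.Helper96.PS.Parity
import Pool.Agent.Helper96.PS.ResVal
import Pool.Agent.Helper96.PS.TypeNon

/-!
# PS-C6c: the local image at a twisted place

`f = (x - ρ) h` over `R`, `h` monic of even degree `2g`, `h̄` irreducible over `κ = R/ϖ`, `h̄(ρ̄) ≠ 0` (automatic for `2g ≥ 2`), `c = ε₁ ϖ` (`ε₁` a unit). `m₁ = (ϖ, h)`, `wv` the valuation at `m₁`, `ev` the evaluation at `ρ`: `M[x]/(f) → M`. `t = h(ρ) ∈ R^*`.
CLAIM: for `α ∈ LocIm f c`: either `wv α` is even and `ev α` is a square, or `wv α` is odd and `t · ev α` is a square. In particular: `wv α` even implies `ev α` a square.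

Proof. `locIm_le` with `S` = the set of these `α` (a subgroup; contains the squares). Non-integral generators are squares (`isSquare_of_non`, `N = 2g + 1` odd). Pure generators `β = (-c)^m a(θ)`, `ā = v̄^r`, `d = deg v`, `m = d r`.
`wv(c) = 1`: `wv(ϖ) = 1` as `ϖ ∈ m₁`, `ϖ ∉ m₁² + (f)` (modulo `f₂ = x - ρ`, a unit at `m₁`, the ring `R[x]/(h)` has maximal ideal `(ϖ)` and `ϖ ∉ (ϖ²)`; precisely if `C ϖ ∈ (ϖ, h)² + (f)` then in `R[x]/(h)`: `ϖ ∈ ϖ² R[x]/(h)`, false). `wv (-ε₁) = 0`.
A unit `y ∈ R^*` is a square in `M` iff its residue is (`CData.isSquare_iff'`).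
(1) `v̄ = x - ρ̄`: `a ∉ m₁`, `wv β = m`. `N(β)` is a square (`isSquare_norm_of_mem_locIm`), `M[x]/(f) = M × M[x]/(h)` (`x - ρ`, `h` coprime over `M`): `N(β) = ev(β) · N_{M[x]/(h)}(β)`, `N_{M[x]/(h)}(β) = (-c)^{2g m} N_{R[x]/(h)}(a)`; `N_{R[x]/(h)}(a) = ± N_{R[x]/(a)}(h)` (sign `(-1)^{2g m} = 1`), a unit with residue
  `N(h̄) = h̄(ρ̄)^m` in `κ[x]/((x - ρ̄)^m)`. So `ev(β) · h(ρ)^m` is a square: `m` even: `(0, 1)`, `m` odd: `(1, t)`.
(2) `v̄ = h̄` (`d = 2g`, `m = 2 g r`): `m₁ = (ϖ, v)`; `N_{R[x]/(a)}(f) = ε ϖ^{d s}` (`exists_norm_eq`), `wv(a(θ)) = s` (`val_eq`; `f ∉ m₁²` as `f̄ = (x - ρ̄)h̄` is not divisible by `h̄²`), `s + r` even (`even_of_dvd`, `j = 1`). `wv β = m + s ≡ s ≡ r`. `ev β = (-c)^m a(ρ)`, `m` even, `a(ρ)` a unit with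
  residue `h̄(ρ̄)^r`. So `(r, t^r)`.
(3) `v̄ ≠ x - ρ̄, h̄` (`v` monic irreducible): `a ∉ m₁`, `wv(a(θ)) = 0`. `f̄, ā` are coprime, `N_{R[x]/(a)}(f)` is a unit (`s = 0`), so `r` is even (`even_of_dvd`): `wv β = m = d r` even, `ev β = (-c)^m a(ρ)` with residue of `a(ρ)` equal to `v̄(ρ̄)^r`, a nonzero square. `(0, 1)`.
-/

namespace Pool.Agent.Helper96.PS

open Polynomial

section aux

private theorem tw_sq_unit {M : Type*} [Field M] (u : Mˣ) : IsSquare u ↔ IsSquare (u : M) := by
  constructor
  · rintro ⟨v, rfl⟩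
    exact ⟨v, by push_cast; rfl⟩
  · rintro ⟨y, hy⟩
    have hy0 : y ≠ 0 := by
      rintro rfl
      rw [mul_zero] at hy
      exact u.ne_zero hy
    exact ⟨Units.mk0 y hy0, Units.ext hy⟩

private theorem tw_eq_of_dvd_pow {κ : Type*} [Field κ] {h v : κ[X]} (hh : Irreducible h)
    (hv : Irreducible v) (hhm : h.Monic) (hvm : v.Monic) {r : ℕ} (hd : h ∣ v ^ r) : v = h := by
  have h1 : h ∣ v := hh.prime.dvd_of_dvd_pow hd
  have h2 : Associated h v := hh.associated_of_dvd hv h1
  exact (eq_of_monic_of_associated hhm hvm h2).symm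

private theorem tw_eval_ne {κ : Type*} [Field κ] {v : κ[X]} (hv : Irreducible v) (hvm : v.Monic)
    {ρ : κ} (hne : v ≠ X - C ρ) : v.eval ρ ≠ 0 := by
  intro h0
  have h1 : X - C ρ ∣ v := dvd_iff_isRoot.2 h0
  have h2 : Associated (X - C ρ) v := (irreducible_X_sub_C ρ).associated_of_dvd hv h1
  exact hne (eq_of_monic_of_associated (monic_X_sub_C ρ) hvm h2).symm

private theorem tw_not_sq {κ : Type*} [Field κ] {h : κ[X]} (hh : Irreducible h)
    (hd : 2 ≤ h.natDegree) (ρ : κ) : ¬ h ^ 2 ∣ (X - C ρ) * h := by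
  intro h1
  rw [pow_two] at h1
  have h2 : h ∣ X - C ρ := (mul_dvd_mul_iff_right hh.ne_zero).1 h1
  have h3 := natDegree_le_of_dvd h2 (X_sub_C_ne_zero ρ)
  rw [natDegree_X_sub_C] at h3
  omega

private theorem tw_coprime {κ : Type*} [Field κ] {h v : κ[X]} (hh : Irreducible h)
    (hv : Irreducible v) (hhm : h.Monic) (hvm : v.Monic) {ρ : κ} (hne : v ≠ X - C ρ) (hne' : v ≠ h)
    (r : ℕ) : IsCoprime (v ^ r) ((X - C ρ) * h) := by
  refine IsCoprime.pow_left (IsCoprime.mul_right ?_ ?_)
  · rw [hv.coprime_iff_not_dvd]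
    intro h1
    have h2 : Associated v (X - C ρ) := hv.associated_of_dvd (irreducible_X_sub_C ρ) h1
    exact hne (eq_of_monic_of_associated hvm (monic_X_sub_C ρ) h2)
  · rw [hv.coprime_iff_not_dvd]
    intro h1
    have h2 : Associated v h := hv.associated_of_dvd hh h1
    exact hne' (eq_of_monic_of_associated hvm hhm h2)

variable {R M : Type*} [CommRing R] [IsDomain R] [Field M] [Algebra R M] {ϖ : R}

omit [IsDomain R] in
private theorem tw_mem {h P : R[X]} (hP : P ∈ Ideal.span {C ϖ, h}) :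
    h.map (Ideal.Quotient.mk (Ideal.span {ϖ})) ∣ P.map (Ideal.Quotient.mk (Ideal.span {ϖ})) := by
  rw [Ideal.mem_span_pair] at hP
  obtain ⟨a, b, rfl⟩ := hP
  rw [Polynomial.map_add, Polynomial.map_mul, Polynomial.map_mul, Polynomial.map_C]
  have h1 : Ideal.Quotient.mk (Ideal.span {ϖ}) ϖ = 0 :=
    Ideal.Quotient.eq_zero_iff_mem.2 (Ideal.mem_span_singleton_self ϖ)
  rw [h1, C_0, mul_zero, zero_add]
  exact Dvd.intro_left _ rfl

omit [IsDomain R] in
private theorem tw_mem_sq {h P : R[X]} (hP : P ∈ (Ideal.span {C ϖ, h}) ^ 2) :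
    (h.map (Ideal.Quotient.mk (Ideal.span {ϖ}))) ^ 2 ∣
      P.map (Ideal.Quotient.mk (Ideal.span {ϖ})) := by
  have h1 : Ideal.map (mapRingHom (Ideal.Quotient.mk (Ideal.span {ϖ})))
      (Ideal.span {C ϖ, h}) ≤ Ideal.span {h.map (Ideal.Quotient.mk (Ideal.span {ϖ}))} := by
    rw [Ideal.map_le_iff_le_comap]
    intro Q hQ
    rw [Ideal.mem_comap, Ideal.mem_span_singleton]
    exact tw_mem hQ
  have h2 := Ideal.mem_map_of_mem (mapRingHom (Ideal.Quotient.mk (Ideal.span {ϖ}))) hP
  rw [Ideal.map_pow] at h2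
  have h3 := (Ideal.pow_right_mono h1 2) h2
  rw [Ideal.span_singleton_pow, Ideal.mem_span_singleton] at h3
  exact h3

private theorem tw_map_mk {A B : Type*} [CommRing A] [CommRing B] (φ : A →+* B) (p : A[X])
    (q : B[X]) (h : q ∣ p.map φ) (P : A[X]) :
    AdjoinRoot.map φ p q h (AdjoinRoot.mk p P) = AdjoinRoot.mk q (P.map φ) := by
  rw [AdjoinRoot.map, AdjoinRoot.lift_mk, ← eval₂_map, ← AdjoinRoot.algebraMap_eq, ← aeval_def,
    AdjoinRoot.aeval_eq]

private theorem tw_unif (hC : CData ϖ M) {f h : R[X]} (hh : h.Monic) (hdeg : h.natDegree ≠ 0)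
    (hfh : h ∣ f) {ε : R} (hε : IsUnit ε) :
    C (ε * ϖ) ∉ (Ideal.span {C ϖ, h}) ^ 2 ⊔ Ideal.span {f} := by
  intro hm
  have h1 : Ideal.map (AdjoinRoot.mk h) (Ideal.span {C ϖ, h}) ≤
      Ideal.span {AdjoinRoot.of h ϖ} := by
    rw [Ideal.map_le_iff_le_comap, Ideal.span_le]
    rintro Q hQ
    rw [Set.mem_insert_iff, Set.mem_singleton_iff] at hQ
    rw [SetLike.mem_coe, Ideal.mem_comap]
    rcases hQ with rfl | rfl
    · exact Ideal.mem_span_singleton_self _
    · rw [AdjoinRoot.mk_self]
      exact Ideal.zero_mem _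
  have h2 : Ideal.map (AdjoinRoot.mk h) ((Ideal.span {C ϖ, h}) ^ 2 ⊔ Ideal.span {f}) ≤
      Ideal.span {(AdjoinRoot.of h ϖ) ^ 2} := by
    rw [Ideal.map_sup, sup_le_iff]
    constructor
    · rw [Ideal.map_pow, ← Ideal.span_singleton_pow]
      exact Ideal.pow_right_mono h1 2
    · rw [Ideal.map_span, Set.image_singleton, AdjoinRoot.mk_eq_zero.2 hfh,
        Ideal.span_singleton_eq_bot.2 rfl]
      exact bot_le
  have h3 := h2 (Ideal.mem_map_of_mem (AdjoinRoot.mk h) hm)
  rw [Ideal.mem_span_singleton] at h3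
  obtain ⟨z, hz⟩ := h3
  have h4 : AdjoinRoot.mk h (C (ε * ϖ)) = algebraMap R (AdjoinRoot h) (ε * ϖ) := rfl
  have h5 : (AdjoinRoot.of h ϖ) ^ 2 = algebraMap R (AdjoinRoot h) (ϖ ^ 2) := by
    rw [map_pow]
    rfl
  rw [h4, h5] at hz
  have h6 := (congrArg (Algebra.norm R) hz).trans (map_mul (Algebra.norm R) _ _)
  rw [Algebra.norm_algebraMap_of_basis (AdjoinRoot.powerBasis' hh).basis,
    Algebra.norm_algebraMap_of_basis (AdjoinRoot.powerBasis' hh).basis, Fintype.card_fin,
    AdjoinRoot.powerBasis'_dim] at h6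
  have h7 : ϖ ≠ 0 := hC.unif.ne_zero
  have h8 : ε ^ h.natDegree = ϖ ^ h.natDegree * Algebra.norm R z := by
    have h9 : ϖ ^ h.natDegree ≠ 0 := pow_ne_zero _ h7
    apply mul_left_cancel₀ h9
    calc ϖ ^ h.natDegree * ε ^ h.natDegree = (ε * ϖ) ^ h.natDegree := by rw [mul_pow]; ring
      _ = (ϖ ^ 2) ^ h.natDegree * Algebra.norm R z := h6
      _ = _ := by ring
  have h10 : ϖ ∣ ε ^ h.natDegree := by
    rw [h8]
    exact Dvd.dvd.mul_right (dvd_pow_self ϖ hdeg) _
  exact hC.unif.not_isUnit (isUnit_of_dvd_unit h10 (hε.pow _))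

end aux

variable {R M : Type*} [CommRing R] [IsDomain R] [Field M] [Algebra R M] {ϖ : R}

theorem isSquare_ev_of_even (hC : CData ϖ M) (h2 : IsUnit (2 : R)) {f h : R[X]} {ρ : R} {g : ℕ}
    (hg : 1 ≤ g) (hh : h.Monic) (hdeg : h.natDegree = 2 * g)
    (hirr : Irreducible (h.map (Ideal.Quotient.mk (Ideal.span {ϖ})))) (hfh : f = (X - C ρ) * h)
    {fM : M[X]} (hfM : fM = f.map (algebraMap R M)) {m : Ideal R[X]}
    (hm : m = Ideal.span {C ϖ, h}) {wv : (AdjoinRoot fM)ˣ →* Multiplicative ℤ}
    (hw : IsValM fM f m wv) {c ε₁ : R} (hε₁ : IsUnit ε₁) (hc : c = ε₁ * ϖ)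
    (hx : fM.eval₂ (RingHom.id M) (algebraMap R M ρ) = 0)
    {α : (AdjoinRoot fM)ˣ} (hα : α ∈ LocIm fM (algebraMap R M c))
    (heven : Even (Multiplicative.toAdd (wv α))) :
    IsSquare (evR (algebraMap R M ρ) hx (α : AdjoinRoot fM)) := by
  classical
  have hmax := hC.isMaximal
  let : Field (R ⧸ Ideal.span {ϖ}) := Ideal.Quotient.field _
  set q := Ideal.Quotient.mk (Ideal.span {ϖ}) with hq
  -- basics
  have hinj : Function.Injective (algebraMap R M) := by
    have := hC.frac
    exact IsFractionRing.injective R M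
  have hϖ0 : ϖ ≠ 0 := hC.unif.ne_zero
  have hϖM : algebraMap R M ϖ ≠ 0 := fun h0 => hϖ0 (hinj (by rw [h0, map_zero]))
  have hunit : ∀ z : R, q z ≠ 0 → IsUnit z := by
    intro z hz
    rw [hC.isUnit_iff]
    intro hd
    exact hz (Ideal.Quotient.eq_zero_iff_mem.2 (Ideal.mem_span_singleton.2 hd))
  have hhm : (h.map q).Monic := hh.map q
  have hdegq : (h.map q).natDegree = 2 * g := by rw [hh.natDegree_map, hdeg]
  have hht : (h.map q).eval (q ρ) ≠ 0 := by
    refine tw_eval_ne hirr hhm ?_
    intro h0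
    rw [h0, natDegree_X_sub_C] at hdegq
    omega
  set t : R := h.eval ρ with ht
  have hqt : q t = (h.map q).eval (q ρ) := (eval_map_apply q ρ).symm
  have hqt0 : q t ≠ 0 := by rw [hqt]; exact hht
  have htu : IsUnit t := hunit t hqt0
  have htM : algebraMap R M t ≠ 0 := (htu.map (algebraMap R M)).ne_zero
  have hcM : algebraMap R M c ≠ 0 := by
    rw [hc, map_mul]
    exact mul_ne_zero (hε₁.map (algebraMap R M)).ne_zero hϖM
  have hfm : f ∈ m := by
    rw [hm, hfh]
    exact Ideal.mul_mem_left _ _ (Ideal.subset_span (by simp))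
  have hfmon : f.Monic := by
    rw [hfh]
    exact (monic_X_sub_C ρ).mul hh
  have hfdeg : f.natDegree = 2 * g + 1 := by
    rw [hfh, (monic_X_sub_C ρ).natDegree_mul hh, natDegree_X_sub_C, hdeg]
    ring
  have hfMmon : fM.Monic := by
    rw [hfM]
    exact hfmon.map _
  have hfMdeg : fM.natDegree = 2 * g + 1 := by rw [hfM, hfmon.natDegree_map, hfdeg]
  have hreg : f ∉ m ^ 2 := by
    intro h0
    rw [hm] at h0
    have h1 := tw_mem_sq h0
    rw [hfh, Polynomial.map_mul, Polynomial.map_sub, Polynomial.map_X, Polynomial.map_C] at h1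
    exact tw_not_sq hirr (by rw [hdegq]; omega) _ h1
  -- the subgroup
  let ev : AdjoinRoot fM →* M := (evR (algebraMap R M ρ) hx).toMonoidHom
  have hev : ∀ P : M[X], ev (AdjoinRoot.mk fM P) = P.eval (algebraMap R M ρ) := by
    intro P
    change AdjoinRoot.lift (RingHom.id M) _ hx (AdjoinRoot.mk fM P) = _
    rw [AdjoinRoot.lift_mk]
    rfl
  let tM : Mˣ := Units.mk0 (algebraMap R M t) htM
  let ψ : (AdjoinRoot fM)ˣ →* Mˣ := Units.map ev * (zpowersHom Mˣ tM).comp wv
  have hψ : ∀ β : (AdjoinRoot fM)ˣ, ψ β = Units.map ev β * tM ^ Multiplicative.toAdd (wv β) := by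
    intro β
    rfl
  have hψn : ∀ (β : (AdjoinRoot fM)ˣ) (k : ℕ), wv β = Multiplicative.ofAdd (k : ℤ) →
      ((ψ β : Mˣ) : M) = ev β * (algebraMap R M t) ^ k := by
    intro β k hk
    rw [hψ, hk, toAdd_ofAdd, zpow_natCast]
    rfl
  set S : Subgroup (AdjoinRoot fM)ˣ := (Subgroup.square Mˣ).comap ψ with hS
  have hSmem : ∀ β, β ∈ S ↔ IsSquare ((ψ β : Mˣ) : M) := by
    intro β
    rw [hS, Subgroup.mem_comap, Subgroup.mem_square, tw_sq_unit]
  have hsqS : ∀ b, b ^ 2 ∈ S := by
    intro b
    rw [hSmem, map_pow]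
    exact ⟨(ψ b : M), by push_cast; ring⟩
  -- the valuation of `-c`
  have hγu : IsUnit (AdjoinRoot.mk fM (C (-algebraMap R M c))) :=
    (isUnit_C.2 (isUnit_iff_ne_zero.2 (neg_ne_zero.2 hcM))).map _
  obtain ⟨γ, hγ⟩ := hγu
  have hwγ : wv γ = Multiplicative.ofAdd ((1 : ℕ) : ℤ) := by
    rw [hw (C (-c)) γ (by rw [hγ, Polynomial.map_C, (algebraMap R M).map_neg]) 1]
    have h1 : C (-c) = C (-ε₁ * ϖ) := by rw [hc]; ring_nf
    refine ⟨?_, ?_⟩
    · rw [pow_one, hm, h1, C_mul]
      exact Ideal.mem_sup_left (Ideal.mul_mem_left _ _ (Ideal.subset_span (by simp)))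
    · rw [hm, h1]
      exact tw_unif hC hh (by rw [hdeg]; omega) ⟨X - C ρ, by rw [hfh]; ring⟩ hε₁.neg
  have hle : LocIm fM (algebraMap R M c) ≤ S := by
    refine locIm_le hC hcM S hsqS ?_ ?_
    · intro a v r V β ha hv hvirr hr hav hcop hdvd hβ
      have haM : (a.map (algebraMap R M)).Monic := ha.map _
      have hvm : (v.map q).Monic := hv.map q
      have hm0 : a.natDegree = r * v.natDegree := by
        rw [← ha.natDegree_map q, hav, hvm.natDegree_pow, hv.natDegree_map]
      -- the unit `a(θ)`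
      have hau : IsUnit (AdjoinRoot.mk fM (a.map (algebraMap R M))) := by
        have h1 : IsUnit (β : AdjoinRoot fM) := β.isUnit
        rw [hβ, map_mul] at h1
        exact isUnit_of_mul_isUnit_right h1
      obtain ⟨β', hβ'⟩ := hau
      have hβγ : β = γ ^ a.natDegree * β' := by
        apply Units.ext
        rw [Units.val_mul, Units.val_pow_eq_pow_val, hγ, hβ', hβ, map_mul, C_pow, map_pow]
      have hwβ : ∀ s : ℕ, wv β' = Multiplicative.ofAdd (s : ℤ) →
          wv β = Multiplicative.ofAdd ((a.natDegree + s : ℕ) : ℤ) := by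
        intro s hs
        rw [hβγ, map_mul, map_pow, hwγ, hs, ← ofAdd_nsmul, ← ofAdd_add]
        congr 1
        push_cast
        ring
      have hevβ : ev β = (-algebraMap R M c) ^ a.natDegree * algebraMap R M (a.eval ρ) := by
        rw [hβ, hev, eval_mul, eval_C, eval_map_apply]
      have hqa : q (a.eval ρ) = ((v.map q).eval (q ρ)) ^ r := by
        rw [← eval_map_apply q ρ, hav, eval_pow]
      rw [hSmem]
      by_cases hv1 : v.map q = X - C (q ρ)
      · -- `v = x - ρ`
        have hvd : v.natDegree = 1 := by rw [← hv.natDegree_map q, hv1, natDegree_X_sub_C]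
        rw [hvd, mul_one] at hm0
        have ham : a ∉ m := by
          intro h0
          rw [hm] at h0
          have h1 := tw_mem h0
          rw [hav] at h1
          have h2 := tw_eq_of_dvd_pow hirr hvirr hhm hvm h1
          rw [← h2, hv1, natDegree_X_sub_C] at hdegq
          omega
        have hwβ' : wv β' = Multiplicative.ofAdd ((0 : ℕ) : ℤ) := by
          rw [val_eq_zero hfm hw ham hβ']
          rfl
        rw [hψn β _ (hwβ 0 hwβ'), add_zero]
        set T : R := resultant h a with hT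
        have hqT : q T = (q t) ^ r := by
          rw [hT, ← resultant_map_map, hav, hv1, hm0, resultant_X_sub_C_pow_right _ _ _ _
            (natDegree_map_le), hdeg, mul_assoc, pow_mul, neg_one_sq, one_pow, one_mul, hqt]
        have hTu : IsUnit T := hunit T (by rw [hqT]; exact pow_ne_zero _ hqt0)
        have hTM : algebraMap R M T ≠ 0 := (hTu.map (algebraMap R M)).ne_zero
        have hs1 : IsSquare (algebraMap R M (T * t ^ r)) := by
          rw [hC.isSquare_iff' h2 (hTu.mul (htu.pow r))]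
          refine ⟨(q t) ^ r, ?_⟩
          rw [map_mul, map_pow]
          change q T * (q t) ^ r = _
          rw [hqT]
        have hmemL : β ∈ LocIm fM (algebraMap R M c) := by
          refine Subgroup.subset_closure (Or.inr ⟨a.map (algebraMap R M), V, haM, hcop, hdvd, ?_⟩)
          rw [ha.natDegree_map, hβ]
        have hN := isSquare_norm_of_mem_locIm hfMmon (by rw [hfMdeg]; exact ⟨g, rfl⟩) hcM hmemL
        have hu0 : (-algebraMap R M c) ^ a.natDegree ≠ 0 := pow_ne_zero _ (neg_ne_zero.2 hcM)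
        have hN2 : Algebra.norm M (β : AdjoinRoot fM) = ev β *
            (((-algebraMap R M c) ^ a.natDegree) ^ (2 * g) * algebraMap R M T) := by
          have e1 : fM = (X - C (algebraMap R M ρ)) * h.map (algebraMap R M) := by
            rw [hfM, hfh, Polynomial.map_mul, Polynomial.map_sub, Polynomial.map_X,
              Polynomial.map_C]
          have e2 : fM.natDegree = (X - C (algebraMap R M ρ)).natDegree +
              (h.map (algebraMap R M)).natDegree := by
            rw [e1]
            exact (monic_X_sub_C _).natDegree_mul (hh.map _)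
          rw [hβ, hev, norm_mk hfMmon, e2]
          conv_lhs => rw [e1]
          rw [resultant_mul_left _ _ _ _ le_rfl, natDegree_X_sub_C,
            resultant_X_sub_C_left _ _ _ le_rfl, resultant_C_mul_right, natDegree_C_mul hu0,
            hh.natDegree_map, ha.natDegree_map, resultant_map_map, hdeg, hT, hdeg]
        rw [hN2] at hN
        have e3 : ev β * algebraMap R M t ^ a.natDegree =
            (ev β * (((-algebraMap R M c) ^ a.natDegree) ^ (2 * g) * algebraMap R M T)) *
              algebraMap R M (T * t ^ r) /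
              ((((-algebraMap R M c) ^ a.natDegree) ^ g * algebraMap R M T) *
                (((-algebraMap R M c) ^ a.natDegree) ^ g * algebraMap R M T)) := by
          have hd0 : ((((-algebraMap R M c) ^ a.natDegree) ^ g * algebraMap R M T) *
                (((-algebraMap R M c) ^ a.natDegree) ^ g * algebraMap R M T)) ≠ 0 :=
            mul_ne_zero (mul_ne_zero (pow_ne_zero _ hu0) hTM) (mul_ne_zero (pow_ne_zero _ hu0) hTM)
          rw [eq_div_iff hd0, map_mul, map_pow, ← hm0]
          ring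
        rw [e3]
        exact (hN.mul hs1).div ⟨_, rfl⟩
      · by_cases hv2 : v.map q = h.map q
        · -- `v = h`
          have hav' : a.map q = h.map q ^ r := by rw [hav, hv2]
          have hvd : v.natDegree = 2 * g := by rw [← hv.natDegree_map q, hv2, hdegq]
          rw [hvd] at hm0
          have hn0 : Algebra.norm R (AdjoinRoot.mk a f) ≠ 0 := by
            intro h0
            have h1 := norm_map (algebraMap R M) ha (AdjoinRoot.mk a f)
            rw [h0, map_zero, tw_map_mk] at h1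
            have h3 : IsUnit (AdjoinRoot.mk (a.map (algebraMap R M)) (f.map (algebraMap R M))) := by
              obtain ⟨u1, u2, hu⟩ := hcop
              have h4 := congrArg (AdjoinRoot.mk (a.map (algebraMap R M))) hu
              rw [map_add, map_mul, map_mul, AdjoinRoot.mk_self, mul_zero, zero_add, map_one,
                hfM] at h4
              exact IsUnit.of_mul_eq_one_right _ h4
            exact (h3.map (Algebra.norm M)).ne_zero h1
          obtain ⟨s, ε, hε, hN⟩ := exists_norm_eq hC ha hh hirr hav' (AdjoinRoot.mk a f) hn0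
          have hws := val_eq hC hfmon hfM hh hirr hm hfm hreg hw ha hav' hε hN hβ'
          have hpar : Even (s + 1 * r) := by
            refine even_of_dvd hC ha hh hirr hav' hε hε₁ hN (V := V) ?_
            rw [pow_one, ← hc, ← hfM]
            exact hdvd
          rw [hψn β _ (hwβ s hws), hevβ]
          have hqa' : q (a.eval ρ * t ^ (a.natDegree + s)) = (q t) ^ (r + (a.natDegree + s)) := by
            rw [map_mul, map_pow, hqa, hv2, ← hqt, ← pow_add]
          have hu1 : IsUnit (a.eval ρ * t ^ (a.natDegree + s)) :=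
            hunit _ (by rw [hqa']; exact pow_ne_zero _ hqt0)
          have hev2 : Even (r + (a.natDegree + s)) := by
            obtain ⟨k, hk⟩ := hpar
            refine ⟨g * r + k, ?_⟩
            rw [hm0]
            have : s + r = k + k := by rw [← hk]; ring
            calc r + (r * (2 * g) + s) = (s + r) + 2 * (g * r) := by ring
              _ = _ := by rw [this]; ring
          have hs2 : IsSquare (algebraMap R M (a.eval ρ * t ^ (a.natDegree + s))) := by
            rw [hC.isSquare_iff' h2 hu1]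
            change IsSquare (q _)
            rw [hqa']
            exact hev2.isSquare_pow _
          have hs3 : IsSquare ((-algebraMap R M c) ^ a.natDegree) := by
            refine Even.isSquare_pow ?_ _
            rw [hm0]
            exact ⟨r * g, by ring⟩
          rw [mul_assoc, ← map_pow, ← map_mul]
          exact hs3.mul hs2
        · -- other places
          have ham : a ∉ m := by
            intro h0
            rw [hm] at h0
            have h1 := tw_mem h0
            rw [hav] at h1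
            exact hv2 (tw_eq_of_dvd_pow hirr hvirr hhm hvm h1)
          have hwβ' : wv β' = Multiplicative.ofAdd ((0 : ℕ) : ℤ) := by
            rw [val_eq_zero hfm hw ham hβ']
            rfl
          have hcop' : IsCoprime (a.map q) (f.map q) := by
            rw [hav, hfh, Polynomial.map_mul, Polynomial.map_sub, Polynomial.map_X,
              Polynomial.map_C]
            exact tw_coprime hirr hvirr hhm hvm hv1 hv2 r
          have hNu : IsUnit (Algebra.norm R (AdjoinRoot.mk a f)) :=
            (isUnit_mk_of_coprime hC ha hcop').map _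
          have hpar : Even (0 + 1 * r) := by
            refine even_of_dvd hC ha hv hvirr hav hNu hε₁ (by rw [mul_zero, pow_zero, mul_one])
              (V := V) ?_
            rw [pow_one, ← hc, ← hfM]
            exact hdvd
          rw [zero_add, one_mul] at hpar
          obtain ⟨k, hk⟩ := hpar
          rw [hψn β _ (hwβ 0 hwβ'), hevβ, add_zero]
          have hv0 : (v.map q).eval (q ρ) ≠ 0 := tw_eval_ne hvirr hvm hv1
          have hu1 : IsUnit (a.eval ρ) := hunit _ (by rw [hqa]; exact pow_ne_zero _ hv0)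
          have hs2 : IsSquare (algebraMap R M (a.eval ρ)) := by
            rw [hC.isSquare_iff' h2 hu1]
            change IsSquare (q _)
            rw [hqa]
            exact Even.isSquare_pow ⟨k, hk⟩ _
          have he : Even a.natDegree := by
            rw [hm0, hk]
            exact ⟨k * v.natDegree, by ring⟩
          have hs3 : IsSquare ((-algebraMap R M c) ^ a.natDegree) := he.isSquare_pow _
          have hs4 : IsSquare ((algebraMap R M t) ^ a.natDegree) := he.isSquare_pow _
          exact (hs3.mul hs2).mul hs4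
    · intro b k U V β hk hb hU hUm hcop hdvd hβ
      obtain ⟨b', hb'⟩ := isSquare_of_non hC h2 hfmon (by rw [hfdeg]; exact ⟨g, rfl⟩) hfM hcM hk hb
        hU hUm hcop hdvd hβ
      rw [hb']
      exact hsqS b'
  have hα' := (hSmem α).1 (hle hα)
  rw [hψ] at hα'
  have e1 : IsSquare (tM ^ Multiplicative.toAdd (wv α)) := heven.isSquare_zpow tM
  have e2 : IsSquare ((Units.map ev α : Mˣ)) := by
    have e3 := ((tw_sq_unit _).2 hα').div e1
    rwa [mul_div_cancel_right] at e3
  exact (tw_sq_unit _).1 e2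

end Pool.Agent.Helper96.PS
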