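import Pool.Agent.Helper96.PS.EvenLoc
import Pool.Agent.Helper96.PS.TwLoc
import Pool.Agent.Helper96.PS.SqGlob
import Pool.Agent.Helper96.PS.NormSq
import Pool.Agent.Helper96.PS.NormVal

/-!
# PS-C13: Selmer elements of `y² = u f(x)` satisfy `TwSel`

`f` good, `u ∈ A` nonzero, `α ∈ O` nonzero with image `αK`, `IsSel (fK f) u αK`.
* `norm`: `isSquare_norm_of_sel` (`fK f` monic of degree `2g+1`): `N(αK)` is a square in `K`; `N(αK)` is the image of `N(α) ∈ A` (`norm_map`), and `A` is integrally closed: `N(α)` is a square in `A`.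
* `even`: `π ∤ u`, `P ∋ π` maximal. `v = (π)`: `LData π R M` for the completion (`lData_adicCompletion`). `exists_up_ideal`: `m'`; `reg_up`; `exists_isValM`: `wv`; `u` is a unit in `R` (`inj`); `LocSel` at `v` is `bc M (fK f) αK ∈ LocIm (…) (u)` with `u ∈ K → M` equal to the image of `u ∈ A → R` (`comp`); `even_val_of_mem_locIm`; `evenAt_iff_val`.
* `tw`: TypeS at `(π, r, q)`, `π ∣ u`, `π² ∤ u`, `EvenAt (P1 f π q) α`. `u = ε₁ ϖ` in `R`, `ε₁` a unit (`u = π u'`, `π ∤ u'`). `exists_rho`: `f = (x - ρ) h'`. `m' = (ϖ, h')` in `R[x]` is maximal, its preimage is the preimage of `P1` (`h' ≡ q mod ϖ`), regular; `wv`. `evenAt_iff_val`: `wv (bc αK)` even. `isSquare_ev_of_even`: `ev` is a square. `evenAt_P2` (from the norm) and `sqLoc_of_ev`: `SqLoc (P2 f π r) α`.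
-/

namespace Pool.Agent.Helper96.PS

open Polynomial IsDedekindDomain

variable {F : Type*} [Field F] {g n : ℕ} {w : F[X]} {f : F[X][X]}

/-- a square in the field of fractions -/
private theorem st_isSquare_of_frac {a : F[X]} (h : IsSquare (algebraMap F[X] (RatFunc F) a)) :
    IsSquare a := by
  obtain ⟨x, hx⟩ := h
  have h1 : IsIntegral F[X] (x ^ 2) := by
    rw [pow_two, ← hx]
    exact isIntegral_algebraMap
  obtain ⟨y, hy⟩ := IsIntegrallyClosed.exists_algebraMap_eq_of_isIntegral_pow
    (R := F[X]) (K := RatFunc F) (by norm_num : 0 < 2) h1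
  refine ⟨y, ?_⟩
  apply IsFractionRing.injective F[X] (RatFunc F)
  rw [hx, ← hy, map_mul]

/-- The ideal generated by the uniformizer and a polynomial which is irreducible modulo the
uniformizer. -/
private theorem st_eq_span {R M : Type*} [CommRing R] [IsDomain R] [Field M] [Algebra R M] {ϖ : R}
    (hC : CData ϖ M) {v : R[X]}
    (hirr : Irreducible (v.map (Ideal.Quotient.mk (Ideal.span {ϖ})))) {m : Ideal R[X]}
    (hm : m.IsMaximal) (hϖ : C ϖ ∈ m) (hv : v ∈ m) : m = Ideal.span {C ϖ, v} := by
  have hle : Ideal.span {C ϖ, v} ≤ m := by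
    rw [Ideal.span_le]
    rintro x (rfl | rfl)
    · exact hϖ
    · exact hv
  have hmaxR := hC.isMaximal
  let _ := Ideal.Quotient.field (Ideal.span {ϖ})
  have hmax : (Ideal.span {v.map (Ideal.Quotient.mk (Ideal.span {ϖ}))}).IsMaximal :=
    PrincipalIdealRing.isMaximal_of_irreducible hirr
  have hsurj : Function.Surjective (mapRingHom (Ideal.Quotient.mk (Ideal.span {ϖ}))) :=
    map_surjective _ Ideal.Quotient.mk_surjective
  have hcm := Ideal.comap_isMaximal_of_surjective
    (mapRingHom (Ideal.Quotient.mk (Ideal.span {ϖ}))) hsurj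
    (K := Ideal.span {v.map (Ideal.Quotient.mk (Ideal.span {ϖ}))})
  have hle' : (Ideal.span {v.map (Ideal.Quotient.mk (Ideal.span {ϖ}))}).comap
      (mapRingHom (Ideal.Quotient.mk (Ideal.span {ϖ}))) ≤ Ideal.span {C ϖ, v} := by
    intro x hx
    rw [Ideal.mem_comap, Ideal.mem_span_singleton] at hx
    obtain ⟨y, hy⟩ := hx
    obtain ⟨z, rfl⟩ := hsurj y
    have h1 : (x - v * z).map (Ideal.Quotient.mk (Ideal.span {ϖ})) = 0 := by
      rw [Polynomial.map_sub, Polynomial.map_mul]
      rw [coe_mapRingHom] at hy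
      rw [hy, sub_self]
    have h2 : C ϖ ∣ x - v * z := by
      rw [C_dvd_iff_dvd_coeff]
      intro i
      rw [← Ideal.mem_span_singleton, ← Ideal.Quotient.eq_zero_iff_mem, ← coeff_map, h1, coeff_zero]
    obtain ⟨t, ht⟩ := h2
    have h3 : x = t * C ϖ + z * v := by
      linear_combination ht
    rw [h3]
    exact Ideal.add_mem _ (Ideal.mul_mem_left _ _ (Ideal.subset_span (by simp)))
      (Ideal.mul_mem_left _ _ (Ideal.subset_span (by simp)))
  have heq := hcm.eq_of_le hm.ne_top (hle'.trans hle)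
  exact le_antisymm (heq ▸ hle') hle

theorem twSel_of_isSel (h2 : (2 : F) ≠ 0) (h : Good g n w f) {u : F[X]} (hu : u ≠ 0)
    {α : AdjoinRoot f} (hα : α ≠ 0) {αK : (AdjoinRoot (fK f))ˣ}
    (hαK : (αK : AdjoinRoot (fK f)) = toK f α)
    (hs : IsSel (fK f) (algebraMap F[X] (RatFunc F) u) αK) : TwSel g f u α := by
  have hfm := h.monic
  have hdeg : f.natDegree = 2 * g + 1 := h.natDegree
  have huK : algebraMap F[X] (RatFunc F) u ≠ 0 := by
    rw [Ne, map_eq_zero_iff _ (IsFractionRing.injective F[X] (RatFunc F))]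
    exact hu
  have hN : IsSquare (Algebra.norm F[X] α) := by
    apply st_isSquare_of_frac
    have h3 := isSquare_norm_of_sel h2 (f := fK f) (hfm.map _)
      (by rw [hfm.natDegree_map, hdeg]; exact ⟨g, rfl⟩) huK hs.1
    have h4 := norm_map (algebraMap F[X] (RatFunc F)) hfm α
    rw [hαK] at h3
    rw [← h4]
    exact h3
  -- the local data at an irreducible polynomial
  have key : ∀ (π : F[X]) (hπ : Irreducible π), ∃ v : HeightOneSpectrum F[X],
      v.asIdeal = Ideal.span {π} := by
    intro π hπ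
    refine ⟨⟨Ideal.span {π}, ?_, ?_⟩, rfl⟩
    · exact (Ideal.span_singleton_prime hπ.ne_zero).2 hπ.prime
    · rw [Ne, Ideal.span_singleton_eq_bot]
      exact hπ.ne_zero
  refine ⟨hα, hN, ?_, ?_⟩
  · intro π hπ _ hπu P hP hπP
    obtain ⟨v, hv⟩ := key π hπ
    have hL := lData_adicCompletion v hv
    obtain ⟨m', hm', hϖ, hfm', hmP⟩ := exists_up_ideal h hL hP hπP
    have hreg := reg_up h hL hm' hϖ hfm'
    obtain ⟨wv, hw⟩ := exists_isValM hL.toCData (hfm.map _) (map_fK hL f) hm' hϖ hfm' hreg
    have hcu : IsUnit (algebraMap F[X] (v.adicCompletionIntegers (RatFunc F)) u) := by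
      rw [hL.toCData.isUnit_iff]
      intro hd
      apply hπu
      have h5 := hL.inj u 1 (by rw [pow_one]; exact hd)
      rwa [pow_one] at h5
    have hloc : bc (v.adicCompletion (RatFunc F)) (fK f) αK ∈
        LocIm ((fK f).map (algebraMap (RatFunc F) (v.adicCompletion (RatFunc F))))
          (algebraMap (v.adicCompletionIntegers (RatFunc F)) (v.adicCompletion (RatFunc F))
            (algebraMap F[X] (v.adicCompletionIntegers (RatFunc F)) u)) := by
      rw [hL.comp]
      exact hs.1 v
    rw [evenAt_iff_val h hL hP hm' hϖ hfm' hmP hw hα hαK]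
    exact even_val_of_mem_locIm hL.toCData (hL.isUnit_two h2) (hfm.map _)
      (by rw [hfm.natDegree_map, hdeg]; exact ⟨g, rfl⟩) (map_fK hL f) hm' hϖ hfm' hreg hw hcu hloc
  · intro π r q hT hπu hπu2 heven
    obtain ⟨v, hv⟩ := key π hT.hπ
    have hL := lData_adicCompletion v hv
    obtain ⟨ρ, h', hh', hdeg', hfh, hρ, hred⟩ := exists_rho h hL hT
    have hP1 := P1_isMaximal h.toPre hT
    have hπP : AdjoinRoot.of f π ∈ P1 f π q := Ideal.subset_span (by simp)
    obtain ⟨m', hm', hϖ, hfm', hmP⟩ := exists_up_ideal h hL hP1 hπP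
    have hreg := reg_up h hL hm' hϖ hfm'
    obtain ⟨wv, hw⟩ := exists_isValM hL.toCData (hfm.map _) (map_fK hL f) hm' hϖ hfm' hreg
    have hirr : Irreducible (h'.map (Ideal.Quotient.mk (Ideal.span
        {algebraMap F[X] (v.adicCompletionIntegers (RatFunc F)) π}))) := by
      rw [hred, ← irreducible_map_iff hL q]
      exact hT.irr
    have hq : q.map (algebraMap F[X] (v.adicCompletionIntegers (RatFunc F))) ∈ m' := by
      have h3 : q ∈ m'.comap (mapRingHom
          (algebraMap F[X] (v.adicCompletionIntegers (RatFunc F)))) := by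
        rw [hmP, Ideal.mem_comap]
        exact Ideal.subset_span (by simp)
      exact h3
    have hh'm : h' ∈ m' := by
      have h3 : (h' - q.map (algebraMap F[X] (v.adicCompletionIntegers (RatFunc F)))).map
          (Ideal.Quotient.mk (Ideal.span
            {algebraMap F[X] (v.adicCompletionIntegers (RatFunc F)) π})) = 0 := by
        rw [Polynomial.map_sub, hred, sub_self]
      have h4 : C (algebraMap F[X] (v.adicCompletionIntegers (RatFunc F)) π) ∣
          h' - q.map (algebraMap F[X] (v.adicCompletionIntegers (RatFunc F))) := by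
        rw [C_dvd_iff_dvd_coeff]
        intro i
        rw [← Ideal.mem_span_singleton, ← Ideal.Quotient.eq_zero_iff_mem, ← coeff_map, h3,
          coeff_zero]
      obtain ⟨t, ht⟩ := h4
      have h5 : h' = C (algebraMap F[X] (v.adicCompletionIntegers (RatFunc F)) π) * t +
          q.map (algebraMap F[X] (v.adicCompletionIntegers (RatFunc F))) := by
        rw [← ht]
        ring
      rw [h5]
      exact Ideal.add_mem _ (Ideal.mul_mem_right _ _ hϖ) hq
    have hspan := st_eq_span hL.toCData hirr hm' hϖ hh'm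
    obtain ⟨u', hu'⟩ := hπu
    have hcu : IsUnit (algebraMap F[X] (v.adicCompletionIntegers (RatFunc F)) u') := by
      rw [hL.toCData.isUnit_iff]
      intro hd
      have h5 := hL.inj u' 1 (by rw [pow_one]; exact hd)
      rw [pow_one] at h5
      apply hπu2
      rw [hu', pow_two]
      exact mul_dvd_mul_left π h5
    have hc : algebraMap F[X] (v.adicCompletionIntegers (RatFunc F)) u =
        algebraMap F[X] (v.adicCompletionIntegers (RatFunc F)) u' *
          algebraMap F[X] (v.adicCompletionIntegers (RatFunc F)) π := by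
      rw [hu', map_mul, mul_comm]
    have hloc : bc (v.adicCompletion (RatFunc F)) (fK f) αK ∈
        LocIm ((fK f).map (algebraMap (RatFunc F) (v.adicCompletion (RatFunc F))))
          (algebraMap (v.adicCompletionIntegers (RatFunc F)) (v.adicCompletion (RatFunc F))
            (algebraMap F[X] (v.adicCompletionIntegers (RatFunc F)) u)) := by
      rw [hL.comp]
      exact hs.1 v
    have hx : ((fK f).map (algebraMap (RatFunc F) (v.adicCompletion (RatFunc F)))).eval₂
        (RingHom.id (v.adicCompletion (RatFunc F)))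
        (algebraMap (v.adicCompletionIntegers (RatFunc F)) (v.adicCompletion (RatFunc F)) ρ) =
        0 := by
      rw [map_fK hL f, hfh, Polynomial.map_mul, eval₂_mul, Polynomial.map_sub, map_X, map_C,
        eval₂_sub, eval₂_X, eval₂_C, RingHom.id_apply, sub_self, zero_mul]
    have hev : Even (Multiplicative.toAdd (wv (bc (v.adicCompletion (RatFunc F)) (fK f) αK))) :=
      (evenAt_iff_val h hL hP1 hm' hϖ hfm' hmP hw hα hαK).1 heven
    have hsq := isSquare_ev_of_even hL.toCData (hL.isUnit_two h2) h.hg hh' hdeg' hirr hfh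
      (map_fK hL f) hspan hw hcu hc hx hloc hev
    exact sqLoc_of_ev h2 h hL hT hρ hx hα hαK (evenAt_P2 h hα hN hT) hsq

end Pool.Agent.Helper96.PS
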