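import Pool.Agent.Helper96.PS.IrrLocal

/-!
# PS-S2: local conditions, small and medium places

`card_loc`: `n ≥ 2kD`: `#{f ∈ BoxW : LocOK} = rho #BoxW` (`equiW` with `m = prodPl π π'`, of degree `2kD`, `locOK_congr`, `card_locOK`).
`small_medium`: let `ϖ` be monic irreducible, `2 deg ϖ + 2kD ≤ n`. If `ϖ` is one of the places, `LocOK` implies `¬ IrrAt f ϖ` (`not_irrAt_of_TS`, `not_irrAt_of_TI`). Otherwise `ϖ²` and `prodPl` are coprime; `equiW` with `m = ϖ² prodPl`, `rep_mul`, `irrAt_congr`, `irr_local`: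
`#{f ∈ BoxW : LocOK, IrrAt f ϖ} ≤ rho #BoxW/(Q_ϖ² - 1)`, `Q_ϖ = q^{deg ϖ}`. There are at most `q^m` monic irreducible `ϖ` of degree `m`: the sum over `ϖ` is `≤ ∑_{m≥1} q^m/(q^{2m} - 1) ≤ 11/20` for `q ≥ 3`: decreasing in `q`, and for `q = 3`: `3/8 + 9/80 + 27/728 + ∑_{m≥4} 3^m/(9^m - 1) ≤ 0.375 + 0.1125 + 0.0371 + 0.0186 < 0.55`
(`3^m/(9^m-1) ≤ (81/80) 3^{-m}`… `∑_{m≥4} 3^{-m} = 1/54`). `q = #F ≥ 3` as `2 ≠ 0`. Only finitely many `ϖ` are involved (`2 deg ϖ ≤ n`).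
-/

namespace Pool.Agent.Helper96.PS

open Polynomial

variable {F : Type*} [Field F]

private theorem prodPl_monic {k D : ℕ} {π π' : Fin k → F[X]} (hpl : Places k D π π') :
    (prodPl π π').Monic :=
  (monic_prod_of_monic _ _ fun i _ => hpl.monic i).mul
    (monic_prod_of_monic _ _ fun i _ => hpl.monic' i)

private theorem prodPl_natDegree {k D : ℕ} {π π' : Fin k → F[X]} (hpl : Places k D π π') :
    (prodPl π π').natDegree = 2 * k * D := by
  unfold prodPl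
  rw [(monic_prod_of_monic _ _ fun i _ => hpl.monic i).natDegree_mul
    (monic_prod_of_monic _ _ fun i _ => hpl.monic' i),
    natDegree_prod_of_monic _ _ fun i _ => hpl.monic i,
    natDegree_prod_of_monic _ _ fun i _ => hpl.monic' i]
  simp only [hpl.deg, hpl.deg', Finset.sum_const, Finset.card_univ, Fintype.card_fin, smul_eq_mul]
  ring

private theorem rho_nonneg {g k : ℕ} {π π' : Fin k → F[X]} : 0 ≤ rho g π π' := by
  unfold rho
  exact mul_nonneg (Finset.prod_nonneg fun i _ => by positivity)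
    (Finset.prod_nonneg fun i _ => by positivity)

private theorem card_pos' [Finite F] : (0 : ℝ) < (Nat.card F : ℝ) := by
  exact_mod_cast Nat.card_pos

private theorem three_le_card [Finite F] (h2 : (2 : F) ≠ 0) : 3 ≤ Nat.card F := by
  have := Fintype.ofFinite F
  rw [Nat.card_eq_fintype_card]
  by_contra hlt
  have h1 : 1 < Fintype.card F := Fintype.one_lt_card
  have h3 : Fintype.card F = 2 := by omega
  have h4 : ((Fintype.card F : ℕ) : F) = 0 := Nat.cast_card_eq_zero F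
  rw [h3] at h4
  exact h2 (by exact_mod_cast h4)

private theorem map_congr_dvd {m m₁ : F[X]} (hd : m₁ ∣ m) {f f' : F[X][X]}
    (h : f.map (AdjoinRoot.mk m) = f'.map (AdjoinRoot.mk m)) :
    f.map (AdjoinRoot.mk m₁) = f'.map (AdjoinRoot.mk m₁) := by
  ext j
  have h1 := congrArg (fun p => p.coeff j) h
  simp only [coeff_map] at h1 ⊢
  rw [AdjoinRoot.mk_eq_mk] at h1 ⊢
  exact hd.trans h1

theorem card_loc [Finite F] {g n k D : ℕ} (w : F[X]) {π π' : Fin k → F[X]}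
    (hpl : Places k D π π') (hn : 2 * k * D ≤ n) :
    ({f | f ∈ BoxW w g n ∧ LocOK g π π' f}.ncard : ℝ) = rho g π π' * (BoxW w g n).ncard := by
  have h1 := equiW (g := g) (n := n) w (prodPl_monic hpl) (by rw [prodPl_natDegree hpl]; exact hn)
    (LocOK g π π') (fun f f' h => locOK_congr f f' h)
  have h2 := card_locOK (g := g) hpl
  rw [prodPl_natDegree hpl] at h1
  have h3 := congrArg (Nat.cast : ℕ → ℝ) h1
  push_cast at h3
  rw [h2] at h3
  have h4 : (0 : ℝ) < (Nat.card F : ℝ) ^ ((2 * g + 1) * (2 * k * D)) := pow_pos card_pos' _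
  exact mul_right_cancel₀ h4.ne' (by linear_combination h3)

/-- The bound for one place. -/
private theorem one_place [Finite F] (h2 : (2 : F) ≠ 0) {g n k D : ℕ} (hg : 1 ≤ g) (w : F[X])
    {π π' : Fin k → F[X]} (hpl : Places k D π π') {ϖ : F[X]} (hm : ϖ.Monic) (hϖ : Irreducible ϖ)
    (hdeg : 2 * ϖ.natDegree + 2 * k * D ≤ n) :
    ({f | f ∈ BoxW w g n ∧ LocOK g π π' f ∧ IrrAt f ϖ}.ncard : ℝ) *
      (((Nat.card F : ℝ) ^ ϖ.natDegree) ^ 2 - 1) ≤ rho g π π' * (BoxW w g n).ncard := by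
  have hq1 : (1 : ℝ) ≤ (Nat.card F : ℝ) := by
    exact_mod_cast Nat.card_pos
  by_cases hpl1 : ∃ i, ϖ = π i
  · obtain ⟨i, rfl⟩ := hpl1
    have h3 : {f | f ∈ BoxW w g n ∧ LocOK g π π' f ∧ IrrAt f (π i)} = ∅ := by
      ext f
      simp only [Set.mem_setOf_eq, Set.mem_empty_iff_false, iff_false]
      rintro ⟨-, hl, hi⟩
      exact not_irrAt_of_TS hg (hpl.irr i) (hl.1 i) hi
    rw [h3, Set.ncard_empty, Nat.cast_zero, zero_mul]
    exact mul_nonneg rho_nonneg (Nat.cast_nonneg _)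
  by_cases hpl2 : ∃ i, ϖ = π' i
  · obtain ⟨i, rfl⟩ := hpl2
    have h3 : {f | f ∈ BoxW w g n ∧ LocOK g π π' f ∧ IrrAt f (π' i)} = ∅ := by
      ext f
      simp only [Set.mem_setOf_eq, Set.mem_empty_iff_false, iff_false]
      rintro ⟨-, hl, hi⟩
      exact not_irrAt_of_TI (hpl.irr' i) (hl.2 i) hi
    rw [h3, Set.ncard_empty, Nat.cast_zero, zero_mul]
    exact mul_nonneg rho_nonneg (Nat.cast_nonneg _)
  have hcop1 : ∀ p : F[X], p.Monic → Irreducible p → ϖ ≠ p → IsCoprime ϖ p := by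
    intro p hpm hp hne
    rw [hϖ.coprime_iff_not_dvd]
    intro hd
    exact hne (eq_of_monic_of_associated hm hpm (hϖ.associated_of_dvd hp hd))
  have hcop : IsCoprime (ϖ ^ 2) (prodPl π π') := by
    refine IsCoprime.pow_left ?_
    unfold prodPl
    refine IsCoprime.mul_right (IsCoprime.prod_right fun i _ => ?_)
      (IsCoprime.prod_right fun i _ => ?_)
    · exact hcop1 _ (hpl.monic i) (hpl.irr i) fun h => hpl1 ⟨i, h⟩
    · exact hcop1 _ (hpl.monic' i) (hpl.irr' i) fun h => hpl2 ⟨i, h⟩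
  have hmm : (ϖ ^ 2).Monic := hm.pow 2
  have hdegm : (ϖ ^ 2 * prodPl π π').natDegree = 2 * ϖ.natDegree + 2 * k * D := by
    rw [hmm.natDegree_mul (prodPl_monic hpl), prodPl_natDegree hpl, hm.natDegree_pow]
  have h3 := equiW (g := g) (n := n) w (hmm.mul (prodPl_monic hpl)) (by rw [hdegm]; exact hdeg)
    (fun f => IrrAt f ϖ ∧ LocOK g π π' f) (fun f f' h => by
      have e1 := irrAt_congr (π := ϖ) (map_congr_dvd (Dvd.intro _ rfl) h)
      have e2 := locOK_congr (g := g) f f' (map_congr_dvd (Dvd.intro_left _ rfl) h)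
      simp only [e1, e2])
  have h4 := rep_mul (g := g) hmm (prodPl_monic hpl) hcop (fun f => IrrAt f ϖ) (LocOK g π π')
    (fun f f' h => irrAt_congr h) (fun f f' h => locOK_congr f f' h)
  have h5 := card_locOK (g := g) hpl
  have h6 := irr_local (g := g) hϖ hm
  rw [h4, hdegm] at h3
  have h7 := congrArg (Nat.cast : ℕ → ℝ) h3
  push_cast at h7
  rw [h5] at h7
  have h8 : {f | f ∈ BoxW w g n ∧ LocOK g π π' f ∧ IrrAt f ϖ} =
      {f | f ∈ BoxW w g n ∧ IrrAt f ϖ ∧ LocOK g π π' f} := by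
    ext f
    simp only [Set.mem_setOf_eq]
    tauto
  rw [h8]
  set Q : ℝ := (Nat.card F : ℝ) ^ ϖ.natDegree with hQ
  set A : ℝ := ({f | f ∈ BoxW w g n ∧ IrrAt f ϖ ∧ LocOK g π π' f}.ncard : ℝ) with hA
  set I : ℝ := ({f | f ∈ Rep g (ϖ ^ 2) ∧ IrrAt f ϖ}.ncard : ℝ) with hI
  set q : ℝ := (Nat.card F : ℝ) with hq
  have hq0 : 0 < q := card_pos'
  have e1 : q ^ ((2 * g + 1) * (2 * ϖ.natDegree + 2 * k * D)) =
      Q ^ (2 * (2 * g + 1)) * q ^ ((2 * g + 1) * (2 * k * D)) := by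
    rw [hQ, ← pow_mul, ← pow_add]
    congr 1
    ring
  rw [e1] at h7
  have hc : (0 : ℝ) < Q ^ (2 * (2 * g + 1)) * q ^ ((2 * g + 1) * (2 * k * D)) := by
    have : 0 < Q := pow_pos hq0 _
    positivity
  have hB : (0 : ℝ) ≤ (BoxW w g n).ncard := Nat.cast_nonneg _
  have hr : (0 : ℝ) ≤ rho g π π' := rho_nonneg
  have hk : (0 : ℝ) ≤ rho g π π' * q ^ ((2 * g + 1) * (2 * k * D)) * (BoxW w g n).ncard := by
    positivity
  have h9 := mul_le_mul_of_nonneg_right h6 hk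
  refine le_of_mul_le_mul_right ?_ hc
  calc A * (Q ^ 2 - 1) * (Q ^ (2 * (2 * g + 1)) * q ^ ((2 * g + 1) * (2 * k * D)))
      = (A * (Q ^ (2 * (2 * g + 1)) * q ^ ((2 * g + 1) * (2 * k * D)))) * (Q ^ 2 - 1) := by ring
    _ = I * (Q ^ 2 - 1) * (rho g π π' * q ^ ((2 * g + 1) * (2 * k * D)) * (BoxW w g n).ncard) := by
        rw [h7]; ring
    _ ≤ Q ^ (2 * (2 * g + 1)) *
        (rho g π π' * q ^ ((2 * g + 1) * (2 * k * D)) * (BoxW w g n).ncard) := h9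
    _ = _ := by ring

/-- The monic irreducible polynomials of degree `m`. -/
private def MI (F : Type*) [Field F] (m : ℕ) : Set F[X] :=
  {p | p.Monic ∧ Irreducible p ∧ p.natDegree = m}

private theorem MI_card [Finite F] (m : ℕ) :
    (MI F m).Finite ∧ (MI F m).ncard ≤ Nat.card F ^ m := by
  have hfin : Finite {p : F[X] // p.Monic ∧ p.natDegree = m} :=
    Finite.of_equiv _ ((monicEquivDegreeLT m).trans (degreeLTEquiv F m).toEquiv).symm
  have hcard : Nat.card {p : F[X] // p.Monic ∧ p.natDegree = m} = Nat.card F ^ m := by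
    rw [Nat.card_congr ((monicEquivDegreeLT m).trans (degreeLTEquiv F m).toEquiv)]
    rw [Nat.card_fun, Nat.card_fin]
  have hsub : MI F m ⊆ {p : F[X] | p.Monic ∧ p.natDegree = m} := fun p hp => ⟨hp.1, hp.2.2⟩
  have hfin' : ({p : F[X] | p.Monic ∧ p.natDegree = m}).Finite := hfin
  refine ⟨hfin'.subset hsub, ?_⟩
  rw [← hcard]
  exact Set.ncard_le_ncard hsub hfin'

/-- The numerical bound. -/
private theorem num_bound {q : ℝ} (hq : 3 ≤ q) (M : ℕ) :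
    ∑ m ∈ Finset.Icc 1 M, q ^ m * (1 / ((q ^ m) ^ 2 - 1)) ≤ 11 / 20 := by
  have hterm : ∀ m : ℕ, 1 ≤ m → q ^ m * (1 / ((q ^ m) ^ 2 - 1)) ≤
      3 ^ m * (1 / (((3 : ℝ) ^ m) ^ 2 - 1)) := by
    intro m hm
    have h1 : (3 : ℝ) ^ m ≤ q ^ m := pow_le_pow_left₀ (by norm_num) hq m
    have h2 : (3 : ℝ) ≤ 3 ^ m := le_self_pow₀ (by norm_num) (by omega)
    set x : ℝ := 3 ^ m
    set y : ℝ := q ^ m
    rw [mul_one_div, mul_one_div, div_le_div_iff₀ (by nlinarith) (by nlinarith)]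
    nlinarith [mul_nonneg (sub_nonneg.mpr h1) (by nlinarith : (0 : ℝ) ≤ x * y + 1)]
  have hterm2 : ∀ m : ℕ, 2 ≤ m → (3 : ℝ) ^ m * (1 / (((3 : ℝ) ^ m) ^ 2 - 1)) ≤
      81 / 80 * (1 / 3 ^ m) := by
    intro m hm
    have h2 : (3 : ℝ) ^ 2 ≤ 3 ^ m := pow_le_pow_right₀ (by norm_num) hm
    set x : ℝ := 3 ^ m
    have hx : (9 : ℝ) ≤ x := by linarith
    rw [mul_one_div, mul_one_div, div_le_div_iff₀ (by nlinarith) (by linarith)]
    nlinarith
  have key : ∀ M : ℕ, ∑ m ∈ Finset.Icc 1 (M + 1), q ^ m * (1 / ((q ^ m) ^ 2 - 1)) ≤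
      87 / 160 - 81 / 160 * (1 / 3 ^ (M + 1)) := by
    intro M
    induction M with
    | zero =>
      rw [zero_add, Finset.Icc_self, Finset.sum_singleton]
      refine (hterm 1 le_rfl).trans ?_
      norm_num
    | succ M ih =>
      rw [Finset.sum_Icc_succ_top (by omega)]
      have h1 := (hterm (M + 1 + 1) (by omega)).trans (hterm2 (M + 1 + 1) (by omega))
      have h3 : (1 : ℝ) / 3 ^ (M + 1) = 3 * (1 / 3 ^ (M + 1 + 1)) := by
        rw [pow_succ (3 : ℝ) (M + 1)]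
        field_simp
      rw [h3] at ih
      linarith
  rcases M with _ | M
  · simp
    norm_num
  · refine (key M).trans ?_
    have : (0 : ℝ) ≤ 81 / 160 * (1 / 3 ^ (M + 1)) := by positivity
    linarith


theorem small_medium [Finite F] (h2 : (2 : F) ≠ 0) {g n k D : ℕ} (hg : 1 ≤ g) (w : F[X])
    {π π' : Fin k → F[X]} (hpl : Places k D π π') :
    ({f | f ∈ BoxW w g n ∧ LocOK g π π' f ∧ ∃ ϖ : F[X], ϖ.Monic ∧ Irreducible ϖ ∧
      2 * ϖ.natDegree + 2 * k * D ≤ n ∧ IrrAt f ϖ}.ncard : ℝ) ≤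
      11 / 20 * rho g π π' * (BoxW w g n).ncard := by
  classical
  have hq3 : (3 : ℝ) ≤ (Nat.card F : ℝ) := by exact_mod_cast three_le_card h2
  set q : ℝ := (Nat.card F : ℝ) with hq
  set R : ℝ := rho g π π' * (BoxW w g n).ncard with hR
  have hR0 : 0 ≤ R := mul_nonneg rho_nonneg (Nat.cast_nonneg _)
  set A : F[X] → Set F[X][X] := fun ϖ => {f | f ∈ BoxW w g n ∧ LocOK g π π' f ∧ IrrAt f ϖ} with hA
  set M : ℕ := (n - 2 * k * D) / 2 with hM
  set T : ℕ → Finset F[X] := fun m => (MI_card (F := F) m).1.toFinset with hT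
  by_cases hn : 2 * k * D ≤ n
  swap
  · have h3 : {f | f ∈ BoxW w g n ∧ LocOK g π π' f ∧ ∃ ϖ : F[X], ϖ.Monic ∧ Irreducible ϖ ∧
        2 * ϖ.natDegree + 2 * k * D ≤ n ∧ IrrAt f ϖ} = ∅ := by
      ext f
      simp only [Set.mem_setOf_eq, Set.mem_empty_iff_false, iff_false]
      rintro ⟨-, -, ϖ, -, -, hd, -⟩
      omega
    rw [h3, Set.ncard_empty, Nat.cast_zero]
    have : (0 : ℝ) ≤ 11 / 20 * R := by positivity
    linarith
  have hsub : {f | f ∈ BoxW w g n ∧ LocOK g π π' f ∧ ∃ ϖ : F[X], ϖ.Monic ∧ Irreducible ϖ ∧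
      2 * ϖ.natDegree + 2 * k * D ≤ n ∧ IrrAt f ϖ} ⊆
      ⋃ m ∈ Finset.Icc 1 M, ⋃ ϖ ∈ T m, A ϖ := by
    rintro f ⟨hf, hl, ϖ, hm, hirr, hd, hi⟩
    simp only [Set.mem_iUnion]
    refine ⟨ϖ.natDegree, ?_, ϖ, ?_, hf, hl, hi⟩
    · rw [Finset.mem_Icc]
      refine ⟨hirr.natDegree_pos, ?_⟩
      rw [hM, Nat.le_div_iff_mul_le (by norm_num)]
      omega
    · rw [hT]
      simp only [Set.Finite.mem_toFinset]
      exact ⟨hm, hirr, rfl⟩
  have hfin : (⋃ m ∈ Finset.Icc 1 M, ⋃ ϖ ∈ T m, A ϖ).Finite := by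
    refine (finite_Box (F := F) g n).subset ?_
    intro f hf
    simp only [Set.mem_iUnion] at hf
    obtain ⟨m, -, ϖ, -, hf⟩ := hf
    exact hf.1.1
  have h3 : ({f | f ∈ BoxW w g n ∧ LocOK g π π' f ∧ ∃ ϖ : F[X], ϖ.Monic ∧ Irreducible ϖ ∧
      2 * ϖ.natDegree + 2 * k * D ≤ n ∧ IrrAt f ϖ}.ncard : ℝ) ≤
      ∑ m ∈ Finset.Icc 1 M, ∑ ϖ ∈ T m, ((A ϖ).ncard : ℝ) := by
    have h4 := Set.ncard_le_ncard hsub hfin
    have h5 := Finset.set_ncard_biUnion_le (Finset.Icc 1 M) (fun m => ⋃ ϖ ∈ T m, A ϖ)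
    have h6 : ∑ m ∈ Finset.Icc 1 M, (⋃ ϖ ∈ T m, A ϖ).ncard ≤
        ∑ m ∈ Finset.Icc 1 M, ∑ ϖ ∈ T m, (A ϖ).ncard :=
      Finset.sum_le_sum fun m _ => Finset.set_ncard_biUnion_le (T m) A
    exact_mod_cast (h4.trans h5).trans h6
  refine h3.trans ?_
  have h4 : ∀ m ∈ Finset.Icc 1 M, ∑ ϖ ∈ T m, ((A ϖ).ncard : ℝ) ≤
      q ^ m * (1 / ((q ^ m) ^ 2 - 1)) * R := by
    intro m hm
    rw [Finset.mem_Icc] at hm
    have hqm : (3 : ℝ) ≤ q ^ m := hq3.trans (le_self_pow₀ (by linarith) (by omega))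
    have hpos : (0 : ℝ) < (q ^ m) ^ 2 - 1 := by nlinarith
    have h5 : ∀ ϖ ∈ T m, ((A ϖ).ncard : ℝ) ≤ 1 / ((q ^ m) ^ 2 - 1) * R := by
      intro ϖ hϖ
      rw [hT] at hϖ
      simp only [Set.Finite.mem_toFinset] at hϖ
      obtain ⟨hmon, hirr, hdeg⟩ := hϖ
      have h6 := one_place h2 hg w hpl hmon hirr (n := n) (by
        rw [hdeg]
        have := hm.2
        rw [hM, Nat.le_div_iff_mul_le (by norm_num)] at this
        omega)
      rw [hdeg] at h6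
      rw [one_div, inv_mul_eq_div, le_div_iff₀ hpos]
      exact h6
    have hcardT : ((T m).card : ℝ) ≤ q ^ m := by
      have h6 := (MI_card (F := F) m).2
      rw [Set.ncard_eq_toFinset_card _ (MI_card (F := F) m).1] at h6
      rw [hq]
      exact_mod_cast h6
    calc ∑ ϖ ∈ T m, ((A ϖ).ncard : ℝ) ≤ ∑ _ϖ ∈ T m, 1 / ((q ^ m) ^ 2 - 1) * R :=
          Finset.sum_le_sum h5
      _ = (T m).card * (1 / ((q ^ m) ^ 2 - 1) * R) := by
          rw [Finset.sum_const, nsmul_eq_mul]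
      _ ≤ q ^ m * (1 / ((q ^ m) ^ 2 - 1) * R) := by
          refine mul_le_mul_of_nonneg_right hcardT ?_
          positivity
      _ = _ := by ring
  calc ∑ m ∈ Finset.Icc 1 M, ∑ ϖ ∈ T m, ((A ϖ).ncard : ℝ)
      ≤ ∑ m ∈ Finset.Icc 1 M, q ^ m * (1 / ((q ^ m) ^ 2 - 1)) * R := Finset.sum_le_sum h4
    _ = (∑ m ∈ Finset.Icc 1 M, q ^ m * (1 / ((q ^ m) ^ 2 - 1))) * R := by
        rw [Finset.sum_mul]
    _ ≤ 11 / 20 * R := mul_le_mul_of_nonneg_right (num_bound hq3 M) hR0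
    _ = _ := by rw [hR]; ring

end Pool.Agent.Helper96.PS
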