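import Pool.Agent.Helper96.PS.GramDeg
import Pool.Agent.Helper96.PS.RedIdeal
import Pool.Agent.Helper96.PS.IxMul

/-!
# PS-A7: the two types of a perfect pairing are opposite

`I J = (z)`, `dg z = 2 μ`, reduced bases `e, e'` of `I, J` with degrees `δ, δ'` (monotone). `N = 2g+1`, `G = gram z e e'`, `det G` a unit
(`isUnit_gram`). `d_i = g n + μ - δ_i`, `d'_i = g n + μ - δ'_i`: `deg G_ij ≤ -d_i - d'_j` (`gram_deg` with `m = 2μ`), so `G_ij = 0` if
`d_i + d'_j > 0`. `d, d'` are antitone. If `d_i + d'_{rev i} > 0` for some `i` then `G_{kl} = 0` for all `k ≤ i`, `l ≤ rev i`: a zero block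
with `(i+1) + (N - i) = N + 1` rows plus columns, so `det G = 0` (every permutation `σ` hits the block: the `i+1` rows `k ≤ i` cannot be mapped
injectively into the `i` columns `l > rev i`), contradiction. So `d_i + d'_{rev i} ≤ 0` for all `i`. The sum over `i` is
`2 N (g n + μ) - ∑ δ - ∑ δ' = 2N(gn + μ) - (ix I + n g N) - (ix J + n g N) = 2 N μ - ix (z) = 0` (`ix_eq`, `ix_mul`, `ix_span`). So all are `0`, i.e.
`δ_i + δ'_{rev i} = 2 (g n + μ)`.

`finrank_sub` (PS-T3b): `W_I = lev I (gn+μ)`, `dim W_I = ∑ (gn + μ - δ_i)⁺ = ∑ (d_i)⁺`, `dim W_J = ∑ (d'_i)⁺ = ∑ (-d_i)⁺`, so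
`dim W_I - dim W_J = ∑ d_i = N(gn+μ) - ix I - n g N = N μ - ix I`, and `ix I + ix J = 2 N μ`: `2 dim W_I + ix I = 2 dim W_J + ix J`.
-/

namespace Pool.Agent.Helper96.PS

open Polynomial

variable {F : Type*} [Field F] {g n : ℕ} {w : F[X]} {f : F[X][X]}

private theorem ts_pigeon {N : ℕ} (i : Fin N) (σ : Equiv.Perm (Fin N)) :
    ∃ l, l ≤ i.rev ∧ σ l ≤ i := by
  by_contra hcon
  push Not at hcon
  have h1 : (Finset.Iic i.rev).card ≤ (Finset.Ioi i).card := by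
    refine Finset.card_le_card_of_injOn σ ?_ σ.injective.injOn
    intro l hl
    exact Finset.mem_coe.2 (Finset.mem_Ioi.2 (hcon l (Finset.mem_Iic.1 (Finset.mem_coe.1 hl))))
  rw [Fin.card_Iic, Fin.card_Ioi, Fin.val_rev] at h1
  have := i.2
  omega

private theorem ts_det {A : Type*} [CommRing A] {N : ℕ} (G : Matrix (Fin N) (Fin N) A)
    (i : Fin N) (hG : ∀ k l, k ≤ i → l ≤ i.rev → G k l = 0) : G.det = 0 := by
  rw [Matrix.det_apply]
  refine Finset.sum_eq_zero fun σ _ => ?_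
  obtain ⟨l, hl, hl'⟩ := ts_pigeon i σ
  have h0 : ∏ i, G (σ i) i = 0 :=
    Finset.prod_eq_zero (f := fun i => G (σ i) i) (Finset.mem_univ l) (hG _ _ hl' hl)
  rw [h0, smul_zero]

private theorem ts_ne (h : Good g n w f) {z : AdjoinRoot f} {μ : ℕ}
    (hz : dg h.monic n z = ((2 * μ : ℕ) : WithBot ℕ)) {I J : Ideal (AdjoinRoot f)}
    (hIJ : I * J = Ideal.span {z}) : z ≠ 0 ∧ I ≠ ⊥ ∧ J ≠ ⊥ := by
  have hz0 : z ≠ 0 := by
    intro h0
    rw [h0, dg_zero] at hz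
    exact WithBot.coe_ne_bot hz.symm
  have hs : Ideal.span {z} ≠ ⊥ := fun h0 => hz0 (Ideal.span_singleton_eq_bot.1 h0)
  refine ⟨hz0, ?_, ?_⟩
  · rintro rfl
    exact hs (by rw [← hIJ, Ideal.bot_mul])
  · rintro rfl
    exact hs (by rw [← hIJ, Ideal.mul_bot])

private theorem ts_ix (h : Good g n w f) {z : AdjoinRoot f} {μ : ℕ}
    (hz : dg h.monic n z = ((2 * μ : ℕ) : WithBot ℕ)) {I J : Ideal (AdjoinRoot f)}
    (hIJ : I * J = Ideal.span {z}) : ix I + ix J = (2 * g + 1) * (2 * μ) := by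
  obtain ⟨-, hI, hJ⟩ := ts_ne h hz hIJ
  rw [← ix_mul h hI hJ, hIJ]
  exact ix_span h.toPre hz

theorem type_symm (h : Good g n w f) {z : AdjoinRoot f} {μ : ℕ}
    (hz : dg h.monic n z = ((2 * μ : ℕ) : WithBot ℕ)) {I J : Ideal (AdjoinRoot f)}
    (hIJ : I * J = Ideal.span {z})
    {e e' : Fin (2 * g + 1) → AdjoinRoot f} {δ δ' : Fin (2 * g + 1) → ℕ}
    (he : RBasis h.monic n I e δ) (he' : RBasis h.monic n J e' δ') (i : Fin (2 * g + 1)) :
    δ i + δ' i.rev = 2 * (g * n + μ) := by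
  obtain ⟨hz0, hI, hJ⟩ := ts_ne h hz hIJ
  have hu := isUnit_gram h.toPre hz0 hIJ he he'
  have hd : ∀ k l, z ∣ e k * e' l := by
    intro k l
    rw [← Ideal.mem_span_singleton, ← hIJ]
    exact Ideal.mul_mem_mul (he.mem k) (he'.mem l)
  have hge : ∀ j : Fin (2 * g + 1), 2 * (g * n + μ) ≤ δ j + δ' j.rev := by
    intro j
    by_contra hlt
    push Not at hlt
    refine hu.ne_zero (ts_det _ j fun k l hk hl => ?_)
    by_contra hne
    have h1 := gram_deg h.toPre hz (fun i => he.dg_eq i) (fun i => he'.dg_eq i) hd k l hne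
    have h2 : δ k ≤ δ j := he.mono hk
    have h3 : δ' l ≤ δ' j.rev := he'.mono hl
    have h4 : (0 : ℤ) ≤ ((gram h.monic z e e' k l).natDegree : ℤ) := Int.natCast_nonneg _
    have h5 : ((δ j + δ' j.rev : ℕ) : ℤ) < ((2 * (g * n + μ) : ℕ) : ℤ) := by exact_mod_cast hlt
    have h6 : (δ k : ℤ) ≤ δ j := by exact_mod_cast h2
    have h7 : (δ' l : ℤ) ≤ δ' j.rev := by exact_mod_cast h3
    push_cast at h1 h5
    nlinarith
  have hsum : ∑ j, (δ j + δ' j.rev) = ∑ _j : Fin (2 * g + 1), 2 * (g * n + μ) := by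
    have h1 : ∑ j : Fin (2 * g + 1), δ' j.rev = ∑ j, δ' j :=
      Equiv.sum_comp (Fin.revPerm : Equiv.Perm (Fin (2 * g + 1))) δ'
    rw [Finset.sum_add_distrib, h1, Finset.sum_const, Finset.card_univ, Fintype.card_fin]
    have e1 := ix_eq h.toPre hI he
    have e2 := ix_eq h.toPre hJ he'
    have e3 : (ix I : ℤ) + ix J = (2 * g + 1) * (2 * μ) := by exact_mod_cast ts_ix h hz hIJ
    have e4 : ((∑ j, δ j + ∑ j, δ' j : ℕ) : ℤ) =
        (((2 * g + 1) • (2 * (g * n + μ)) : ℕ) : ℤ) := by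
      rw [smul_eq_mul]
      push_cast
      linear_combination -e1 - e2 + e3
    exact_mod_cast e4
  have heq := (Finset.sum_eq_sum_iff_of_le (fun j _ => hge j)).1 hsum.symm i (Finset.mem_univ i)
  exact heq.symm

theorem finrank_sub (h : Good g n w f) {z : AdjoinRoot f} {μ : ℕ}
    (hz : dg h.monic n z = ((2 * μ : ℕ) : WithBot ℕ)) {I J : Ideal (AdjoinRoot f)}
    (hIJ : I * J = Ideal.span {z}) :
    2 * Module.finrank F (lev h.monic n I (g * n + μ)) + ix I =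
      2 * Module.finrank F (lev h.monic n J (g * n + μ)) + ix J := by
  obtain ⟨-, hI, hJ⟩ := ts_ne h hz hIJ
  obtain ⟨e, δ, he⟩ := exists_rbasis h.toPre hI
  obtain ⟨e', δ', he'⟩ := exists_rbasis h.toPre hJ
  have h1 : ∑ j : Fin (2 * g + 1), (g * n + μ - δ' j.rev) = ∑ j, (g * n + μ - δ' j) :=
    Equiv.sum_comp (Fin.revPerm : Equiv.Perm (Fin (2 * g + 1))) fun j => g * n + μ - δ' j
  rw [finrank_lev h.toPre he, finrank_lev h.toPre he', ← h1]
  have e1 := ix_eq h.toPre hI he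
  have e3 : (ix I : ℤ) + ix J = (2 * g + 1) * (2 * μ) := by exact_mod_cast ts_ix h hz hIJ
  have e5 : ∀ j : Fin (2 * g + 1), ((g * n + μ - δ j : ℕ) : ℤ) =
      ((g * n + μ - δ' j.rev : ℕ) : ℤ) + ((g * n + μ : ℕ) - (δ j : ℤ)) := by
    intro j
    have h2 := type_symm h hz hIJ he he' j
    omega
  have e6 : ((∑ j, (g * n + μ - δ j) : ℕ) : ℤ) =
      ((∑ j : Fin (2 * g + 1), (g * n + μ - δ' j.rev) : ℕ) : ℤ) +
        ((2 * g + 1) * (g * n + μ) - ∑ j, (δ j : ℤ)) := by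
    rw [Nat.cast_sum, Nat.cast_sum, Finset.sum_congr rfl fun j _ => e5 j, Finset.sum_add_distrib,
      Finset.sum_sub_distrib, Finset.sum_const, Finset.card_univ, Fintype.card_fin]
    push_cast
    rw [nsmul_eq_mul]
    push_cast
    ring
  have e7 : ((2 * ∑ j, (g * n + μ - δ j) + ix I : ℕ) : ℤ) =
      ((2 * ∑ j : Fin (2 * g + 1), (g * n + μ - δ' j.rev) + ix J : ℕ) : ℤ) := by
    rw [Nat.cast_add, Nat.cast_mul, Nat.cast_add, Nat.cast_mul, e6]
    push_cast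
    linear_combination -e3 + 2 * e1
  exact_mod_cast e7

end Pool.Agent.Helper96.PS
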